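import Pool.Agent.Lib.MP_6ff0c5_lc.C.Cert

/-!
MP_6ff0c5_lc, part C: the second drawing, scaled by `M` and perturbed, is approximated by its nominal positions.
-/

set_option autoImplicit false

namespace Pool.Agent.Lib.MP_6ff0c5_lc.C

theorem tabQ_bound (k : ℕ) : -300000 ≤ (tabQ.getD k (0, 0)).1 ∧ (tabQ.getD k (0, 0)).1 ≤ 300000 ∧
    -300000 ≤ (tabQ.getD k (0, 0)).2 ∧ (tabQ.getD k (0, 0)).2 ≤ 300000 := by
  by_cases h : k < 14
  · interval_cases k <;> decide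
  · rw [List.getD_eq_default _ _ (by simpa [tabQ] using h)]
    norm_num

theorem nomQ_bound {v : Vx} (h : inW v = true) : |((nomQ v).1 : ℝ)| ≤ 50000000 ∧ |((nomQ v).2 : ℝ)| ≤ 50000000 := by
  unfold inW at h
  simp only [Bool.and_eq_true, decide_eq_true_eq] at h
  obtain ⟨⟨⟨⟨h1, h2⟩, h3⟩, h4⟩, -⟩ := h
  obtain ⟨b1, b2, b3, b4⟩ := tabQ_bound v.1
  have e1 : -50000000 ≤ (nomQ v).1 ∧ (nomQ v).1 ≤ 50000000 := by unfold nomQ; constructor <;> simp only <;> omega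
  have e2 : -50000000 ≤ (nomQ v).2 ∧ (nomQ v).2 ≤ 50000000 := by unfold nomQ; constructor <;> simp only <;> omega
  rw [abs_le, abs_le]
  exact ⟨⟨by exact_mod_cast e1.1, by exact_mod_cast e1.2⟩, ⟨by exact_mod_cast e2.1, by exact_mod_cast e2.2⟩⟩

/-- a product of small and moderate numbers -/
theorem mul_bound {x y X Y : ℝ} (hx : |x| ≤ X) (hy : |y| ≤ Y) : |x * y| ≤ X * Y := by
  rw [abs_mul]; exact mul_le_mul hx hy (abs_nonneg _) ((abs_nonneg _).trans hx)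

theorem diff_bound {x y X Y : ℝ} (hx : |x| ≤ X) (hy : |y| ≤ Y) : |x - y| ≤ X + Y := by
  rw [abs_le] at *
  constructor <;> linarith [hx.1, hx.2, hy.1, hy.2]

theorem orient_pert {M K D1 D2 : ℝ} (hM : 0 ≤ M) (p q r p' q' r' : Pt)
    (hp : |p'.1 - M * p.1| ≤ K ∧ |p'.2 - M * p.2| ≤ K) (hq : |q'.1 - M * q.1| ≤ K ∧ |q'.2 - M * q.2| ≤ K)
    (hr : |r'.1 - M * r.1| ≤ K ∧ |r'.2 - M * r.2| ≤ K)
    (h1 : |q.1 - p.1| ≤ D1 ∧ |q.2 - p.2| ≤ D1) (h2 : |r.1 - p.1| ≤ D2 ∧ |r.2 - p.2| ≤ D2) :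
    |orient p' q' r' - M ^ 2 * orient p q r| ≤ 4 * K * M * (D1 + D2) + 8 * K ^ 2 := by
  have key : ∀ a b : ℝ, |a| ≤ K → |b| ≤ K → |a - b| ≤ 2 * K := by
    intro a b ha hb
    rw [abs_le] at *
    constructor <;> linarith [ha.1, ha.2, hb.1, hb.2]
  have e1 := mul_bound (key _ _ hq.1 hp.1) h2.2
  have e2 := mul_bound (key _ _ hq.2 hp.2) h2.1
  have e3 := mul_bound h1.1 (key _ _ hr.2 hp.2)
  have e4 := mul_bound h1.2 (key _ _ hr.1 hp.1)
  have e5 := mul_bound (key _ _ hq.1 hp.1) (key _ _ hr.2 hp.2)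
  have e6 := mul_bound (key _ _ hq.2 hp.2) (key _ _ hr.1 hp.1)
  have : orient p' q' r' - M ^ 2 * orient p q r =
      M * ((q'.1 - M * q.1 - (p'.1 - M * p.1)) * (r.2 - p.2) - (q'.2 - M * q.2 - (p'.2 - M * p.2)) * (r.1 - p.1) +
        (q.1 - p.1) * (r'.2 - M * r.2 - (p'.2 - M * p.2)) - (q.2 - p.2) * (r'.1 - M * r.1 - (p'.1 - M * p.1))) +
      ((q'.1 - M * q.1 - (p'.1 - M * p.1)) * (r'.2 - M * r.2 - (p'.2 - M * p.2)) -
        (q'.2 - M * q.2 - (p'.2 - M * p.2)) * (r'.1 - M * r.1 - (p'.1 - M * p.1))) := by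
    unfold orient; ring
  rw [this]
  set A := (q'.1 - M * q.1 - (p'.1 - M * p.1)) * (r.2 - p.2)
  set B := (q'.2 - M * q.2 - (p'.2 - M * p.2)) * (r.1 - p.1)
  set C := (q.1 - p.1) * (r'.2 - M * r.2 - (p'.2 - M * p.2))
  set D := (q.2 - p.2) * (r'.1 - M * r.1 - (p'.1 - M * p.1))
  set E := (q'.1 - M * q.1 - (p'.1 - M * p.1)) * (r'.2 - M * r.2 - (p'.2 - M * p.2))
  set F := (q'.2 - M * q.2 - (p'.2 - M * p.2)) * (r'.1 - M * r.1 - (p'.1 - M * p.1))
  rw [abs_le] at e1 e2 e3 e4 e5 e6 ⊢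
  have hABCD1 : A - B + C - D ≤ 4 * K * (D1 + D2) := by linarith [e1.2, e2.1, e3.2, e4.1]
  have hABCD2 : -(4 * K * (D1 + D2)) ≤ A - B + C - D := by linarith [e1.1, e2.2, e3.1, e4.2]
  constructor
  · nlinarith [mul_le_mul_of_nonneg_left hABCD2 hM, e5.1, e6.2]
  · nlinarith [mul_le_mul_of_nonneg_left hABCD1 hM, e5.2, e6.1]

theorem apprQ {M B : ℝ} (hM : 1000000000 ≤ M) (hB : B ≤ M) {pos : Vx → Pt}
    (hpos : ∀ v, inW v = true → |(pos v).1 - M * ((nomQ v).1 : ℝ)| ≤ 1000 ∧ |(pos v).2 - M * ((nomQ v).2 : ℝ)| ≤ 1000)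
    {s : Pt} (hs : |s.1| ≤ B * M ∧ |s.2| ≤ B * M) : Appr nomQ 1000000 pos s (s.1 / M, s.2 / M) where
  T0 := by norm_num
  st := by
    intro p q r hp hq hr h
    have hM0 : (0 : ℝ) < M := by linarith
    have bp := nomQ_bound hp
    have bq := nomQ_bound hq
    have br := nomQ_bound hr
    have h1 := orient_pert (K := 1000) (D1 := 100000000) (D2 := 100000000) hM0.le (toPt (nomQ p)) (toPt (nomQ q))
      (toPt (nomQ r)) (pos p) (pos q) (pos r) (hpos p hp) (hpos q hq) (hpos r hr)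
      ⟨(diff_bound bq.1 bp.1).trans (by norm_num), (diff_bound bq.2 bp.2).trans (by norm_num)⟩
      ⟨(diff_bound br.1 bp.1).trans (by norm_num), (diff_bound br.2 bp.2).trans (by norm_num)⟩
    rw [orient_toPt, abs_le] at h1
    have h2 : (1000001 : ℝ) ≤ ((iori (nomQ p) (nomQ q) (nomQ r) : ℤ) : ℝ) := by exact_mod_cast h
    have h3 : M ^ 2 * 1000001 ≤ M ^ 2 * ((iori (nomQ p) (nomQ q) (nomQ r) : ℤ) : ℝ) :=
      mul_le_mul_of_nonneg_left h2 (by positivity)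
    nlinarith [h1.1]
  ln := by
    intro p q hp hq h
    have hM0 : (0 : ℝ) < M := by linarith
    rw [oriForm_ev]
    have bp := nomQ_bound hp
    have bq := nomQ_bound hq
    have hs1 : |s.1 / M| ≤ B := by rw [abs_div, abs_of_pos hM0, div_le_iff₀ hM0]; exact hs.1
    have hs2 : |s.2 / M| ≤ B := by rw [abs_div, abs_of_pos hM0, div_le_iff₀ hM0]; exact hs.2
    have h1 := orient_pert (K := 1000) (D1 := 100000000) (D2 := M + 50000000) hM0.le (toPt (nomQ p)) (toPt (nomQ q))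
      (s.1 / M, s.2 / M) (pos p) (pos q) s (hpos p hp) (hpos q hq)
      (by
        constructor
        · simp only; rw [mul_div_cancel₀ _ hM0.ne', sub_self, abs_zero]; norm_num
        · simp only; rw [mul_div_cancel₀ _ hM0.ne', sub_self, abs_zero]; norm_num)
      ⟨(diff_bound bq.1 bp.1).trans (by norm_num), (diff_bound bq.2 bp.2).trans (by norm_num)⟩
      ⟨(diff_bound hs1 bp.1).trans (by linarith), (diff_bound hs2 bp.2).trans (by linarith)⟩
    rw [abs_le] at h1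
    by_contra hcon
    push Not at hcon
    have h3 : M ^ 2 * orient (toPt (nomQ p)) (toPt (nomQ q)) (s.1 / M, s.2 / M) ≤ M ^ 2 * (-1000000) := by
      apply mul_le_mul_of_nonneg_left _ (by positivity)
      push_cast at hcon
      linarith
    nlinarith [h1.2]

end Pool.Agent.Lib.MP_6ff0c5_lc.C
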