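import Pool.Agent.Lib.MP_6ff0c5_lc.Defs

/-!
MP_6ff0c5_lc, part C (geometry): the periodic pattern of rooms.

A vertex is a triple (kind, i, j); the kinds are
0 L1, 1 R1, 2 L2, 3 R2, 4 L3, 5 R3, 6 V, 7 Y, 8 W1, 9 W2, 10 W3, 11 N, 12 centre of an A room, 13 centre of a B room.
`nomP`, `nomQ` are the nominal (integer) positions in the two drawings.
-/

set_option autoImplicit false

namespace Pool.Agent.Lib.MP_6ff0c5_lc.C

/-- A vertex of the pattern: kind and cell. -/
abbrev Vx := ℕ × ℤ × ℤ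

/-- translation of a vertex -/
def sh (v : Vx) (i j : ℤ) : Vx := (v.1, v.2.1 + i, v.2.2 + j)

/-- positions of the vertices of cell (0, 0) in the first drawing -/
def tabP : List (ℤ × ℤ) :=
  [(46, 55), (6, 4), (11, -48), (53, 73), (170, -93), (22, -72), (100, 94), (109, 99), (17, 121), (89, 119), (86, 113),
    (130, -59), (0, 0), (119, 122)]

/-- positions of the vertices of cell (0, 0) in the second drawing -/
def tabQ : List (ℤ × ℤ) :=
  [(0, -42900), (20592, 210168), (143000, 0), (70221, -10053), (24318, 88511), (57200, 144400), (27456, 208724),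
    (24960, 243380), (-5148, 187425), (-12012, 151325), (0, -50611), (17160, 234355), (0, 0), (0, 214500)]

/-- nominal positions in the first drawing -/
def nomP (v : Vx) : ℤ × ℤ := ((tabP.getD v.1 (0, 0)).1 + 200 * v.2.1, (tabP.getD v.1 (0, 0)).2 + 200 * v.2.2)

/-- nominal positions in the second drawing -/
def nomQ (v : Vx) : ℤ × ℤ :=
  ((tabQ.getD v.1 (0, 0)).1 - 214500 * v.2.1 - 429000 * v.2.2,
    (tabQ.getD v.1 (0, 0)).2 + 214500 * v.2.1 - 868500 * v.2.2)

/-- The walls of the rooms of cell (0, 0) as directed edges (the room is on the left): 0-2 walls of the A room, 3-11 walls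
of the B room, 12-19 the walls that close the doors 2, 3 of the A room and 2, 3 of the B room at the border of a patch. -/
def wallTab : List (Vx × Vx) :=
  [((0, 0, 0), (3, 0, 0)), ((2, 0, 0), (5, 0, 0)), ((4, 0, 0), (1, 0, 0)),
    ((1, 0, 0), (6, 0, 0)), ((6, 0, 0), (7, 0, 0)), ((7, 0, 0), (11, 0, 0)), ((11, 0, 0), (2, 1, 0)),
    ((3, 1, 0), (4, 0, 1)), ((5, 0, 1), (8, 0, 0)), ((8, 0, 0), (9, 0, 0)), ((9, 0, 0), (10, 0, 0)),
    ((10, 0, 0), (0, 0, 0)),
    ((3, 0, 0), (13, -1, 0)), ((13, -1, 0), (2, 0, 0)), ((5, 0, 0), (13, 0, -1)), ((13, 0, -1), (4, 0, 0)),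
    ((2, 1, 0), (12, 1, 0)), ((12, 1, 0), (3, 1, 0)), ((4, 0, 1), (12, 0, 1)), ((12, 0, 1), (5, 0, 1))]

/-- the room of a wall: `12` an A room, `13` a B room (the kind of the centre) -/
def wroom (w : ℕ) : ℕ := if w < 3 then 12 else if w < 12 then 13 else if w < 16 then 12 else 13

/-- first vertex of wall `w` of cell `(i, j)` -/
def wu (w : ℕ) (i j : ℤ) : Vx := sh (wallTab.getD w ((0, 0, 0), (0, 0, 0))).1 i j

/-- second vertex of wall `w` of cell `(i, j)` -/
def wv (w : ℕ) (i j : ℤ) : Vx := sh (wallTab.getD w ((0, 0, 0), (0, 0, 0))).2 i j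

/-- twice the signed area of an integer triangle -/
def iori (a b c : ℤ × ℤ) : ℤ := (b.1 - a.1) * (c.2 - a.2) - (b.2 - a.2) * (c.1 - a.1)

/-- an integer point as a real point -/
def toPt (a : ℤ × ℤ) : Pt := ((a.1 : ℝ), (a.2 : ℝ))

theorem orient_toPt (a b c : ℤ × ℤ) : orient (toPt a) (toPt b) (toPt c) = (iori a b c : ℝ) := by
  unfold orient toPt iori; push_cast; ring

/-- Cover: the point `s` covers the wall `(u, v)`: it is (weakly) on the left of it, and no wall of the infinite pattern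
cuts the triangle `u v s`. -/
def Cov (pos : Vx → Pt) (u v : Vx) (s : Pt) : Prop :=
  0 ≤ orient (pos u) (pos v) s ∧ ∀ (w : ℕ) (i j : ℤ), w < 12 →
    (orient (pos v) s (pos (wu w i j)) ≤ 0 ∧ orient (pos v) s (pos (wv w i j)) ≤ 0) ∨
    (orient s (pos u) (pos (wu w i j)) ≤ 0 ∧ orient s (pos u) (pos (wv w i j)) ≤ 0) ∨
    (orient (pos u) (pos v) (pos (wu w i j)) ≤ 0 ∧ orient (pos u) (pos v) (pos (wv w i j)) ≤ 0) ∨
    (0 ≤ orient (pos (wu w i j)) (pos (wv w i j)) (pos u) ∧ 0 ≤ orient (pos (wu w i j)) (pos (wv w i j)) (pos v) ∧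
      0 ≤ orient (pos (wu w i j)) (pos (wv w i j)) s) ∨
    (orient (pos (wu w i j)) (pos (wv w i j)) (pos u) ≤ 0 ∧ orient (pos (wu w i j)) (pos (wv w i j)) (pos v) ≤ 0 ∧
      orient (pos (wu w i j)) (pos (wv w i j)) s ≤ 0)

end Pool.Agent.Lib.MP_6ff0c5_lc.C
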