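import Pool.Agent.Lib.MP_6ff0c5_lc.C.Base

/-!
MP_6ff0c5_lc, part C: certificates (decision trees) that no point covers certain walls simultaneously.
-/

set_option autoImplicit false

namespace Pool.Agent.Lib.MP_6ff0c5_lc.C

/-- The linear form `a x + b y + c`. -/
structure Form where
  a : ℤ
  b : ℤ
  c : ℤ
  deriving Inhabited, DecidableEq

/-- value of a linear form -/
def Form.ev (f : Form) (σ : Pt) : ℝ := (f.a : ℝ) * σ.1 + (f.b : ℝ) * σ.2 + (f.c : ℝ)

def Form.neg (f : Form) : Form := ⟨-f.a, -f.b, -f.c⟩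

/-- the form `σ ↦ orient p q σ` -/
def oriForm (p q : ℤ × ℤ) : Form := ⟨-(q.2 - p.2), q.1 - p.1, -(q.1 - p.1) * p.2 + (q.2 - p.2) * p.1⟩

theorem oriForm_ev (p q : ℤ × ℤ) (σ : Pt) : (oriForm p q).ev σ = orient (toPt p) (toPt q) σ := by
  unfold oriForm Form.ev orient toPt; push_cast; ring

theorem Form.neg_ev (f : Form) (σ : Pt) : f.neg.ev σ = -f.ev σ := by
  unfold Form.neg Form.ev; push_cast; ring

/-- A decision tree: a leaf names three forms whose half-planes have no common point; a node names a covered wall, a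
blocking wall and has three subtrees (the blocker is beyond itself / to the right of the two other sides). -/
inductive Tree
  | l (i j k : ℕ)
  | n (e w : ℕ) (di dj : ℤ) (c a b : Tree)
  deriving Inhabited

/-- three relaxed half-planes have no common point -/
def leafOk (T : ℤ) (f g h : Form) : Bool :=
  let nh := f.a * g.b - f.b * g.a
  let nf := g.a * h.b - g.b * h.a
  let ng := h.a * f.b - h.b * f.a
  let s := nf * (f.c + T) + ng * (g.c + T) + nh * (h.c + T)
  (decide (0 ≤ nf) && decide (0 ≤ ng) && decide (0 ≤ nh) && decide (s < 0)) ||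
    (decide (nf ≤ 0) && decide (ng ≤ 0) && decide (nh ≤ 0) && decide (0 < s))

theorem leafOk_sound {T : ℤ} {f g h : Form} (hc : leafOk T f g h = true) {σ : Pt} (hf : -(T : ℝ) ≤ f.ev σ)
    (hg : -(T : ℝ) ≤ g.ev σ) (hh : -(T : ℝ) ≤ h.ev σ) : False := by
  unfold leafOk at hc
  simp only [Bool.or_eq_true, Bool.and_eq_true, decide_eq_true_eq] at hc
  unfold Form.ev at hf hg hh
  rcases hc with ⟨⟨⟨h1, h2⟩, h3⟩, h4⟩ | ⟨⟨⟨h1, h2⟩, h3⟩, h4⟩
  · have h1' : (0 : ℝ) ≤ ((g.a * h.b - g.b * h.a : ℤ) : ℝ) := by exact_mod_cast h1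
    have h2' : (0 : ℝ) ≤ ((h.a * f.b - h.b * f.a : ℤ) : ℝ) := by exact_mod_cast h2
    have h3' : (0 : ℝ) ≤ ((f.a * g.b - f.b * g.a : ℤ) : ℝ) := by exact_mod_cast h3
    have h4' : (((g.a * h.b - g.b * h.a) * (f.c + T) + (h.a * f.b - h.b * f.a) * (g.c + T) +
      (f.a * g.b - f.b * g.a) * (h.c + T) : ℤ) : ℝ) < 0 := by exact_mod_cast h4
    push_cast at h1' h2' h3' h4'
    have k1 := mul_nonneg h1' (by linarith : (0 : ℝ) ≤ (f.a : ℝ) * σ.1 + f.b * σ.2 + f.c + T)
    have k2 := mul_nonneg h2' (by linarith : (0 : ℝ) ≤ (g.a : ℝ) * σ.1 + g.b * σ.2 + g.c + T)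
    have k3 := mul_nonneg h3' (by linarith : (0 : ℝ) ≤ (h.a : ℝ) * σ.1 + h.b * σ.2 + h.c + T)
    linarith
  · have h1' : ((g.a * h.b - g.b * h.a : ℤ) : ℝ) ≤ 0 := by exact_mod_cast h1
    have h2' : ((h.a * f.b - h.b * f.a : ℤ) : ℝ) ≤ 0 := by exact_mod_cast h2
    have h3' : ((f.a * g.b - f.b * g.a : ℤ) : ℝ) ≤ 0 := by exact_mod_cast h3
    have h4' : 0 < (((g.a * h.b - g.b * h.a) * (f.c + T) + (h.a * f.b - h.b * f.a) * (g.c + T) +
      (f.a * g.b - f.b * g.a) * (h.c + T) : ℤ) : ℝ) := by exact_mod_cast h4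
    push_cast at h1' h2' h3' h4'
    have k1 := mul_nonneg (neg_nonneg.2 h1') (by linarith : (0 : ℝ) ≤ (f.a : ℝ) * σ.1 + f.b * σ.2 + f.c + T)
    have k2 := mul_nonneg (neg_nonneg.2 h2') (by linarith : (0 : ℝ) ≤ (g.a : ℝ) * σ.1 + g.b * σ.2 + g.c + T)
    have k3 := mul_nonneg (neg_nonneg.2 h3') (by linarith : (0 : ℝ) ≤ (h.a : ℝ) * σ.1 + h.b * σ.2 + h.c + T)
    linarith

/-- the vertex is in the window -/
def inW (v : Vx) : Bool := decide (-30 ≤ v.2.1) && decide (v.2.1 ≤ 30) && decide (-30 ≤ v.2.2) && decide (v.2.2 ≤ 30)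
  && decide (v.1 < 14)

def pForms (nom : Vx → ℤ × ℤ) (p q : Vx) : List Form := if p = q then [] else [oriForm (nom p) (nom q)]

/-- check of a decision tree -/
def Tree.check (nom : Vx → ℤ × ℤ) (T : ℤ) (L : List (ℕ × ℤ × ℤ)) : Tree → List Form → Bool
  | .l i j k, S => leafOk T (S.getD i default) (S.getD j default) (S.getD k default)
  | .n e w di dj tc ta tb, S =>
    let E := L.getD e (0, 0, 0)
    let u := wu E.1 E.2.1 E.2.2
    let v := wv E.1 E.2.1 E.2.2
    let y := wu w di dj
    let z := wv w di dj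
    decide (e < L.length) && decide (w < 12) && inW u && inW v && inW y && inW z &&
    (decide (T < iori (nom u) (nom v) (nom y)) || decide (T < iori (nom u) (nom v) (nom z))) &&
    (if (u = y ∨ u = z ∨ -T ≤ iori (nom y) (nom z) (nom u)) ∧ (v = y ∨ v = z ∨ -T ≤ iori (nom y) (nom z) (nom v)) then
      Tree.check nom T L tc (S ++ [oriForm (nom y) (nom z)]) else true) &&
    (if (u = y ∨ u = z ∨ iori (nom y) (nom z) (nom u) ≤ T) ∧ (v = y ∨ v = z ∨ iori (nom y) (nom z) (nom v) ≤ T) then
      Tree.check nom T L tc (S ++ [(oriForm (nom y) (nom z)).neg]) else true) &&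
    Tree.check nom T L ta (S ++ pForms nom v y ++ pForms nom v z) &&
    Tree.check nom T L tb (S ++ pForms nom y u ++ pForms nom z u)

/-- The actual positions `pos` and the point `s` are approximated by the nominal ones and `σ`. -/
structure Appr (nom : Vx → ℤ × ℤ) (T : ℤ) (pos : Vx → Pt) (s σ : Pt) : Prop where
  T0 : 0 ≤ T
  st : ∀ p q r, inW p = true → inW q = true → inW r = true → T < iori (nom p) (nom q) (nom r) →
    0 < orient (pos p) (pos q) (pos r)
  ln : ∀ p q, inW p = true → inW q = true → 0 ≤ orient (pos p) (pos q) s → -(T : ℝ) ≤ (oriForm (nom p) (nom q)).ev σ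

theorem Appr.ln' {nom : Vx → ℤ × ℤ} {T : ℤ} {pos : Vx → Pt} {s σ : Pt} (A : Appr nom T pos s σ) {p q : Vx}
    (hp : inW p = true) (hq : inW q = true) (h : orient (pos p) (pos q) s ≤ 0) :
    -(T : ℝ) ≤ (oriForm (nom p) (nom q)).neg.ev σ := by
  have h1 := A.ln q p hq hp (by unfold orient at *; linarith)
  rw [Form.neg_ev]
  rw [oriForm_ev] at h1 ⊢
  unfold orient at *
  linarith

theorem getD_ev {T : ℤ} (hT : 0 ≤ T) {S : List Form} {σ : Pt} (hS : ∀ f ∈ S, -(T : ℝ) ≤ f.ev σ) (i : ℕ) :
    -(T : ℝ) ≤ (S.getD i default).ev σ := by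
  by_cases h : i < S.length
  · rw [List.getD_eq_getElem _ _ h]
    exact hS _ (List.getElem_mem h)
  · rw [List.getD_eq_default _ _ (not_lt.1 h)]
    have : (default : Form) = ⟨0, 0, 0⟩ := rfl
    rw [this]
    unfold Form.ev
    have : (0 : ℝ) ≤ T := by exact_mod_cast hT
    push_cast
    linarith

theorem pForms_ev {nom : Vx → ℤ × ℤ} {T : ℤ} {pos : Vx → Pt} {s σ : Pt} (A : Appr nom T pos s σ) {p q : Vx}
    (hp : inW p = true) (hq : inW q = true) (h : 0 ≤ orient (pos p) (pos q) s) :
    ∀ f ∈ pForms nom p q, -(T : ℝ) ≤ f.ev σ := by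
  unfold pForms
  split_ifs
  · simp
  · intro f hf
    rw [List.mem_singleton] at hf
    subst hf
    exact A.ln p q hp hq h

theorem check_sound {nom : Vx → ℤ × ℤ} {T : ℤ} {pos : Vx → Pt} {s σ : Pt} (A : Appr nom T pos s σ)
    {L : List (ℕ × ℤ × ℤ)} (hL : ∀ e ∈ L, Cov pos (wu e.1 e.2.1 e.2.2) (wv e.1 e.2.1 e.2.2) s) (t : Tree) :
    ∀ S : List Form, (∀ f ∈ S, -(T : ℝ) ≤ f.ev σ) → t.check nom T L S = true → False := by
  induction t with
  | l i j k =>
    intro S hS h
    unfold Tree.check at h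
    exact leafOk_sound h (getD_ev A.T0 hS i) (getD_ev A.T0 hS j) (getD_ev A.T0 hS k)
  | n e w di dj tc ta tb ihc iha ihb =>
    intro S hS h
    unfold Tree.check at h
    simp only [Bool.and_eq_true, Bool.or_eq_true, decide_eq_true_eq] at h
    obtain ⟨⟨⟨⟨⟨⟨⟨⟨⟨⟨he, hw⟩, hu⟩, hv⟩, hy⟩, hz⟩, hd⟩, hcp⟩, hcm⟩, ha⟩, hb⟩ := h
    have hE : L.getD e (0, 0, 0) ∈ L := by rw [List.getD_eq_getElem _ _ he]; exact List.getElem_mem he
    set E := L.getD e (0, 0, 0) with hEdef
    have hcov := (hL E hE).2 w di dj hw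
    set u := wu E.1 E.2.1 E.2.2
    set v := wv E.1 E.2.1 E.2.2
    set y := wu w di dj
    set z := wv w di dj
    have hrot1 : ∀ a b c : Pt, orient a b c = orient b c a := fun a b c => by unfold orient; ring
    have hswap : ∀ a b c : Pt, orient a b c = -orient b a c := fun a b c => by unfold orient; ring
    rcases hcov with ⟨h1, h2⟩ | ⟨h1, h2⟩ | ⟨h1, h2⟩ | ⟨h1, h2, h3⟩ | ⟨h1, h2, h3⟩
    · refine iha _ ?_ ha
      intro f hf
      rw [List.mem_append, List.mem_append] at hf
      rcases hf with (hf | hf) | hf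
      · exact hS f hf
      · refine pForms_ev A hv hy ?_ f hf
        have := hrot1 (pos y) (pos v) s
        have := hswap (pos y) (pos v) s
        linarith
      · refine pForms_ev A hv hz ?_ f hf
        have := hrot1 (pos z) (pos v) s
        have := hswap (pos z) (pos v) s
        linarith
    · refine ihb _ ?_ hb
      intro f hf
      rw [List.mem_append, List.mem_append] at hf
      rcases hf with (hf | hf) | hf
      · exact hS f hf
      · refine pForms_ev A hy hu ?_ f hf
        have := hrot1 s (pos u) (pos y)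
        have := hswap (pos u) (pos y) s
        linarith
      · refine pForms_ev A hz hu ?_ f hf
        have := hrot1 s (pos u) (pos z)
        have := hswap (pos u) (pos z) s
        linarith
    · rcases hd with hd | hd
      · have := A.st u v y hu hv hy hd
        linarith
      · have := A.st u v z hu hv hz hd
        linarith
    · by_cases hc : (u = y ∨ u = z ∨ -T ≤ iori (nom y) (nom z) (nom u)) ∧
          (v = y ∨ v = z ∨ -T ≤ iori (nom y) (nom z) (nom v))
      · rw [if_pos hc] at hcp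
        refine ihc _ ?_ hcp
        intro f hf
        rw [List.mem_append, List.mem_singleton] at hf
        rcases hf with hf | hf
        · exact hS f hf
        · subst hf
          exact A.ln y z hy hz h3
      · exfalso
        rw [not_and_or] at hc
        rcases hc with hc | hc
        · push Not at hc
          have := A.st z y u hz hy hu (by
            have : iori (nom z) (nom y) (nom u) = -iori (nom y) (nom z) (nom u) := by unfold iori; ring
            rw [this]; linarith [hc.2.2])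
          rw [hswap] at this
          linarith
        · push Not at hc
          have := A.st z y v hz hy hv (by
            have : iori (nom z) (nom y) (nom v) = -iori (nom y) (nom z) (nom v) := by unfold iori; ring
            rw [this]; linarith [hc.2.2])
          rw [hswap] at this
          linarith
    · by_cases hc : (u = y ∨ u = z ∨ iori (nom y) (nom z) (nom u) ≤ T) ∧
          (v = y ∨ v = z ∨ iori (nom y) (nom z) (nom v) ≤ T)
      · rw [if_pos hc] at hcm
        refine ihc _ ?_ hcm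
        intro f hf
        rw [List.mem_append, List.mem_singleton] at hf
        rcases hf with hf | hf
        · exact hS f hf
        · subst hf
          exact A.ln' hy hz h3
      · exfalso
        rw [not_and_or] at hc
        rcases hc with hc | hc
        · push Not at hc
          have := A.st y z u hy hz hu hc.2.2
          linarith
        · push Not at hc
          have := A.st y z v hy hz hv hc.2.2
          linarith

/-- the forms of the covered walls -/
def baseForms (nom : Vx → ℤ × ℤ) (L : List (ℕ × ℤ × ℤ)) : List Form :=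
  L.map fun e => oriForm (nom (wu e.1 e.2.1 e.2.2)) (nom (wv e.1 e.2.1 e.2.2))

/-- A claim: no point covers all walls of `L` and satisfies the forms `E`. -/
def claimOk (nom : Vx → ℤ × ℤ) (T : ℤ) (L : List (ℕ × ℤ × ℤ)) (E : List Form) (t : Tree) : Bool :=
  (L.all fun e => inW (wu e.1 e.2.1 e.2.2) && inW (wv e.1 e.2.1 e.2.2)) && t.check nom T L (baseForms nom L ++ E)

theorem claim_sound {nom : Vx → ℤ × ℤ} {T : ℤ} {pos : Vx → Pt} {s σ : Pt} (A : Appr nom T pos s σ)
    {L : List (ℕ × ℤ × ℤ)} {E : List Form} {t : Tree} (h : claimOk nom T L E t = true)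
    (hL : ∀ e ∈ L, Cov pos (wu e.1 e.2.1 e.2.2) (wv e.1 e.2.1 e.2.2) s) (hE : ∀ f ∈ E, -(T : ℝ) ≤ f.ev σ) : False := by
  unfold claimOk at h
  rw [Bool.and_eq_true, List.all_eq_true] at h
  refine check_sound A hL t _ ?_ h.2
  intro f hf
  rw [List.mem_append] at hf
  rcases hf with hf | hf
  · unfold baseForms at hf
    rw [List.mem_map] at hf
    obtain ⟨e, he, rfl⟩ := hf
    have hw := h.1 e he
    rw [Bool.and_eq_true] at hw
    exact A.ln _ _ hw.1 hw.2 (hL e he).1
  · exact hE f hf

/-- the exact drawing -/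
theorem apprP (T : ℤ) (hT : 0 ≤ T) (s : Pt) : Appr nomP T (fun v => toPt (nomP v)) s s where
  T0 := hT
  st := by
    intro p q r _ _ _ h
    rw [orient_toPt]
    exact_mod_cast lt_of_le_of_lt hT h
  ln := by
    intro p q _ _ h
    rw [oriForm_ev]
    have : (0 : ℝ) ≤ T := by exact_mod_cast hT
    linarith

end Pool.Agent.Lib.MP_6ff0c5_lc.C
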