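import Pool.Agent.Lib.MP_6ff0c5_lc.C.Forced

section

/-!
Symbolic data given by lists of triangles.
-/

set_option autoImplicit false

namespace Pool.Agent.Lib.MP_6ff0c5_lc.C

open Pool.Agent.Lib.MP_6ff0c5_lc.K

/-- Data given by lists: `T` the triangulation, `fill h` the triangulation of the hole `hcyc h`, `h ∈ hs`, `X` the
triangulation of the outside. -/
structure LData {β : Type} (outer : List Vx) (hs : List β) (hcyc : β → List Vx) (pos : Vx → ℤ × ℤ) (st far : List Vx)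
    (r : Vx → Pt) (T : List (Vx × Vx × Vx)) (fill : β → List (Vx × Vx × Vx)) (X : List (Vx × Vx × Vx))
    (Δ : Vx × Vx × Vx) : Prop where
  nodup : (outer ++ (hs.map hcyc).flatten ++ st ++ far).Nodup
  pos_eq : ∀ x ∈ outer ++ (hs.map hcyc).flatten, r x = toPt (pos x)
  memT : ∀ t ∈ T, ∀ x, IsVert t x → x ∈ outer ++ (hs.map hcyc).flatten ++ st
  memF : ∀ h ∈ hs, ∀ t ∈ fill h, ∀ x, IsVert t x → x ∈ outer ++ (hs.map hcyc).flatten ++ st ++ far
  memX : ∀ t ∈ X, ∀ x, IsVert t x → x ∈ outer ++ (hs.map hcyc).flatten ++ st ++ far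
  memΔ : ∀ x, IsVert Δ x → x ∈ far
  posT : ∀ t ∈ T, 0 < otri r t
  posF : ∀ h ∈ hs, ∀ t ∈ fill h, 0 < otri r t
  posX : ∀ t ∈ X, 0 < otri r t
  posΔ : 0 < otri r Δ
  used : ∀ x ∈ outer ++ (hs.map hcyc).flatten ++ st, ∃ t ∈ T, IsVert t x
  bT : ∀ f : Vx → Vx → ℤ, (∀ a b, f b a = -f a b) →
    (T.map (bsum f)).sum = cs f outer - ((hs.map hcyc).map fun c => cs f c).sum
  bF : ∀ f : Vx → Vx → ℤ, (∀ a b, f b a = -f a b) → ∀ h ∈ hs, ((fill h).map (bsum f)).sum = cs f (hcyc h)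
  bX : ∀ f : Vx → Vx → ℤ, (∀ a b, f b a = -f a b) → (X.map (bsum f)).sum = bsum f Δ - cs f outer
  three : ∀ c ∈ outer :: hs.map hcyc, 3 ≤ c.length

theorem sum_get {α : Type*} (l : List α) (g : α → ℤ) : ∑ i : Fin l.length, g (l.get i) = (l.map g).sum := by
  rw [← List.sum_ofFn]
  congr 1
  apply List.ext_get
  · simp
  · intro n h1 h2; simp

section

variable {β : Type} {outer : List Vx} {hs : List β} {hcyc : β → List Vx} {pos : Vx → ℤ × ℤ} {st far : List Vx}
    {r : Vx → Pt} {T : List (Vx × Vx × Vx)} {fill : β → List (Vx × Vx × Vx)} {X : List (Vx × Vx × Vx)}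
    {Δ : Vx × Vx × Vx}

theorem LData.sdata (D : LData outer hs hcyc pos st far r T fill X Δ) :
    SData outer (hs.map hcyc) pos st far r (fun i : Fin T.length => T.get i)
      (fun k : Σ h : Fin hs.length, Fin (fill (hs.get h)).length => (fill (hs.get k.1)).get k.2)
      (fun k => Fin.cast (List.length_map _).symm k.1) (fun i : Fin X.length => X.get i) Δ where
  nodup := D.nodup
  pos_eq := D.pos_eq
  memT := fun i x hx => D.memT _ (List.get_mem _ _) x hx
  memF := fun k x hx => D.memF _ (List.get_mem _ _) _ (List.get_mem _ _) x hx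
  memX := fun i x hx => D.memX _ (List.get_mem _ _) x hx
  memΔ := D.memΔ
  posT := fun i => D.posT _ (List.get_mem _ _)
  posF := fun k => D.posF _ (List.get_mem _ _) _ (List.get_mem _ _)
  posX := fun i => D.posX _ (List.get_mem _ _)
  posΔ := D.posΔ
  used := by
    intro x hx
    obtain ⟨t, ht, h⟩ := D.used x hx
    obtain ⟨i, rfl⟩ := List.mem_iff_get.1 ht
    exact ⟨i, h⟩
  bT := by
    intro f hf
    rw [sum_get T (bsum f)]
    exact D.bT f hf
  bF := by
    intro f hf h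
    have h1 := D.bF f hf (hs.get (Fin.cast (List.length_map _) h)) (List.get_mem _ _)
    have h2 : (hs.map hcyc).get h = hcyc (hs.get (Fin.cast (List.length_map _) h)) := by simp
    rw [h2, ← h1, ← sum_get, Finset.sum_filter, Fintype.sum_sigma]
    rw [Finset.sum_eq_single (Fin.cast (List.length_map _) h)]
    · refine Finset.sum_congr rfl fun i _ => ?_
      rw [if_pos]
      rfl
    · intro h' _ hne
      refine Finset.sum_eq_zero fun i _ => ?_
      rw [if_neg]
      intro e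
      apply hne
      simp only at e
      rw [← e]
      rfl
    · intro hno
      exact absurd (Finset.mem_univ _) hno
  bX := by
    intro f hf
    rw [sum_get X (bsum f)]
    exact D.bX f hf
  three := D.three

end

end Pool.Agent.Lib.MP_6ff0c5_lc.C
end

section

section

/-!
The chain of the reference triangulation without centres is the chain of the walls.

Plan. As in C/ChS.lean. `Same (tE (refA ++ refB)) (wallsE ++ [(3,0,0)→(2,0,0)] ++ [(2,1,0)→(3,1,0)] ++ [(5,0,0)→(4,0,0)] ++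
[(4,0,1)→(5,0,1)])` (the edges at doors 2 and 3; door 1 cancels inside the cell). The door 2 edges of neighbouring cells
cancel: `S f [(2,1,0)→(3,1,0)] i j = - S f [(3,0,0)→(2,0,0)] (i+1) j`, so the sum over `i` leaves
`S f [(3,0,0)→(2,0,0)] 1 j` (cancelled by `cl2`: `Same (tE cl2) (c2 ++ [(2,0,0)→(3,0,0)])`) and
`S f [(2,1,0)→(3,1,0)] (a+1) j` (cancelled by `dl2`: `Same (tE dl2) (d2 ++ [(3,1,0)→(2,1,0)])`); the same for door 3.
-/

set_option autoImplicit false

namespace Pool.Agent.Lib.MP_6ff0c5_lc.C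

open Pool.Agent.Lib.MP_6ff0c5_lc.K

private def q2 : List (Vx × Vx) := [((3, 0, 0), (2, 0, 0))]
private def q3 : List (Vx × Vx) := [((5, 0, 0), (4, 0, 0))]

private theorem same_ref : Same (tE (refA ++ refB))
    (wallsE ++ q2 ++ (q2.map (she 1 0)).map Prod.swap ++ q3 ++ (q3.map (she 0 1)).map Prod.swap) := by
  decide +kernel
private theorem same_cl2 : Same (tE cl2) (c2 ++ q2.map Prod.swap) := by decide +kernel
private theorem same_cl3 : Same (tE cl3) (c3 ++ q3.map Prod.swap) := by decide +kernel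
private theorem same_dl2 : Same (tE dl2) (d2 ++ q2.map (she 1 0)) := by decide +kernel
private theorem same_dl3 : Same (tE dl3) (d3 ++ q3.map (she 0 1)) := by decide +kernel

private theorem sum_fam1 (f : Vx → Vx → ℤ) (tab : List (Vx × Vx × Vx)) (x y : ℕ → ℤ) (k : ℕ) :
    ((fam1 tab x y k).map (bsum f)).sum = ∑ t ∈ Finset.range k, S f (tE tab) (x t) (y t) := by
  unfold fam1
  rw [sum_flatMap_range]
  exact Finset.sum_congr rfl fun t _ => sum_tblk f tab (x t) (y t)

private theorem sum_fam2 (f : Vx → Vx → ℤ) (tab : List (Vx × Vx × Vx)) (m n : ℕ) :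
    ((fam2 tab m n).map (bsum f)).sum =
      ∑ i ∈ Finset.range m, ∑ j ∈ Finset.range n, S f (tE tab) (i + 1) (j + 1) := by
  unfold fam2
  rw [sum_flatMap_range]
  exact Finset.sum_congr rfl fun t _ => sum_fam1 f tab _ _ n

private theorem tele_i (Q : ℤ → ℤ → ℤ) (m n : ℕ) :
    ∑ i ∈ Finset.range m, ∑ j ∈ Finset.range n, (Q (i + 1) (j + 1) + -Q (i + 1 + 1) (j + 1)) =
      ∑ j ∈ Finset.range n, Q 1 (j + 1) + -∑ j ∈ Finset.range n, Q (m + 1) (j + 1) := by
  have h := Finset.sum_range_sub' (fun i : ℕ => ∑ j ∈ Finset.range n, Q (i + 1) (j + 1)) m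
  simp only [Nat.cast_add, Nat.cast_one, Nat.cast_zero, zero_add] at h
  rw [← sub_eq_add_neg, ← h]
  refine Finset.sum_congr rfl fun i _ => ?_
  rw [← Finset.sum_sub_distrib]
  exact Finset.sum_congr rfl fun j _ => (sub_eq_add_neg _ _).symm

private theorem tele_j (Q : ℤ → ℤ → ℤ) (m n : ℕ) :
    ∑ i ∈ Finset.range m, ∑ j ∈ Finset.range n, (Q (i + 1) (j + 1) + -Q (i + 1) (j + 1 + 1)) =
      ∑ i ∈ Finset.range m, Q (i + 1) 1 + -∑ i ∈ Finset.range m, Q (i + 1) (n + 1) := by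
  rw [← sub_eq_add_neg, ← Finset.sum_sub_distrib]
  refine Finset.sum_congr rfl fun i _ => ?_
  have h := Finset.sum_range_sub' (fun j : ℕ => Q (i + 1) (j + 1)) n
  simp only [Nat.cast_add, Nat.cast_one, Nat.cast_zero, zero_add] at h
  rw [← h]
  exact Finset.sum_congr rfl fun j _ => (sub_eq_add_neg _ _).symm

theorem sum_TR {f : Vx → Vx → ℤ} (hf : ∀ a b, f b a = -f a b) (a b : ℕ) :
    ((TR a b).map (bsum f)).sum = wallSum f a b := by
  have e1 : ∀ i j, S f (tE (refA ++ refB)) i j =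
      S f wallsE i j + (S f q2 i j + -S f q2 (i + 1) j) + (S f q3 i j + -S f q3 i (j + 1)) := by
    intro i j
    rw [same_ref.S hf]
    simp only [S_append, S_swap hf, S_shift, add_zero]
    ring
  have e2 : ∀ i j, S f (tE cl2) i j = S f c2 i j + -S f q2 i j := by
    intro i j
    rw [same_cl2.S hf, S_append, S_swap hf]
  have e3 : ∀ i j, S f (tE cl3) i j = S f c3 i j + -S f q3 i j := by
    intro i j
    rw [same_cl3.S hf, S_append, S_swap hf]
  have e4 : ∀ i j, S f (tE dl2) i j = S f d2 i j + S f q2 (i + 1) j := by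
    intro i j
    rw [same_dl2.S hf, S_append, S_shift, add_zero]
  have e5 : ∀ i j, S f (tE dl3) i j = S f d3 i j + S f q3 i (j + 1) := by
    intro i j
    rw [same_dl3.S hf, S_append, S_shift, add_zero]
  unfold TR wallSum dsum
  simp only [List.map_append, List.sum_append, sum_fam1, sum_fam2]
  simp only [e1, e2, e3, e4, e5, Finset.sum_add_distrib]
  have t2 := tele_i (S f q2) (a + 1) (b + 1)
  have t3 := tele_j (S f q3) (a + 1) (b + 1)
  simp only [Finset.sum_add_distrib, Finset.sum_neg_distrib, Nat.cast_add, Nat.cast_one] at t2 t3 ⊢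
  linarith

end Pool.Agent.Lib.MP_6ff0c5_lc.C
end

section

/-!
The pockets of the first drawing: their chain is the hull polygon minus the outer polygon.

Plan. As `cs_outer` (C/Lay.lean): compute `ps f (hullP1 a b)` etc. by `Pc.blocks`, `Pc.block` (the last list `[x]` has sum
`0`), rewrite `cs f (outerL a b)` by `cs_outer` and the left side by `sum_flatMap_range`, `sum_tblk`; all tables are
compared by `Same` and `decide +kernel`: split the outer blocks at `(4,0,0)` resp. `(13,-1,-1)`: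
`Same (pE (botTab ++ [(2,1,0)])) (e1 ++ e2)` with `e1` = path `(2,0,0),(5,0,0),(13,0,-1),(4,0,0)` and `e2` = path
`(4,0,0),(1,0,0),(6,0,0),(7,0,0),(11,0,0),(2,1,0)`; `Same (tE pkBotP) ([(4,0,0)→(4,1,0)] ++ (e2 ++ e1.map (she 1 0)).map swap)`;
similarly `Same (tE pkRightP) ([(3,0,0)→(3,0,1)] ++ (path (3,0,0),(4,-1,1),(1,-1,1),...,(11,-1,1),(2,0,1),(12,0,1),(3,0,1)).map swap)`,
`Same (tE pkTopP) ([(12,0,0)→(12,-1,0)] ++ (path of topTab ++ [(12,-1,0)]).map swap)`,
`Same (tE pkLeftP) ([(13,-1,0)→(13,-1,-1)] ++ ([(13,-1,0)→(2,0,0)] ++ path (2,0,0),…,(13,-1,-1)).map swap)`, and the corners.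
Then finite sums over ranges are compared by `Finset.sum_range_succ`, `Finset.sum_range_succ'`, `sum_reflect` and `linarith`
(as in `walls_comb`). Checked numerically for all `a, b ≤ 3`.
-/

set_option autoImplicit false

namespace Pool.Agent.Lib.MP_6ff0c5_lc.C

open Pool.Agent.Lib.MP_6ff0c5_lc.K

/-! ### The sums along the hull paths -/

theorem XP1_ps1 (f : Vx → Vx → ℤ) (a b : ℕ) : ps f (hullP1 a b) =
    ∑ t ∈ Finset.range a, S f (pE [(4, 0, 0), (4, 1, 0)]) (t + 1) 1 +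
    (S f (pE [(4, 0, 0), (2, 1, 0)]) (a + 1) 1 +
    (S f (pE [(2, 0, 0), (3, 0, 0)]) (a + 2) 1 +
    (∑ t ∈ Finset.range b, S f (pE [(3, 0, 0), (3, 0, 1)]) (a + 2) (t + 1) + 0))) := by
  have h0 : Pc f [(3, (a : ℤ) + 2, (b : ℤ) + 1)] (3, (a : ℤ) + 2, (b : ℤ) + 1) 0 := ⟨⟨[], rfl⟩, rfl⟩
  have h1 := h0.blocks (3, 0, 0) (3, 0, 1) [] (fun _ => (a : ℤ) + 2) (fun t => (t : ℤ) + 1) b
    (by simp [sh]) (by intro t; simp only [sh]; push_cast; ext <;> simp only <;> ring)
  have h2 := h1.block (2, 0, 0) (3, 0, 0) [] (a + 2) 1 (by simp [sh])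
  have h3 := h2.block (4, 0, 0) (2, 1, 0) [] (a + 1) 1 (by simp [sh]; ring)
  have h4 := h3.blocks (4, 0, 0) (4, 1, 0) [] (fun t => (t : ℤ) + 1) (fun _ => 1) a
    (by simp [sh]) (by intro t; simp only [sh]; push_cast; ext <;> simp only <;> ring)
  exact h4.2

theorem XP1_ps2 (f : Vx → Vx → ℤ) (a b : ℕ) : ps f (hullP2 a b) =
    S f (pE [(3, 0, 0), (12, -1, 1)]) (a + 2) (b + 1) +
    (∑ t ∈ Finset.range a, S f (pE [(12, 0, 0), (12, -1, 0)]) (a + 1 - t) (b + 2) +
    (S f (pE [(12, 0, 0), (13, -1, -1)]) 1 (b + 2) + 0)) := by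
  have h0 : Pc f [(13, 0, (b : ℤ) + 1)] (13, 0, (b : ℤ) + 1) 0 := ⟨⟨[], rfl⟩, rfl⟩
  have h1 := h0.block (12, 0, 0) (13, -1, -1) [] 1 (b + 2) (by simp [sh]; ring)
  have h2 := h1.blocks (12, 0, 0) (12, -1, 0) [] (fun t => (a : ℤ) + 1 - t) (fun _ => (b : ℤ) + 2) a
    (by simp [sh]) (by intro t; simp only [sh]; push_cast; ext <;> simp only <;> ring)
  have h3 := h2.block (3, 0, 0) (12, -1, 1) [] (a + 2) (b + 1)
    (by simp only [sh]; push_cast; ext <;> simp only <;> ring)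
  exact h3.2

theorem XP1_ps3 (f : Vx → Vx → ℤ) (b : ℕ) : ps f (hullP3 b) =
    ∑ t ∈ Finset.range b, S f (pE [(13, 0, 0), (13, 0, -1)]) 0 (b + 1 - t) +
    (S f (pE [(13, 0, 0), (5, 1, 0)]) 0 1 + (S f (pE [(5, 0, 0), (4, 0, 0)]) 1 1 + 0)) := by
  have h0 : Pc f [((4, 1, 1) : Vx)] (4, 1, 1) 0 := ⟨⟨[], rfl⟩, rfl⟩
  have h1 := h0.block (5, 0, 0) (4, 0, 0) [] 1 1 (by simp [sh])
  have h2 := h1.block (13, 0, 0) (5, 1, 0) [] 0 1 (by simp [sh])
  have h3 := h2.blocks (13, 0, 0) (13, 0, -1) [] (fun _ => (0 : ℤ)) (fun t => (b : ℤ) + 1 - t) b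
    (by simp [sh]) (by intro t; simp only [sh]; push_cast; ext <;> simp only <;> ring)
  exact h3.2

/-! ### The tables -/

def XP1_E1 : List (Vx × Vx) := [((2, 0, 0), (5, 0, 0))]
def XP1_E1b : List (Vx × Vx) := [((5, 0, 0), (13, 0, -1)), ((13, 0, -1), (4, 0, 0))]
def XP1_E2 : List (Vx × Vx) :=
  [((4, 0, 0), (1, 0, 0)), ((1, 0, 0), (6, 0, 0)), ((6, 0, 0), (7, 0, 0)), ((7, 0, 0), (11, 0, 0)),
    ((11, 0, 0), (2, 1, 0))]
def XP1_B1 : List (Vx × Vx) := [((2, 0, 0), (12, 0, 0)), ((12, 0, 0), (3, 0, 0))]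
def XP1_B2 : List (Vx × Vx) := [((3, 0, 0), (4, -1, 1))]
def XP1_L0 : List (Vx × Vx) := [((12, 0, 0), (5, 0, 0))]
def XP1_G : List (Vx × Vx) :=
  [((5, 0, 0), (8, 0, -1)), ((8, 0, -1), (9, 0, -1)), ((9, 0, -1), (10, 0, -1)), ((10, 0, -1), (0, 0, -1)),
    ((0, 0, -1), (3, 0, -1))]
def XP1_K1 : List (Vx × Vx) := [((3, 0, -1), (13, -1, -1))]
def XP1_K2 : List (Vx × Vx) := [((13, -1, -1), (2, 0, -1))]

theorem XP1_same_bot : Same (pE (botTab ++ [(2, 1, 0)])) (XP1_E1 ++ XP1_E1b ++ XP1_E2) := by decide +kernel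
theorem XP1_same_br : Same (pE (brTab ++ [(4, -1, 1)])) (XP1_B1 ++ XP1_B2) := by decide +kernel
theorem XP1_same_right : Same (pE (rightTab ++ [(4, 0, 1)]))
    (XP1_E2 ++ XP1_B1.map (she 1 0) ++ XP1_B2.map (she 1 0)) := by decide +kernel
theorem XP1_same_tl : Same (pE (tlTab ++ [(2, 0, -1)])) (XP1_L0 ++ XP1_G ++ XP1_K1 ++ XP1_K2) := by decide +kernel
theorem XP1_same_left : Same (pE (leftTab ++ [(2, 0, -1)])) (XP1_E1 ++ XP1_G ++ XP1_K1 ++ XP1_K2) := by
  decide +kernel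

theorem XP1_same_pkBot : Same (tE pkBotP) (pE [(4, 0, 0), (4, 1, 0)] ++
    (XP1_E2 ++ XP1_E1.map (she 1 0) ++ XP1_E1b.map (she 1 0)).map Prod.swap) := by decide +kernel
theorem XP1_same_crBr : Same (tE (crBrP1 ++ crBrP2)) ((pE [(4, 0, 0), (2, 1, 0)]).map (she (-1) 0) ++
    pE [(2, 0, 0), (3, 0, 0)] ++ (XP1_E2.map (she (-1) 0) ++ XP1_B1).map Prod.swap) := by decide +kernel
theorem XP1_same_pkRight : Same (tE pkRightP) (pE [(3, 0, 0), (3, 0, 1)] ++
    (XP1_B2 ++ XP1_E2.map (she (-1) 1) ++ XP1_B1.map (she 0 1)).map Prod.swap) := by decide +kernel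
theorem XP1_same_crTr : Same (tE crTrP) ((pE [(3, 0, 0), (12, -1, 1)]).map (she 0 (-1)) ++
    (XP1_B2.map (she 0 (-1)) ++ (pE (trTab ++ [(12, 0, 0)])).map (she (-1) 0)).map Prod.swap) := by decide +kernel
theorem XP1_same_pkTop : Same (tE pkTopP) (pE [(12, 0, 0), (12, -1, 0)] ++
    (pE (topTab ++ [(12, -1, 0)])).map Prod.swap) := by decide +kernel
theorem XP1_same_crTl : Same (tE crTlP) (pE [(12, 0, 0), (13, -1, -1)] ++
    (XP1_L0 ++ XP1_G ++ XP1_K1).map Prod.swap) := by decide +kernel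
theorem XP1_same_pkLeft : Same (tE pkLeftP) ((pE [(13, 0, 0), (13, 0, -1)]).map (she (-1) 0) ++
    (XP1_K2.map (she 0 1) ++ XP1_E1 ++ XP1_G ++ XP1_K1).map Prod.swap) := by decide +kernel
theorem XP1_same_crBl : Same (tE (crBlP1 ++ crBlP2)) ((pE [(13, 0, 0), (5, 1, 0)]).map (she (-1) 0) ++
    pE [(5, 0, 0), (4, 0, 0)] ++ (XP1_K2.map (she 0 1) ++ XP1_E1 ++ XP1_E1b).map Prod.swap) := by decide +kernel

theorem XP1_comb (E1 E1b E2 B1 B2 TR T L0 G K1 K2 H4 H42 H23 H3 H312 H12 H1213 H13 H135 H54 : ℤ → ℤ → ℤ) (a b : ℕ) :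
    ∑ t ∈ Finset.range a, (H4 (t + 1) 1 + -(E2 (t + 1) 1 + E1 (t + 2) 1 + E1b (t + 2) 1)) +
    ((H42 (a + 1) 1 + H23 (a + 2) 1 + -(E2 (a + 1) 1 + B1 (a + 2) 1)) +
    (∑ t ∈ Finset.range b, (H3 (a + 2) (t + 1) + -(B2 (a + 2) (t + 1) + E2 (a + 1) (t + 2) + B1 (a + 2) (t + 2))) +
    ((H312 (a + 2) (b + 1) + -(B2 (a + 2) (b + 1) + TR (a + 1) (b + 2))) +
    (∑ t ∈ Finset.range a, (H12 (t + 2) (b + 2) + -T (t + 2) (b + 2)) +
    ((H1213 1 (b + 2) + -(L0 1 (b + 2) + G 1 (b + 2) + K1 1 (b + 2))) +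
    (∑ t ∈ Finset.range b, (H13 0 (t + 2) + -(K2 1 (t + 3) + E1 1 (t + 2) + G 1 (t + 2) + K1 1 (t + 2))) +
    (H135 0 1 + H54 1 1 + -(K2 1 2 + E1 1 1 + E1b 1 1)))))))) =
    (∑ t ∈ Finset.range a, H4 (t + 1) 1 + (H42 (a + 1) 1 + (H23 (a + 2) 1 +
      (∑ t ∈ Finset.range b, H3 (a + 2) (t + 1) + 0)))) +
    (H312 (a + 2) (b + 1) + (∑ t ∈ Finset.range a, H12 (a + 1 - t) (b + 2) + (H1213 1 (b + 2) + 0))) +
    (∑ t ∈ Finset.range b, H13 0 (b + 1 - t) + (H135 0 1 + (H54 1 1 + 0))) -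
    (∑ t ∈ Finset.range (a + 1), (E1 (t + 1) 1 + E1b (t + 1) 1 + E2 (t + 1) 1) +
    ((B1 (a + 2) 1 + B2 (a + 2) 1) +
    (∑ t ∈ Finset.range b, (E2 (a + 1) (t + 2) + B1 (a + 2) (t + 2) + B2 (a + 2) (t + 2)) +
    (TR (a + 1) (b + 2) +
    (∑ t ∈ Finset.range a, T (a + 1 - t) (b + 2) +
    ((L0 1 (b + 2) + G 1 (b + 2) + K1 1 (b + 2) + K2 1 (b + 2)) +
    (∑ t ∈ Finset.range b, (E1 1 (b + 1 - t) + G 1 (b + 1 - t) + K1 1 (b + 1 - t) + K2 1 (b + 1 - t)) + 0))))))) := by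
  have ra : ∀ g : ℤ → ℤ, ∑ t ∈ Finset.range a, g (a + 1 - t) = ∑ t ∈ Finset.range a, g (t + 2) := by
    intro g
    have := sum_reflect (fun x => g (x + 1)) a
    have e1 : ∀ t : ℕ, ((a : ℤ) - t + 1) = a + 1 - t := fun t => by ring
    have e2 : ∀ t : ℕ, ((t : ℤ) + 1 + 1) = t + 2 := fun t => by ring
    simpa only [e1, e2] using this
  have rb : ∀ g : ℤ → ℤ, ∑ t ∈ Finset.range b, g (b + 1 - t) = ∑ t ∈ Finset.range b, g (t + 2) := by
    intro g
    have := sum_reflect (fun x => g (x + 1)) b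
    have e1 : ∀ t : ℕ, ((b : ℤ) - t + 1) = b + 1 - t := fun t => by ring
    have e2 : ∀ t : ℕ, ((t : ℤ) + 1 + 1) = t + 2 := fun t => by ring
    simpa only [e1, e2] using this
  have sl : ∀ (k : ℕ) (g : ℤ → ℤ), ∑ j ∈ Finset.range k, g (j + 1) + g (k + 1) =
      ∑ j ∈ Finset.range k, g (j + 2) + g 1 := by
    intro k g
    have h1 := Finset.sum_range_succ (fun j : ℕ => g (j + 1)) k
    have h2 := Finset.sum_range_succ' (fun j : ℕ => g (j + 1)) k
    simp only [Nat.cast_add, Nat.cast_one, Nat.cast_zero, zero_add] at h2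
    have e : ∀ x : ℕ, ((x : ℤ) + 1 + 1) = x + 2 := fun x => by ring
    simp only [e] at h2
    rw [← h1, ← h2]
  have t1 := sl a (fun x => E1 x 1)
  have t2 := sl a (fun x => E1b x 1)
  have t3 := sl b (fun x => B2 (a + 2) x)
  have t4 := sl b (fun x => K2 1 (x + 1))
  have u1 : ∑ t ∈ Finset.range (a + 1), E1 (t + 1) 1 = ∑ t ∈ Finset.range a, E1 (t + 1) 1 + E1 (a + 1) 1 :=
    Finset.sum_range_succ _ _
  have u2 : ∑ t ∈ Finset.range (a + 1), E1b (t + 1) 1 = ∑ t ∈ Finset.range a, E1b (t + 1) 1 + E1b (a + 1) 1 :=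
    Finset.sum_range_succ _ _
  have u3 : ∑ t ∈ Finset.range (a + 1), E2 (t + 1) 1 = ∑ t ∈ Finset.range a, E2 (t + 1) 1 + E2 (a + 1) 1 :=
    Finset.sum_range_succ _ _
  have e3 : ∀ x : ℤ, x + 1 + 1 = x + 2 := fun x => by ring
  have e4 : ∀ x : ℤ, x + 2 + 1 = x + 3 := fun x => by ring
  have e5 : (1 : ℤ) + 1 = 2 := by norm_num
  simp only [e3, e4, e5] at t4
  have r1 := ra (fun x => H12 x (b + 2))
  have r2 := ra (fun x => T x (b + 2))
  have r3 := rb (fun x => H13 0 x)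
  have r4 := rb (fun x => E1 1 x)
  have r5 := rb (fun x => G 1 x)
  have r6 := rb (fun x => K1 1 x)
  have r7 := rb (fun x => K2 1 x)
  simp only [Finset.sum_add_distrib, Finset.sum_neg_distrib]
  linarith

theorem sum_XPk {f : Vx → Vx → ℤ} (hf : ∀ a b, f b a = -f a b) (a b : ℕ) :
    ((XPk a b).map (bsum f)).sum =
      ps f (hullP1 a b) + ps f (hullP2 a b) + ps f (hullP3 b) - cs f (outerL a b) := by
  have h := XP1_comb (S f XP1_E1) (S f XP1_E1b) (S f XP1_E2) (S f XP1_B1) (S f XP1_B2)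
    (S f (pE (trTab ++ [(12, 0, 0)]))) (S f (pE (topTab ++ [(12, -1, 0)]))) (S f XP1_L0) (S f XP1_G) (S f XP1_K1)
    (S f XP1_K2) (S f (pE [(4, 0, 0), (4, 1, 0)])) (S f (pE [(4, 0, 0), (2, 1, 0)])) (S f (pE [(2, 0, 0), (3, 0, 0)]))
    (S f (pE [(3, 0, 0), (3, 0, 1)])) (S f (pE [(3, 0, 0), (12, -1, 1)])) (S f (pE [(12, 0, 0), (12, -1, 0)]))
    (S f (pE [(12, 0, 0), (13, -1, -1)])) (S f (pE [(13, 0, 0), (13, 0, -1)])) (S f (pE [(13, 0, 0), (5, 1, 0)]))
    (S f (pE [(5, 0, 0), (4, 0, 0)])) a b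
  rw [XP1_ps1, XP1_ps2, XP1_ps3, cs_outer]
  unfold XPk fam1
  simp only [List.map_append, List.sum_append, sum_flatMap_range, sum_tblk]
  simp only [XP1_same_bot.S hf, XP1_same_br.S hf, XP1_same_right.S hf, XP1_same_tl.S hf, XP1_same_left.S hf,
    XP1_same_pkBot.S hf, XP1_same_crBr.S hf, XP1_same_pkRight.S hf, XP1_same_crTr.S hf, XP1_same_pkTop.S hf,
    XP1_same_crTl.S hf, XP1_same_pkLeft.S hf, XP1_same_crBl.S hf, S_swap hf, S_append, S_shift]
  have a1 : ∀ x : ℤ, x + 1 + 1 = x + 2 := fun x => by ring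
  have a2 : ∀ x : ℤ, x + 2 + -1 = x + 1 := fun x => by ring
  have a3 : ∀ x : ℤ, x + 2 + 1 = x + 3 := fun x => by ring
  have a4 : (1 : ℤ) + -1 = 0 := by norm_num
  have a5 : (1 : ℤ) + 1 = 2 := by norm_num
  simp only [a1, a2, a3, a4, a5, add_zero] at h ⊢
  exact h

end Pool.Agent.Lib.MP_6ff0c5_lc.C
end

section

/-!
The pockets of the second drawing: their chain is the hull polygon minus the outer polygon. Plan: see C/ChXP1.lean (here the
hull polygon goes through the centres: `Same (tE pkBotQ) ([(13,0,-1)→(13,1,-1)] ++ (path (13,0,-1),(4,0,0),(1,0,0),(6,0,0),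
(7,0,0),(11,0,0),(2,1,0),(5,1,0),(13,1,-1)).map swap)` etc.). Checked numerically for all `a, b ≤ 3`.
-/

set_option autoImplicit false

namespace Pool.Agent.Lib.MP_6ff0c5_lc.C

open Pool.Agent.Lib.MP_6ff0c5_lc.K

/-! ### Elementary paths -/

def xqE1 : List (Vx × Vx) := [((2, 0, 0), (5, 0, 0)), ((5, 0, 0), (13, 0, -1))]
def xqE2 : List (Vx × Vx) :=
  [((13, 0, -1), (4, 0, 0)), ((4, 0, 0), (1, 0, 0)), ((1, 0, 0), (6, 0, 0)), ((6, 0, 0), (7, 0, 0)),
    ((7, 0, 0), (11, 0, 0)), ((11, 0, 0), (2, 1, 0))]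
def xqB : List (Vx × Vx) := [((13, 0, -1), (13, 1, -1))]
def xqO : List (Vx × Vx) := [((13, -1, -1), (12, 0, 0))]
def xqP : List (Vx × Vx) := [((2, 0, 0), (12, 0, 0))]
def xqF1 : List (Vx × Vx) := [((12, 0, 0), (3, 0, 0)), ((3, 0, 0), (4, -1, 1))]
def xqF2 : List (Vx × Vx) :=
  [((4, -1, 1), (1, -1, 1)), ((1, -1, 1), (6, -1, 1)), ((6, -1, 1), (7, -1, 1)), ((7, -1, 1), (11, -1, 1)),
    ((11, -1, 1), (2, 0, 1)), ((2, 0, 1), (12, 0, 1))]
def xqR : List (Vx × Vx) := [((12, 0, 0), (12, 0, 1))]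
def xqU : List (Vx × Vx) := [((12, 0, -1), (12, -1, 0))]
def xqV : List (Vx × Vx) := [((4, -1, 0), (12, -1, 0))]
def xqT : List (Vx × Vx) := [((12, 0, 0), (12, -1, 0))]
def xqH : List (Vx × Vx) := [((12, 0, 0), (13, -1, -1))]
def xqG : List (Vx × Vx) :=
  [((12, 0, 0), (5, 0, 0)), ((5, 0, 0), (8, 0, -1)), ((8, 0, -1), (9, 0, -1)), ((9, 0, -1), (10, 0, -1)),
    ((10, 0, -1), (0, 0, -1)), ((0, 0, -1), (3, 0, -1)), ((3, 0, -1), (13, -1, -1))]
def xqM : List (Vx × Vx) := [((13, -1, 0), (13, -1, -1))]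
def xqL1 : List (Vx × Vx) :=
  [((2, 0, 0), (5, 0, 0)), ((5, 0, 0), (8, 0, -1)), ((8, 0, -1), (9, 0, -1)), ((9, 0, -1), (10, 0, -1)),
    ((10, 0, -1), (0, 0, -1)), ((0, 0, -1), (3, 0, -1)), ((3, 0, -1), (13, -1, -1))]
def xqL3 : List (Vx × Vx) := [((13, -1, 0), (2, 0, 0))]
def xqN : List (Vx × Vx) := [((13, -1, 0), (13, 0, -1))]

/-! ### The tables of the outer polygon -/

theorem xq_bot : Same (pE (botTab ++ [(2, 1, 0)])) (xqE1 ++ xqE2) := by decide +kernel
theorem xq_br : Same (pE (brTab ++ [(4, -1, 1)])) (xqP ++ xqF1) := by decide +kernel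
theorem xq_right : Same (pE (rightTab ++ [(4, 0, 1)])) (xqF2.map (she 1 (-1)) ++ xqF1.map (she 1 0)) := by
  decide +kernel
theorem xq_tr : Same (pE (trTab ++ [(12, 0, 0)])) (xqV.map (she 1 0)) := by decide +kernel
theorem xq_top : Same (pE (topTab ++ [(12, -1, 0)])) (xqT ++ (tE pkTopQ).map Prod.swap) := by decide +kernel
theorem xq_tl : Same (pE (tlTab ++ [(2, 0, -1)])) (xqG ++ xqL3.map (she 0 (-1))) := by decide +kernel
theorem xq_left : Same (pE (leftTab ++ [(2, 0, -1)])) (xqL1 ++ xqL3.map (she 0 (-1))) := by decide +kernel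

/-! ### The tables of the pockets -/

theorem xq_pkBot : Same (tE pkBotQ) (xqB ++ (xqE2 ++ xqE1.map (she 1 0)).map Prod.swap) := by decide +kernel
theorem xq_crBr : Same (tE crBrQ) (xqO ++ (xqE2.map (she (-1) 0) ++ xqP).map Prod.swap) := by decide +kernel
theorem xq_pkRight : Same (tE pkRightQ) (xqR ++ (xqF1 ++ xqF2).map Prod.swap) := by decide +kernel
theorem xq_crTr : Same (tE crTrQ) (xqU ++ (xqF1.map (she 0 (-1)) ++ xqV).map Prod.swap) := by decide +kernel
theorem xq_crTl : Same (tE crTlQ) (xqH ++ xqG.map Prod.swap) := by decide +kernel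
theorem xq_pkLeft : Same (tE pkLeftQ) (xqM ++ (xqL3 ++ xqL1).map Prod.swap) := by decide +kernel
theorem xq_crBl : Same (tE crBlQ) (xqN ++ (xqL3 ++ xqE1).map Prod.swap) := by decide +kernel

variable {f : Vx → Vx → ℤ}

/-! ### The hull polygon -/

theorem xq_hull1 (f : Vx → Vx → ℤ) (a b : ℕ) : ps f (hullQ1 a b) =
    ∑ t ∈ Finset.range a, S f (xqB.map (she 0 1)) (t + 1) 0 +
      (S f (xqO.map (she 1 1)) (a + 1) 0 + (∑ t ∈ Finset.range b, S f xqR (a + 2) (t + 1) + 0)) := by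
  have h0 : Pc f [((12, (a : ℤ) + 2, (b : ℤ) + 1) : Vx)] (12, (a : ℤ) + 2, (b : ℤ) + 1) 0 := ⟨⟨[], rfl⟩, rfl⟩
  have h1 := h0.blocks (12, 0, 0) (12, 0, 1) [] (fun _ => (a + 2 : ℤ)) (fun t => (t + 1 : ℤ)) b
    (by simp [sh]) (by intro t; simp only [sh]; push_cast; ext <;> simp only <;> ring)
  have h2 := h1.block (13, 0, 0) (12, 1, 1) [] (a + 1) 0 (by simp [sh]; ring)
  have h3 := h2.blocks (13, 0, 0) (13, 1, 0) [] (fun t => (t + 1 : ℤ)) (fun _ => (0 : ℤ)) a
    (by simp [sh]) (by intro t; simp only [sh]; push_cast; ext <;> simp only <;> ring)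
  exact h3.2

theorem xq_hull2 (f : Vx → Vx → ℤ) (a b : ℕ) : ps f (hullQ2 a b) =
    S f (xqU.map (she 0 1)) (a + 2) (b + 1) +
      (∑ t ∈ Finset.range a, S f xqT (a + 1 - t) (b + 2) + (S f xqH 1 (b + 2) + 0)) := by
  have h0 : Pc f [((13, 0, (b : ℤ) + 1) : Vx)] (13, 0, (b : ℤ) + 1) 0 := ⟨⟨[], rfl⟩, rfl⟩
  have h1 := h0.block (12, 0, 0) (13, -1, -1) [] 1 (b + 2) (by simp [sh]; ring)
  have h2 := h1.blocks (12, 0, 0) (12, -1, 0) [] (fun t => (a + 1 - t : ℤ)) (fun _ => (b + 2 : ℤ)) a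
    (by simp [sh]) (by intro t; simp only [sh]; push_cast; ext <;> simp only <;> ring)
  have h3 := h2.block (12, 0, 0) (12, -1, 1) [] (a + 2) (b + 1) (by simp [sh]; constructor <;> ring)
  exact h3.2

theorem xq_hull3 (f : Vx → Vx → ℤ) (b : ℕ) : ps f (hullQ3 b) =
    ∑ t ∈ Finset.range b, S f (xqM.map (she 1 0)) 0 (b + 1 - t) + (S f (xqN.map (she 1 0)) 0 1 + 0) := by
  have h0 : Pc f [((13, 1, 0) : Vx)] (13, 1, 0) 0 := ⟨⟨[], rfl⟩, rfl⟩
  have h1 := h0.block (13, 0, 0) (13, 1, -1) [] 0 1 (by simp [sh])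
  have h2 := h1.blocks (13, 0, 0) (13, 0, -1) [] (fun _ => (0 : ℤ)) (fun t => (b + 1 - t : ℤ)) b
    (by simp [sh]) (by intro t; simp only [sh]; push_cast; ext <;> simp only <;> ring)
  exact h2.2

theorem xq_fam1 (f : Vx → Vx → ℤ) (tab : List (Vx × Vx × Vx)) (x y : ℕ → ℤ) (k : ℕ) :
    ((fam1 tab x y k).map (bsum f)).sum = ∑ t ∈ Finset.range k, S f (tE tab) (x t) (y t) := by
  unfold fam1
  rw [sum_flatMap_range]
  exact Finset.sum_congr rfl fun t _ => sum_tblk f tab _ _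

theorem xq_comb (B E1 E2 O P F1 F2 R U V T K H G M L1 L3 N : ℤ → ℤ → ℤ) (a b : ℕ) :
    ∑ t ∈ Finset.range a, (B (t + 1) 1 + -(E2 (t + 1) 1 + E1 (t + 2) 1)) +
    ((O (a + 2) 1 + -(E2 (a + 1) 1 + P (a + 2) 1)) +
    (∑ t ∈ Finset.range b, (R (a + 2) (t + 1) + -(F1 (a + 2) (t + 1) + F2 (a + 2) (t + 1))) +
    ((U (a + 2) (b + 2) + -(F1 (a + 2) (b + 1) + V (a + 2) (b + 2))) +
    (∑ t ∈ Finset.range a, K (t + 2) (b + 2) +
    ((H 1 (b + 2) + -G 1 (b + 2)) +
    (∑ t ∈ Finset.range b, (M 1 (t + 2) + -(L3 1 (t + 2) + L1 1 (t + 2))) +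
    (N 1 1 + -(L3 1 1 + E1 1 1)))))))) =
    (∑ t ∈ Finset.range a, B (t + 1) 1 + (O (a + 2) 1 + (∑ t ∈ Finset.range b, R (a + 2) (t + 1) + 0))) +
    (U (a + 2) (b + 2) + (∑ t ∈ Finset.range a, T (a + 1 - t) (b + 2) + (H 1 (b + 2) + 0))) +
    (∑ t ∈ Finset.range b, M 1 (b + 1 - t) + (N 1 1 + 0)) -
    (∑ t ∈ Finset.range (a + 1), (E1 (t + 1) 1 + E2 (t + 1) 1) +
    ((P (a + 2) 1 + F1 (a + 2) 1) +
    (∑ t ∈ Finset.range b, (F2 (a + 2) (t + 1) + F1 (a + 2) (t + 2)) +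
    (V (a + 2) (b + 2) +
    (∑ t ∈ Finset.range a, (T (a + 1 - t) (b + 2) + -K (a + 1 - t) (b + 2)) +
    ((G 1 (b + 2) + L3 1 (b + 1)) +
    (∑ t ∈ Finset.range b, (L1 1 (b + 1 - t) + L3 1 (b - t)) + 0))))))) := by
  have r1 : ∀ G : ℤ → ℤ → ℤ, ∑ t ∈ Finset.range a, G (a + 1 - t) (b + 2) = ∑ t ∈ Finset.range a, G (t + 2) (b + 2) := by
    intro G
    have := sum_reflect (fun x => G (x + 1) (b + 2)) a
    have e1 : ∀ t : ℕ, ((a : ℤ) - t + 1) = a + 1 - t := fun t => by ring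
    have e2 : ∀ t : ℕ, ((t : ℤ) + 1 + 1) = t + 2 := fun t => by ring
    simpa only [e1, e2] using this
  have r2 : ∀ G : ℤ → ℤ → ℤ, ∑ t ∈ Finset.range b, G 1 (b + 1 - t) = ∑ t ∈ Finset.range b, G 1 (t + 2) := by
    intro G
    have := sum_reflect (fun x => G 1 (x + 1)) b
    have e1 : ∀ t : ℕ, ((b : ℤ) - t + 1) = b + 1 - t := fun t => by ring
    have e2 : ∀ t : ℕ, ((t : ℤ) + 1 + 1) = t + 2 := fun t => by ring
    simpa only [e1, e2] using this
  have r3 := sum_reflect (fun x => L3 1 x) b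
  have s1 : ∀ G : ℤ → ℤ, ∑ j ∈ Finset.range (b + 1), G (j + 1) = ∑ j ∈ Finset.range b, G (j + 1) + G (b + 1) := by
    intro G; rw [Finset.sum_range_succ]
  have s2 : ∀ G : ℤ → ℤ, ∑ j ∈ Finset.range (b + 1), G (j + 1) = ∑ j ∈ Finset.range b, G (j + 2) + G 1 := by
    intro G
    rw [Finset.sum_range_succ']
    simp only [Nat.cast_add, Nat.cast_one, Nat.cast_zero, zero_add]
    have : ∀ x : ℕ, ((x : ℤ) + 1 + 1) = x + 2 := fun x => by ring
    simp only [this]
  have s3 : ∀ G : ℤ → ℤ, ∑ j ∈ Finset.range (a + 1), G (j + 1) = ∑ j ∈ Finset.range a, G (j + 1) + G (a + 1) := by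
    intro G; rw [Finset.sum_range_succ]
  have s4 : ∀ G : ℤ → ℤ, ∑ j ∈ Finset.range (a + 1), G (j + 1) = ∑ j ∈ Finset.range a, G (j + 2) + G 1 := by
    intro G
    rw [Finset.sum_range_succ']
    simp only [Nat.cast_add, Nat.cast_one, Nat.cast_zero, zero_add]
    have : ∀ x : ℕ, ((x : ℤ) + 1 + 1) = x + 2 := fun x => by ring
    simp only [this]
  have t1 := s4 (fun x => E1 x 1)
  have t2 := s3 (fun x => E2 x 1)
  have t3 := s1 (fun x => F1 (a + 2) x)
  have t4 := s2 (fun x => F1 (a + 2) x)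
  have t5 := s1 (fun x => L3 1 x)
  have t6 := s2 (fun x => L3 1 x)
  simp only [Finset.sum_neg_distrib, Finset.sum_add_distrib, r1, r2]
  linarith

theorem sum_XQk {f : Vx → Vx → ℤ} (hf : ∀ a b, f b a = -f a b) (a b : ℕ) :
    ((XQk a b).map (bsum f)).sum =
      ps f (hullQ1 a b) + ps f (hullQ2 a b) + ps f (hullQ3 b) - cs f (outerL a b) := by
  have h := xq_comb (S f xqB) (S f xqE1) (S f xqE2) (S f xqO) (S f xqP) (S f xqF1) (S f xqF2) (S f xqR) (S f xqU)
    (S f xqV) (S f xqT) (S f (tE pkTopQ)) (S f xqH) (S f xqG) (S f xqM) (S f xqL1) (S f xqL3) (S f xqN) a b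
  rw [xq_hull1, xq_hull2, xq_hull3, cs_outer]
  unfold XQk
  simp only [List.map_append, List.sum_append, xq_fam1, sum_tblk]
  simp only [xq_bot.S hf, xq_br.S hf, xq_right.S hf, xq_tr.S hf, xq_top.S hf, xq_tl.S hf, xq_left.S hf,
    xq_pkBot.S hf, xq_crBr.S hf, xq_pkRight.S hf, xq_crTr.S hf, xq_crTl.S hf, xq_pkLeft.S hf, xq_crBl.S hf,
    S_swap hf, S_append, S_shift]
  have a1 : ∀ x : ℤ, x + 1 + 1 = x + 2 := fun x => by ring
  have a2 : ∀ x : ℤ, x + 2 + -1 = x + 1 := fun x => by ring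
  have a3 : ∀ x y : ℤ, x + 1 - y + -1 = x - y := fun x y => by ring
  simp only [a1, a2, a3, add_zero, zero_add] at h ⊢
  exact h

end Pool.Agent.Lib.MP_6ff0c5_lc.C
end

section

/-!
All triangles of the first drawing (except the far ones) are positively oriented.

Plan. `otri posP (mapT (sh · i j) t) = otri posP t` (translation: `posP_sh`, `orient_sub` in C/ClaimThm.lean), `otri posP t` is
the real number `iori (nomP t.1) (nomP t.2.1) (nomP t.2.2)` (`orient_toPt`), and for every table `tab`: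
`∀ t ∈ tab, 0 < iori (nomP t.1) (nomP t.2.1) (nomP t.2.2)` by `decide +kernel`. Members of `fam1`, `fam2`, `tblk` are translates of
members of the tables.
-/

set_option autoImplicit false

namespace Pool.Agent.Lib.MP_6ff0c5_lc.C

open Pool.Agent.Lib.MP_6ff0c5_lc.K

theorem pos_blkP {tab : List (Vx × Vx × Vx)} (h : ∀ t ∈ tab, 0 < iori (nomP t.1) (nomP t.2.1) (nomP t.2.2)) {i j : ℤ}
    {t : Vx × Vx × Vx} (ht : t ∈ tblk tab i j) : 0 < otri posP t := by
  unfold tblk at ht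
  obtain ⟨t0, ht0, rfl⟩ := List.mem_map.1 ht
  have h0 := h t0 ht0
  have e : otri posP (mapT (fun v => sh v i j) t0) = ((iori (nomP t0.1) (nomP t0.2.1) (nomP t0.2.2) : ℤ) : ℝ) := by
    unfold otri mapT posP
    rw [orient_toPt]
    congr 1
    unfold iori nomP sh
    ring
  rw [e]
  exact_mod_cast h0

private theorem pos_fam1P {tab : List (Vx × Vx × Vx)} (h : ∀ t ∈ tab, 0 < iori (nomP t.1) (nomP t.2.1) (nomP t.2.2))
    {x y : ℕ → ℤ} {k : ℕ} {t : Vx × Vx × Vx} (ht : t ∈ fam1 tab x y k) : 0 < otri posP t := by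
  unfold fam1 at ht
  obtain ⟨s, _, hs⟩ := List.mem_flatMap.1 ht
  exact pos_blkP h hs

private theorem pos_fam2P {tab : List (Vx × Vx × Vx)} (h : ∀ t ∈ tab, 0 < iori (nomP t.1) (nomP t.2.1) (nomP t.2.2))
    {m n : ℕ} {t : Vx × Vx × Vx} (ht : t ∈ fam2 tab m n) : 0 < otri posP t := by
  unfold fam2 at ht
  obtain ⟨s, _, hs⟩ := List.mem_flatMap.1 ht
  exact pos_fam1P h hs

theorem pos_TSP {a b : ℕ} {t : Vx × Vx × Vx} (ht : t ∈ TS a b) : 0 < otri posP t := by
  unfold TS at ht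
  rcases List.mem_append.1 ht with ht | ht
  · exact pos_fam2P (by decide +kernel) ht
  · rcases List.mem_append.1 ht with ht | ht
    · exact pos_fam2P (by decide +kernel) ht
    · exact pos_fam2P (by decide +kernel) ht

theorem pos_fillP {i j : ℤ} {t : Vx × Vx × Vx} (ht : t ∈ tblk fillP i j) : 0 < otri posP t := by
  exact pos_blkP (by decide +kernel) ht

theorem pos_XPk {a b : ℕ} {t : Vx × Vx × Vx} (ht : t ∈ XPk a b) : 0 < otri posP t := by
  unfold XPk at ht
  rcases List.mem_append.1 ht with ht | ht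
  · exact pos_fam1P (by decide +kernel) ht
  rcases List.mem_append.1 ht with ht | ht
  · exact pos_blkP (by decide +kernel) ht
  rcases List.mem_append.1 ht with ht | ht
  · exact pos_fam1P (by decide +kernel) ht
  rcases List.mem_append.1 ht with ht | ht
  · exact pos_blkP (by decide +kernel) ht
  rcases List.mem_append.1 ht with ht | ht
  · exact pos_fam1P (by decide +kernel) ht
  rcases List.mem_append.1 ht with ht | ht
  · exact pos_blkP (by decide +kernel) ht
  rcases List.mem_append.1 ht with ht | ht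
  · exact pos_fam1P (by decide +kernel) ht
  · exact pos_blkP (by decide +kernel) ht

end Pool.Agent.Lib.MP_6ff0c5_lc.C
end

section

/-!
The far triangles of the first drawing are positively oriented.

Plan. `rP a b x` is `toPt` of an explicit integer point for every label, `otri` is the real number `iori` of integer points
(`orient_toPt`). For `t ∈ farT D l` find the consecutive pair `(x, y)` of the hull part (members of `pE` of a block list: the
pairs `(4,t+1,1)→(4,t+2,1)`, …) and check the polynomial inequality in `a, b, t` (`nlinarith`/`positivity` after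
`unfold nomP tabP farP hh`; all are linear in the far coordinates times constants, except for the three switch triangles and the
corner edges, which do not depend on `t`). Checked numerically for `a, b ≤ 3`.
-/

set_option autoImplicit false

namespace Pool.Agent.Lib.MP_6ff0c5_lc.C

open Pool.Agent.Lib.MP_6ff0c5_lc.K

/-! ### Members of the path edges of block lists -/

namespace PfA

theorem blk_one (k : ℕ) (i j : ℤ) : blk [(k, 0, 0)] i j = [(k, i, j)] := by
  simp [blk, sh]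

theorem mem_pE_cons2 {x y : Vx} {l : List Vx} {e : Vx × Vx} (h : e ∈ pE (x :: y :: l)) :
    e = (x, y) ∨ e ∈ pE (y :: l) := by
  simpa [pE] using h

theorem mem_pE_one {x : Vx} {e : Vx × Vx} (h : e ∈ pE [x]) : False := by
  simp [pE] at h

/-- the edges of a run of one-element blocks -/
theorem mem_pE_run {g : ℕ → List Vx} (h : ℕ → Vx) (hg : ∀ t, g t = [h t]) (k : ℕ) {y : Vx} (hy : y = h k)
    (rest : List Vx) {e : Vx × Vx} (he : e ∈ pE ((List.range k).flatMap g ++ y :: rest)) :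
    (∃ t < k, e = (h t, h (t + 1))) ∨ e ∈ pE (y :: rest) := by
  subst hy
  induction k generalizing rest with
  | zero => right; simpa using he
  | succ k ih =>
    have e1 : (List.range (k + 1)).flatMap g ++ h (k + 1) :: rest =
        (List.range k).flatMap g ++ h k :: (h (k + 1) :: rest) := by
      rw [List.range_succ, List.flatMap_append]
      simp [hg]
    rw [e1] at he
    rcases ih _ he with ⟨t, ht, h1⟩ | h1
    · exact Or.inl ⟨t, by omega, h1⟩
    · rcases mem_pE_cons2 h1 with h2 | h2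
      · exact Or.inl ⟨k, by omega, h2⟩
      · exact Or.inr h2

/-- the same with a label before the run -/
theorem mem_pE_crun {g : ℕ → List Vx} (h : ℕ → Vx) (hg : ∀ t, g t = [h t]) (k : ℕ) {x y : Vx} (hy : y = h k)
    (rest : List Vx) {e : Vx × Vx} (he : e ∈ pE (x :: ((List.range k).flatMap g ++ y :: rest))) :
    e = (x, h 0) ∨ (∃ t < k, e = (h t, h (t + 1))) ∨ e ∈ pE (y :: rest) := by
  have hl : ∃ l, (List.range k).flatMap g ++ y :: rest = h 0 :: l := by
    cases k with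
    | zero => exact ⟨rest, by simp [hy]⟩
    | succ k =>
      refine ⟨(List.range k).flatMap (fun t => g (t + 1)) ++ y :: rest, ?_⟩
      rw [List.range_succ_eq_map, List.flatMap_cons, List.flatMap_map, hg 0]
      rfl
  obtain ⟨l, hl⟩ := hl
  rw [hl] at he
  rcases mem_pE_cons2 he with h1 | h1
  · exact Or.inl h1
  · rw [← hl] at h1
    exact Or.inr (mem_pE_run h hg k hy rest h1)

/-! ### The hull parts of the first drawing -/

theorem mem_hullP1 {a b : ℕ} {e : Vx × Vx} (he : e ∈ pE (hullP1 a b)) :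
    (∃ t < a, e = ((4, (t : ℤ) + 1, 1), (4, (t : ℤ) + 2, 1))) ∨ e = ((4, (a : ℤ) + 1, 1), (2, (a : ℤ) + 2, 1)) ∨
    e = ((2, (a : ℤ) + 2, 1), (3, (a : ℤ) + 2, 1)) ∨
    ∃ t < b, e = ((3, (a : ℤ) + 2, (t : ℤ) + 1), (3, (a : ℤ) + 2, (t : ℤ) + 2)) := by
  unfold hullP1 at he
  rw [blk_one 4 ((a : ℤ) + 1) 1, blk_one 2 ((a : ℤ) + 2) 1] at he
  rcases mem_pE_run (fun t : ℕ => ((4, (t : ℤ) + 1, 1) : Vx)) (fun t => blk_one 4 _ _) a rfl _ he with ⟨t, ht, h⟩ | h
  · refine Or.inl ⟨t, ht, ?_⟩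
    rw [h]
    push_cast
    ring_nf
  rcases mem_pE_cons2 h with h | h
  · exact Or.inr (Or.inl h)
  rcases mem_pE_crun (fun t : ℕ => ((3, (a : ℤ) + 2, (t : ℤ) + 1) : Vx)) (fun t => blk_one 3 _ _) b rfl _ h with
    h | ⟨t, ht, h⟩ | h
  · refine Or.inr (Or.inr (Or.inl ?_))
    rw [h]
    simp
  · refine Or.inr (Or.inr (Or.inr ⟨t, ht, ?_⟩))
    rw [h]
    push_cast
    ring_nf
  · exact (mem_pE_one h).elim

theorem mem_hullP2 {a b : ℕ} {e : Vx × Vx} (he : e ∈ pE (hullP2 a b)) :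
    e = ((3, (a : ℤ) + 2, (b : ℤ) + 1), (12, (a : ℤ) + 1, (b : ℤ) + 2)) ∨
    (∃ t < a, e = ((12, (a : ℤ) + 1 - t, (b : ℤ) + 2), (12, (a : ℤ) - t, (b : ℤ) + 2))) ∨
    e = ((12, 1, (b : ℤ) + 2), (13, 0, (b : ℤ) + 1)) := by
  unfold hullP2 at he
  rw [blk_one 3 ((a : ℤ) + 2) ((b : ℤ) + 1), blk_one 12 1 ((b : ℤ) + 2)] at he
  rcases mem_pE_crun (fun t : ℕ => ((12, (a : ℤ) + 1 - t, (b : ℤ) + 2) : Vx)) (fun t => blk_one 12 _ _) a (by simp) _ he with
    h | ⟨t, ht, h⟩ | h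
  · refine Or.inl ?_
    rw [h]
    simp
  · refine Or.inr (Or.inl ⟨t, ht, ?_⟩)
    rw [h]
    push_cast
    ring_nf
  · rcases mem_pE_cons2 h with h | h
    · exact Or.inr (Or.inr h)
    · exact (mem_pE_one h).elim

theorem mem_hullP3 {b : ℕ} {e : Vx × Vx} (he : e ∈ pE (hullP3 b)) :
    (∃ t < b, e = ((13, 0, (b : ℤ) + 1 - t), (13, 0, (b : ℤ) - t))) ∨ e = ((13, 0, 1), (5, 1, 1)) ∨
    e = ((5, 1, 1), (4, 1, 1)) := by
  unfold hullP3 at he
  rw [blk_one 13 0 1, blk_one 5 1 1] at he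
  rcases mem_pE_run (fun t : ℕ => ((13, 0, (b : ℤ) + 1 - t) : Vx)) (fun t => blk_one 13 _ _) b (by simp) _ he with
    ⟨t, ht, h⟩ | h
  · refine Or.inl ⟨t, ht, ?_⟩
    rw [h]
    push_cast
    ring_nf
  rcases mem_pE_cons2 h with h | h
  · exact Or.inr (Or.inl h)
  rcases mem_pE_cons2 h with h | h
  · exact Or.inr (Or.inr h)
  · exact (mem_pE_one h).elim

/-! ### Orientations -/

theorem rP_lo (a b k : ℕ) (i j : ℤ) (hk : k < 14) : rP a b (k, i, j) = toPt (nomP (k, i, j)) := by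
  unfold rP posP
  rw [if_neg (by simpa using hk)]

theorem rP_hi (a b k : ℕ) (i j : ℤ) (hk : 14 ≤ k) : rP a b (k, i, j) = toPt (farP a b k) := by
  unfold rP
  rw [if_pos (by simpa using hk)]

theorem key_far {a b k l D : ℕ} {i j i' j' : ℤ} (hk : k < 14) (hl : l < 14) (hD : 14 ≤ D)
    (h : 0 < iori (nomP (k, i, j)) (nomP (l, i', j')) (farP a b D)) :
    0 < otri (rP a b) ((k, i, j), (l, i', j'), (D, 0, 0)) := by
  unfold otri
  rw [rP_lo a b k i j hk, rP_lo a b l i' j' hl, rP_hi a b D 0 0 hD, orient_toPt]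
  exact_mod_cast h

theorem key_sw {a b k D E : ℕ} {i j : ℤ} (hk : k < 14) (hD : 14 ≤ D) (hE : 14 ≤ E)
    (h : 0 < iori (nomP (k, i, j)) (farP a b D) (farP a b E)) :
    0 < otri (rP a b) ((k, i, j), (D, 0, 0), (E, 0, 0)) := by
  unfold otri
  rw [rP_lo a b k i j hk, rP_hi a b D 0 0 hD, rP_hi a b E 0 0 hE, orient_toPt]
  exact_mod_cast h

theorem mem_farT {D : Vx} {l : List Vx} {t : Vx × Vx × Vx} (h : t ∈ farT D l) :
    ∃ e ∈ pE l, t = (e.2, e.1, D) := by
  unfold farT at h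
  obtain ⟨e, he, h⟩ := List.mem_map.1 h
  exact ⟨e, he, h.symm⟩

theorem nomP2 (i j : ℤ) : nomP (2, i, j) = (11 + 200 * i, -48 + 200 * j) := rfl
theorem nomP3 (i j : ℤ) : nomP (3, i, j) = (53 + 200 * i, 73 + 200 * j) := rfl
theorem nomP4 (i j : ℤ) : nomP (4, i, j) = (170 + 200 * i, -93 + 200 * j) := rfl
theorem nomP5 (i j : ℤ) : nomP (5, i, j) = (22 + 200 * i, -72 + 200 * j) := rfl
theorem nomP12 (i j : ℤ) : nomP (12, i, j) = (0 + 200 * i, 0 + 200 * j) := rfl
theorem nomP13 (i j : ℤ) : nomP (13, i, j) = (119 + 200 * i, 122 + 200 * j) := rfl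
theorem farP14 (a b : ℕ) : farP a b 14 = (600 * (10 * ((a : ℤ) + b + 12)), -600 * (10 * ((a : ℤ) + b + 12))) := rfl
theorem farP15 (a b : ℕ) : farP a b 15 = (0, 600 * (10 * ((a : ℤ) + b + 12))) := rfl
theorem farP16 (a b : ℕ) : farP a b 16 = (-600 * (10 * ((a : ℤ) + b + 12)), 0) := rfl

end PfA

open PfA

theorem pos_XPf {a b : ℕ} {t : Vx × Vx × Vx} (ht : t ∈ XPf a b) : 0 < otri (rP a b) t := by
  have ha : (0 : ℤ) ≤ a := Int.natCast_nonneg a
  have hb : (0 : ℤ) ≤ b := Int.natCast_nonneg b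
  unfold XPf at ht
  rcases List.mem_append.1 ht with h | ht
  · obtain ⟨e, he, rfl⟩ := mem_farT h
    rcases mem_hullP1 he with ⟨s, hs, rfl⟩ | rfl | rfl | ⟨s, hs, rfl⟩
    · have hs0 : (0 : ℤ) ≤ s := Int.natCast_nonneg s
      have hs1 : (s : ℤ) < a := by exact_mod_cast hs
      refine key_far (by norm_num) (by norm_num) (by norm_num) ?_
      rw [nomP4, nomP4, farP14]
      unfold iori
      simp only
      linarith
    · refine key_far (by norm_num) (by norm_num) (by norm_num) ?_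
      rw [nomP2, nomP4, farP14]
      unfold iori
      simp only
      linarith
    · refine key_far (by norm_num) (by norm_num) (by norm_num) ?_
      rw [nomP3, nomP2, farP14]
      unfold iori
      simp only
      linarith
    · have hs0 : (0 : ℤ) ≤ s := Int.natCast_nonneg s
      have hs1 : (s : ℤ) < b := by exact_mod_cast hs
      refine key_far (by norm_num) (by norm_num) (by norm_num) ?_
      rw [nomP3, nomP3, farP14]
      unfold iori
      simp only
      linarith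
  rcases List.mem_append.1 ht with h | ht
  · obtain ⟨e, he, rfl⟩ := mem_farT h
    rcases mem_hullP2 he with rfl | ⟨s, hs, rfl⟩ | rfl
    · refine key_far (by norm_num) (by norm_num) (by norm_num) ?_
      rw [nomP12, nomP3, farP15]
      unfold iori
      simp only
      linarith
    · have hs0 : (0 : ℤ) ≤ s := Int.natCast_nonneg s
      have hs1 : (s : ℤ) < a := by exact_mod_cast hs
      refine key_far (by norm_num) (by norm_num) (by norm_num) ?_
      rw [nomP12, nomP12, farP15]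
      unfold iori
      simp only
      linarith
    · refine key_far (by norm_num) (by norm_num) (by norm_num) ?_
      rw [nomP13, nomP12, farP15]
      unfold iori
      simp only
      linarith
  rcases List.mem_append.1 ht with h | ht
  · obtain ⟨e, he, rfl⟩ := mem_farT h
    rcases mem_hullP3 he with ⟨s, hs, rfl⟩ | rfl | rfl
    · have hs0 : (0 : ℤ) ≤ s := Int.natCast_nonneg s
      have hs1 : (s : ℤ) < b := by exact_mod_cast hs
      refine key_far (by norm_num) (by norm_num) (by norm_num) ?_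
      rw [nomP13, nomP13, farP16]
      unfold iori
      simp only
      linarith
    · refine key_far (by norm_num) (by norm_num) (by norm_num) ?_
      rw [nomP5, nomP13, farP16]
      unfold iori
      simp only
      linarith
    · refine key_far (by norm_num) (by norm_num) (by norm_num) ?_
      rw [nomP4, nomP5, farP16]
      unfold iori
      simp only
      linarith
  · simp only [List.mem_cons, List.not_mem_nil, or_false] at ht
    rcases ht with rfl | rfl | rfl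
    · refine key_sw (by norm_num) (by norm_num) (by norm_num) ?_
      rw [nomP3, farP14, farP15]
      unfold iori
      simp only
      nlinarith [mul_nonneg ha hb, mul_nonneg ha ha, mul_nonneg hb hb]
    · refine key_sw (by norm_num) (by norm_num) (by norm_num) ?_
      rw [nomP13, farP15, farP16]
      unfold iori
      simp only
      nlinarith [mul_nonneg ha hb, mul_nonneg ha ha, mul_nonneg hb hb]
    · refine key_sw (by norm_num) (by norm_num) (by norm_num) ?_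
      rw [nomP4, farP16, farP14]
      unfold iori
      simp only
      nlinarith [mul_nonneg ha hb, mul_nonneg ha ha, mul_nonneg hb hb]

theorem pos_bigP (a b : ℕ) : 0 < otri (rP a b) bigT := by
  have ha : (0 : ℤ) ≤ a := Int.natCast_nonneg a
  have hb : (0 : ℤ) ≤ b := Int.natCast_nonneg b
  unfold otri bigT
  rw [rP_hi a b 14 0 0 (by norm_num), rP_hi a b 15 0 0 (by norm_num), rP_hi a b 16 0 0 (by norm_num), orient_toPt,
    farP14, farP15, farP16]
  have h : 0 < iori (600 * (10 * ((a : ℤ) + b + 12)), -600 * (10 * ((a : ℤ) + b + 12)))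
      (0, 600 * (10 * ((a : ℤ) + b + 12))) (-600 * (10 * ((a : ℤ) + b + 12)), 0) := by
    unfold iori
    simp only
    nlinarith [mul_nonneg ha hb, mul_nonneg ha ha, mul_nonneg hb hb]
  exact_mod_cast h

end Pool.Agent.Lib.MP_6ff0c5_lc.C
end

section

/-!
All triangles of the second drawing without centres (except the far ones) are positively oriented.

Plan. For every table: all labels satisfy `inW` and `1000000 < iori (nomQ t.1) (nomQ t.2.1) (nomQ t.2.2)` (`decide +kernel`);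
`(qpos M hM N).sh i j` and `QPos.st` (C/ClaimThm.lean) give positivity of the translated drawing `shQ`, and
`shQ M pos i j v = pos (sh v i j) - c`, `orient_sub`.
-/

set_option autoImplicit false

namespace Pool.Agent.Lib.MP_6ff0c5_lc.C

open Pool.Agent.Lib.MP_6ff0c5_lc.K

theorem mem_fam1Q {tab : List (Vx × Vx × Vx)} {x y : ℕ → ℤ} {k : ℕ} {t : Vx × Vx × Vx} (h : t ∈ fam1 tab x y k) :
    ∃ i j : ℤ, t ∈ tblk tab i j := by
  unfold fam1 at h
  rw [List.mem_flatMap] at h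
  obtain ⟨s, _, hs⟩ := h
  exact ⟨_, _, hs⟩

theorem mem_fam2Q {tab : List (Vx × Vx × Vx)} {m n : ℕ} {t : Vx × Vx × Vx} (h : t ∈ fam2 tab m n) :
    ∃ i j : ℤ, t ∈ tblk tab i j := by
  unfold fam2 at h
  rw [List.mem_flatMap] at h
  obtain ⟨s, _, hs⟩ := h
  exact mem_fam1Q hs

/-- the check of a table -/
def okQ (tab : List (Vx × Vx × Vx)) : Prop := ∀ t ∈ tab, inW t.1 = true ∧ inW t.2.1 = true ∧ inW t.2.2 = true ∧
  1000000 < iori (nomQ t.1) (nomQ t.2.1) (nomQ t.2.2)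

instance (tab : List (Vx × Vx × Vx)) : Decidable (okQ tab) := by unfold okQ; infer_instance

theorem pos_blkQ {M : ℤ} (hM : 1000000000 ≤ M) (N : N.Net) {tab : List (Vx × Vx × Vx)}
    (h : ∀ t ∈ tab, inW t.1 = true ∧ inW t.2.1 = true ∧ inW t.2.2 = true ∧
      1000000 < iori (nomQ t.1) (nomQ t.2.1) (nomQ t.2.2)) {i j : ℤ}
    {t : Vx × Vx × Vx} (ht : t ∈ tblk tab i j) : 0 < otri (posQ M N) t := by
  unfold tblk at ht
  rw [List.mem_map] at ht
  obtain ⟨s, hs, rfl⟩ := ht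
  obtain ⟨h1, h2, h3, h4⟩ := h s hs
  have h5 := ((qpos M hM N).sh i j).st h1 h2 h3 h4
  unfold shQ at h5
  rw [orient_sub] at h5
  exact h5

theorem pos_TRQ {M : ℤ} (hM : 1000000000 ≤ M) (N : N.Net) {a b : ℕ} {t : Vx × Vx × Vx} (ht : t ∈ TR a b) :
    0 < otri (posQ M N) t := by
  have k1 : okQ (refA ++ refB) := by decide +kernel
  have k2 : okQ cl2 := by decide +kernel
  have k3 : okQ cl3 := by decide +kernel
  have k4 : okQ dl2 := by decide +kernel
  have k5 : okQ dl3 := by decide +kernel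
  unfold TR at ht
  rw [List.mem_append, List.mem_append, List.mem_append, List.mem_append] at ht
  rcases ht with h | h | h | h | h
  · obtain ⟨i, j, h⟩ := mem_fam2Q h; exact pos_blkQ hM N k1 h
  · obtain ⟨i, j, h⟩ := mem_fam1Q h; exact pos_blkQ hM N k2 h
  · obtain ⟨i, j, h⟩ := mem_fam1Q h; exact pos_blkQ hM N k3 h
  · obtain ⟨i, j, h⟩ := mem_fam1Q h; exact pos_blkQ hM N k4 h
  · obtain ⟨i, j, h⟩ := mem_fam1Q h; exact pos_blkQ hM N k5 h

theorem pos_fillQ {M : ℤ} (hM : 1000000000 ≤ M) (N : N.Net) {i j : ℤ} {t : Vx × Vx × Vx} (ht : t ∈ tblk fillQ i j) :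
    0 < otri (posQ M N) t := by
  have k1 : okQ fillQ := by decide +kernel
  exact pos_blkQ hM N k1 ht

theorem pos_XQk {M : ℤ} (hM : 1000000000 ≤ M) (N : N.Net) {a b : ℕ} {t : Vx × Vx × Vx} (ht : t ∈ XQk a b) :
    0 < otri (posQ M N) t := by
  have k1 : okQ pkBotQ := by decide +kernel
  have k2 : okQ crBrQ := by decide +kernel
  have k3 : okQ pkRightQ := by decide +kernel
  have k4 : okQ crTrQ := by decide +kernel
  have k5 : okQ pkTopQ := by decide +kernel
  have k6 : okQ crTlQ := by decide +kernel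
  have k7 : okQ pkLeftQ := by decide +kernel
  have k8 : okQ crBlQ := by decide +kernel
  unfold XQk at ht
  rw [List.mem_append, List.mem_append, List.mem_append, List.mem_append, List.mem_append, List.mem_append,
    List.mem_append] at ht
  rcases ht with h | h | h | h | h | h | h | h
  · obtain ⟨i, j, h⟩ := mem_fam1Q h; exact pos_blkQ hM N k1 h
  · exact pos_blkQ hM N k2 h
  · obtain ⟨i, j, h⟩ := mem_fam1Q h; exact pos_blkQ hM N k3 h
  · exact pos_blkQ hM N k4 h
  · obtain ⟨i, j, h⟩ := mem_fam1Q h; exact pos_blkQ hM N k5 h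
  · exact pos_blkQ hM N k6 h
  · obtain ⟨i, j, h⟩ := mem_fam1Q h; exact pos_blkQ hM N k7 h
  · exact pos_blkQ hM N k8 h

end Pool.Agent.Lib.MP_6ff0c5_lc.C
end

section

/-!
The far triangles of the second drawing are positively oriented.

The hull labels have kinds `12` and `13`, whose displacements are `0`, and the far points are `M` times the far points for
`M = 1`. So every determinant is `M^2` times the nominal one.
-/

set_option autoImplicit false
set_option linter.unusedSimpArgs false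

namespace Pool.Agent.Lib.MP_6ff0c5_lc.C

open Pool.Agent.Lib.MP_6ff0c5_lc.K

/-- polygon labels and far labels in the second drawing -/
noncomputable def rF (M : ℤ) (N : N.Net) (a b : ℕ) (x : Vx) : Pt :=
  if 14 ≤ x.1 then toPt (farQ M a b x.1) else posQ M N x

/-- the nominal points of the hull labels and of the far labels -/
def rQ0 (a b : ℕ) (x : Vx) : ℤ × ℤ := if 14 ≤ x.1 then farQ 1 a b x.1 else nomQ x

theorem iori_scale (M : ℤ) (p q r : ℤ × ℤ) :
    iori (M * p.1, M * p.2) (M * q.1, M * q.2) (M * r.1, M * r.2) = M * M * iori p q r := by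
  unfold iori; ring

theorem rF_eq (M : ℤ) (N : N.Net) (a b : ℕ) {x : Vx} (hx : 12 ≤ x.1) :
    rF M N a b x = toPt (M * (rQ0 a b x).1, M * (rQ0 a b x).2) := by
  unfold rF rQ0
  by_cases h : 14 ≤ x.1
  · rw [if_pos h, if_pos h]
    congr 1
    unfold farQ
    split_ifs <;> · ext <;> · simp only; ring
  · rw [if_neg h, if_neg h]
    unfold posQ iposQ
    have hd : dispQ N x = (0, 0) := by
      unfold dispQ
      rw [if_neg (by omega), if_neg (by omega), if_neg (by omega), if_neg (by omega), if_neg (by omega), if_neg (by omega)]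
    rw [hd]
    simp only [add_zero]

theorem otri_rF {M : ℤ} (hM : 0 < M) (N : N.Net) (a b : ℕ) {x y z : Vx} (hx : 12 ≤ x.1) (hy : 12 ≤ y.1) (hz : 12 ≤ z.1)
    (h : 0 < iori (rQ0 a b x) (rQ0 a b y) (rQ0 a b z)) : 0 < otri (rF M N a b) (x, y, z) := by
  unfold otri
  simp only
  rw [rF_eq M N a b hx, rF_eq M N a b hy, rF_eq M N a b hz, orient_toPt, iori_scale]
  have : 0 < M * M * iori (rQ0 a b x) (rQ0 a b y) (rQ0 a b z) := mul_pos (mul_pos hM hM) h
  exact_mod_cast this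

theorem pE_cons_cons {L : Type} (x y : L) (l : List L) : pE (x :: y :: l) = (x, y) :: pE (y :: l) := by
  simp [pE]

theorem mem_pE_flatMap {g : ℕ → List Vx} {h : ℕ → Vx} (hg : ∀ t, g t = [h t]) (k : ℕ) (rest : List Vx) {e : Vx × Vx}
    (he : e ∈ pE ((List.range k).flatMap g ++ h k :: rest)) : (∃ t < k, e = (h t, h (t + 1))) ∨ e ∈ pE (h k :: rest) := by
  induction k generalizing rest with
  | zero => right; simpa using he
  | succ k ih =>
    have e1 : (List.range (k + 1)).flatMap g ++ h (k + 1) :: rest =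
        (List.range k).flatMap g ++ h k :: (h (k + 1) :: rest) := by
      rw [List.range_succ, List.flatMap_append]; simp [hg k]
    rw [e1] at he
    rcases ih _ he with ⟨t, ht, h1⟩ | h1
    · exact Or.inl ⟨t, by omega, h1⟩
    · rw [pE_cons_cons, List.mem_cons] at h1
      rcases h1 with h1 | h1
      · exact Or.inl ⟨k, by omega, h1⟩
      · exact Or.inr h1

theorem mem_pE_cons_flatMap {g : ℕ → List Vx} {h : ℕ → Vx} (hg : ∀ t, g t = [h t]) (k : ℕ) (x : Vx) (rest : List Vx)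
    {e : Vx × Vx} (he : e ∈ pE (x :: ((List.range k).flatMap g ++ h k :: rest))) :
    e = (x, h 0) ∨ (∃ t < k, e = (h t, h (t + 1))) ∨ e ∈ pE (h k :: rest) := by
  have key : ∃ l, (List.range k).flatMap g ++ h k :: rest = h 0 :: l := by
    cases k with
    | zero => exact ⟨rest, by simp⟩
    | succ k =>
      refine ⟨(List.map Nat.succ (List.range k)).flatMap g ++ h (k + 1) :: rest, ?_⟩
      rw [List.range_succ_eq_map, List.flatMap_cons, hg 0]
      simp
  obtain ⟨l, hl⟩ := key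
  rw [hl, pE_cons_cons, List.mem_cons, ← hl] at he
  rcases he with he | he
  · exact Or.inl he
  · exact Or.inr (mem_pE_flatMap hg k rest he)

theorem mem_pE_one {L : Type} (x : L) {e : L × L} : e ∉ pE [x] := by simp [pE]

theorem mem_hullQ1 {a b : ℕ} {e : Vx × Vx} (he : e ∈ pE (hullQ1 a b)) :
    (∃ t < a, e = ((13, (t : ℤ) + 1, 0), (13, (t : ℤ) + 2, 0))) ∨ e = ((13, (a : ℤ) + 1, 0), (12, (a : ℤ) + 2, 1)) ∨
      ∃ t < b, e = ((12, (a : ℤ) + 2, (t : ℤ) + 1), (12, (a : ℤ) + 2, (t : ℤ) + 2)) := by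
  unfold hullQ1 at he
  have h1 := mem_pE_flatMap (g := fun t : ℕ => blk [(13, 0, 0)] ((t : ℤ) + 1) 0) (h := fun t : ℕ => (13, (t : ℤ) + 1, 0))
    (by intro t; simp [blk, sh]) a
    ((List.range b).flatMap (fun t : ℕ => blk [(12, 0, 0)] ((a : ℤ) + 2) ((t : ℤ) + 1)) ++ [(12, (a : ℤ) + 2, (b : ℤ) + 1)])
    (e := e) (by simpa [blk, sh] using he)
  rcases h1 with ⟨t, ht, h1⟩ | h1
  · left
    refine ⟨t, ht, ?_⟩
    rw [h1]; push_cast; ring_nf
  · right
    rcases mem_pE_cons_flatMap (g := fun t : ℕ => blk [(12, 0, 0)] ((a : ℤ) + 2) ((t : ℤ) + 1))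
      (h := fun t : ℕ => (12, (a : ℤ) + 2, (t : ℤ) + 1)) (by intro t; simp [blk, sh]) b _ _ h1 with h2 | ⟨t, ht, h2⟩ | h2
    · left; rw [h2]; simp
    · right
      refine ⟨t, ht, ?_⟩
      rw [h2]; push_cast; ring_nf
    · exact absurd h2 (mem_pE_one _)

theorem mem_hullQ2 {a b : ℕ} {e : Vx × Vx} (he : e ∈ pE (hullQ2 a b)) :
    e = ((12, (a : ℤ) + 2, (b : ℤ) + 1), (12, (a : ℤ) + 1, (b : ℤ) + 2)) ∨
    (∃ t < a, e = ((12, (a : ℤ) + 1 - t, (b : ℤ) + 2), (12, (a : ℤ) - t, (b : ℤ) + 2))) ∨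
      e = ((12, 1, (b : ℤ) + 2), (13, 0, (b : ℤ) + 1)) := by
  unfold hullQ2 at he
  have h1 := mem_pE_cons_flatMap (g := fun t : ℕ => blk [(12, 0, 0)] ((a : ℤ) + 1 - t) ((b : ℤ) + 2))
    (h := fun t : ℕ => (12, (a : ℤ) + 1 - t, (b : ℤ) + 2)) (by intro t; simp [blk, sh]) a (12, (a : ℤ) + 2, (b : ℤ) + 1)
    [(13, 0, (b : ℤ) + 1)] (e := e) (by simpa [blk, sh] using he)
  rcases h1 with h1 | ⟨t, ht, h1⟩ | h1
  · left; rw [h1]; simp
  · right; left
    refine ⟨t, ht, ?_⟩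
    rw [h1]; push_cast; ring_nf
  · right; right
    rw [pE_cons_cons, List.mem_cons] at h1
    rcases h1 with h1 | h1
    · rw [h1]; simp
    · exact absurd h1 (mem_pE_one _)

theorem mem_hullQ3 {b : ℕ} {e : Vx × Vx} (he : e ∈ pE (hullQ3 b)) :
    (∃ t < b, e = ((13, 0, (b : ℤ) + 1 - t), (13, 0, (b : ℤ) - t))) ∨ e = ((13, 0, 1), (13, 1, 0)) := by
  unfold hullQ3 at he
  have h1 := mem_pE_flatMap (g := fun t : ℕ => blk [(13, 0, 0)] 0 ((b : ℤ) + 1 - t))
    (h := fun t : ℕ => (13, 0, (b : ℤ) + 1 - t)) (by intro t; simp [blk, sh]) b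
    [(13, 1, 0)] (e := e) (by simpa [blk, sh] using he)
  rcases h1 with ⟨t, ht, h1⟩ | h1
  · left
    refine ⟨t, ht, ?_⟩
    rw [h1]; push_cast; ring_nf
  · right
    rw [pE_cons_cons, List.mem_cons] at h1
    rcases h1 with h1 | h1
    · rw [h1]; simp
    · exact absurd h1 (mem_pE_one _)

theorem rQ0_12 (a b : ℕ) (i j : ℤ) : rQ0 a b (12, i, j) = (-214500 * i - 429000 * j, 214500 * i - 868500 * j) := by
  unfold rQ0 nomQ tabQ
  norm_num

theorem rQ0_13 (a b : ℕ) (i j : ℤ) :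
    rQ0 a b (13, i, j) = (-214500 * i - 429000 * j, 214500 + 214500 * i - 868500 * j) := by
  unfold rQ0 nomQ tabQ
  norm_num

theorem rQ0_14 (a b : ℕ) (i j : ℤ) :
    rQ0 a b (14, i, j) = (30 * ((a : ℤ) + b + 12) * 214500, 30 * ((a : ℤ) + b + 12) * 1083000) := by
  unfold rQ0 farQ hh
  norm_num
  ring

theorem rQ0_15 (a b : ℕ) (i j : ℤ) :
    rQ0 a b (15, i, j) = (30 * ((a : ℤ) + b + 12) * -429000, 30 * ((a : ℤ) + b + 12) * -868500) := by
  unfold rQ0 farQ hh
  norm_num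
  ring

theorem rQ0_16 (a b : ℕ) (i j : ℤ) :
    rQ0 a b (16, i, j) = (30 * ((a : ℤ) + b + 12) * 214500, 30 * ((a : ℤ) + b + 12) * -214500) := by
  unfold rQ0 farQ hh
  norm_num
  ring

theorem pos_XQf_of_pos {M : ℤ} {a b : ℕ} (hM0 : 0 < M) (N : N.Net) {t : Vx × Vx × Vx}
    (ht : t ∈ XQf a b) : 0 < otri (rF M N a b) t := by
  have ha : (0 : ℤ) ≤ a := by positivity
  have hb : (0 : ℤ) ≤ b := by positivity
  have hab := mul_nonneg ha hb
  have haa := mul_nonneg ha ha
  have hbb := mul_nonneg hb hb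
  unfold XQf farT at ht
  simp only [List.mem_append, List.mem_map, List.mem_cons, List.not_mem_nil, or_false] at ht
  rcases ht with ⟨e, he, rfl⟩ | ⟨e, he, rfl⟩ | ⟨e, he, rfl⟩ | rfl | rfl | rfl
  · rcases mem_hullQ1 he with ⟨s, hs, rfl⟩ | rfl | ⟨s, hs, rfl⟩
    all_goals refine otri_rF hM0 N a b (by norm_num) (by norm_num) (by norm_num) ?_
    all_goals simp only [rQ0_12, rQ0_13, rQ0_14, rQ0_15, rQ0_16, iori]
    · have hs' : (s : ℤ) < a := by exact_mod_cast hs
      have hs0 : (0 : ℤ) ≤ s := by positivity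
      ring_nf
      linarith
    · ring_nf
      linarith
    · have hs' : (s : ℤ) < b := by exact_mod_cast hs
      have hs0 : (0 : ℤ) ≤ s := by positivity
      ring_nf
      linarith
  · rcases mem_hullQ2 he with rfl | ⟨s, hs, rfl⟩ | rfl
    all_goals refine otri_rF hM0 N a b (by norm_num) (by norm_num) (by norm_num) ?_
    all_goals simp only [rQ0_12, rQ0_13, rQ0_14, rQ0_15, rQ0_16, iori]
    · ring_nf
      linarith
    · have hs' : (s : ℤ) < a := by exact_mod_cast hs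
      have hs0 : (0 : ℤ) ≤ s := by positivity
      ring_nf
      linarith
    · ring_nf
      linarith
  · rcases mem_hullQ3 he with ⟨s, hs, rfl⟩ | rfl
    all_goals refine otri_rF hM0 N a b (by norm_num) (by norm_num) (by norm_num) ?_
    all_goals simp only [rQ0_12, rQ0_13, rQ0_14, rQ0_15, rQ0_16, iori]
    · have hs' : (s : ℤ) < b := by exact_mod_cast hs
      have hs0 : (0 : ℤ) ≤ s := by positivity
      ring_nf
      linarith
    · ring_nf
      linarith
  all_goals refine otri_rF hM0 N a b (by norm_num) (by norm_num) (by norm_num) ?_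
  all_goals simp only [rQ0_12, rQ0_13, rQ0_14, rQ0_15, rQ0_16, iori]
  · ring_nf
    nlinarith
  · ring_nf
    nlinarith
  · ring_nf
    nlinarith

theorem pos_bigQ_of_pos {M : ℤ} {a b : ℕ} (hM0 : 0 < M) (N : N.Net) :
    0 < otri (rF M N a b) bigT := by
  have ha : (0 : ℤ) ≤ a := by positivity
  have hb : (0 : ℤ) ≤ b := by positivity
  have hab := mul_nonneg ha hb
  have haa := mul_nonneg ha ha
  have hbb := mul_nonneg hb hb
  refine otri_rF hM0 N a b (by norm_num) (by norm_num) (by norm_num) ?_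
  simp only [rQ0_14, rQ0_15, rQ0_16, iori]
  ring_nf
  nlinarith

theorem pos_XQf {M : ℤ} {a b : ℕ} (hM : 1000000000 * ((a : ℤ) + b + 4) ≤ M) (N : N.Net) {t : Vx × Vx × Vx}
    (ht : t ∈ XQf a b) : 0 < otri (rF M N a b) t :=
  pos_XQf_of_pos (by omega) N ht

theorem pos_bigQ {M : ℤ} {a b : ℕ} (hM : 1000000000 * ((a : ℤ) + b + 4) ≤ M) (N : N.Net) :
    0 < otri (rF M N a b) bigT :=
  pos_bigQ_of_pos (by omega) N

end Pool.Agent.Lib.MP_6ff0c5_lc.C
end

section

/-!
The nominal triangulation is positively oriented in the second drawing if the centres satisfy `TPos`.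

Plan. `rQ M N A B a b (k, i, j) = posQ M N (k, i, j)` for `k < 12`, `= A i j` resp. `B i j` for the centres with
`1 ≤ i ≤ a+1`, `1 ≤ j ≤ b+1`, and `= posQ …` for the other centres (polygon vertices). A member of `TS a b` is one of: the 12 fan
triangles of a cell (`TPos.wA`, `TPos.wB` with the walls `w < 12`; `wu w i j`, `wv w i j` compute by `rfl`/`simp [wu, wv, wallTab,
sh]`), the two triangles at door 1 (`d1R`, `d1L`), door 2 of the cell `(i, j)`, `1 ≤ i ≤ a + 2`: for `2 ≤ i ≤ a + 1` `d2R`, `d2L`;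
for `i = 1` the centre `(13, 0, j)` is a polygon vertex: walls 12, 13 (`wA`); for `i = a + 2` the centre `(12, a+2, j)` is a polygon
vertex: walls 16, 17 of the cell `(a+1, j)` (`wB`); the same for door 3. Orientation is invariant under rotation
(`orient_rot` in K/Cross.lean or K/Cover.lean `otri_rot`). `mem_st` below characterizes the Steiner labels.
-/

set_option autoImplicit false

namespace Pool.Agent.Lib.MP_6ff0c5_lc.C

open Pool.Agent.Lib.MP_6ff0c5_lc.K

theorem mem_st (a b : ℕ) (x : Vx) : x ∈ stL a b ↔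
    (x.1 = 12 ∨ x.1 = 13) ∧ 1 ≤ x.2.1 ∧ x.2.1 ≤ a + 1 ∧ 1 ≤ x.2.2 ∧ x.2.2 ≤ b + 1 := by
  obtain ⟨k, i, j⟩ := x
  unfold stL
  simp only [List.mem_flatMap, List.mem_range, List.mem_cons, List.not_mem_nil, or_false, Prod.mk.injEq]
  constructor
  · rintro ⟨s, hs, t, ht, ⟨h1, h2, h3⟩ | ⟨h1, h2, h3⟩⟩
    · exact ⟨Or.inl h1, by omega, by omega, by omega, by omega⟩
    · exact ⟨Or.inr h1, by omega, by omega, by omega, by omega⟩
  · rintro ⟨h1 | h1, h2, h3, h4, h5⟩
    · exact ⟨(i - 1).toNat, by omega, (j - 1).toNat, by omega, Or.inl ⟨h1, by omega, by omega⟩⟩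
    · exact ⟨(i - 1).toNat, by omega, (j - 1).toNat, by omega, Or.inr ⟨h1, by omega, by omega⟩⟩

theorem mem_fam2S {tab : List (Vx × Vx × Vx)} {m n : ℕ} {t : Vx × Vx × Vx} (h : t ∈ fam2 tab m n) :
    ∃ i j : ℕ, i < m ∧ j < n ∧ t ∈ tblk tab ((i : ℤ) + 1) ((j : ℤ) + 1) := by
  unfold fam2 at h
  rw [List.mem_flatMap] at h
  obtain ⟨i, hi, h⟩ := h
  unfold fam1 at h
  rw [List.mem_flatMap] at h
  obtain ⟨j, hj, h⟩ := h
  exact ⟨i, j, List.mem_range.mp hi, List.mem_range.mp hj, h⟩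

theorem rotS1 (a b c : Pt) : orient a b c = orient b c a := by unfold orient; ring
theorem rotS2 (a b c : Pt) : orient a b c = orient c a b := by unfold orient; ring

section

variable {M : ℤ} {N : N.Net} {A B : ℤ → ℤ → Pt} {a b : ℕ}

theorem rQ_low {x : Vx} (h : x.1 < 12) : rQ M N A B a b x = posQ M N x := by
  unfold rQ
  rw [if_neg (by omega), if_neg]
  rw [mem_st]
  rintro ⟨h1 | h1, _⟩ <;> omega

theorem rQ_A {i j : ℤ} (h1 : 1 ≤ i) (h2 : i ≤ a + 1) (h3 : 1 ≤ j) (h4 : j ≤ b + 1) :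
    rQ M N A B a b (12, i, j) = A i j := by
  unfold rQ
  rw [if_neg (by norm_num), if_pos, if_pos rfl]
  rw [mem_st]
  exact ⟨Or.inl rfl, h1, h2, h3, h4⟩

theorem rQ_B {i j : ℤ} (h1 : 1 ≤ i) (h2 : i ≤ a + 1) (h3 : 1 ≤ j) (h4 : j ≤ b + 1) :
    rQ M N A B a b (13, i, j) = B i j := by
  unfold rQ
  rw [if_neg (by norm_num), if_pos, if_neg (by norm_num)]
  rw [mem_st]
  exact ⟨Or.inr rfl, h1, h2, h3, h4⟩

theorem rQ_hi {x : Vx} (hx : x.1 < 14) (h : ¬ (1 ≤ x.2.1 ∧ x.2.1 ≤ a + 1 ∧ 1 ≤ x.2.2 ∧ x.2.2 ≤ b + 1)) :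
    rQ M N A B a b x = posQ M N x := by
  unfold rQ
  rw [if_neg (by omega), if_neg]
  rw [mem_st]
  rintro ⟨_, h1⟩
  exact h h1

theorem wu_low : ∀ w < 12, ((wallTab.getD w ((0, 0, 0), (0, 0, 0))).1).1 < 12 := by decide
theorem wv_low : ∀ w < 12, ((wallTab.getD w ((0, 0, 0), (0, 0, 0))).2).1 < 12 := by decide

theorem fanA (h : TPos (a + 1) (b + 1) (posQ M N) A B) {w : ℕ} (hw : w < 12) (hr : wroom w = 12) {i j : ℤ}
    (h1 : 1 ≤ i) (h2 : i ≤ a + 1) (h3 : 1 ≤ j) (h4 : j ≤ b + 1) :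
    0 < orient (rQ M N A B a b (wu w i j)) (rQ M N A B a b (wv w i j)) (rQ M N A B a b (12, i, j)) := by
  rw [rQ_low (x := wu w i j) (wu_low w hw), rQ_low (x := wv w i j) (wv_low w hw), rQ_A h1 h2 h3 h4]
  refine h.wA w i j ⟨by omega, h1, by push_cast; exact h2, h3, by push_cast; exact h4, ?_, ?_, ?_, ?_⟩ hr
  · rintro (h | h) <;> omega
  · rintro (h | h) <;> omega
  · rintro (h | h) <;> omega
  · rintro (h | h) <;> omega

theorem fanB (h : TPos (a + 1) (b + 1) (posQ M N) A B) {w : ℕ} (hw : w < 12) (hr : wroom w = 13) {i j : ℤ}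
    (h1 : 1 ≤ i) (h2 : i ≤ a + 1) (h3 : 1 ≤ j) (h4 : j ≤ b + 1) :
    0 < orient (rQ M N A B a b (wu w i j)) (rQ M N A B a b (wv w i j)) (rQ M N A B a b (13, i, j)) := by
  rw [rQ_low (x := wu w i j) (wu_low w hw), rQ_low (x := wv w i j) (wv_low w hw), rQ_B h1 h2 h3 h4]
  refine h.wB w i j ⟨by omega, h1, by push_cast; exact h2, h3, by push_cast; exact h4, ?_, ?_, ?_, ?_⟩ hr
  · rintro (h | h) <;> omega
  · rintro (h | h) <;> omega
  · rintro (h | h) <;> omega
  · rintro (h | h) <;> omega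

theorem pos_cellS (h : TPos (a + 1) (b + 1) (posQ M N) A B) {i j : ℤ}
    (h1 : 1 ≤ i) (h2 : i ≤ a + 1) (h3 : 1 ≤ j) (h4 : j ≤ b + 1) {t : Vx × Vx × Vx} (ht : t ∈ tblk cellS i j) :
    0 < otri (rQ M N A B a b) t := by
  have e12 : sh (12, 0, 0) i j = (12, i, j) := by simp [sh]
  have e13 : sh (13, 0, 0) i j = (13, i, j) := by simp [sh]
  have e0 : sh (0, 0, 0) i j = (0, i, j) := by simp [sh]
  have e1 : sh (1, 0, 0) i j = (1, i, j) := by simp [sh]
  unfold tblk cellS at ht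
  simp only [List.map_cons, List.map_nil, List.mem_cons, List.not_mem_nil, or_false] at ht
  rcases ht with rfl | rfl | rfl | rfl | rfl | rfl | rfl | rfl | rfl | rfl | rfl | rfl | rfl | rfl
  · have := fanA h (w := 0) (by norm_num) rfl h1 h2 h3 h4
    rw [← e12] at this; exact this
  · have := fanA h (w := 1) (by norm_num) rfl h1 h2 h3 h4
    rw [← e12] at this; exact this
  · have := fanA h (w := 2) (by norm_num) rfl h1 h2 h3 h4
    rw [← e12] at this; exact this
  · have := fanB h (w := 3) (by norm_num) rfl h1 h2 h3 h4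
    rw [← e13] at this; exact this
  · have := fanB h (w := 4) (by norm_num) rfl h1 h2 h3 h4
    rw [← e13] at this; exact this
  · have := fanB h (w := 5) (by norm_num) rfl h1 h2 h3 h4
    rw [← e13] at this; exact this
  · have := fanB h (w := 6) (by norm_num) rfl h1 h2 h3 h4
    rw [← e13] at this; exact this
  · have := fanB h (w := 7) (by norm_num) rfl h1 h2 h3 h4
    rw [← e13] at this; exact this
  · have := fanB h (w := 8) (by norm_num) rfl h1 h2 h3 h4
    rw [← e13] at this; exact this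
  · have := fanB h (w := 9) (by norm_num) rfl h1 h2 h3 h4
    rw [← e13] at this; exact this
  · have := fanB h (w := 10) (by norm_num) rfl h1 h2 h3 h4
    rw [← e13] at this; exact this
  · have := fanB h (w := 11) (by norm_num) rfl h1 h2 h3 h4
    rw [← e13] at this; exact this
  · show 0 < orient (rQ M N A B a b (sh (12, 0, 0) i j)) (rQ M N A B a b (sh (1, 0, 0) i j))
      (rQ M N A B a b (sh (13, 0, 0) i j))
    rw [e12, e13, e1, rQ_A h1 h2 h3 h4, rQ_B h1 h2 h3 h4, rQ_low (by norm_num)]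
    exact h.d1R i j h1 (by push_cast; exact h2) h3 (by push_cast; exact h4)
  · show 0 < orient (rQ M N A B a b (sh (12, 0, 0) i j)) (rQ M N A B a b (sh (13, 0, 0) i j))
      (rQ M N A B a b (sh (0, 0, 0) i j))
    rw [e12, e13, e0, rQ_A h1 h2 h3 h4, rQ_B h1 h2 h3 h4, rQ_low (by norm_num)]
    exact h.d1L i j h1 (by push_cast; exact h2) h3 (by push_cast; exact h4)

theorem pos_door2S (h : TPos (a + 1) (b + 1) (posQ M N) A B) {i j : ℤ}
    (h1 : 1 ≤ i) (h2 : i ≤ a + 2) (h3 : 1 ≤ j) (h4 : j ≤ b + 1) {t : Vx × Vx × Vx} (ht : t ∈ tblk door2 i j) :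
    0 < otri (rQ M N A B a b) t := by
  have e12 : sh (12, 0, 0) i j = (12, i, j) := by simp [sh]
  have e13 : sh (13, -1, 0) i j = (13, i - 1, j) := by simp [sh]; ring
  have e3 : sh (3, 0, 0) i j = (3, i, j) := by simp [sh]
  have e2 : sh (2, 0, 0) i j = (2, i, j) := by simp [sh]
  have h5 : (b : ℤ) + 1 = ((b + 1 : ℕ) : ℤ) := by push_cast; rfl
  have h6 : (a : ℤ) + 1 = ((a + 1 : ℕ) : ℤ) := by push_cast; rfl
  unfold tblk door2 at ht
  simp only [List.map_cons, List.map_nil, List.mem_cons, List.not_mem_nil, or_false] at ht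
  rcases ht with rfl | rfl
  · show 0 < orient (rQ M N A B a b (sh (12, 0, 0) i j)) (rQ M N A B a b (sh (3, 0, 0) i j))
      (rQ M N A B a b (sh (13, -1, 0) i j))
    rw [e12, e13, e3, rQ_low (x := (3, i, j)) (by norm_num)]
    rcases eq_or_lt_of_le h1 with h7 | h7
    · subst h7
      rw [rQ_A le_rfl (by omega) h3 h4, rQ_hi (x := (13, 1 - 1, j)) (by norm_num) (by simp), rotS1]
      have := h.wA 12 1 j ⟨by norm_num, le_rfl, by omega, h3, by omega, by simp, by simp, by simp, by simp⟩ rfl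
      have w1 : wu 12 1 j = (3, 1, j) := by simp [wu, wallTab, sh]
      have w2 : wv 12 1 j = (13, 1 - 1, j) := by simp [wv, wallTab, sh]
      rw [w1, w2] at this
      exact this
    · rcases eq_or_lt_of_le h2 with h8 | h8
      · subst h8
        rw [rQ_hi (x := (12, (a : ℤ) + 2, j)) (by norm_num) (by simp), rQ_B (by omega) (by omega) h3 h4]
        have := h.wB 17 ((a : ℤ) + 2 - 1) j ⟨by norm_num, by omega, by omega, h3, by omega, by simp, by simp,
          by intro _; omega, by simp⟩ rfl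
        have w1 : wu 17 ((a : ℤ) + 2 - 1) j = (12, (a : ℤ) + 2, j) := by simp [wu, wallTab, sh]
        have w2 : wv 17 ((a : ℤ) + 2 - 1) j = (3, (a : ℤ) + 2, j) := by simp [wv, wallTab, sh]
        rw [w1, w2] at this
        exact this
      · rw [rQ_A h1 (by omega) h3 h4, rQ_B (by omega) (by omega) h3 h4]
        exact h.d2R i j (by omega) (by omega) h3 (by omega)
  · show 0 < orient (rQ M N A B a b (sh (12, 0, 0) i j)) (rQ M N A B a b (sh (13, -1, 0) i j))
      (rQ M N A B a b (sh (2, 0, 0) i j))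
    rw [e12, e13, e2, rQ_low (x := (2, i, j)) (by norm_num)]
    rcases eq_or_lt_of_le h1 with h7 | h7
    · subst h7
      rw [rQ_A le_rfl (by omega) h3 h4, rQ_hi (x := (13, 1 - 1, j)) (by norm_num) (by simp), rotS1]
      have := h.wA 13 1 j ⟨by norm_num, le_rfl, by omega, h3, by omega, by simp, by simp, by simp, by simp⟩ rfl
      have w1 : wu 13 1 j = (13, 1 - 1, j) := by simp [wu, wallTab, sh]
      have w2 : wv 13 1 j = (2, 1, j) := by simp [wv, wallTab, sh]
      rw [w1, w2] at this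
      exact this
    · rcases eq_or_lt_of_le h2 with h8 | h8
      · subst h8
        rw [rQ_hi (x := (12, (a : ℤ) + 2, j)) (by norm_num) (by simp), rQ_B (by omega) (by omega) h3 h4, rotS2]
        have := h.wB 16 ((a : ℤ) + 2 - 1) j ⟨by norm_num, by omega, by omega, h3, by omega, by simp, by simp,
          by intro _; omega, by simp⟩ rfl
        have w1 : wu 16 ((a : ℤ) + 2 - 1) j = (2, (a : ℤ) + 2, j) := by simp [wu, wallTab, sh]
        have w2 : wv 16 ((a : ℤ) + 2 - 1) j = (12, (a : ℤ) + 2, j) := by simp [wv, wallTab, sh]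
        rw [w1, w2] at this
        exact this
      · rw [rQ_A h1 (by omega) h3 h4, rQ_B (by omega) (by omega) h3 h4]
        exact h.d2L i j (by omega) (by omega) h3 (by omega)

theorem pos_door3S (h : TPos (a + 1) (b + 1) (posQ M N) A B) {i j : ℤ}
    (h1 : 1 ≤ i) (h2 : i ≤ a + 1) (h3 : 1 ≤ j) (h4 : j ≤ b + 2) {t : Vx × Vx × Vx} (ht : t ∈ tblk door3 i j) :
    0 < otri (rQ M N A B a b) t := by
  have e12 : sh (12, 0, 0) i j = (12, i, j) := by simp [sh]
  have e13 : sh (13, 0, -1) i j = (13, i, j - 1) := by simp [sh]; ring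
  have e5 : sh (5, 0, 0) i j = (5, i, j) := by simp [sh]
  have e4 : sh (4, 0, 0) i j = (4, i, j) := by simp [sh]
  have h5 : (b : ℤ) + 1 = ((b + 1 : ℕ) : ℤ) := by push_cast; rfl
  have h6 : (a : ℤ) + 1 = ((a + 1 : ℕ) : ℤ) := by push_cast; rfl
  unfold tblk door3 at ht
  simp only [List.map_cons, List.map_nil, List.mem_cons, List.not_mem_nil, or_false] at ht
  rcases ht with rfl | rfl
  · show 0 < orient (rQ M N A B a b (sh (12, 0, 0) i j)) (rQ M N A B a b (sh (5, 0, 0) i j))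
      (rQ M N A B a b (sh (13, 0, -1) i j))
    rw [e12, e13, e5, rQ_low (x := (5, i, j)) (by norm_num)]
    rcases eq_or_lt_of_le h3 with h7 | h7
    · subst h7
      rw [rQ_A h1 h2 le_rfl (by omega), rQ_hi (x := (13, i, 1 - 1)) (by norm_num) (by simp), rotS1]
      have := h.wA 14 i 1 ⟨by norm_num, h1, by omega, le_rfl, by omega, by simp, by simp, by simp, by simp⟩ rfl
      have w1 : wu 14 i 1 = (5, i, 1) := by simp [wu, wallTab, sh]
      have w2 : wv 14 i 1 = (13, i, 1 - 1) := by simp [wv, wallTab, sh]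
      rw [w1, w2] at this
      exact this
    · rcases eq_or_lt_of_le h4 with h8 | h8
      · subst h8
        rw [rQ_hi (x := (12, i, (b : ℤ) + 2)) (by norm_num) (by simp), rQ_B h1 h2 (by omega) (by omega)]
        have := h.wB 19 i ((b : ℤ) + 2 - 1) ⟨by norm_num, h1, by omega, by omega, by omega, by simp, by simp,
          by simp, by intro _; omega⟩ rfl
        have w1 : wu 19 i ((b : ℤ) + 2 - 1) = (12, i, (b : ℤ) + 2) := by simp [wu, wallTab, sh]
        have w2 : wv 19 i ((b : ℤ) + 2 - 1) = (5, i, (b : ℤ) + 2) := by simp [wv, wallTab, sh]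
        rw [w1, w2] at this
        exact this
      · rw [rQ_A h1 h2 h3 (by omega), rQ_B h1 h2 (by omega) (by omega)]
        exact h.d3R i j h1 (by omega) (by omega) (by omega)
  · show 0 < orient (rQ M N A B a b (sh (12, 0, 0) i j)) (rQ M N A B a b (sh (13, 0, -1) i j))
      (rQ M N A B a b (sh (4, 0, 0) i j))
    rw [e12, e13, e4, rQ_low (x := (4, i, j)) (by norm_num)]
    rcases eq_or_lt_of_le h3 with h7 | h7
    · subst h7
      rw [rQ_A h1 h2 le_rfl (by omega), rQ_hi (x := (13, i, 1 - 1)) (by norm_num) (by simp), rotS1]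
      have := h.wA 15 i 1 ⟨by norm_num, h1, by omega, le_rfl, by omega, by simp, by simp, by simp, by simp⟩ rfl
      have w1 : wu 15 i 1 = (13, i, 1 - 1) := by simp [wu, wallTab, sh]
      have w2 : wv 15 i 1 = (4, i, 1) := by simp [wv, wallTab, sh]
      rw [w1, w2] at this
      exact this
    · rcases eq_or_lt_of_le h4 with h8 | h8
      · subst h8
        rw [rQ_hi (x := (12, i, (b : ℤ) + 2)) (by norm_num) (by simp), rQ_B h1 h2 (by omega) (by omega), rotS2]
        have := h.wB 18 i ((b : ℤ) + 2 - 1) ⟨by norm_num, h1, by omega, by omega, by omega, by simp, by simp,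
          by simp, by intro _; omega⟩ rfl
        have w1 : wu 18 i ((b : ℤ) + 2 - 1) = (4, i, (b : ℤ) + 2) := by simp [wu, wallTab, sh]
        have w2 : wv 18 i ((b : ℤ) + 2 - 1) = (12, i, (b : ℤ) + 2) := by simp [wv, wallTab, sh]
        rw [w1, w2] at this
        exact this
      · rw [rQ_A h1 h2 h3 (by omega), rQ_B h1 h2 (by omega) (by omega)]
        exact h.d3L i j h1 (by omega) (by omega) (by omega)

end

theorem pos_TSQ {M : ℤ} {N : N.Net} {A B : ℤ → ℤ → Pt} {a b : ℕ} (h : TPos (a + 1) (b + 1) (posQ M N) A B)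
    {t : Vx × Vx × Vx} (ht : t ∈ TS a b) : 0 < otri (rQ M N A B a b) t := by
  unfold TS at ht
  rw [List.mem_append, List.mem_append] at ht
  rcases ht with ht | ht | ht
  · obtain ⟨i, j, hi, hj, ht⟩ := mem_fam2S ht
    exact pos_cellS h (by omega) (by omega) (by omega) (by omega) ht
  · obtain ⟨i, j, hi, hj, ht⟩ := mem_fam2S ht
    exact pos_door2S h (by omega) (by omega) (by omega) (by omega) ht
  · obtain ⟨i, j, hi, hj, ht⟩ := mem_fam2S ht
    exact pos_door3S h (by omega) (by omega) (by omega) (by omega) ht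

end Pool.Agent.Lib.MP_6ff0c5_lc.C
end

section

/-!
The triangulations of the holes (`decide +kernel` on `Same (tE fillP) (cE holeTab)`, then `Same.S`, `sum_tblk`, `cs_blk`).
-/

set_option autoImplicit false

namespace Pool.Agent.Lib.MP_6ff0c5_lc.C

open Pool.Agent.Lib.MP_6ff0c5_lc.K

theorem same_fillP : Same (tE fillP) (cE holeTab) := by decide +kernel

theorem same_fillQ : Same (tE fillQ) (cE holeTab) := by decide +kernel

theorem sum_fillP {f : Vx → Vx → ℤ} (hf : ∀ a b, f b a = -f a b) (i j : ℤ) :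
    ((tblk fillP i j).map (bsum f)).sum = cs f (blk holeTab i j) := by
  rw [sum_tblk, cs_blk]
  exact same_fillP.S hf i j

theorem sum_fillQ {f : Vx → Vx → ℤ} (hf : ∀ a b, f b a = -f a b) (i j : ℤ) :
    ((tblk fillQ i j).map (bsum f)).sum = cs f (blk holeTab i j) := by
  rw [sum_tblk, cs_blk]
  exact same_fillQ.S hf i j

end Pool.Agent.Lib.MP_6ff0c5_lc.C
end
end
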