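import Pool.Agent.Lib.MP_6ff0c5_lc.C.Tab

/-!
Two lists of triangles with the same boundary chain cover the same set (the first list may contain degenerate triangles with
three different corners, they do not count: `cr_ind`, `ind_of_degenerate` in K/Chain.lean).

Plan. `U = ⋃ t' ∈ L2, ClosedTri p t'` is closed (finite union, `isClosed_closedTri`). If `x ∈ ClosedTri p t`, `t ∈ L1`, and
`x ∉ U`, then `exists_generic` (K/Cover.lean) with the open set `Uᶜ` and the list of all edges of `L1` and `L2` (as pairs of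
points) gives `y ∈ OpenTri p t`, `y ∉ U`, off all edge lines (`Off p t' y` for all `t' ∈ L1 ++ L2`, use `ne_of_otri`). By
`bsum_cr` and the hypothesis for `f a b = cr y (p a) (p b)` (`cr_swap`): the number of `t' ∈ L1` with `y ∈ OpenTri p t'` (which is
at least 1) is the number of `t' ∈ L2` with `y ∈ OpenTri p t'` (which is 0, `openTri_subset`). See `Full.count`.
-/

set_option autoImplicit false

namespace Pool.Agent.Lib.MP_6ff0c5_lc.C

open Pool.Agent.Lib.MP_6ff0c5_lc.K
open Filter Topology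

theorem cover_of_chain {Λ : Type} {p : Λ → Pt} {L1 L2 : List (Λ × Λ × Λ)}
    (h : ∀ f : Λ → Λ → ℤ, (∀ a b, f b a = -f a b) → (L1.map (bsum f)).sum = (L2.map (bsum f)).sum)
    (h1 : ∀ t ∈ L1, 0 ≤ otri p t ∧ p t.1 ≠ p t.2.1 ∧ p t.2.1 ≠ p t.2.2 ∧ p t.2.2 ≠ p t.1)
    (h2 : ∀ t ∈ L2, 0 < otri p t) {t : Λ × Λ × Λ} (ht : t ∈ L1) (ht0 : 0 < otri p t) {x : Pt}
    (hx : x ∈ ClosedTri p t) : ∃ t' ∈ L2, x ∈ ClosedTri p t' := by
  classical
  by_contra hcon
  push Not at hcon
  -- the complement of the union of the closed triangles of `L2` is a neighbourhood of `x`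
  have hU : ∀ L : List (Λ × Λ × Λ), (∀ t' ∈ L, x ∉ ClosedTri p t') →
      {y : Pt | ∀ t' ∈ L, y ∉ ClosedTri p t'} ∈ 𝓝 x := by
    intro L
    induction L with
    | nil => intro _; simp
    | cons s L ih =>
      intro hL
      filter_upwards [ih fun t' ht' => hL t' (List.mem_cons_of_mem _ ht'),
        (isClosed_closedTri p s).isOpen_compl.mem_nhds (hL s List.mem_cons_self)] with y y1 y2 t' ht'
      rcases List.mem_cons.1 ht' with rfl | ht'
      · exact y2
      · exact y1 t' ht'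
  let E : List (Pt × Pt) := (L1 ++ L2).flatMap fun t' =>
    [(p t'.1, p t'.2.1), (p t'.2.1, p t'.2.2), (p t'.2.2, p t'.1)]
  obtain ⟨y, hyU, hyt, hyE⟩ := exists_generic ht0 hx (hU L2 hcon) E
  have hoff : ∀ t' ∈ L1 ++ L2, p t'.1 ≠ p t'.2.1 → p t'.2.1 ≠ p t'.2.2 → p t'.2.2 ≠ p t'.1 → Off p t' y := by
    intro t' ht' n1 n2 n3
    have m1 : (p t'.1, p t'.2.1) ∈ E := List.mem_flatMap.2 ⟨t', ht', by simp⟩
    have m2 : (p t'.2.1, p t'.2.2) ∈ E := List.mem_flatMap.2 ⟨t', ht', by simp⟩
    have m3 : (p t'.2.2, p t'.1) ∈ E := List.mem_flatMap.2 ⟨t', ht', by simp⟩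
    exact ⟨hyE _ m1 n1, hyE _ m2 n2, hyE _ m3 n3⟩
  have hf := h (fun a b => cr y (p a) (p b)) (fun a b => cr_swap y (p a) (p b))
  -- the second sum is zero
  have hz : (L2.map (bsum fun a b => cr y (p a) (p b))).sum = 0 := by
    refine List.sum_eq_zero fun m hm => ?_
    obtain ⟨t', ht', rfl⟩ := List.mem_map.1 hm
    obtain ⟨n1, n2, n3⟩ := ne_of_otri (h2 t' ht')
    rw [bsum_cr (h2 t' ht') (hoff t' (List.mem_append.2 (Or.inr ht')) n1 n2 n3)]
    exact if_neg fun hy => hyU t' ht' (openTri_subset p t' hy)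
  -- the summands of the first sum
  have hn : ∀ t' ∈ L1, 0 ≤ bsum (fun a b => cr y (p a) (p b)) t' := by
    intro t' ht'
    obtain ⟨g, n1, n2, n3⟩ := h1 t' ht'
    have ho := hoff t' (List.mem_append.2 (Or.inl ht')) n1 n2 n3
    rcases g.lt_or_eq with g | g
    · rw [bsum_cr g ho]
      split_ifs <;> norm_num
    · unfold bsum
      rw [cr_ind (notMem_segment_of_orient ho.1) (notMem_segment_of_orient ho.2.1)
        (notMem_segment_of_orient ho.2.2), ind_of_degenerate (by unfold otri at g; exact g.symm)]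
  have hp : ∀ L : List (Λ × Λ × Λ), (∀ t' ∈ L, 0 ≤ bsum (fun a b => cr y (p a) (p b)) t') →
      0 ≤ (L.map (bsum fun a b => cr y (p a) (p b))).sum ∧
      ∀ t' ∈ L, bsum (fun a b => cr y (p a) (p b)) t' ≤ (L.map (bsum fun a b => cr y (p a) (p b))).sum := by
    intro L
    induction L with
    | nil => intro _; simp
    | cons s L ih =>
      intro hL
      obtain ⟨i1, i2⟩ := ih fun t' ht' => hL t' (List.mem_cons_of_mem _ ht')
      have hs := hL s List.mem_cons_self
      simp only [List.map_cons, List.sum_cons]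
      refine ⟨by linarith, fun t' ht' => ?_⟩
      rcases List.mem_cons.1 ht' with rfl | ht'
      · linarith
      · have := i2 t' ht'; linarith
  have hone := (hp L1 hn).2 t ht
  obtain ⟨n1, n2, n3⟩ := ne_of_otri ht0
  rw [bsum_cr ht0 (hoff t (List.mem_append.2 (Or.inl ht)) n1 n2 n3), if_pos hyt, hf, hz] at hone
  norm_num at hone

end Pool.Agent.Lib.MP_6ff0c5_lc.C
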