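import Pool.Agent.Lib.MP_6ff0c5_lc.C.PoQ
import Pool.Agent.Lib.MP_6ff0c5_lc.C.ChF

/-!
The fan triangulation of the two rooms `A`, `B` of a cell (joined at door 1) from the nominal centres, in the second drawing. Its
boundary chain is that of `refA ++ refB`.

Plan. `chain_fanC`: `decide +kernel` on `Same (tE fanC) (tE (refA ++ refB))`, `sum_tblk`. Positions: all labels of `fanC` satisfy
`inW`; for all triangles except five the nominal determinant is larger than `10^6` (positivity as in `pos_blkQ`). For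
`(1,6,13)`, `(8,9,13)`, `(10,0,13)`, `(7,11,13)` and `(12,13,0)` the nominal determinant is `0`; if the type of the room `B` is `free`
then the displacements of the kinds 6, 8, 10, 7 are `(0,1), (-1,0), (-1,0), (1,0)` and the first four determinants are `20592 M`,
`63175 M`, `257400 M`, `19855 M`; the fifth is exactly `0` (kinds 0, 1, 9, 11, 12, 13 have displacement 0). The corners are
different: for positively oriented triangles `ne_of_otri` (K/Cover.lean), for `(12,13,0)` by the second coordinates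
`0, 214500 M, -42900 M`.
-/

set_option autoImplicit false

namespace Pool.Agent.Lib.MP_6ff0c5_lc.C

open Pool.Agent.Lib.MP_6ff0c5_lc.K
open Filter Topology

def fanC : List (Vx × Vx × Vx) :=
  cellS ++ [((3, 0, 0), (2, 0, 0), (12, 0, 0)), ((5, 0, 0), (4, 0, 0), (12, 0, 0)), ((2, 1, 0), (3, 1, 0), (13, 0, 0)),
    ((4, 0, 1), (5, 0, 1), (13, 0, 0))]

theorem same_fanC : Same (tE fanC) (tE (refA ++ refB)) := by decide +kernel

theorem chain_fanC {f : Vx → Vx → ℤ} (hf : ∀ a b, f b a = -f a b) (i j : ℤ) :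
    ((tblk fanC i j).map (bsum f)).sum = ((tblk (refA ++ refB) i j).map (bsum f)).sum := by
  rw [sum_tblk, sum_tblk]
  exact same_fanC.S hf i j

/-- the triangles of `fanC` with large nominal determinant -/
def fanG : List (Vx × Vx × Vx) :=
  [((0, 0, 0), (3, 0, 0), (12, 0, 0)), ((2, 0, 0), (5, 0, 0), (12, 0, 0)), ((4, 0, 0), (1, 0, 0), (12, 0, 0)),
    ((6, 0, 0), (7, 0, 0), (13, 0, 0)),
    ((11, 0, 0), (2, 1, 0), (13, 0, 0)), ((3, 1, 0), (4, 0, 1), (13, 0, 0)), ((5, 0, 1), (8, 0, 0), (13, 0, 0)),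
    ((9, 0, 0), (10, 0, 0), (13, 0, 0)), ((12, 0, 0), (1, 0, 0), (13, 0, 0)),
    ((3, 0, 0), (2, 0, 0), (12, 0, 0)), ((5, 0, 0), (4, 0, 0), (12, 0, 0)), ((2, 1, 0), (3, 1, 0), (13, 0, 0)),
    ((4, 0, 1), (5, 0, 1), (13, 0, 0))]

/-- the other five triangles of `fanC` -/
def fanBdeg : List (Vx × Vx × Vx) :=
  [((1, 0, 0), (6, 0, 0), (13, 0, 0)), ((7, 0, 0), (11, 0, 0), (13, 0, 0)), ((8, 0, 0), (9, 0, 0), (13, 0, 0)),
    ((10, 0, 0), (0, 0, 0), (13, 0, 0)), ((12, 0, 0), (13, 0, 0), (0, 0, 0))]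

theorem fanC_sub : ∀ s ∈ fanC, s ∈ fanG ++ fanBdeg := by decide +kernel

theorem fanC_cases {s : Vx × Vx × Vx} (hs : s ∈ fanC) : s ∈ fanG ∨ s = ((1, 0, 0), (6, 0, 0), (13, 0, 0)) ∨
    s = ((7, 0, 0), (11, 0, 0), (13, 0, 0)) ∨ s = ((8, 0, 0), (9, 0, 0), (13, 0, 0)) ∨
    s = ((10, 0, 0), (0, 0, 0), (13, 0, 0)) ∨ s = ((12, 0, 0), (13, 0, 0), (0, 0, 0)) := by
  have h := fanC_sub s hs
  rw [List.mem_append] at h
  rcases h with h | h
  · exact Or.inl h
  · right
    unfold fanBdeg at h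
    rw [List.mem_cons, List.mem_cons, List.mem_cons, List.mem_cons, List.mem_singleton] at h
    exact h

theorem okQ_fanG : okQ fanG := by decide +kernel

theorem otri_posQ (M : ℤ) (N : N.Net) (a b c : Vx) : otri (posQ M N) (a, b, c) =
    (iori (iposQ M N a) (iposQ M N b) (iposQ M N c) : ℝ) := by
  unfold otri posQ
  exact orient_toPt _ _ _

theorem pos_of_otri {M : ℤ} {N : N.Net} {t : Vx × Vx × Vx} (h : 0 < otri (posQ M N) t) :
    0 ≤ otri (posQ M N) t ∧ posQ M N t.1 ≠ posQ M N t.2.1 ∧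
      posQ M N t.2.1 ≠ posQ M N t.2.2 ∧ posQ M N t.2.2 ≠ posQ M N t.1 :=
  ⟨h.le, ne_of_otri h⟩

theorem posQ_ne {M : ℤ} {N : N.Net} {a b : Vx} (h : (iposQ M N a).2 ≠ (iposQ M N b).2) : posQ M N a ≠ posQ M N b := by
  intro e
  apply h
  have : (posQ M N a).2 = (posQ M N b).2 := by rw [e]
  unfold posQ toPt at this
  simp only at this
  exact_mod_cast this

theorem pos_fanC {M : ℤ} (hM : 1000000000 ≤ M) {N : N.Net} {i j : ℤ} (hfree : N.bt (i + j) j = .free)
    {t : Vx × Vx × Vx} (ht : t ∈ tblk fanC i j) : 0 ≤ otri (posQ M N) t ∧ posQ M N t.1 ≠ posQ M N t.2.1 ∧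
      posQ M N t.2.1 ≠ posQ M N t.2.2 ∧ posQ M N t.2.2 ≠ posQ M N t.1 := by
  unfold tblk at ht
  rw [List.mem_map] at ht
  obtain ⟨s, hs, rfl⟩ := ht
  rcases fanC_cases hs with h | rfl | rfl | rfl | rfl | rfl
  · refine pos_of_otri (pos_blkQ hM N okQ_fanG (i := i) (j := j) ?_)
    unfold tblk
    exact List.mem_map_of_mem h
  · refine pos_of_otri ?_
    show 0 < otri (posQ M N) (sh (1, 0, 0) i j, sh (6, 0, 0) i j, sh (13, 0, 0) i j)
    rw [otri_posQ]
    have : iori (iposQ M N (sh (1, 0, 0) i j)) (iposQ M N (sh (6, 0, 0) i j)) (iposQ M N (sh (13, 0, 0) i j)) =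
        20592 * M := by
      simp [iori, iposQ, dispQ, nomQ, tabQ, sh, hfree]
      ring
    rw [this]
    exact_mod_cast (by linarith : (0 : ℤ) < 20592 * M)
  · refine pos_of_otri ?_
    show 0 < otri (posQ M N) (sh (7, 0, 0) i j, sh (11, 0, 0) i j, sh (13, 0, 0) i j)
    rw [otri_posQ]
    have : iori (iposQ M N (sh (7, 0, 0) i j)) (iposQ M N (sh (11, 0, 0) i j)) (iposQ M N (sh (13, 0, 0) i j)) =
        19855 * M := by
      simp [iori, iposQ, dispQ, nomQ, tabQ, sh, hfree]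
      ring
    rw [this]
    exact_mod_cast (by linarith : (0 : ℤ) < 19855 * M)
  · refine pos_of_otri ?_
    show 0 < otri (posQ M N) (sh (8, 0, 0) i j, sh (9, 0, 0) i j, sh (13, 0, 0) i j)
    rw [otri_posQ]
    have : iori (iposQ M N (sh (8, 0, 0) i j)) (iposQ M N (sh (9, 0, 0) i j)) (iposQ M N (sh (13, 0, 0) i j)) =
        63175 * M := by
      simp [iori, iposQ, dispQ, nomQ, tabQ, sh, hfree]
      ring
    rw [this]
    exact_mod_cast (by linarith : (0 : ℤ) < 63175 * M)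
  · refine pos_of_otri ?_
    show 0 < otri (posQ M N) (sh (10, 0, 0) i j, sh (0, 0, 0) i j, sh (13, 0, 0) i j)
    rw [otri_posQ]
    have : iori (iposQ M N (sh (10, 0, 0) i j)) (iposQ M N (sh (0, 0, 0) i j)) (iposQ M N (sh (13, 0, 0) i j)) =
        257400 * M := by
      simp [iori, iposQ, dispQ, nomQ, tabQ, sh, hfree]
      ring
    rw [this]
    exact_mod_cast (by linarith : (0 : ℤ) < 257400 * M)
  · show 0 ≤ otri (posQ M N) (sh (12, 0, 0) i j, sh (13, 0, 0) i j, sh (0, 0, 0) i j) ∧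
      posQ M N (sh (12, 0, 0) i j) ≠ posQ M N (sh (13, 0, 0) i j) ∧
      posQ M N (sh (13, 0, 0) i j) ≠ posQ M N (sh (0, 0, 0) i j) ∧
      posQ M N (sh (0, 0, 0) i j) ≠ posQ M N (sh (12, 0, 0) i j)
    refine ⟨?_, posQ_ne ?_, posQ_ne ?_, posQ_ne ?_⟩
    · rw [otri_posQ]
      have : iori (iposQ M N (sh (12, 0, 0) i j)) (iposQ M N (sh (13, 0, 0) i j)) (iposQ M N (sh (0, 0, 0) i j)) =
          0 := by
        simp [iori, iposQ, dispQ, nomQ, tabQ, sh]
      rw [this]
      simp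
    · intro e
      simp [iposQ, dispQ, nomQ, tabQ, sh] at e
      have h2 : (214500 : ℤ) * M = 0 := by linarith
      omega
    · intro e
      simp [iposQ, dispQ, nomQ, tabQ, sh] at e
      have h2 : (257400 : ℤ) * M = 0 := by linarith
      omega
    · intro e
      simp [iposQ, dispQ, nomQ, tabQ, sh] at e
      have h2 : (42900 : ℤ) * M = 0 := by linarith
      omega

end Pool.Agent.Lib.MP_6ff0c5_lc.C
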