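import Pool.Agent.Lib.MP_6ff0c5_lc.C.Cert
import Pool.Agent.Lib.MP_6ff0c5_lc.C.ApprQ
import Pool.Agent.Lib.MP_6ff0c5_lc.Net.Def
import Pool.Agent.Lib.MP_6ff0c5_lc.K.Comp

section

section

/-! generated: for every wall and every vertex near it a reason why the vertex does not cover the wall: code (0: not on the left in the first drawing, 1: blocked in the first drawing by the wall (w, i, j), 2: not on the left in the second drawing, 3: blocked in the second drawing) -/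

set_option autoImplicit false

namespace Pool.Agent.Lib.MP_6ff0c5_lc.C

def c1tab0 : List (Vx × ℕ × ℕ × ℤ × ℤ) :=
 [((13, -2, -1), 1, 2, -1, 0), ((4, -2, 0), 1, 1, -1, 0), ((6, -2, 0), 1, 3, -1, 0), ((7, -2, 0), 1, 3, -1, 0), 
  ((11, -2, 0), 1, 2, -1, 0), ((13, -2, 0), 1, 3, -1, 0), ((4, -2, 1), 1, 3, -1, 0), ((6, -2, 1), 1, 7, -1, 0), ((7, -2, 1), 1, 7, -1, 0), 
  ((11, -2, 1), 1, 4, -1, 0), ((8, -1, -1), 1, 2, -1, 0), ((9, -1, -1), 1, 2, -1, 0), ((10, -1, -1), 1, 2, -1, 0), ((13, -1, -1), 1, 2, -1, 0), 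
  ((0, -1, 0), 1, 3, -1, 0), ((1, -1, 0), 1, 5, -1, 0), ((2, -1, 0), 1, 2, -1, 0), ((3, -1, 0), 1, 3, -1, 0), ((4, -1, 0), 1, 2, 0, 0), 
  ((5, -1, 0), 1, 2, -1, 0), ((6, -1, 0), 1, 5, -1, 0), ((7, -1, 0), 2, 0, 0, 0), ((8, -1, 0), 1, 4, -1, 0), ((9, -1, 0), 2, 0, 0, 0), 
  ((10, -1, 0), 2, 0, 0, 0), ((11, -1, 0), 2, 0, 0, 0), ((13, -1, 0), 2, 0, 0, 0), ((0, -1, 1), 1, 7, -1, 0), ((1, -1, 1), 1, 7, -1, 0), 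
  ((2, -1, 1), 2, 0, 0, 0), ((3, -1, 1), 1, 7, -1, 0), ((4, -1, 1), 2, 0, 0, 0), ((5, -1, 1), 1, 9, -1, 0), ((6, -1, 1), 1, 8, 0, 0), 
  ((7, -1, 1), 1, 8, 0, 0), ((11, -1, 1), 1, 7, -1, 0), ((12, -1, 1), 1, 7, -1, 0), ((8, 0, -1), 0, 0, 0, 0), ((9, 0, -1), 0, 0, 0, 0), 
  ((10, 0, -1), 0, 0, 0, 0), ((1, 0, 0), 3, 2, 0, 0), ((2, 0, 0), 0, 0, 0, 0), ((5, 0, 0), 0, 0, 0, 0), ((6, 0, 0), 0, 0, 0, 0), 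
  ((8, 0, 0), 1, 7, -1, 0), ((9, 0, 0), 0, 0, 0, 0), ((10, 0, 0), 0, 0, 0, 0), ((0, 0, 1), 1, 9, 0, 0), ((1, 0, 1), 1, 9, 0, 0), 
  ((2, 0, 1), 1, 8, 0, 0), ((3, 0, 1), 1, 9, 0, 0), ((5, 0, 1), 1, 9, 0, 0), ((6, 0, 1), 1, 9, 0, 0), ((12, 0, 1), 1, 9, 0, 0)]

def c1tab1 : List (Vx × ℕ × ℕ × ℤ × ℤ) :=
 [((13, -1, -1), 0, 0, 0, 0), ((4, -1, 0), 0, 0, 0, 0), ((6, -1, 0), 0, 0, 0, 0), ((7, -1, 0), 0, 0, 0, 0), 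
  ((11, -1, 0), 0, 0, 0, 0), ((13, -1, 0), 0, 0, 0, 0), ((4, -1, 1), 3, 0, 0, 0), ((11, -1, 1), 1, 2, -1, 1), ((8, 0, -1), 0, 0, 0, 0), 
  ((9, 0, -1), 2, 0, 0, 0), ((10, 0, -1), 1, 9, 0, -1), ((13, 0, -1), 2, 0, 0, 0), ((0, 0, 0), 1, 2, 0, 0), ((1, 0, 0), 2, 0, 0, 0), 
  ((3, 0, 0), 1, 2, 0, 0), ((4, 0, 0), 1, 9, 0, -1), ((6, 0, 0), 1, 2, 0, 0), ((7, 0, 0), 1, 2, 0, 0), ((8, 0, 0), 1, 2, 0, 0), 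
  ((9, 0, 0), 1, 2, 0, 0), ((10, 0, 0), 1, 2, 0, 0), ((11, 0, 0), 1, 2, 0, 0), ((2, 0, 1), 1, 2, 0, 0), ((4, 0, 1), 1, 2, 0, 0), 
  ((5, 0, 1), 1, 2, 0, 0), ((11, 0, 1), 1, 2, 0, 0), ((12, 0, 1), 1, 2, 0, 0), ((12, 1, 0), 1, 2, 0, 0), ((12, 1, 1), 1, 2, 0, 0)]

def c1tab2 : List (Vx × ℕ × ℕ × ℤ × ℤ) :=
 [((13, -1, -2), 1, 1, 0, 0), ((4, -1, -1), 1, 1, 0, 0), ((6, -1, -1), 1, 1, 0, 0), ((7, -1, -1), 1, 1, 0, 0), 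
  ((11, -1, -1), 1, 1, 0, 0), ((13, -1, -1), 1, 1, 0, 0), ((4, -1, 0), 1, 1, 0, 0), ((6, -1, 0), 0, 0, 0, 0), ((7, -1, 0), 0, 0, 0, 0), 
  ((11, -1, 0), 1, 1, 0, 0), ((8, 0, -2), 1, 1, 0, 0), ((9, 0, -2), 1, 7, -1, -1), ((10, 0, -2), 1, 7, -1, -1), ((13, 0, -2), 1, 2, 0, -1), 
  ((0, 0, -1), 1, 7, -1, -1), ((1, 0, -1), 1, 1, 0, 0), ((2, 0, -1), 1, 1, 0, 0), ((3, 0, -1), 1, 3, 0, -1), ((4, 0, -1), 1, 3, 0, -1), 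
  ((5, 0, -1), 1, 1, 0, 0), ((6, 0, -1), 1, 4, 0, -1), ((7, 0, -1), 2, 0, 0, 0), ((8, 0, -1), 1, 1, 0, 0), ((9, 0, -1), 2, 0, 0, 0), 
  ((10, 0, -1), 1, 9, 0, -1), ((11, 0, -1), 1, 3, 0, -1), ((13, 0, -1), 2, 0, 0, 0), ((0, 0, 0), 0, 0, 0, 0), ((2, 0, 0), 2, 0, 0, 0), 
  ((3, 0, 0), 0, 0, 0, 0), ((5, 0, 0), 1, 9, 0, -1), ((6, 0, 0), 0, 0, 0, 0), ((7, 0, 0), 0, 0, 0, 0), ((11, 0, 0), 0, 0, 0, 0), 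
  ((8, 1, -2), 1, 3, 0, -1), ((9, 1, -2), 1, 2, 1, -1), ((10, 1, -2), 1, 4, 0, -1), ((0, 1, -1), 2, 0, 0, 0), ((1, 1, -1), 2, 0, 0, 0), 
  ((2, 1, -1), 1, 3, 0, -1), ((3, 1, -1), 0, 0, 0, 0), ((5, 1, -1), 1, 3, 0, -1), ((6, 1, -1), 0, 0, 0, 0), ((8, 1, -1), 0, 0, 0, 0), 
  ((9, 1, -1), 0, 0, 0, 0), ((10, 1, -1), 0, 0, 0, 0), ((12, 1, -1), 1, 4, 0, -1), ((0, 1, 0), 0, 0, 0, 0), ((1, 1, 0), 0, 0, 0, 0), 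
  ((2, 1, 0), 0, 0, 0, 0), ((3, 1, 0), 0, 0, 0, 0), ((5, 1, 0), 0, 0, 0, 0), ((6, 1, 0), 0, 0, 0, 0), ((12, 1, 0), 0, 0, 0, 0)]

def c1tab3 : List (Vx × ℕ × ℕ × ℤ × ℤ) :=
 [((13, -1, -1), 1, 2, -1, 0), ((4, -1, 0), 0, 0, 0, 0), ((6, -1, 0), 1, 0, 0, 0), ((7, -1, 0), 1, 0, 0, 0), 
  ((11, -1, 0), 2, 0, 0, 0), ((13, -1, 0), 1, 0, 0, 0), ((4, -1, 1), 1, 0, 0, 0), ((11, -1, 1), 1, 0, 0, 0), ((8, 0, -1), 0, 0, 0, 0), 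
  ((9, 0, -1), 0, 0, 0, 0), ((10, 0, -1), 0, 0, 0, 0), ((13, 0, -1), 0, 0, 0, 0), ((0, 0, 0), 2, 0, 0, 0), ((2, 0, 0), 0, 0, 0, 0), 
  ((3, 0, 0), 1, 0, 0, 0), ((4, 0, 0), 0, 0, 0, 0), ((5, 0, 0), 0, 0, 0, 0), ((7, 0, 0), 0, 0, 0, 0), ((8, 0, 0), 1, 0, 0, 0), 
  ((9, 0, 0), 1, 0, 0, 0), ((10, 0, 0), 1, 0, 0, 0), ((11, 0, 0), 0, 0, 0, 0), ((2, 0, 1), 1, 0, 0, 0), ((4, 0, 1), 0, 0, 0, 0), 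
  ((5, 0, 1), 1, 0, 0, 0), ((11, 0, 1), 1, 2, 0, 1), ((12, 0, 1), 1, 0, 0, 0), ((12, 1, 0), 0, 0, 0, 0), ((12, 1, 1), 1, 2, 0, 1)]

def c1tab4 : List (Vx × ℕ × ℕ × ℤ × ℤ) :=
 [((13, -1, -1), 0, 0, 0, 0), ((4, -1, 0), 0, 0, 0, 0), ((6, -1, 0), 1, 11, 0, 0), ((7, -1, 0), 1, 11, 0, 0), 
  ((11, -1, 0), 0, 0, 0, 0), ((13, -1, 0), 1, 11, 0, 0), ((4, -1, 1), 1, 11, 0, 0), ((11, -1, 1), 1, 11, 0, 0), ((8, 0, -1), 0, 0, 0, 0), 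
  ((9, 0, -1), 0, 0, 0, 0), ((10, 0, -1), 0, 0, 0, 0), ((13, 0, -1), 0, 0, 0, 0), ((0, 0, 0), 0, 0, 0, 0), ((1, 0, 0), 0, 0, 0, 0), 
  ((2, 0, 0), 0, 0, 0, 0), ((3, 0, 0), 1, 11, 0, 0), ((4, 0, 0), 0, 0, 0, 0), ((5, 0, 0), 0, 0, 0, 0), ((8, 0, 0), 1, 11, 0, 0), 
  ((9, 0, 0), 3, 2, 0, 0), ((10, 0, 0), 3, 0, 0, 0), ((11, 0, 0), 0, 0, 0, 0), ((2, 0, 1), 1, 9, 0, 0), ((4, 0, 1), 0, 0, 0, 0), 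
  ((5, 0, 1), 1, 9, 0, 0), ((11, 0, 1), 1, 2, 0, 1), ((12, 0, 1), 1, 9, 0, 0), ((12, 1, 0), 0, 0, 0, 0), ((12, 1, 1), 1, 2, 0, 1)]

def c1tab5 : List (Vx × ℕ × ℕ × ℤ × ℤ) :=
 [((13, -1, -1), 0, 0, 0, 0), ((4, -1, 0), 0, 0, 0, 0), ((6, -1, 0), 0, 0, 0, 0), ((7, -1, 0), 0, 0, 0, 0), 
  ((11, -1, 0), 0, 0, 0, 0), ((13, -1, 0), 0, 0, 0, 0), ((4, -1, 1), 0, 0, 0, 0), ((11, -1, 1), 0, 0, 0, 0), ((8, 0, -1), 0, 0, 0, 0), 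
  ((9, 0, -1), 0, 0, 0, 0), ((10, 0, -1), 0, 0, 0, 0), ((13, 0, -1), 0, 0, 0, 0), ((0, 0, 0), 0, 0, 0, 0), ((1, 0, 0), 0, 0, 0, 0), 
  ((2, 0, 0), 0, 0, 0, 0), ((3, 0, 0), 0, 0, 0, 0), ((4, 0, 0), 1, 6, 0, 0), ((5, 0, 0), 0, 0, 0, 0), ((6, 0, 0), 0, 0, 0, 0), 
  ((8, 0, 0), 0, 0, 0, 0), ((9, 0, 0), 0, 0, 0, 0), ((10, 0, 0), 0, 0, 0, 0), ((2, 0, 1), 0, 0, 0, 0), ((4, 0, 1), 3, 8, 0, 0), 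
  ((5, 0, 1), 0, 0, 0, 0), ((11, 0, 1), 1, 2, 0, 1), ((12, 0, 1), 0, 0, 0, 0), ((8, 1, -1), 1, 6, 0, 0), ((9, 1, -1), 1, 6, 0, 0), 
  ((10, 1, -1), 1, 6, 0, 0), ((0, 1, 0), 2, 0, 0, 0), ((1, 1, 0), 2, 0, 0, 0), ((2, 1, 0), 2, 0, 0, 0), ((3, 1, 0), 2, 0, 0, 0), 
  ((5, 1, 0), 1, 6, 0, 0), ((6, 1, 0), 1, 7, 0, 0), ((8, 1, 0), 1, 7, 0, 0), ((9, 1, 0), 1, 7, 0, 0), ((10, 1, 0), 1, 7, 0, 0), 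
  ((12, 1, 0), 2, 0, 0, 0), ((2, 1, 1), 1, 7, 0, 0), ((5, 1, 1), 1, 7, 0, 0), ((12, 1, 1), 1, 7, 0, 0)]

def c1tab6 : List (Vx × ℕ × ℕ × ℤ × ℤ) :=
 [((13, -1, -1), 1, 1, 0, 0), ((4, -1, 0), 0, 0, 0, 0), ((6, -1, 0), 1, 3, 0, 0), ((7, -1, 0), 1, 3, 0, 0), 
  ((11, -1, 0), 1, 1, 0, 0), ((13, -1, 0), 1, 3, 0, 0), ((4, -1, 1), 1, 0, 0, 0), ((11, -1, 1), 1, 0, 0, 0), ((8, 0, -1), 0, 0, 0, 0), 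
  ((9, 0, -1), 0, 0, 0, 0), ((10, 0, -1), 0, 0, 0, 0), ((13, 0, -1), 0, 0, 0, 0), ((0, 0, 0), 1, 3, 0, 0), ((1, 0, 0), 1, 5, 0, 0), 
  ((2, 0, 0), 1, 2, 0, 0), ((3, 0, 0), 1, 3, 0, 0), ((4, 0, 0), 0, 0, 0, 0), ((5, 0, 0), 1, 2, 0, 0), ((6, 0, 0), 1, 5, 0, 0), 
  ((7, 0, 0), 2, 0, 0, 0), ((8, 0, 0), 1, 0, 0, 0), ((9, 0, 0), 1, 3, 0, 0), ((10, 0, 0), 1, 3, 0, 0), ((2, 0, 1), 1, 3, 0, 0), 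
  ((4, 0, 1), 3, 8, 0, 0), ((5, 0, 1), 1, 3, 0, 0), ((11, 0, 1), 1, 2, 0, 1), ((12, 0, 1), 1, 3, 0, 0), ((8, 1, -1), 0, 0, 0, 0), 
  ((9, 1, -1), 0, 0, 0, 0), ((10, 1, -1), 0, 0, 0, 0), ((0, 1, 0), 1, 2, 1, 0), ((1, 1, 0), 2, 0, 0, 0), ((3, 1, 0), 1, 0, 1, 0), 
  ((5, 1, 0), 0, 0, 0, 0), ((6, 1, 0), 1, 2, 1, 0), ((8, 1, 0), 1, 7, 0, 0), ((9, 1, 0), 1, 7, 0, 0), ((10, 1, 0), 1, 7, 0, 0), 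
  ((12, 1, 0), 2, 0, 0, 0), ((2, 1, 1), 1, 7, 0, 0), ((5, 1, 1), 1, 7, 0, 0), ((12, 1, 1), 1, 7, 0, 0)]

def c1tab7 : List (Vx × ℕ × ℕ × ℤ × ℤ) :=
 [((13, -1, -1), 1, 2, 0, 0), ((4, -1, 0), 1, 1, 0, 0), ((6, -1, 0), 1, 3, 0, 0), ((7, -1, 0), 1, 3, 0, 0), 
  ((11, -1, 0), 1, 2, 0, 0), ((13, -1, 0), 1, 4, 0, 0), ((4, -1, 1), 1, 3, 0, 0), ((6, -1, 1), 0, 0, 0, 0), ((7, -1, 1), 0, 0, 0, 0), 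
  ((11, -1, 1), 1, 8, 0, 0), ((8, 0, -1), 1, 2, 0, 0), ((9, 0, -1), 1, 2, 0, 0), ((10, 0, -1), 1, 2, 0, 0), ((13, 0, -1), 1, 2, 0, 0), 
  ((0, 0, 0), 1, 3, 0, 0), ((1, 0, 0), 1, 5, 0, 0), ((2, 0, 0), 1, 2, 0, 0), ((3, 0, 0), 1, 3, 0, 0), ((4, 0, 0), 1, 6, 0, 0), 
  ((5, 0, 0), 1, 2, 0, 0), ((6, 0, 0), 1, 5, 0, 0), ((7, 0, 0), 3, 5, 0, 0), ((8, 0, 0), 1, 10, 0, 0), ((9, 0, 0), 3, 8, 0, 0), 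
  ((10, 0, 0), 3, 8, 0, 0), ((11, 0, 0), 3, 6, 0, 0), ((0, 0, 1), 0, 0, 0, 0), ((1, 0, 1), 0, 0, 0, 0), ((2, 0, 1), 3, 8, 0, 0), 
  ((3, 0, 1), 0, 0, 0, 0), ((5, 0, 1), 1, 9, 0, 0), ((6, 0, 1), 0, 0, 0, 0), ((7, 0, 1), 0, 0, 0, 0), ((11, 0, 1), 0, 0, 0, 0), 
  ((12, 0, 1), 0, 0, 0, 0), ((8, 1, -1), 1, 6, 0, 0), ((9, 1, -1), 1, 0, 1, 0), ((10, 1, -1), 1, 9, 1, -1), ((0, 1, 0), 2, 0, 0, 0), 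
  ((1, 1, 0), 2, 0, 0, 0), ((2, 1, 0), 1, 0, 1, 0), ((5, 1, 0), 1, 0, 1, 0), ((6, 1, 0), 0, 0, 0, 0), ((8, 1, 0), 0, 0, 0, 0), 
  ((9, 1, 0), 0, 0, 0, 0), ((10, 1, 0), 0, 0, 0, 0), ((12, 1, 0), 2, 0, 0, 0), ((0, 1, 1), 0, 0, 0, 0), ((1, 1, 1), 0, 0, 0, 0), 
  ((2, 1, 1), 0, 0, 0, 0), ((3, 1, 1), 0, 0, 0, 0), ((5, 1, 1), 0, 0, 0, 0), ((6, 1, 1), 0, 0, 0, 0), ((12, 1, 1), 0, 0, 0, 0)]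

def c1tab8 : List (Vx × ℕ × ℕ × ℤ × ℤ) :=
 [((13, -1, -1), 1, 9, 0, 0), ((4, -1, 0), 1, 9, 0, 0), ((6, -1, 0), 0, 0, 0, 0), ((7, -1, 0), 0, 0, 0, 0), 
  ((11, -1, 0), 1, 9, 0, 0), ((13, -1, 0), 0, 0, 0, 0), ((4, -1, 1), 0, 0, 0, 0), ((11, -1, 1), 0, 0, 0, 0), ((8, 0, -1), 1, 1, 0, 0), 
  ((9, 0, -1), 1, 2, 0, 0), ((10, 0, -1), 1, 2, 0, 0), ((13, 0, -1), 1, 0, 0, 0), ((0, 0, 0), 1, 9, 0, 0), ((1, 0, 0), 1, 9, 0, 0), 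
  ((2, 0, 0), 1, 2, 0, 0), ((3, 0, 0), 1, 9, 0, 0), ((4, 0, 0), 1, 0, 0, 0), ((5, 0, 0), 1, 2, 0, 0), ((6, 0, 0), 1, 9, 0, 0), 
  ((7, 0, 0), 1, 9, 0, 0), ((9, 0, 0), 2, 0, 0, 0), ((10, 0, 0), 1, 9, 0, 0), ((11, 0, 0), 1, 0, 0, 0), ((2, 0, 1), 0, 0, 0, 0), 
  ((4, 0, 1), 1, 9, 0, 0), ((11, 0, 1), 1, 2, 0, 1), ((12, 0, 1), 0, 0, 0, 0), ((12, 1, 0), 1, 3, 0, 0), ((12, 1, 1), 1, 2, 0, 1)]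

def c1tab9 : List (Vx × ℕ × ℕ × ℤ × ℤ) :=
 [((13, -1, -1), 0, 0, 0, 0), ((4, -1, 0), 0, 0, 0, 0), ((6, -1, 0), 0, 0, 0, 0), ((7, -1, 0), 0, 0, 0, 0), 
  ((11, -1, 0), 0, 0, 0, 0), ((13, -1, 0), 0, 0, 0, 0), ((4, -1, 1), 0, 0, 0, 0), ((11, -1, 1), 1, 8, 0, 0), ((8, 0, -1), 0, 0, 0, 0), 
  ((9, 0, -1), 0, 0, 0, 0), ((10, 0, -1), 0, 0, 0, 0), ((13, 0, -1), 0, 0, 0, 0), ((0, 0, 0), 0, 0, 0, 0), ((1, 0, 0), 0, 0, 0, 0), 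
  ((2, 0, 0), 0, 0, 0, 0), ((3, 0, 0), 0, 0, 0, 0), ((4, 0, 0), 0, 0, 0, 0), ((5, 0, 0), 0, 0, 0, 0), ((6, 0, 0), 0, 0, 0, 0), 
  ((7, 0, 0), 0, 0, 0, 0), ((10, 0, 0), 0, 0, 0, 0), ((11, 0, 0), 0, 0, 0, 0), ((2, 0, 1), 1, 8, 0, 0), ((4, 0, 1), 0, 0, 0, 0), 
  ((5, 0, 1), 2, 0, 0, 0), ((11, 0, 1), 1, 2, 0, 1), ((12, 0, 1), 1, 8, 0, 0), ((12, 1, 0), 0, 0, 0, 0), ((12, 1, 1), 1, 2, 0, 1)]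

def c1tab10 : List (Vx × ℕ × ℕ × ℤ × ℤ) :=
 [((13, -1, -1), 0, 0, 0, 0), ((4, -1, 0), 0, 0, 0, 0), ((6, -1, 0), 0, 0, 0, 0), ((7, -1, 0), 0, 0, 0, 0), 
  ((11, -1, 0), 0, 0, 0, 0), ((13, -1, 0), 0, 0, 0, 0), ((4, -1, 1), 0, 0, 0, 0), ((11, -1, 1), 0, 0, 0, 0), ((8, 0, -1), 1, 1, 0, 0), 
  ((9, 0, -1), 1, 2, 0, 0), ((10, 0, -1), 1, 2, 0, 0), ((13, 0, -1), 1, 2, 0, 0), ((0, 0, 0), 0, 0, 0, 0), ((1, 0, 0), 0, 0, 0, 0), 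
  ((2, 0, 0), 1, 2, 0, 0), ((3, 0, 0), 0, 0, 0, 0), ((4, 0, 0), 1, 3, 0, 0), ((5, 0, 0), 1, 2, 0, 0), ((6, 0, 0), 3, 0, 0, 0), 
  ((7, 0, 0), 3, 0, 0, 0), ((8, 0, 0), 0, 0, 0, 0), ((11, 0, 0), 1, 3, 0, 0), ((2, 0, 1), 0, 0, 0, 0), ((4, 0, 1), 2, 0, 0, 0), 
  ((5, 0, 1), 0, 0, 0, 0), ((11, 0, 1), 1, 2, 0, 1), ((12, 0, 1), 0, 0, 0, 0), ((8, 1, -1), 1, 3, 0, 0), ((9, 1, -1), 1, 4, 0, 0), 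
  ((10, 1, -1), 1, 4, 0, 0), ((0, 1, 0), 2, 0, 0, 0), ((1, 1, 0), 1, 4, 0, 0), ((2, 1, 0), 1, 4, 0, 0), ((3, 1, 0), 2, 0, 0, 0), 
  ((5, 1, 0), 1, 3, 0, 0), ((6, 1, 0), 1, 7, 0, 0), ((8, 1, 0), 1, 2, 0, 1), ((9, 1, 0), 1, 2, 0, 1), ((10, 1, 0), 1, 2, 0, 1), 
  ((12, 1, 0), 1, 4, 0, 0), ((2, 1, 1), 1, 2, 0, 1), ((5, 1, 1), 1, 2, 0, 1), ((12, 1, 1), 1, 2, 0, 1)]

def c1tab11 : List (Vx × ℕ × ℕ × ℤ × ℤ) :=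
 [((13, -1, -1), 0, 0, 0, 0), ((4, -1, 0), 1, 2, 0, 0), ((6, -1, 0), 0, 0, 0, 0), ((7, -1, 0), 0, 0, 0, 0), 
  ((11, -1, 0), 0, 0, 0, 0), ((13, -1, 0), 0, 0, 0, 0), ((4, -1, 1), 0, 0, 0, 0), ((11, -1, 1), 0, 0, 0, 0), ((8, 0, -1), 1, 1, 0, 0), 
  ((9, 0, -1), 1, 2, 0, 0), ((10, 0, -1), 1, 2, 0, 0), ((13, 0, -1), 1, 2, 0, 0), ((1, 0, 0), 0, 0, 0, 0), ((2, 0, 0), 1, 2, 0, 0), 
  ((3, 0, 0), 0, 0, 0, 0), ((4, 0, 0), 1, 3, 0, 0), ((5, 0, 0), 1, 2, 0, 0), ((6, 0, 0), 2, 0, 0, 0), ((7, 0, 0), 1, 3, 0, 0), 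
  ((8, 0, 0), 0, 0, 0, 0), ((9, 0, 0), 0, 0, 0, 0), ((11, 0, 0), 1, 3, 0, 0), ((2, 0, 1), 0, 0, 0, 0), ((4, 0, 1), 1, 3, 0, 0), 
  ((5, 0, 1), 0, 0, 0, 0), ((11, 0, 1), 1, 2, 0, 1), ((12, 0, 1), 0, 0, 0, 0), ((12, 1, 0), 1, 3, 0, 0), ((12, 1, 1), 1, 2, 0, 1)]

def c1tab12 : List (Vx × ℕ × ℕ × ℤ × ℤ) :=
 [((13, -2, -1), 1, 2, -1, 0), ((13, -2, 0), 1, 4, -1, 0), ((13, -1, -1), 1, 2, -1, 0), ((8, 0, -1), 1, 0, 0, 0), 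
  ((9, 0, -1), 1, 0, 0, 0), ((10, 0, -1), 1, 0, 0, 0), ((0, 0, 0), 2, 0, 0, 0), ((1, 0, 0), 3, 1, 0, 0), ((2, 0, 0), 1, 0, 0, 0), 
  ((5, 0, 0), 1, 0, 0, 0), ((6, 0, 0), 0, 0, 0, 0), ((8, 0, 0), 0, 0, 0, 0), ((9, 0, 0), 0, 0, 0, 0), ((10, 0, 0), 0, 0, 0, 0), 
  ((2, 0, 1), 0, 0, 0, 0), ((5, 0, 1), 0, 0, 0, 0), ((12, 0, 1), 0, 0, 0, 0)]

def c1tab13 : List (Vx × ℕ × ℕ × ℤ × ℤ) :=
 [((13, -1, -1), 0, 0, 0, 0), ((8, 0, -1), 0, 0, 0, 0), ((9, 0, -1), 1, 2, 0, 0), ((10, 0, -1), 1, 2, 0, 0), 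
  ((0, 0, 0), 1, 2, 0, 0), ((1, 0, 0), 2, 0, 0, 0), ((3, 0, 0), 1, 0, 0, 0), ((5, 0, 0), 0, 0, 0, 0), ((6, 0, 0), 1, 0, 0, 0), 
  ((8, 0, 0), 1, 2, 0, 0), ((9, 0, 0), 1, 0, 0, 0), ((10, 0, 0), 1, 0, 0, 0), ((2, 0, 1), 1, 2, 0, 0), ((5, 0, 1), 1, 2, 0, 0), 
  ((12, 0, 1), 1, 2, 0, 0)]

def c1tab14 : List (Vx × ℕ × ℕ × ℤ × ℤ) :=
 [((13, -1, -1), 0, 0, 0, 0), ((4, -1, 0), 0, 0, 0, 0), ((6, -1, 0), 1, 1, 0, 0), ((7, -1, 0), 1, 1, 0, 0), 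
  ((11, -1, 0), 1, 1, 0, 0), ((0, 0, 0), 1, 2, 0, 0), ((1, 0, 0), 3, 3, 0, 0), ((2, 0, 0), 2, 0, 0, 0), ((3, 0, 0), 1, 2, 0, 0), 
  ((4, 0, 0), 0, 0, 0, 0), ((6, 0, 0), 1, 2, 0, 0), ((7, 0, 0), 1, 2, 0, 0), ((11, 0, 0), 1, 2, 0, 0), ((12, 1, 0), 1, 2, 0, 0)]

def c1tab15 : List (Vx × ℕ × ℕ × ℤ × ℤ) :=
 [((13, -1, -1), 0, 0, 0, 0), ((4, -1, 0), 0, 0, 0, 0), ((6, -1, 0), 1, 2, 0, 0), ((7, -1, 0), 1, 2, 0, 0), 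
  ((11, -1, 0), 0, 0, 0, 0), ((0, 0, 0), 1, 2, 0, 0), ((1, 0, 0), 2, 0, 0, 0), ((2, 0, 0), 0, 0, 0, 0), ((3, 0, 0), 1, 2, 0, 0), 
  ((5, 0, 0), 0, 0, 0, 0), ((6, 0, 0), 1, 2, 0, 0), ((7, 0, 0), 1, 2, 0, 0), ((11, 0, 0), 1, 2, 0, 0), ((0, 1, 0), 1, 2, 0, 0), 
  ((1, 1, 0), 1, 2, 0, 0), ((2, 1, 0), 1, 2, 0, 0), ((3, 1, 0), 1, 2, 0, 0), ((5, 1, 0), 1, 2, 0, 0), ((6, 1, 0), 1, 2, 0, 0), 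
  ((12, 1, 0), 1, 2, 0, 0)]

def c1tab16 : List (Vx × ℕ × ℕ × ℤ × ℤ) :=
 [((13, -1, -1), 1, 1, 0, 0), ((4, -1, 0), 1, 1, 0, 0), ((6, -1, 0), 1, 3, 0, 0), ((7, -1, 0), 1, 3, 0, 0), 
  ((11, -1, 0), 1, 1, 0, 0), ((13, -1, 0), 1, 0, 0, 0), ((4, -1, 1), 1, 0, 0, 0), ((11, -1, 1), 1, 0, 0, 0), ((8, 0, -1), 1, 2, 0, 0), 
  ((9, 0, -1), 1, 2, 0, 0), ((10, 0, -1), 1, 2, 0, 0), ((13, 0, -1), 1, 2, 0, 0), ((0, 0, 0), 1, 3, 0, 0), ((1, 0, 0), 1, 5, 0, 0), 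
  ((2, 0, 0), 1, 2, 0, 0), ((3, 0, 0), 1, 3, 0, 0), ((4, 0, 0), 1, 6, 0, 0), ((5, 0, 0), 1, 2, 0, 0), ((6, 0, 0), 1, 5, 0, 0), 
  ((7, 0, 0), 2, 0, 0, 0), ((8, 0, 0), 1, 3, 0, 0), ((9, 0, 0), 1, 4, 0, 0), ((10, 0, 0), 1, 4, 0, 0), ((11, 0, 0), 2, 0, 0, 0), 
  ((2, 0, 1), 1, 3, 0, 0), ((4, 0, 1), 3, 7, 0, 0), ((5, 0, 1), 1, 3, 0, 0), ((11, 0, 1), 1, 2, 0, 1), ((12, 0, 1), 1, 3, 0, 0), 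
  ((3, 1, 0), 0, 0, 0, 0), ((2, 1, 1), 0, 0, 0, 0), ((12, 1, 1), 0, 0, 0, 0)]

def c1tab17 : List (Vx × ℕ × ℕ × ℤ × ℤ) :=
 [((13, -1, -1), 1, 1, 0, 0), ((4, -1, 0), 1, 1, 0, 0), ((6, -1, 0), 1, 0, 0, 0), ((7, -1, 0), 1, 0, 0, 0), 
  ((11, -1, 0), 1, 2, 0, 0), ((13, -1, 0), 1, 0, 0, 0), ((4, -1, 1), 1, 0, 0, 0), ((11, -1, 1), 1, 3, 0, 0), ((8, 0, -1), 1, 2, 0, 0), 
  ((9, 0, -1), 1, 2, 0, 0), ((10, 0, -1), 1, 2, 0, 0), ((13, 0, -1), 1, 2, 0, 0), ((0, 0, 0), 1, 3, 0, 0), ((1, 0, 0), 1, 5, 0, 0), 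
  ((2, 0, 0), 1, 2, 0, 0), ((3, 0, 0), 1, 3, 0, 0), ((4, 0, 0), 0, 0, 0, 0), ((5, 0, 0), 1, 2, 0, 0), ((6, 0, 0), 1, 5, 0, 0), 
  ((7, 0, 0), 3, 1, 1, 0), ((8, 0, 0), 1, 3, 0, 0), ((9, 0, 0), 1, 4, 0, 0), ((10, 0, 0), 1, 4, 0, 0), ((11, 0, 0), 3, 1, 1, 0), 
  ((2, 0, 1), 1, 3, 0, 0), ((4, 0, 1), 2, 0, 0, 0), ((5, 0, 1), 1, 3, 0, 0), ((11, 0, 1), 1, 7, 0, 0), ((12, 0, 1), 1, 4, 0, 0), 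
  ((2, 1, 0), 0, 0, 0, 0), ((2, 1, 1), 1, 7, 0, 0), ((12, 1, 1), 1, 7, 0, 0)]

def c1tab18 : List (Vx × ℕ × ℕ × ℤ × ℤ) :=
 [((13, -1, -1), 1, 0, 0, 0), ((4, -1, 0), 1, 0, 0, 0), ((6, -1, 0), 1, 8, 0, 0), ((7, -1, 0), 1, 8, 0, 0), 
  ((11, -1, 0), 1, 0, 0, 0), ((13, -1, 0), 1, 8, 0, 0), ((4, -1, 1), 1, 8, 0, 0), ((8, 0, -1), 1, 0, 0, 0), ((9, 0, -1), 1, 0, 0, 0), 
  ((10, 0, -1), 1, 0, 0, 0), ((13, 0, -1), 1, 2, 0, 0), ((0, 0, 0), 1, 0, 0, 0), ((1, 0, 0), 1, 0, 0, 0), ((2, 0, 0), 1, 0, 0, 0), 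
  ((3, 0, 0), 1, 3, 0, 0), ((4, 0, 0), 1, 3, 0, 0), ((5, 0, 0), 1, 0, 0, 0), ((6, 0, 0), 1, 4, 0, 0), ((7, 0, 0), 1, 9, 0, 0), 
  ((8, 0, 0), 1, 8, 0, 0), ((9, 0, 0), 3, 8, 0, 0), ((10, 0, 0), 1, 9, 0, 0), ((11, 0, 0), 1, 3, 0, 0), ((5, 0, 1), 1, 9, 0, 0), 
  ((8, 1, -1), 1, 3, 0, 0), ((9, 1, -1), 1, 4, 0, 0), ((10, 1, -1), 1, 4, 0, 0), ((0, 1, 0), 2, 0, 0, 0), ((1, 1, 0), 1, 4, 0, 0), 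
  ((2, 1, 0), 1, 3, 0, 0), ((3, 1, 0), 0, 0, 0, 0), ((5, 1, 0), 1, 3, 0, 0), ((6, 1, 0), 0, 0, 0, 0), ((8, 1, 0), 0, 0, 0, 0), 
  ((9, 1, 0), 0, 0, 0, 0), ((10, 1, 0), 0, 0, 0, 0), ((12, 1, 0), 1, 4, 0, 0), ((5, 1, 1), 0, 0, 0, 0), ((12, 1, 1), 0, 0, 0, 0)]

def c1tab19 : List (Vx × ℕ × ℕ × ℤ × ℤ) :=
 [((13, -1, -1), 0, 0, 0, 0), ((4, -1, 0), 0, 0, 0, 0), ((6, -1, 0), 0, 0, 0, 0), ((7, -1, 0), 0, 0, 0, 0), 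
  ((11, -1, 0), 0, 0, 0, 0), ((13, -1, 0), 0, 0, 0, 0), ((4, -1, 1), 0, 0, 0, 0), ((8, 0, -1), 0, 0, 0, 0), ((9, 0, -1), 1, 2, 0, 0), 
  ((10, 0, -1), 0, 0, 0, 0), ((13, 0, -1), 1, 0, 0, 0), ((0, 0, 0), 1, 9, 0, 0), ((1, 0, 0), 0, 0, 0, 0), ((2, 0, 0), 0, 0, 0, 0), 
  ((3, 0, 0), 1, 9, 0, 0), ((4, 0, 0), 1, 3, 0, 0), ((5, 0, 0), 0, 0, 0, 0), ((6, 0, 0), 1, 9, 0, 0), ((7, 0, 0), 1, 9, 0, 0), 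
  ((8, 0, 0), 0, 0, 0, 0), ((9, 0, 0), 2, 0, 0, 0), ((10, 0, 0), 1, 9, 0, 0), ((11, 0, 0), 1, 3, 0, 0), ((4, 0, 1), 1, 9, 0, 0), 
  ((12, 0, 2), 1, 7, -1, 1), ((12, 1, 0), 1, 3, 0, 0), ((12, 1, 1), 1, 2, 0, 1), ((12, 1, 2), 1, 2, 0, 1)]

def c1tab : List (List (Vx × ℕ × ℕ × ℤ × ℤ)) :=
 [c1tab0, c1tab1, c1tab2, c1tab3, c1tab4, c1tab5, c1tab6, c1tab7, c1tab8, c1tab9, c1tab10, c1tab11, c1tab12, c1tab13, c1tab14, c1tab15, c1tab16, c1tab17, c1tab18, c1tab19]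

end Pool.Agent.Lib.MP_6ff0c5_lc.C
end

section

/-! generated: trees for the claims that no point covers the special walls (type 0: wall 10 of B(0,0); 1: wall 1 of A(0,0); 2: walls 0, 1, 2 of A(0,0)) and wall e of cell (i, j): entries (i, j, second drawing?, tree) -/

set_option autoImplicit false

namespace Pool.Agent.Lib.MP_6ff0c5_lc.C

def c2tab0_0 : List (ℤ × ℤ × Bool × Tree) :=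
 [(0, -1, false, (.n 0 3 0 0 (.n 1 9 0 (-1) (.l 0 2 3) (.l 0 2 3) (.l 1 2 4)) (.n 1 9 0 (-1) (.l 1 3 4) (.l 1 3 4) (.l 1 3 5)) (.n 1 7 (-1) (-1) (.l 0 2 4) (.l 0 2 4) (.l 2 3 4)))),
  (0, 0, false, (.n 1 3 0 0 (.l 0 1 2) (.l 0 1 3) (.l 0 1 2))),
  (0, 1, false, (.n 1 2 (-2) (-2) (.l 0 1 2) (.l 0 1 2) (.l 0 1 3))),
  (1, -1, true, (.n 1 1 1 (-1) (.n 0 6 0 0 (.l 0 1 3) (.l 0 1 4) (.n 0 7 0 (-1) (.l 0 0 0) (.l 1 3 5) (.l 0 1 6))) (.n 0 6 0 0 (.l 0 1 4) (.l 0 1 5) (.l 1 3 4)) (.n 0 7 0 (-1) (.l 0 0 0) (.l 1 3 5) (.l 0 1 5)))),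
  (1, 0, true, (.n 1 1 1 0 (.l 0 1 2) (.l 0 1 3) (.l 0 1 2))),
  (1, 1, true, (.n 1 1 1 1 (.l 0 1 2) (.l 0 1 3) (.l 0 1 2))),
  (2, -1, true, (.n 1 1 2 (-1) (.n 0 6 0 0 (.l 0 1 3) (.l 0 1 4) (.l 1 2 3)) (.n 0 6 0 0 (.l 0 1 4) (.l 0 1 5) (.l 1 3 4)) (.n 0 6 0 0 (.l 0 1 4) (.l 0 1 5) (.l 1 2 4)))),
  (2, 0, true, (.n 1 1 2 0 (.l 0 1 2) (.l 0 1 3) (.l 0 1 2))),
  (2, 1, true, (.n 1 1 2 1 (.l 0 1 2) (.l 0 1 3) (.l 0 1 2)))]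

def c2tab0_1 : List (ℤ × ℤ × Bool × Tree) :=
 [(-1, -1, true, (.n 0 11 0 0 (.n 1 2 (-1) (-1) (.l 1 2 3) (.l 0 2 3) (.l 1 2 4)) (.n 1 2 (-1) (-1) (.l 1 2 3) (.l 0 2 3) (.l 1 2 4)) (.n 1 0 (-1) (-1) (.l 0 0 0) (.l 0 3 5) (.l 0 3 4)))),
  (-1, 0, false, (.n 1 5 (-1) 0 (.n 0 3 0 0 (.l 0 2 3) (.l 0 2 4) (.l 0 2 3)) (.n 1 9 1 3 (.l 0 2 4) (.l 0 1 4) (.l 0 2 4)) (.n 1 9 (-1) (-1) (.n 1 2 (-1) 0 (.l 0 4 5) (.l 0 1 6) (.l 0 4 5)) (.n 1 2 (-1) 0 (.l 0 5 6) (.l 0 1 7) (.l 0 5 6)) (.l 0 1 4)))),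
  (-1, 1, true, (.n 0 7 (-2) 0 (.l 0 1 2) (.l 0 1 2) (.l 0 1 3))),
  (0, -1, true, (.n 0 11 0 0 (.n 1 7 0 (-2) (.l 0 2 3) (.n 1 7 (-1) (-1) (.l 0 0 0) (.l 0 2 6) (.l 2 4 5)) (.l 0 2 3)) (.n 1 7 0 (-2) (.l 0 2 3) (.n 1 7 (-1) (-1) (.l 0 0 0) (.l 0 2 6) (.l 2 4 5)) (.l 0 2 3)) (.n 1 0 0 (-1) (.l 0 0 0) (.l 0 3 5) (.l 0 3 4)))),
  (0, 0, false, (.n 1 5 0 0 (.n 0 3 0 0 (.n 1 2 0 0 (.l 0 3 4) (.l 0 3 5) (.l 0 3 4)) (.n 1 2 0 0 (.l 2 4 5) (.l 0 4 6) (.l 2 4 5)) (.n 1 2 0 0 (.l 0 3 5) (.l 0 3 6) (.l 0 3 5))) (.n 1 2 0 0 (.n 0 3 0 0 (.l 0 4 5) (.l 2 4 6) (.l 0 4 5)) (.n 0 2 0 0 (.l 0 5 6) (.l 0 5 6) (.l 0 5 7)) (.n 0 2 0 0 (.l 2 4 6) (.l 2 4 6) (.l 0 4 7))) (.n 1 9 0 (-1) (.n 0 3 0 0 (.l 0 3 5) (.n 1 2 0 0 (.l 4 6 7) (.l 0 6 8) (.l 4 6 7)) (.l 0 3 5)) (.n 1 2 0 0 (.n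 0 3 0 0 (.l 0 3 7) (.l 5 6 8) (.l 0 3 7)) (.n 0 2 0 0 (.l 0 7 8) (.l 0 7 8) (.l 0 3 9)) (.n 0 2 0 0 (.l 5 6 8) (.l 5 6 8) (.l 0 3 9))) (.n 0 2 0 0 (.l 0 4 6) (.l 0 4 6) (.l 0 3 7))))),
  (0, 1, true, (.n 0 8 (-1) 0 (.l 0 1 2) (.l 0 1 3) (.l 0 1 2))),
  (1, -1, true, (.n 0 11 0 0 (.n 0 8 0 0 (.n 1 7 0 (-1) (.l 0 0 0) (.l 1 2 4) (.l 2 3 4)) (.n 1 7 0 (-1) (.l 0 0 0) (.l 1 2 5) (.l 0 3 6)) (.n 1 7 0 (-1) (.l 0 0 0) (.l 1 2 5) (.l 2 4 5))) (.n 0 8 0 0 (.n 1 7 0 (-1) (.l 0 0 0) (.l 1 2 4) (.l 2 3 4)) (.n 1 7 0 (-1) (.l 0 0 0) (.l 1 2 5) (.l 0 3 6)) (.n 1 7 0 (-1) (.l 0 0 0) (.l 1 2 5) (.l 2 4 5))) (.n 1 7 0 (-1) (.l 0 0 0) (.l 0 3 4) (.l 0 3 4)))),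
  (1, 0, true, (.n 1 8 0 0 (.l 0 1 2) (.l 0 1 3) (.l 0 1 2))),
  (1, 1, true, (.n 0 8 (-1) 0 (.l 0 1 2) (.l 0 1 3) (.l 0 1 2)))]

def c2tab0_2 : List (ℤ × ℤ × Bool × Tree) :=
 [(-1, 0, false, (.n 1 5 (-1) (-1) (.l 0 0 0) (.n 1 3 0 (-1) (.n 0 2 0 0 (.l 0 1 5) (.l 1 4 5) (.l 0 1 6)) (.l 0 1 5) (.n 0 7 (-1) (-1) (.l 0 1 6) (.l 2 4 6) (.l 0 1 7))) (.l 0 1 2))),
  (-1, 1, true, (.n 1 7 4 (-2) (.l 0 1 2) (.l 0 1 3) (.l 0 1 2))),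
  (-1, 2, true, (.n 1 7 4 (-1) (.l 0 1 2) (.l 0 1 3) (.l 0 1 2))),
  (0, 0, false, (.n 1 5 0 (-1) (.l 0 0 0) (.n 1 3 1 (-1) (.n 0 3 0 0 (.l 0 1 5) (.l 1 4 6) (.l 0 1 5)) (.l 0 1 5) (.n 0 3 0 0 (.l 0 1 6) (.l 1 4 7) (.l 0 1 6))) (.n 0 3 0 0 (.l 0 1 4) (.l 1 2 5) (.l 0 1 4)))),
  (0, 1, true, (.n 1 7 5 (-2) (.l 0 1 2) (.l 0 1 3) (.l 0 1 2))),
  (0, 2, true, (.n 1 7 5 (-1) (.l 0 1 2) (.l 0 1 3) (.l 0 1 2))),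
  (1, 0, true, (.n 1 7 6 (-3) (.l 0 1 2) (.l 0 1 3) (.l 0 1 2))),
  (1, 1, true, (.n 1 7 6 (-2) (.l 0 1 2) (.l 0 1 3) (.l 0 1 2))),
  (1, 2, true, (.n 1 7 6 (-1) (.l 0 1 2) (.l 0 1 3) (.l 0 1 2)))]

def c2tab0_3 : List (ℤ × ℤ × Bool × Tree) :=
 [(-1, -1, false, (.n 1 2 (-1) 0 (.l 0 1 2) (.l 0 1 3) (.l 0 1 2))),
  (-1, 0, false, (.n 0 5 0 1 (.l 0 1 2) (.l 0 1 2) (.l 0 1 3))),
  (-1, 1, false, (.n 0 5 0 1 (.l 0 1 2) (.l 0 1 2) (.l 0 1 3))),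
  (0, -1, false, (.n 1 2 0 0 (.n 0 3 0 0 (.l 0 2 3) (.l 1 2 4) (.l 0 2 3)) (.n 0 2 0 0 (.l 0 3 4) (.l 1 3 4) (.l 0 3 5)) (.n 0 7 (-1) (-1) (.l 1 2 4) (.l 1 2 4) (.l 0 2 5)))),
  (0, 1, false, (.n 0 5 0 1 (.l 0 1 2) (.l 0 1 2) (.l 0 1 3))),
  (1, -1, true, (.n 1 4 1 (-1) (.n 0 6 0 0 (.l 1 2 3) (.l 0 1 4) (.l 1 2 3)) (.n 0 6 0 0 (.l 1 2 3) (.l 0 1 4) (.l 1 2 3)) (.n 0 2 0 0 (.l 1 3 4) (.l 0 3 5) (.l 0 1 4)))),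
  (1, 0, true, (.n 1 4 1 0 (.l 0 1 2) (.l 0 1 2) (.n 1 8 1 (-1) (.l 0 2 4) (.l 0 2 5) (.l 0 1 4)))),
  (1, 1, true, (.n 1 4 1 1 (.l 0 1 2) (.l 0 1 2) (.n 1 8 1 0 (.l 0 2 4) (.l 0 2 5) (.l 0 1 4))))]

def c2tab0_4 : List (ℤ × ℤ × Bool × Tree) :=
 [(-1, -1, false, (.n 1 2 (-1) 0 (.l 0 1 2) (.l 0 1 3) (.l 0 1 2))),
  (-1, 0, false, (.n 0 5 0 1 (.l 0 1 2) (.l 0 1 2) (.l 0 1 3))),
  (-1, 1, false, (.n 0 5 0 1 (.l 0 1 2) (.l 0 1 2) (.l 0 1 3))),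
  (0, -1, false, (.n 1 2 0 0 (.n 0 3 0 0 (.l 0 2 3) (.l 1 2 4) (.l 0 2 3)) (.n 0 2 0 0 (.l 0 3 4) (.l 1 3 4) (.l 0 3 5)) (.n 0 2 0 0 (.l 1 2 4) (.l 1 2 4) (.l 0 2 5)))),
  (0, 1, false, (.n 0 5 0 1 (.l 0 1 2) (.l 0 1 2) (.l 0 1 3))),
  (1, -1, false, (.n 1 2 1 0 (.n 1 11 1 (-1) (.n 0 4 0 0 (.l 2 3 4) (.l 1 2 5) (.l 1 3 4)) (.n 0 4 0 0 (.l 0 3 5) (.l 0 3 6) (.l 1 4 5)) (.n 0 4 0 0 (.l 2 3 5) (.l 1 2 6) (.l 0 3 5))) (.n 1 11 1 (-1) (.n 0 4 0 0 (.l 3 4 5) (.l 3 4 6) (.l 1 4 5)) (.n 0 4 0 0 (.l 0 4 6) (.l 0 4 7) (.l 1 5 6)) (.n 0 4 0 0 (.l 3 4 6) (.l 3 4 7) (.l 0 4 6))) (.n 0 4 0 0 (.l 0 2 4) (.l 1 2 5) (.l 0 3 4)))),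
  (1, 0, true, (.n 0 8 (-5) 2 (.l 0 1 2) (.l 0 1 3) (.l 0 1 2))),
  (1, 1, false, (.n 0 2 0 1 (.l 0 1 2) (.l 0 1 3) (.l 0 1 2)))]

def c2tab0_5 : List (ℤ × ℤ × Bool × Tree) :=
 [(-1, -1, true, (.n 0 11 0 0 (.n 1 7 (-1) (-1) (.l 0 2 3) (.l 0 2 4) (.l 1 2 3)) (.n 1 7 (-1) (-1) (.l 0 2 3) (.l 0 2 4) (.l 1 2 3)) (.n 0 7 (-1) 0 (.n 1 7 (-1) (-1) (.l 0 4 5) (.l 0 4 6) (.l 0 3 5)) (.n 1 7 (-1) (-1) (.l 2 4 6) (.l 2 4 7) (.l 0 3 6)) (.l 0 1 5)))),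
  (-1, 0, true, (.n 0 11 0 0 (.l 0 1 2) (.l 0 1 2) (.n 0 7 (-1) 0 (.l 0 1 4) (.l 1 2 4) (.l 0 1 5)))),
  (-1, 1, true, (.n 1 7 (-1) 0 (.l 0 1 2) (.l 0 1 2) (.l 0 1 3))),
  (0, -1, true, (.n 0 11 0 0 (.n 1 7 0 (-1) (.n 1 9 0 (-1) (.l 0 2 4) (.l 0 2 5) (.l 2 3 4)) (.n 1 9 0 (-1) (.l 0 2 5) (.l 0 2 6) (.l 2 4 5)) (.l 1 2 3)) (.n 1 7 0 (-1) (.n 1 9 0 (-1) (.l 0 2 4) (.l 0 2 5) (.l 2 3 4)) (.n 1 9 0 (-1) (.l 0 2 5) (.l 0 2 6) (.l 2 4 5)) (.l 1 2 3)) (.n 0 7 (-1) 0 (.n 1 9 0 (-1) (.l 1 4 5) (.n 1 10 0 (-1) (.l 1 2 7) (.l 1 4 8) (.l 2 6 7)) (.l 0 3 5)) (.n 1 9 0 (-1) (.l 2 4 6) (.l 2 4 7) (.l 0 3 6)) (.n 1 7 0 (-1) (.l 0 5 6) (.l 0 5 7) (.l 0 3 6))))),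
  (0, 1, true, (.n 1 7 0 0 (.l 0 1 2) (.l 0 1 2) (.l 0 1 3))),
  (1, -1, false, (.n 1 2 2 (-1) (.l 0 0 0) (.n 1 2 1 0 (.n 0 4 0 0 (.l 1 4 5) (.l 2 4 6) (.l 1 2 5)) (.n 0 7 0 (-1) (.l 1 5 6) (.l 1 5 6) (.l 1 2 7)) (.n 0 3 1 0 (.l 1 4 6) (.l 3 4 7) (.n 0 4 0 0 (.l 0 4 8) (.l 1 6 9) (.l 0 5 8)))) (.n 1 2 1 (-1) (.n 0 4 0 0 (.l 1 2 5) (.l 0 2 6) (.l 1 4 5)) (.n 0 4 0 0 (.l 0 5 6) (.l 0 2 7) (.l 1 4 6)) (.n 0 4 0 0 (.l 1 2 6) (.l 0 2 7) (.l 1 5 6))))),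
  (1, 0, true, (.n 1 7 1 (-1) (.l 0 1 2) (.l 0 1 2) (.l 0 1 3))),
  (1, 1, true, (.n 1 7 1 0 (.l 0 1 2) (.l 0 1 2) (.l 0 1 3)))]

def c2tab0_6 : List (ℤ × ℤ × Bool × Tree) :=
 [(-1, -1, false, (.n 1 2 0 (-1) (.n 0 2 0 0 (.l 0 2 3) (.l 1 2 3) (.l 0 2 4)) (.n 0 2 0 0 (.l 0 3 4) (.l 0 3 4) (.l 0 3 5)) (.n 0 7 (-1) (-1) (.l 1 2 4) (.l 1 2 4) (.l 0 2 5)))),
  (-1, 0, false, (.n 1 2 0 0 (.n 0 3 0 0 (.l 0 2 3) (.l 1 2 4) (.l 0 2 3)) (.n 0 2 0 0 (.l 0 3 4) (.l 0 3 4) (.l 0 3 5)) (.l 0 1 2))),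
  (-1, 1, false, (.n 0 2 0 1 (.l 0 1 2) (.l 0 1 3) (.l 0 1 2))),
  (0, -1, false, (.n 1 2 1 (-1) (.n 0 3 0 0 (.l 0 2 3) (.l 1 2 4) (.l 0 2 3)) (.n 0 3 0 0 (.n 1 2 0 0 (.l 0 4 5) (.l 0 4 6) (.l 3 4 5)) (.n 1 6 0 0 (.l 3 5 6) (.l 0 5 6) (.l 3 5 7)) (.n 1 2 0 0 (.l 0 4 6) (.l 0 4 7) (.l 3 4 6))) (.n 0 2 0 0 (.l 1 2 4) (.l 1 2 4) (.l 0 2 5)))),
  (0, 1, true, (.n 1 7 0 0 (.l 0 1 2) (.l 0 1 2) (.l 0 1 3))),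
  (1, -1, true, (.n 0 11 0 0 (.n 0 8 0 0 (.n 1 8 1 (-1) (.l 0 0 0) (.l 1 2 5) (.l 1 3 4)) (.n 1 0 0 0 (.l 2 3 5) (.l 0 2 6) (.l 0 3 5)) (.n 1 6 0 0 (.l 2 4 5) (.l 2 3 5) (.l 2 4 6))) (.n 0 8 0 0 (.n 1 8 1 (-1) (.l 0 0 0) (.l 1 2 5) (.l 1 3 4)) (.n 1 0 0 0 (.l 2 3 5) (.l 0 2 6) (.l 0 3 5)) (.n 1 6 0 0 (.l 2 4 5) (.l 2 3 5) (.l 2 4 6))) (.n 1 10 1 (-1) (.l 0 0 0) (.l 0 3 4) (.l 0 3 4)))),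
  (1, 0, true, (.n 1 7 1 (-1) (.l 0 1 2) (.l 0 1 2) (.l 0 1 3))),
  (1, 1, true, (.n 1 7 1 0 (.l 0 1 2) (.l 0 1 2) (.l 0 1 3)))]

def c2tab0_7 : List (ℤ × ℤ × Bool × Tree) :=
 [(-1, -1, true, (.n 0 11 0 0 (.l 0 1 2) (.l 0 1 2) (.n 0 7 (-1) 0 (.l 0 1 4) (.l 1 2 4) (.l 0 1 5)))),
  (-1, 0, false, (.n 1 3 0 0 (.n 1 11 0 0 (.l 0 1 3) (.l 0 1 3) (.l 0 2 4)) (.l 0 1 3) (.l 0 1 2))),
  (-1, 1, false, (.n 1 3 0 1 (.l 0 1 2) (.l 0 1 3) (.l 0 1 2))),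
  (0, -1, false, (.n 1 3 1 (-1) (.n 0 3 0 0 (.l 0 1 3) (.n 0 4 0 0 (.l 0 1 5) (.l 1 2 6) (.l 1 4 5)) (.l 0 1 3)) (.n 0 3 0 0 (.l 0 1 4) (.l 1 3 5) (.l 0 1 4)) (.n 0 3 0 0 (.l 0 1 4) (.l 1 2 5) (.l 0 1 4)))),
  (0, 1, true, (.n 0 11 0 0 (.n 1 1 1 1 (.l 0 2 3) (.l 0 1 4) (.l 0 2 3)) (.n 1 1 1 1 (.l 0 2 3) (.l 0 1 4) (.l 0 2 3)) (.n 1 8 0 1 (.l 0 3 4) (.l 0 3 5) (.l 0 1 4)))),
  (1, -1, false, (.n 1 3 2 (-1) (.n 0 3 0 0 (.l 0 1 3) (.n 0 4 0 0 (.l 0 1 5) (.l 1 2 6) (.l 1 4 5)) (.l 0 1 3)) (.n 0 4 0 0 (.l 0 1 4) (.l 1 3 5) (.l 2 3 4)) (.n 0 3 0 0 (.l 0 1 4) (.n 0 4 0 0 (.l 0 1 6) (.l 1 2 7) (.l 1 5 6)) (.l 0 1 4)))),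
  (1, 0, true, (.n 0 11 0 0 (.n 0 8 0 0 (.n 1 7 0 0 (.l 0 3 4) (.l 2 3 4) (.l 0 1 5)) (.n 1 7 0 0 (.l 0 3 5) (.l 2 3 5) (.l 0 1 6)) (.n 1 7 0 0 (.l 2 4 5) (.l 2 4 5) (.l 0 1 6))) (.n 0 8 0 0 (.n 1 7 0 0 (.l 0 3 4) (.l 2 3 4) (.l 0 1 5)) (.n 1 7 0 0 (.l 0 3 5) (.l 2 3 5) (.l 0 1 6)) (.n 1 7 0 0 (.l 2 4 5) (.l 2 4 5) (.l 0 1 6))) (.n 1 1 1 1 (.l 0 0 0) (.l 0 3 5) (.l 0 1 4)))),
  (1, 1, true, (.n 0 11 0 0 (.n 1 1 2 1 (.l 0 2 3) (.l 0 1 4) (.l 0 2 3)) (.n 1 1 2 1 (.l 0 2 3) (.l 0 1 4) (.l 0 2 3)) (.n 1 7 0 1 (.l 0 3 4) (.l 0 3 4) (.l 0 1 5))))]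

def c2tab0_8 : List (ℤ × ℤ × Bool × Tree) :=
 [(-1, -1, false, (.n 1 11 (-1) (-1) (.n 0 5 0 1 (.l 0 2 3) (.l 0 2 3) (.l 0 2 4)) (.n 1 2 (-1) 0 (.n 0 7 (-1) (-1) (.l 0 4 5) (.l 2 4 5) (.l 0 4 6)) (.l 0 2 5) (.n 0 2 0 0 (.l 2 4 6) (.l 2 4 6) (.l 0 4 7))) (.n 0 2 0 0 (.l 0 3 4) (.l 0 3 4) (.l 0 2 5)))),
  (-1, 0, false, (.n 1 11 (-1) 0 (.n 0 5 0 1 (.l 0 2 3) (.l 0 2 3) (.l 0 2 4)) (.n 1 2 (-1) 1 (.l 0 2 4) (.l 0 2 5) (.n 1 7 (-1) 0 (.l 0 2 6) (.l 0 4 7) (.l 0 2 6))) (.n 0 2 0 0 (.l 0 3 4) (.l 0 3 4) (.l 0 2 5)))),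
  (-1, 1, true, (.n 1 6 (-1) 1 (.l 0 1 2) (.l 0 1 3) (.l 0 1 2))),
  (0, -1, false, (.n 1 11 0 (-1) (.n 1 2 0 0 (.n 0 3 0 0 (.l 0 3 4) (.l 2 3 5) (.l 0 3 4)) (.n 0 1 0 0 (.l 1 4 5) (.l 3 4 6) (.l 1 3 5)) (.n 0 2 0 0 (.l 2 3 5) (.l 2 3 5) (.l 0 3 6))) (.n 1 2 0 0 (.n 0 3 0 0 (.l 0 4 5) (.l 2 4 6) (.l 0 4 5)) (.n 0 1 0 0 (.l 1 5 6) (.l 2 5 7) (.l 1 2 6)) (.n 0 3 0 0 (.l 0 4 6) (.n 0 5 0 0 (.l 1 7 8) (.l 2 4 8) (.l 1 7 9)) (.l 0 4 6))) (.n 0 2 0 0 (.l 0 3 4) (.l 0 3 4) (.l 0 2 5)))),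
  (0, 1, true, (.n 1 6 0 1 (.l 0 1 2) (.l 0 1 3) (.l 0 1 2))),
  (1, -1, true, (.n 1 6 1 (-1) (.n 0 6 0 0 (.l 0 1 3) (.l 0 1 4) (.l 1 2 3)) (.n 0 6 0 0 (.l 0 1 4) (.l 0 1 5) (.l 1 3 4)) (.l 0 1 2))),
  (1, 0, true, (.n 1 6 1 0 (.l 0 1 2) (.l 0 1 3) (.l 0 1 2))),
  (1, 1, true, (.n 1 6 1 1 (.l 0 1 2) (.l 0 1 3) (.l 0 1 2)))]

def c2tab0_9 : List (ℤ × ℤ × Bool × Tree) :=
 [(-1, -1, false, (.n 1 2 (-1) 0 (.l 0 1 2) (.l 0 1 3) (.l 0 1 2))),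
  (-1, 0, false, (.n 1 2 (-1) 1 (.l 0 1 2) (.l 0 1 3) (.l 0 1 2))),
  (-1, 1, false, (.n 0 2 0 1 (.l 0 1 2) (.l 0 1 3) (.l 0 1 2))),
  (0, -1, true, (.n 0 11 0 0 (.l 0 1 2) (.l 0 1 2) (.n 0 7 (-1) 0 (.l 1 2 4) (.l 1 2 4) (.l 0 1 5)))),
  (0, 1, false, (.n 0 2 0 1 (.l 0 1 2) (.l 0 1 3) (.l 0 1 2))),
  (1, -1, true, (.n 0 11 0 0 (.n 1 10 1 (-1) (.l 1 2 3) (.l 1 2 3) (.n 1 6 0 0 (.l 1 2 5) (.l 2 3 5) (.l 1 2 6))) (.n 1 10 1 (-1) (.l 1 2 3) (.l 1 2 3) (.n 1 6 0 0 (.l 1 2 5) (.l 2 3 5) (.l 1 2 6))) (.n 1 10 1 (-1) (.l 1 2 4) (.l 1 2 4) (.n 1 6 0 0 (.l 0 3 6) (.l 2 4 6) (.l 0 3 7))))),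
  (1, 0, true, (.n 0 11 0 0 (.n 0 8 0 0 (.n 1 7 1 (-1) (.l 0 3 4) (.l 0 3 4) (.l 0 2 5)) (.n 1 8 0 0 (.l 0 3 5) (.l 2 3 6) (.l 0 1 5)) (.n 1 6 0 0 (.l 2 4 5) (.l 2 4 5) (.l 0 3 6))) (.n 0 8 0 0 (.n 1 7 1 (-1) (.l 0 3 4) (.l 0 3 4) (.l 0 2 5)) (.n 1 8 0 0 (.l 0 3 5) (.l 2 3 6) (.l 0 1 5)) (.n 1 6 0 0 (.l 2 4 5) (.l 2 4 5) (.l 0 3 6))) (.n 1 8 0 0 (.l 0 3 4) (.l 0 3 5) (.l 0 1 4)))),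
  (1, 1, false, (.n 0 2 0 1 (.l 0 1 2) (.l 0 1 3) (.l 0 1 2)))]

def c2tab0_10 : List (ℤ × ℤ × Bool × Tree) :=
 [(-1, -1, true, (.n 0 0 0 0 (.l 0 0 0) (.n 0 8 0 0 (.l 1 2 4) (.l 1 2 4) (.l 1 2 5)) (.n 0 8 (-5) 2 (.l 1 2 4) (.l 1 2 5) (.l 1 2 4)))),
  (-1, 0, true, (.n 0 0 0 0 (.l 0 0 0) (.n 0 8 0 0 (.l 1 2 4) (.l 1 2 4) (.l 1 2 5)) (.n 0 8 (-5) 2 (.l 1 2 4) (.l 1 2 5) (.l 1 2 4)))),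
  (-1, 1, true, (.n 1 0 (-1) 1 (.l 0 0 0) (.n 0 8 0 0 (.l 0 2 4) (.l 0 2 4) (.l 0 2 5)) (.n 1 6 (-6) 3 (.l 0 2 4) (.l 0 2 4) (.l 0 2 5)))),
  (0, -1, true, (.n 0 0 0 0 (.l 0 0 0) (.n 0 8 0 0 (.l 1 2 4) (.l 1 2 4) (.l 1 2 5)) (.n 0 8 (-5) 2 (.l 1 2 4) (.l 1 2 5) (.l 1 2 4)))),
  (0, 1, true, (.n 1 0 0 1 (.l 0 0 0) (.n 0 8 0 0 (.l 0 2 4) (.l 0 2 4) (.l 0 2 5)) (.n 1 6 (-5) 3 (.l 0 2 4) (.l 0 2 4) (.l 0 2 5)))),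
  (1, -1, true, (.n 0 0 0 0 (.l 0 0 0) (.n 0 8 0 0 (.l 1 2 4) (.l 1 2 4) (.l 1 2 5)) (.n 0 8 (-5) 2 (.l 1 2 4) (.l 1 2 5) (.l 1 2 4)))),
  (1, 0, true, (.n 1 0 1 0 (.l 0 0 0) (.n 0 8 0 0 (.l 0 2 4) (.l 0 2 4) (.l 0 2 5)) (.n 1 6 (-4) 2 (.l 0 2 4) (.l 0 2 4) (.l 0 2 5)))),
  (1, 1, true, (.n 1 0 1 1 (.l 0 0 0) (.n 0 8 0 0 (.l 0 2 4) (.l 0 2 4) (.l 0 2 5)) (.n 1 6 (-4) 3 (.l 0 2 4) (.l 0 2 4) (.l 0 2 5))))]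

def c2tab0_11 : List (ℤ × ℤ × Bool × Tree) :=
 [(-1, -1, false, (.n 1 3 (-1) (-1) (.n 1 2 (-1) 0 (.l 0 2 3) (.l 0 2 4) (.l 0 2 3)) (.n 1 2 (-1) 0 (.l 0 3 4) (.l 0 3 5) (.l 0 3 4)) (.l 0 2 3))),
  (-1, 0, false, (.n 1 3 (-1) 0 (.n 0 5 0 1 (.l 0 2 3) (.l 0 2 3) (.l 0 2 4)) (.n 0 5 0 1 (.l 0 3 4) (.l 0 3 4) (.l 0 3 5)) (.l 0 2 3))),
  (-1, 1, true, (.n 0 8 0 0 (.l 0 1 2) (.l 0 1 2) (.l 0 1 3))),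
  (0, -1, true, (.n 0 6 0 0 (.n 1 10 0 (-1) (.l 1 2 3) (.n 1 7 (-1) (-1) (.l 2 4 5) (.l 0 2 5) (.l 2 4 6)) (.l 1 2 3)) (.n 1 10 0 (-1) (.l 1 3 4) (.l 2 3 5) (.l 1 3 4)) (.n 0 0 0 0 (.l 0 0 0) (.n 1 7 0 (-1) (.l 3 4 6) (.l 3 4 7) (.l 2 4 6)) (.n 1 7 0 (-1) (.l 3 4 6) (.l 3 4 7) (.l 0 4 6))))),
  (0, 1, true, (.n 0 8 0 0 (.l 0 1 2) (.l 0 1 2) (.l 0 1 3))),
  (1, -1, true, (.n 0 6 0 0 (.n 1 10 1 (-1) (.l 1 2 3) (.n 1 8 0 (-1) (.l 2 4 5) (.l 1 2 6) (.l 2 4 5)) (.l 1 2 3)) (.n 1 7 0 (-1) (.l 0 3 4) (.l 0 3 4) (.l 0 3 5)) (.n 1 10 1 (-1) (.l 1 2 4) (.n 0 7 0 (-1) (.l 0 0 0) (.l 2 5 7) (.l 3 5 7)) (.l 1 2 4)))),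
  (1, 0, true, (.n 0 8 0 0 (.l 0 1 2) (.l 0 1 2) (.l 0 1 3))),
  (1, 1, true, (.n 0 8 0 0 (.l 0 1 2) (.l 0 1 2) (.l 0 1 3)))]

def c2tab0_12 : List (ℤ × ℤ × Bool × Tree) :=
 [(0, -1, true, (.n 0 0 0 0 (.l 0 0 0) (.n 0 8 0 0 (.l 1 2 4) (.l 1 2 4) (.l 1 2 5)) (.l 0 1 2))),
  (0, 0, false, (.n 1 3 0 0 (.n 1 11 0 0 (.l 0 1 3) (.l 0 1 3) (.l 0 2 4)) (.l 0 1 3) (.l 0 1 2))),
  (0, 1, false, (.n 1 3 0 1 (.l 0 1 2) (.l 0 1 3) (.l 0 1 2)))]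

def c2tab0_13 : List (ℤ × ℤ × Bool × Tree) :=
 [(0, -1, false, (.n 1 3 0 (-1) (.l 0 0 0) (.n 0 2 0 0 (.l 0 2 4) (.l 0 2 4) (.l 0 2 5)) (.n 1 9 0 (-2) (.n 0 2 0 0 (.l 0 2 5) (.l 2 4 5) (.l 0 2 6)) (.n 0 9 0 (-1) (.l 0 2 6) (.l 2 5 7) (.l 2 4 6)) (.l 0 1 4)))),
  (0, 0, false, (.n 1 3 0 0 (.l 0 0 0) (.n 0 2 0 0 (.l 0 2 4) (.l 0 2 4) (.l 0 2 5)) (.n 1 9 0 (-1) (.n 0 2 0 0 (.l 0 2 5) (.l 2 4 5) (.l 0 2 6)) (.n 0 2 0 0 (.l 0 2 6) (.l 2 5 6) (.l 0 2 7)) (.l 0 1 4)))),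
  (0, 1, true, (.n 0 7 (-1) 0 (.l 0 1 2) (.l 0 1 2) (.l 0 1 3)))]

def c2tab0_14 : List (ℤ × ℤ × Bool × Tree) :=
 [(-1, 0, false, (.n 1 2 (-1) 0 (.l 0 1 2) (.l 0 1 3) (.l 0 1 2))),
  (0, 0, false, (.n 1 2 0 0 (.n 0 3 0 0 (.l 0 2 3) (.l 1 2 4) (.l 0 2 3)) (.n 0 2 0 0 (.l 0 3 4) (.l 1 3 4) (.l 0 3 5)) (.n 0 2 0 0 (.l 1 2 4) (.l 1 2 4) (.l 0 2 5)))),
  (1, 0, true, (.n 1 6 1 (-1) (.n 0 6 0 0 (.l 0 1 3) (.l 0 1 4) (.l 1 2 3)) (.n 0 6 0 0 (.l 0 1 4) (.l 0 1 5) (.l 1 3 4)) (.l 0 1 2)))]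

def c2tab0_15 : List (ℤ × ℤ × Bool × Tree) :=
 [(-1, 0, true, (.n 0 11 0 0 (.l 0 1 2) (.l 0 1 2) (.n 0 7 (-1) 0 (.l 0 1 4) (.l 1 2 4) (.l 0 1 5)))),
  (0, 0, false, (.n 1 2 0 0 (.n 0 3 0 0 (.l 0 2 3) (.l 1 2 4) (.l 0 2 3)) (.n 0 3 0 0 (.l 0 2 3) (.l 1 2 4) (.l 0 2 3)) (.n 1 11 1 (-1) (.n 0 3 0 0 (.l 0 2 5) (.n 0 4 0 0 (.l 0 2 7) (.l 2 4 8) (.l 2 6 7)) (.l 0 2 5)) (.n 0 3 0 0 (.l 0 2 6) (.l 2 4 7) (.l 0 2 6)) (.n 0 2 0 0 (.l 1 5 6) (.l 1 5 6) (.l 0 2 7))))),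
  (1, 0, false, (.n 1 2 1 0 (.n 0 3 0 0 (.n 1 5 0 0 (.l 2 3 4) (.l 0 3 5) (.l 2 3 4)) (.n 0 4 0 0 (.l 2 4 5) (.l 1 2 6) (.l 2 4 5)) (.l 0 2 3)) (.n 0 3 0 0 (.n 1 5 0 0 (.l 2 3 4) (.l 0 3 5) (.l 2 3 4)) (.n 0 4 0 0 (.l 2 4 5) (.l 1 2 6) (.l 2 4 5)) (.l 0 2 3)) (.n 0 3 1 0 (.l 2 3 4) (.l 0 2 5) (.l 2 3 4))))]

def c2tab0_16 : List (ℤ × ℤ × Bool × Tree) :=
 [(0, -1, true, (.n 0 11 0 0 (.n 1 10 1 (-1) (.l 1 2 3) (.l 0 2 4) (.l 1 2 3)) (.n 1 10 1 (-1) (.l 1 2 3) (.l 0 2 4) (.l 1 2 3)) (.n 1 7 0 (-1) (.l 0 0 0) (.l 0 3 4) (.l 0 3 4)))),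
  (0, 1, true, (.n 0 7 (-1) 0 (.l 0 1 2) (.l 0 1 2) (.l 0 1 3))),
  (1, -1, true, (.n 0 11 0 0 (.n 1 10 2 (-1) (.n 0 6 0 0 (.l 2 3 4) (.l 2 3 5) (.l 2 3 4)) (.n 1 7 1 (-1) (.l 0 0 0) (.n 0 6 0 0 (.l 2 5 7) (.l 0 5 8) (.l 2 5 7)) (.n 0 6 0 0 (.l 0 6 7) (.l 0 5 8) (.l 0 6 7))) (.l 1 2 3)) (.n 1 10 2 (-1) (.n 0 6 0 0 (.l 2 3 4) (.l 2 3 5) (.l 2 3 4)) (.n 1 7 1 (-1) (.l 0 0 0) (.n 0 6 0 0 (.l 2 5 7) (.l 0 5 8) (.l 2 5 7)) (.n 0 6 0 0 (.l 0 6 7) (.l 0 5 8) (.l 0 6 7))) (.l 1 2 3)) (.n 1 0 2 (-1) (.l 0 0 0) (.l 0 3 5) (.l 0 3 4)))),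
  (1, 0, true, (.n 0 11 0 0 (.n 1 7 1 (-1) (.l 0 1 3) (.l 0 1 3) (.n 1 7 0 0 (.l 0 1 5) (.l 0 4 5) (.l 0 1 6))) (.n 1 7 1 (-1) (.l 0 1 3) (.l 0 1 3) (.n 1 7 0 0 (.l 0 1 5) (.l 0 4 5) (.l 0 1 6))) (.n 1 8 0 0 (.l 0 3 4) (.l 0 3 5) (.l 0 1 4)))),
  (1, 1, true, (.n 0 7 (-1) 0 (.l 0 1 2) (.l 0 1 2) (.l 0 1 3)))]

def c2tab0_17 : List (ℤ × ℤ × Bool × Tree) :=
 [(0, -1, true, (.n 0 0 0 0 (.l 0 0 0) (.n 0 8 0 0 (.l 1 2 4) (.l 1 2 4) (.l 1 2 5)) (.l 0 1 2))),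
  (0, 1, true, (.n 0 0 0 0 (.l 0 0 0) (.n 1 1 1 1 (.l 0 1 4) (.l 0 1 5) (.l 0 2 4)) (.n 1 7 0 0 (.l 0 2 4) (.l 0 2 4) (.l 0 1 5)))),
  (1, -1, true, (.n 0 0 0 0 (.l 0 0 0) (.n 0 8 0 0 (.l 1 2 4) (.l 1 2 4) (.l 1 2 5)) (.l 0 1 2))),
  (1, 0, true, (.n 0 0 0 0 (.l 0 0 0) (.n 0 8 0 0 (.l 1 2 4) (.l 1 2 4) (.l 1 2 5)) (.l 0 1 2))),
  (1, 1, true, (.n 0 0 0 0 (.l 0 0 0) (.n 1 1 2 1 (.l 0 1 4) (.l 0 1 5) (.l 0 2 4)) (.n 1 8 1 0 (.l 0 2 4) (.l 0 2 5) (.l 0 1 4))))]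

def c2tab0_18 : List (ℤ × ℤ × Bool × Tree) :=
 [(-1, 0, true, (.n 0 11 0 0 (.l 0 1 2) (.l 0 1 2) (.n 0 7 (-1) 0 (.l 0 1 4) (.l 1 2 4) (.l 0 1 5)))),
  (-1, 1, false, (.n 1 9 (-1) 1 (.l 0 0 0) (.n 1 3 0 1 (.l 0 1 4) (.l 0 1 5) (.l 0 3 4)) (.l 0 1 2))),
  (0, 1, false, (.n 1 9 0 1 (.l 0 0 0) (.n 1 3 1 1 (.n 0 2 0 1 (.l 3 4 5) (.l 0 3 6) (.l 3 4 5)) (.l 0 1 5) (.n 0 2 0 1 (.l 3 4 6) (.l 0 3 7) (.l 3 4 6))) (.l 0 1 2))),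
  (1, 0, false, (.n 1 9 1 0 (.l 0 0 0) (.n 0 3 1 0 (.n 0 2 0 1 (.l 3 4 5) (.l 0 3 6) (.l 3 4 5)) (.n 0 2 0 1 (.l 2 5 6) (.l 0 3 7) (.l 2 5 6)) (.l 0 3 4)) (.n 0 2 0 1 (.n 1 5 0 1 (.l 3 4 5) (.l 3 4 6) (.l 2 4 5)) (.l 0 2 5) (.l 0 2 4)))),
  (1, 1, false, (.n 1 9 1 1 (.l 0 0 0) (.n 1 3 2 1 (.n 0 2 0 1 (.l 2 4 5) (.l 0 3 6) (.l 3 4 5)) (.l 0 1 5) (.n 0 2 0 1 (.l 3 4 6) (.l 0 3 7) (.l 3 4 6))) (.n 0 2 0 1 (.l 0 2 4) (.l 0 2 5) (.l 0 2 4))))]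

def c2tab0_19 : List (ℤ × ℤ × Bool × Tree) :=
 [(-1, 0, false, (.n 1 5 (-1) 1 (.n 1 9 (-1) 0 (.l 0 2 3) (.l 0 2 4) (.l 0 1 3)) (.n 1 7 0 4 (.l 0 2 4) (.l 0 1 5) (.l 0 2 4)) (.n 1 9 (-1) 0 (.l 0 3 4) (.l 0 3 5) (.l 0 1 4)))),
  (-1, 1, false, (.n 1 5 (-1) 2 (.n 1 9 (-1) 1 (.l 0 2 3) (.l 0 2 4) (.l 0 1 3)) (.n 1 7 0 5 (.l 0 2 4) (.l 0 1 5) (.l 0 2 4)) (.n 1 9 (-1) 1 (.l 0 3 4) (.l 0 3 5) (.l 0 1 4)))),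
  (0, 1, true, (.n 0 6 0 0 (.l 0 1 2) (.l 0 1 3) (.n 1 1 1 0 (.l 0 1 4) (.l 0 2 5) (.l 0 1 4)))),
  (1, 0, true, (.n 0 6 0 0 (.l 0 1 2) (.l 0 1 3) (.n 1 1 2 (-1) (.l 1 2 4) (.l 0 2 5) (.l 0 1 4)))),
  (1, 1, true, (.n 0 6 0 0 (.l 0 1 2) (.l 0 1 3) (.n 1 1 2 0 (.l 0 1 4) (.l 0 2 5) (.l 0 1 4))))]

def c2tab1_0 : List (ℤ × ℤ × Bool × Tree) :=
 [(0, -1, true, (.n 0 7 0 (-1) (.l 0 1 2) (.l 0 1 3) (.l 0 1 2))),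
  (0, 1, true, (.n 0 7 0 (-1) (.n 1 1 0 1 (.l 1 2 3) (.l 1 2 4) (.l 1 2 3)) (.n 0 7 (-1) 0 (.l 0 0 0) (.n 1 10 0 0 (.l 0 4 6) (.l 0 4 6) (.l 2 4 7)) (.n 1 1 0 1 (.l 3 4 6) (.l 3 4 7) (.l 0 4 6))) (.n 1 7 (-1) 0 (.l 0 2 4) (.l 0 2 4) (.l 0 3 5)))),
  (1, -1, true, (.n 0 7 0 (-1) (.l 0 1 2) (.l 0 1 3) (.l 0 1 2))),
  (1, 0, true, (.n 0 7 0 (-1) (.l 0 1 2) (.l 0 1 3) (.l 0 1 2))),
  (1, 1, true, (.n 0 7 0 (-1) (.n 1 7 0 0 (.l 0 2 3) (.l 0 2 3) (.l 1 2 4)) (.n 1 1 1 1 (.l 1 3 4) (.l 1 3 5) (.l 1 3 4)) (.n 1 7 (-1) 0 (.l 0 2 4) (.l 0 2 4) (.l 0 3 5)))),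
  (2, -1, true, (.n 0 7 0 (-1) (.l 0 1 2) (.l 0 1 3) (.l 0 1 2))),
  (2, 0, true, (.n 0 7 0 (-1) (.l 0 1 2) (.l 0 1 3) (.l 0 1 2))),
  (2, 1, true, (.n 0 7 0 (-1) (.n 1 7 0 0 (.l 0 2 3) (.l 0 2 3) (.l 1 2 4)) (.n 1 7 0 0 (.l 1 3 4) (.l 0 3 4) (.l 1 3 5)) (.n 1 7 (-1) 0 (.l 0 2 4) (.l 0 2 4) (.l 1 2 5))))]

def c2tab1_1 : List (ℤ × ℤ × Bool × Tree) :=
 [(-1, -1, true, (.n 1 7 (-1) (-2) (.n 0 8 (-1) 0 (.l 0 2 3) (.l 0 2 4) (.l 0 2 3)) (.n 1 0 (-1) (-1) (.l 0 0 0) (.l 0 2 5) (.l 0 3 4)) (.l 0 2 3))),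
  (-1, 0, true, (.n 1 7 (-1) (-1) (.n 0 8 (-1) 0 (.l 0 2 3) (.l 0 2 4) (.l 0 2 3)) (.n 1 0 (-1) 0 (.l 0 0 0) (.l 0 2 5) (.n 0 8 (-1) 0 (.l 3 4 6) (.l 0 3 7) (.l 3 4 6))) (.l 0 2 3))),
  (-1, 1, true, (.n 1 7 (-1) 0 (.n 0 8 (-1) 0 (.n 0 7 (-1) 0 (.l 0 0 0) (.l 1 3 4) (.l 1 2 4)) (.l 0 2 4) (.n 0 7 (-1) 0 (.l 0 0 0) (.l 1 3 5) (.l 1 2 5))) (.n 0 7 (-1) 0 (.l 0 0 0) (.l 1 2 4) (.l 0 3 4)) (.n 0 7 (-1) 0 (.l 0 0 0) (.l 1 3 4) (.l 1 2 4)))),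
  (0, -1, true, (.n 1 7 0 (-2) (.n 0 8 (-1) 0 (.n 1 7 (-1) (-1) (.l 0 0 0) (.l 0 3 4) (.l 0 2 4)) (.l 0 2 4) (.l 0 2 3)) (.n 1 7 (-1) (-1) (.l 0 0 0) (.l 0 2 4) (.l 0 3 4)) (.l 0 2 3))),
  (0, 1, true, (.n 0 7 0 (-1) (.n 1 8 (-1) 1 (.n 0 7 (-1) 0 (.l 0 0 0) (.l 1 3 4) (.l 1 2 4)) (.l 1 2 4) (.l 1 2 3)) (.n 0 0 0 0 (.l 0 0 0) (.l 1 2 5) (.l 1 3 4)) (.l 1 2 3))),
  (1, -1, true, (.n 0 7 0 (-1) (.n 1 8 0 (-1) (.n 1 7 0 (-1) (.l 0 0 0) (.l 0 3 4) (.l 0 2 4)) (.l 0 2 4) (.n 1 7 0 (-1) (.l 0 0 0) (.l 0 3 5) (.l 0 2 5))) (.n 1 7 0 (-1) (.l 0 0 0) (.l 0 2 4) (.l 0 3 4)) (.n 1 7 0 (-1) (.l 0 0 0) (.l 0 3 4) (.l 0 2 4)))),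
  (1, 0, true, (.n 0 7 0 (-1) (.n 1 8 0 0 (.l 0 2 3) (.l 1 2 4) (.l 0 2 3)) (.n 0 7 (-1) 0 (.l 0 0 0) (.l 1 2 4) (.n 1 8 0 0 (.l 3 4 6) (.l 1 3 7) (.l 3 4 6))) (.l 1 2 3))),
  (1, 1, true, (.n 0 7 0 (-1) (.n 1 8 0 1 (.l 0 2 3) (.l 1 2 4) (.l 0 2 3)) (.n 0 0 0 0 (.l 0 0 0) (.l 1 2 5) (.l 1 3 4)) (.l 1 2 3)))]

def c2tab1_2 : List (ℤ × ℤ × Bool × Tree) :=
 [(-1, 0, false, (.n 0 11 0 (-1) (.l 0 1 2) (.l 0 1 2) (.l 0 1 3))),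
  (-1, 1, true, (.n 1 10 (-1) 1 (.n 1 5 (-1) 1 (.n 0 7 (-1) 0 (.l 0 0 0) (.l 0 1 4) (.l 0 3 4)) (.n 0 7 (-1) 0 (.l 0 0 0) (.l 0 1 5) (.l 2 4 5)) (.n 0 7 (-1) 0 (.l 0 0 0) (.l 0 1 5) (.l 1 3 5))) (.n 0 0 0 0 (.l 0 0 0) (.l 0 1 5) (.l 0 2 4)) (.n 1 6 (-1) 1 (.n 0 7 (-1) 0 (.l 0 0 0) (.l 0 1 5) (.l 0 4 5)) (.n 0 7 (-1) 0 (.l 0 0 0) (.l 0 1 6) (.l 2 5 6)) (.n 1 5 (-1) 1 (.n 0 7 (-1) 0 (.l 0 0 0) (.l 0 1 7) (.l 0 6 7)) (.n 0 7 (-1) 0 (.l 0 0 0) (.l 0 1 8) (.l 4 7 8)) (.n 0 7 (-1) 0 (.l 0 0 0) (.l 0 1 8) (.l 1 6 8)))))),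
  (-1, 2, false, (.n 1 3 0 1 (.n 0 6 (-1) 1 (.n 1 3 (-1) 1 (.l 0 0 0) (.l 2 3 5) (.l 0 3 4)) (.n 0 2 (-1) 1 (.n 1 3 (-1) 1 (.l 0 0 0) (.l 2 5 7) (.l 0 5 6)) (.l 0 2 6) (.l 2 3 5)) (.n 0 7 (-1) 0 (.l 0 2 5) (.l 2 4 6) (.l 1 2 5))) (.n 0 2 (-1) 1 (.l 0 3 4) (.l 0 2 5) (.l 1 3 4)) (.n 1 9 (-1) 1 (.l 0 0 0) (.n 0 6 (-1) 1 (.l 2 5 6) (.l 3 5 6) (.l 2 5 7)) (.n 0 7 (-1) 0 (.l 0 4 6) (.l 3 5 7) (.l 1 4 6))))),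
  (0, 1, true, (.n 1 10 0 1 (.n 0 2 0 0 (.l 0 1 3) (.n 0 7 (-1) 0 (.l 0 0 0) (.l 0 1 5) (.l 1 3 5)) (.l 0 1 4)) (.n 0 0 0 0 (.l 0 0 0) (.l 0 1 5) (.l 1 2 4)) (.n 0 7 0 (-1) (.l 1 2 4) (.n 0 7 (-1) 0 (.l 0 0 0) (.l 0 1 6) (.l 1 5 6)) (.l 0 3 4)))),
  (0, 2, true, (.n 1 10 0 2 (.n 0 2 0 0 (.l 0 1 3) (.n 0 7 (-1) 0 (.l 0 0 0) (.l 0 1 5) (.l 1 3 5)) (.l 0 1 4)) (.n 0 0 0 0 (.l 0 0 0) (.l 0 1 5) (.l 1 2 4)) (.n 0 7 0 (-1) (.l 1 2 4) (.n 0 0 0 0 (.l 0 0 0) (.l 0 1 7) (.l 1 5 6)) (.l 0 3 4)))),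
  (1, 0, true, (.n 1 10 1 0 (.n 0 2 0 0 (.l 0 1 3) (.n 0 7 (-1) 0 (.l 0 0 0) (.l 0 1 5) (.l 1 3 5)) (.l 0 1 4)) (.n 1 0 1 0 (.n 0 7 0 (-1) (.l 0 4 5) (.l 0 4 6) (.l 0 4 5)) (.n 0 7 0 (-1) (.l 1 5 6) (.l 1 5 7) (.l 1 5 6)) (.n 0 7 0 (-1) (.l 3 4 6) (.l 3 4 7) (.l 0 4 6))) (.n 0 2 0 0 (.l 0 1 4) (.l 1 2 4) (.l 0 1 5)))),
  (1, 1, true, (.n 1 10 1 1 (.n 0 7 0 (-1) (.l 1 2 3) (.n 1 0 1 1 (.l 1 4 5) (.l 1 4 6) (.l 2 4 5)) (.l 1 2 3)) (.n 0 0 0 0 (.l 0 0 0) (.l 0 1 5) (.l 1 2 4)) (.n 0 7 0 (-1) (.l 1 2 4) (.l 1 2 5) (.l 0 3 4)))),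
  (1, 2, true, (.n 1 10 1 2 (.n 0 7 0 (-1) (.l 1 2 3) (.n 1 0 1 2 (.l 1 4 5) (.l 1 4 6) (.l 2 4 5)) (.l 1 2 3)) (.n 0 0 0 0 (.l 0 0 0) (.l 0 1 5) (.l 1 2 4)) (.n 0 7 0 (-1) (.l 1 2 4) (.l 1 2 5) (.l 0 3 4))))]

def c2tab1_3 : List (ℤ × ℤ × Bool × Tree) :=
 []

def c2tab1_4 : List (ℤ × ℤ × Bool × Tree) :=
 []

def c2tab1_5 : List (ℤ × ℤ × Bool × Tree) :=
 []

def c2tab1_6 : List (ℤ × ℤ × Bool × Tree) :=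
 []

def c2tab1_7 : List (ℤ × ℤ × Bool × Tree) :=
 []

def c2tab1_8 : List (ℤ × ℤ × Bool × Tree) :=
 []

def c2tab1_9 : List (ℤ × ℤ × Bool × Tree) :=
 []

def c2tab1_10 : List (ℤ × ℤ × Bool × Tree) :=
 []

def c2tab1_11 : List (ℤ × ℤ × Bool × Tree) :=
 []

def c2tab1_12 : List (ℤ × ℤ × Bool × Tree) :=
 [(0, -1, false, (.n 0 9 0 (-1) (.l 0 1 2) (.l 0 1 3) (.l 0 1 2))),
  (0, 1, true, (.n 0 7 0 (-1) (.n 1 1 0 1 (.l 0 0 0) (.n 0 7 (-1) 0 (.l 0 0 0) (.l 1 3 5) (.l 2 3 5)) (.n 1 4 (-1) 1 (.n 0 7 (-1) 0 (.l 0 0 0) (.l 0 5 6) (.l 0 3 6)) (.n 0 7 (-1) 0 (.l 0 0 0) (.l 3 6 7) (.l 0 3 7)) (.l 1 2 5))) (.n 1 1 0 1 (.l 0 0 0) (.n 0 7 (-1) 0 (.l 0 0 0) (.l 1 4 6) (.l 3 4 6)) (.n 0 7 (-1) 0 (.l 0 0 0) (.l 2 4 6) (.l 0 4 6))) (.n 1 7 (-1) 0 (.l 0 2 4) (.l 0 2 4) (.l 0 3 5))))]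

def c2tab1_13 : List (ℤ × ℤ × Bool × Tree) :=
 [(0, -1, false, (.n 1 2 0 (-1) (.l 0 0 0) (.n 1 2 (-1) 0 (.l 0 3 4) (.l 0 2 5) (.l 0 3 4)) (.n 1 3 0 (-2) (.l 0 3 4) (.l 0 3 5) (.l 0 2 4)))),
  (0, 1, true, (.n 0 7 (-1) 0 (.l 0 0 0) (.n 0 7 (-2) 0 (.l 1 2 4) (.l 0 1 4) (.l 1 2 5)) (.n 0 2 0 0 (.l 1 2 4) (.l 1 2 4) (.l 0 1 4))))]

def c2tab1_14 : List (ℤ × ℤ × Bool × Tree) :=
 [(-1, 0, false, (.n 1 2 (-1) 0 (.l 0 1 2) (.l 0 1 3) (.l 0 1 2))),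
  (1, 0, true, (.n 1 7 1 (-1) (.n 0 7 0 (-1) (.l 0 1 3) (.l 1 2 4) (.l 0 1 3)) (.n 0 10 0 0 (.l 0 1 4) (.l 0 1 5) (.n 0 7 0 (-1) (.l 0 1 6) (.l 1 4 7) (.l 0 1 6))) (.n 0 7 0 (-1) (.l 0 1 4) (.l 0 3 5) (.l 0 1 4))))]

def c2tab1_15 : List (ℤ × ℤ × Bool × Tree) :=
 [(-1, 0, false, (.n 1 2 (-1) 0 (.l 0 1 2) (.l 0 1 2) (.n 0 9 0 (-1) (.l 0 2 4) (.l 0 2 5) (.l 0 2 4)))),
  (1, 0, true, (.n 1 1 1 0 (.l 0 0 0) (.n 0 7 0 (-1) (.l 0 3 4) (.l 0 3 5) (.l 0 2 4)) (.n 0 10 0 0 (.l 0 2 4) (.l 0 3 5) (.n 0 7 0 (-1) (.l 0 3 6) (.l 2 4 7) (.l 0 2 6)))))]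

def c2tab1_16 : List (ℤ × ℤ × Bool × Tree) :=
 []

def c2tab1_17 : List (ℤ × ℤ × Bool × Tree) :=
 []

def c2tab1_18 : List (ℤ × ℤ × Bool × Tree) :=
 []

def c2tab1_19 : List (ℤ × ℤ × Bool × Tree) :=
 []

def c2tab2_0 : List (ℤ × ℤ × Bool × Tree) :=
 []

def c2tab2_1 : List (ℤ × ℤ × Bool × Tree) :=
 []

def c2tab2_2 : List (ℤ × ℤ × Bool × Tree) :=
 []

def c2tab2_3 : List (ℤ × ℤ × Bool × Tree) :=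
 [(-1, -1, false, (.n 3 2 (-1) 0 (.l 0 1 4) (.l 0 1 5) (.l 0 1 4))),
  (-1, 0, false, (.l 1 2 3)),
  (0, -1, false, (.n 3 7 (-1) (-1) (.l 0 0 0) (.l 0 1 4) (.l 0 1 4))),
  (0, 0, true, (.n 1 2 0 0 (.l 1 3 4) (.l 1 3 4) (.l 0 1 5)))]

def c2tab2_4 : List (ℤ × ℤ × Bool × Tree) :=
 [(-1, -1, false, (.n 3 2 (-1) 0 (.l 0 1 4) (.l 0 1 5) (.l 0 1 4))),
  (-1, 0, false, (.l 1 2 3)),
  (0, -1, false, (.n 3 9 0 (-1) (.l 0 1 4) (.l 0 1 4) (.l 0 2 5))),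
  (0, 0, false, (.l 1 2 3))]

def c2tab2_5 : List (ℤ × ℤ × Bool × Tree) :=
 [(-1, -1, false, (.n 3 2 (-1) 0 (.l 0 1 4) (.l 0 1 5) (.l 0 1 4))),
  (-1, 0, true, (.l 0 1 3)),
  (0, -1, false, (.l 0 2 3)),
  (0, 0, false, (.l 0 2 3))]

def c2tab2_6 : List (ℤ × ℤ × Bool × Tree) :=
 [(-1, -1, false, (.n 3 7 (-1) (-1) (.l 0 1 4) (.l 1 2 5) (.l 0 1 4))),
  (-1, 0, true, (.n 1 7 (-1) 0 (.l 0 0 0) (.l 0 3 4) (.l 0 3 4))),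
  (0, -1, false, (.n 3 3 0 (-1) (.l 0 1 4) (.l 0 1 4) (.l 0 2 5))),
  (0, 0, false, (.n 3 5 0 0 (.l 0 2 4) (.l 0 1 5) (.l 0 2 4)))]

def c2tab2_7 : List (ℤ × ℤ × Bool × Tree) :=
 [(-1, -1, false, (.l 0 1 3)),
  (-1, 0, true, (.l 0 2 3)),
  (0, -1, false, (.n 0 2 0 0 (.l 0 3 4) (.l 0 2 4) (.l 1 3 5))),
  (0, 0, false, (.n 3 5 0 0 (.l 0 2 4) (.l 0 2 5) (.l 1 2 4)))]

def c2tab2_8 : List (ℤ × ℤ × Bool × Tree) :=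
 [(-1, -1, false, (.n 3 2 (-1) 0 (.l 0 1 4) (.l 1 2 5) (.l 0 1 4))),
  (-1, 0, false, (.n 3 3 (-1) 0 (.l 1 2 4) (.l 1 2 5) (.l 1 2 4))),
  (0, -1, false, (.l 0 1 3)),
  (0, 0, false, (.n 3 7 (-1) 0 (.l 1 2 4) (.l 0 2 4) (.l 1 2 5)))]

def c2tab2_9 : List (ℤ × ℤ × Bool × Tree) :=
 [(-1, -1, true, (.l 0 1 3)),
  (-1, 0, false, (.l 1 2 3)),
  (0, -1, true, (.l 0 1 3)),
  (0, 0, false, (.l 1 2 3))]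

def c2tab2_10 : List (ℤ × ℤ × Bool × Tree) :=
 [(-1, -1, true, (.l 0 1 3)),
  (-1, 0, true, (.l 0 1 3)),
  (0, -1, false, (.l 0 1 3)),
  (0, 0, false, (.n 0 3 0 0 (.l 0 3 4) (.l 0 3 5) (.l 0 3 4)))]

def c2tab2_11 : List (ℤ × ℤ × Bool × Tree) :=
 [(-1, -1, false, (.n 3 2 (-1) 0 (.l 0 1 4) (.l 1 2 5) (.l 0 1 4))),
  (-1, 0, false, (.n 3 3 (-1) 0 (.l 1 2 4) (.l 1 2 5) (.l 0 1 5))),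
  (0, -1, false, (.l 0 1 3)),
  (0, 0, false, (.n 0 3 0 0 (.l 2 3 4) (.l 0 3 5) (.l 2 3 4)))]

def c2tab2_12 : List (ℤ × ℤ × Bool × Tree) :=
 []

def c2tab2_13 : List (ℤ × ℤ × Bool × Tree) :=
 []

def c2tab2_14 : List (ℤ × ℤ × Bool × Tree) :=
 []

def c2tab2_15 : List (ℤ × ℤ × Bool × Tree) :=
 []

def c2tab2_16 : List (ℤ × ℤ × Bool × Tree) :=
 [(0, -1, false, (.n 3 5 0 (-1) (.l 0 2 4) (.l 0 1 5) (.l 0 2 4))),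
  (0, 0, false, (.n 3 5 0 0 (.l 0 2 4) (.l 0 1 5) (.l 0 2 4)))]

def c2tab2_17 : List (ℤ × ℤ × Bool × Tree) :=
 [(0, -1, true, (.n 3 8 1 (-1) (.l 1 3 4) (.l 1 3 4) (.l 0 1 5))),
  (0, 0, false, (.n 3 5 0 0 (.l 0 2 4) (.l 0 1 5) (.l 0 2 4)))]

def c2tab2_18 : List (ℤ × ℤ × Bool × Tree) :=
 [(-1, 0, true, (.l 0 2 3)),
  (0, 0, false, (.n 3 7 (-1) 0 (.l 1 2 4) (.l 0 2 4) (.l 1 2 4)))]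

def c2tab2_19 : List (ℤ × ℤ × Bool × Tree) :=
 [(-1, 0, false, (.n 3 3 (-1) 0 (.l 1 2 4) (.l 1 2 5) (.l 1 2 4))),
  (0, 0, false, (.l 0 2 3))]

def c2tab : List (List (List (ℤ × ℤ × Bool × Tree))) :=
 [[c2tab0_0, c2tab0_1, c2tab0_2, c2tab0_3, c2tab0_4, c2tab0_5, c2tab0_6, c2tab0_7, c2tab0_8, c2tab0_9, c2tab0_10, c2tab0_11, c2tab0_12, c2tab0_13, c2tab0_14, c2tab0_15, c2tab0_16, c2tab0_17, c2tab0_18, c2tab0_19],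
  [c2tab1_0, c2tab1_1, c2tab1_2, c2tab1_3, c2tab1_4, c2tab1_5, c2tab1_6, c2tab1_7, c2tab1_8, c2tab1_9, c2tab1_10, c2tab1_11, c2tab1_12, c2tab1_13, c2tab1_14, c2tab1_15, c2tab1_16, c2tab1_17, c2tab1_18, c2tab1_19],
  [c2tab2_0, c2tab2_1, c2tab2_2, c2tab2_3, c2tab2_4, c2tab2_5, c2tab2_6, c2tab2_7, c2tab2_8, c2tab2_9, c2tab2_10, c2tab2_11, c2tab2_12, c2tab2_13, c2tab2_14, c2tab2_15, c2tab2_16, c2tab2_17, c2tab2_18, c2tab2_19]]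

end Pool.Agent.Lib.MP_6ff0c5_lc.C
end

section

/-! generated: boxes (in the first drawing) of the points that cover a wall; sides x <, x > -, y <, y > - in half cells -/

set_option autoImplicit false

namespace Pool.Agent.Lib.MP_6ff0c5_lc.C

def boxTrees : List (List Tree) :=
 [[(.n 0 2 0 1 (.l 0 1 2) (.l 0 1 3) (.l 0 1 2)),
   (.n 0 5 (-1) 0 (.n 0 7 (-1) 1 (.l 1 2 3) (.l 1 2 4) (.l 0 1 3)) (.n 0 6 (-1) 0 (.l 1 3 4) (.l 0 1 5) (.l 1 3 4)) (.n 0 7 (-1) 0 (.n 0 5 (-2) 1 (.l 1 4 5) (.l 1 2 6) (.l 1 4 5)) (.n 0 5 (-2) 1 (.l 1 4 5) (.l 1 2 6) (.l 1 4 5)) (.l 1 2 4))),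
   (.n 0 7 (-1) 0 (.n 0 11 (-1) 0 (.l 1 2 3) (.l 0 1 4) (.n 0 5 (-2) 1 (.l 1 2 5) (.l 1 3 6) (.l 1 2 5))) (.n 0 11 (-1) 0 (.l 1 2 3) (.l 0 1 4) (.n 0 5 (-2) 1 (.l 1 2 5) (.l 1 3 6) (.l 1 2 5))) (.n 0 2 0 1 (.l 1 2 4) (.l 1 2 5) (.l 0 1 4))),
   (.n 0 2 (-1) 0 (.n 0 6 (-1) 0 (.l 1 2 3) (.l 0 1 4) (.l 1 2 3)) (.n 0 3 0 0 (.l 1 2 4) (.l 1 2 5) (.l 1 2 4)) (.n 0 5 (-3) 0 (.l 1 3 4) (.l 1 3 5) (.l 0 1 4)))],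
  [(.n 0 5 0 0 (.l 0 1 2) (.n 0 2 0 0 (.l 1 2 4) (.l 0 1 5) (.l 1 2 4)) (.n 0 9 0 (-1) (.n 0 2 0 0 (.l 1 4 5) (.l 0 1 6) (.l 1 4 5)) (.n 0 2 0 0 (.l 1 5 6) (.l 0 1 7) (.l 1 5 6)) (.l 0 1 4))),
   (.n 0 6 (-1) 1 (.l 0 1 2) (.n 0 2 (-1) 1 (.l 0 1 4) (.l 0 1 5) (.l 1 2 4)) (.l 0 1 3)),
   (.n 0 2 0 0 (.l 0 1 2) (.n 0 2 (-1) 2 (.n 0 6 (-1) 1 (.l 1 3 5) (.n 0 2 (-1) 1 (.l 0 1 7) (.l 0 1 8) (.l 1 5 7)) (.l 1 3 6)) (.n 0 2 (-1) 1 (.l 0 1 6) (.l 0 1 7) (.l 1 5 6)) (.l 1 3 4)) (.l 0 1 2)),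
   (.n 0 9 0 (-1) (.n 0 5 0 0 (.l 1 2 3) (.l 0 1 3) (.l 1 2 4)) (.n 0 2 0 0 (.l 1 3 4) (.l 0 1 5) (.l 1 3 4)) (.l 0 1 2))],
  [(.n 0 3 1 (-1) (.l 0 1 2) (.l 0 1 3) (.n 0 7 0 (-2) (.l 1 2 4) (.l 1 2 4) (.l 0 1 5))),
   (.n 0 6 (-1) 0 (.l 0 0 0) (.l 0 1 3) (.n 0 5 (-1) 0 (.l 0 1 4) (.l 1 2 5) (.l 0 1 4))),
   (.n 0 5 (-1) 0 (.l 0 1 2) (.l 0 1 3) (.l 0 1 2)),
   (.n 0 9 0 (-1) (.l 0 0 0) (.n 0 3 1 (-1) (.l 1 3 4) (.l 0 1 5) (.l 1 3 4)) (.l 0 1 2))],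
  [(.n 0 2 0 1 (.l 0 1 2) (.l 0 1 3) (.l 0 1 2)),
   (.n 0 11 0 0 (.l 0 0 0) (.n 0 2 (-1) 0 (.n 0 5 (-1) 0 (.l 1 3 5) (.l 1 4 6) (.l 1 3 5)) (.l 0 1 4) (.l 1 3 5)) (.l 0 1 2)),
   (.n 0 0 0 0 (.l 0 0 0) (.l 0 1 2) (.n 0 2 0 1 (.l 1 2 4) (.l 1 2 5) (.l 0 1 4))),
   (.n 0 2 (-1) 0 (.l 0 1 2) (.l 0 1 2) (.l 0 1 3))],
  [(.n 0 2 0 1 (.l 0 1 2) (.l 0 1 3) (.l 0 1 2)),
   (.n 0 11 0 0 (.l 0 1 2) (.l 0 1 3) (.n 0 3 0 1 (.l 1 2 4) (.l 1 2 4) (.l 0 1 5))),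
   (.n 0 2 0 1 (.n 0 11 0 0 (.l 1 2 3) (.l 1 2 4) (.l 1 2 3)) (.n 0 11 0 0 (.l 1 3 4) (.l 1 3 5) (.l 1 3 4)) (.l 0 1 2)),
   (.n 0 11 0 0 (.l 0 1 2) (.l 0 1 3) (.l 0 1 2))],
  [(.n 0 2 1 0 (.l 0 0 0) (.n 0 2 0 1 (.l 1 3 4) (.l 1 2 5) (.n 0 7 0 0 (.l 1 3 6) (.l 1 4 7) (.l 1 3 6))) (.n 0 2 0 0 (.n 0 6 0 0 (.l 1 2 5) (.l 1 2 5) (.l 1 4 5)) (.n 0 6 0 0 (.l 1 2 6) (.l 1 2 6) (.l 1 4 6)) (.l 1 2 5))),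
   (.n 0 2 0 3 (.l 0 1 2) (.l 0 1 3) (.l 0 1 2)),
   (.n 0 2 0 1 (.l 0 1 2) (.l 0 1 3) (.n 0 7 0 0 (.l 0 1 4) (.l 1 2 4) (.l 0 1 4))),
   (.n 0 6 0 0 (.l 0 1 2) (.l 0 1 2) (.n 0 2 0 0 (.l 1 2 4) (.l 1 2 4) (.l 0 1 5)))],
  [(.n 0 2 1 0 (.l 0 1 2) (.l 0 1 3) (.l 0 1 2)),
   (.n 0 5 0 0 (.n 0 2 0 3 (.l 1 2 3) (.l 1 2 4) (.l 0 1 3)) (.n 0 2 (-1) 0 (.l 1 3 4) (.l 0 1 4) (.l 1 3 5)) (.n 0 2 0 3 (.l 1 2 3) (.l 1 2 4) (.l 0 1 3))),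
   (.n 0 2 1 0 (.n 0 5 0 0 (.l 1 2 3) (.l 1 2 4) (.l 1 2 3)) (.n 0 5 0 0 (.n 0 2 0 1 (.l 1 4 5) (.l 1 4 6) (.l 1 3 5)) (.l 1 3 5) (.n 0 2 0 1 (.l 1 4 5) (.l 1 4 6) (.l 1 3 5))) (.l 1 2 3)),
   (.n 0 2 (-1) 0 (.l 0 1 2) (.l 0 1 2) (.l 0 1 3))],
  [(.n 0 3 1 0 (.l 0 1 2) (.l 0 1 3) (.l 0 1 2)),
   (.n 0 5 0 0 (.l 0 1 2) (.n 0 11 1 0 (.l 1 3 4) (.l 0 1 5) (.l 1 3 5)) (.n 0 5 (-1) 1 (.l 0 1 4) (.n 0 2 (-1) 1 (.l 1 5 6) (.l 1 2 6) (.l 1 5 7)) (.l 0 1 4))),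
   (.n 0 5 (-2) 1 (.l 0 1 2) (.n 0 2 (-5) 1 (.l 1 3 4) (.l 0 1 4) (.l 1 3 5)) (.l 0 1 2)),
   (.n 0 3 1 0 (.n 0 5 0 0 (.l 1 2 3) (.l 1 2 4) (.l 0 1 3)) (.l 0 1 3) (.n 0 2 0 0 (.l 1 2 4) (.l 1 2 4) (.l 1 3 5)))],
  [(.n 0 11 0 0 (.n 0 5 0 1 (.l 1 2 3) (.l 0 1 3) (.l 1 2 4)) (.n 0 2 0 1 (.l 1 2 4) (.l 1 2 5) (.n 0 7 0 0 (.l 1 2 6) (.l 1 4 7) (.l 1 2 6))) (.n 0 2 0 0 (.l 1 3 4) (.l 1 3 4) (.l 0 1 5))),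
   (.n 0 7 (-1) 0 (.l 0 1 2) (.l 0 1 2) (.l 0 1 3)),
   (.n 0 2 0 1 (.l 0 1 2) (.l 0 1 3) (.l 0 1 2)),
   (.n 0 9 0 0 (.n 0 8 1 0 (.l 1 2 3) (.l 0 1 3) (.l 1 2 4)) (.n 0 8 1 0 (.l 1 2 3) (.l 0 1 3) (.l 1 2 4)) (.n 0 7 (-1) 0 (.l 1 2 4) (.l 1 2 4) (.l 0 1 5)))],
  [(.n 0 2 0 1 (.l 0 1 2) (.l 0 1 3) (.l 0 1 2)),
   (.n 0 8 0 0 (.l 0 1 2) (.n 0 2 (-1) 1 (.l 1 2 4) (.l 0 1 4) (.l 1 2 5)) (.l 0 1 2)),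
   (.n 0 2 0 1 (.n 0 8 0 0 (.l 1 2 3) (.n 0 1 (-5) 1 (.l 1 4 5) (.l 0 1 6) (.l 1 4 5)) (.l 1 2 3)) (.n 0 1 0 1 (.l 0 0 0) (.l 1 2 5) (.l 1 3 5)) (.l 1 2 3)),
   (.n 0 2 0 1 (.l 0 1 2) (.l 0 1 3) (.l 0 1 2))],
  [(.n 0 2 0 1 (.n 0 5 0 0 (.n 0 2 0 (-1) (.l 1 3 4) (.l 1 3 4) (.l 0 1 5)) (.n 0 3 1 0 (.l 1 2 5) (.l 1 2 6) (.l 1 3 5)) (.n 0 2 0 0 (.l 1 4 5) (.l 1 4 5) (.l 1 2 6))) (.l 1 2 3) (.n 0 3 1 0 (.l 1 2 4) (.l 1 2 5) (.n 0 5 0 0 (.l 1 3 6) (.l 1 4 6) (.l 1 3 7)))),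
   (.n 0 3 0 0 (.l 0 1 2) (.l 0 1 3) (.l 0 1 2)),
   (.n 0 2 0 1 (.l 0 1 2) (.l 0 1 3) (.l 0 1 2)),
   (.n 0 3 0 0 (.l 0 1 2) (.n 0 3 1 0 (.l 1 3 4) (.n 0 2 0 1 (.l 1 5 6) (.l 1 4 7) (.l 1 5 6)) (.n 0 5 0 0 (.l 1 3 6) (.l 1 4 6) (.l 1 3 7))) (.l 0 1 2))],
  [(.n 0 3 0 0 (.n 0 5 0 1 (.l 1 2 3) (.l 0 1 3) (.l 1 2 4)) (.n 0 2 0 1 (.l 1 3 4) (.l 1 3 5) (.l 1 3 4)) (.l 1 2 3)),
   (.n 0 3 0 0 (.l 0 1 2) (.l 0 1 3) (.l 0 1 2)),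
   (.n 0 2 0 1 (.l 0 1 2) (.l 0 1 3) (.l 0 1 2)),
   (.n 0 3 0 0 (.l 0 1 2) (.l 0 1 3) (.l 0 1 2))],
  [(.n 0 11 0 0 (.l 0 1 2) (.l 0 1 2) (.l 0 1 3)),
   (.n 0 5 (-1) 0 (.l 0 1 2) (.l 0 1 3) (.n 0 5 (-2) 1 (.l 0 1 4) (.n 0 2 (-2) 1 (.l 1 5 6) (.l 1 2 6) (.l 1 5 7)) (.l 0 1 4))),
   (.n 0 5 (-3) 1 (.n 0 5 (-2) 1 (.l 0 1 3) (.l 1 2 4) (.l 0 1 3)) (.n 0 11 (-1) 0 (.l 0 1 4) (.l 0 1 4) (.l 1 3 4)) (.l 0 1 2)),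
   (.n 0 3 0 0 (.n 0 5 (-1) 0 (.l 1 2 3) (.l 1 2 4) (.l 0 1 3)) (.l 0 1 3) (.n 0 2 (-1) 0 (.l 1 2 4) (.l 1 2 4) (.l 1 3 5)))],
  [(.n 0 3 0 0 (.l 0 0 0) (.l 0 1 2) (.n 0 3 0 (-1) (.l 1 2 4) (.l 1 2 5) (.l 0 1 4))),
   (.n 0 2 (-1) 1 (.l 0 1 2) (.l 0 1 3) (.l 0 1 2)),
   (.n 0 2 (-1) 1 (.l 0 1 2) (.l 0 1 3) (.l 0 1 2)),
   (.n 0 2 0 0 (.l 0 0 0) (.l 0 1 3) (.n 0 9 0 (-1) (.l 1 2 4) (.l 1 3 5) (.l 0 1 4)))],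
  [(.n 0 2 0 0 (.l 0 1 2) (.l 0 1 3) (.l 0 1 2)),
   (.n 0 6 (-1) 0 (.n 0 2 (-1) 0 (.l 1 2 3) (.l 0 1 3) (.l 1 2 4)) (.n 0 2 (-1) 0 (.l 1 2 4) (.l 0 1 4) (.l 1 2 5)) (.n 0 2 0 0 (.l 1 3 4) (.l 1 3 5) (.l 1 3 4))),
   (.n 0 2 0 0 (.n 0 1 0 0 (.l 1 2 3) (.n 0 2 (-5) 0 (.l 1 4 5) (.l 1 2 5) (.l 1 4 6)) (.l 1 2 3)) (.n 0 1 0 0 (.l 1 3 4) (.l 1 2 4) (.l 1 3 4)) (.l 1 2 3)),
   (.n 0 2 0 0 (.l 0 1 2) (.l 0 1 3) (.l 0 1 2))],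
  [(.n 0 2 0 0 (.l 0 1 2) (.l 0 1 2) (.n 0 3 1 (-1) (.l 1 2 4) (.l 1 2 5) (.l 0 1 4))),
   (.n 0 3 0 0 (.l 0 1 2) (.n 0 5 (-1) 0 (.l 1 2 4) (.l 0 1 5) (.l 1 2 4)) (.n 0 2 0 3 (.l 1 3 4) (.l 1 3 5) (.l 0 1 4))),
   (.n 0 2 0 0 (.n 0 5 (-1) 0 (.l 1 2 3) (.l 0 1 4) (.l 1 2 3)) (.n 0 5 (-1) 0 (.l 1 2 3) (.l 0 1 4) (.l 1 2 3)) (.l 1 2 3)),
   (.n 0 11 1 (-1) (.l 0 1 2) (.l 0 1 2) (.l 0 1 3))],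
  [(.n 0 3 1 (-2) (.l 0 1 2) (.l 0 1 3) (.l 0 1 2)),
   (.n 0 5 0 0 (.l 0 1 2) (.n 0 6 0 0 (.l 1 3 4) (.l 1 2 5) (.l 1 3 4)) (.n 0 2 0 1 (.l 1 2 4) (.l 1 2 5) (.n 0 7 (-1) 3 (.l 1 4 6) (.l 1 4 7) (.l 0 1 6)))),
   (.n 0 5 0 0 (.n 0 6 0 1 (.l 0 1 3) (.n 0 2 0 1 (.l 1 2 5) (.l 1 2 6) (.l 1 3 5)) (.l 0 1 4)) (.l 0 1 3) (.n 0 2 0 1 (.l 1 2 4) (.l 1 2 5) (.n 0 7 0 0 (.l 1 2 6) (.l 1 4 7) (.l 0 1 6)))),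
   (.n 0 6 0 0 (.n 0 5 0 0 (.l 1 2 3) (.l 1 2 4) (.l 0 1 3)) (.n 0 8 1 (-1) (.l 1 3 4) (.l 0 1 4) (.l 1 3 5)) (.n 0 5 0 0 (.l 1 2 3) (.l 1 2 4) (.l 0 1 3)))],
  [(.n 0 9 1 0 (.l 0 1 2) (.l 0 1 2) (.l 0 1 3)),
   (.n 0 5 0 0 (.n 0 6 0 1 (.l 1 2 3) (.l 1 2 3) (.l 0 1 4)) (.n 0 6 0 0 (.l 1 3 4) (.l 0 1 5) (.l 1 3 4)) (.n 0 7 0 0 (.l 1 2 4) (.l 1 2 4) (.l 1 2 4))),
   (.n 0 7 0 0 (.n 0 11 0 0 (.l 1 2 3) (.l 0 1 4) (.l 1 2 3)) (.n 0 11 0 0 (.l 1 2 3) (.l 0 1 4) (.l 1 2 3)) (.n 0 2 1 1 (.l 1 2 4) (.l 1 2 5) (.l 0 1 4))),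
   (.n 0 2 0 0 (.l 0 1 2) (.l 0 1 2) (.l 0 1 3))],
  [(.n 0 3 1 0 (.l 0 1 2) (.l 0 1 3) (.n 0 7 0 (-1) (.l 1 2 4) (.l 1 2 4) (.l 0 1 5))),
   (.n 0 1 0 1 (.l 0 1 2) (.l 0 1 2) (.n 0 5 (-1) 1 (.l 0 1 4) (.l 1 2 5) (.l 0 1 4))),
   (.n 0 5 (-1) 1 (.l 0 1 2) (.l 0 1 3) (.l 0 1 2)),
   (.n 0 9 0 0 (.l 0 0 0) (.n 0 3 1 0 (.l 1 3 4) (.l 0 1 5) (.l 1 3 4)) (.l 0 1 2))],
  [(.n 0 5 0 1 (.n 0 7 (-1) 0 (.l 1 2 3) (.l 1 2 3) (.l 1 2 4)) (.n 0 7 (-1) 1 (.l 1 2 4) (.l 0 1 5) (.l 1 2 4)) (.n 0 9 0 0 (.l 1 3 4) (.n 0 2 0 1 (.l 1 5 6) (.l 0 1 7) (.l 1 5 6)) (.l 0 1 4))),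
   (.n 0 6 (-1) 2 (.l 0 1 2) (.l 0 1 2) (.l 0 1 3)),
   (.n 0 2 0 1 (.l 0 1 2) (.n 0 6 (-1) 2 (.l 1 3 4) (.l 0 1 4) (.l 1 3 5)) (.l 0 1 2)),
   (.n 0 9 0 0 (.n 0 5 3 1 (.l 1 2 3) (.l 0 1 3) (.l 1 2 4)) (.n 0 5 0 1 (.l 1 3 4) (.l 0 1 4) (.l 1 3 5)) (.l 0 1 2))]]

/-- the bounds, in half cells -/
def boxTab : List (List ℤ) :=
 [[1, 3, 3, 1], [2, 1, 2, 1], [3, 1, 1, 3], [2, 1, 2, 1], [2, 1, 2, 1]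
  , [3, 1, 2, 1], [3, 1, 2, 1], [3, 1, 3, 1], [2, 1, 2, 1], [2, 1, 2, 1]
  , [3, 1, 2, 1], [2, 1, 2, 1], [1, 3, 2, 1], [1, 1, 2, 1], [2, 1, 1, 1]
  , [3, 1, 1, 2], [3, 1, 2, 1], [3, 1, 2, 1], [3, 1, 3, 1], [2, 1, 4, 1]]

end Pool.Agent.Lib.MP_6ff0c5_lc.C
end
end

section

section

/-! generated: a point of wall f (f /= 2) does not cover all walls of the room (first drawing) -/

set_option autoImplicit false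

namespace Pool.Agent.Lib.MP_6ff0c5_lc.C

def c5tab : List Tree :=
 [(.l 1 2 4),
  (.l 0 1 4),
  (.l 0 0 0),
  (.l 0 2 11),
  (.l 0 2 9),
  (.l 0 2 10),
  (.l 0 2 9),
  (.l 0 4 11),
  (.l 0 2 10),
  (.l 2 4 11),
  (.l 2 4 9),
  (.l 0 2 10),
  (.l 1 2 3),
  (.n 0 2 0 0 (.l 1 3 6) (.l 0 2 6) (.l 1 3 7)),
  (.l 0 1 3),
  (.l 0 1 3),
  (.l 0 2 11),
  (.l 0 4 9),
  (.l 0 4 9),
  (.l 0 2 9)]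

end Pool.Agent.Lib.MP_6ff0c5_lc.C
end

section

/-!
MP_6ff0c5_lc, part C: the checks of the generated certificates.
-/

set_option autoImplicit false

namespace Pool.Agent.Lib.MP_6ff0c5_lc.C

/-! ### Boxes in the first drawing -/

/-- the form that is nonnegative beyond side `s` of the box at distance `h` half cells -/
def boxForm (s : ℕ) (h : ℤ) : Form :=
  if s = 0 then ⟨200, 0, -h * 20000⟩ else if s = 1 then ⟨-200, 0, -h * 20000⟩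
  else if s = 2 then ⟨0, 200, -h * 20000⟩ else ⟨0, -200, -h * 20000⟩

/-- bound of side `s` of the box of wall `e` -/
def bx (e s : ℕ) : ℤ := (boxTab.getD e []).getD s 0

theorem box_ok : ∀ e < 20, ∀ s < 4,
    claimOk nomP 20 [(e, 0, 0)] [boxForm s (bx e s)] ((boxTrees.getD e []).getD s default) = true := by
  decide +kernel

/-! ### Vertices do not cover walls -/

/-- type of a closing wall -/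
def ctyp (e : ℕ) : ℕ := if e < 12 then 0 else if e < 14 then 1 else if e < 16 then 2 else if e < 18 then 3 else 4

/-- possible offsets of rooms of the patch relative to a closing wall -/
def okrel (t : ℕ) (i j : ℤ) : Bool :=
  if t = 1 then decide (0 ≤ i) else if t = 2 then decide (0 ≤ j) else if t = 3 then decide (i ≤ 0)
  else if t = 4 then decide (j ≤ 0) else true

/-- the vertex `x` can be present in a patch that contains wall `e` of cell (0, 0) -/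
def adm (e : ℕ) (x : Vx) : Bool :=
  let t := ctyp e
  let k := x.1
  let i := x.2.1
  let j := x.2.2
  decide (x ≠ wu e 0 0) && decide (x ≠ wv e 0 0) &&
  (if k = 12 then (decide (0 < i) && okrel t 0 j) || (decide (0 < j) && okrel t i 0)
    else if k = 13 then (decide (i < 0) && okrel t 0 j) || (decide (j < 0) && okrel t i 0)
    else if k = 2 ∨ k = 3 then okrel t i j || okrel t (i - 1) j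
    else if k = 4 ∨ k = 5 then okrel t i j || okrel t i (j - 1)
    else decide (k < 12) && okrel t i j)

/-- `iori` of three vertices, zero if two of them coincide -/
def vo (nom : Vx → ℤ × ℤ) (p q r : Vx) : ℤ := if p = q ∨ q = r ∨ p = r then 0 else iori (nom p) (nom q) (nom r)

/-- the wall `(w, i, j)` proves that the vertex `x` does not cover wall `e` of cell (0, 0) -/
def ptBlk (nom : Vx → ℤ × ℤ) (T : ℤ) (e : ℕ) (x : Vx) (w : ℕ) (i j : ℤ) : Bool :=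
  let u := wu e 0 0
  let v := wv e 0 0
  let y := wu w i j
  let z := wv w i j
  decide (w < 12) && inW u && inW v && inW x && inW y && inW z &&
  (decide (T < vo nom u v y) || decide (T < vo nom u v z)) &&
  (decide (T < vo nom v x y) || decide (T < vo nom v x z)) &&
  (decide (T < vo nom x u y) || decide (T < vo nom x u z)) &&
  (decide (vo nom y z u < -T) || decide (vo nom y z v < -T) || decide (vo nom y z x < -T)) &&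
  (decide (T < vo nom y z u) || decide (T < vo nom y z v) || decide (T < vo nom y z x))

/-- the check of an entry of the table -/
def c1ok (e : ℕ) (t : Vx × ℕ × ℕ × ℤ × ℤ) : Bool :=
  if t.2.1 = 0 then decide (iori (nomP (wu e 0 0)) (nomP (wv e 0 0)) (nomP t.1) ≤ 0)
  else if t.2.1 = 1 then ptBlk nomP 0 e t.1 t.2.2.1 t.2.2.2.1 t.2.2.2.2
  else if t.2.1 = 2 then inW (wu e 0 0) && inW (wv e 0 0) && inW t.1 &&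
    decide (iori (nomQ (wu e 0 0)) (nomQ (wv e 0 0)) (nomQ t.1) < -1000000)
  else ptBlk nomQ 1000000 e t.1 t.2.2.1 t.2.2.2.1 t.2.2.2.2

/-- the nominal position of `x` in the first drawing is strictly inside the box of wall `e` -/
def inBox (e : ℕ) (x : Vx) : Bool :=
  decide ((nomP x).1 < 100 * bx e 0) && decide (-(nomP x).1 < 100 * bx e 1) &&
  decide ((nomP x).2 < 100 * bx e 2) && decide (-(nomP x).2 < 100 * bx e 3)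

/-- the integers from `-r` to `r` -/
def rg (r : ℕ) : List ℤ := (List.range (2 * r + 1)).map (fun k : ℕ => (k : ℤ) - (r : ℤ))

theorem mem_rg {r : ℕ} {i : ℤ} (h1 : -(r : ℤ) ≤ i) (h2 : i ≤ r) : i ∈ rg r := by
  unfold rg
  rw [List.mem_map]
  exact ⟨(i + r).toNat, by rw [List.mem_range]; omega, by omega⟩

def c1all (e : ℕ) : Bool :=
  (rg 4).all fun i => (rg 4).all fun j => (List.range 14).all fun k =>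
    !(adm e (k, i, j) && inBox e (k, i, j)) || (c1tab.getD e []).any fun t => decide (t.1 = (k, i, j)) && c1ok e t

theorem c1_ok : ∀ e < 20, c1all e = true := by decide +kernel

/-! ### Points do not cover walls of different rooms -/

/-- the special walls of type `ty` -/
def spec (ty : ℕ) : List (ℕ × ℤ × ℤ) :=
  if ty = 0 then [(10, 0, 0)] else if ty = 1 then [(1, 0, 0)] else [(0, 0, 0), (1, 0, 0), (2, 0, 0)]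

/-- side `s` of the box of the special walls of type `ty` -/
def sbx (ty s : ℕ) : ℤ := if ty = 0 then bx 10 s else if ty = 1 then bx 1 s else min (bx 0 s) (min (bx 1 s) (bx 2 s))

/-- wall `e` of cell `(i, j)` is to be excluded for type `ty` -/
def c2rel (ty e : ℕ) (i j : ℤ) : Bool :=
  okrel (ctyp e) (-i) (-j) &&
  (if ty = 0 then !(decide (i = 0) && decide (j = 0) && decide (wroom e = 13))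
    else if ty = 1 then !(decide (i = 0) && decide (j = 0)) && decide (wroom e = 12)
    else decide (wroom e = 13))

/-- the boxes overlap -/
def c2ov (ty e : ℕ) (i j : ℤ) : Bool :=
  decide (-(bx e 1) + 2 * i < sbx ty 0) && decide (-(sbx ty 1) < bx e 0 + 2 * i) &&
  decide (-(bx e 3) + 2 * j < sbx ty 2) && decide (-(sbx ty 3) < bx e 2 + 2 * j)

def c2ok (ty e : ℕ) (t : ℤ × ℤ × Bool × Tree) : Bool :=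
  if t.2.2.1 then claimOk nomQ 1000000 (spec ty ++ [(e, t.1, t.2.1)]) [] t.2.2.2
  else claimOk nomP 20 (spec ty ++ [(e, t.1, t.2.1)]) [] t.2.2.2

def c2all (ty e : ℕ) : Bool :=
  (rg 6).all fun i => (rg 6).all fun j =>
    !(c2rel ty e i j && c2ov ty e i j) || ((c2tab.getD ty []).getD e []).any fun t =>
      decide (t.1 = i) && decide (t.2.1 = j) && c2ok ty e t

theorem c2_ok : ∀ ty < 3, ∀ e < 20, c2all ty e = true := by decide +kernel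

/-! ### Points of a wall do not cover all walls of the room -/

/-- the walls (without the closing walls) of the room of wall `e` -/
def roomWalls (e : ℕ) : List (ℕ × ℤ × ℤ) :=
  if wroom e = 12 then [(0, 0, 0), (1, 0, 0), (2, 0, 0)]
  else [(3, 0, 0), (4, 0, 0), (5, 0, 0), (6, 0, 0), (7, 0, 0), (8, 0, 0), (9, 0, 0), (10, 0, 0), (11, 0, 0)]

/-- the form `σ ↦ (σ - p) · (q - p)` -/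
def dotForm (p q : ℤ × ℤ) : Form := ⟨q.1 - p.1, q.2 - p.2, -(q.1 - p.1) * p.1 - (q.2 - p.2) * p.2⟩

theorem c5_ok : ∀ f < 20, f ≠ 2 →
    claimOk nomP 20 (roomWalls f) [(oriForm (nomP (wu f 0 0)) (nomP (wv f 0 0))).neg,
      dotForm (nomP (wu f 0 0)) (nomP (wv f 0 0)), dotForm (nomP (wv f 0 0)) (nomP (wu f 0 0))]
      (c5tab.getD f default) = true := by
  decide +kernel

end Pool.Agent.Lib.MP_6ff0c5_lc.C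
end

section

/-!
MP_6ff0c5_lc, part C: consequences of the certificates.
-/

set_option autoImplicit false

namespace Pool.Agent.Lib.MP_6ff0c5_lc.C

/-- the first drawing -/
def posP (v : Vx) : Pt := toPt (nomP v)

/-- The second drawing: the nominal positions scaled by `M` and perturbed by at most `1000`. -/
structure QPos (M : ℝ) (pos : Vx → Pt) : Prop where
  big : 1000000000 ≤ M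
  near : ∀ v : Vx, v.1 < 14 → |(pos v).1 - M * ((nomQ v).1 : ℝ)| ≤ 1000 ∧ |(pos v).2 - M * ((nomQ v).2 : ℝ)| ≤ 1000

theorem inW_lt {v : Vx} (h : inW v = true) : v.1 < 14 := by
  unfold inW at h
  simp only [Bool.and_eq_true, decide_eq_true_eq] at h
  exact h.2

theorem QPos.appr {M : ℝ} {pos : Vx → Pt} (h : QPos M pos) {s : Pt} (hs : |s.1| ≤ M * M ∧ |s.2| ≤ M * M) :
    Appr nomQ 1000000 pos s (s.1 / M, s.2 / M) :=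
  apprQ h.big le_rfl (fun v hv => h.near v (inW_lt hv)) hs

theorem QPos.st {M : ℝ} {pos : Vx → Pt} (h : QPos M pos) {p q r : Vx} (hp : inW p = true) (hq : inW q = true)
    (hr : inW r = true) (hpqr : 1000000 < iori (nomQ p) (nomQ q) (nomQ r)) : 0 < orient (pos p) (pos q) (pos r) :=
  (h.appr (s := (0, 0)) (by simp [mul_self_nonneg])).st p q r hp hq hr hpqr

/-! ### Translations -/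

theorem sh_sh (v : Vx) (a b c d : ℤ) : sh (sh v a b) c d = sh v (a + c) (b + d) := by
  unfold sh; ext <;> simp only <;> ring

theorem wu_sh (w : ℕ) (i j a b : ℤ) : sh (wu w i j) a b = wu w (i + a) (j + b) := by
  unfold wu; rw [sh_sh]

theorem wv_sh (w : ℕ) (i j a b : ℤ) : sh (wv w i j) a b = wv w (i + a) (j + b) := by
  unfold wv; rw [sh_sh]

theorem orient_sub (a b c d : Pt) : orient (a - d) (b - d) (c - d) = orient a b c := by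
  unfold orient; simp only [Prod.fst_sub, Prod.snd_sub]; ring

theorem Cov.shift {pos pos' : Vx → Pt} {I J : ℤ} {c : Pt} (h : ∀ v, pos' v = pos (sh v I J) - c) {u v : Vx} {s : Pt}
    (hc : Cov pos (sh u I J) (sh v I J) s) : Cov pos' u v (s - c) := by
  refine ⟨?_, ?_⟩
  · rw [h, h, orient_sub]; exact hc.1
  · intro w i j hw
    have h1 := hc.2 w (i + I) (j + J) hw
    simp only [h, wu_sh, wv_sh, orient_sub]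
    exact h1

/-- the translation of the first drawing -/
theorem posP_sh (v : Vx) (I J : ℤ) : posP v = posP (sh v I J) - ((200 * I : ℝ), (200 * J : ℝ)) := by
  unfold posP toPt nomP sh
  ext
  · simp only [Prod.fst_sub]; push_cast; ring
  · simp only [Prod.snd_sub]; push_cast; ring

/-- the translated second drawing -/
noncomputable def shQ (M : ℝ) (pos : Vx → Pt) (I J : ℤ) (v : Vx) : Pt :=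
  pos (sh v I J) - (M * (-214500 * I - 429000 * J : ℝ), M * (214500 * I - 868500 * J : ℝ))

theorem QPos.sh {M : ℝ} {pos : Vx → Pt} (h : QPos M pos) (I J : ℤ) : QPos M (shQ M pos I J) where
  big := h.big
  near := by
    intro v hv
    have h1 := h.near (C.sh v I J) hv
    have e1 : (shQ M pos I J v).1 - M * ((nomQ v).1 : ℝ) = (pos (C.sh v I J)).1 - M * ((nomQ (C.sh v I J)).1 : ℝ) := by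
      unfold shQ nomQ C.sh
      simp only [Prod.fst_sub]; push_cast; ring
    have e2 : (shQ M pos I J v).2 - M * ((nomQ v).2 : ℝ) = (pos (C.sh v I J)).2 - M * ((nomQ (C.sh v I J)).2 : ℝ) := by
      unfold shQ nomQ C.sh
      simp only [Prod.snd_sub]; push_cast; ring
    rw [e1, e2]
    exact h1

/-! ### Boxes -/

theorem bx_bound : ∀ e < 20, ∀ s < 4, 1 ≤ bx e s ∧ bx e s ≤ 5 := by decide +kernel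

theorem box_sound {e : ℕ} (he : e < 20) {s : Pt} (h : Cov posP (wu e 0 0) (wv e 0 0) s) :
    s.1 < 100 * (bx e 0 : ℝ) ∧ -s.1 < 100 * (bx e 1 : ℝ) ∧ s.2 < 100 * (bx e 2 : ℝ) ∧ -s.2 < 100 * (bx e 3 : ℝ) := by
  have key : ∀ k < 4, ¬ -((20 : ℤ) : ℝ) ≤ (boxForm k (bx e k)).ev s := by
    intro k hk hcon
    refine claim_sound (apprP 20 (by norm_num) s) (box_ok e he k hk) ?_ ?_
    · intro w hw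
      rw [List.mem_singleton] at hw
      subst hw
      exact h
    · intro f hf
      rw [List.mem_singleton] at hf
      subst hf
      exact hcon
  have k0 := key 0 (by norm_num)
  have k1 := key 1 (by norm_num)
  have k2 := key 2 (by norm_num)
  have k3 := key 3 (by norm_num)
  unfold boxForm Form.ev at k0 k1 k2 k3
  norm_num at k0 k1 k2 k3
  refine ⟨?_, ?_, ?_, ?_⟩ <;> linarith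

theorem box_sound' {e : ℕ} (he : e < 20) {I J : ℤ} {s : Pt} (h : Cov posP (wu e I J) (wv e I J) s) :
    s.1 - 200 * I < 100 * (bx e 0 : ℝ) ∧ -(s.1 - 200 * I) < 100 * (bx e 1 : ℝ) ∧
      s.2 - 200 * J < 100 * (bx e 2 : ℝ) ∧ -(s.2 - 200 * J) < 100 * (bx e 3 : ℝ) := by
  have h1 : Cov posP (wu e 0 0) (wv e 0 0) (s - ((200 * I : ℝ), (200 * J : ℝ))) := by
    refine Cov.shift (I := I) (J := J) (fun v => posP_sh v I J) ?_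
    rw [wu_sh, wv_sh, zero_add, zero_add]
    exact h
  exact box_sound he h1

/-! ### Vertices -/

theorem tabP_bound (k : ℕ) : -93 ≤ (tabP.getD k (0, 0)).1 ∧ (tabP.getD k (0, 0)).1 ≤ 170 ∧
    -93 ≤ (tabP.getD k (0, 0)).2 ∧ (tabP.getD k (0, 0)).2 ≤ 170 := by
  by_cases h : k < 14
  · interval_cases k <;> decide
  · rw [List.getD_eq_default _ _ (by simpa [tabP] using h)]
    norm_num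

theorem adm_lt {e : ℕ} {x : Vx} (h : adm e x = true) : x.1 < 14 := by
  unfold adm at h
  simp only [Bool.and_eq_true] at h
  by_contra hc
  have h1 : x.1 ≠ 12 := by omega
  have h2 : x.1 ≠ 13 := by omega
  have h3 : ¬ (x.1 = 2 ∨ x.1 = 3) := by omega
  have h4 : ¬ (x.1 = 4 ∨ x.1 = 5) := by omega
  have h5 := h.2
  rw [if_neg h1, if_neg h2, if_neg h3, if_neg h4, Bool.and_eq_true, decide_eq_true_eq] at h5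
  omega

/-- the static part of an approximation for `vo` -/
theorem vo_pos {nom : Vx → ℤ × ℤ} {T : ℤ} {pos : Vx → Pt} (hT : 0 ≤ T)
    (st : ∀ p q r, inW p = true → inW q = true → inW r = true → T < iori (nom p) (nom q) (nom r) →
      0 < orient (pos p) (pos q) (pos r)) {p q r : Vx} (hp : inW p = true) (hq : inW q = true) (hr : inW r = true)
    (h : T < vo nom p q r) : 0 < orient (pos p) (pos q) (pos r) := by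
  unfold vo at h
  split_ifs at h
  · omega
  · exact st p q r hp hq hr h

theorem vo_neg {nom : Vx → ℤ × ℤ} {T : ℤ} {pos : Vx → Pt} (hT : 0 ≤ T)
    (st : ∀ p q r, inW p = true → inW q = true → inW r = true → T < iori (nom p) (nom q) (nom r) →
      0 < orient (pos p) (pos q) (pos r)) {p q r : Vx} (hp : inW p = true) (hq : inW q = true) (hr : inW r = true)
    (h : vo nom p q r < -T) : orient (pos p) (pos q) (pos r) < 0 := by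
  unfold vo at h
  split_ifs at h
  · omega
  · have h1 := st q p r hq hp hr (by
      have : iori (nom q) (nom p) (nom r) = -iori (nom p) (nom q) (nom r) := by unfold iori; ring
      omega)
    unfold orient at *
    linarith

theorem ptBlk_sound {nom : Vx → ℤ × ℤ} {T : ℤ} {pos : Vx → Pt} (hT : 0 ≤ T)
    (st : ∀ p q r, inW p = true → inW q = true → inW r = true → T < iori (nom p) (nom q) (nom r) →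
      0 < orient (pos p) (pos q) (pos r)) {e : ℕ} {x : Vx} {w : ℕ} {i j : ℤ} (h : ptBlk nom T e x w i j = true)
    (hc : Cov pos (wu e 0 0) (wv e 0 0) (pos x)) : False := by
  unfold ptBlk at h
  simp only [Bool.and_eq_true, Bool.or_eq_true, decide_eq_true_eq] at h
  obtain ⟨⟨⟨⟨⟨⟨⟨⟨⟨⟨hw, hu⟩, hv⟩, hx⟩, hy⟩, hz⟩, h1⟩, h2⟩, h3⟩, h4⟩, h5⟩ := h
  rcases hc.2 w i j hw with ⟨a1, a2⟩ | ⟨a1, a2⟩ | ⟨a1, a2⟩ | ⟨a1, a2, a3⟩ | ⟨a1, a2, a3⟩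
  · rcases h2 with h2 | h2
    · have := vo_pos hT st hv hx hy h2; linarith
    · have := vo_pos hT st hv hx hz h2; linarith
  · rcases h3 with h3 | h3
    · have := vo_pos hT st hx hu hy h3; linarith
    · have := vo_pos hT st hx hu hz h3; linarith
  · rcases h1 with h1 | h1
    · have := vo_pos hT st hu hv hy h1; linarith
    · have := vo_pos hT st hu hv hz h1; linarith
  · rcases h4 with (h4 | h4) | h4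
    · have := vo_neg hT st hy hz hu h4; linarith
    · have := vo_neg hT st hy hz hv h4; linarith
    · have := vo_neg hT st hy hz hx h4; linarith
  · rcases h5 with (h5 | h5) | h5
    · have := vo_pos hT st hy hz hu h5; linarith
    · have := vo_pos hT st hy hz hv h5; linarith
    · have := vo_pos hT st hy hz hx h5; linarith

theorem stP : ∀ p q r, inW p = true → inW q = true → inW r = true → (0 : ℤ) < iori (nomP p) (nomP q) (nomP r) →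
    0 < orient (posP p) (posP q) (posP r) :=
  (apprP 0 le_rfl (0, 0)).st

/-- **C1**: no vertex of the polygon covers a wall in both drawings. -/
theorem c1_sound {M : ℝ} {pos : Vx → Pt} (hQ : QPos M pos) {e : ℕ} (he : e < 20) {x : Vx} (hadm : adm e x = true)
    (h0 : 0 < orient (posP (wu e 0 0)) (posP (wv e 0 0)) (posP x)) (hP : Cov posP (wu e 0 0) (wv e 0 0) (posP x))
    (hcQ : Cov pos (wu e 0 0) (wv e 0 0) (pos x)) : False := by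
  have hk := adm_lt hadm
  have hb := box_sound he hP
  obtain ⟨k, i, j⟩ := x
  have e1 : (posP (k, i, j)).1 = (((nomP (k, i, j)).1 : ℤ) : ℝ) := rfl
  have e2 : (posP (k, i, j)).2 = (((nomP (k, i, j)).2 : ℤ) : ℝ) := rfl
  rw [e1, e2] at hb
  obtain ⟨b1, b2, b3, b4⟩ := hb
  have b1' : (nomP (k, i, j)).1 < 100 * bx e 0 := by exact_mod_cast b1
  have b2' : -(nomP (k, i, j)).1 < 100 * bx e 1 := by exact_mod_cast b2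
  have b3' : (nomP (k, i, j)).2 < 100 * bx e 2 := by exact_mod_cast b3
  have b4' : -(nomP (k, i, j)).2 < 100 * bx e 3 := by exact_mod_cast b4
  have hin : inBox e (k, i, j) = true := by
    unfold inBox
    simp only [Bool.and_eq_true, decide_eq_true_eq]
    exact ⟨⟨⟨b1', b2'⟩, b3'⟩, b4'⟩
  have c0 := bx_bound e he 0 (by norm_num)
  have c1 := bx_bound e he 1 (by norm_num)
  have c2 := bx_bound e he 2 (by norm_num)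
  have c3 := bx_bound e he 3 (by norm_num)
  obtain ⟨t1, t2, t3, t4⟩ := tabP_bound k
  unfold nomP at b1' b2' b3' b4'
  simp only at b1' b2' b3' b4'
  have hi : i ∈ rg 4 := mem_rg (by push_cast; omega) (by push_cast; omega)
  have hj : j ∈ rg 4 := mem_rg (by push_cast; omega) (by push_cast; omega)
  have hall := c1_ok e he
  unfold c1all at hall
  rw [List.all_eq_true] at hall
  have h1 := hall i hi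
  rw [List.all_eq_true] at h1
  have h2 := h1 j hj
  rw [List.all_eq_true] at h2
  have h3 := h2 k (List.mem_range.2 hk)
  rw [hadm, hin] at h3
  simp only [Bool.and_self, Bool.not_true, Bool.false_or, List.any_eq_true, Bool.and_eq_true, decide_eq_true_eq] at h3
  obtain ⟨t, ht, htx, hok⟩ := h3
  unfold c1ok at hok
  rw [htx] at hok
  split_ifs at hok with g1 g2 g3
  · rw [decide_eq_true_eq] at hok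
    unfold posP at h0
    rw [orient_toPt] at h0
    have : (0 : ℤ) < iori (nomP (wu e 0 0)) (nomP (wv e 0 0)) (nomP (k, i, j)) := by exact_mod_cast h0
    omega
  · exact ptBlk_sound le_rfl stP hok hP
  · simp only [Bool.and_eq_true, decide_eq_true_eq] at hok
    obtain ⟨⟨⟨hu, hv⟩, hx⟩, hlt⟩ := hok
    have h5 := hQ.st hv hu hx (by
      have : iori (nomQ (wv e 0 0)) (nomQ (wu e 0 0)) (nomQ (k, i, j)) =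
        -iori (nomQ (wu e 0 0)) (nomQ (wv e 0 0)) (nomQ (k, i, j)) := by unfold iori; ring
      omega)
    have h6 := hcQ.1
    unfold orient at *
    linarith
  · exact ptBlk_sound (by norm_num) (fun p q r hp hq hr h => hQ.st hp hq hr h) hok hcQ

/-! ### Points -/

theorem spec_lt {ty : ℕ} {w : ℕ × ℤ × ℤ} (h : w ∈ spec ty) : w.1 < 20 ∧ w.2.1 = 0 ∧ w.2.2 = 0 := by
  unfold spec at h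
  split_ifs at h
  · rw [List.mem_singleton] at h; subst h; norm_num
  · rw [List.mem_singleton] at h; subst h; norm_num
  · simp only [List.mem_cons, List.not_mem_nil, or_false] at h
    rcases h with rfl | rfl | rfl <;> norm_num

theorem sbx_sound {ty : ℕ} {s : Pt} (h : ∀ w ∈ spec ty, Cov posP (wu w.1 w.2.1 w.2.2) (wv w.1 w.2.1 w.2.2) s) :
    s.1 < 100 * (sbx ty 0 : ℝ) ∧ -s.1 < 100 * (sbx ty 1 : ℝ) ∧ s.2 < 100 * (sbx ty 2 : ℝ) ∧ -s.2 < 100 * (sbx ty 3 : ℝ) := by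
  unfold sbx
  unfold spec at h
  split_ifs at h ⊢ with h0 h1
  · exact box_sound (by norm_num) (h (10, 0, 0) (List.mem_singleton.2 rfl))
  · exact box_sound (by norm_num) (h (1, 0, 0) (List.mem_singleton.2 rfl))
  · have k0 := box_sound (e := 0) (by norm_num) (h (0, 0, 0) (by simp))
    have k1 := box_sound (e := 1) (by norm_num) (h (1, 0, 0) (by simp))
    have k2 := box_sound (e := 2) (by norm_num) (h (2, 0, 0) (by simp))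
    push_cast
    refine ⟨?_, ?_, ?_, ?_⟩ <;>
      · rw [mul_min_of_nonneg _ _ (by norm_num), mul_min_of_nonneg _ _ (by norm_num), lt_min_iff, lt_min_iff]
        first
          | exact ⟨k0.1, k1.1, k2.1⟩
          | exact ⟨k0.2.1, k1.2.1, k2.2.1⟩
          | exact ⟨k0.2.2.1, k1.2.2.1, k2.2.2.1⟩
          | exact ⟨k0.2.2.2, k1.2.2.2, k2.2.2.2⟩

theorem sbx_bound (ty : ℕ) : ∀ s < 4, 1 ≤ sbx ty s ∧ sbx ty s ≤ 5 := by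
  intro s hs
  unfold sbx
  have b0 := bx_bound 0 (by norm_num) s hs
  have b1 := bx_bound 1 (by norm_num) s hs
  have b2 := bx_bound 2 (by norm_num) s hs
  have b10 := bx_bound 10 (by norm_num) s hs
  split_ifs <;> omega

/-- **C2**: no point covers (in both drawings) the special walls of type `ty` and wall `e` of cell `(i, j)`. -/
theorem c2_sound {M : ℝ} {pos : Vx → Pt} (hQ : QPos M pos) {ty e : ℕ} (hty : ty < 3) (he : e < 20) {i j : ℤ}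
    (hrel : c2rel ty e i j = true) {s t : Pt} (ht : |t.1| ≤ M * M ∧ |t.2| ≤ M * M)
    (h1 : ∀ w ∈ spec ty, Cov posP (wu w.1 w.2.1 w.2.2) (wv w.1 w.2.1 w.2.2) s)
    (h2 : ∀ w ∈ spec ty, Cov pos (wu w.1 w.2.1 w.2.2) (wv w.1 w.2.1 w.2.2) t)
    (h3 : Cov posP (wu e i j) (wv e i j) s) (h4 : Cov pos (wu e i j) (wv e i j) t) : False := by
  obtain ⟨a1, a2, a3, a4⟩ := sbx_sound h1
  obtain ⟨b1, b2, b3, b4⟩ := box_sound' he h3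
  have hov : c2ov ty e i j = true := by
    unfold c2ov
    simp only [Bool.and_eq_true, decide_eq_true_eq]
    have r1 : ((-(bx e 1) + 2 * i : ℤ) : ℝ) < ((sbx ty 0 : ℤ) : ℝ) := by push_cast; linarith
    have r2 : ((-(sbx ty 1) : ℤ) : ℝ) < ((bx e 0 + 2 * i : ℤ) : ℝ) := by push_cast; linarith
    have r3 : ((-(bx e 3) + 2 * j : ℤ) : ℝ) < ((sbx ty 2 : ℤ) : ℝ) := by push_cast; linarith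
    have r4 : ((-(sbx ty 3) : ℤ) : ℝ) < ((bx e 2 + 2 * j : ℤ) : ℝ) := by push_cast; linarith
    exact ⟨⟨⟨by exact_mod_cast r1, by exact_mod_cast r2⟩, by exact_mod_cast r3⟩, by exact_mod_cast r4⟩
  have hov' := hov
  unfold c2ov at hov'
  simp only [Bool.and_eq_true, decide_eq_true_eq] at hov'
  obtain ⟨⟨⟨o1, o2⟩, o3⟩, o4⟩ := hov'
  have c0 := bx_bound e he 0 (by norm_num)
  have c1 := bx_bound e he 1 (by norm_num)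
  have c2 := bx_bound e he 2 (by norm_num)
  have c3 := bx_bound e he 3 (by norm_num)
  have d0 := sbx_bound ty 0 (by norm_num)
  have d1 := sbx_bound ty 1 (by norm_num)
  have d2 := sbx_bound ty 2 (by norm_num)
  have d3 := sbx_bound ty 3 (by norm_num)
  have hi : i ∈ rg 6 := mem_rg (by push_cast; omega) (by push_cast; omega)
  have hj : j ∈ rg 6 := mem_rg (by push_cast; omega) (by push_cast; omega)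
  have hall := c2_ok ty hty e he
  unfold c2all at hall
  rw [List.all_eq_true] at hall
  have g1 := hall i hi
  rw [List.all_eq_true] at g1
  have g2 := g1 j hj
  rw [hrel, hov] at g2
  simp only [Bool.and_self, Bool.not_true, Bool.false_or, List.any_eq_true, Bool.and_eq_true, decide_eq_true_eq] at g2
  obtain ⟨x, -, ⟨hx1, hx2⟩, hok⟩ := g2
  unfold c2ok at hok
  rw [hx1, hx2] at hok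
  split_ifs at hok
  · refine claim_sound (hQ.appr ht) hok ?_ (by simp)
    intro w hw
    rw [List.mem_append, List.mem_singleton] at hw
    rcases hw with hw | rfl
    · exact h2 w hw
    · exact h4
  · refine claim_sound (apprP 20 (by norm_num) s) hok ?_ (by simp)
    intro w hw
    rw [List.mem_append, List.mem_singleton] at hw
    rcases hw with hw | rfl
    · exact h1 w hw
    · exact h3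

/-! ### Points of a wall -/

theorem dotForm_ev (p q : ℤ × ℤ) (σ : Pt) :
    (dotForm p q).ev σ = (σ.1 - (toPt p).1) * ((toPt q).1 - (toPt p).1) + (σ.2 - (toPt p).2) * ((toPt q).2 - (toPt p).2) := by
  unfold dotForm Form.ev toPt; push_cast; ring

/-- **C5**: a point of wall `f` does not cover all walls of the room in the first drawing. -/
theorem c5_sound {f : ℕ} (hf : f < 20) {s : Pt} (hs : s ∈ openSegment ℝ (posP (wu f 0 0)) (posP (wv f 0 0)))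
    (h : ∀ w ∈ roomWalls f, Cov posP (wu w.1 w.2.1 w.2.2) (wv w.1 w.2.1 w.2.2) s) : False := by
  obtain ⟨a, b, ha, hb, hab, rfl⟩ := hs
  by_cases hf2 : f = 2
  · subst hf2
    have h0 := (h (0, 0, 0) (by unfold roomWalls wroom; norm_num)).2 3 0 0 (by norm_num)
    have ea : a = 1 - b := by linarith
    subst ea
    have e1 : posP (wu 2 0 0) = (170, -93) := by unfold posP toPt; ext <;> norm_num [wu, wallTab, sh, nomP, tabP]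
    have e2 : posP (wv 2 0 0) = (6, 4) := by unfold posP toPt; ext <;> norm_num [wv, wallTab, sh, nomP, tabP]
    have e3 : posP (wu 0 0 0) = (46, 55) := by unfold posP toPt; ext <;> norm_num [wu, wallTab, sh, nomP, tabP]
    have e4 : posP (wv 0 0 0) = (53, 73) := by unfold posP toPt; ext <;> norm_num [wv, wallTab, sh, nomP, tabP]
    have e5 : posP (wu 3 0 0) = (6, 4) := by unfold posP toPt; ext <;> norm_num [wu, wallTab, sh, nomP, tabP]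
    have e6 : posP (wv 3 0 0) = (100, 94) := by unfold posP toPt; ext <;> norm_num [wv, wallTab, sh, nomP, tabP]
    simp only [e1, e2, e3, e4, e5, e6] at h0
    unfold orient at h0
    simp only [Prod.smul_mk, Prod.mk_add_mk, smul_eq_mul] at h0
    rcases h0 with ⟨h1, h2⟩ | ⟨h1, h2⟩ | ⟨h1, h2⟩ | ⟨h1, h2, h3⟩ | ⟨h1, h2, h3⟩ <;> nlinarith
  · refine claim_sound (apprP 20 (by norm_num) _) (c5_ok f hf hf2) h ?_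
    have hdist : ∀ p q : Pt, 0 ≤ (q.1 - p.1) ^ 2 + (q.2 - p.2) ^ 2 := fun p q => by positivity
    intro g hg
    simp only [List.mem_cons, List.not_mem_nil, or_false] at hg
    rcases hg with rfl | rfl | rfl
    · rw [Form.neg_ev, oriForm_ev]
      have : orient (toPt (nomP (wu f 0 0))) (toPt (nomP (wv f 0 0))) (a • posP (wu f 0 0) + b • posP (wv f 0 0)) = 0 := by
        have ea : a = 1 - b := by linarith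
        subst ea
        unfold orient posP
        simp only [Prod.fst_add, Prod.snd_add, Prod.smul_fst, Prod.smul_snd, smul_eq_mul]
        ring
      rw [this]; norm_num
    · rw [dotForm_ev]
      have ea : a = 1 - b := by linarith
      have : ((a • posP (wu f 0 0) + b • posP (wv f 0 0)).1 - (toPt (nomP (wu f 0 0))).1) *
          ((toPt (nomP (wv f 0 0))).1 - (toPt (nomP (wu f 0 0))).1) +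
          ((a • posP (wu f 0 0) + b • posP (wv f 0 0)).2 - (toPt (nomP (wu f 0 0))).2) *
          ((toPt (nomP (wv f 0 0))).2 - (toPt (nomP (wu f 0 0))).2) =
          b * (((toPt (nomP (wv f 0 0))).1 - (toPt (nomP (wu f 0 0))).1) ^ 2 +
            ((toPt (nomP (wv f 0 0))).2 - (toPt (nomP (wu f 0 0))).2) ^ 2) := by
        subst ea
        unfold posP
        simp only [Prod.fst_add, Prod.snd_add, Prod.smul_fst, Prod.smul_snd, smul_eq_mul]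
        ring
      rw [this]
      have := mul_nonneg hb.le (hdist (toPt (nomP (wu f 0 0))) (toPt (nomP (wv f 0 0))))
      push_cast
      linarith
    · rw [dotForm_ev]
      have eb : b = 1 - a := by linarith
      have : ((a • posP (wu f 0 0) + b • posP (wv f 0 0)).1 - (toPt (nomP (wv f 0 0))).1) *
          ((toPt (nomP (wu f 0 0))).1 - (toPt (nomP (wv f 0 0))).1) +
          ((a • posP (wu f 0 0) + b • posP (wv f 0 0)).2 - (toPt (nomP (wv f 0 0))).2) *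
          ((toPt (nomP (wu f 0 0))).2 - (toPt (nomP (wv f 0 0))).2) =
          a * (((toPt (nomP (wu f 0 0))).1 - (toPt (nomP (wv f 0 0))).1) ^ 2 +
            ((toPt (nomP (wu f 0 0))).2 - (toPt (nomP (wv f 0 0))).2) ^ 2) := by
        subst eb
        unfold posP
        simp only [Prod.fst_add, Prod.snd_add, Prod.smul_fst, Prod.smul_snd, smul_eq_mul]
        ring
      rw [this]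
      have := mul_nonneg ha.le (hdist (toPt (nomP (wv f 0 0))) (toPt (nomP (wu f 0 0))))
      push_cast
      linarith

end Pool.Agent.Lib.MP_6ff0c5_lc.C
end

section

/-!
MP_6ff0c5_lc, part C: the patch of cells `1 ≤ i ≤ n1`, `1 ≤ j ≤ n2`, the positions in the second drawing for a network, and
the conditions on the centres.
-/

set_option autoImplicit false

namespace Pool.Agent.Lib.MP_6ff0c5_lc.C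

open N (Net BT)
open Filter Topology

/-- The displacements in the second drawing. Cell `(i, j)` has the network coordinates `x = i + j`, `y = j`. -/
def dispQ (N : Net) (v : Vx) : ℤ × ℤ :=
  if v.1 = 6 then (if N.bt (v.2.1 + v.2.2) v.2.2 = .cup ∨ N.bt (v.2.1 + v.2.2) v.2.2 = .free then (0, 1) else (0, 0))
  else if v.1 = 8 then (if N.bt (v.2.1 + v.2.2) v.2.2 = .cup then (0, 0) else (-1, 0))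
  else if v.1 = 10 then (if N.bt (v.2.1 + v.2.2) v.2.2 = .pin2 then (0, 0) else (-1, 0))
  else if v.1 = 7 then (if N.bt (v.2.1 + v.2.2) v.2.2 = .pin13 then (0, 0) else (1, 0))
  else if v.1 = 2 then (if N.act (v.2.1 + v.2.2) v.2.2 = true then (0, 0) else (0, 1))
  else if v.1 = 5 then (if N.act (v.2.1 + v.2.2) v.2.2 = true then (0, 0) else (1, 0))
  else (0, 0)

/-- integer positions in the second drawing -/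
def iposQ (M : ℤ) (N : Net) (v : Vx) : ℤ × ℤ :=
  (M * (nomQ v).1 + (dispQ N v).1, M * (nomQ v).2 + (dispQ N v).2)

/-- positions in the second drawing -/
def posQ (M : ℤ) (N : Net) (v : Vx) : Pt := toPt (iposQ M N v)

theorem dispQ_bound (N : Net) (v : Vx) : |(dispQ N v).1| ≤ 1 ∧ |(dispQ N v).2| ≤ 1 := by
  unfold dispQ
  split_ifs <;> simp

theorem qpos (M : ℤ) (hM : 1000000000 ≤ M) (N : Net) : QPos (M : ℝ) (posQ M N) where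
  big := by exact_mod_cast hM
  near := by
    intro v _
    have h := dispQ_bound N v
    have e1 : (posQ M N v).1 - (M : ℝ) * ((nomQ v).1 : ℝ) = ((dispQ N v).1 : ℝ) := by
      unfold posQ iposQ toPt; push_cast; ring
    have e2 : (posQ M N v).2 - (M : ℝ) * ((nomQ v).2 : ℝ) = ((dispQ N v).2 : ℝ) := by
      unfold posQ iposQ toPt; push_cast; ring
    rw [e1, e2]
    have h1 : |((dispQ N v).1 : ℝ)| ≤ 1 := by exact_mod_cast h.1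
    have h2 : |((dispQ N v).2 : ℝ)| ≤ 1 := by exact_mod_cast h.2
    exact ⟨h1.trans (by norm_num), h2.trans (by norm_num)⟩

/-- The wall `w` of cell `(i, j)` is present in the patch (12, 13 close door 2 of the A rooms at `i = 1`; 14, 15 door 3 of
the A rooms at `j = 1`; 16, 17 door 2 of the B rooms at `i = n1`; 18, 19 door 3 of the B rooms at `j = n2`). -/
def WP (n1 n2 w : ℕ) (i j : ℤ) : Prop :=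
  w < 20 ∧ 1 ≤ i ∧ i ≤ n1 ∧ 1 ≤ j ∧ j ≤ n2 ∧ (w = 12 ∨ w = 13 → i = 1) ∧ (w = 14 ∨ w = 15 → j = 1) ∧
    (w = 16 ∨ w = 17 → i = n1) ∧ (w = 18 ∨ w = 19 → j = n2)

/-- The vertex is a vertex of the polygons. -/
def Pres (n1 n2 : ℕ) (x : Vx) : Prop :=
  if x.1 = 12 then (x.2.1 = n1 + 1 ∧ 1 ≤ x.2.2 ∧ x.2.2 ≤ n2) ∨ (x.2.2 = n2 + 1 ∧ 1 ≤ x.2.1 ∧ x.2.1 ≤ n1)
  else if x.1 = 13 then (x.2.1 = 0 ∧ 1 ≤ x.2.2 ∧ x.2.2 ≤ n2) ∨ (x.2.2 = 0 ∧ 1 ≤ x.2.1 ∧ x.2.1 ≤ n1)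
  else if x.1 = 2 ∨ x.1 = 3 then 1 ≤ x.2.1 ∧ x.2.1 ≤ n1 + 1 ∧ 1 ≤ x.2.2 ∧ x.2.2 ≤ n2
  else if x.1 = 4 ∨ x.1 = 5 then 1 ≤ x.2.1 ∧ x.2.1 ≤ n1 ∧ 1 ≤ x.2.2 ∧ x.2.2 ≤ n2 + 1
  else x.1 < 12 ∧ 1 ≤ x.2.1 ∧ x.2.1 ≤ n1 ∧ 1 ≤ x.2.2 ∧ x.2.2 ≤ n2

/-- the number of open doors of the patch -/
def nd (n1 n2 : ℕ) : ℕ := n1 * n2 + (n1 - 1) * n2 + n1 * (n2 - 1)

/-- **The facts about the two polygons of a patch that the soundness proof needs** (`num` numbers the vertices, `pos` are the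
positions in the second drawing). -/
structure Patch (n1 n2 : ℕ) (P Q : Poly) (num : Vx → ℕ) (M : ℝ) (pos : Vx → Pt) : Prop where
  h1 : 1 ≤ n1
  h2 : 1 ≤ n2
  inj : ∀ x y, Pres n1 n2 x → Pres n1 n2 y → num x = num y → x = y
  lt : ∀ x, Pres n1 n2 x → num x < P.n
  surj : ∀ v < P.n, ∃ x, Pres n1 n2 x ∧ num x = v
  wall : ∀ u v, K.IsWall P u v ↔ ∃ w i j, WP n1 n2 w i j ∧ u = num (wu w i j) ∧ v = num (wv w i j)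
  ePos : ∀ x, Pres n1 n2 x → P.pos (num x) = posP x
  eQ : ∀ x, Pres n1 n2 x → Q.pos (num x) = pos x
  qpos : QPos M pos
  big : 1000000000 * ((n1 : ℝ) + n2 + 2) ≤ M
  bndQ : ∀ x ∈ Q.region, |x.1| ≤ 1500000 * ((n1 : ℝ) + n2 + 2) * M ∧ |x.2| ≤ 1500000 * ((n1 : ℝ) + n2 + 2) * M
  outP : ∀ w i j, w < 12 → ∀ x ∈ segment ℝ (posP (wu w i j)) (posP (wv w i j)), x ∉ interior P.region
  outQ : ∀ w i j, w < 12 → ∀ x ∈ segment ℝ (pos (wu w i j)) (pos (wv w i j)), x ∉ interior Q.region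
  leftP : ∀ w i j, WP n1 n2 w i j → ∀ x ∈ openSegment ℝ (posP (wu w i j)) (posP (wv w i j)),
    ∀ᶠ y in 𝓝 x, 0 < orient (posP (wu w i j)) (posP (wv w i j)) y → y ∈ P.region
  leftQ : ∀ w i j, WP n1 n2 w i j → ∀ x ∈ openSegment ℝ (pos (wu w i j)) (pos (wv w i j)),
    ∀ᶠ y in 𝓝 x, 0 < orient (pos (wu w i j)) (pos (wv w i j)) y → y ∈ Q.region

/-- **The conditions on the centres**: all triangles of the nominal triangulation are positively oriented in the second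
drawing, if the centres of the rooms are placed at `A i j`, `B i j`. -/
structure TPos (n1 n2 : ℕ) (pos : Vx → Pt) (A B : ℤ → ℤ → Pt) : Prop where
  wA : ∀ w i j, WP n1 n2 w i j → wroom w = 12 → 0 < orient (pos (wu w i j)) (pos (wv w i j)) (A i j)
  wB : ∀ w i j, WP n1 n2 w i j → wroom w = 13 → 0 < orient (pos (wu w i j)) (pos (wv w i j)) (B i j)
  d1R : ∀ i j : ℤ, 1 ≤ i → i ≤ n1 → 1 ≤ j → j ≤ n2 → 0 < orient (A i j) (pos (1, i, j)) (B i j)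
  d1L : ∀ i j : ℤ, 1 ≤ i → i ≤ n1 → 1 ≤ j → j ≤ n2 → 0 < orient (A i j) (B i j) (pos (0, i, j))
  d2R : ∀ i j : ℤ, 2 ≤ i → i ≤ n1 → 1 ≤ j → j ≤ n2 → 0 < orient (A i j) (pos (3, i, j)) (B (i - 1) j)
  d2L : ∀ i j : ℤ, 2 ≤ i → i ≤ n1 → 1 ≤ j → j ≤ n2 → 0 < orient (A i j) (B (i - 1) j) (pos (2, i, j))
  d3R : ∀ i j : ℤ, 1 ≤ i → i ≤ n1 → 2 ≤ j → j ≤ n2 → 0 < orient (A i j) (pos (5, i, j)) (B i (j - 1))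
  d3L : ∀ i j : ℤ, 1 ≤ i → i ≤ n1 → 2 ≤ j → j ≤ n2 → 0 < orient (A i j) (B i (j - 1)) (pos (4, i, j))

end Pool.Agent.Lib.MP_6ff0c5_lc.C
end
end
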