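import Pool.Agent.Lib.MP_6ff0c5_lc.C.Tab
import Pool.Agent.Lib.MP_6ff0c5_lc.C.Pos
import Pool.Agent.Lib.MP_6ff0c5_lc.K.Hull
import Pool.Agent.Lib.MP_6ff0c5_lc.Net.Cmp.Final

section

/-!
The layout: a patch of `m = a + 1` times `n = b + 1` cells `(i, j)`, `1 ≤ i ≤ m`, `1 ≤ j ≤ n`, of the periodic pattern.
The outer polygon and the holes as lists of labels, and the chain of the walls.
-/

set_option autoImplicit false

namespace Pool.Agent.Lib.MP_6ff0c5_lc.C

open Pool.Agent.Lib.MP_6ff0c5_lc.K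

/-! ### The lists -/

def botTab : List Vx := [(2, 0, 0), (5, 0, 0), (13, 0, -1), (4, 0, 0), (1, 0, 0), (6, 0, 0), (7, 0, 0), (11, 0, 0)]
def brTab : List Vx := [(2, 0, 0), (12, 0, 0), (3, 0, 0)]
def rightTab : List Vx := [(4, 0, 0), (1, 0, 0), (6, 0, 0), (7, 0, 0), (11, 0, 0), (2, 1, 0), (12, 1, 0), (3, 1, 0)]
def trTab : List Vx := [(4, 0, 0)]
def topTab : List Vx :=
  [(12, 0, 0), (5, 0, 0), (8, 0, -1), (9, 0, -1), (10, 0, -1), (0, 0, -1), (3, 0, -1), (4, -1, 0)]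
def tlTab : List Vx :=
  [(12, 0, 0), (5, 0, 0), (8, 0, -1), (9, 0, -1), (10, 0, -1), (0, 0, -1), (3, 0, -1), (13, -1, -1)]
def leftTab : List Vx :=
  [(2, 0, 0), (5, 0, 0), (8, 0, -1), (9, 0, -1), (10, 0, -1), (0, 0, -1), (3, 0, -1), (13, -1, -1)]
def holeTab : List Vx :=
  [(3, 0, 0), (0, 0, 0), (10, 0, 0), (9, 0, 0), (8, 0, 0), (5, 0, 1), (2, 0, 1), (11, -1, 1), (7, -1, 1), (6, -1, 1),
    (1, -1, 1), (4, -1, 1)]

/-- the outer polygon, counterclockwise -/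
def outerL (a b : ℕ) : List Vx :=
  (List.range (a + 1)).flatMap (fun t : ℕ => blk botTab ((t : ℤ) + 1) 1) ++
  (blk brTab (a + 2) 1 ++
  ((List.range b).flatMap (fun t : ℕ => blk rightTab (a + 1) ((t : ℤ) + 2)) ++
  (blk trTab (a + 1) (b + 2) ++
  ((List.range a).flatMap (fun t : ℕ => blk topTab ((a : ℤ) + 1 - t) (b + 2)) ++
  (blk tlTab 1 (b + 2) ++
  (List.range b).flatMap (fun t : ℕ => blk leftTab 1 ((b : ℤ) + 1 - t)))))))

/-- the indices of the holes -/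
def holeIdx (a b : ℕ) : List (ℤ × ℤ) :=
  (List.range a).flatMap fun i : ℕ => (List.range b).map fun j : ℕ => ((i : ℤ) + 2, (j : ℤ) + 1)

/-- the holes, counterclockwise -/
def holesL (a b : ℕ) : List (List Vx) := (holeIdx a b).map fun h => blk holeTab h.1 h.2

/-! ### The walls -/

def g1 : List (Vx × Vx) := [((0, 0, 0), (3, 0, 0))]
def g2 : List (Vx × Vx) :=
  [((5, 0, 1), (8, 0, 0)), ((8, 0, 0), (9, 0, 0)), ((9, 0, 0), (10, 0, 0)), ((10, 0, 0), (0, 0, 0))]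
def g3 : List (Vx × Vx) := [((2, 0, 0), (5, 0, 0))]
def g4 : List (Vx × Vx) :=
  [((1, 0, 0), (6, 0, 0)), ((6, 0, 0), (7, 0, 0)), ((7, 0, 0), (11, 0, 0)), ((11, 0, 0), (2, 1, 0))]
def g5 : List (Vx × Vx) := [((4, 0, 0), (1, 0, 0))]
def g6 : List (Vx × Vx) := [((3, 1, 0), (4, 0, 1))]

/-- the walls of the rooms of a cell, without the closing walls -/
def wallsE : List (Vx × Vx) := wallTab.take 12
/-- closing walls at the doors 2 of the `A` rooms with `i = 1` -/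
def c2 : List (Vx × Vx) := [((3, 0, 0), (13, -1, 0)), ((13, -1, 0), (2, 0, 0))]
/-- closing walls at the doors 3 of the `A` rooms with `j = 1` -/
def c3 : List (Vx × Vx) := [((5, 0, 0), (13, 0, -1)), ((13, 0, -1), (4, 0, 0))]
/-- closing walls at the doors 2 of the `B` rooms with `i = m` -/
def d2 : List (Vx × Vx) := [((2, 1, 0), (12, 1, 0)), ((12, 1, 0), (3, 1, 0))]
/-- closing walls at the doors 3 of the `B` rooms with `j = n` -/
def d3 : List (Vx × Vx) := [((4, 0, 1), (12, 0, 1)), ((12, 0, 1), (5, 0, 1))]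
/-- the first and the second edge of `d3`, relative to the cell above -/
def d31 : List (Vx × Vx) := [((4, 0, 0), (12, 0, 0))]
def d32 : List (Vx × Vx) := [((12, 0, 0), (5, 0, 0))]

/-- the double sum -/
def dsum (g : ℤ → ℤ → ℤ) (m n : ℕ) : ℤ := ∑ i ∈ Finset.range m, ∑ j ∈ Finset.range n, g (i + 1) (j + 1)

/-- the chain of all walls -/
def wallSum (f : Vx → Vx → ℤ) (a b : ℕ) : ℤ :=
  dsum (S f wallsE) (a + 1) (b + 1) + ∑ j ∈ Finset.range (b + 1), S f c2 1 (j + 1) +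
    ∑ i ∈ Finset.range (a + 1), S f c3 (i + 1) 1 + ∑ j ∈ Finset.range (b + 1), S f d2 (a + 1) (j + 1) +
    ∑ i ∈ Finset.range (a + 1), S f d3 (i + 1) (b + 1)

variable {f : Vx → Vx → ℤ}

theorem dsum_add (g h : ℤ → ℤ → ℤ) (m n : ℕ) : dsum (fun i j => g i j + h i j) m n = dsum g m n + dsum h m n := by
  unfold dsum
  simp only [Finset.sum_add_distrib]

/-- the sum over all cells and the sum over the cells `(i, j)` with `i ≥ 2`, `j ≤ n - 1` -/
theorem dsum12 (g : ℤ → ℤ → ℤ) (a b : ℕ) : dsum g (a + 1) (b + 1) =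
    ∑ i ∈ Finset.range a, ∑ j ∈ Finset.range b, g (i + 2) (j + 1) + ∑ j ∈ Finset.range (b + 1), g 1 (j + 1) +
      ∑ i ∈ Finset.range a, g (i + 2) (b + 1) := by
  unfold dsum
  rw [Finset.sum_range_succ']
  simp only [Finset.sum_range_succ _ b, Nat.cast_add, Nat.cast_one, Nat.cast_zero, zero_add, Finset.sum_add_distrib]
  have : ∀ x : ℕ, ((x : ℤ) + 1 + 1) = x + 2 := fun x => by ring
  simp only [this]
  ring

/-- the sum over all cells and the sum over the cells `(i, j)` with `i ≥ 2`, `j ≥ 2` -/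
theorem dsum3 (g : ℤ → ℤ → ℤ) (a b : ℕ) : dsum g (a + 1) (b + 1) =
    ∑ i ∈ Finset.range a, ∑ j ∈ Finset.range b, g (i + 2) (j + 2) + ∑ j ∈ Finset.range (b + 1), g 1 (j + 1) +
      ∑ i ∈ Finset.range a, g (i + 2) 1 := by
  unfold dsum
  rw [Finset.sum_range_succ']
  have h : ∀ i : ℕ, ∑ j ∈ Finset.range (b + 1), g ((i + 1 : ℕ) + 1) (j + 1) =
      ∑ j ∈ Finset.range b, g (i + 2) (j + 2) + g (i + 2) 1 := by
    intro i
    rw [Finset.sum_range_succ']
    simp only [Nat.cast_add, Nat.cast_one, Nat.cast_zero, zero_add]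
    have : ∀ x : ℕ, ((x : ℤ) + 1 + 1) = x + 2 := fun x => by ring
    simp only [this]
  rw [Finset.sum_congr rfl fun i _ => h i, Finset.sum_add_distrib]
  simp only [Nat.cast_zero, zero_add]
  ring

/-- the sum over all cells and the sum over the cells `(i, j)` with `i ≤ m - 1`, `j ≥ 2` -/
theorem dsum45 (g : ℤ → ℤ → ℤ) (a b : ℕ) : dsum g (a + 1) (b + 1) =
    ∑ i ∈ Finset.range a, ∑ j ∈ Finset.range b, g (i + 1) (j + 2) + ∑ j ∈ Finset.range (b + 1), g (a + 1) (j + 1) +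
      ∑ i ∈ Finset.range a, g (i + 1) 1 := by
  unfold dsum
  rw [Finset.sum_range_succ]
  have h : ∀ i : ℕ, ∑ j ∈ Finset.range (b + 1), g ((i : ℕ) + 1) (j + 1) =
      ∑ j ∈ Finset.range b, g (i + 1) (j + 2) + g (i + 1) 1 := by
    intro i
    rw [Finset.sum_range_succ']
    simp only [Nat.cast_add, Nat.cast_one, Nat.cast_zero, zero_add]
    have : ∀ x : ℕ, ((x : ℤ) + 1 + 1) = x + 2 := fun x => by ring
    simp only [this]
  rw [Finset.sum_congr rfl fun i _ => h i, Finset.sum_add_distrib]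
  ring

/-- the sum over all cells and the sum over the cells `(i, j)` with `i ≤ m - 1`, `j ≤ n - 1` -/
theorem dsum6 (g : ℤ → ℤ → ℤ) (a b : ℕ) : dsum g (a + 1) (b + 1) =
    ∑ i ∈ Finset.range a, ∑ j ∈ Finset.range b, g (i + 1) (j + 1) + ∑ j ∈ Finset.range (b + 1), g (a + 1) (j + 1) +
      ∑ i ∈ Finset.range a, g (i + 1) (b + 1) := by
  unfold dsum
  rw [Finset.sum_range_succ]
  simp only [Finset.sum_range_succ _ b, Finset.sum_add_distrib]
  ring

theorem sum_reflect (g : ℤ → ℤ) (a : ℕ) : ∑ t ∈ Finset.range a, g (a - t) = ∑ t ∈ Finset.range a, g (t + 1) := by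
  rw [← Finset.sum_range_reflect]
  refine Finset.sum_congr rfl fun t ht => ?_
  rw [Finset.mem_range] at ht
  congr 1
  rw [Nat.cast_sub (by omega), Nat.cast_sub (by omega)]
  push_cast
  ring

/-! ### The outer polygon -/

theorem blk_cons (v : Vx) (l : List Vx) (i j : ℤ) : blk (v :: l) i j = sh v i j :: blk l i j := rfl

theorem blk_append (l l' : List Vx) (i j : ℤ) : blk (l ++ l') i j = blk l i j ++ blk l' i j := by
  unfold blk; rw [List.map_append]

/-- the list `l` begins with `x`, and the sum along it is `s` -/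
def Pc (f : Vx → Vx → ℤ) (l : List Vx) (x : Vx) (s : ℤ) : Prop := (∃ r, l = x :: r) ∧ ps f l = s

theorem Pc.block {l : List Vx} {x : Vx} {s : ℤ} (h : Pc f l x s) (v w : Vx) (tab : List Vx) (i j : ℤ)
    (hx : x = sh w i j) : Pc f (blk (v :: tab) i j ++ l) (sh v i j) (S f (pE (v :: tab ++ [w])) i j + s) := by
  obtain ⟨⟨r, rfl⟩, h2⟩ := h
  refine ⟨⟨_, rfl⟩, ?_⟩
  rw [ps_append, h2, ← ps_blk, blk_append, hx]
  rfl

theorem Pc.blocks {l : List Vx} {z : Vx} {s : ℤ} (h : Pc f l z s) (v w : Vx) (tab : List Vx) (x y : ℕ → ℤ) (k : ℕ)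
    (hz : z = sh v (x k) (y k)) (hw : ∀ t, sh w (x t) (y t) = sh v (x (t + 1)) (y (t + 1))) :
    Pc f ((List.range k).flatMap (fun t : ℕ => blk (v :: tab) (x t) (y t)) ++ l) (sh v (x 0) (y 0))
      (∑ t ∈ Finset.range k, S f (pE (v :: tab ++ [w])) (x t) (y t) + s) := by
  obtain ⟨⟨r, rfl⟩, h2⟩ := h
  refine ⟨?_, ?_⟩
  · cases k with
    | zero => exact ⟨r, by rw [hz]; rfl⟩
    | succ k =>
      rw [List.range_succ_eq_map, List.flatMap_cons]
      exact ⟨_, rfl⟩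
  · subst hz
    rw [← h2]
    have h3 := ps_flatMap f (fun t => blk (v :: tab) (x t) (y t)) (fun t => blk tab (x t) (y t))
      (fun t => sh v (x t) (y t)) (fun t => rfl) k r
    rw [h3]
    congr 1
    refine Finset.sum_congr rfl fun t _ => ?_
    rw [← ps_blk, ← hw t, blk_append]
    rfl

theorem cs_eq_of_Pc {l : List Vx} {x : Vx} {s : ℤ} (h : Pc f (l ++ [x]) x s) : cs f l = s := by
  obtain ⟨⟨r, h1⟩, h2⟩ := h
  cases l with
  | nil =>
    rw [← h2]; simp [cs, ps]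
  | cons a l =>
    have : a = x := by
      rw [List.cons_append] at h1
      exact (List.cons.inj h1).1
    subst this
    exact h2

theorem cs_outer (f : Vx → Vx → ℤ) (a b : ℕ) : cs f (outerL a b) =
    ∑ t ∈ Finset.range (a + 1), S f (pE (botTab ++ [(2, 1, 0)])) (t + 1) 1 +
    (S f (pE (brTab ++ [(4, -1, 1)])) (a + 2) 1 +
    (∑ t ∈ Finset.range b, S f (pE (rightTab ++ [(4, 0, 1)])) (a + 1) (t + 2) +
    (S f (pE (trTab ++ [(12, 0, 0)])) (a + 1) (b + 2) +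
    (∑ t ∈ Finset.range a, S f (pE (topTab ++ [(12, -1, 0)])) (a + 1 - t) (b + 2) +
    (S f (pE (tlTab ++ [(2, 0, -1)])) 1 (b + 2) +
    (∑ t ∈ Finset.range b, S f (pE (leftTab ++ [(2, 0, -1)])) 1 (b + 1 - t) + 0)))))) := by
  have h0 : Pc f [sh (2, 0, 0) 1 1] (sh (2, 0, 0) 1 1) 0 := ⟨⟨[], rfl⟩, rfl⟩
  have h7 := h0.blocks (2, 0, 0) (2, 0, -1) leftTab.tail (fun _ => (1 : ℤ)) (fun t => (b + 1 - t : ℤ)) b
    (by simp [sh]) (by intro t; simp only [sh]; push_cast; ext <;> simp only <;> ring)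
  have h6 := h7.block (12, 0, 0) (2, 0, -1) tlTab.tail 1 (b + 2) (by simp [sh]; ring)
  have h5 := h6.blocks (12, 0, 0) (12, -1, 0) topTab.tail (fun t => (a + 1 - t : ℤ)) (fun _ => (b + 2 : ℤ)) a
    (by simp [sh]) (by intro t; simp only [sh]; push_cast; ext <;> simp only <;> ring)
  have h4 := h5.block (4, 0, 0) (12, 0, 0) trTab.tail (a + 1) (b + 2) (by simp [sh])
  have h3 := h4.blocks (4, 0, 0) (4, 0, 1) rightTab.tail (fun _ => (a + 1 : ℤ)) (fun t => (t + 2 : ℤ)) b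
    (by simp [sh]) (by intro t; simp only [sh]; push_cast; ext <;> simp only <;> ring)
  have h2 := h3.block (2, 0, 0) (4, -1, 1) brTab.tail (a + 2) 1 (by simp [sh]; ring)
  have h1 := h2.blocks (2, 0, 0) (2, 1, 0) botTab.tail (fun t => (t + 1 : ℤ)) (fun _ => (1 : ℤ)) (a + 1)
    (by simp [sh]; ring) (by intro t; simp only [sh]; push_cast; ext <;> simp only <;> ring)
  have e1 : sh (2, 0, 0) ((fun t : ℕ => (t + 1 : ℤ)) 0) ((fun _ : ℕ => (1 : ℤ)) 0) = sh (2, 0, 0) 1 1 := by simp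
  rw [e1] at h1
  refine cs_eq_of_Pc (x := sh (2, 0, 0) 1 1) ?_
  unfold outerL
  simp only [List.append_assoc]
  exact h1

/-! ### The chain of the walls is the boundary -/

theorem walls_comb (G1 G2 G3 G4 G5 G6 C2 C3 D2 D31 D32 : ℤ → ℤ → ℤ) (a b : ℕ) :
    dsum (fun i j => G1 i j + G2 i j + G3 i j + G4 i j + G5 i j + G6 i j) (a + 1) (b + 1) +
      ∑ j ∈ Finset.range (b + 1), C2 1 (j + 1) + ∑ i ∈ Finset.range (a + 1), C3 (i + 1) 1 +
      ∑ j ∈ Finset.range (b + 1), D2 (a + 1) (j + 1) +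
      ∑ i ∈ Finset.range (a + 1), (D31 (i + 1) (b + 2) + D32 (i + 1) (b + 2)) =
    (∑ t ∈ Finset.range (a + 1), (G3 (t + 1) 1 + C3 (t + 1) 1 + G5 (t + 1) 1 + G4 (t + 1) 1) +
    (D2 (a + 1) 1 + G6 (a + 1) 1 +
    (∑ t ∈ Finset.range b, (G5 (a + 1) (t + 2) + G4 (a + 1) (t + 2) + D2 (a + 1) (t + 2) + G6 (a + 1) (t + 2)) +
    (D31 (a + 1) (b + 2) +
    (∑ t ∈ Finset.range a, (D32 (a + 1 - t) (b + 2) + G2 (a + 1 - t) (b + 1) + G1 (a + 1 - t) (b + 1) +
      G6 (a - t) (b + 1) + D31 (a - t) (b + 2)) +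
    (D32 1 (b + 2) + G2 1 (b + 1) + G1 1 (b + 1) + C2 1 (b + 1) +
    (∑ t ∈ Finset.range b, (G3 1 (b + 1 - t) + G2 1 (b - t) + G1 1 (b - t) + C2 1 (b - t)) + 0))))))) -
    ∑ i ∈ Finset.range a, ∑ j ∈ Finset.range b, -(G1 (i + 2) (j + 1) + G2 (i + 2) (j + 1) + G3 (i + 2) (j + 2) +
      G4 (i + 1) (j + 2) + G5 (i + 1) (j + 2) + G6 (i + 1) (j + 1)) := by
  have r1 : ∀ G : ℤ → ℤ → ℤ, ∑ t ∈ Finset.range a, G (a + 1 - t) (b + 2) = ∑ t ∈ Finset.range a, G (t + 2) (b + 2) := by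
    intro G
    have := sum_reflect (fun x => G (x + 1) (b + 2)) a
    have e1 : ∀ t : ℕ, ((a : ℤ) - t + 1) = a + 1 - t := fun t => by ring
    have e2 : ∀ t : ℕ, ((t : ℤ) + 1 + 1) = t + 2 := fun t => by ring
    simpa only [e1, e2] using this
  have r2 : ∀ G : ℤ → ℤ → ℤ, ∑ t ∈ Finset.range a, G (a + 1 - t) (b + 1) = ∑ t ∈ Finset.range a, G (t + 2) (b + 1) := by
    intro G
    have := sum_reflect (fun x => G (x + 1) (b + 1)) a
    have e1 : ∀ t : ℕ, ((a : ℤ) - t + 1) = a + 1 - t := fun t => by ring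
    have e2 : ∀ t : ℕ, ((t : ℤ) + 1 + 1) = t + 2 := fun t => by ring
    simpa only [e1, e2] using this
  have r3 := sum_reflect (fun x => G6 x (b + 1)) a
  have r4 := sum_reflect (fun x => D31 x (b + 2)) a
  have r5 : ∑ t ∈ Finset.range b, G3 1 (b + 1 - t) = ∑ t ∈ Finset.range b, G3 1 (t + 2) := by
    have := sum_reflect (fun x => G3 1 (x + 1)) b
    have e1 : ∀ t : ℕ, ((b : ℤ) - t + 1) = b + 1 - t := fun t => by ring
    have e2 : ∀ t : ℕ, ((t : ℤ) + 1 + 1) = t + 2 := fun t => by ring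
    simpa only [e1, e2] using this
  have r6 := sum_reflect (fun x => G2 1 x) b
  have r7 := sum_reflect (fun x => G1 1 x) b
  have r8 := sum_reflect (fun x => C2 1 x) b
  have s1 : ∀ G : ℤ → ℤ, ∑ j ∈ Finset.range (b + 1), G (j + 1) = ∑ j ∈ Finset.range b, G (j + 1) + G (b + 1) := by
    intro G; rw [Finset.sum_range_succ]
  have s2 : ∀ G : ℤ → ℤ, ∑ j ∈ Finset.range (b + 1), G (j + 1) = ∑ j ∈ Finset.range b, G (j + 2) + G 1 := by
    intro G
    rw [Finset.sum_range_succ']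
    simp only [Nat.cast_add, Nat.cast_one, Nat.cast_zero, zero_add]
    have : ∀ x : ℕ, ((x : ℤ) + 1 + 1) = x + 2 := fun x => by ring
    simp only [this]
  have s3 : ∀ G : ℤ → ℤ, ∑ j ∈ Finset.range (a + 1), G (j + 1) = ∑ j ∈ Finset.range a, G (j + 1) + G (a + 1) := by
    intro G; rw [Finset.sum_range_succ]
  have s4 : ∀ G : ℤ → ℤ, ∑ j ∈ Finset.range (a + 1), G (j + 1) = ∑ j ∈ Finset.range a, G (j + 2) + G 1 := by
    intro G
    rw [Finset.sum_range_succ']
    simp only [Nat.cast_add, Nat.cast_one, Nat.cast_zero, zero_add]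
    have : ∀ x : ℕ, ((x : ℤ) + 1 + 1) = x + 2 := fun x => by ring
    simp only [this]
  have t1 := s1 (fun x => G1 1 x)
  have t2 := s1 (fun x => G2 1 x)
  have t3 := s2 (fun x => G3 1 x)
  have t4 := s2 (fun x => G4 (a + 1) x)
  have t5 := s2 (fun x => G5 (a + 1) x)
  have t6 := s2 (fun x => G6 (a + 1) x)
  have t7 := s1 (fun x => C2 1 x)
  have t8 := s2 (fun x => D2 (a + 1) x)
  have t9 := s3 (fun x => D31 x (b + 2))
  have t10 := s4 (fun x => D32 x (b + 2))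
  have t11 := s3 (fun x => G5 x 1)
  have t12 := s3 (fun x => G4 x 1)
  have t13 := s4 (fun x => G3 x 1)
  simp only [dsum_add, dsum12 G1, dsum12 G2, dsum3 G3, dsum45 G4, dsum45 G5, dsum6 G6, Finset.sum_neg_distrib,
    Finset.sum_add_distrib, r1, r2]
  linarith

theorem same_walls : Same wallsE (g1 ++ g2 ++ g3 ++ g4 ++ g5 ++ g6) := by decide +kernel
theorem same_d3 : Same d3 ((d31 ++ d32).map (she 0 1)) := by decide +kernel
theorem same_bot : Same (pE (botTab ++ [(2, 1, 0)])) (g3 ++ c3 ++ g5 ++ g4) := by decide +kernel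
theorem same_br : Same (pE (brTab ++ [(4, -1, 1)])) (d2.map (she (-1) 0) ++ g6.map (she (-1) 0)) := by decide +kernel
theorem same_right : Same (pE (rightTab ++ [(4, 0, 1)])) (g5 ++ g4 ++ d2 ++ g6) := by decide +kernel
theorem same_tr : Same (pE (trTab ++ [(12, 0, 0)])) d31 := by decide +kernel
theorem same_top : Same (pE (topTab ++ [(12, -1, 0)])) (d32 ++ g2.map (she 0 (-1)) ++ g1.map (she 0 (-1)) ++
    g6.map (she (-1) (-1)) ++ d31.map (she (-1) 0)) := by decide +kernel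
theorem same_tl : Same (pE (tlTab ++ [(2, 0, -1)])) (d32 ++ g2.map (she 0 (-1)) ++ g1.map (she 0 (-1)) ++
    c2.map (she 0 (-1))) := by decide +kernel
theorem same_left : Same (pE (leftTab ++ [(2, 0, -1)])) (g3 ++ g2.map (she 0 (-1)) ++ g1.map (she 0 (-1)) ++
    c2.map (she 0 (-1))) := by decide +kernel
theorem same_hole : Same (cE holeTab) ((g1 ++ g2 ++ g3.map (she 0 1) ++ g4.map (she (-1) 1) ++ g5.map (she (-1) 1) ++
    g6.map (she (-1) 0)).map Prod.swap) := by decide +kernel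

theorem sum_holes (f : Vx → Vx → ℤ) (a b : ℕ) : ((holesL a b).map fun c => cs f c).sum =
    ∑ i ∈ Finset.range a, ∑ j ∈ Finset.range b, S f (cE holeTab) (i + 2) (j + 1) := by
  unfold holesL holeIdx
  rw [List.map_map, sum_flatMap_range]
  refine Finset.sum_congr rfl fun i _ => ?_
  rw [List.map_map]
  have h : ∀ j : ℕ, ((fun c => cs f c) ∘ fun h : ℤ × ℤ => blk holeTab h.1 h.2) ((i : ℤ) + 2, (j : ℤ) + 1) =
      S f (cE holeTab) (i + 2) (j + 1) := fun j => cs_blk f holeTab _ _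
  simp only [← h]
  rfl

/-- **The chain of the walls is the boundary.** -/
theorem wallSum_eq (hf : ∀ a b, f b a = -f a b) (a b : ℕ) :
    wallSum f a b = cs f (outerL a b) - ((holesL a b).map fun c => cs f c).sum := by
  have e1 : S f wallsE =
      fun i j => S f g1 i j + S f g2 i j + S f g3 i j + S f g4 i j + S f g5 i j + S f g6 i j := by
    funext i j; rw [same_walls.S hf]; simp only [S_append]
  have e2 : ∀ i j, S f d3 i j = S f d31 i (j + 1) + S f d32 i (j + 1) := by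
    intro i j; rw [same_d3.S hf, S_shift, S_append, add_zero]
  rw [cs_outer, sum_holes, wallSum]
  simp only [e1, e2, same_bot.S hf, same_br.S hf, same_right.S hf, same_tr.S hf, same_top.S hf, same_tl.S hf,
    same_left.S hf, same_hole.S hf, S_swap hf, S_append, S_shift]
  have h := walls_comb (S f g1) (S f g2) (S f g3) (S f g4) (S f g5) (S f g6) (S f c2) (S f c3) (S f d2) (S f d31)
    (S f d32) a b
  have a1 : ∀ x : ℤ, x + 1 + 1 = x + 2 := fun x => by ring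
  have a2 : ∀ x : ℤ, x + 2 + -1 = x + 1 := fun x => by ring
  have a3 : ∀ x y : ℤ, x + 1 - y + -1 = x - y := fun x y => by ring
  simp only [a1, a2, a3, add_zero] at h ⊢
  exact h

end Pool.Agent.Lib.MP_6ff0c5_lc.C
end

section

/-!
The families of triangles of the layout: the nominal triangulation, the reference triangulation without centres, the
triangulations of the holes and of the outside, in both drawings.
-/

set_option autoImplicit false

namespace Pool.Agent.Lib.MP_6ff0c5_lc.C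

open Pool.Agent.Lib.MP_6ff0c5_lc.K

/-- all polygon vertices of the patch -/
def allL (a b : ℕ) : List Vx := outerL a b ++ (holesL a b).flatten

/-- the Steiner labels: the centres of the rooms -/
def stL (a b : ℕ) : List Vx :=
  (List.range (a + 1)).flatMap fun i : ℕ => (List.range (b + 1)).flatMap fun j : ℕ =>
    [(12, (i : ℤ) + 1, (j : ℤ) + 1), (13, (i : ℤ) + 1, (j : ℤ) + 1)]

/-- the far labels -/
def farL : List Vx := [(14, 0, 0), (15, 0, 0), (16, 0, 0)]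

/-- the big triangle -/
def bigT : Vx × Vx × Vx := ((14, 0, 0), (15, 0, 0), (16, 0, 0))

/-! ### Tables -/

def fillP : List (Vx × Vx × Vx) :=
  [((10, 0, 0), (3, 0, 0), (0, 0, 0)), ((10, 0, 0), (8, 0, 0), (3, 0, 0)), ((10, 0, 0), (9, 0, 0), (8, 0, 0)),
    ((8, 0, 0), (11, -1, 1), (3, 0, 0)), ((8, 0, 0), (2, 0, 1), (11, -1, 1)),
    ((8, 0, 0), (5, 0, 1), (2, 0, 1)), ((11, -1, 1), (4, -1, 1), (3, 0, 0)),
    ((11, -1, 1), (1, -1, 1), (4, -1, 1)), ((11, -1, 1), (6, -1, 1), (1, -1, 1)),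
    ((11, -1, 1), (7, -1, 1), (6, -1, 1))]
def pkBotP : List (Vx × Vx × Vx) :=
  [((4, 1, 0), (13, 1, -1), (4, 0, 0)), ((13, 1, -1), (5, 1, 0), (4, 0, 0)), ((5, 1, 0), (2, 1, 0), (4, 0, 0)),
    ((2, 1, 0), (11, 0, 0), (4, 0, 0)), ((11, 0, 0), (1, 0, 0), (4, 0, 0)), ((11, 0, 0), (6, 0, 0), (1, 0, 0)),
    ((11, 0, 0), (7, 0, 0), (6, 0, 0))]
def pkRightP : List (Vx × Vx × Vx) :=
  [((3, 0, 1), (12, 0, 1), (3, 0, 0)), ((12, 0, 1), (2, 0, 1), (3, 0, 0)), ((2, 0, 1), (11, -1, 1), (3, 0, 0)),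
    ((11, -1, 1), (4, -1, 1), (3, 0, 0)), ((11, -1, 1), (1, -1, 1), (4, -1, 1)),
    ((11, -1, 1), (6, -1, 1), (1, -1, 1)), ((11, -1, 1), (7, -1, 1), (6, -1, 1))]
def pkTopP : List (Vx × Vx × Vx) :=
  [((12, -1, 0), (4, -1, 0), (12, 0, 0)), ((4, -1, 0), (8, 0, -1), (12, 0, 0)),
    ((4, -1, 0), (3, 0, -1), (8, 0, -1)), ((3, 0, -1), (10, 0, -1), (8, 0, -1)),
    ((3, 0, -1), (0, 0, -1), (10, 0, -1)), ((10, 0, -1), (9, 0, -1), (8, 0, -1)),
    ((8, 0, -1), (5, 0, 0), (12, 0, 0))]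
def pkLeftP : List (Vx × Vx × Vx) :=
  [((13, -1, -1), (2, 0, 0), (13, -1, 0)), ((13, -1, -1), (8, 0, -1), (2, 0, 0)),
    ((13, -1, -1), (3, 0, -1), (8, 0, -1)), ((3, 0, -1), (10, 0, -1), (8, 0, -1)),
    ((3, 0, -1), (0, 0, -1), (10, 0, -1)), ((10, 0, -1), (9, 0, -1), (8, 0, -1)),
    ((8, 0, -1), (5, 0, 0), (2, 0, 0))]
def crBrP1 : List (Vx × Vx × Vx) :=
  [((2, 0, 0), (11, -1, 0), (4, -1, 0)), ((11, -1, 0), (1, -1, 0), (4, -1, 0)),
    ((11, -1, 0), (6, -1, 0), (1, -1, 0)), ((11, -1, 0), (7, -1, 0), (6, -1, 0))]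
def crBrP2 : List (Vx × Vx × Vx) :=
  [((3, 0, 0), (12, 0, 0), (2, 0, 0))]
def crTrP : List (Vx × Vx × Vx) :=
  [((12, -1, 0), (4, -1, 0), (3, 0, -1))]
def crTlP : List (Vx × Vx × Vx) :=
  [((13, -1, -1), (8, 0, -1), (12, 0, 0)), ((13, -1, -1), (3, 0, -1), (8, 0, -1)),
    ((3, 0, -1), (10, 0, -1), (8, 0, -1)), ((3, 0, -1), (0, 0, -1), (10, 0, -1)),
    ((10, 0, -1), (9, 0, -1), (8, 0, -1)), ((8, 0, -1), (5, 0, 0), (12, 0, 0))]
def crBlP1 : List (Vx × Vx × Vx) :=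
  [((5, 0, 0), (2, 0, 0), (13, -1, 0))]
def crBlP2 : List (Vx × Vx × Vx) :=
  [((4, 0, 0), (13, 0, -1), (5, 0, 0))]
def fillQ : List (Vx × Vx × Vx) :=
  [((10, 0, 0), (3, 0, 0), (0, 0, 0)), ((10, 0, 0), (5, 0, 1), (3, 0, 0)), ((10, 0, 0), (9, 0, 0), (5, 0, 1)),
    ((9, 0, 0), (8, 0, 0), (5, 0, 1)), ((5, 0, 1), (2, 0, 1), (3, 0, 0)), ((2, 0, 1), (7, -1, 1), (3, 0, 0)),
    ((2, 0, 1), (11, -1, 1), (7, -1, 1)), ((7, -1, 1), (6, -1, 1), (3, 0, 0)),
    ((6, -1, 1), (4, -1, 1), (3, 0, 0)), ((6, -1, 1), (1, -1, 1), (4, -1, 1))]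
def refA : List (Vx × Vx × Vx) :=
  [((0, 0, 0), (4, 0, 0), (1, 0, 0)), ((0, 0, 0), (3, 0, 0), (4, 0, 0)), ((3, 0, 0), (2, 0, 0), (4, 0, 0)),
    ((2, 0, 0), (5, 0, 0), (4, 0, 0))]
def refB : List (Vx × Vx × Vx) :=
  [((1, 0, 0), (11, 0, 0), (0, 0, 0)), ((1, 0, 0), (6, 0, 0), (11, 0, 0)), ((6, 0, 0), (7, 0, 0), (11, 0, 0)),
    ((11, 0, 0), (8, 0, 0), (0, 0, 0)), ((11, 0, 0), (2, 1, 0), (8, 0, 0)), ((2, 1, 0), (3, 1, 0), (8, 0, 0)),
    ((3, 1, 0), (5, 0, 1), (8, 0, 0)), ((3, 1, 0), (4, 0, 1), (5, 0, 1)), ((8, 0, 0), (9, 0, 0), (0, 0, 0)),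
    ((9, 0, 0), (10, 0, 0), (0, 0, 0))]
def pkBotQ : List (Vx × Vx × Vx) :=
  [((13, 1, -1), (5, 1, 0), (13, 0, -1)), ((5, 1, 0), (2, 1, 0), (13, 0, -1)),
    ((2, 1, 0), (7, 0, 0), (13, 0, -1)), ((2, 1, 0), (11, 0, 0), (7, 0, 0)),
    ((7, 0, 0), (6, 0, 0), (13, 0, -1)), ((6, 0, 0), (4, 0, 0), (13, 0, -1)), ((6, 0, 0), (1, 0, 0), (4, 0, 0))]
def pkRightQ : List (Vx × Vx × Vx) :=
  [((12, 0, 1), (2, 0, 1), (12, 0, 0)), ((2, 0, 1), (7, -1, 1), (12, 0, 0)), ((2, 0, 1), (11, -1, 1), (7, -1, 1)),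
    ((7, -1, 1), (3, 0, 0), (12, 0, 0)), ((7, -1, 1), (6, -1, 1), (3, 0, 0)),
    ((6, -1, 1), (4, -1, 1), (3, 0, 0)), ((6, -1, 1), (1, -1, 1), (4, -1, 1))]
def pkTopQ : List (Vx × Vx × Vx) :=
  [((12, -1, 0), (4, -1, 0), (12, 0, 0)), ((4, -1, 0), (3, 0, -1), (12, 0, 0)),
    ((3, 0, -1), (10, 0, -1), (12, 0, 0)), ((3, 0, -1), (0, 0, -1), (10, 0, -1)),
    ((10, 0, -1), (5, 0, 0), (12, 0, 0)), ((10, 0, -1), (9, 0, -1), (5, 0, 0)),
    ((9, 0, -1), (8, 0, -1), (5, 0, 0))]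
def pkLeftQ : List (Vx × Vx × Vx) :=
  [((13, -1, -1), (3, 0, -1), (13, -1, 0)), ((3, 0, -1), (10, 0, -1), (13, -1, 0)),
    ((3, 0, -1), (0, 0, -1), (10, 0, -1)), ((10, 0, -1), (9, 0, -1), (13, -1, 0)),
    ((9, 0, -1), (5, 0, 0), (13, -1, 0)), ((9, 0, -1), (8, 0, -1), (5, 0, 0)),
    ((5, 0, 0), (2, 0, 0), (13, -1, 0))]
def crBrQ : List (Vx × Vx × Vx) :=
  [((12, 0, 0), (2, 0, 0), (13, -1, -1)), ((2, 0, 0), (7, -1, 0), (13, -1, -1)),
    ((2, 0, 0), (11, -1, 0), (7, -1, 0)), ((7, -1, 0), (6, -1, 0), (13, -1, -1)),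
    ((6, -1, 0), (4, -1, 0), (13, -1, -1)), ((6, -1, 0), (1, -1, 0), (4, -1, 0))]
def crTrQ : List (Vx × Vx × Vx) :=
  [((12, -1, 0), (4, -1, 0), (12, 0, -1)), ((4, -1, 0), (3, 0, -1), (12, 0, -1))]
def crTlQ : List (Vx × Vx × Vx) :=
  [((13, -1, -1), (3, 0, -1), (12, 0, 0)), ((3, 0, -1), (10, 0, -1), (12, 0, 0)),
    ((3, 0, -1), (0, 0, -1), (10, 0, -1)), ((10, 0, -1), (5, 0, 0), (12, 0, 0)),
    ((10, 0, -1), (9, 0, -1), (5, 0, 0)), ((9, 0, -1), (8, 0, -1), (5, 0, 0))]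
def crBlQ : List (Vx × Vx × Vx) :=
  [((13, 0, -1), (5, 0, 0), (13, -1, 0)), ((5, 0, 0), (2, 0, 0), (13, -1, 0))]

/-- the 12 fan triangles and the 2 triangles at door 1 of a cell -/
def cellS : List (Vx × Vx × Vx) :=
  [((0, 0, 0), (3, 0, 0), (12, 0, 0)), ((2, 0, 0), (5, 0, 0), (12, 0, 0)), ((4, 0, 0), (1, 0, 0), (12, 0, 0)),
    ((1, 0, 0), (6, 0, 0), (13, 0, 0)), ((6, 0, 0), (7, 0, 0), (13, 0, 0)), ((7, 0, 0), (11, 0, 0), (13, 0, 0)),
    ((11, 0, 0), (2, 1, 0), (13, 0, 0)), ((3, 1, 0), (4, 0, 1), (13, 0, 0)), ((5, 0, 1), (8, 0, 0), (13, 0, 0)),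
    ((8, 0, 0), (9, 0, 0), (13, 0, 0)), ((9, 0, 0), (10, 0, 0), (13, 0, 0)), ((10, 0, 0), (0, 0, 0), (13, 0, 0)),
    ((12, 0, 0), (1, 0, 0), (13, 0, 0)), ((12, 0, 0), (13, 0, 0), (0, 0, 0))]
/-- the triangles at door 2 -/
def door2 : List (Vx × Vx × Vx) := [((12, 0, 0), (3, 0, 0), (13, -1, 0)), ((12, 0, 0), (13, -1, 0), (2, 0, 0))]
/-- the triangles at door 3 -/
def door3 : List (Vx × Vx × Vx) := [((12, 0, 0), (5, 0, 0), (13, 0, -1)), ((12, 0, 0), (13, 0, -1), (4, 0, 0))]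
/-- the closing triangles without centres -/
def cl2 : List (Vx × Vx × Vx) := [((3, 0, 0), (13, -1, 0), (2, 0, 0))]
def cl3 : List (Vx × Vx × Vx) := [((5, 0, 0), (13, 0, -1), (4, 0, 0))]
def dl2 : List (Vx × Vx × Vx) := [((2, 1, 0), (12, 1, 0), (3, 1, 0))]
def dl3 : List (Vx × Vx × Vx) := [((4, 0, 1), (12, 0, 1), (5, 0, 1))]

/-! ### Families -/

/-- translates of a table at the points `(x t, y t)`, `t < k` -/
def fam1 (tab : List (Vx × Vx × Vx)) (x y : ℕ → ℤ) (k : ℕ) : List (Vx × Vx × Vx) :=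
  (List.range k).flatMap fun t : ℕ => tblk tab (x t) (y t)

/-- translates of a table at the points `(i, j)`, `1 ≤ i ≤ m`, `1 ≤ j ≤ n` -/
def fam2 (tab : List (Vx × Vx × Vx)) (m n : ℕ) : List (Vx × Vx × Vx) :=
  (List.range m).flatMap fun i : ℕ => fam1 tab (fun _ => (i : ℤ) + 1) (fun j : ℕ => (j : ℤ) + 1) n

/-- the nominal triangulation -/
def TS (a b : ℕ) : List (Vx × Vx × Vx) :=
  fam2 cellS (a + 1) (b + 1) ++ (fam2 door2 (a + 2) (b + 1) ++ fam2 door3 (a + 1) (b + 2))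

/-- the reference triangulation without centres -/
def TR (a b : ℕ) : List (Vx × Vx × Vx) :=
  fam2 (refA ++ refB) (a + 1) (b + 1) ++
  (fam1 cl2 (fun _ => 1) (fun j : ℕ => (j : ℤ) + 1) (b + 1) ++
  (fam1 cl3 (fun i : ℕ => (i : ℤ) + 1) (fun _ => 1) (a + 1) ++
  (fam1 dl2 (fun _ => (a : ℤ) + 1) (fun j : ℕ => (j : ℤ) + 1) (b + 1) ++
  fam1 dl3 (fun i : ℕ => (i : ℤ) + 1) (fun _ => (b : ℤ) + 1) (a + 1))))

/-- triangles at the edges of a path -/
def farT (D : Vx) (l : List Vx) : List (Vx × Vx × Vx) := (pE l).map fun e => (e.2, e.1, D)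

/-- the parts of the hull polygon of the first drawing -/
def hullP1 (a b : ℕ) : List Vx :=
  (List.range a).flatMap (fun t : ℕ => blk [(4, 0, 0)] ((t : ℤ) + 1) 1) ++
  (blk [(4, 0, 0)] (a + 1) 1 ++ (blk [(2, 0, 0)] (a + 2) 1 ++
  ((List.range b).flatMap (fun t : ℕ => blk [(3, 0, 0)] ((a : ℤ) + 2) ((t : ℤ) + 1)) ++ [(3, (a : ℤ) + 2, (b : ℤ) + 1)])))
def hullP2 (a b : ℕ) : List Vx :=
  blk [(3, 0, 0)] (a + 2) (b + 1) ++
  ((List.range a).flatMap (fun t : ℕ => blk [(12, 0, 0)] ((a : ℤ) + 1 - t) ((b : ℤ) + 2)) ++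
  (blk [(12, 0, 0)] 1 (b + 2) ++ [(13, 0, (b : ℤ) + 1)]))
def hullP3 (b : ℕ) : List Vx :=
  (List.range b).flatMap (fun t : ℕ => blk [(13, 0, 0)] 0 ((b : ℤ) + 1 - t)) ++
  (blk [(13, 0, 0)] 0 1 ++ (blk [(5, 0, 0)] 1 1 ++ [(4, 1, 1)]))

/-- the parts of the hull polygon of the second drawing -/
def hullQ1 (a b : ℕ) : List Vx :=
  (List.range a).flatMap (fun t : ℕ => blk [(13, 0, 0)] ((t : ℤ) + 1) 0) ++
  (blk [(13, 0, 0)] (a + 1) 0 ++
  ((List.range b).flatMap (fun t : ℕ => blk [(12, 0, 0)] ((a : ℤ) + 2) ((t : ℤ) + 1)) ++ [(12, (a : ℤ) + 2, (b : ℤ) + 1)]))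
def hullQ2 (a b : ℕ) : List Vx :=
  blk [(12, 0, 0)] (a + 2) (b + 1) ++
  ((List.range a).flatMap (fun t : ℕ => blk [(12, 0, 0)] ((a : ℤ) + 1 - t) ((b : ℤ) + 2)) ++
  (blk [(12, 0, 0)] 1 (b + 2) ++ [(13, 0, (b : ℤ) + 1)]))
def hullQ3 (b : ℕ) : List Vx :=
  (List.range b).flatMap (fun t : ℕ => blk [(13, 0, 0)] 0 ((b : ℤ) + 1 - t)) ++ (blk [(13, 0, 0)] 0 1 ++ [(13, 1, 0)])

/-- the pockets of the first drawing -/
def XPk (a b : ℕ) : List (Vx × Vx × Vx) :=
  fam1 pkBotP (fun t : ℕ => (t : ℤ) + 1) (fun _ => 1) a ++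
  (tblk (crBrP1 ++ crBrP2) (a + 2) 1 ++
  (fam1 pkRightP (fun _ => (a : ℤ) + 2) (fun t : ℕ => (t : ℤ) + 1) b ++
  (tblk crTrP (a + 2) (b + 2) ++
  (fam1 pkTopP (fun t : ℕ => (t : ℤ) + 2) (fun _ => (b : ℤ) + 2) a ++
  (tblk crTlP 1 (b + 2) ++
  (fam1 pkLeftP (fun _ => 1) (fun t : ℕ => (t : ℤ) + 2) b ++ tblk (crBlP1 ++ crBlP2) 1 1))))))

/-- the far triangles of the first drawing -/
def XPf (a b : ℕ) : List (Vx × Vx × Vx) :=
  farT (14, 0, 0) (hullP1 a b) ++ (farT (15, 0, 0) (hullP2 a b) ++ (farT (16, 0, 0) (hullP3 b) ++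
    [((3, (a : ℤ) + 2, (b : ℤ) + 1), (14, 0, 0), (15, 0, 0)), ((13, 0, (b : ℤ) + 1), (15, 0, 0), (16, 0, 0)),
      ((4, 1, 1), (16, 0, 0), (14, 0, 0))]))

/-- the pockets of the second drawing -/
def XQk (a b : ℕ) : List (Vx × Vx × Vx) :=
  fam1 pkBotQ (fun t : ℕ => (t : ℤ) + 1) (fun _ => 1) a ++
  (tblk crBrQ (a + 2) 1 ++
  (fam1 pkRightQ (fun _ => (a : ℤ) + 2) (fun t : ℕ => (t : ℤ) + 1) b ++
  (tblk crTrQ (a + 2) (b + 2) ++
  (fam1 pkTopQ (fun t : ℕ => (t : ℤ) + 2) (fun _ => (b : ℤ) + 2) a ++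
  (tblk crTlQ 1 (b + 2) ++
  (fam1 pkLeftQ (fun _ => 1) (fun t : ℕ => (t : ℤ) + 2) b ++ tblk crBlQ 1 1))))))

/-- the far triangles of the second drawing -/
def XQf (a b : ℕ) : List (Vx × Vx × Vx) :=
  farT (14, 0, 0) (hullQ1 a b) ++ (farT (15, 0, 0) (hullQ2 a b) ++ (farT (16, 0, 0) (hullQ3 b) ++
    [((12, (a : ℤ) + 2, (b : ℤ) + 1), (14, 0, 0), (15, 0, 0)), ((13, 0, (b : ℤ) + 1), (15, 0, 0), (16, 0, 0)),
      ((13, 1, 0), (16, 0, 0), (14, 0, 0))]))

/-! ### Far points -/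

/-- the size of the far triangle -/
def hh (a b : ℕ) : ℤ := 10 * (a + b + 12)

/-- the far points of the first drawing -/
def farP (a b : ℕ) (k : ℕ) : ℤ × ℤ :=
  if k = 14 then (600 * hh a b, -600 * hh a b) else if k = 15 then (0, 600 * hh a b) else (-600 * hh a b, 0)

/-- the far points of the second drawing: `3h e₁ - 3h e₂`, `3h e₂`, `-3h e₁`, where `e₁ = M (-214500, 214500)`,
`e₂ = M (-429000, -868500)` -/
def farQ (M : ℤ) (a b : ℕ) (k : ℕ) : ℤ × ℤ :=
  if k = 14 then (3 * hh a b * M * 214500, 3 * hh a b * M * 1083000)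
  else if k = 15 then (3 * hh a b * M * -429000, 3 * hh a b * M * -868500)
  else (3 * hh a b * M * 214500, 3 * hh a b * M * -214500)

/-- all positions in the first drawing, with the nominal centres and the far points -/
noncomputable def rP (a b : ℕ) (x : Vx) : Pt := if 14 ≤ x.1 then toPt (farP a b x.1) else posP x

open Classical in
/-- all positions in the second drawing, with the centres `A`, `B` and the far points -/
noncomputable def rQ (M : ℤ) (N : N.Net) (A B : ℤ → ℤ → Pt) (a b : ℕ) (x : Vx) : Pt :=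
  if 14 ≤ x.1 then toPt (farQ M a b x.1)
  else if x ∈ stL a b then (if x.1 = 12 then A x.2.1 x.2.2 else B x.2.1 x.2.2) else posQ M N x

end Pool.Agent.Lib.MP_6ff0c5_lc.C
end

section

section

/-!
A segment that misses an open triangle is separated from it by one of the three lines of the triangle or by its own line.
-/

set_option autoImplicit false

namespace Pool.Agent.Lib.MP_6ff0c5_lc.K

/-- auxiliary: the crossing case of `sep`, in barycentric coordinates -/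
private theorem sep_core {a1 a2 a3 b1 b2 b3 S : ℝ} (hS : 0 < S) (ha : a1 + a2 + a3 = S) (hb : b1 + b2 + b3 = S)
    (hno : ∀ t : ℝ, 0 ≤ t → t ≤ 1 →
      ¬ (0 < (1 - t) * a1 + t * b1 ∧ 0 < (1 - t) * a2 + t * b2 ∧ 0 < (1 - t) * a3 + t * b3))
    (h3 : 0 < a3 ∨ 0 < b3) (h1 : a1 ≤ 0) (h1' : 0 < b1) (h2 : b2 ≤ 0) (h2' : 0 < a2) :
    (0 ≤ a3 * b1 - a1 * b3 ∧ 0 ≤ a1 * b2 - a2 * b1 ∧ 0 ≤ a2 * b3 - a3 * b2) ∨
      (a3 * b1 - a1 * b3 ≤ 0 ∧ a1 * b2 - a2 * b1 ≤ 0 ∧ a2 * b3 - a3 * b2 ≤ 0) := by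
  have e3 : a3 = S - a1 - a2 := by linarith
  have e3' : b3 = S - b1 - b2 := by linarith
  have i1 : a3 * b1 - a1 * b3 = S * (b1 - a1) + (a1 * b2 - a2 * b1) := by rw [e3, e3']; ring
  have i3 : a2 * b3 - a3 * b2 = S * (a2 - b2) + (a1 * b2 - a2 * b1) := by rw [e3, e3']; ring
  have p1 : 0 < b1 - a1 := by linarith
  have p2 : 0 < a2 - b2 := by linarith
  have q1 : 0 < S * (b1 - a1) := mul_pos hS p1
  have q2 : 0 < S * (a2 - b2) := mul_pos hS p2
  by_cases hD : 0 ≤ a1 * b2 - a2 * b1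
  · left
    exact ⟨by rw [i1]; linarith, hD, by rw [i3]; linarith⟩
  right
  push Not at hD
  have t1n : 0 ≤ -a1 / (b1 - a1) := div_nonneg (by linarith) p1.le
  have t2n : a2 / (a2 - b2) ≤ 1 := by rw [div_le_one p2]; linarith
  have t12 : -a1 / (b1 - a1) < a2 / (a2 - b2) := by
    rw [div_lt_div_iff₀ p1 p2]
    nlinarith
  -- the two positivity criteria
  have f1 : ∀ t : ℝ, -a1 / (b1 - a1) < t → 0 < (1 - t) * a1 + t * b1 := by
    intro t ht
    rw [div_lt_iff₀ p1] at ht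
    nlinarith
  have f2 : ∀ t : ℝ, t < a2 / (a2 - b2) → 0 < (1 - t) * a2 + t * b2 := by
    intro t ht
    rw [lt_div_iff₀ p2] at ht
    nlinarith
  rcases le_or_gt a3 0 with ha3 | ha3
  · -- the third function is increasing
    have hb3 : 0 < b3 := by
      rcases h3 with h | h
      · linarith
      · exact h
    have p3 : 0 < b3 - a3 := by linarith
    have f3 : ∀ t : ℝ, -a3 / (b3 - a3) < t → 0 < (1 - t) * a3 + t * b3 := by
      intro t ht
      rw [div_lt_iff₀ p3] at ht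
      nlinarith
    have hD3 : a2 * b3 - a3 * b2 ≤ 0 := by
      by_contra hc
      push Not at hc
      have t32 : -a3 / (b3 - a3) < a2 / (a2 - b2) := by
        rw [div_lt_div_iff₀ p3 p2]
        nlinarith
      obtain ⟨t, ht1, ht2⟩ := exists_between (max_lt t12 t32)
      have ht3 := (le_max_left _ _).trans_lt ht1
      have ht4 := (le_max_right _ _).trans_lt ht1
      exact hno t (t1n.trans ht3.le) (ht2.le.trans t2n) ⟨f1 t ht3, f2 t ht2, f3 t ht4⟩
    have j1 : a3 * b1 - a1 * b3 = S * (a3 - b3) + (a2 * b3 - a3 * b2) := by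
      have e1 : a1 = S - a2 - a3 := by linarith
      have e1' : b1 = S - b2 - b3 := by linarith
      rw [e1, e1']; ring
    have q3 : 0 < S * (b3 - a3) := mul_pos hS p3
    exact ⟨by rw [j1]; nlinarith, hD.le, hD3⟩
  · rcases le_or_gt b3 0 with hb3 | hb3
    · -- the third function is decreasing
      have p3 : 0 < a3 - b3 := by linarith
      have f3 : ∀ t : ℝ, t < a3 / (a3 - b3) → 0 < (1 - t) * a3 + t * b3 := by
        intro t ht
        rw [lt_div_iff₀ p3] at ht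
        nlinarith
      have hD1 : a3 * b1 - a1 * b3 ≤ 0 := by
        by_contra hc
        push Not at hc
        have t13 : -a1 / (b1 - a1) < a3 / (a3 - b3) := by
          rw [div_lt_div_iff₀ p1 p3]
          nlinarith
        obtain ⟨t, ht1, ht2⟩ := exists_between (lt_min t12 t13)
        have ht3 := ht2.trans_le (min_le_left _ _)
        have ht4 := ht2.trans_le (min_le_right _ _)
        exact hno t (t1n.trans ht1.le) (ht3.le.trans t2n) ⟨f1 t ht1, f2 t ht3, f3 t ht4⟩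
      have j3 : a2 * b3 - a3 * b2 = S * (b3 - a3) + (a3 * b1 - a1 * b3) := by
        have e2 : a2 = S - a1 - a3 := by linarith
        have e2' : b2 = S - b1 - b3 := by linarith
        rw [e2, e2']; ring
      have q3 : 0 < S * (a3 - b3) := mul_pos hS p3
      exact ⟨hD1, hD.le, by rw [j3]; nlinarith⟩
    · exfalso
      obtain ⟨t, ht1, ht2⟩ := exists_between t12
      have ht0 : 0 ≤ t := t1n.trans ht1.le
      have ht0' : t ≤ 1 := ht2.le.trans t2n
      refine hno t ht0 ht0' ⟨f1 t ht1, f2 t ht2, ?_⟩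
      rcases ht0.eq_or_lt with h | h
      · rw [← h]; simpa using ha3
      · have := mul_pos h hb3
        have := mul_nonneg (sub_nonneg.2 ht0') ha3.le
        linarith

/-- auxiliary: `sep` in barycentric coordinates -/
private theorem sep_bary {a1 a2 a3 b1 b2 b3 S : ℝ} (hS : 0 < S) (ha : a1 + a2 + a3 = S) (hb : b1 + b2 + b3 = S)
    (hno : ∀ t : ℝ, 0 ≤ t → t ≤ 1 →
      ¬ (0 < (1 - t) * a1 + t * b1 ∧ 0 < (1 - t) * a2 + t * b2 ∧ 0 < (1 - t) * a3 + t * b3))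
    (h1 : 0 < a1 ∨ 0 < b1) (h2 : 0 < a2 ∨ 0 < b2) (h3 : 0 < a3 ∨ 0 < b3) :
    (0 ≤ a3 * b1 - a1 * b3 ∧ 0 ≤ a1 * b2 - a2 * b1 ∧ 0 ≤ a2 * b3 - a3 * b2) ∨
      (a3 * b1 - a1 * b3 ≤ 0 ∧ a1 * b2 - a2 * b1 ≤ 0 ∧ a2 * b3 - a3 * b2 ≤ 0) := by
  have g0 : ¬ (0 < a1 ∧ 0 < a2 ∧ 0 < a3) := by
    have := hno 0 le_rfl zero_le_one
    simpa using this
  have g1 : ¬ (0 < b1 ∧ 0 < b2 ∧ 0 < b3) := by
    have := hno 1 zero_le_one le_rfl
    simpa using this
  have hno' : ∀ t : ℝ, 0 ≤ t → t ≤ 1 →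
      ¬ (0 < (1 - t) * b1 + t * a1 ∧ 0 < (1 - t) * b2 + t * a2 ∧ 0 < (1 - t) * b3 + t * a3) := by
    intro t ht0 ht1 hc
    refine hno (1 - t) (by linarith) (by linarith) ?_
    refine ⟨?_, ?_, ?_⟩
    · have := hc.1; nlinarith
    · have := hc.2.1; nlinarith
    · have := hc.2.2; nlinarith
  have c12 : a1 ≤ 0 → b2 ≤ 0 → _ := fun u v =>
    sep_core hS ha hb hno h3 u (h1.resolve_left (not_lt.2 u)) v (h2.resolve_right (not_lt.2 v))
  have c23 : a2 ≤ 0 → b3 ≤ 0 → _ := fun u v =>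
    sep_core (a1 := a2) (a2 := a3) (a3 := a1) (b1 := b2) (b2 := b3) (b3 := b1) hS (by linarith) (by linarith)
      (fun t h h' hc => hno t h h' ⟨hc.2.2, hc.1, hc.2.1⟩) h1 u (h2.resolve_left (not_lt.2 u)) v
      (h3.resolve_right (not_lt.2 v))
  have c31 : a3 ≤ 0 → b1 ≤ 0 → _ := fun u v =>
    sep_core (a1 := a3) (a2 := a1) (a3 := a2) (b1 := b3) (b2 := b1) (b3 := b2) hS (by linarith) (by linarith)
      (fun t h h' hc => hno t h h' ⟨hc.2.1, hc.2.2, hc.1⟩) h2 u (h3.resolve_left (not_lt.2 u)) v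
      (h1.resolve_right (not_lt.2 v))
  have d12 : b1 ≤ 0 → a2 ≤ 0 → _ := fun u v =>
    sep_core (a1 := b1) (a2 := b2) (a3 := b3) (b1 := a1) (b2 := a2) (b3 := a3) hS hb ha hno' h3.symm u
      (h1.resolve_right (not_lt.2 u)) v (h2.resolve_left (not_lt.2 v))
  have d23 : b2 ≤ 0 → a3 ≤ 0 → _ := fun u v =>
    sep_core (a1 := b2) (a2 := b3) (a3 := b1) (b1 := a2) (b2 := a3) (b3 := a1) hS (by linarith) (by linarith)
      (fun t h h' hc => hno' t h h' ⟨hc.2.2, hc.1, hc.2.1⟩) h1.symm u (h2.resolve_right (not_lt.2 u)) v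
      (h3.resolve_left (not_lt.2 v))
  have d31 : b3 ≤ 0 → a1 ≤ 0 → _ := fun u v =>
    sep_core (a1 := b3) (a2 := b1) (a3 := b2) (b1 := a3) (b2 := a1) (b3 := a2) hS (by linarith) (by linarith)
      (fun t h h' hc => hno' t h h' ⟨hc.2.1, hc.2.2, hc.1⟩) h2.symm u (h3.resolve_right (not_lt.2 u)) v
      (h1.resolve_left (not_lt.2 v))
  have A : a1 ≤ 0 ∨ a2 ≤ 0 ∨ a3 ≤ 0 := by
    by_contra hc
    push Not at hc
    exact g0 hc
  have B : b1 ≤ 0 ∨ b2 ≤ 0 ∨ b3 ≤ 0 := by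
    by_contra hc
    push Not at hc
    exact g1 hc
  rcases A with u | u | u <;> rcases B with v | v | v
  · exact absurd h1 (by rw [not_or]; exact ⟨not_lt.2 u, not_lt.2 v⟩)
  · exact c12 u v
  · rcases d31 v u with ⟨r1, r2, r3⟩ | ⟨r1, r2, r3⟩
    · exact Or.inr ⟨by linarith, by linarith, by linarith⟩
    · exact Or.inl ⟨by linarith, by linarith, by linarith⟩
  · rcases d12 v u with ⟨r1, r2, r3⟩ | ⟨r1, r2, r3⟩
    · exact Or.inr ⟨by linarith, by linarith, by linarith⟩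
    · exact Or.inl ⟨by linarith, by linarith, by linarith⟩
  · exact absurd h2 (by rw [not_or]; exact ⟨not_lt.2 u, not_lt.2 v⟩)
  · rcases c23 u v with ⟨r1, r2, r3⟩ | ⟨r1, r2, r3⟩
    · exact Or.inl ⟨r3, r1, r2⟩
    · exact Or.inr ⟨r3, r1, r2⟩
  · rcases c31 u v with ⟨r1, r2, r3⟩ | ⟨r1, r2, r3⟩
    · exact Or.inl ⟨r2, r3, r1⟩
    · exact Or.inr ⟨r2, r3, r1⟩
  · rcases d23 v u with ⟨r1, r2, r3⟩ | ⟨r1, r2, r3⟩
    · exact Or.inr ⟨by linarith, by linarith, by linarith⟩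
    · exact Or.inl ⟨by linarith, by linarith, by linarith⟩
  · exact absurd h3 (by rw [not_or]; exact ⟨not_lt.2 u, not_lt.2 v⟩)

/-- If no point of the segment `y z` lies in the open triangle `u v w` (counterclockwise), then the segment lies on the
right of one of the three directed edges, or the three vertices lie weakly on one side of the line `y z`.
Proof: suppose all five alternatives fail. Then `y ≠ z`, the vertices lie strictly on both sides of the line `y z`, so the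
line meets the open triangle: with `x(t) = y + t (z - y)` the three affine functions `f₁ t = orient u v (x t)`,
`f₂ t = orient v w (x t)`, `f₃ t = orient w u (x t)` have a common positivity interval `(t₋, t₊)`, nonempty and bounded
(bounded because their sum is the positive constant `orient u v w`, `orient_sum`). The segment `[0, 1]` is disjoint from
it, so `t₊ ≤ 0` or `1 ≤ t₋`; in the first case the function that vanishes at `t₊` is `≤ 0` on `[0, 1]`, contradiction. -/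
theorem sep {u v w y z : Pt} (h : 0 < orient u v w)
    (hd : ∀ x ∈ segment ℝ y z, ¬ (0 < orient u v x ∧ 0 < orient v w x ∧ 0 < orient w u x)) :
    (orient u v y ≤ 0 ∧ orient u v z ≤ 0) ∨ (orient v w y ≤ 0 ∧ orient v w z ≤ 0) ∨
      (orient w u y ≤ 0 ∧ orient w u z ≤ 0) ∨
      (0 ≤ orient y z u ∧ 0 ≤ orient y z v ∧ 0 ≤ orient y z w) ∨
      (orient y z u ≤ 0 ∧ orient y z v ≤ 0 ∧ orient y z w ≤ 0) := by
  have hline : ∀ (a b : Pt) (t : ℝ),
      orient a b (((1 - t) * y.1 + t * z.1, (1 - t) * y.2 + t * z.2) : Pt)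
        = (1 - t) * orient a b y + t * orient a b z := by
    intro a b t
    unfold orient
    ring
  have hno : ∀ t : ℝ, 0 ≤ t → t ≤ 1 →
      ¬ (0 < (1 - t) * orient u v y + t * orient u v z ∧ 0 < (1 - t) * orient v w y + t * orient v w z ∧
        0 < (1 - t) * orient w u y + t * orient w u z) := by
    intro t ht0 ht1 hc
    refine hd (((1 - t) * y.1 + t * z.1, (1 - t) * y.2 + t * z.2) : Pt) ?_ ?_
    · refine ⟨1 - t, t, by linarith, ht0, by ring, ?_⟩
      ext <;> simp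
    · rw [hline, hline, hline]
      exact hc
  have sy := orient_sum u v w y
  have sz := orient_sum u v w z
  by_cases k1 : orient u v y ≤ 0 ∧ orient u v z ≤ 0
  · exact Or.inl k1
  by_cases k2 : orient v w y ≤ 0 ∧ orient v w z ≤ 0
  · exact Or.inr (Or.inl k2)
  by_cases k3 : orient w u y ≤ 0 ∧ orient w u z ≤ 0
  · exact Or.inr (Or.inr (Or.inl k3))
  have e1 : orient y z u * orient u v w = orient w u y * orient u v z - orient u v y * orient w u z := by
    unfold orient; ring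
  have e2 : orient y z v * orient u v w = orient u v y * orient v w z - orient v w y * orient u v z := by
    unfold orient; ring
  have e3 : orient y z w * orient u v w = orient v w y * orient w u z - orient w u y * orient v w z := by
    unfold orient; ring
  have hor : ∀ {a b : ℝ}, ¬ (a ≤ 0 ∧ b ≤ 0) → 0 < a ∨ 0 < b := by
    intro a b hab
    by_contra hc
    push Not at hc
    exact hab hc
  rcases sep_bary h (by linarith) (by linarith) hno (hor k1) (hor k2) (hor k3) with ⟨r1, r2, r3⟩ | ⟨r1, r2, r3⟩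
  · refine Or.inr (Or.inr (Or.inr (Or.inl ⟨?_, ?_, ?_⟩)))
    · exact nonneg_of_mul_nonneg_left (by rw [e1]; exact r1) h
    · exact nonneg_of_mul_nonneg_left (by rw [e2]; exact r2) h
    · exact nonneg_of_mul_nonneg_left (by rw [e3]; exact r3) h
  · refine Or.inr (Or.inr (Or.inr (Or.inr ⟨?_, ?_, ?_⟩)))
    · exact nonpos_of_mul_nonpos_left (by rw [e1]; exact r1) h
    · exact nonpos_of_mul_nonpos_left (by rw [e2]; exact r2) h
    · exact nonpos_of_mul_nonpos_left (by rw [e3]; exact r3) h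

end Pool.Agent.Lib.MP_6ff0c5_lc.K
end

section

/-!
MP_6ff0c5_lc, part C: apexes of walls, and points of walls, cover the wall.
-/

set_option autoImplicit false

namespace Pool.Agent.Lib.MP_6ff0c5_lc.C

open K Filter Topology

/-- the apex of a triangle over a wall covers the wall -/
theorem cov_of_tri {posD : Vx → Pt} {R : Set Pt}
    (out : ∀ w i j, w < 12 → ∀ x ∈ segment ℝ (posD (wu w i j)) (posD (wv w i j)), x ∉ interior R) {u v : Vx} {s : Pt}
    (hpos : 0 < orient (posD u) (posD v) s)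
    (hsub : {x | 0 < orient (posD u) (posD v) x ∧ 0 < orient (posD v) s x ∧ 0 < orient s (posD u) x} ⊆ R) :
    Cov posD u v s := by
  refine ⟨hpos.le, ?_⟩
  intro w i j hw
  have hopen : IsOpen {x | 0 < orient (posD u) (posD v) x ∧ 0 < orient (posD v) s x ∧ 0 < orient s (posD u) x} :=
    (isOpen_orient_pos _ _).inter ((isOpen_orient_pos _ _).inter (isOpen_orient_pos _ _))
  have hd : ∀ x ∈ segment ℝ (posD (wu w i j)) (posD (wv w i j)),
      ¬ (0 < orient (posD u) (posD v) x ∧ 0 < orient (posD v) s x ∧ 0 < orient s (posD u) x) := by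
    intro x hx hc
    exact out w i j hw x hx (interior_maximal hsub hopen hc)
  rcases sep hpos hd with h | h | h | h | h
  · exact Or.inr (Or.inr (Or.inl h))
  · exact Or.inl h
  · exact Or.inr (Or.inl h)
  · exact Or.inr (Or.inr (Or.inr (Or.inl h)))
  · exact Or.inr (Or.inr (Or.inr (Or.inr h)))

/-- **Crossing lemma**: if `y`, `z` are strictly on different sides of the line `u v` and `u`, `v` strictly on different
sides of the line `y z`, then some point of the open segment `u v` is on the segment `y z`, and points of the segment `y z`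
near it are on the positive side of `u v`. Proof: `K := orient u v y - orient u v z = orient y z v - orient y z u ≠ 0`,
`μ := - orient y z u / K`, `λ := orient u v y / K`, both in `(0, 1)`, and `(1-μ) u + μ v = (1-λ) y + λ z =: x`
(Plücker identity: `K (u - y) = orient y z u • (v - u) + orient u v y • (z - y)`). With `e := y` if `0 < orient u v y`, else
`e := z`, the points `x + ε (e - x)`, `0 < ε ≤ 1`, are on the segment `y z` and `orient u v (x + ε (e - x)) = ε orient u v e > 0`. -/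
theorem crossing {u v y z : Pt} (h1 : orient u v y * orient u v z < 0) (h2 : orient y z u * orient y z v < 0) :
    ∃ x ∈ openSegment ℝ u v, ∃ e : Pt, ∀ ε : ℝ, 0 < ε → ε ≤ 1 →
      x + ε • (e - x) ∈ segment ℝ y z ∧ 0 < orient u v (x + ε • (e - x)) := by
  set a := orient u v y with ha
  set b := orient u v z with hb
  set c := orient y z u with hc
  set d := orient y z v with hd
  have hK : a - b = d - c := by rw [ha, hb, hc, hd]; unfold orient; ring
  have hab : (0 < a ∧ b < 0) ∨ (a < 0 ∧ 0 < b) := by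
    rcases mul_neg_iff.1 h1 with h | h
    · exact Or.inl h
    · exact Or.inr h
  have hcd : (0 < c ∧ d < 0) ∨ (c < 0 ∧ 0 < d) := by
    rcases mul_neg_iff.1 h2 with h | h
    · exact Or.inl h
    · exact Or.inr h
  have hK0 : a - b ≠ 0 := by rcases hab with h | h <;> intro hcon <;> linarith [h.1, h.2]
  have hμ : 0 < -c / (a - b) ∧ -c / (a - b) < 1 := by
    rw [hK]
    rcases hcd with h | h
    · have h3 : d - c < 0 := by linarith [h.1, h.2]
      exact ⟨div_pos_of_neg_of_neg (by linarith [h.1]) h3, by rw [div_lt_one_of_neg h3]; linarith [h.2]⟩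
    · have h3 : 0 < d - c := by linarith [h.1, h.2]
      exact ⟨div_pos (by linarith [h.1]) h3, by rw [div_lt_one h3]; linarith [h.2]⟩
  have hl : 0 < a / (a - b) ∧ a / (a - b) < 1 := by
    rcases hab with h | h
    · have h3 : 0 < a - b := by linarith [h.1, h.2]
      exact ⟨div_pos h.1 h3, by rw [div_lt_one h3]; linarith [h.2]⟩
    · have h3 : a - b < 0 := by linarith [h.1, h.2]
      exact ⟨div_pos_of_neg_of_neg h.1 h3, by rw [div_lt_one_of_neg h3]; linarith [h.2]⟩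
  set μ := -c / (a - b) with hμd
  set l := a / (a - b) with hld
  have e1 : μ * (a - b) = -c := div_mul_cancel₀ _ hK0
  have e2 : l * (a - b) = a := div_mul_cancel₀ _ hK0
  -- the common point
  have hx1 : (1 - μ) * u.1 + μ * v.1 = (1 - l) * y.1 + l * z.1 := by
    have h3 : (a - b) * ((1 - μ) * u.1 + μ * v.1) = (a - b) * ((1 - l) * y.1 + l * z.1) := by
      have h4 : (a - b) * (u.1 - y.1) = c * (v.1 - u.1) + a * (z.1 - y.1) := by
        rw [ha, hb, hc]; unfold orient; ring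
      linear_combination h4 + (v.1 - u.1) * e1 - (z.1 - y.1) * e2
    exact mul_left_cancel₀ hK0 h3
  have hx2 : (1 - μ) * u.2 + μ * v.2 = (1 - l) * y.2 + l * z.2 := by
    have h3 : (a - b) * ((1 - μ) * u.2 + μ * v.2) = (a - b) * ((1 - l) * y.2 + l * z.2) := by
      have h4 : (a - b) * (u.2 - y.2) = c * (v.2 - u.2) + a * (z.2 - y.2) := by
        rw [ha, hb, hc]; unfold orient; ring
      linear_combination h4 + (v.2 - u.2) * e1 - (z.2 - y.2) * e2
    exact mul_left_cancel₀ hK0 h3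
  have key : ∀ e : Pt, (e = y ∨ e = z) → 0 < orient u v e → ∀ ε : ℝ, 0 < ε → ε ≤ 1 →
      ((1 - μ) • u + μ • v) + ε • (e - ((1 - μ) • u + μ • v)) ∈ segment ℝ y z ∧
        0 < orient u v (((1 - μ) • u + μ • v) + ε • (e - ((1 - μ) • u + μ • v))) := by
    intro e he hpos ε hε hε1
    have hxe : (1 - μ) • u + μ • v = (1 - l) • y + l • z := by
      ext
      · simpa using hx1
      · simpa using hx2
    constructor
    · rw [hxe]
      have hmem : (1 - l) • y + l • z ∈ segment ℝ y z := ⟨1 - l, l, by linarith [hl.2], hl.1.le, by ring, rfl⟩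
      have hme : e ∈ segment ℝ y z := by
        rcases he with rfl | rfl
        · exact left_mem_segment ℝ _ _
        · exact right_mem_segment ℝ _ _
      have h5 := (convex_segment y z) hmem hme (by linarith : (0 : ℝ) ≤ 1 - ε) hε.le (by ring)
      have e3 : (1 - l) • y + l • z + ε • (e - ((1 - l) • y + l • z)) =
          (1 - ε) • ((1 - l) • y + l • z) + ε • e := by
        generalize (1 - l) • y + l • z = w
        module
      rw [e3]
      exact h5
    · have h6 : orient u v (((1 - μ) • u + μ • v) + ε • (e - ((1 - μ) • u + μ • v))) = ε * orient u v e := by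
        unfold orient
        simp only [Prod.fst_add, Prod.snd_add, Prod.smul_fst, Prod.smul_snd, Prod.fst_sub, Prod.snd_sub, smul_eq_mul]
        ring
      rw [h6]
      exact mul_pos hε hpos
  refine ⟨(1 - μ) • u + μ • v, ⟨1 - μ, μ, by linarith [hμ.2], hμ.1, by ring, rfl⟩, ?_⟩
  rcases hab with h | h
  · exact ⟨y, key y (Or.inl rfl) h.1⟩
  · exact ⟨z, key z (Or.inr rfl) h.2⟩

/-- A point of a wall covers the wall. Proof: `s = (1-t) u + t v`, `0 < t < 1`, so `orient u v s = 0`. Let `(y, z)` be a wall.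
If `y`, `z` are weakly on the right of `u v`: third alternative. If they are weakly on the left: first alternative
(`orient v s y = -(1-t) orient u v y`). If `u`, `v` are weakly on one side of `y z`, then also `s` (fourth, fifth
alternative). Otherwise `crossing` gives `x` on the open segment `u v` and points `x_ε → x` of the segment `y z` with
`0 < orient u v x_ε`; by `left` there is an open neighbourhood `V` of `x` with `V ∩ {0 < orient u v} ⊆ R`, this set is open, so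
`x_ε ∈ interior R` for small `ε`, contradicting `out`. -/
theorem cov_of_wall {posD : Vx → Pt} {R : Set Pt}
    (out : ∀ w i j, w < 12 → ∀ x ∈ segment ℝ (posD (wu w i j)) (posD (wv w i j)), x ∉ interior R) {u v : Vx} {s : Pt}
    (left : ∀ x ∈ openSegment ℝ (posD u) (posD v), ∀ᶠ y in 𝓝 x, 0 < orient (posD u) (posD v) y → y ∈ R)
    (hs : s ∈ openSegment ℝ (posD u) (posD v)) : Cov posD u v s := by
  obtain ⟨a, b, ha, hb, hab, rfl⟩ := hs
  have ea : a = 1 - b := by linarith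
  have h0 : orient (posD u) (posD v) (a • posD u + b • posD v) = 0 := by
    subst ea
    unfold orient
    simp only [Prod.fst_add, Prod.snd_add, Prod.smul_fst, Prod.smul_snd, smul_eq_mul]
    ring
  refine ⟨h0.ge, ?_⟩
  intro w i j hw
  set y := posD (wu w i j) with hy
  set z := posD (wv w i j) with hz
  have hs1 : ∀ x : Pt, orient (posD v) (a • posD u + b • posD v) x = -a * orient (posD u) (posD v) x := by
    intro x
    subst ea
    unfold orient
    simp only [Prod.fst_add, Prod.snd_add, Prod.smul_fst, Prod.smul_snd, smul_eq_mul]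
    ring
  have hs2 : orient y z (a • posD u + b • posD v) = a * orient y z (posD u) + b * orient y z (posD v) := by
    subst ea
    unfold orient
    simp only [Prod.fst_add, Prod.snd_add, Prod.smul_fst, Prod.smul_snd, smul_eq_mul]
    ring
  rw [hs1, hs1, hs2]
  by_cases g1 : orient (posD u) (posD v) y ≤ 0 ∧ orient (posD u) (posD v) z ≤ 0
  · exact Or.inr (Or.inr (Or.inl g1))
  by_cases g2 : 0 ≤ orient (posD u) (posD v) y ∧ 0 ≤ orient (posD u) (posD v) z
  · left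
    have := mul_nonneg ha.le g2.1
    have := mul_nonneg ha.le g2.2
    constructor <;> linarith
  by_cases g3 : 0 ≤ orient y z (posD u) ∧ 0 ≤ orient y z (posD v)
  · refine Or.inr (Or.inr (Or.inr (Or.inl ⟨g3.1, g3.2, ?_⟩)))
    have := mul_nonneg ha.le g3.1
    have := mul_nonneg hb.le g3.2
    linarith
  by_cases g4 : orient y z (posD u) ≤ 0 ∧ orient y z (posD v) ≤ 0
  · refine Or.inr (Or.inr (Or.inr (Or.inr ⟨g4.1, g4.2, ?_⟩)))
    have := mul_nonneg ha.le (neg_nonneg.2 g4.1)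
    have := mul_nonneg hb.le (neg_nonneg.2 g4.2)
    linarith
  exfalso
  have k1 : orient (posD u) (posD v) y * orient (posD u) (posD v) z < 0 := by
    rw [not_and_or, not_le, not_le] at g1 g2
    rcases g1 with g1 | g1 <;> rcases g2 with g2 | g2
    · linarith
    · exact mul_neg_of_pos_of_neg g1 g2
    · exact mul_neg_of_neg_of_pos g2 g1
    · linarith
  have k2 : orient y z (posD u) * orient y z (posD v) < 0 := by
    rw [not_and_or, not_le, not_le] at g3 g4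
    rcases g3 with g3 | g3 <;> rcases g4 with g4 | g4
    · linarith
    · exact mul_neg_of_neg_of_pos g3 g4
    · exact mul_neg_of_pos_of_neg g4 g3
    · linarith
  obtain ⟨x, hx, e, he⟩ := crossing k1 k2
  obtain ⟨V, hV, hVo, hxV⟩ := mem_nhds_iff.1 (left x hx)
  have hcont : Tendsto (fun ε : ℝ => x + ε • (e - x)) (𝓝[>] 0) (𝓝 x) := by
    have h : Continuous fun ε : ℝ => x + ε • (e - x) := by fun_prop
    have h' := h.tendsto 0
    simp only [zero_smul, add_zero] at h'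
    exact h'.mono_left nhdsWithin_le_nhds
  have hev : ∀ᶠ ε in 𝓝[>] (0 : ℝ), x + ε • (e - x) ∈ V := hcont (hVo.mem_nhds hxV)
  have hev2 : ∀ᶠ ε in 𝓝[>] (0 : ℝ), ε ≤ 1 := nhdsWithin_le_nhds (Iic_mem_nhds (by norm_num))
  have hev3 : ∀ᶠ ε in 𝓝[>] (0 : ℝ), 0 < ε := self_mem_nhdsWithin
  obtain ⟨ε, h1, h2, h3⟩ := (hev.and (hev2.and hev3)).exists
  obtain ⟨h4, h5⟩ := he ε h3 h2
  refine out w i j hw _ h4 ?_
  have hopen : IsOpen (V ∩ {p | 0 < orient (posD u) (posD v) p}) := hVo.inter (isOpen_orient_pos _ _)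
  exact interior_maximal (fun p hp => hV hp.1 hp.2) hopen ⟨h1, h5⟩

end Pool.Agent.Lib.MP_6ff0c5_lc.C
end

section

/-!
MP_6ff0c5_lc, part C: the apexes of the walls are forced.
-/

set_option autoImplicit false

namespace Pool.Agent.Lib.MP_6ff0c5_lc.C

open K Filter Topology

section

variable {n1 n2 : ℕ} {P Q : Poly} {num : Vx → ℕ} {M : ℝ} {pos : Vx → Pt} {k N3 s : ℕ} {p q : ℕ → Pt}
  {T : Finset (ℕ × ℕ × ℕ)}

theorem pp (H : Patch n1 n2 P Q num M pos) (C : Comp P Q k N3 s p q T) {x : Vx} (hx : Pres n1 n2 x) :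
    p (num x) = posP x ∧ q (num x) = pos x := by
  have hn := H.lt x hx
  exact ⟨(C.pEq _ hn).trans (H.ePos x hx), (C.qEq _ hn).trans (H.eQ x hx)⟩

/-- the label `z` covers the wall in both drawings -/
def Cv (pos : Vx → Pt) (p q : ℕ → Pt) (z w : ℕ) (i j : ℤ) : Prop :=
  Cov posP (wu w i j) (wv w i j) (p z) ∧ Cov pos (wu w i j) (wv w i j) (q z)

/-- the label is a vertex of a triangle -/
def Vt (T : Finset (ℕ × ℕ × ℕ)) (z : ℕ) : Prop := ∃ t ∈ T, IsVert t z

theorem cv_tri (H : Patch n1 n2 P Q num M pos) (C : Comp P Q k N3 s p q T) {w : ℕ} {i j : ℤ} {z : ℕ}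
    (hw : WP n1 n2 w i j) (hz : (num (wu w i j), num (wv w i j), z) ∈ T) : Cv pos p q z w i j := by
  obtain ⟨u1, u2⟩ := pp H C (pres_wu hw)
  obtain ⟨v1, v2⟩ := pp H C (pres_wv hw)
  obtain ⟨h1, h2⟩ := C.pos _ hz
  have i1 := C.inP _ hz
  have i2 := C.inQ _ hz
  unfold otri at h1 h2
  unfold OpenTri at i1 i2
  simp only [u1, v1] at h1 i1
  simp only [u2, v2] at h2 i2
  exact ⟨cov_of_tri H.outP h1 i1, cov_of_tri H.outQ h2 i2⟩

theorem cv_wall (H : Patch n1 n2 P Q num M pos) (C : Comp P Q k N3 s p q T) {w : ℕ} {i j : ℤ} {z : ℕ}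
    (hw : WP n1 n2 w i j) (h1 : p z ∈ openSegment ℝ (posP (wu w i j)) (posP (wv w i j)))
    (h2 : q z ∈ openSegment ℝ (pos (wu w i j)) (pos (wv w i j))) : Cv pos p q z w i j :=
  ⟨cov_of_wall H.outP (H.leftP w i j hw) h1, cov_of_wall H.outQ (H.leftQ w i j hw) h2⟩

theorem bndq (H : Patch n1 n2 P Q num M pos) (C : Comp P Q k N3 s p q T) {z : ℕ} (hz : Vt T z) :
    |(q z).1| ≤ 1500000 * ((n1 : ℝ) + n2 + 2) * M ∧ |(q z).2| ≤ 1500000 * ((n1 : ℝ) + n2 + 2) * M := by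
  obtain ⟨t, ht, hv⟩ := hz
  have hpos := (C.pos t ht).2
  have hmem := vert_mem_closedTri hpos hv
  constructor
  · by_contra hc
    push Not at hc
    have hU : {y : Pt | 1500000 * ((n1 : ℝ) + n2 + 2) * M < |y.1|} ∈ 𝓝 (q z) :=
      (isOpen_lt continuous_const continuous_fst.abs).mem_nhds hc
    obtain ⟨y, hy, hyo, -⟩ := exists_generic hpos hmem hU []
    exact absurd (H.bndQ y (C.inQ t ht hyo)).1 (not_le.2 hy)
  · by_contra hc
    push Not at hc
    have hU : {y : Pt | 1500000 * ((n1 : ℝ) + n2 + 2) * M < |y.2|} ∈ 𝓝 (q z) :=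
      (isOpen_lt continuous_const continuous_snd.abs).mem_nhds hc
    obtain ⟨y, hy, hyo, -⟩ := exists_generic hpos hmem hU []
    exact absurd (H.bndQ y (C.inQ t ht hyo)).2 (not_le.2 hy)

/-- the offset of a cell in the second drawing -/
noncomputable def offQ (M : ℝ) (I J : ℤ) : Pt := (M * (-214500 * I - 429000 * J : ℝ), M * (214500 * I - 868500 * J : ℝ))

/-- the offset of a cell in the first drawing -/
noncomputable def offP (I J : ℤ) : Pt := ((200 * I : ℝ), (200 * J : ℝ))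

theorem bnd_shift (H : Patch n1 n2 P Q num M pos) (C : Comp P Q k N3 s p q T) {z : ℕ} (hz : Vt T z) {I J : ℤ}
    (h1 : 1 ≤ I) (h2 : I ≤ n1) (h3 : 1 ≤ J) (h4 : J ≤ n2) :
    |(q z - offQ M I J).1| ≤ M * M ∧ |(q z - offQ M I J).2| ≤ M * M := by
  obtain ⟨b1, b2⟩ := bndq H C hz
  have r1 : (1 : ℝ) ≤ I := by exact_mod_cast h1
  have r2 : (I : ℝ) ≤ n1 := by exact_mod_cast h2
  have r3 : (1 : ℝ) ≤ J := by exact_mod_cast h3
  have r4 : (J : ℝ) ≤ n2 := by exact_mod_cast h4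
  have hM := H.qpos.big
  have hM0 : 0 < M := by linarith
  have hbig := mul_le_mul_of_nonneg_right H.big hM0.le
  have m1 := mul_le_mul_of_nonneg_right r1 hM0.le
  have m2 := mul_le_mul_of_nonneg_right r2 hM0.le
  have m3 := mul_le_mul_of_nonneg_right r3 hM0.le
  have m4 := mul_le_mul_of_nonneg_right r4 hM0.le
  rw [abs_le] at b1 b2
  unfold offQ
  simp only [Prod.fst_sub, Prod.snd_sub]
  constructor
  · rw [abs_le]; constructor <;> nlinarith
  · rw [abs_le]; constructor <;> nlinarith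

theorem Cv.trP {w : ℕ} {i j : ℤ} {z : ℕ} (h : Cv pos p q z w i j) (I J : ℤ) :
    Cov posP (wu w (i - I) (j - J)) (wv w (i - I) (j - J)) (p z - offP I J) := by
  refine Cov.shift (I := I) (J := J) (fun v => posP_sh v I J) ?_
  rw [wu_sh, wv_sh, sub_add_cancel, sub_add_cancel]
  exact h.1

theorem Cv.trQ {w : ℕ} {i j : ℤ} {z : ℕ} (h : Cv pos p q z w i j) (I J : ℤ) :
    Cov (shQ M pos I J) (wu w (i - I) (j - J)) (wv w (i - I) (j - J)) (q z - offQ M I J) := by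
  refine Cov.shift (pos := pos) (I := I) (J := J) (fun v => rfl) ?_
  rw [wu_sh, wv_sh, sub_add_cancel, sub_add_cancel]
  exact h.2

theorem sh_neg (x : Vx) (i j : ℤ) : sh (sh x (-i) (-j)) i j = x := by
  rw [sh_sh]; simp [sh]

/-- C1: the apex of a wall is a Steiner label -/
theorem apex_ge (H : Patch n1 n2 P Q num M pos) (C : Comp P Q k N3 s p q T) {w : ℕ} {i j : ℤ} {z : ℕ}
    (hw : WP n1 n2 w i j) (hz : (num (wu w i j), num (wv w i j), z) ∈ T) : P.n ≤ z := by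
  by_contra hlt
  push Not at hlt
  obtain ⟨x, hx, rfl⟩ := H.surj z hlt
  have hc := cv_tri H C hw hz
  have hpos := C.pos _ hz
  have hne := label_ne hpos.1
  have hxu : x ≠ wu w i j := fun h => hne.2.2 (by rw [h])
  have hxv : x ≠ wv w i j := fun h => hne.2.1 (by rw [h])
  have hadm := adm_of_pres hw hx hxu hxv
  obtain ⟨x1, x2⟩ := pp H C hx
  have e1 : p (num x) - offP i j = posP (sh x (-i) (-j)) := by
    rw [x1, posP_sh (sh x (-i) (-j)) i j, sh_neg]
    rfl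
  have e2 : q (num x) - offQ M i j = shQ M pos i j (sh x (-i) (-j)) := by
    rw [x2]
    unfold shQ offQ
    rw [sh_neg]
  have t1 := hc.trP i j
  have t2 := hc.trQ (M := M) i j
  rw [sub_self, sub_self, e1] at t1
  rw [sub_self, sub_self, e2] at t2
  refine c1_sound (H.qpos.sh i j) hw.1 hadm ?_ t1 t2
  have h0 := hpos.1
  unfold otri at h0
  simp only [(pp H C (pres_wu hw)).1, (pp H C (pres_wv hw)).1] at h0
  rw [← e1, posP_sh (wu w 0 0) i j, posP_sh (wv w 0 0) i j, wu_sh, wv_sh, zero_add, zero_add]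
  unfold offP
  rw [orient_sub]
  exact h0

theorem c2' (H : Patch n1 n2 P Q num M pos) (C : Comp P Q k N3 s p q T) {ty e : ℕ} (hty : ty < 3) (he : e < 20)
    {I J i j : ℤ} (h1 : 1 ≤ I) (h2 : I ≤ n1) (h3 : 1 ≤ J) (h4 : J ≤ n2) (hrel : c2rel ty e (i - I) (j - J) = true) {z : ℕ}
    (hz : Vt T z) (hs : ∀ w ∈ spec ty, Cv pos p q z w.1 I J) (hc : Cv pos p q z e i j) : False := by
  refine c2_sound (H.qpos.sh I J) hty he hrel (s := p z - offP I J) (bnd_shift H C hz h1 h2 h3 h4) ?_ ?_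
    (hc.trP I J) (hc.trQ I J)
  · intro w hw
    have h5 := (hs w hw).trP I J
    rw [sub_self, sub_self] at h5
    rw [(spec_lt hw).2.1, (spec_lt hw).2.2]
    exact h5
  · intro w hw
    have h5 := (hs w hw).trQ (M := M) I J
    rw [sub_self, sub_self] at h5
    rw [(spec_lt hw).2.1, (spec_lt hw).2.2]
    exact h5

theorem okrel_cell {e : ℕ} {I J i j : ℤ} (h1 : 1 ≤ I) (h2 : I ≤ n1) (h3 : 1 ≤ J) (h4 : J ≤ n2) (hw : WP n1 n2 e i j) :
    okrel (ctyp e) (-(i - I)) (-(j - J)) = true := by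
  obtain ⟨hw, g1, g2, g3, g4, g5, g6, g7, g8⟩ := hw
  interval_cases e <;> simp [okrel, ctyp] at g5 g6 g7 g8 ⊢ <;> omega

theorem type0 (H : Patch n1 n2 P Q num M pos) (C : Comp P Q k N3 s p q T) {e : ℕ} {I J i j : ℤ} (h1 : 1 ≤ I)
    (h2 : I ≤ n1) (h3 : 1 ≤ J) (h4 : J ≤ n2) (hw : WP n1 n2 e i j) {z : ℕ} (hz : Vt T z) (hs : Cv pos p q z 10 I J)
    (hc : Cv pos p q z e i j) : wroom e = 13 ∧ i = I ∧ j = J := by
  by_contra hcon
  refine c2' H C (ty := 0) (by norm_num) hw.1 h1 h2 h3 h4 ?_ hz ?_ hc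
  · unfold c2rel
    rw [okrel_cell h1 h2 h3 h4 hw, Bool.true_and, if_pos rfl, Bool.not_eq_true']
    by_contra hb
    rw [Bool.not_eq_false, Bool.and_eq_true, Bool.and_eq_true, decide_eq_true_eq, decide_eq_true_eq,
      decide_eq_true_eq] at hb
    exact hcon ⟨hb.2, by omega, by omega⟩
  · intro w hw'
    simp only [spec, if_true, List.mem_singleton] at hw'
    subst hw'
    exact hs

theorem type1 (H : Patch n1 n2 P Q num M pos) (C : Comp P Q k N3 s p q T) {e : ℕ} {I J i j : ℤ} (h1 : 1 ≤ I)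
    (h2 : I ≤ n1) (h3 : 1 ≤ J) (h4 : J ≤ n2) (hw : WP n1 n2 e i j) {z : ℕ} (hz : Vt T z) (hs : Cv pos p q z 1 I J)
    (hc : Cv pos p q z e i j) (hr : wroom e = 12) : i = I ∧ j = J := by
  by_contra hcon
  refine c2' H C (ty := 1) (by norm_num) hw.1 h1 h2 h3 h4 ?_ hz ?_ hc
  · unfold c2rel
    rw [okrel_cell h1 h2 h3 h4 hw, Bool.true_and, if_neg (by norm_num), if_pos rfl, Bool.and_eq_true,
      Bool.not_eq_true', decide_eq_true_eq]
    refine ⟨?_, hr⟩
    by_contra hb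
    rw [Bool.not_eq_false, Bool.and_eq_true, decide_eq_true_eq, decide_eq_true_eq] at hb
    exact hcon ⟨by omega, by omega⟩
  · intro w hw'
    simp only [spec, if_true, List.mem_singleton] at hw'
    rw [if_neg (by norm_num), List.mem_singleton] at hw'
    subst hw'
    exact hs

theorem type2 (H : Patch n1 n2 P Q num M pos) (C : Comp P Q k N3 s p q T) {e : ℕ} {I J i j : ℤ} (h1 : 1 ≤ I)
    (h2 : I ≤ n1) (h3 : 1 ≤ J) (h4 : J ≤ n2) (hw : WP n1 n2 e i j) {z : ℕ} (hz : Vt T z) (hs0 : Cv pos p q z 0 I J)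
    (hs1 : Cv pos p q z 1 I J) (hs2 : Cv pos p q z 2 I J) (hc : Cv pos p q z e i j) (hr : wroom e = 13) : False := by
  refine c2' H C (ty := 2) (by norm_num) hw.1 h1 h2 h3 h4 ?_ hz ?_ hc
  · unfold c2rel
    rw [okrel_cell h1 h2 h3 h4 hw, Bool.true_and, if_neg (by norm_num), if_neg (by norm_num), decide_eq_true_eq]
    exact hr
  · intro w hw'
    unfold spec at hw'
    rw [if_neg (by norm_num), if_neg (by norm_num)] at hw'
    simp only [List.mem_cons, List.not_mem_nil, or_false] at hw'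
    rcases hw' with rfl | rfl | rfl
    · exact hs0
    · exact hs1
    · exact hs2

theorem exists_apex (H : Patch n1 n2 P Q num M pos) (C : Comp P Q k N3 s p q T) {w : ℕ} {i j : ℤ}
    (hw : WP n1 n2 w i j) : ∃ z, P.n ≤ z ∧ z < P.n + s ∧ Vt T z ∧ Cv pos p q z w i j ∧
      ((num (wu w i j), num (wv w i j), z) ∈ T ∨ p z ∈ openSegment ℝ (posP (wu w i j)) (posP (wv w i j))) := by
  have hW : IsWall P (num (wu w i j)) (num (wv w i j)) := (H.wall _ _).2 ⟨w, i, j, hw, rfl, rfl⟩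
  rcases C.wall _ _ hW with ⟨z, hz⟩ | ⟨z, z', hz1, hz2, hz3, hz4, hz5⟩
  · exact ⟨z, apex_ge H C hw hz, C.lab _ hz _ (Or.inr (Or.inr rfl)), ⟨_, hz, Or.inr (Or.inr rfl)⟩,
      cv_tri H C hw hz, Or.inl hz⟩
  · rw [H.ePos _ (pres_wu hw), H.ePos _ (pres_wv hw)] at hz4
    rw [H.eQ _ (pres_wu hw), H.eQ _ (pres_wv hw)] at hz5
    exact ⟨z, hz1, hz2, ⟨_, hz3, Or.inr (Or.inl rfl)⟩, cv_wall H C hw hz4 hz5, Or.inr hz4⟩

end

end Pool.Agent.Lib.MP_6ff0c5_lc.C
end
end
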