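import Pool.Agent.Lib.MP_6ff0c5_lc.C.Forced

/-!
MP_6ff0c5_lc, part C: the Steiner labels are the centres of the rooms.
-/

set_option autoImplicit false

namespace Pool.Agent.Lib.MP_6ff0c5_lc.C

open K Filter Topology

/-- a room of the patch (`12` an A room, `13` a B room) -/
def Rm (n1 n2 r : ℕ) (i j : ℤ) : Prop := (r = 12 ∨ r = 13) ∧ 1 ≤ i ∧ i ≤ n1 ∧ 1 ≤ j ∧ j ≤ n2

/-- The Steiner labels are the centres of the rooms, and the apexes of the walls are the centres. -/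
structure Forced (n1 n2 : ℕ) (P : Poly) (num : Vx → ℕ) (s : ℕ) (T : Finset (ℕ × ℕ × ℕ)) (st : ℕ → ℤ → ℤ → ℕ) : Prop where
  s_eq : s = 2 * n1 * n2
  inj : ∀ r i j r' i' j', Rm n1 n2 r i j → Rm n1 n2 r' i' j' → st r i j = st r' i' j' → r = r' ∧ i = i' ∧ j = j'
  surj : ∀ z, P.n ≤ z → z < P.n + s → ∃ r i j, Rm n1 n2 r i j ∧ z = st r i j
  ge : ∀ r i j, Rm n1 n2 r i j → P.n ≤ st r i j ∧ st r i j < P.n + s
  tri : ∀ w i j, WP n1 n2 w i j → (num (wu w i j), num (wv w i j), st (wroom w) i j) ∈ T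

theorem wroom_or (w : ℕ) : wroom w = 12 ∨ wroom w = 13 := by
  unfold wroom; split_ifs <;> simp

section

variable {n1 n2 : ℕ} {P Q : Poly} {num : Vx → ℕ} {M : ℝ} {pos : Vx → Pt} {k N3 s : ℕ} {p q : ℕ → Pt}
  {T : Finset (ℕ × ℕ × ℕ)}

theorem wp_cell {w : ℕ} (hw : w < 12) {i j : ℤ} (h1 : 1 ≤ i) (h2 : i ≤ n1) (h3 : 1 ≤ j) (h4 : j ≤ n2) :
    WP n1 n2 w i j := by
  refine ⟨by omega, h1, h2, h3, h4, ?_, ?_, ?_, ?_⟩ <;> intro h <;> omega

theorem rm_of_wp {w : ℕ} {i j : ℤ} (h : WP n1 n2 w i j) : Rm n1 n2 (wroom w) i j :=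
  ⟨wroom_or w, h.2.1, h.2.2.1, h.2.2.2.1, h.2.2.2.2.1⟩

/-- the rooms as a finite set -/
noncomputable def rooms (n1 n2 : ℕ) : Finset (ℕ × ℤ × ℤ) :=
  ({12, 13} : Finset ℕ) ×ˢ (Finset.Icc (1 : ℤ) n1 ×ˢ Finset.Icc (1 : ℤ) n2)

theorem mem_rooms {t : ℕ × ℤ × ℤ} : t ∈ rooms n1 n2 ↔ Rm n1 n2 t.1 t.2.1 t.2.2 := by
  unfold rooms Rm
  rw [Finset.mem_product, Finset.mem_product, Finset.mem_insert, Finset.mem_singleton, Finset.mem_Icc, Finset.mem_Icc]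
  tauto

theorem card_rooms : (rooms n1 n2).card = 2 * n1 * n2 := by
  unfold rooms
  rw [Finset.card_product, Finset.card_product, Int.card_Icc, Int.card_Icc]
  have h1 : ({12, 13} : Finset ℕ).card = 2 := rfl
  have h2 : ((n1 : ℤ) + 1 - 1).toNat = n1 := by omega
  have h3 : ((n2 : ℤ) + 1 - 1).toNat = n2 := by omega
  rw [h1, h2, h3, mul_assoc]

/-- **The Steiner labels are the centres of the rooms.** -/
theorem forced (H : Patch n1 n2 P Q num M pos) (C : Comp P Q (2 * n1 * n2) N3 s p q T) :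
    ∃ st, Forced n1 n2 P num s T st := by
  have hA : ∀ c : ℤ × ℤ, ∃ z, 1 ≤ c.1 → c.1 ≤ n1 → 1 ≤ c.2 → c.2 ≤ n2 →
      (P.n ≤ z ∧ z < P.n + s ∧ Vt T z ∧ Cv pos p q z 1 c.1 c.2) := by
    intro c
    by_cases hc : 1 ≤ c.1 ∧ c.1 ≤ n1 ∧ 1 ≤ c.2 ∧ c.2 ≤ n2
    · obtain ⟨z, h1, h2, h3, h4, -⟩ := exists_apex H C (wp_cell (w := 1) (by norm_num) hc.1 hc.2.1 hc.2.2.1 hc.2.2.2)
      exact ⟨z, fun _ _ _ _ => ⟨h1, h2, h3, h4⟩⟩
    · exact ⟨0, fun h1 h2 h3 h4 => absurd ⟨h1, h2, h3, h4⟩ hc⟩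
  have hB : ∀ c : ℤ × ℤ, ∃ z, 1 ≤ c.1 → c.1 ≤ n1 → 1 ≤ c.2 → c.2 ≤ n2 →
      (P.n ≤ z ∧ z < P.n + s ∧ Vt T z ∧ Cv pos p q z 10 c.1 c.2) := by
    intro c
    by_cases hc : 1 ≤ c.1 ∧ c.1 ≤ n1 ∧ 1 ≤ c.2 ∧ c.2 ≤ n2
    · obtain ⟨z, h1, h2, h3, h4, -⟩ := exists_apex H C (wp_cell (w := 10) (by norm_num) hc.1 hc.2.1 hc.2.2.1 hc.2.2.2)
      exact ⟨z, fun _ _ _ _ => ⟨h1, h2, h3, h4⟩⟩
    · exact ⟨0, fun h1 h2 h3 h4 => absurd ⟨h1, h2, h3, h4⟩ hc⟩
  choose fA hA using hA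
  choose fB hB using hB
  set st : ℕ → ℤ → ℤ → ℕ := fun r i j => if r = 12 then fA (i, j) else fB (i, j) with hst
  have st12 : ∀ i j, st 12 i j = fA (i, j) := fun i j => by rw [hst]; simp
  have st13 : ∀ i j, st 13 i j = fB (i, j) := fun i j => by rw [hst]; simp
  -- the chosen labels are different
  have hinj : ∀ r i j r' i' j', Rm n1 n2 r i j → Rm n1 n2 r' i' j' → st r i j = st r' i' j' →
      r = r' ∧ i = i' ∧ j = j' := by
    rintro r i j r' i' j' ⟨hr, a1, a2, a3, a4⟩ ⟨hr', b1, b2, b3, b4⟩ he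
    rcases hr with rfl | rfl <;> rcases hr' with rfl | rfl
    · rw [st12, st12] at he
      obtain ⟨-, -, c3, c4⟩ := hA (i, j) a1 a2 a3 a4
      obtain ⟨-, -, d3, d4⟩ := hA (i', j') b1 b2 b3 b4
      rw [← he] at d4
      obtain ⟨e1, e2⟩ := type1 H C a1 a2 a3 a4 (wp_cell (w := 1) (by norm_num) b1 b2 b3 b4) c3 c4 d4 rfl
      exact ⟨rfl, e1.symm, e2.symm⟩
    · rw [st12, st13] at he
      obtain ⟨-, -, c3, c4⟩ := hA (i, j) a1 a2 a3 a4
      obtain ⟨-, -, d3, d4⟩ := hB (i', j') b1 b2 b3 b4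
      rw [← he] at d4
      obtain ⟨e1, -⟩ := type0 H C b1 b2 b3 b4 (wp_cell (w := 1) (by norm_num) a1 a2 a3 a4) c3 d4 c4
      exact absurd e1 (by decide)
    · rw [st12, st13] at he
      obtain ⟨-, -, c3, c4⟩ := hB (i, j) a1 a2 a3 a4
      obtain ⟨-, -, d3, d4⟩ := hA (i', j') b1 b2 b3 b4
      rw [← he] at d4
      obtain ⟨e1, -⟩ := type0 H C a1 a2 a3 a4 (wp_cell (w := 1) (by norm_num) b1 b2 b3 b4) c3 c4 d4
      exact absurd e1 (by decide)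
    · rw [st13, st13] at he
      obtain ⟨-, -, c3, c4⟩ := hB (i, j) a1 a2 a3 a4
      obtain ⟨-, -, d3, d4⟩ := hB (i', j') b1 b2 b3 b4
      rw [← he] at d4
      obtain ⟨-, e1, e2⟩ := type0 H C a1 a2 a3 a4 (wp_cell (w := 10) (by norm_num) b1 b2 b3 b4) c3 c4 d4
      exact ⟨rfl, e1.symm, e2.symm⟩
  have hge : ∀ r i j, Rm n1 n2 r i j → P.n ≤ st r i j ∧ st r i j < P.n + s := by
    rintro r i j ⟨hr, a1, a2, a3, a4⟩
    rcases hr with rfl | rfl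
    · rw [st12]; exact ⟨(hA (i, j) a1 a2 a3 a4).1, (hA (i, j) a1 a2 a3 a4).2.1⟩
    · rw [st13]; exact ⟨(hB (i, j) a1 a2 a3 a4).1, (hB (i, j) a1 a2 a3 a4).2.1⟩
  -- pigeonhole
  have hcard : ((rooms n1 n2).image fun t => st t.1 t.2.1 t.2.2).card = 2 * n1 * n2 := by
    rw [Finset.card_image_of_injOn, card_rooms]
    rintro ⟨r, i, j⟩ h1 ⟨r', i', j'⟩ h2 h3
    obtain ⟨e1, e2, e3⟩ := hinj r i j r' i' j' (mem_rooms.1 h1) (mem_rooms.1 h2) h3
    rw [e1, e2, e3]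
  have hsub : ((rooms n1 n2).image fun t => st t.1 t.2.1 t.2.2) ⊆ Finset.Ico P.n (P.n + s) := by
    intro z hz
    rw [Finset.mem_image] at hz
    obtain ⟨t, ht, rfl⟩ := hz
    exact Finset.mem_Ico.2 (hge _ _ _ (mem_rooms.1 ht))
  have hle := Finset.card_le_card hsub
  rw [hcard, Nat.card_Ico] at hle
  have hseq : s = 2 * n1 * n2 := by have := C.le; omega
  have himg : ((rooms n1 n2).image fun t => st t.1 t.2.1 t.2.2) = Finset.Ico P.n (P.n + s) := by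
    refine Finset.eq_of_subset_of_card_le hsub ?_
    rw [hcard, Nat.card_Ico]; omega
  have hsurj : ∀ z, P.n ≤ z → z < P.n + s → ∃ r i j, Rm n1 n2 r i j ∧ z = st r i j := by
    intro z h1 h2
    have hz : z ∈ Finset.Ico P.n (P.n + s) := Finset.mem_Ico.2 ⟨h1, h2⟩
    rw [← himg, Finset.mem_image] at hz
    obtain ⟨t, ht, he⟩ := hz
    exact ⟨t.1, t.2.1, t.2.2, mem_rooms.1 ht, he.symm⟩
  -- a label that covers a wall of an A room
  have key12 : ∀ (z w : ℕ) (i j : ℤ), P.n ≤ z → z < P.n + s → Vt T z → WP n1 n2 w i j → wroom w = 12 → Cv pos p q z w i j →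
      z = st 12 i j := by
    intro z w i j h1 h2 h3 hw hr hc
    obtain ⟨r, I, J, ⟨hr', a1, a2, a3, a4⟩, rfl⟩ := hsurj z h1 h2
    rcases hr' with rfl | rfl
    · rw [st12] at hc h3 ⊢
      obtain ⟨e1, e2⟩ := type1 H C a1 a2 a3 a4 hw h3 (hA (I, J) a1 a2 a3 a4).2.2.2 hc hr
      rw [st12, e1, e2]
    · rw [st13] at hc h3
      obtain ⟨e1, -⟩ := type0 H C a1 a2 a3 a4 hw h3 (hB (I, J) a1 a2 a3 a4).2.2.2 hc
      rw [hr] at e1
      exact absurd e1 (by norm_num)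
  have cov12 : ∀ (w : ℕ) (i j : ℤ), w < 3 → 1 ≤ i → i ≤ n1 → 1 ≤ j → j ≤ n2 → Cv pos p q (st 12 i j) w i j := by
    intro w i j hw a1 a2 a3 a4
    have hwp := wp_cell (n1 := n1) (n2 := n2) (w := w) (by omega) a1 a2 a3 a4
    obtain ⟨z, h1, h2, h3, h4, -⟩ := exists_apex H C hwp
    rw [← key12 z w i j h1 h2 h3 hwp (by unfold wroom; rw [if_pos hw]) h4]
    exact h4
  have key : ∀ (z w : ℕ) (i j : ℤ), P.n ≤ z → z < P.n + s → Vt T z → WP n1 n2 w i j → Cv pos p q z w i j →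
      z = st (wroom w) i j := by
    intro z w i j h1 h2 h3 hw hc
    rcases wroom_or w with hr | hr
    · rw [hr]; exact key12 z w i j h1 h2 h3 hw hr hc
    · rw [hr]
      obtain ⟨r, I, J, ⟨hr', a1, a2, a3, a4⟩, rfl⟩ := hsurj z h1 h2
      rcases hr' with rfl | rfl
      · exfalso
        exact type2 H C a1 a2 a3 a4 hw h3 (cov12 0 I J (by norm_num) a1 a2 a3 a4)
          (cov12 1 I J (by norm_num) a1 a2 a3 a4) (cov12 2 I J (by norm_num) a1 a2 a3 a4) hc hr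
      · rw [st13] at hc h3 ⊢
        obtain ⟨-, e1, e2⟩ := type0 H C a1 a2 a3 a4 hw h3 (hB (I, J) a1 a2 a3 a4).2.2.2 hc
        rw [st13, e1, e2]
  have cov : ∀ (w : ℕ) (i j : ℤ), WP n1 n2 w i j → Cv pos p q (st (wroom w) i j) w i j := by
    intro w i j hw
    obtain ⟨z, h1, h2, h3, h4, -⟩ := exists_apex H C hw
    rw [← key z w i j h1 h2 h3 hw h4]
    exact h4
  refine ⟨st, hseq, hinj, hsurj, hge, ?_⟩
  intro w i j hw
  obtain ⟨z, h1, h2, h3, h4, h5⟩ := exists_apex H C hw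
  have hz := key z w i j h1 h2 h3 hw h4
  rcases h5 with h5 | h5
  · rw [← hz]; exact h5
  · exfalso
    refine c5_sound (f := w) hw.1 (s := p z - offP i j) ?_ ?_
    · rw [posP_sh (wu w 0 0) i j, posP_sh (wv w 0 0) i j, wu_sh, wv_sh, zero_add, zero_add]
      obtain ⟨a, b, ha, hb, hab, he⟩ := h5
      refine ⟨a, b, ha, hb, hab, ?_⟩
      rw [← he]
      unfold offP
      rw [smul_sub, smul_sub]
      have : ((200 * (i : ℝ), 200 * (j : ℝ)) : Pt) = a • ((200 * (i : ℝ), 200 * (j : ℝ)) : Pt) +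
          b • ((200 * (i : ℝ), 200 * (j : ℝ)) : Pt) := by rw [← add_smul, hab, one_smul]
      nth_rewrite 3 [this]
      abel
    · intro f hf
      have hf' : f.1 < 12 ∧ f.2.1 = 0 ∧ f.2.2 = 0 ∧ wroom f.1 = wroom w := by
        unfold roomWalls at hf
        rcases wroom_or w with hr | hr
        · rw [if_pos hr] at hf
          rw [hr]
          simp only [List.mem_cons, List.not_mem_nil, or_false] at hf
          rcases hf with rfl | rfl | rfl <;> decide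
        · rw [if_neg (by rw [hr]; norm_num)] at hf
          rw [hr]
          simp only [List.mem_cons, List.not_mem_nil, or_false] at hf
          rcases hf with rfl | rfl | rfl | rfl | rfl | rfl | rfl | rfl | rfl <;> decide
      obtain ⟨g1, g2, g3, g4⟩ := hf'
      have hc := cov f.1 i j (wp_cell g1 hw.2.1 hw.2.2.1 hw.2.2.2.1 hw.2.2.2.2.1)
      rw [g4, ← hz] at hc
      have := hc.trP i j
      rw [sub_self, sub_self] at this
      rw [g2, g3]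
      exact this

end

end Pool.Agent.Lib.MP_6ff0c5_lc.C
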