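import Pool.Agent.Lib.MP_6ff0c5_lc.C.Pos

section

/-!
MP_6ff0c5_lc, part C: coordinates of the centres and the exact form of the critical conditions.
-/

set_option autoImplicit false

namespace Pool.Agent.Lib.MP_6ff0c5_lc.C

open N (Net BT D1 D2 D3 a3 u3 Tight)

/-- position of the centre of the A room of cell `(i, j)` with the coordinates `a` -/
noncomputable def coordA (M : ℝ) (i j : ℤ) (a : ℝ × ℝ) : Pt :=
  (M * ((nomQ (12, i, j)).1 : ℝ) + 214500 * M * (143 / 722 * a.1), M * ((nomQ (12, i, j)).2 : ℝ) - 214500 * M * (a.2 / 2))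

/-- position of the centre of the B room of cell `(i, j)` with the coordinates `u` -/
noncomputable def coordB (M : ℝ) (i j : ℤ) (u : ℝ × ℝ) : Pt :=
  (M * ((nomQ (13, i, j)).1 : ℝ) + 214500 * M * (429 / 361 * u.1), M * ((nomQ (13, i, j)).2 : ℝ) + 214500 * M * (u.2 / 4))

/-- scaled nominal position -/
noncomputable def nomM (M : ℝ) (v : Vx) : Pt := (M * ((nomQ v).1 : ℝ), M * ((nomQ v).2 : ℝ))

theorem coordA_surj {M : ℝ} (hM : 0 < M) (i j : ℤ) (x : Pt) : ∃ a, coordA M i j a = x := by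
  refine ⟨((x.1 - M * ((nomQ (12, i, j)).1 : ℝ)) / (214500 * M * (143 / 722)),
    -(x.2 - M * ((nomQ (12, i, j)).2 : ℝ)) / (214500 * M * (1 / 2))), ?_⟩
  unfold coordA
  ext
  · simp only; field_simp; ring
  · simp only; field_simp; ring

theorem coordB_surj {M : ℝ} (hM : 0 < M) (i j : ℤ) (x : Pt) : ∃ u, coordB M i j u = x := by
  refine ⟨((x.1 - M * ((nomQ (13, i, j)).1 : ℝ)) / (214500 * M * (429 / 361)),
    (x.2 - M * ((nomQ (13, i, j)).2 : ℝ)) / (214500 * M * (1 / 4))), ?_⟩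
  unfold coordB
  ext
  · simp only; field_simp; ring
  · simp only; field_simp; ring

section

variable (M : ℝ) (i j : ℤ) (a u : ℝ × ℝ)

/-- door 1, `L1` -/
theorem crit_d1 (d : Pt) : orient (coordA M i j a) (coordB M i j u) (nomM M (0, i, j) + d) =
    3947679450000 / 361 * M ^ 2 * D1 a u + ((coordB M i j u).1 - (coordA M i j a).1) * d.2 -
      ((coordB M i j u).2 - (coordA M i j a).2) * d.1 := by
  unfold orient coordA coordB nomM D1 nomQ tabQ
  simp only [Prod.fst_add, Prod.snd_add, List.getD_cons_succ, List.getD_cons_zero]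
  push_cast
  ring

/-- door 2, `L2` -/
theorem crit_d2 (d : Pt) : orient (coordA M i j a) (coordB M (i - 1) j u) (nomM M (2, i, j) + d) =
    7668375000 * M ^ 2 * D2 a u + ((coordB M (i - 1) j u).1 - (coordA M i j a).1) * d.2 -
      ((coordB M (i - 1) j u).2 - (coordA M i j a).2) * d.1 := by
  unfold orient coordA coordB nomM D2 nomQ tabQ
  simp only [Prod.fst_add, Prod.snd_add, List.getD_cons_succ, List.getD_cons_zero]
  push_cast
  ring

/-- door 3, `R3` -/
theorem crit_d3 (d : Pt) : orient (coordA M i j a) (nomM M (5, i, j) + d) (coordB M i (j - 1) u) =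
    39875550000 * M ^ 2 * D3 a u + d.1 * ((coordB M i (j - 1) u).2 - (coordA M i j a).2) -
      d.2 * ((coordB M i (j - 1) u).1 - (coordA M i j a).1) := by
  unfold orient coordA coordB nomM D3 nomQ tabQ a3 u3
  simp only [Prod.fst_add, Prod.snd_add, List.getD_cons_succ, List.getD_cons_zero]
  push_cast
  ring

/-- wall 3, `R1`, `V` -/
theorem crit_w3 (d : Pt) : orient (nomM M (1, i, j)) (nomM M (6, i, j) + d) (coordB M i j u) =
    4785066000 * M ^ 2 * (u.1 - u3 u) + d.1 * ((coordB M i j u).2 - (nomM M (1, i, j)).2) -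
      d.2 * ((coordB M i j u).1 - (nomM M (1, i, j)).1) := by
  unfold orient coordB nomM nomQ tabQ u3
  simp only [Prod.fst_add, Prod.snd_add, List.getD_cons_succ, List.getD_cons_zero]
  push_cast
  ring

/-- wall 9, `W1`, `W2` -/
theorem crit_w9 (d : Pt) : orient (nomM M (8, i, j) + d) (nomM M (9, i, j)) (coordB M i j u) =
    4785066000 * M ^ 2 * (u.1 + u3 u) + d.1 * ((nomM M (9, i, j)).2 - (coordB M i j u).2) -
      d.2 * ((nomM M (9, i, j)).1 - (coordB M i j u).1) := by
  unfold orient coordB nomM nomQ tabQ u3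
  simp only [Prod.fst_add, Prod.snd_add, List.getD_cons_succ, List.getD_cons_zero]
  push_cast
  ring

/-- wall 11, `W3`, `L1` -/
theorem crit_w11 (d : Pt) : orient (nomM M (10, i, j) + d) (nomM M (0, i, j)) (coordB M i j u) =
    709570075500 / 361 * M ^ 2 * (-u.1) + d.1 * ((nomM M (0, i, j)).2 - (coordB M i j u).2) -
      d.2 * ((nomM M (0, i, j)).1 - (coordB M i j u).1) := by
  unfold orient coordB nomM nomQ tabQ
  simp only [Prod.fst_add, Prod.snd_add, List.getD_cons_succ, List.getD_cons_zero]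
  push_cast
  ring

/-- wall 5, `Y`, `N` -/
theorem crit_w5 (d : Pt) : orient (nomM M (7, i, j) + d) (nomM M (11, i, j)) (coordB M i j u) =
    2718787500 * M ^ 2 * (2 * u3 u - u.1) + d.1 * ((nomM M (11, i, j)).2 - (coordB M i j u).2) -
      d.2 * ((nomM M (11, i, j)).1 - (coordB M i j u).1) := by
  unfold orient coordB nomM nomQ tabQ u3
  simp only [Prod.fst_add, Prod.snd_add, List.getD_cons_succ, List.getD_cons_zero]
  push_cast
  ring

end

end Pool.Agent.Lib.MP_6ff0c5_lc.C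
end

section

section

/-!
MP_6ff0c5_lc, part C: a small solution of the network system gives positively oriented triangles.
-/

set_option autoImplicit false

namespace Pool.Agent.Lib.MP_6ff0c5_lc.C

open N (Net BT D1 D2 D3 a3 u3 Tight)

/-- coordinates of the A rooms: the given ones for active rooms, a fixed small position for the others -/
noncomputable def ca (M : ℝ) (N : Net) (a : ℤ → ℤ → ℝ × ℝ) (i j : ℤ) : ℝ × ℝ :=
  if N.act (i + j) j = true then a (i + j) j else (1 / (50000 * M), -(1 / (100000 * M)))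

open Classical in
/-- coordinates of the B rooms: the given ones for rooms that are not free, `0` for the others -/
noncomputable def cb (N : Net) (b : ℤ → ℤ → ℝ × ℝ) (i j : ℤ) : ℝ × ℝ :=
  if N.bt (i + j) j = .free then (0, 0) else b (i + j) j

/-- positions of all vertices and centres (centres inside the patch `1 ≤ i ≤ n1`, `1 ≤ j ≤ n2` at their actual places) -/
noncomputable def posX (M : ℤ) (N : Net) (n1 n2 : ℕ) (a b : ℤ → ℤ → ℝ × ℝ) (v : Vx) : Pt :=
  if 1 ≤ v.2.1 ∧ v.2.1 ≤ n1 ∧ 1 ≤ v.2.2 ∧ v.2.2 ≤ n2 then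
    (if v.1 = 12 then coordA M v.2.1 v.2.2 (ca M N a v.2.1 v.2.2)
      else if v.1 = 13 then coordB M v.2.1 v.2.2 (cb N b v.2.1 v.2.2) else posQ M N v)
  else posQ M N v

end Pool.Agent.Lib.MP_6ff0c5_lc.C
end

section

/-!
MP_6ff0c5_lc, part C: the centre of an A room with three open doors is pinned to its nominal position.
-/

set_option autoImplicit false

namespace Pool.Agent.Lib.MP_6ff0c5_lc.C

open N (Net BT D1 D2 D3 a3 u3 Tight)

private lemma pinA_posQ (M : ℤ) (N : Net) (v : Vx) :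
    posQ M N v = nomM M v + toPt (dispQ N v) := by
  unfold posQ iposQ toPt nomM
  ext
  · simp
  · simp

private lemma pinA_div {M t : ℝ} (ht0 : 0 < t) (ht : M * t = 1) {c D X : ℝ}
    (h : 0 < c * M ^ 2 * D + M * X) : 0 < c * D + t * X := by
  have h1 : 0 < (c * M ^ 2 * D + M * X) * t ^ 2 := mul_pos h (by positivity)
  have h2 : (c * M ^ 2 * D + M * X) * t ^ 2 = c * D + t * X := by
    calc (c * M ^ 2 * D + M * X) * t ^ 2 = c * D * (M * t) ^ 2 + t * X * (M * t) := by ring
      _ = _ := by rw [ht]; ring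
  rwa [h2] at h1

private lemma pinA_mul {t x y : ℝ} (hy : |y| ≤ t) : x * y ≤ |x| * t ∧ -(|x| * t) ≤ x * y := by
  have h1 : |x * y| ≤ |x| * t := by
    rw [abs_mul]
    exact mul_le_mul_of_nonneg_left hy (abs_nonneg _)
  exact ⟨(le_abs_self _).trans h1, by linarith [neg_abs_le (x * y)]⟩

/-- The door conditions of an A room bound its coordinates. `posQ M N v` is `nomM M v + toPt (dispQ N v)`, `L1` (kind 0)
has no displacement, `L2` (kind 2) has `(0, δ)`, `R3` (kind 5) has `(δ, 0)`, `δ ∈ {0, 1}`. By `crit_d1`, `crit_d2`, `crit_d3`: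
`D1 a u > 0`, `7668375000 M² D2 a v + δ (214500 M + ..) > 0`, `39875550000 M² D3 a w + δ (1083000 M + ..) > 0`, where `..` are
the displacements of the centres (`≤ 254905 M (|a| + |v|)`). So `a1 > -1/(50M) - c|a|/M`, `a2 > -1/(20 M) - c|a|/M`,
`a3 > -1/(20 M) - c |a|/M` with `c ≤ 1000`; since `a1 + a2 + a3 = 0` and `M ≥ 10^9`: `|a| ≤ 1/M`. -/
theorem pinA {M : ℤ} (hM : 1000000000 ≤ M) (N : Net) {i j : ℤ} {a u v w : ℝ × ℝ}
    (hu : |u.1| ≤ 1 / (50 * M) ∧ |u.2| ≤ 1 / (50 * M)) (hv : |v.1| ≤ 1 / (50 * M) ∧ |v.2| ≤ 1 / (50 * M))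
    (hw : |w.1| ≤ 1 / (50 * M) ∧ |w.2| ≤ 1 / (50 * M))
    (h1 : 0 < orient (coordA M i j a) (coordB M i j u) (posQ M N (0, i, j)))
    (h2 : 0 < orient (coordA M i j a) (coordB M (i - 1) j v) (posQ M N (2, i, j)))
    (h3 : 0 < orient (coordA M i j a) (posQ M N (5, i, j)) (coordB M i (j - 1) w)) :
    |a.1| ≤ 1 / M ∧ |a.2| ≤ 1 / M := by
  have hMr : (1000000000 : ℝ) ≤ (M : ℝ) := by exact_mod_cast hM
  have hM0 : (0 : ℝ) < (M : ℝ) := by linarith
  obtain ⟨t, ht⟩ : ∃ t : ℝ, t = 1 / (M : ℝ) := ⟨_, rfl⟩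
  have ht0 : 0 < t := by rw [ht]; positivity
  have hMt : (M : ℝ) * t = 1 := by rw [ht]; field_simp
  have ht9 : t ≤ 1 / 1000000000 := by
    rw [ht]
    exact one_div_le_one_div_of_le (by norm_num) hMr
  have ht50 : 1 / (50 * (M : ℝ)) = t / 50 := by rw [ht]; field_simp
  rw [ht50] at hu hv hw
  rw [← ht]
  obtain ⟨hu1, hu2⟩ := hu
  obtain ⟨hv1, hv2⟩ := hv
  obtain ⟨hw1, hw2⟩ := hw
  rw [pinA_posQ] at h1 h2 h3
  rw [crit_d1] at h1
  rw [crit_d2] at h2
  rw [crit_d3] at h3
  have e1 : dispQ N (0, i, j) = (0, 0) := by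
    unfold dispQ
    simp
  obtain ⟨δ2, e2, d20, d21⟩ : ∃ δ : ℝ, toPt (dispQ N (2, i, j)) = (0, δ) ∧ 0 ≤ δ ∧ δ ≤ 1 := by
    unfold dispQ toPt
    by_cases hact : N.act (i + j) j = true
    · exact ⟨0, by simp [hact], le_rfl, zero_le_one⟩
    · exact ⟨1, by simp [hact], zero_le_one, le_rfl⟩
  obtain ⟨δ3, e3, d30, d31⟩ : ∃ δ : ℝ, toPt (dispQ N (5, i, j)) = (δ, 0) ∧ 0 ≤ δ ∧ δ ≤ 1 := by
    unfold dispQ toPt
    by_cases hact : N.act (i + j) j = true
    · exact ⟨0, by simp [hact], le_rfl, zero_le_one⟩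
    · exact ⟨1, by simp [hact], zero_le_one, le_rfl⟩
  rw [e1] at h1
  rw [e2] at h2
  rw [e3] at h3
  obtain ⟨a1, a2⟩ := a
  obtain ⟨u1, u2⟩ := u
  obtain ⟨v1, v2⟩ := v
  obtain ⟨w1, w2⟩ := w
  have f1 : (0 : ℝ) < 3947679450000 / 361 * (M : ℝ) ^ 2 * D1 (a1, a2) (u1, u2) + M * 0 := by
    refine lt_of_lt_of_eq h1 ?_
    unfold toPt
    simp
  have f2 : (0 : ℝ) < 7668375000 * (M : ℝ) ^ 2 * D2 (a1, a2) (v1, v2) +
      M * ((214500 + 214500 * (429 / 361 * v1 - 143 / 722 * a1)) * δ2) := by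
    refine lt_of_lt_of_eq h2 ?_
    unfold coordA coordB nomQ tabQ
    simp only [List.getD_cons_succ, List.getD_cons_zero]
    push_cast
    ring
  have f3 : (0 : ℝ) < 39875550000 * (M : ℝ) ^ 2 * D3 (a1, a2) (w1, w2) +
      M * (δ3 * (1083000 + 214500 * (w2 / 4 + a2 / 2))) := by
    refine lt_of_lt_of_eq h3 ?_
    unfold coordA coordB nomQ tabQ
    simp only [List.getD_cons_succ, List.getD_cons_zero]
    push_cast
    ring
  have g1 := pinA_div ht0 hMt f1
  have g2 := pinA_div ht0 hMt f2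
  have g3 := pinA_div ht0 hMt f3
  simp only at hu1 hu2 hv1 hv2 hw1 hw2 ⊢
  unfold D1 at g1
  unfold D2 at g2
  unfold D3 a3 u3 at g3
  simp only at g1 g2 g3
  have hu1' := abs_le.1 hu1
  have hu2' := abs_le.1 hu2
  have hv1' := abs_le.1 hv1
  have hv2' := abs_le.1 hv2
  have hw1' := abs_le.1 hw1
  have hw2' := abs_le.1 hw2
  obtain ⟨m1, m1'⟩ := pinA_mul (x := a1) hu2
  obtain ⟨m2, m2'⟩ := pinA_mul (x := a2) hu1
  obtain ⟨m3, m3'⟩ := pinA_mul (x := a1) hv2
  obtain ⟨m4, m4'⟩ := pinA_mul (x := a2) hv1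
  obtain ⟨m5, m5'⟩ := pinA_mul (x := a1) hw2
  obtain ⟨m6, m6'⟩ := pinA_mul (x := a2) hw1
  have hA1 := abs_nonneg a1
  have hA2 := abs_nonneg a2
  -- products with `t`
  have k1 : |a1| * (t / 50) ≤ |a1| / 1000000000 := by
    have := mul_le_mul_of_nonneg_left (show t / 50 ≤ 1 / 1000000000 by linarith only [ht9, ht0]) hA1
    linarith only [this]
  have k2 : |a2| * (t / 50) ≤ |a2| / 1000000000 := by
    have := mul_le_mul_of_nonneg_left (show t / 50 ≤ 1 / 1000000000 by linarith only [ht9, ht0]) hA2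
    linarith only [this]
  -- the displacement terms
  have q2 : t * ((214500 + 214500 * (429 / 361 * v1 - 143 / 722 * a1)) * δ2) ≤
      214500 * (2 * t + |a1| / 1000000000) := by
    have r1 : 214500 + 214500 * (429 / 361 * v1 - 143 / 722 * a1) ≤ 214500 * (2 + |a1|) := by
      linarith only [neg_abs_le a1, hA1, hv1'.2, ht9]
    have r2 : (214500 + 214500 * (429 / 361 * v1 - 143 / 722 * a1)) * δ2 ≤
        214500 * (2 + |a1|) := by
      have r3 : (214500 + 214500 * (429 / 361 * v1 - 143 / 722 * a1)) * δ2 ≤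
          (214500 * (2 + |a1|)) * δ2 := mul_le_mul_of_nonneg_right r1 d20
      have r4 : (214500 * (2 + |a1|)) * δ2 ≤ 214500 * (2 + |a1|) :=
        mul_le_of_le_one_right (by positivity) d21
      linarith
    have r5 := mul_le_mul_of_nonneg_left r2 ht0.le
    refine r5.trans ?_
    have r6 := mul_le_mul_of_nonneg_right ht9 hA1
    linarith only [r6]
  have q3 : t * (δ3 * (1083000 + 214500 * (w2 / 4 + a2 / 2))) ≤
      1083000 * (2 * t + |a2| / 1000000000) := by
    have r1 : 1083000 + 214500 * (w2 / 4 + a2 / 2) ≤ 1083000 * (2 + |a2|) := by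
      linarith only [le_abs_self a2, hA2, hw2'.2, ht9]
    have r2 : δ3 * (1083000 + 214500 * (w2 / 4 + a2 / 2)) ≤ 1083000 * (2 + |a2|) := by
      have r3 : δ3 * (1083000 + 214500 * (w2 / 4 + a2 / 2)) ≤ δ3 * (1083000 * (2 + |a2|)) :=
        mul_le_mul_of_nonneg_left r1 d30
      have r4 : δ3 * (1083000 * (2 + |a2|)) ≤ 1083000 * (2 + |a2|) :=
        mul_le_of_le_one_left (by positivity) d31
      linarith
    have r5 := mul_le_mul_of_nonneg_left r2 ht0.le
    refine r5.trans ?_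
    have r6 := mul_le_mul_of_nonneg_right ht9 hA2
    linarith only [r6]
  have z1 : -(t / 50) - (|a1| + |a2|) / 100000000 ≤ a1 := by
    linarith only [g1, hu1'.1, m1, m1', m2, m2', k1, k2, hA1, hA2]
  have z2 : -(t / 40) - (|a1| + |a2|) / 100000000 ≤ a2 := by
    linarith only [g2, q2, hv2'.1, m3, m3', m4, m4', k1, k2, hA1, hA2, ht0]
  have z3 : a1 + a2 ≤ t / 40 + (|a1| + |a2|) / 100000000 := by
    linarith only [g3, q3, hw1'.1, hw2'.2, m5, m5', m6, m6', k1, k2, hA1, hA2, ht0]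
  have y1 : |a1| ≤ t / 20 + 2 * ((|a1| + |a2|) / 100000000) := by
    rw [abs_le]
    constructor <;> linarith only [z1, z2, z3, hA1, hA2, ht0]
  have y2 : |a2| ≤ t / 20 + 2 * ((|a1| + |a2|) / 100000000) := by
    rw [abs_le]
    constructor <;> linarith only [z1, z2, z3, hA1, hA2, ht0]
  constructor <;> linarith only [y1, y2, hA1, hA2, ht0]

end Pool.Agent.Lib.MP_6ff0c5_lc.C
end

section

/-!
MP_6ff0c5_lc, part C: the centre of a B room is pinned to its nominal position.
-/

set_option autoImplicit false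

namespace Pool.Agent.Lib.MP_6ff0c5_lc.C

open N (Net BT D1 D2 D3 a3 u3 Tight)

private theorem pinB_p0 (M : ℤ) (N : Net) (i j : ℤ) : posQ M N (0, i, j) = nomM (M : ℝ) (0, i, j) := by
  ext <;> simp [posQ, iposQ, toPt, nomM, dispQ]

private theorem pinB_p1 (M : ℤ) (N : Net) (i j : ℤ) : posQ M N (1, i, j) = nomM (M : ℝ) (1, i, j) := by
  ext <;> simp [posQ, iposQ, toPt, nomM, dispQ]

private theorem pinB_p9 (M : ℤ) (N : Net) (i j : ℤ) : posQ M N (9, i, j) = nomM (M : ℝ) (9, i, j) := by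
  ext <;> simp [posQ, iposQ, toPt, nomM, dispQ]

private theorem pinB_p6 (M : ℤ) (N : Net) (i j : ℤ) : ∃ δ : ℝ, 0 ≤ δ ∧ δ ≤ 1 ∧
    posQ M N (6, i, j) = nomM (M : ℝ) (6, i, j) + ((0 : ℝ), δ) := by
  by_cases h : N.bt (i + j) j = .cup ∨ N.bt (i + j) j = .free
  · refine ⟨1, by norm_num, by norm_num, ?_⟩
    ext <;> simp [posQ, iposQ, toPt, nomM, dispQ, h]
  · refine ⟨0, by norm_num, by norm_num, ?_⟩
    ext <;> simp [posQ, iposQ, toPt, nomM, dispQ, h]

private theorem pinB_p8 (M : ℤ) (N : Net) (i j : ℤ) : ∃ δ : ℝ, 0 ≤ δ ∧ δ ≤ 1 ∧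
    posQ M N (8, i, j) = nomM (M : ℝ) (8, i, j) + (-δ, (0 : ℝ)) := by
  by_cases h : N.bt (i + j) j = .cup
  · refine ⟨0, by norm_num, by norm_num, ?_⟩
    ext <;> simp [posQ, iposQ, toPt, nomM, dispQ, h]
  · refine ⟨1, by norm_num, by norm_num, ?_⟩
    ext <;> simp [posQ, iposQ, toPt, nomM, dispQ, h]

private theorem pinB_p10 (M : ℤ) (N : Net) (i j : ℤ) : ∃ δ : ℝ, 0 ≤ δ ∧ δ ≤ 1 ∧
    posQ M N (10, i, j) = nomM (M : ℝ) (10, i, j) + (-δ, (0 : ℝ)) := by
  by_cases h : N.bt (i + j) j = .pin2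
  · refine ⟨0, by norm_num, by norm_num, ?_⟩
    ext <;> simp [posQ, iposQ, toPt, nomM, dispQ, h]
  · refine ⟨1, by norm_num, by norm_num, ?_⟩
    ext <;> simp [posQ, iposQ, toPt, nomM, dispQ, h]

private theorem pinB_c1 (M : ℝ) (i j : ℤ) (u : ℝ × ℝ) : (coordB M i j u).1 - (nomM M (1, i, j)).1 =
    M * (214500 * (429 / 361) * u.1 - 20592) := by
  unfold coordB nomM nomQ tabQ
  simp only [List.getD_cons_succ, List.getD_cons_zero]
  push_cast
  ring

private theorem pinB_c9 (M : ℝ) (i j : ℤ) (u : ℝ × ℝ) : (nomM M (9, i, j)).2 - (coordB M i j u).2 =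
    -(M * (63175 + 53625 * u.2)) := by
  unfold coordB nomM nomQ tabQ
  simp only [List.getD_cons_succ, List.getD_cons_zero]
  push_cast
  ring

private theorem pinB_c0 (M : ℝ) (i j : ℤ) (u : ℝ × ℝ) : (nomM M (0, i, j)).2 - (coordB M i j u).2 =
    -(M * (257400 + 53625 * u.2)) := by
  unfold coordB nomM nomQ tabQ
  simp only [List.getD_cons_succ, List.getD_cons_zero]
  push_cast
  ring

/-- the estimate in real numbers -/
private theorem pinB_real {m x y z d1 d2 d3 : ℝ} (hm : 1000000000 ≤ m) (hz : z = (12 * x - y) / 13)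
    (p1 : 0 ≤ d1) (q1 : d1 ≤ 1) (p2 : 0 ≤ d2) (q2 : d2 ≤ 1) (p3 : 0 ≤ d3) (q3 : d3 ≤ 1)
    (h3 : 0 < 4785066000 * (m * x - m * z) - d1 * (214500 * (429 / 361) * x - 20592))
    (h9 : 0 < 4785066000 * (m * x + m * z) + d2 * (63175 + 53625 * y))
    (h11 : 0 < 709570075500 / 361 * (-(m * x)) + d3 * (257400 + 53625 * y)) :
    |m * x| ≤ 1 / 50 ∧ |m * y| ≤ 1 / 50 := by
  have hm0 : (0 : ℝ) < m := by linarith
  set T := max |m * x| |m * z| with hT
  have hT0 : 0 ≤ T := le_trans (abs_nonneg _) (le_max_left _ _)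
  have tx : |m * x| ≤ T := le_max_left _ _
  have tz : |m * z| ≤ T := le_max_right _ _
  have hy : y = 12 * x - 13 * z := by rw [hz]; ring
  have hx' : |x| ≤ T / 1000000000 := by
    rw [abs_mul, abs_of_pos hm0] at tx
    rw [le_div_iff₀ (by norm_num)]
    calc |x| * 1000000000 ≤ |x| * m := by gcongr
      _ = m * |x| := mul_comm _ _
      _ ≤ T := tx
  have hz' : |z| ≤ T / 1000000000 := by
    rw [abs_mul, abs_of_pos hm0] at tz
    rw [le_div_iff₀ (by norm_num)]
    calc |z| * 1000000000 ≤ |z| * m := by gcongr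
      _ = m * |z| := mul_comm _ _
      _ ≤ T := tz
  obtain ⟨x1, x2⟩ := abs_le.mp hx'
  obtain ⟨z1, z2⟩ := abs_le.mp hz'
  -- the error terms
  have r1 : -20592 - 254905 * (T / 1000000000) ≤ d1 * (214500 * (429 / 361) * x - 20592) := by
    have k1 : -20592 - 254905 * (T / 1000000000) ≤ 214500 * (429 / 361) * x - 20592 := by linarith
    have k2 : -20592 - 254905 * (T / 1000000000) ≤ 0 := by
      have : 0 ≤ T / 1000000000 := by positivity
      linarith
    nlinarith [mul_nonneg p1 (sub_nonneg.mpr k1), mul_nonneg (sub_nonneg.mpr q1) (neg_nonneg.mpr k2)]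
  have y1 : y ≤ 25 * (T / 1000000000) := by rw [hy]; linarith
  have r2 : d2 * (63175 + 53625 * y) ≤ 63175 + 53625 * (25 * (T / 1000000000)) := by
    have k1 : 63175 + 53625 * y ≤ 63175 + 53625 * (25 * (T / 1000000000)) := by linarith
    have k2 : 0 ≤ 63175 + 53625 * (25 * (T / 1000000000)) := by positivity
    nlinarith [mul_nonneg p2 (sub_nonneg.mpr k1), mul_nonneg (sub_nonneg.mpr q2) k2]
  have r3 : d3 * (257400 + 53625 * y) ≤ 257400 + 53625 * (25 * (T / 1000000000)) := by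
    have k1 : 257400 + 53625 * y ≤ 257400 + 53625 * (25 * (T / 1000000000)) := by linarith
    have k2 : 0 ≤ 257400 + 53625 * (25 * (T / 1000000000)) := by positivity
    nlinarith [mul_nonneg p3 (sub_nonneg.mpr k1), mul_nonneg (sub_nonneg.mpr q3) k2]
  set X := m * x with hX
  set Z := m * z with hZ
  -- the four bounds
  have b1 : X ≤ 2 / 10000 + T / 100000 := by linarith
  have b2 : -X ≤ 2 / 10000 + T / 100000 := by linarith
  have b3 : Z ≤ 3 / 10000 + T / 10000 := by linarith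
  have b4 : -Z ≤ 3 / 10000 + T / 10000 := by linarith
  have cX : |X| ≤ 3 / 10000 + T / 10000 := abs_le.mpr ⟨by linarith, by linarith⟩
  have cZ : |Z| ≤ 3 / 10000 + T / 10000 := abs_le.mpr ⟨by linarith, by linarith⟩
  have cT : T ≤ 3 / 10000 + T / 10000 := max_le cX cZ
  have hT1 : T ≤ 4 / 10000 := by linarith
  have hmy : m * y = 12 * X - 13 * Z := by rw [hy, hX, hZ]; ring
  obtain ⟨e1, e2⟩ := abs_le.mp (tx.trans hT1)
  obtain ⟨e3, e4⟩ := abs_le.mp (tz.trans hT1)
  refine ⟨tx.trans (by linarith), ?_⟩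
  rw [hmy]
  exact abs_le.mpr ⟨by linarith, by linarith⟩

/-- A point on the left of the walls 3, 9, 11 of a B room is near the nominal centre. `posQ M N v` is
`nomM M v + toPt (dispQ N v)`; the vertices of kinds 0, 1, 9 have no displacement, `V` (kind 6) has displacement `(0, δ)`,
`W1` (kind 8) and `W3` (kind 10) have `(-δ, 0)` with `δ ∈ {0, 1}`. Write `s = coordB M i j u` (`coordB_surj`). Then
`crit_w3`, `crit_w9`, `crit_w11` give (with `U1 = M u1`, `U3 = M u3`, `u2 = 12 u1 - 13 u3`, after dividing by `M`)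
`4785066000 (U1 - U3) > δ₁ (254904.. U1 / M - 20592)`,
`4785066000 (U1 + U3) > -δ₂ (63175 + 53625 u2)`, `709570075500/361 U1 < δ₃ (257400 + 53625 u2)`; since `M ≥ 10^9` the terms
with `u1, u2` on the right are negligible, so `-10^-5 < U1 < 1.4*10^-4`, `-1.5*10^-4 < U3 < 1.4*10^-4`, hence
`|M u1| ≤ 0.0002`, `|M u2| ≤ 0.004`. -/
theorem pinB {M : ℤ} (hM : 1000000000 ≤ M) (N : Net) {i j : ℤ} {u : ℝ × ℝ}
    (h3 : 0 < orient (posQ M N (1, i, j)) (posQ M N (6, i, j)) (coordB M i j u))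
    (h9 : 0 < orient (posQ M N (8, i, j)) (posQ M N (9, i, j)) (coordB M i j u))
    (h11 : 0 < orient (posQ M N (10, i, j)) (posQ M N (0, i, j)) (coordB M i j u)) :
    |u.1| ≤ 1 / (50 * M) ∧ |u.2| ≤ 1 / (50 * M) := by
  have hM' : (1000000000 : ℝ) ≤ (M : ℝ) := by exact_mod_cast hM
  have hM0 : (0 : ℝ) < (M : ℝ) := by linarith
  obtain ⟨d1, p1, q1, e6⟩ := pinB_p6 M N i j
  obtain ⟨d2, p2, q2, e8⟩ := pinB_p8 M N i j
  obtain ⟨d3, p3, q3, e10⟩ := pinB_p10 M N i j
  rw [pinB_p1, e6, crit_w3, pinB_c1] at h3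
  rw [e8, pinB_p9, crit_w9, pinB_c9] at h9
  rw [e10, pinB_p0, crit_w11, pinB_c0] at h11
  have k3 : 0 < (M : ℝ) * (4785066000 * (M * u.1 - M * u3 u) -
      d1 * (214500 * (429 / 361) * u.1 - 20592)) := by
    refine lt_of_lt_of_eq h3 ?_
    simp only
    ring
  have k9 : 0 < (M : ℝ) * (4785066000 * (M * u.1 + M * u3 u) + d2 * (63175 + 53625 * u.2)) := by
    refine lt_of_lt_of_eq h9 ?_
    simp only
    ring
  have k11 : 0 < (M : ℝ) * (709570075500 / 361 * (-(M * u.1)) + d3 * (257400 + 53625 * u.2)) := by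
    refine lt_of_lt_of_eq h11 ?_
    simp only
    ring
  have h := pinB_real hM' (rfl : u3 u = (12 * u.1 - u.2) / 13) p1 q1 p2 q2 p3 q3
    ((mul_pos_iff_of_pos_left hM0).mp k3) ((mul_pos_iff_of_pos_left hM0).mp k9)
    ((mul_pos_iff_of_pos_left hM0).mp k11)
  have key : ∀ t : ℝ, |(M : ℝ) * t| ≤ 1 / 50 → |t| ≤ 1 / (50 * M) := by
    intro t ht
    rw [abs_mul, abs_of_pos hM0] at ht
    rw [le_div_iff₀ (by positivity)]
    linarith
  exact ⟨key _ h.1, key _ h.2⟩

end Pool.Agent.Lib.MP_6ff0c5_lc.C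
end

section

/-!
MP_6ff0c5_lc, part C: the centres are near their nominal places.
-/

set_option autoImplicit false

namespace Pool.Agent.Lib.MP_6ff0c5_lc.C

open N (Net BT D1 D2 D3 a3 u3 Tight)

private lemma gc1_near {M x k : ℝ} (hM : 0 < M) (hx : |x| ≤ 1 / (50000 * M)) (hk : |k| ≤ 2) :
    |214500 * M * (k * x)| ≤ 1000 := by
  rw [abs_mul, abs_mul k x, abs_of_pos (by positivity : 0 < 214500 * M)]
  have h1 : |k| * |x| ≤ 2 * (1 / (50000 * M)) := mul_le_mul hk hx (abs_nonneg _) (by norm_num)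
  have h2 := mul_le_mul_of_nonneg_left h1 (by positivity : 0 ≤ 214500 * M)
  refine h2.trans ?_
  have h3 : 214500 * M * (2 * (1 / (50000 * M))) = 214500 * 2 / 50000 := by field_simp
  rw [h3]
  norm_num

private lemma gc1_le {M : ℝ} (hM : 0 < M) : 1 / (1000000 * M) ≤ 1 / (50000 * M) :=
  one_div_le_one_div_of_le (by positivity) (by linarith)

private lemma gc1_ca {M : ℝ} (hM : 0 < M) {N : Net} {H : ℝ} (hH : H ≤ 1 / (1000000 * M))
    {a b : ℤ → ℤ → ℝ × ℝ} (h : N.Sol H a b) (i j : ℤ) :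
    |(ca M N a i j).1| ≤ 1 / (50000 * M) ∧ |(ca M N a i j).2| ≤ 1 / (50000 * M) := by
  have h0 := gc1_le hM
  unfold ca
  split_ifs with hc
  · obtain ⟨h1, h2⟩ := h.asize _ _ hc
    exact ⟨by linarith, by linarith⟩
  · simp only
    rw [abs_neg, abs_of_pos (by positivity : 0 < 1 / (50000 * M)),
      abs_of_pos (by positivity : 0 < 1 / (100000 * M))]
    exact ⟨le_rfl, one_div_le_one_div_of_le (by positivity) (by linarith)⟩

private lemma gc1_cb {M : ℝ} (hM : 0 < M) {N : Net} {H : ℝ} (hH : H ≤ 1 / (1000000 * M))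
    {a b : ℤ → ℤ → ℝ × ℝ} (h : N.Sol H a b) (i j : ℤ) :
    |(cb N b i j).1| ≤ 1 / (50000 * M) ∧ |(cb N b i j).2| ≤ 1 / (50000 * M) := by
  have h0 := gc1_le hM
  unfold cb
  split_ifs with hc
  · simp only [abs_zero]
    exact ⟨by positivity, by positivity⟩
  · obtain ⟨h1, h2⟩ := h.bsize _ _ hc
    exact ⟨by linarith, by linarith⟩

/-- the centres are displaced by less than 1000 -/
theorem posX_qpos {M : ℤ} (hM : 1000000000 ≤ M) {N : Net} {n1 n2 : ℕ} {H : ℝ} (hH : H ≤ 1 / (1000000 * M))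
    {a b : ℤ → ℤ → ℝ × ℝ} (h : N.Sol H a b) : QPos (M : ℝ) (posX M N n1 n2 a b) := by
  have hMr : (1000000000 : ℝ) ≤ (M : ℝ) := by exact_mod_cast hM
  have hM0 : (0 : ℝ) < (M : ℝ) := by linarith
  refine ⟨hMr, fun v hv => ?_⟩
  have hQ := (qpos M hM N).near v hv
  obtain ⟨k, i, j⟩ := v
  unfold posX
  simp only
  split_ifs with h1 h2 h3
  · subst h2
    obtain ⟨b1, b2⟩ := gc1_ca hM0 hH h i j
    unfold coordA
    simp only
    constructor
    · rw [add_sub_cancel_left]
      exact gc1_near hM0 b1 (by norm_num [abs_of_pos])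
    · have e : (M : ℝ) * ((nomQ (12, i, j)).2 : ℝ) -
          214500 * M * ((ca (M : ℝ) N a i j).2 / 2) - M * ((nomQ (12, i, j)).2 : ℝ) =
          214500 * M * ((-1 / 2) * (ca (M : ℝ) N a i j).2) := by ring
      rw [e]
      exact gc1_near hM0 b2 (by norm_num [abs_of_pos, abs_neg])
  · subst h3
    obtain ⟨b1, b2⟩ := gc1_cb hM0 hH h i j
    unfold coordB
    simp only
    constructor
    · rw [add_sub_cancel_left]
      exact gc1_near hM0 b1 (by norm_num [abs_of_pos])
    · have e : (M : ℝ) * ((nomQ (13, i, j)).2 : ℝ) +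
          214500 * M * ((cb N b i j).2 / 4) - M * ((nomQ (13, i, j)).2 : ℝ) =
          214500 * M * ((1 / 4) * (cb N b i j).2) := by ring
      rw [e]
      exact gc1_near hM0 b2 (by norm_num [abs_of_pos])
  · exact hQ
  · exact hQ

end Pool.Agent.Lib.MP_6ff0c5_lc.C
end

section

/-!
MP_6ff0c5_lc, part C: noncritical triangles.
-/

set_option autoImplicit false

namespace Pool.Agent.Lib.MP_6ff0c5_lc.C

open N (Net BT D1 D2 D3 a3 u3 Tight)

/-- nominal triangles `(wall, centre)` that are not critical, `w ∈ {0, 1, 2, 4, 6, 7, 8, 10, 12, 15, 17, 18}`, have area more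
than `1000000`: `decide`. -/
theorem wall_nc : ∀ w ∈ [0, 1, 2, 4, 6, 7, 8, 10, 12, 15, 17, 18],
    1000000 < iori (nomQ (wu w 0 0)) (nomQ (wv w 0 0)) (nomQ (wroom w, 0, 0)) := by
  decide

private theorem gc2_posX {M : ℤ} {N : Net} {n1 n2 : ℕ} {a b : ℤ → ℤ → ℝ × ℝ} {v : Vx}
    (h : (v.1 ≠ 12 ∧ v.1 ≠ 13) ∨ ¬ (1 ≤ v.2.1 ∧ v.2.1 ≤ n1 ∧ 1 ≤ v.2.2 ∧ v.2.2 ≤ n2)) :
    posX M N n1 n2 a b v = posQ M N v := by
  unfold posX
  by_cases hc : 1 ≤ v.2.1 ∧ v.2.1 ≤ n1 ∧ 1 ≤ v.2.2 ∧ v.2.2 ≤ n2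
  · rw [if_pos hc]
    rcases h with h | h
    · rw [if_neg h.1, if_neg h.2]
    · exact absurd hc h
  · rw [if_neg hc]

private theorem gc2_gen {M : ℝ} {pos : Vx → Pt} (hQ : QPos M pos) {p q r : Vx} (hp : inW p = true)
    (hq : inW q = true) (hr : inW r = true) (h : 1000000 < iori (nomQ p) (nomQ q) (nomQ r)) (i j : ℤ) :
    0 < orient (pos (sh p i j)) (pos (sh q i j)) (pos (sh r i j)) := by
  have h1 := (hQ.sh i j).st hp hq hr h
  unfold shQ at h1
  rwa [orient_sub] at h1

/-- Noncritical walls. Translate to cell `(0, 0)` (`shQ`, `QPos.sh`, `orient_sub`) and use `QPos.st`, `wall_nc` for `posX`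
(note `wu`, `wv` are vertices of kind `< 12`, or centres outside the patch). -/
theorem tpos_nc {M : ℤ} (hM : 1000000000 ≤ M) {N : Net} {n1 n2 : ℕ} {H : ℝ} (hH : H ≤ 1 / (1000000 * M))
    {a b : ℤ → ℤ → ℝ × ℝ} (h : N.Sol H a b) {w : ℕ} {i j : ℤ} (hw : WP n1 n2 w i j)
    (hw2 : w ∈ [0, 1, 2, 4, 6, 7, 8, 10, 12, 15, 17, 18]) :
    0 < orient (posQ M N (wu w i j)) (posQ M N (wv w i j)) (posX M N n1 n2 a b (wroom w, i, j)) := by
  have hQ := posX_qpos (n1 := n1) (n2 := n2) hM hH h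
  have key : ∀ w ∈ [0, 1, 2, 4, 6, 7, 8, 10, 12, 15, 17, 18], inW (wu w 0 0) = true ∧ inW (wv w 0 0) = true ∧
      inW (wroom w, 0, 0) = true := by decide
  obtain ⟨k1, k2, k3⟩ := key w hw2
  have h1 := gc2_gen hQ k1 k2 k3 (wall_nc w hw2) i j
  rw [wu_sh, wv_sh] at h1
  have e3 : sh (wroom w, 0, 0) i j = (wroom w, i, j) := by
    unfold sh
    simp only [zero_add]
  rw [zero_add, zero_add, e3] at h1
  obtain ⟨-, hi1, hi2, hj1, hj2, c1, c2, c3, c4⟩ := hw
  have e1 : posX M N n1 n2 a b (wu w i j) = posQ M N (wu w i j) := by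
    apply gc2_posX
    simp only [List.mem_cons, List.not_mem_nil, or_false] at hw2
    rcases hw2 with rfl | rfl | rfl | rfl | rfl | rfl | rfl | rfl | rfl | rfl | rfl | rfl
    · left; simp [wu, sh, wallTab]
    · left; simp [wu, sh, wallTab]
    · left; simp [wu, sh, wallTab]
    · left; simp [wu, sh, wallTab]
    · left; simp [wu, sh, wallTab]
    · left; simp [wu, sh, wallTab]
    · left; simp [wu, sh, wallTab]
    · left; simp [wu, sh, wallTab]
    · left; simp [wu, sh, wallTab]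
    · right
      have h5 := c2 (Or.inr rfl)
      intro h6
      have h7 : (1 : ℤ) ≤ -1 + j := h6.2.2.1
      omega
    · right
      have h5 := c3 (Or.inr rfl)
      intro h6
      have h7 : 1 + i ≤ n1 := h6.2.1
      omega
    · left; simp [wu, sh, wallTab]
  have e2 : posX M N n1 n2 a b (wv w i j) = posQ M N (wv w i j) := by
    apply gc2_posX
    simp only [List.mem_cons, List.not_mem_nil, or_false] at hw2
    rcases hw2 with rfl | rfl | rfl | rfl | rfl | rfl | rfl | rfl | rfl | rfl | rfl | rfl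
    · left; simp [wv, sh, wallTab]
    · left; simp [wv, sh, wallTab]
    · left; simp [wv, sh, wallTab]
    · left; simp [wv, sh, wallTab]
    · left; simp [wv, sh, wallTab]
    · left; simp [wv, sh, wallTab]
    · left; simp [wv, sh, wallTab]
    · left; simp [wv, sh, wallTab]
    · right
      have h5 := c1 (Or.inl rfl)
      intro h6
      have h7 : (1 : ℤ) ≤ -1 + i := h6.1
      omega
    · left; simp [wv, sh, wallTab]
    · left; simp [wv, sh, wallTab]
    · right
      have h5 := c4 (Or.inl rfl)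
      intro h6
      have h7 : 1 + j ≤ n2 := h6.2.2.2
      omega
  rw [← e1, ← e2]
  exact h1

/-- The noncritical halves of the doors: `(A, R1, B)`, `(A, R2, B')`, `(A, B'', L3)`; same proof as `tpos_nc` (nominal areas
`> 1000000`, `decide`). -/
theorem tpos_door_nc {M : ℤ} (hM : 1000000000 ≤ M) {N : Net} {n1 n2 : ℕ} {H : ℝ} (hH : H ≤ 1 / (1000000 * M))
    {a b : ℤ → ℤ → ℝ × ℝ} (h : N.Sol H a b) (i j : ℤ) :
    0 < orient (posX M N n1 n2 a b (12, i, j)) (posQ M N (1, i, j)) (posX M N n1 n2 a b (13, i, j)) ∧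
    0 < orient (posX M N n1 n2 a b (12, i, j)) (posQ M N (3, i, j)) (posX M N n1 n2 a b (13, i - 1, j)) ∧
    0 < orient (posX M N n1 n2 a b (12, i, j)) (posX M N n1 n2 a b (13, i, j - 1)) (posQ M N (4, i, j)) := by
  have hQ := posX_qpos (n1 := n1) (n2 := n2) hM hH h
  have e : ∀ k : ℕ, sh (k, 0, 0) i j = (k, i, j) := fun k => by
    unfold sh
    simp only [zero_add]
  have e1 : sh (13, -1, 0) i j = (13, i - 1, j) := by
    unfold sh
    simp only [zero_add, Prod.mk.injEq, true_and, and_true]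
    ring
  have e2 : sh (13, 0, -1) i j = (13, i, j - 1) := by
    unfold sh
    simp only [zero_add, Prod.mk.injEq, true_and]
    ring
  have q1 : posX M N n1 n2 a b (1, i, j) = posQ M N (1, i, j) := gc2_posX (Or.inl (by norm_num))
  have q3 : posX M N n1 n2 a b (3, i, j) = posQ M N (3, i, j) := gc2_posX (Or.inl (by norm_num))
  have q4 : posX M N n1 n2 a b (4, i, j) = posQ M N (4, i, j) := gc2_posX (Or.inl (by norm_num))
  refine ⟨?_, ?_, ?_⟩
  · have h1 := gc2_gen hQ (p := (12, 0, 0)) (q := (1, 0, 0)) (r := (13, 0, 0)) (by decide) (by decide) (by decide)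
      (by decide) i j
    rw [e, e, e, q1] at h1
    exact h1
  · have h1 := gc2_gen hQ (p := (12, 0, 0)) (q := (3, 0, 0)) (r := (13, -1, 0)) (by decide) (by decide) (by decide)
      (by decide) i j
    rw [e, e, e1, q3] at h1
    exact h1
  · have h1 := gc2_gen hQ (p := (12, 0, 0)) (q := (13, 0, -1)) (r := (4, 0, 0)) (by decide) (by decide) (by decide)
      (by decide) i j
    rw [e, e, e2, q4] at h1
    exact h1

end Pool.Agent.Lib.MP_6ff0c5_lc.C
end

section

/-!
MP_6ff0c5_lc, part C: critical walls.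
-/

set_option autoImplicit false

namespace Pool.Agent.Lib.MP_6ff0c5_lc.C

open N (Net BT D1 D2 D3 a3 u3 Tight)

private theorem GC3_posQ (M : ℤ) (N : Net) (v : Vx) :
    posQ M N v = nomM (M : ℝ) v + toPt (dispQ N v) := by
  unfold posQ iposQ toPt nomM
  ext <;> simp

private theorem GC3_small {m h u1 u2 : ℝ} (hm : 0 < m) (hh : m * h = 1 / 1000000)
    (h1 : |u1| ≤ h) (h2 : |u2| ≤ h) :
    |m * u1| ≤ 1 / 1000000 ∧ |m * u2| ≤ 1 / 1000000 := by
  rw [abs_mul, abs_mul, abs_of_pos hm, ← hh]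
  exact ⟨mul_le_mul_of_nonneg_left h1 hm.le, mul_le_mul_of_nonneg_left h2 hm.le⟩

/-- Critical walls of the B rooms: 3, 5, 9, 11. If the vertex is displaced (`dispQ`), the displacement contributes
(`crit_w3`: `d = (0, 1)`: `-(B.1 - R1.1) ≥ 20592 M - 1000`; `crit_w9`: `d = (-1, 0)`: `≥ 63175 M - 1000`; `crit_w11`: `d = (-1, 0)`:
`≥ 257400 M - 1000`; `crit_w5`: `d = (1, 0)`: `N.2 - B.2 ≥ 19855 M - 1000`), more than `M² · 4785066000 · 3H ≤ 14356 M` etc. lose
(use `|u1|, |u2| ≤ H ≤ 10^-6/M`, so `|u1 - u3|, .. ≤ 3 H`; `2718787500 * 4 H M² ≤ 10876 M`,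
`709570075500/361 H M² ≤ 1966 M`). If it is not displaced, `Tight` says that the main term is positive. Free B rooms: `u = 0` and
everything is displaced. -/
theorem tpos_wcrit {M : ℤ} (hM : 1000000000 ≤ M) {N : Net} {n1 n2 : ℕ} {H : ℝ} (hH : H ≤ 1 / (1000000 * M))
    {a b : ℤ → ℤ → ℝ × ℝ} (h : N.Sol H a b) {w : ℕ} {i j : ℤ} (hw : WP n1 n2 w i j) (hw2 : w ∈ [3, 5, 9, 11]) :
    0 < orient (posQ M N (wu w i j)) (posQ M N (wv w i j)) (posX M N n1 n2 a b (wroom w, i, j)) := by
  have hMr : (1000000000 : ℝ) ≤ (M : ℝ) := by exact_mod_cast hM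
  have hM0 : (0 : ℝ) < (M : ℝ) := by linarith
  obtain ⟨_, hi1, hi2, hj1, hj2, _⟩ := hw
  set u : ℝ × ℝ := cb N b i j with hu
  have hcen : posX M N n1 n2 a b (13, i, j) = coordB (M : ℝ) i j u := by
    unfold posX
    simp only
    rw [if_pos ⟨hi1, hi2, hj1, hj2⟩, if_neg (by norm_num), if_pos trivial]
  have hroom : wroom w = 13 := by
    simp only [List.mem_cons, List.not_mem_nil, or_false] at hw2
    rcases hw2 with rfl | rfl | rfl | rfl <;> rfl
  rw [hroom, hcen]
  set h0 : ℝ := 1 / (1000000 * (M : ℝ)) with hh0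
  have hh0p : 0 < h0 := by positivity
  have hMh : (M : ℝ) * h0 = 1 / 1000000 := by rw [hh0]; field_simp
  have hub : |u.1| ≤ h0 ∧ |u.2| ≤ h0 := by
    by_cases hf : N.bt (i + j) j = .free
    · have : u = (0, 0) := by rw [hu]; unfold cb; rw [if_pos hf]
      rw [this]; simp only [abs_zero]; exact ⟨hh0p.le, hh0p.le⟩
    · have h1 : u = b (i + j) j := by rw [hu]; unfold cb; rw [if_neg hf]
      rw [h1]
      have h2 := h.bsize (i + j) j hf
      exact ⟨h2.1.trans hH, h2.2.trans hH⟩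
  have htight : N.bt (i + j) j ≠ .free → Tight (N.bt (i + j) j) u := by
    intro hf
    have h1 : u = b (i + j) j := by rw [hu]; unfold cb; rw [if_neg hf]
    rw [h1]
    exact h.tight _ _
  obtain ⟨hs1, hs2⟩ := GC3_small hM0 hMh hub.1 hub.2
  rw [abs_le] at hs1 hs2
  set x := (M : ℝ) * u.1 with hx
  set y := (M : ℝ) * u.2 with hy
  have hu3 : (M : ℝ) * u3 u = (12 * x - y) / 13 := by
    unfold u3; rw [hx, hy]; ring
  simp only [List.mem_cons, List.not_mem_nil, or_false] at hw2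
  rcases hw2 with rfl | rfl | rfl | rfl
  · -- wall 3
    have e1 : wu 3 i j = (1, i, j) := by
      unfold wu wallTab sh; simp
    have e2 : wv 3 i j = (6, i, j) := by
      unfold wv wallTab sh; simp
    have d1 : dispQ N (1, i, j) = (0, 0) := by unfold dispQ; simp
    rw [e1, e2, GC3_posQ M N (1, i, j), GC3_posQ M N (6, i, j), d1]
    have e3 : nomM (M : ℝ) (1, i, j) + toPt (0, 0) = nomM (M : ℝ) (1, i, j) := by
      unfold toPt; ext <;> simp
    rw [e3, crit_w3]
    have e4 : (coordB (M : ℝ) i j u).1 - (nomM (M : ℝ) (1, i, j)).1 =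
        -(20592 * (M : ℝ)) + 92020500 / 361 * x := by
      unfold coordB nomM nomQ tabQ
      simp only [List.getD_cons_succ, List.getD_cons_zero]
      rw [hx]; push_cast; ring
    rw [e4]
    have e5 : (M : ℝ) ^ 2 * (u.1 - u3 u) = (M : ℝ) * (x - (12 * x - y) / 13) := by
      rw [← hu3, hx]; ring
    have e6 : 4785066000 * (M : ℝ) ^ 2 * (u.1 - u3 u) =
        (M : ℝ) * (4785066000 * (x - (12 * x - y) / 13)) := by
      rw [mul_assoc, e5]; ring
    unfold dispQ
    simp only [if_true]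
    split_ifs with hc
    · unfold toPt
      simp only [Int.cast_zero, Int.cast_one, zero_mul, add_zero, one_mul]
      rw [e6]
      have h1 : -9571 ≤ 4785066000 * (x - (12 * x - y) / 13) := by linarith [hs1.1, hs2.1]
      have h2 : (M : ℝ) * (-9571) ≤ (M : ℝ) * (4785066000 * (x - (12 * x - y) / 13)) :=
        mul_le_mul_of_nonneg_left h1 hM0.le
      linarith [hs1.2]
    · unfold toPt
      simp only [Int.cast_zero, zero_mul, add_zero, sub_zero]
      rw [not_or] at hc
      have h1 := htight hc.2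
      have h2 : 0 < u.1 - u3 u := by
        revert h1
        cases hbt : N.bt (i + j) j with
        | free => exact absurd hbt hc.2
        | hub => intro h1; exact h1
        | pin2 => intro h1; exact h1.1
        | pin13 => intro h1; exact h1.1
        | cup => exact absurd hbt hc.1
      positivity
  · -- wall 5
    have e1 : wu 5 i j = (7, i, j) := by
      unfold wu wallTab sh; simp
    have e2 : wv 5 i j = (11, i, j) := by
      unfold wv wallTab sh; simp
    have d1 : dispQ N (11, i, j) = (0, 0) := by unfold dispQ; simp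
    rw [e1, e2, GC3_posQ M N (7, i, j), GC3_posQ M N (11, i, j), d1]
    have e3 : nomM (M : ℝ) (11, i, j) + toPt (0, 0) = nomM (M : ℝ) (11, i, j) := by
      unfold toPt; ext <;> simp
    rw [e3, crit_w5]
    have e4 : (nomM (M : ℝ) (11, i, j)).2 - (coordB (M : ℝ) i j u).2 =
        19855 * (M : ℝ) - 53625 * y := by
      unfold coordB nomM nomQ tabQ
      simp only [List.getD_cons_succ, List.getD_cons_zero]
      rw [hy]; push_cast; ring
    rw [e4]
    have e6 : 2718787500 * (M : ℝ) ^ 2 * (2 * u3 u - u.1) =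
        (M : ℝ) * (2718787500 * (2 * ((12 * x - y) / 13) - x)) := by
      rw [← hu3, hx]; ring
    unfold dispQ
    simp only [if_true, show (7 : ℕ) ≠ 6 by norm_num, show (7 : ℕ) ≠ 8 by norm_num,
      show (7 : ℕ) ≠ 10 by norm_num, if_false]
    split_ifs with hc
    · unfold toPt
      simp only [Int.cast_zero, zero_mul, add_zero, sub_zero]
      have h1 := htight (by rw [hc]; decide)
      rw [hc] at h1
      have h2 : 0 < 2 * u3 u - u.1 := h1.2
      positivity
    · unfold toPt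
      simp only [Int.cast_zero, Int.cast_one, zero_mul, sub_zero, one_mul]
      rw [e6]
      have h1 : -8200 ≤ 2718787500 * (2 * ((12 * x - y) / 13) - x) := by linarith [hs1.1, hs1.2, hs2.2]
      have h2 : (M : ℝ) * (-8200) ≤ (M : ℝ) * (2718787500 * (2 * ((12 * x - y) / 13) - x)) :=
        mul_le_mul_of_nonneg_left h1 hM0.le
      linarith [hs2.2]
  · -- wall 9
    have e1 : wu 9 i j = (8, i, j) := by
      unfold wu wallTab sh; simp
    have e2 : wv 9 i j = (9, i, j) := by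
      unfold wv wallTab sh; simp
    have d1 : dispQ N (9, i, j) = (0, 0) := by unfold dispQ; simp
    rw [e1, e2, GC3_posQ M N (8, i, j), GC3_posQ M N (9, i, j), d1]
    have e3 : nomM (M : ℝ) (9, i, j) + toPt (0, 0) = nomM (M : ℝ) (9, i, j) := by
      unfold toPt; ext <;> simp
    rw [e3, crit_w9]
    have e4 : (nomM (M : ℝ) (9, i, j)).2 - (coordB (M : ℝ) i j u).2 =
        -(63175 * (M : ℝ)) - 53625 * y := by
      unfold coordB nomM nomQ tabQ
      simp only [List.getD_cons_succ, List.getD_cons_zero]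
      rw [hy]; push_cast; ring
    rw [e4]
    have e6 : 4785066000 * (M : ℝ) ^ 2 * (u.1 + u3 u) =
        (M : ℝ) * (4785066000 * (x + (12 * x - y) / 13)) := by
      rw [← hu3, hx]; ring
    unfold dispQ
    simp only [if_true, show (8 : ℕ) ≠ 6 by norm_num, if_false]
    split_ifs with hc
    · unfold toPt
      simp only [Int.cast_zero, zero_mul, add_zero, sub_zero]
      have h1 := htight (by rw [hc]; decide)
      rw [hc] at h1
      have h2 : 0 < u.1 + u3 u := h1
      positivity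
    · unfold toPt
      simp only [Int.cast_zero, Int.cast_one, Int.cast_neg, zero_mul, sub_zero]
      rw [e6]
      have h1 : -9580 ≤ 4785066000 * (x + (12 * x - y) / 13) := by linarith [hs1.1, hs1.2, hs2.2]
      have h2 : (M : ℝ) * (-9580) ≤ (M : ℝ) * (4785066000 * (x + (12 * x - y) / 13)) :=
        mul_le_mul_of_nonneg_left h1 hM0.le
      linarith [hs2.1]
  · -- wall 11
    have e1 : wu 11 i j = (10, i, j) := by
      unfold wu wallTab sh; simp
    have e2 : wv 11 i j = (0, i, j) := by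
      unfold wv wallTab sh; simp
    have d1 : dispQ N (0, i, j) = (0, 0) := by unfold dispQ; simp
    rw [e1, e2, GC3_posQ M N (10, i, j), GC3_posQ M N (0, i, j), d1]
    have e3 : nomM (M : ℝ) (0, i, j) + toPt (0, 0) = nomM (M : ℝ) (0, i, j) := by
      unfold toPt; ext <;> simp
    rw [e3, crit_w11]
    have e4 : (nomM (M : ℝ) (0, i, j)).2 - (coordB (M : ℝ) i j u).2 =
        -(257400 * (M : ℝ)) - 53625 * y := by
      unfold coordB nomM nomQ tabQ
      simp only [List.getD_cons_succ, List.getD_cons_zero]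
      rw [hy]; push_cast; ring
    rw [e4]
    have e6 : 709570075500 / 361 * (M : ℝ) ^ 2 * (-u.1) =
        (M : ℝ) * (709570075500 / 361 * (-x)) := by
      rw [hx]; ring
    unfold dispQ
    simp only [if_true, show (10 : ℕ) ≠ 6 by norm_num, show (10 : ℕ) ≠ 8 by norm_num, if_false]
    split_ifs with hc
    · unfold toPt
      simp only [Int.cast_zero, zero_mul, add_zero, sub_zero]
      have h1 := htight (by rw [hc]; decide)
      rw [hc] at h1
      have h2 : 0 < -u.1 := neg_pos.2 h1.2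
      positivity
    · unfold toPt
      simp only [Int.cast_zero, Int.cast_one, Int.cast_neg, zero_mul, sub_zero]
      rw [e6]
      have h1 : -1970 ≤ 709570075500 / 361 * (-x) := by linarith [hs1.2]
      have h2 : (M : ℝ) * (-1970) ≤ (M : ℝ) * (709570075500 / 361 * (-x)) :=
        mul_le_mul_of_nonneg_left h1 hM0.le
      linarith [hs2.1]

end Pool.Agent.Lib.MP_6ff0c5_lc.C
end

section

/-!
MP_6ff0c5_lc, part C: critical halves of the doors.
-/

set_option autoImplicit false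

namespace Pool.Agent.Lib.MP_6ff0c5_lc.C

open N (Net BT D1 D2 D3 a3 u3 Tight)

theorem gc4_posQ12 {M : ℤ} {N : Net} (i j : ℤ) : posQ M N (12, i, j) = coordA M i j (0, 0) := by
  unfold posQ iposQ toPt coordA dispQ
  ext
  · simp
  · simp

theorem gc4_posQ13 {M : ℤ} {N : Net} (i j : ℤ) : posQ M N (13, i, j) = coordB M i j (0, 0) := by
  unfold posQ iposQ toPt coordB dispQ
  ext
  · simp
  · simp

theorem gc4_posQ0 {M : ℤ} {N : Net} (i j : ℤ) :
    posQ M N (0, i, j) = nomM M (0, i, j) + ((0, 0) : Pt) := by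
  unfold posQ iposQ toPt nomM dispQ
  ext
  · simp
  · simp

theorem gc4_posQ2 {M : ℤ} {N : Net} (i j : ℤ) :
    posQ M N (2, i, j) =
      nomM M (2, i, j) + (if N.act (i + j) j = true then ((0, 0) : Pt) else ((0, 1) : Pt)) := by
  by_cases h : N.act (i + j) j = true
  · rw [if_pos h]
    unfold posQ iposQ toPt nomM dispQ
    ext
    · simp [h]
    · simp [h]
  · rw [if_neg h]
    unfold posQ iposQ toPt nomM dispQ
    ext
    · simp [h]
    · simp [h]

theorem gc4_posQ5 {M : ℤ} {N : Net} (i j : ℤ) :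
    posQ M N (5, i, j) =
      nomM M (5, i, j) + (if N.act (i + j) j = true then ((0, 0) : Pt) else ((1, 0) : Pt)) := by
  by_cases h : N.act (i + j) j = true
  · rw [if_pos h]
    unfold posQ iposQ toPt nomM dispQ
    ext
    · simp [h]
    · simp [h]
  · rw [if_neg h]
    unfold posQ iposQ toPt nomM dispQ
    ext
    · simp [h]
    · simp [h]

theorem gc4_posXA {M : ℤ} {N : Net} {n1 n2 : ℕ} {a b : ℤ → ℤ → ℝ × ℝ} {i j : ℤ} (hi : 1 ≤ i)
    (hi' : i ≤ n1) (hj : 1 ≤ j) (hj' : j ≤ n2) :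
    posX M N n1 n2 a b (12, i, j) = coordA M i j (ca M N a i j) := by
  unfold posX
  rw [if_pos ⟨hi, hi', hj, hj'⟩]
  simp

theorem gc4_posXB {M : ℤ} {N : Net} {n1 n2 : ℕ} {a b : ℤ → ℤ → ℝ × ℝ} {i j : ℤ} (hi : 1 ≤ i)
    (hi' : i ≤ n1) (hj : 1 ≤ j) (hj' : j ≤ n2) :
    posX M N n1 n2 a b (13, i, j) = coordB M i j (cb N b i j) := by
  unfold posX
  rw [if_pos ⟨hi, hi', hj, hj'⟩]
  simp

/-- Idle A rooms: the coordinates. -/
theorem gc4_idle {M : ℤ} (hM : 1000000000 ≤ M) {N : Net} {n1 n2 : ℕ} {a b : ℤ → ℤ → ℝ × ℝ}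
    {i j : ℤ} (hact : ¬ N.act (i + j) j = true) :
    ∃ α : ℝ × ℝ, posX M N n1 n2 a b (12, i, j) = coordA M i j α ∧ 0 ≤ M * α.1 ∧
      M * α.1 ≤ 1 / 50000 ∧ -(1 / 100000) ≤ M * α.2 ∧ M * α.2 ≤ 0 ∧
      M * α.1 + M * α.2 ≤ 1 / 100000 := by
  have hM' : (0 : ℝ) < (M : ℝ) := by
    have : (0 : ℤ) < M := by linarith
    exact_mod_cast this
  by_cases hp : 1 ≤ i ∧ i ≤ n1 ∧ 1 ≤ j ∧ j ≤ n2
  · refine ⟨(1 / (50000 * M), -(1 / (100000 * M))), ?_, ?_, ?_, ?_, ?_, ?_⟩
    · rw [gc4_posXA hp.1 hp.2.1 hp.2.2.1 hp.2.2.2]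
      unfold ca
      rw [if_neg hact]
    all_goals
      have e1 : (M : ℝ) * (1 / (50000 * M)) = 1 / 50000 := by field_simp
      have e2 : (M : ℝ) * -(1 / (100000 * M)) = -(1 / 100000) := by field_simp
      simp only [e1, e2]
      norm_num
  · refine ⟨(0, 0), ?_, ?_, ?_, ?_, ?_, ?_⟩
    · rw [← gc4_posQ12 (N := N)]
      unfold posX
      rw [if_neg hp]
    all_goals norm_num

/-- The coordinates of the B rooms are small. -/
theorem gc4_small {M : ℤ} (hM : 1000000000 ≤ M) {N : Net} {n1 n2 : ℕ} {H : ℝ}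
    (hH : H ≤ 1 / (1000000 * M)) {a b : ℤ → ℤ → ℝ × ℝ} (h : N.Sol H a b) (i j : ℤ) :
    ∃ β : ℝ × ℝ, posX M N n1 n2 a b (13, i, j) = coordB M i j β ∧ |M * β.1| ≤ 1 / 1000000 ∧
      |M * β.2| ≤ 1 / 1000000 := by
  have hM' : (0 : ℝ) < (M : ℝ) := by
    have : (0 : ℤ) < M := by linarith
    exact_mod_cast this
  by_cases hp : 1 ≤ i ∧ i ≤ n1 ∧ 1 ≤ j ∧ j ≤ n2
  · refine ⟨cb N b i j, gc4_posXB hp.1 hp.2.1 hp.2.2.1 hp.2.2.2, ?_⟩
    unfold cb
    split_ifs with hf
    · norm_num
    · have h2 := h.bsize _ _ hf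
      have key : ∀ x : ℝ, |x| ≤ H → |M * x| ≤ 1 / 1000000 := by
        intro x hx
        rw [abs_mul, abs_of_pos hM']
        calc (M : ℝ) * |x| ≤ M * (1 / (1000000 * M)) :=
              mul_le_mul_of_nonneg_left (hx.trans hH) hM'.le
          _ = 1 / 1000000 := by field_simp
      exact ⟨key _ h2.1, key _ h2.2⟩
  · refine ⟨(0, 0), ?_, ?_, ?_⟩
    · rw [← gc4_posQ13 (N := N)]
      unfold posX
      rw [if_neg hp]
    all_goals norm_num

theorem gc4_prod {x y : ℝ} (hx : |x| ≤ 1) (hy : |y| ≤ 1) : -1 ≤ x * y ∧ x * y ≤ 1 := by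
  have h : |x * y| ≤ 1 := by
    rw [abs_mul]
    exact mul_le_one₀ hx (abs_nonneg _) hy
  exact abs_le.1 h

/-- Critical halves of the doors, for any two centres (actual or nominal): `A` in the patch or `B` in the patch. Active A room
(then all three B rooms are in the patch and not free): `crit_d1`, `crit_d2`, `crit_d3` with `Sol.d1`, .. and no displacement. Idle
A room or absent A room (coordinates `ca` resp. `0` at the nominal place): for door 1 only with A in the patch: `D1 > 0` since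
`a1 = 1/(50000 M) > |u1| + ..`; doors 2, 3: the displacement gives `B.1 - A.1 ≥ 214500 M - 2000`, `B.2 - A.2 ≥ 1083000 M - 2000`,
the main terms are `≥ -7668375000 M² (1.2 / (100000 M))`, `≥ -39875550000 M² (1.2/(100000 M))`. Here `ca` of an idle room is
`(1/(50000 M), -1/(100000 M))`, so `a3 = -1/(100000 M)`. -/
theorem tpos_door1 {M : ℤ} (hM : 1000000000 ≤ M) {N : Net} {n1 n2 : ℕ} {H : ℝ} (hH : H ≤ 1 / (1000000 * M))
    (hact : ∀ x y, N.act x y = true → 2 ≤ x - y ∧ x - y ≤ n1 - 1 ∧ 2 ≤ y ∧ y ≤ n2 - 1)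
    {a b : ℤ → ℤ → ℝ × ℝ} (h : N.Sol H a b) (i j : ℤ) (hi : 1 ≤ i) (hi' : i ≤ n1) (hj : 1 ≤ j) (hj' : j ≤ n2) :
    0 < orient (posX M N n1 n2 a b (12, i, j)) (posX M N n1 n2 a b (13, i, j)) (posQ M N (0, i, j)) := by
  have hM' : (1000000000 : ℝ) ≤ (M : ℝ) := by exact_mod_cast hM
  by_cases hA : N.act (i + j) j = true
  · rw [gc4_posQ0, gc4_posXA hi hi' hj hj', gc4_posXB hi hi' hj hj', crit_d1]
    have e1 : ca M N a i j = a (i + j) j := by
      unfold ca
      rw [if_pos hA]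
    have e2 : N.bt (i + j) j ≠ .free := by
      unfold Net.bt
      rw [hA]
      simp only [Bool.true_or, Bool.true_and, if_true]
      split_ifs <;> simp
    have e3 : cb N b i j = b (i + j) j := by
      unfold cb
      rw [if_neg e2]
    rw [e1, e3]
    have h1 := h.d1 _ _ hA
    simp only [mul_zero, add_zero, sub_zero]
    positivity
  · obtain ⟨β, hβ, hb1, hb2⟩ := gc4_small (n1 := n1) (n2 := n2) hM hH h i j
    rw [gc4_posQ0, gc4_posXA hi hi' hj hj', hβ, crit_d1]
    have e1 : ca M N a i j = (1 / (50000 * (M : ℝ)), -(1 / (100000 * (M : ℝ)))) := by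
      unfold ca
      rw [if_neg hA]
    rw [e1]
    simp only [mul_zero, add_zero, sub_zero]
    have e2 : (M : ℝ) ^ 2 * D1 (1 / (50000 * (M : ℝ)), -(1 / (100000 * (M : ℝ)))) β =
        M * (1 / 50000 - M * β.1) + 5 / 24 * (1 / 50000) * (M * β.2) +
          5 / 2 * (-(1 / 100000)) * (M * β.1) := by
      unfold D1
      field_simp
    rw [mul_assoc, e2]
    have h3 := abs_le.1 hb1
    have h4 := abs_le.1 hb2
    have h5 : (M : ℝ) * (1 / 1000000) ≤ M * (1 / 50000 - M * β.1) :=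
      mul_le_mul_of_nonneg_left (by linarith [h3.2]) (by linarith)
    have h6 : (0 : ℝ) < M * (1 / 50000 - M * β.1) + 5 / 24 * (1 / 50000) * (M * β.2) +
          5 / 2 * (-(1 / 100000)) * (M * β.1) := by linarith [h3.1, h3.2, h4.1, h4.2]
    positivity

theorem tpos_door2 {M : ℤ} (hM : 1000000000 ≤ M) {N : Net} {n1 n2 : ℕ} {H : ℝ} (hH : H ≤ 1 / (1000000 * M))
    (hact : ∀ x y, N.act x y = true → 2 ≤ x - y ∧ x - y ≤ n1 - 1 ∧ 2 ≤ y ∧ y ≤ n2 - 1)
    {a b : ℤ → ℤ → ℝ × ℝ} (h : N.Sol H a b) (i j : ℤ) (hi : 1 ≤ i) (hi' : i ≤ n1 + 1) (hj : 1 ≤ j) (hj' : j ≤ n2) :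
    0 < orient (posX M N n1 n2 a b (12, i, j)) (posX M N n1 n2 a b (13, i - 1, j)) (posQ M N (2, i, j)) := by
  have hM' : (1000000000 : ℝ) ≤ (M : ℝ) := by exact_mod_cast hM
  by_cases hA : N.act (i + j) j = true
  · obtain ⟨g1, g2, g3, g4⟩ := hact _ _ hA
    rw [gc4_posQ2, if_pos hA, gc4_posXA hi (by linarith) hj hj',
      gc4_posXB (by linarith) (by linarith) hj hj', crit_d2]
    have e1 : ca M N a i j = a (i + j) j := by
      unfold ca
      rw [if_pos hA]
    have e0 : i - 1 + j = i + j - 1 := by ring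
    have e2 : N.bt (i + j - 1) j ≠ .free := by
      unfold Net.bt
      rw [sub_add_cancel, hA]
      simp only [if_true]
      split_ifs <;> simp
    have e3 : cb N b (i - 1) j = b (i + j - 1) j := by
      unfold cb
      rw [e0, if_neg e2]
    rw [e1, e3]
    have h1 := h.d2 _ _ hA
    simp only [mul_zero, add_zero, sub_zero]
    positivity
  · obtain ⟨β, hβ, hb1, hb2⟩ := gc4_small (n1 := n1) (n2 := n2) hM hH h (i - 1) j
    obtain ⟨α, hα, a1, a2, a3, a4, a5⟩ := gc4_idle (n1 := n1) (n2 := n2) (a := a) (b := b) hM hA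
    rw [gc4_posQ2, if_neg hA, hα, hβ, crit_d2]
    have e1 : (coordB M (i - 1) j β).1 - (coordA M i j α).1 =
        214500 * M + 214500 * (429 / 361) * (M * β.1) - 214500 * (143 / 722) * (M * α.1) := by
      unfold coordA coordB nomQ tabQ
      simp only [List.getD_cons_succ, List.getD_cons_zero]
      push_cast
      ring
    have e2 : 7668375000 * (M : ℝ) ^ 2 * D2 α β = 7668375000 * (M * (M * α.2 - M * β.2) +
        429 / 1444 * ((M * α.1) * (M * β.2)) + 1287 / 361 * ((M * α.2) * (M * β.1))) := by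
      unfold D2
      ring
    rw [e1, e2]
    simp only [mul_zero, mul_one, sub_zero]
    have h3 := abs_le.1 hb1
    have h4 := abs_le.1 hb2
    have h5 : (M : ℝ) * (-(1 / 100000) - 1 / 1000000) ≤ M * (M * α.2 - M * β.2) :=
      mul_le_mul_of_nonneg_left (by linarith [h4.2]) (by linarith)
    have h6 := gc4_prod (x := M * α.1) (y := M * β.2)
      (by rw [abs_of_nonneg a1]; linarith) (by linarith)
    have h7 := gc4_prod (x := M * α.2) (y := M * β.1)
      (by rw [abs_of_nonpos a4]; linarith) (by linarith)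
    linarith [h3.1, h3.2, h6.1, h7.1]

theorem tpos_door3 {M : ℤ} (hM : 1000000000 ≤ M) {N : Net} {n1 n2 : ℕ} {H : ℝ} (hH : H ≤ 1 / (1000000 * M))
    (hact : ∀ x y, N.act x y = true → 2 ≤ x - y ∧ x - y ≤ n1 - 1 ∧ 2 ≤ y ∧ y ≤ n2 - 1)
    {a b : ℤ → ℤ → ℝ × ℝ} (h : N.Sol H a b) (i j : ℤ) (hi : 1 ≤ i) (hi' : i ≤ n1) (hj : 1 ≤ j) (hj' : j ≤ n2 + 1) :
    0 < orient (posX M N n1 n2 a b (12, i, j)) (posQ M N (5, i, j)) (posX M N n1 n2 a b (13, i, j - 1)) := by
  have hM' : (1000000000 : ℝ) ≤ (M : ℝ) := by exact_mod_cast hM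
  by_cases hA : N.act (i + j) j = true
  · obtain ⟨g1, g2, g3, g4⟩ := hact _ _ hA
    rw [gc4_posQ5, if_pos hA, gc4_posXA hi hi' hj (by linarith),
      gc4_posXB hi hi' (by linarith) (by linarith), crit_d3]
    have e1 : ca M N a i j = a (i + j) j := by
      unfold ca
      rw [if_pos hA]
    have e0 : i + (j - 1) = i + j - 1 := by ring
    have e2 : N.bt (i + j - 1) (j - 1) ≠ .free := by
      unfold Net.bt
      rw [sub_add_cancel, sub_add_cancel, hA]
      simp only [Bool.or_true, if_true]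
      split_ifs <;> simp
    have e3 : cb N b i (j - 1) = b (i + j - 1) (j - 1) := by
      unfold cb
      rw [e0, if_neg e2]
    rw [e1, e3]
    have h1 := h.d3 _ _ hA
    simp only [zero_mul, add_zero, sub_zero]
    positivity
  · obtain ⟨β, hβ, hb1, hb2⟩ := gc4_small (n1 := n1) (n2 := n2) hM hH h i (j - 1)
    obtain ⟨α, hα, a1, a2, a3', a4, a5⟩ := gc4_idle (n1 := n1) (n2 := n2) (a := a) (b := b) hM hA
    rw [gc4_posQ5, if_neg hA, hα, hβ, crit_d3]
    have e1 : (coordB M i (j - 1) β).2 - (coordA M i j α).2 =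
        1083000 * M + 214500 / 4 * (M * β.2) + 214500 / 2 * (M * α.2) := by
      unfold coordA coordB nomQ tabQ
      simp only [List.getD_cons_succ, List.getD_cons_zero]
      push_cast
      ring
    have e2 : 39875550000 * (M : ℝ) ^ 2 * D3 α β = 39875550000 *
        (M * (-(M * α.1 + M * α.2) - (12 * (M * β.1) - M * β.2) / 13) -
        165 / 2888 * ((M * α.1) * (M * β.2)) - 495 / 722 * ((M * α.2) * (M * β.1))) := by
      unfold D3 a3 u3
      ring
    rw [e1, e2]
    simp only [zero_mul, one_mul, sub_zero]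
    have h3 := abs_le.1 hb1
    have h4 := abs_le.1 hb2
    have h5 : (M : ℝ) * (-(1 / 100000) - 1 / 1000000) ≤
        M * (-(M * α.1 + M * α.2) - (12 * (M * β.1) - M * β.2) / 13) :=
      mul_le_mul_of_nonneg_left (by linarith [h4.1, h4.2, h3.2]) (by linarith)
    have h6 := gc4_prod (x := M * α.1) (y := M * β.2)
      (by rw [abs_of_nonneg a1]; linarith) (by linarith)
    have h7 := gc4_prod (x := M * α.2) (y := M * β.1)
      (by rw [abs_of_nonpos a4]; linarith) (by linarith)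
    linarith [h4.1, h6.2, h7.2]

end Pool.Agent.Lib.MP_6ff0c5_lc.C
end

section

/-!
MP_6ff0c5_lc, part C: a small solution of the network system gives positively oriented triangles (assembly).
-/

set_option autoImplicit false

namespace Pool.Agent.Lib.MP_6ff0c5_lc.C

open N (Net BT D1 D2 D3 a3 u3 Tight)

/-- **A small solution of the network system gives `TPos`**, with `A i j = posX (12, i, j)`, `B i j = posX (13, i, j)`.
Walls with `w ∈ [0, 1, 2, 4, 6, 7, 8, 10, 12, 15, 17, 18]`: `tpos_nc`; `[3, 5, 9, 11]`: `tpos_wcrit`; the critical closing walls are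
door triangles with one centre at its nominal place outside of the patch: 13 = `(CB(0,j), L2(1,j))` seen from `A(1,j)`: cyclic
rotation of `tpos_door2` with `i = 1`; 14 = `(R3(i,1), CB(i,0))` seen from `A(i,1)`: `tpos_door3` with `j = 1`; 16 =
`(L2(n1+1,j), CA(n1+1,j))` seen from `B(n1,j)`: `tpos_door2` with `i = n1 + 1`; 19 = `(CA(i,n2+1), R3(i,n2+1))` seen from
`B(i,n2)`: `tpos_door3` with `j = n2 + 1`. Doors: `tpos_door1`, `tpos_door2`, `tpos_door3`, `tpos_door_nc`. -/
theorem tpos_of_sol {M : ℤ} (hM : 1000000000 ≤ M) (N : Net) {n1 n2 : ℕ} {H : ℝ} (hH : H ≤ 1 / (1000000 * M))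
    (hact : ∀ x y, N.act x y = true → 2 ≤ x - y ∧ x - y ≤ n1 - 1 ∧ 2 ≤ y ∧ y ≤ n2 - 1)
    {a b : ℤ → ℤ → ℝ × ℝ} (h : N.Sol H a b) : ∃ A B, TPos n1 n2 (posQ M N) A B := by
  have rot : ∀ x y z : Pt, orient x y z = orient y z x := by
    intro x y z
    unfold orient
    ring
  have out : ∀ v : Vx, ¬ (1 ≤ v.2.1 ∧ v.2.1 ≤ n1 ∧ 1 ≤ v.2.2 ∧ v.2.2 ≤ n2) →
      posX M N n1 n2 a b v = posQ M N v := by
    intro v hv
    unfold posX
    rw [if_neg hv]
  refine ⟨fun i j => posX M N n1 n2 a b (12, i, j), fun i j => posX M N n1 n2 a b (13, i, j), ?_⟩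
  refine ⟨?_, ?_, ?_, ?_, ?_, ?_, ?_, ?_⟩
  · -- walls of the A rooms
    intro w i j hw hr
    by_cases hm : w ∈ [0, 1, 2, 4, 6, 7, 8, 10, 12, 15, 17, 18]
    · have h1 := tpos_nc hM hH h hw hm
      rw [hr] at h1
      exact h1
    · have hw' := hw
      obtain ⟨hw20, hi1, hi2, hj1, hj2, h12, h14, h16, h18⟩ := hw
      have hcase : w = 13 ∨ w = 14 := by
        unfold wroom at hr
        simp only [List.mem_cons, List.not_mem_nil, or_false, not_or] at hm
        split_ifs at hr with c1 c2 c3 <;> omega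
      rcases hcase with rfl | rfl
      · have hi : i = 1 := h12 (Or.inr rfl)
        subst hi
        have h1 := tpos_door2 hM hH hact h 1 j le_rfl (by omega) hj1 hj2
        have e1 : wu 13 1 j = (13, 1 - 1, j) := by
          unfold wu wallTab sh; simp
        have e2 : wv 13 1 j = (2, 1, j) := by
          unfold wv wallTab sh; simp
        rw [out (13, 1 - 1, j) (by simp), rot] at h1
        rw [e1, e2]
        exact h1
      · have hj : j = 1 := h14 (Or.inl rfl)
        subst hj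
        have h1 := tpos_door3 hM hH hact h i 1 hi1 hi2 le_rfl (by omega)
        have e1 : wu 14 i 1 = (5, i, 1) := by
          unfold wu wallTab sh; simp
        have e2 : wv 14 i 1 = (13, i, 1 - 1) := by
          unfold wv wallTab sh; simp
        rw [out (13, i, 1 - 1) (by simp), rot] at h1
        rw [e1, e2]
        exact h1
  · -- walls of the B rooms
    intro w i j hw hr
    by_cases hm : w ∈ [0, 1, 2, 4, 6, 7, 8, 10, 12, 15, 17, 18]
    · have h1 := tpos_nc hM hH h hw hm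
      rw [hr] at h1
      exact h1
    · by_cases hm2 : w ∈ [3, 5, 9, 11]
      · have h1 := tpos_wcrit hM hH h hw hm2
        rw [hr] at h1
        exact h1
      · have hw' := hw
        obtain ⟨hw20, hi1, hi2, hj1, hj2, h12, h14, h16, h18⟩ := hw
        have hcase : w = 16 ∨ w = 19 := by
          unfold wroom at hr
          simp only [List.mem_cons, List.not_mem_nil, or_false, not_or] at hm hm2
          split_ifs at hr with c1 c2 c3 <;> omega
        rcases hcase with rfl | rfl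
        · have hi : i = n1 := h16 (Or.inl rfl)
          have h1 := tpos_door2 hM hH hact h (i + 1) j (by omega) (by omega) hj1 hj2
          have e1 : wu 16 i j = (2, i + 1, j) := by
            unfold wu wallTab sh; simp [add_comm]
          have e2 : wv 16 i j = (12, i + 1, j) := by
            unfold wv wallTab sh; simp [add_comm]
          rw [out (12, i + 1, j) (by simp only; omega), add_sub_cancel_right, rot, rot] at h1
          rw [e1, e2]
          exact h1
        · have hj : j = n2 := h18 (Or.inr rfl)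
          have h1 := tpos_door3 hM hH hact h i (j + 1) hi1 hi2 (by omega) (by omega)
          have e1 : wu 19 i j = (12, i, j + 1) := by
            unfold wu wallTab sh; simp [add_comm]
          have e2 : wv 19 i j = (5, i, j + 1) := by
            unfold wv wallTab sh; simp [add_comm]
          rw [out (12, i, j + 1) (by simp only; omega), add_sub_cancel_right] at h1
          rw [e1, e2]
          exact h1
  · intro i j _ _ _ _
    exact (tpos_door_nc hM hH h i j).1
  · intro i j hi hi' hj hj'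
    exact tpos_door1 hM hH hact h i j hi hi' hj hj'
  · intro i j _ _ _ _
    exact (tpos_door_nc hM hH h i j).2.1
  · intro i j hi hi' hj hj'
    exact tpos_door2 hM hH hact h i j (by omega) (by omega) hj hj'
  · intro i j hi hi' hj hj'
    exact tpos_door3 hM hH hact h i j hi hi' (by omega) (by omega)
  · intro i j _ _ _ _
    exact (tpos_door_nc hM hH h i j).2.2

end Pool.Agent.Lib.MP_6ff0c5_lc.C
end

section

/-!
MP_6ff0c5_lc, part C: from positively oriented triangles to the system of the network.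
-/

set_option autoImplicit false

namespace Pool.Agent.Lib.MP_6ff0c5_lc.C

open N (Net BT D1 D2 D3 a3 u3 Tight)

private theorem GSound_posQ (M : ℤ) (N : Net) (v : Vx) :
    posQ M N v = nomM (M : ℝ) v + toPt (dispQ N v) := by
  unfold posQ iposQ toPt nomM
  ext <;> simp

private theorem GSound_toPt0 : toPt (0, 0) = 0 := by
  unfold toPt; ext <;> simp

private theorem GSound_posQ0 (M : ℤ) (N : Net) (v : Vx) (h : dispQ N v = (0, 0)) :
    posQ M N v = nomM (M : ℝ) v := by
  rw [GSound_posQ, h, GSound_toPt0, add_zero]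

private theorem GSound_wu3 (i j : ℤ) : wu 3 i j = (1, i, j) ∧ wv 3 i j = (6, i, j) := by
  unfold wu wv wallTab sh; simp

private theorem GSound_wu5 (i j : ℤ) : wu 5 i j = (7, i, j) ∧ wv 5 i j = (11, i, j) := by
  unfold wu wv wallTab sh; simp

private theorem GSound_wu9 (i j : ℤ) : wu 9 i j = (8, i, j) ∧ wv 9 i j = (9, i, j) := by
  unfold wu wv wallTab sh; simp

private theorem GSound_wu11 (i j : ℤ) : wu 11 i j = (10, i, j) ∧ wv 11 i j = (0, i, j) := by
  unfold wu wv wallTab sh; simp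

/-- **Geometry gives the network system.** For a cell `(i, j) = (x - y, y)` of the patch let `a x y`, `b x y` be the
coordinates of `A i j`, `B i j` (`coordA_surj`, `coordB_surj`), and `0` outside of the patch. An active A room has
`2 ≤ i ≤ n1 - 1`, `2 ≤ j ≤ n2 - 1`, so its three doors are open and the neighbouring B rooms are in the patch; a B room that is
not free has an active neighbour, so it is in the patch. `wB` for the walls 3, 9, 11 and `pinB` give the bounds for `b`, `pinA`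
with `d1L`, `d2L`, `d3R` those for `a`; `crit_d1`, `crit_d2`, `crit_d3` (no displacement: `dispQ` of `L1`, and of `L2`, `R3` of an
active room, is `0`) give `d1`, `d2`, `d3`; the tight conditions are `crit_w3` (hub, pin2, pin13: `V` is not displaced),
`crit_w11` (pin2), `crit_w5` (pin13), `crit_w9` (cup) with the walls 3, 11, 5, 9. -/
theorem sol_of_tpos {M : ℤ} (hM : 1000000000 ≤ M) (N : Net) {n1 n2 : ℕ}
    (hact : ∀ x y, N.act x y = true → 2 ≤ x - y ∧ x - y ≤ n1 - 1 ∧ 2 ≤ y ∧ y ≤ n2 - 1) {A B : ℤ → ℤ → Pt}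
    (h : TPos n1 n2 (posQ M N) A B) : ∃ a b, N.Sol (1 / (M : ℝ)) a b := by
  have hMr : (1000000000 : ℝ) ≤ (M : ℝ) := by exact_mod_cast hM
  have hM0 : (0 : ℝ) < (M : ℝ) := by linarith
  choose a ha using fun x y : ℤ => coordA_surj hM0 (x - y) y (A (x - y) y)
  choose b hb using fun x y : ℤ => coordB_surj hM0 (x - y) y (B (x - y) y)
  have hb2 : ∀ x y : ℤ, coordB (M : ℝ) (x - y - 1) y (b (x - 1) y) = B (x - y - 1) y := by
    intro x y
    have h1 := hb (x - 1) y
    rwa [sub_right_comm] at h1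
  have hb3 : ∀ x y : ℤ, coordB (M : ℝ) (x - y) (y - 1) (b (x - 1) (y - 1)) = B (x - y) (y - 1) := by
    intro x y
    have h1 := hb (x - 1) (y - 1)
    rwa [sub_sub_sub_cancel_right] at h1
  have hWP : ∀ w : ℕ, w < 12 → ∀ x y : ℤ, 1 ≤ x - y → x - y ≤ n1 → 1 ≤ y → y ≤ n2 →
      WP n1 n2 w (x - y) y := by
    intro w hw x y h1 h2 h3 h4
    exact ⟨by omega, h1, h2, h3, h4, by omega, by omega, by omega, by omega⟩
  -- the walls
  have w3 : ∀ x y : ℤ, 1 ≤ x - y → x - y ≤ n1 → 1 ≤ y → y ≤ n2 →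
      0 < orient (posQ M N (1, x - y, y)) (posQ M N (6, x - y, y)) (coordB M (x - y) y (b x y)) := by
    intro x y h1 h2 h3 h4
    have h5 := h.wB 3 (x - y) y (hWP 3 (by norm_num) x y h1 h2 h3 h4) rfl
    rwa [(GSound_wu3 _ _).1, (GSound_wu3 _ _).2, ← hb x y] at h5
  have w5 : ∀ x y : ℤ, 1 ≤ x - y → x - y ≤ n1 → 1 ≤ y → y ≤ n2 →
      0 < orient (posQ M N (7, x - y, y)) (posQ M N (11, x - y, y)) (coordB M (x - y) y (b x y)) := by
    intro x y h1 h2 h3 h4
    have h5 := h.wB 5 (x - y) y (hWP 5 (by norm_num) x y h1 h2 h3 h4) rfl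
    rwa [(GSound_wu5 _ _).1, (GSound_wu5 _ _).2, ← hb x y] at h5
  have w9 : ∀ x y : ℤ, 1 ≤ x - y → x - y ≤ n1 → 1 ≤ y → y ≤ n2 →
      0 < orient (posQ M N (8, x - y, y)) (posQ M N (9, x - y, y)) (coordB M (x - y) y (b x y)) := by
    intro x y h1 h2 h3 h4
    have h5 := h.wB 9 (x - y) y (hWP 9 (by norm_num) x y h1 h2 h3 h4) rfl
    rwa [(GSound_wu9 _ _).1, (GSound_wu9 _ _).2, ← hb x y] at h5
  have w11 : ∀ x y : ℤ, 1 ≤ x - y → x - y ≤ n1 → 1 ≤ y → y ≤ n2 →
      0 < orient (posQ M N (10, x - y, y)) (posQ M N (0, x - y, y)) (coordB M (x - y) y (b x y)) := by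
    intro x y h1 h2 h3 h4
    have h5 := h.wB 11 (x - y) y (hWP 11 (by norm_num) x y h1 h2 h3 h4) rfl
    rwa [(GSound_wu11 _ _).1, (GSound_wu11 _ _).2, ← hb x y] at h5
  have hpin : ∀ x y : ℤ, 1 ≤ x - y → x - y ≤ n1 → 1 ≤ y → y ≤ n2 →
      |(b x y).1| ≤ 1 / (50 * (M : ℝ)) ∧ |(b x y).2| ≤ 1 / (50 * (M : ℝ)) := by
    intro x y h1 h2 h3 h4
    exact pinB hM N (w3 x y h1 h2 h3 h4) (w9 x y h1 h2 h3 h4) (w11 x y h1 h2 h3 h4)
  -- rooms that are not free are in the patch
  have hin : ∀ x y : ℤ, N.bt x y ≠ .free → 1 ≤ x - y ∧ x - y ≤ n1 ∧ 1 ≤ y ∧ y ≤ n2 := by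
    intro x y hf
    have h1 : N.act x y = true ∨ N.act (x + 1) y = true ∨ N.act (x + 1) (y + 1) = true := by
      by_contra h2
      push Not at h2
      apply hf
      unfold Net.bt
      simp [h2.1, h2.2.1, h2.2.2]
    rcases h1 with h1 | h1 | h1
    · have := hact _ _ h1; omega
    · have := hact _ _ h1; omega
    · have := hact _ _ h1; omega
  have hM2 : (0 : ℝ) < (M : ℝ) ^ 2 := by positivity
  have hd0 : ∀ i j : ℤ, dispQ N (0, i, j) = (0, 0) := by intro i j; unfold dispQ; simp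
  have hd1 : ∀ i j : ℤ, dispQ N (1, i, j) = (0, 0) := by intro i j; unfold dispQ; simp
  have hd9 : ∀ i j : ℤ, dispQ N (9, i, j) = (0, 0) := by intro i j; unfold dispQ; simp
  have hd11 : ∀ i j : ℤ, dispQ N (11, i, j) = (0, 0) := by intro i j; unfold dispQ; simp
  have t3 : ∀ x y : ℤ, N.bt x y ≠ .free → N.bt x y ≠ .cup → 0 < (b x y).1 - u3 (b x y) := by
    intro x y hf hc
    obtain ⟨i1, i2, i3, i4⟩ := hin x y hf
    have hd : dispQ N (6, x - y, y) = (0, 0) := by
      unfold dispQ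
      simp only [if_true, sub_add_cancel]
      rw [if_neg (not_or.2 ⟨hc, hf⟩)]
    have h5 := w3 x y i1 i2 i3 i4
    have h6 := crit_w3 (M : ℝ) (x - y) y (b x y) 0
    rw [add_zero] at h6
    rw [GSound_posQ0 M N _ (hd1 _ _), GSound_posQ0 M N _ hd, h6] at h5
    simp only [Prod.fst_zero, Prod.snd_zero, zero_mul, add_zero, sub_zero] at h5
    exact pos_of_mul_pos_right (a := 4785066000 * (M : ℝ) ^ 2) (by linarith) (by positivity)
  refine ⟨a, b, ?_, ?_, ?_, ?_, ?_, ?_⟩
  · intro x y hxy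
    obtain ⟨p1, p2, p3, p4⟩ := hact x y hxy
    have g1 := h.d1L (x - y) y (by omega) (by omega) (by omega) (by omega)
    have g2 := h.d2L (x - y) y (by omega) (by omega) (by omega) (by omega)
    have g3 := h.d3R (x - y) y (by omega) (by omega) (by omega) (by omega)
    rw [← ha x y, ← hb x y] at g1
    rw [← ha x y, ← hb2 x y] at g2
    rw [← ha x y, ← hb3 x y] at g3
    exact pinA hM N (hpin x y (by omega) (by omega) (by omega) (by omega))
      (hpin (x - 1) y (by omega) (by omega) (by omega) (by omega))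
      (hpin (x - 1) (y - 1) (by omega) (by omega) (by omega) (by omega)) g1 g2 g3
  · intro x y hf
    obtain ⟨i1, i2, i3, i4⟩ := hin x y hf
    have h5 := hpin x y i1 i2 i3 i4
    have h6 : 1 / (50 * (M : ℝ)) ≤ 1 / (M : ℝ) :=
      one_div_le_one_div_of_le hM0 (by linarith)
    exact ⟨h5.1.trans h6, h5.2.trans h6⟩
  · intro x y
    cases hbt : N.bt x y with
    | free => trivial
    | hub => exact t3 x y (by rw [hbt]; decide) (by rw [hbt]; decide)
    | pin2 =>
      refine ⟨t3 x y (by rw [hbt]; decide) (by rw [hbt]; decide), ?_⟩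
      obtain ⟨i1, i2, i3, i4⟩ := hin x y (by rw [hbt]; decide)
      have hd : dispQ N (10, x - y, y) = (0, 0) := by
        unfold dispQ
        simp only [show (10 : ℕ) ≠ 6 by norm_num, show (10 : ℕ) ≠ 8 by norm_num, if_false, if_true,
          sub_add_cancel, hbt]
      have h5 := w11 x y i1 i2 i3 i4
      have h6 := crit_w11 (M : ℝ) (x - y) y (b x y) 0
      rw [add_zero] at h6
      rw [GSound_posQ0 M N _ hd, GSound_posQ0 M N _ (hd0 _ _), h6] at h5
      simp only [Prod.fst_zero, Prod.snd_zero, zero_mul, add_zero, sub_zero] at h5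
      have h7 := pos_of_mul_pos_right (a := 709570075500 / 361 * (M : ℝ) ^ 2) (b := -(b x y).1)
        (by linarith) (by positivity)
      linarith
    | pin13 =>
      refine ⟨t3 x y (by rw [hbt]; decide) (by rw [hbt]; decide), ?_⟩
      obtain ⟨i1, i2, i3, i4⟩ := hin x y (by rw [hbt]; decide)
      have hd : dispQ N (7, x - y, y) = (0, 0) := by
        unfold dispQ
        simp only [show (7 : ℕ) ≠ 6 by norm_num, show (7 : ℕ) ≠ 8 by norm_num,
          show (7 : ℕ) ≠ 10 by norm_num, if_false, if_true, sub_add_cancel, hbt]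
      have h5 := w5 x y i1 i2 i3 i4
      have h6 := crit_w5 (M : ℝ) (x - y) y (b x y) 0
      rw [add_zero] at h6
      rw [GSound_posQ0 M N _ hd, GSound_posQ0 M N _ (hd11 _ _), h6] at h5
      simp only [Prod.fst_zero, Prod.snd_zero, zero_mul, add_zero, sub_zero] at h5
      exact pos_of_mul_pos_right (a := 2718787500 * (M : ℝ) ^ 2) (by linarith) (by positivity)
    | cup =>
      obtain ⟨i1, i2, i3, i4⟩ := hin x y (by rw [hbt]; decide)
      have hd : dispQ N (8, x - y, y) = (0, 0) := by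
        unfold dispQ
        simp only [show (8 : ℕ) ≠ 6 by norm_num, if_false, if_true, sub_add_cancel, hbt]
      have h5 := w9 x y i1 i2 i3 i4
      have h6 := crit_w9 (M : ℝ) (x - y) y (b x y) 0
      rw [add_zero] at h6
      rw [GSound_posQ0 M N _ hd, GSound_posQ0 M N _ (hd9 _ _), h6] at h5
      simp only [Prod.fst_zero, Prod.snd_zero, zero_mul, add_zero, sub_zero] at h5
      exact pos_of_mul_pos_right (a := 4785066000 * (M : ℝ) ^ 2) (by linarith) (by positivity)
  · intro x y hxy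
    obtain ⟨p1, p2, p3, p4⟩ := hact x y hxy
    have g1 := h.d1L (x - y) y (by omega) (by omega) (by omega) (by omega)
    have h6 := crit_d1 (M : ℝ) (x - y) y (a x y) (b x y) 0
    rw [add_zero] at h6
    rw [← ha x y, ← hb x y, GSound_posQ0 M N _ (hd0 _ _), h6] at g1
    simp only [Prod.fst_zero, Prod.snd_zero, mul_zero, add_zero, sub_zero] at g1
    exact pos_of_mul_pos_right g1 (by positivity)
  · intro x y hxy
    obtain ⟨p1, p2, p3, p4⟩ := hact x y hxy
    have g2 := h.d2L (x - y) y (by omega) (by omega) (by omega) (by omega)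
    have hd : dispQ N (2, x - y, y) = (0, 0) := by
      unfold dispQ
      simp only [show (2 : ℕ) ≠ 6 by norm_num, show (2 : ℕ) ≠ 8 by norm_num,
        show (2 : ℕ) ≠ 10 by norm_num, show (2 : ℕ) ≠ 7 by norm_num, if_false, if_true,
        sub_add_cancel, hxy]
    have h6 := crit_d2 (M : ℝ) (x - y) y (a x y) (b (x - 1) y) 0
    rw [add_zero] at h6
    rw [← ha x y, ← hb2 x y, GSound_posQ0 M N _ hd, h6] at g2
    simp only [Prod.fst_zero, Prod.snd_zero, mul_zero, add_zero, sub_zero] at g2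
    exact pos_of_mul_pos_right g2 (by positivity)
  · intro x y hxy
    obtain ⟨p1, p2, p3, p4⟩ := hact x y hxy
    have g3 := h.d3R (x - y) y (by omega) (by omega) (by omega) (by omega)
    have hd : dispQ N (5, x - y, y) = (0, 0) := by
      unfold dispQ
      simp only [show (5 : ℕ) ≠ 6 by norm_num, show (5 : ℕ) ≠ 8 by norm_num,
        show (5 : ℕ) ≠ 10 by norm_num, show (5 : ℕ) ≠ 7 by norm_num, show (5 : ℕ) ≠ 2 by norm_num,
        if_false, if_true, sub_add_cancel, hxy]
    have h6 := crit_d3 (M : ℝ) (x - y) y (a x y) (b (x - 1) (y - 1)) 0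
    rw [add_zero] at h6
    rw [← ha x y, ← hb3 x y, GSound_posQ0 M N _ hd, h6] at g3
    simp only [Prod.fst_zero, Prod.snd_zero, zero_mul, add_zero, sub_zero] at g3
    exact pos_of_mul_pos_right g3 (by positivity)

end Pool.Agent.Lib.MP_6ff0c5_lc.C
end
end
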