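import Pool.Agent.Lib.MP_6ff0c5_lc.C.Forced
import Pool.Agent.Lib.MP_6ff0c5_lc.Net.Cmp.Final
import Pool.Agent.Lib.MP_6ff0c5_lc.C.ChF

section

section

/-!
MP_6ff0c5_lc, part C: the labels of the polygons are the present vertices, each once.
-/

set_option autoImplicit false

namespace Pool.Agent.Lib.MP_6ff0c5_lc.C.LP

section

variable {a b : ℕ}

theorem mem_blk {tab : List Vx} {u : Vx} (hu : u ∈ tab) (i j : ℤ) : sh u i j ∈ blk tab i j :=
  List.mem_map.2 ⟨u, hu, rfl⟩

theorem o1 {u : Vx} (hu : u ∈ botTab) {i : ℤ} (h1 : 1 ≤ i) (h2 : i ≤ a + 1) : sh u i 1 ∈ outerL a b := by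
  unfold outerL
  refine List.mem_append_left _ (List.mem_flatMap.2 ⟨(i - 1).toNat, List.mem_range.2 (by omega), ?_⟩)
  have e : (((i - 1).toNat : ℕ) : ℤ) + 1 = i := by omega
  rw [e]
  exact mem_blk hu _ _

theorem o2 {u : Vx} (hu : u ∈ brTab) : sh u (a + 2) 1 ∈ outerL a b := by
  unfold outerL
  exact List.mem_append_right _ (List.mem_append_left _ (mem_blk hu _ _))

theorem o3 {u : Vx} (hu : u ∈ rightTab) {j : ℤ} (h1 : 2 ≤ j) (h2 : j ≤ b + 1) : sh u (a + 1) j ∈ outerL a b := by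
  unfold outerL
  refine List.mem_append_right _ (List.mem_append_right _ (List.mem_append_left _
    (List.mem_flatMap.2 ⟨(j - 2).toNat, List.mem_range.2 (by omega), ?_⟩)))
  have e : (((j - 2).toNat : ℕ) : ℤ) + 2 = j := by omega
  rw [e]
  exact mem_blk hu _ _

theorem o4 {u : Vx} (hu : u ∈ trTab) : sh u (a + 1) (b + 2) ∈ outerL a b := by
  unfold outerL
  exact List.mem_append_right _ (List.mem_append_right _ (List.mem_append_right _
    (List.mem_append_left _ (mem_blk hu _ _))))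

theorem o5 {u : Vx} (hu : u ∈ topTab) {i : ℤ} (h1 : 2 ≤ i) (h2 : i ≤ a + 1) : sh u i (b + 2) ∈ outerL a b := by
  unfold outerL
  refine List.mem_append_right _ (List.mem_append_right _ (List.mem_append_right _ (List.mem_append_right _
    (List.mem_append_left _ (List.mem_flatMap.2 ⟨(a + 1 - i).toNat, List.mem_range.2 (by omega), ?_⟩)))))
  have e : (a : ℤ) + 1 - (((a + 1 - i).toNat : ℕ) : ℤ) = i := by omega
  rw [e]
  exact mem_blk hu _ _

theorem o6 {u : Vx} (hu : u ∈ tlTab) : sh u 1 (b + 2) ∈ outerL a b := by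
  unfold outerL
  exact List.mem_append_right _ (List.mem_append_right _ (List.mem_append_right _ (List.mem_append_right _
    (List.mem_append_right _ (List.mem_append_left _ (mem_blk hu _ _))))))

theorem o7 {u : Vx} (hu : u ∈ leftTab) {j : ℤ} (h1 : 2 ≤ j) (h2 : j ≤ b + 1) : sh u 1 j ∈ outerL a b := by
  unfold outerL
  refine List.mem_append_right _ (List.mem_append_right _ (List.mem_append_right _ (List.mem_append_right _
    (List.mem_append_right _ (List.mem_append_right _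
      (List.mem_flatMap.2 ⟨(b + 1 - j).toNat, List.mem_range.2 (by omega), ?_⟩))))))
  have e : (b : ℤ) + 1 - (((b + 1 - j).toNat : ℕ) : ℤ) = j := by omega
  rw [e]
  exact mem_blk hu _ _

theorem o8 {u : Vx} (hu : u ∈ holeTab) {i j : ℤ} (h1 : 2 ≤ i) (h2 : i ≤ a + 1) (h3 : 1 ≤ j) (h4 : j ≤ b) :
    sh u i j ∈ (holesL a b).flatten := by
  refine List.mem_flatten.2 ⟨blk holeTab i j, ?_, mem_blk hu _ _⟩
  unfold holesL holeIdx
  refine List.mem_map.2 ⟨(i, j), ?_, rfl⟩
  refine List.mem_flatMap.2 ⟨(i - 2).toNat, List.mem_range.2 (by omega), ?_⟩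
  refine List.mem_map.2 ⟨(j - 1).toNat, List.mem_range.2 (by omega), ?_⟩
  have e1 : (((i - 2).toNat : ℕ) : ℤ) + 2 = i := by omega
  have e2 : (((j - 1).toNat : ℕ) : ℤ) + 1 = j := by omega
  rw [e1, e2]

theorem mem_blk_iff {tab : List Vx} {i j : ℤ} {v : Vx} : v ∈ blk tab i j ↔ ∃ u ∈ tab, sh u i j = v := List.mem_map

/-- the eight families of labels -/
theorem mem_cases {v : Vx} (h : v ∈ outerL a b ++ (holesL a b).flatten) :
    (∃ u ∈ botTab, ∃ i : ℤ, 1 ≤ i ∧ i ≤ a + 1 ∧ v = sh u i 1) ∨ (∃ u ∈ brTab, v = sh u (a + 2) 1) ∨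
      (∃ u ∈ rightTab, ∃ j : ℤ, 2 ≤ j ∧ j ≤ b + 1 ∧ v = sh u (a + 1) j) ∨ (∃ u ∈ trTab, v = sh u (a + 1) (b + 2)) ∨
      (∃ u ∈ topTab, ∃ i : ℤ, 2 ≤ i ∧ i ≤ a + 1 ∧ v = sh u i (b + 2)) ∨ (∃ u ∈ tlTab, v = sh u 1 (b + 2)) ∨
      (∃ u ∈ leftTab, ∃ j : ℤ, 2 ≤ j ∧ j ≤ b + 1 ∧ v = sh u 1 j) ∨
      (∃ u ∈ holeTab, ∃ i j : ℤ, 2 ≤ i ∧ i ≤ a + 1 ∧ 1 ≤ j ∧ j ≤ b ∧ v = sh u i j) := by
  unfold outerL holesL holeIdx at h
  simp only [List.mem_append, List.mem_flatMap, List.mem_range, List.mem_flatten, List.mem_map] at h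
  rcases h with (⟨t, ht, h⟩ | h | ⟨t, ht, h⟩ | h | ⟨t, ht, h⟩ | h | ⟨t, ht, h⟩) | ⟨l, ⟨⟨i, j⟩, ⟨s, hs, t, ht, he⟩, rfl⟩, h⟩
  · obtain ⟨u, hu, rfl⟩ := mem_blk_iff.1 h
    exact Or.inl ⟨u, hu, _, by omega, by omega, rfl⟩
  · obtain ⟨u, hu, rfl⟩ := mem_blk_iff.1 h
    exact Or.inr (Or.inl ⟨u, hu, rfl⟩)
  · obtain ⟨u, hu, rfl⟩ := mem_blk_iff.1 h
    exact Or.inr (Or.inr (Or.inl ⟨u, hu, _, by omega, by omega, rfl⟩))
  · obtain ⟨u, hu, rfl⟩ := mem_blk_iff.1 h
    exact Or.inr (Or.inr (Or.inr (Or.inl ⟨u, hu, rfl⟩)))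
  · obtain ⟨u, hu, rfl⟩ := mem_blk_iff.1 h
    exact Or.inr (Or.inr (Or.inr (Or.inr (Or.inl ⟨u, hu, _, by omega, by omega, rfl⟩))))
  · obtain ⟨u, hu, rfl⟩ := mem_blk_iff.1 h
    exact Or.inr (Or.inr (Or.inr (Or.inr (Or.inr (Or.inl ⟨u, hu, rfl⟩)))))
  · obtain ⟨u, hu, rfl⟩ := mem_blk_iff.1 h
    exact Or.inr (Or.inr (Or.inr (Or.inr (Or.inr (Or.inr (Or.inl ⟨u, hu, _, by omega, by omega, rfl⟩))))))
  · obtain ⟨u, hu, rfl⟩ := mem_blk_iff.1 h
    simp only [Prod.mk.injEq] at he
    exact Or.inr (Or.inr (Or.inr (Or.inr (Or.inr (Or.inr (Or.inr ⟨u, hu, _, _, by omega, by omega, by omega, by omega, rfl⟩))))))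

theorem pres_of_mem {v : Vx} (h : v ∈ outerL a b ++ (holesL a b).flatten) : Pres (a + 1) (b + 1) v := by
  rcases mem_cases h with ⟨u, hu, i, h1, h2, rfl⟩ | ⟨u, hu, rfl⟩ | ⟨u, hu, j, h1, h2, rfl⟩ | ⟨u, hu, rfl⟩ |
      ⟨u, hu, i, h1, h2, rfl⟩ | ⟨u, hu, rfl⟩ | ⟨u, hu, j, h1, h2, rfl⟩ | ⟨u, hu, i, j, h1, h2, h3, h4, rfl⟩
  · simp only [botTab, List.mem_cons, List.not_mem_nil, or_false] at hu
    rcases hu with rfl | rfl | rfl | rfl | rfl | rfl | rfl | rfl <;> simp [sh, Pres] <;> omega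
  · simp only [brTab, List.mem_cons, List.not_mem_nil, or_false] at hu
    rcases hu with rfl | rfl | rfl <;> simp [sh, Pres] <;> omega
  · simp only [rightTab, List.mem_cons, List.not_mem_nil, or_false] at hu
    rcases hu with rfl | rfl | rfl | rfl | rfl | rfl | rfl | rfl <;> simp [sh, Pres] <;> omega
  · simp only [trTab, List.mem_cons, List.not_mem_nil, or_false] at hu
    rcases hu with rfl <;> simp [sh, Pres] <;> omega
  · simp only [topTab, List.mem_cons, List.not_mem_nil, or_false] at hu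
    rcases hu with rfl | rfl | rfl | rfl | rfl | rfl | rfl | rfl <;> simp [sh, Pres] <;> omega
  · simp only [tlTab, List.mem_cons, List.not_mem_nil, or_false] at hu
    rcases hu with rfl | rfl | rfl | rfl | rfl | rfl | rfl | rfl <;> simp [sh, Pres] <;> omega
  · simp only [leftTab, List.mem_cons, List.not_mem_nil, or_false] at hu
    rcases hu with rfl | rfl | rfl | rfl | rfl | rfl | rfl | rfl <;> simp [sh, Pres] <;> omega
  · simp only [holeTab, List.mem_cons, List.not_mem_nil, or_false] at hu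
    rcases hu with rfl | rfl | rfl | rfl | rfl | rfl | rfl | rfl | rfl | rfl | rfl | rfl <;> simp [sh, Pres] <;> omega

/-! ### The converse -/

theorem sh_sub (k : ℕ) (p q x y : ℤ) : sh ((k, p, q) : Vx) (x - p) (y - q) = (k, x, y) := by
  unfold sh; ext <;> simp

theorem q1 {k : ℕ} {p q x y : ℤ} (hu : (k, p, q) ∈ botTab) (h : 1 ≤ x - p ∧ x - p ≤ a + 1 ∧ y - q = 1) :
    (k, x, y) ∈ outerL a b ++ (holesL a b).flatten := by
  have h1 := o1 (a := a) (b := b) hu h.1 h.2.1
  rw [← h.2.2, sh_sub] at h1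
  exact List.mem_append_left _ h1

theorem q2 {k : ℕ} {p q x y : ℤ} (hu : (k, p, q) ∈ brTab) (h : x - p = a + 2 ∧ y - q = 1) :
    (k, x, y) ∈ outerL a b ++ (holesL a b).flatten := by
  have h1 := o2 (a := a) (b := b) hu
  rw [← h.1, ← h.2, sh_sub] at h1
  exact List.mem_append_left _ h1

theorem q3 {k : ℕ} {p q x y : ℤ} (hu : (k, p, q) ∈ rightTab) (h : x - p = a + 1 ∧ 2 ≤ y - q ∧ y - q ≤ b + 1) :
    (k, x, y) ∈ outerL a b ++ (holesL a b).flatten := by
  have h1 := o3 (a := a) (b := b) hu h.2.1 h.2.2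
  rw [← h.1, sh_sub] at h1
  exact List.mem_append_left _ h1

theorem q4 {k : ℕ} {p q x y : ℤ} (hu : (k, p, q) ∈ trTab) (h : x - p = a + 1 ∧ y - q = b + 2) :
    (k, x, y) ∈ outerL a b ++ (holesL a b).flatten := by
  have h1 := o4 (a := a) (b := b) hu
  rw [← h.1, ← h.2, sh_sub] at h1
  exact List.mem_append_left _ h1

theorem q5 {k : ℕ} {p q x y : ℤ} (hu : (k, p, q) ∈ topTab) (h : 2 ≤ x - p ∧ x - p ≤ a + 1 ∧ y - q = b + 2) :
    (k, x, y) ∈ outerL a b ++ (holesL a b).flatten := by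
  have h1 := o5 (a := a) (b := b) hu h.1 h.2.1
  rw [← h.2.2, sh_sub] at h1
  exact List.mem_append_left _ h1

theorem q6 {k : ℕ} {p q x y : ℤ} (hu : (k, p, q) ∈ tlTab) (h : x - p = 1 ∧ y - q = b + 2) :
    (k, x, y) ∈ outerL a b ++ (holesL a b).flatten := by
  have h1 := o6 (a := a) (b := b) hu
  rw [← h.1, ← h.2, sh_sub] at h1
  exact List.mem_append_left _ h1

theorem q7 {k : ℕ} {p q x y : ℤ} (hu : (k, p, q) ∈ leftTab) (h : x - p = 1 ∧ 2 ≤ y - q ∧ y - q ≤ b + 1) :
    (k, x, y) ∈ outerL a b ++ (holesL a b).flatten := by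
  have h1 := o7 (a := a) (b := b) hu h.2.1 h.2.2
  rw [← h.1, sh_sub] at h1
  exact List.mem_append_left _ h1

theorem q8 {k : ℕ} {p q x y : ℤ} (hu : (k, p, q) ∈ holeTab)
    (h : 2 ≤ x - p ∧ x - p ≤ a + 1 ∧ 1 ≤ y - q ∧ y - q ≤ b) :
    (k, x, y) ∈ outerL a b ++ (holesL a b).flatten := by
  have h1 := o8 (a := a) (b := b) hu h.1 h.2.1 h.2.2.1 h.2.2.2
  rw [sh_sub] at h1
  exact List.mem_append_right _ h1

theorem mem_of_pres {v : Vx} (h : Pres (a + 1) (b + 1) v) : v ∈ outerL a b ++ (holesL a b).flatten := by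
  have hk := pres_lt h
  obtain ⟨k, x, y⟩ := v
  simp only at hk
  by_contra hc
  interval_cases k
  · -- kind 0
    have f1 : ¬ _ := fun h => hc (q5 (k := 0) (p := 0) (q := -1) (x := x) (y := y) (by decide) h)
    have f2 : ¬ _ := fun h => hc (q6 (k := 0) (p := 0) (q := -1) (x := x) (y := y) (by decide) h)
    have f3 : ¬ _ := fun h => hc (q7 (k := 0) (p := 0) (q := -1) (x := x) (y := y) (by decide) h)
    have f4 : ¬ _ := fun h => hc (q8 (k := 0) (p := 0) (q := 0) (x := x) (y := y) (by decide) h)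
    simp [Pres] at h
    omega
  · -- kind 1
    have f1 : ¬ _ := fun h => hc (q1 (k := 1) (p := 0) (q := 0) (x := x) (y := y) (by decide) h)
    have f2 : ¬ _ := fun h => hc (q3 (k := 1) (p := 0) (q := 0) (x := x) (y := y) (by decide) h)
    have f3 : ¬ _ := fun h => hc (q8 (k := 1) (p := -1) (q := 1) (x := x) (y := y) (by decide) h)
    simp [Pres] at h
    omega
  · -- kind 2
    have f1 : ¬ _ := fun h => hc (q1 (k := 2) (p := 0) (q := 0) (x := x) (y := y) (by decide) h)
    have f2 : ¬ _ := fun h => hc (q2 (k := 2) (p := 0) (q := 0) (x := x) (y := y) (by decide) h)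
    have f3 : ¬ _ := fun h => hc (q3 (k := 2) (p := 1) (q := 0) (x := x) (y := y) (by decide) h)
    have f4 : ¬ _ := fun h => hc (q7 (k := 2) (p := 0) (q := 0) (x := x) (y := y) (by decide) h)
    have f5 : ¬ _ := fun h => hc (q8 (k := 2) (p := 0) (q := 1) (x := x) (y := y) (by decide) h)
    simp [Pres] at h
    omega
  · -- kind 3
    have f1 : ¬ _ := fun h => hc (q2 (k := 3) (p := 0) (q := 0) (x := x) (y := y) (by decide) h)
    have f2 : ¬ _ := fun h => hc (q3 (k := 3) (p := 1) (q := 0) (x := x) (y := y) (by decide) h)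
    have f3 : ¬ _ := fun h => hc (q5 (k := 3) (p := 0) (q := -1) (x := x) (y := y) (by decide) h)
    have f4 : ¬ _ := fun h => hc (q6 (k := 3) (p := 0) (q := -1) (x := x) (y := y) (by decide) h)
    have f5 : ¬ _ := fun h => hc (q7 (k := 3) (p := 0) (q := -1) (x := x) (y := y) (by decide) h)
    have f6 : ¬ _ := fun h => hc (q8 (k := 3) (p := 0) (q := 0) (x := x) (y := y) (by decide) h)
    simp [Pres] at h
    omega
  · -- kind 4
    have f1 : ¬ _ := fun h => hc (q1 (k := 4) (p := 0) (q := 0) (x := x) (y := y) (by decide) h)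
    have f2 : ¬ _ := fun h => hc (q3 (k := 4) (p := 0) (q := 0) (x := x) (y := y) (by decide) h)
    have f3 : ¬ _ := fun h => hc (q4 (k := 4) (p := 0) (q := 0) (x := x) (y := y) (by decide) h)
    have f4 : ¬ _ := fun h => hc (q5 (k := 4) (p := -1) (q := 0) (x := x) (y := y) (by decide) h)
    have f5 : ¬ _ := fun h => hc (q8 (k := 4) (p := -1) (q := 1) (x := x) (y := y) (by decide) h)
    simp [Pres] at h
    omega
  · -- kind 5
    have f1 : ¬ _ := fun h => hc (q1 (k := 5) (p := 0) (q := 0) (x := x) (y := y) (by decide) h)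
    have f2 : ¬ _ := fun h => hc (q5 (k := 5) (p := 0) (q := 0) (x := x) (y := y) (by decide) h)
    have f3 : ¬ _ := fun h => hc (q6 (k := 5) (p := 0) (q := 0) (x := x) (y := y) (by decide) h)
    have f4 : ¬ _ := fun h => hc (q7 (k := 5) (p := 0) (q := 0) (x := x) (y := y) (by decide) h)
    have f5 : ¬ _ := fun h => hc (q8 (k := 5) (p := 0) (q := 1) (x := x) (y := y) (by decide) h)
    simp [Pres] at h
    omega
  · -- kind 6
    have f1 : ¬ _ := fun h => hc (q1 (k := 6) (p := 0) (q := 0) (x := x) (y := y) (by decide) h)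
    have f2 : ¬ _ := fun h => hc (q3 (k := 6) (p := 0) (q := 0) (x := x) (y := y) (by decide) h)
    have f3 : ¬ _ := fun h => hc (q8 (k := 6) (p := -1) (q := 1) (x := x) (y := y) (by decide) h)
    simp [Pres] at h
    omega
  · -- kind 7
    have f1 : ¬ _ := fun h => hc (q1 (k := 7) (p := 0) (q := 0) (x := x) (y := y) (by decide) h)
    have f2 : ¬ _ := fun h => hc (q3 (k := 7) (p := 0) (q := 0) (x := x) (y := y) (by decide) h)
    have f3 : ¬ _ := fun h => hc (q8 (k := 7) (p := -1) (q := 1) (x := x) (y := y) (by decide) h)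
    simp [Pres] at h
    omega
  · -- kind 8
    have f1 : ¬ _ := fun h => hc (q5 (k := 8) (p := 0) (q := -1) (x := x) (y := y) (by decide) h)
    have f2 : ¬ _ := fun h => hc (q6 (k := 8) (p := 0) (q := -1) (x := x) (y := y) (by decide) h)
    have f3 : ¬ _ := fun h => hc (q7 (k := 8) (p := 0) (q := -1) (x := x) (y := y) (by decide) h)
    have f4 : ¬ _ := fun h => hc (q8 (k := 8) (p := 0) (q := 0) (x := x) (y := y) (by decide) h)
    simp [Pres] at h
    omega
  · -- kind 9
    have f1 : ¬ _ := fun h => hc (q5 (k := 9) (p := 0) (q := -1) (x := x) (y := y) (by decide) h)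
    have f2 : ¬ _ := fun h => hc (q6 (k := 9) (p := 0) (q := -1) (x := x) (y := y) (by decide) h)
    have f3 : ¬ _ := fun h => hc (q7 (k := 9) (p := 0) (q := -1) (x := x) (y := y) (by decide) h)
    have f4 : ¬ _ := fun h => hc (q8 (k := 9) (p := 0) (q := 0) (x := x) (y := y) (by decide) h)
    simp [Pres] at h
    omega
  · -- kind 10
    have f1 : ¬ _ := fun h => hc (q5 (k := 10) (p := 0) (q := -1) (x := x) (y := y) (by decide) h)
    have f2 : ¬ _ := fun h => hc (q6 (k := 10) (p := 0) (q := -1) (x := x) (y := y) (by decide) h)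
    have f3 : ¬ _ := fun h => hc (q7 (k := 10) (p := 0) (q := -1) (x := x) (y := y) (by decide) h)
    have f4 : ¬ _ := fun h => hc (q8 (k := 10) (p := 0) (q := 0) (x := x) (y := y) (by decide) h)
    simp [Pres] at h
    omega
  · -- kind 11
    have f1 : ¬ _ := fun h => hc (q1 (k := 11) (p := 0) (q := 0) (x := x) (y := y) (by decide) h)
    have f2 : ¬ _ := fun h => hc (q3 (k := 11) (p := 0) (q := 0) (x := x) (y := y) (by decide) h)
    have f3 : ¬ _ := fun h => hc (q8 (k := 11) (p := -1) (q := 1) (x := x) (y := y) (by decide) h)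
    simp [Pres] at h
    omega
  · -- kind 12
    have f1 : ¬ _ := fun h => hc (q2 (k := 12) (p := 0) (q := 0) (x := x) (y := y) (by decide) h)
    have f2 : ¬ _ := fun h => hc (q3 (k := 12) (p := 1) (q := 0) (x := x) (y := y) (by decide) h)
    have f3 : ¬ _ := fun h => hc (q5 (k := 12) (p := 0) (q := 0) (x := x) (y := y) (by decide) h)
    have f4 : ¬ _ := fun h => hc (q6 (k := 12) (p := 0) (q := 0) (x := x) (y := y) (by decide) h)
    simp [Pres] at h
    omega
  · -- kind 13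
    have f1 : ¬ _ := fun h => hc (q1 (k := 13) (p := 0) (q := -1) (x := x) (y := y) (by decide) h)
    have f2 : ¬ _ := fun h => hc (q6 (k := 13) (p := -1) (q := -1) (x := x) (y := y) (by decide) h)
    have f3 : ¬ _ := fun h => hc (q7 (k := 13) (p := -1) (q := -1) (x := x) (y := y) (by decide) h)
    simp [Pres] at h
    omega

/-- **The labels are the present vertices.** -/
theorem mem_all {v : Vx} : v ∈ outerL a b ++ (holesL a b).flatten ↔ Pres (a + 1) (b + 1) v :=
  ⟨pres_of_mem, mem_of_pres⟩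

/-! ### Every label occurs once -/

/-- the present vertices -/
noncomputable def presSet (n1 n2 : ℕ) : Finset Vx :=
  (({0, 1, 6, 7, 8, 9, 10, 11} : Finset ℕ) ×ˢ (Finset.Icc (1 : ℤ) n1 ×ˢ Finset.Icc (1 : ℤ) n2)) ∪
    ((({2, 3} : Finset ℕ) ×ˢ (Finset.Icc (1 : ℤ) (n1 + 1) ×ˢ Finset.Icc (1 : ℤ) n2)) ∪
    ((({4, 5} : Finset ℕ) ×ˢ (Finset.Icc (1 : ℤ) n1 ×ˢ Finset.Icc (1 : ℤ) (n2 + 1))) ∪
    ((({12} : Finset ℕ) ×ˢ (({(n1 : ℤ) + 1} : Finset ℤ) ×ˢ Finset.Icc (1 : ℤ) n2)) ∪
    ((({12} : Finset ℕ) ×ˢ (Finset.Icc (1 : ℤ) n1 ×ˢ ({(n2 : ℤ) + 1} : Finset ℤ))) ∪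
    ((({13} : Finset ℕ) ×ˢ (({0} : Finset ℤ) ×ˢ Finset.Icc (1 : ℤ) n2)) ∪
    (({13} : Finset ℕ) ×ˢ (Finset.Icc (1 : ℤ) n1 ×ˢ ({0} : Finset ℤ))))))))

theorem card_presSet (n1 n2 : ℕ) : (presSet n1 n2).card =
    8 * (n1 * n2) + (2 * ((n1 + 1) * n2) + (2 * (n1 * (n2 + 1)) + (n2 + (n1 + (n2 + n1))))) := by
  unfold presSet
  rw [Finset.card_union_of_disjoint, Finset.card_union_of_disjoint, Finset.card_union_of_disjoint,
    Finset.card_union_of_disjoint, Finset.card_union_of_disjoint, Finset.card_union_of_disjoint]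
  · simp only [Finset.card_product, Int.card_Icc, Finset.card_singleton]
    have a0 : ({0, 1, 6, 7, 8, 9, 10, 11} : Finset ℕ).card = 8 := rfl
    have a1 : ({2, 3} : Finset ℕ).card = 2 := rfl
    have a2 : ({4, 5} : Finset ℕ).card = 2 := rfl
    have b1 : ((n1 : ℤ) + 1 - 1).toNat = n1 := by omega
    have b2 : ((n2 : ℤ) + 1 - 1).toNat = n2 := by omega
    have b3 : ((n1 : ℤ) + 1 + 1 - 1).toNat = n1 + 1 := by omega
    have b4 : ((n2 : ℤ) + 1 + 1 - 1).toNat = n2 + 1 := by omega
    rw [a0, a1, a2, b1, b2, b3, b4]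
    ring
  all_goals
    rw [Finset.disjoint_left]
    rintro ⟨k, i, j⟩ g1 g2
    simp only [Finset.mem_union, Finset.mem_product, Finset.mem_insert, Finset.mem_singleton, Finset.mem_Icc] at g1 g2
    omega

theorem length_all (a b : ℕ) : (outerL a b ++ (holesL a b).flatten).length =
    8 * (a + 1) + (3 + (8 * b + (1 + (8 * a + (8 + 8 * b))))) + 12 * (a * b) := by
  have hb : ∀ (tab : List Vx) (i j : ℤ), (blk tab i j).length = tab.length := fun tab i j => by
    unfold blk; rw [List.length_map]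
  unfold outerL holesL holeIdx
  simp only [List.length_append, List.length_flatMap, hb, List.length_flatten, List.map_map, List.map_flatMap]
  have hs : ∀ m : ℕ, ((List.range m).flatMap fun _ => List.replicate b 12).sum = m * (b * 12) := by
    intro m
    induction m with
    | zero => simp
    | succ m ih =>
      rw [List.range_succ, List.flatMap_append, List.sum_append, ih]
      simp
      ring
  simp [botTab, brTab, rightTab, trTab, topTab, tlTab, leftTab, holeTab, hb, Function.comp_def, hs]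
  ring

/-- **Every label occurs once.** -/
theorem nodup_all (a b : ℕ) : (outerL a b ++ (holesL a b).flatten).Nodup := by
  have h1 : presSet (a + 1) (b + 1) ⊆ (outerL a b ++ (holesL a b).flatten).toFinset := by
    rintro ⟨k, x, y⟩ h
    rw [List.mem_toFinset]
    refine mem_of_pres ?_
    simp only [presSet, Finset.mem_union, Finset.mem_product, Finset.mem_insert, Finset.mem_singleton,
      Finset.mem_Icc] at h
    have hk : k < 14 := by omega
    clear hk
    rcases h with ⟨hk, h⟩ | ⟨hk, h⟩ | ⟨hk, h⟩ | ⟨hk, h⟩ | ⟨hk, h⟩ | ⟨hk, h⟩ | ⟨hk, h⟩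
    · rcases hk with hk | hk | hk | hk | hk | hk | hk | hk <;> subst hk <;> simp [Pres] <;> omega
    · rcases hk with hk | hk <;> subst hk <;> simp [Pres] <;> omega
    · rcases hk with hk | hk <;> subst hk <;> simp [Pres] <;> omega
    all_goals
      subst hk; simp [Pres]; omega
  have h2 := Finset.card_le_card h1
  rw [card_presSet] at h2
  have h3 := List.toFinset_card_le (outerL a b ++ (holesL a b).flatten)
  have h4 := length_all a b
  have h5 : (outerL a b ++ (holesL a b).flatten).toFinset.card = (outerL a b ++ (holesL a b).flatten).length := by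
    refine le_antisymm h3 ?_
    rw [h4]
    refine le_trans (le_of_eq ?_) h2
    ring
  have h6 := Multiset.toFinset_card_eq_card_iff_nodup (m := ((outerL a b ++ (holesL a b).flatten : List Vx) : Multiset Vx))
  exact Multiset.coe_nodup.1 (h6.1 h5)

/-- the number of vertices -/
theorem length_all' (a b : ℕ) : (outerL a b ++ (holesL a b).flatten).length =
    8 * ((a + 1) * (b + 1)) + (2 * ((a + 2) * (b + 1)) + (2 * ((a + 1) * (b + 2)) + 2 * (a + 1) + 2 * (b + 1))) := by
  rw [length_all]; ring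

end

end Pool.Agent.Lib.MP_6ff0c5_lc.C.LP
end

section

/-!
The chain of the nominal triangulation `TS` is the chain of the walls.

Plan. `sum_flatMap_range` (C/Tab.lean) and `sum_tblk` turn both sides into double sums of `S f (tE table) (i+1) (j+1)`.
With `g2A = [(3,0,0)→(12,0,0), (12,0,0)→(2,0,0)]` (edges at the centre of `A` near door 2),
`g2B = [(2,1,0)→(13,0,0), (13,0,0)→(3,1,0)]` and `g3A = [(5,0,0)→(12,0,0), (12,0,0)→(4,0,0)]`,
`g3B = [(4,0,1)→(13,0,0), (13,0,0)→(5,0,1)]` one has (all by `decide +kernel` on `Same`, see C/Lay.lean for the style)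
`Same (tE cellS) (wallsE ++ g2A ++ g2B ++ g3A ++ g3B)`,
`Same (tE door2) ((g2A ++ g2B.map (she (-1) 0)).map Prod.swap)`, `Same (tE door3) ((g3A ++ g3B.map (she 0 (-1))).map Prod.swap)`.
So the sum over the cells and the doors telescopes: in the door 2 sum `i` runs over `1..a+2`, the `g2A` terms leave
`- S f g2A (a+2) (j+1)`, the `g2B` terms leave `- S f g2B 0 (j+1)`, and `- S f g2A (a+2) (j+1) = S f d2 (a+1) (j+1)`
(`Same (d2) (g2A.map (she 1 0)).map swap`), `- S f g2B 0 (j+1) = S f c2 1 (j+1)`; the same for door 3 with `j`.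
Use `Finset.sum_range_succ`, `Finset.sum_range_succ'` and `linarith`, as in `walls_comb`.
-/

set_option autoImplicit false

namespace Pool.Agent.Lib.MP_6ff0c5_lc.C

open Pool.Agent.Lib.MP_6ff0c5_lc.K

private def g2A : List (Vx × Vx) := [((3, 0, 0), (12, 0, 0)), ((12, 0, 0), (2, 0, 0))]
private def g2B : List (Vx × Vx) := [((2, 1, 0), (13, 0, 0)), ((13, 0, 0), (3, 1, 0))]
private def g3A : List (Vx × Vx) := [((5, 0, 0), (12, 0, 0)), ((12, 0, 0), (4, 0, 0))]
private def g3B : List (Vx × Vx) := [((4, 0, 1), (13, 0, 0)), ((13, 0, 0), (5, 0, 1))]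

private theorem same_cellS : Same (tE cellS) (wallsE ++ g2A ++ g2B ++ g3A ++ g3B) := by decide +kernel
private theorem same_door2 : Same (tE door2) (g2A.map Prod.swap ++ (g2B.map (she (-1) 0)).map Prod.swap) := by
  decide +kernel
private theorem same_door3 : Same (tE door3) (g3A.map Prod.swap ++ (g3B.map (she 0 (-1))).map Prod.swap) := by
  decide +kernel
private theorem same_c2 : Same c2 ((g2B.map (she (-1) 0)).map Prod.swap) := by decide +kernel
private theorem same_c3 : Same c3 ((g3B.map (she 0 (-1))).map Prod.swap) := by decide +kernel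
private theorem same_d2 : Same d2 ((g2A.map (she 1 0)).map Prod.swap) := by decide +kernel
private theorem same_d3' : Same d3 ((g3A.map (she 0 1)).map Prod.swap) := by decide +kernel

private theorem sum_fam1 (f : Vx → Vx → ℤ) (tab : List (Vx × Vx × Vx)) (x y : ℕ → ℤ) (k : ℕ) :
    ((fam1 tab x y k).map (bsum f)).sum = ∑ t ∈ Finset.range k, S f (tE tab) (x t) (y t) := by
  unfold fam1
  rw [sum_flatMap_range]
  exact Finset.sum_congr rfl fun t _ => sum_tblk f tab (x t) (y t)

private theorem sum_fam2 (f : Vx → Vx → ℤ) (tab : List (Vx × Vx × Vx)) (m n : ℕ) :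
    ((fam2 tab m n).map (bsum f)).sum =
      ∑ i ∈ Finset.range m, ∑ j ∈ Finset.range n, S f (tE tab) (i + 1) (j + 1) := by
  unfold fam2
  rw [sum_flatMap_range]
  exact Finset.sum_congr rfl fun t _ => sum_fam1 f tab _ _ n

private theorem door_i (A B : ℤ → ℤ → ℤ) (m n : ℕ) :
    ∑ i ∈ Finset.range (m + 1), ∑ j ∈ Finset.range n, (-A (i + 1) (j + 1) + -B (i + 1 + -1) (j + 1)) =
      -(∑ i ∈ Finset.range m, ∑ j ∈ Finset.range n, A (i + 1) (j + 1) + ∑ j ∈ Finset.range n, A (m + 1) (j + 1)) -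
      (∑ i ∈ Finset.range m, ∑ j ∈ Finset.range n, B (i + 1) (j + 1) + ∑ j ∈ Finset.range n, B 0 (j + 1)) := by
  have e1 : ∀ i : ℕ, ((i : ℤ) + 1 + -1) = i := fun i => by ring
  simp only [Finset.sum_add_distrib, Finset.sum_neg_distrib, e1]
  rw [Finset.sum_range_succ (fun i : ℕ => ∑ j ∈ Finset.range n, A (i + 1) (j + 1)),
    Finset.sum_range_succ' (fun i : ℕ => ∑ j ∈ Finset.range n, B i (j + 1))]
  simp only [Nat.cast_add, Nat.cast_one, Nat.cast_zero]
  ring

private theorem door_j (A B : ℤ → ℤ → ℤ) (m n : ℕ) :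
    ∑ i ∈ Finset.range m, ∑ j ∈ Finset.range (n + 1), (-A (i + 1) (j + 1) + -B (i + 1) (j + 1 + -1)) =
      -(∑ i ∈ Finset.range m, ∑ j ∈ Finset.range n, A (i + 1) (j + 1) + ∑ i ∈ Finset.range m, A (i + 1) (n + 1)) -
      (∑ i ∈ Finset.range m, ∑ j ∈ Finset.range n, B (i + 1) (j + 1) + ∑ i ∈ Finset.range m, B (i + 1) 0) := by
  have e1 : ∀ i : ℕ, ((i : ℤ) + 1 + -1) = i := fun i => by ring
  simp only [Finset.sum_add_distrib, Finset.sum_neg_distrib, e1]
  have h1 : ∑ i ∈ Finset.range m, ∑ j ∈ Finset.range (n + 1), A (i + 1) (j + 1) =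
      ∑ i ∈ Finset.range m, ∑ j ∈ Finset.range n, A (i + 1) (j + 1) + ∑ i ∈ Finset.range m, A (i + 1) (n + 1) := by
    rw [← Finset.sum_add_distrib]
    exact Finset.sum_congr rfl fun i _ => Finset.sum_range_succ _ _
  have h2 : ∑ i ∈ Finset.range m, ∑ j ∈ Finset.range (n + 1), B (i + 1) j =
      ∑ i ∈ Finset.range m, ∑ j ∈ Finset.range n, B (i + 1) (j + 1) + ∑ i ∈ Finset.range m, B (i + 1) 0 := by
    rw [← Finset.sum_add_distrib]
    refine Finset.sum_congr rfl fun i _ => ?_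
    rw [Finset.sum_range_succ' (fun j : ℕ => B (i + 1) j)]
    simp only [Nat.cast_add, Nat.cast_one, Nat.cast_zero]
  rw [h1, h2]
  ring

theorem sum_TS {f : Vx → Vx → ℤ} (hf : ∀ a b, f b a = -f a b) (a b : ℕ) :
    ((TS a b).map (bsum f)).sum = wallSum f a b := by
  have e1 : ∀ i j, S f (tE cellS) i j =
      S f wallsE i j + S f g2A i j + S f g2B i j + S f g3A i j + S f g3B i j := by
    intro i j
    rw [same_cellS.S hf]
    simp only [S_append]
  have e2 : ∀ i j, S f (tE door2) i j = -S f g2A i j + -S f g2B (i + -1) j := by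
    intro i j
    rw [same_door2.S hf]
    simp only [S_append, S_swap hf, S_shift, add_zero]
  have e3 : ∀ i j, S f (tE door3) i j = -S f g3A i j + -S f g3B i (j + -1) := by
    intro i j
    rw [same_door3.S hf]
    simp only [S_append, S_swap hf, S_shift, add_zero]
  have e4 : ∀ j, S f c2 1 j = -S f g2B 0 j := by
    intro j
    rw [same_c2.S hf, S_swap hf, S_shift, add_zero]
    norm_num
  have e5 : ∀ i, S f c3 i 1 = -S f g3B i 0 := by
    intro i
    rw [same_c3.S hf, S_swap hf, S_shift, add_zero]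
    norm_num
  have e6 : ∀ i j, S f d2 i j = -S f g2A (i + 1) j := by
    intro i j
    rw [same_d2.S hf, S_swap hf, S_shift, add_zero]
  have e7 : ∀ i j, S f d3 i j = -S f g3A i (j + 1) := by
    intro i j
    rw [same_d3'.S hf, S_swap hf, S_shift, add_zero]
  unfold TS wallSum dsum
  simp only [List.map_append, List.sum_append, sum_fam2]
  have t2 := door_i (S f g2A) (S f g2B) (a + 1) (b + 1)
  have t3 := door_j (S f g3A) (S f g3B) (a + 1) (b + 1)
  simp only [← e2, ← e3] at t2 t3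
  rw [t2, t3]
  simp only [e1, e4, e5, e6, e7, Finset.sum_add_distrib, Finset.sum_neg_distrib, Nat.cast_add, Nat.cast_one]
  ring

end Pool.Agent.Lib.MP_6ff0c5_lc.C
end
end

section

section

/-!
The far triangles of a path: sum of the boundaries (induction on the list; `ps_cons_cons`).
-/

set_option autoImplicit false

namespace Pool.Agent.Lib.MP_6ff0c5_lc.C

open Pool.Agent.Lib.MP_6ff0c5_lc.K

theorem sum_farT {f : Vx → Vx → ℤ} (hf : ∀ a b, f b a = -f a b) (D x : Vx) (l : List Vx) :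
    ((farT D (x :: l)).map (bsum f)).sum =
      -ps f (x :: l) + f x D - f ((x :: l).getLast (List.cons_ne_nil x l)) D := by
  induction l generalizing x with
  | nil => simp [farT, pE, ps]
  | cons y l ih =>
    have h1 : ((farT D (x :: y :: l)).map (bsum f)).sum =
        (f y x + f x D + f D y) + ((farT D (y :: l)).map (bsum f)).sum := by
      simp [farT, pE, bsum]
    rw [h1, ih y, ps_cons_cons, List.getLast_cons (List.cons_ne_nil y l), hf x y, hf y D]
    ring

end Pool.Agent.Lib.MP_6ff0c5_lc.C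
end

section

/-!
Lengths of the lists (`List.length_flatMap`, sums of constants; `nd` from C/Pos.lean).
-/

set_option autoImplicit false

namespace Pool.Agent.Lib.MP_6ff0c5_lc.C

open Pool.Agent.Lib.MP_6ff0c5_lc.K

private theorem len_flatMap_const {α β : Type} (l : List α) (f : α → List β) (c : ℕ)
    (h : ∀ x, (f x).length = c) : (l.flatMap f).length = l.length * c := by
  rw [List.length_flatMap]
  have h1 : (l.map fun x => (f x).length) = l.map fun _ => c := List.map_congr_left fun x _ => h x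
  rw [h1, List.map_const', List.sum_replicate, smul_eq_mul]

private theorem len_blk (tab : List Vx) (i j : ℤ) : (blk tab i j).length = tab.length := by
  unfold blk
  rw [List.length_map]

private theorem len_tblk (tab : List (Vx × Vx × Vx)) (i j : ℤ) : (tblk tab i j).length = tab.length := by
  unfold tblk
  rw [List.length_map]

private theorem len_fam2 (tab : List (Vx × Vx × Vx)) (m n : ℕ) :
    (fam2 tab m n).length = m * (n * tab.length) := by
  unfold fam2
  have h := len_flatMap_const (List.range m)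
    (fun i : ℕ => fam1 tab (fun _ => (i : ℤ) + 1) (fun j : ℕ => (j : ℤ) + 1) n) (n * tab.length)
    (fun i => by
      unfold fam1
      have h2 := len_flatMap_const (List.range n) (fun t : ℕ => tblk tab ((i : ℤ) + 1) ((t : ℤ) + 1)) tab.length
        (fun t => len_tblk _ _ _)
      rw [List.length_range] at h2
      exact h2)
  rw [List.length_range] at h
  exact h

theorem length_outer (a b : ℕ) : (outerL a b).length = 16 * a + 16 * b + 20 := by
  unfold outerL
  have h1 := len_flatMap_const (List.range (a + 1)) (fun t : ℕ => blk botTab ((t : ℤ) + 1) 1) botTab.length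
    (fun t => len_blk _ _ _)
  have h2 := len_flatMap_const (List.range b) (fun t : ℕ => blk rightTab (a + 1) ((t : ℤ) + 2)) rightTab.length
    (fun t => len_blk _ _ _)
  have h3 := len_flatMap_const (List.range a) (fun t : ℕ => blk topTab ((a : ℤ) + 1 - t) (b + 2)) topTab.length
    (fun t => len_blk _ _ _)
  have h4 := len_flatMap_const (List.range b) (fun t : ℕ => blk leftTab 1 ((b : ℤ) + 1 - t)) leftTab.length
    (fun t => len_blk _ _ _)
  rw [List.length_range] at h1 h2 h3 h4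
  have e1 : botTab.length = 8 := rfl
  have e2 : rightTab.length = 8 := rfl
  have e3 : topTab.length = 8 := rfl
  have e4 : leftTab.length = 8 := rfl
  have e5 : brTab.length = 3 := rfl
  have e6 : trTab.length = 1 := rfl
  have e7 : tlTab.length = 8 := rfl
  rw [List.length_append, List.length_append, List.length_append, List.length_append, List.length_append,
    List.length_append, h1, h2, h3, h4, len_blk, len_blk, len_blk, e1, e2, e3, e4, e5, e6, e7]
  ring

theorem length_all (a b : ℕ) : (allL a b).length = 12 * (a * b) + 16 * a + 16 * b + 20 := by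
  unfold allL holesL holeIdx
  rw [List.length_append, length_outer]
  have h1 : (((List.range a).flatMap fun i : ℕ => (List.range b).map fun j : ℕ => ((i : ℤ) + 2, (j : ℤ) + 1)).map
      fun h => blk holeTab h.1 h.2).flatten =
      ((List.range a).flatMap fun i : ℕ => (List.range b).map fun j : ℕ => ((i : ℤ) + 2, (j : ℤ) + 1)).flatMap
      fun h => blk holeTab h.1 h.2 := by
    exact List.flatMap_def.symm
  rw [h1]
  have h2 := len_flatMap_const
    ((List.range a).flatMap fun i : ℕ => (List.range b).map fun j : ℕ => ((i : ℤ) + 2, (j : ℤ) + 1))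
    (fun h => blk holeTab h.1 h.2) holeTab.length (fun t => len_blk _ _ _)
  have h3 := len_flatMap_const (List.range a)
    (fun i : ℕ => (List.range b).map fun j : ℕ => ((i : ℤ) + 2, (j : ℤ) + 1)) b (fun i => by
      rw [List.length_map, List.length_range])
  rw [h2, h3, List.length_range]
  have e1 : holeTab.length = 12 := rfl
  rw [e1]
  ring

theorem length_st (a b : ℕ) : (stL a b).length = 2 * (a + 1) * (b + 1) := by
  unfold stL
  have h := len_flatMap_const (List.range (a + 1)) (fun i : ℕ => (List.range (b + 1)).flatMap fun j : ℕ =>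
    [((12 : ℕ), (i : ℤ) + 1, (j : ℤ) + 1), ((13 : ℕ), (i : ℤ) + 1, (j : ℤ) + 1)]) ((b + 1) * 2) (fun i => by
      have h2 := len_flatMap_const (List.range (b + 1)) (fun j : ℕ =>
        [((12 : ℕ), (i : ℤ) + 1, (j : ℤ) + 1), ((13 : ℕ), (i : ℤ) + 1, (j : ℤ) + 1)]) 2 (fun t => rfl)
      rw [List.length_range] at h2
      exact h2)
  rw [List.length_range] at h
  have h' : ((List.range (a + 1)).flatMap fun i : ℕ => (List.range (b + 1)).flatMap fun j : ℕ =>
    ([((12 : ℕ), (i : ℤ) + 1, (j : ℤ) + 1), ((13 : ℕ), (i : ℤ) + 1, (j : ℤ) + 1)] : List Vx)).length =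
      (a + 1) * ((b + 1) * 2) := h
  rw [h']
  ring

theorem length_TS (a b : ℕ) : (TS a b).length = (allL a b).length + 2 * nd (a + 1) (b + 1) := by
  unfold TS nd
  have e1 : cellS.length = 14 := rfl
  have e2 : door2.length = 2 := rfl
  have e3 : door3.length = 2 := rfl
  rw [List.length_append, List.length_append, len_fam2, len_fam2, len_fam2, length_all, e1, e2, e3,
    Nat.add_sub_cancel, Nat.add_sub_cancel]
  ring

end Pool.Agent.Lib.MP_6ff0c5_lc.C
end

section

/-!
Every label is a vertex of a triangle.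

Plan. By kinds: every kind `k < 12` at a cell `(i, j)` with `1 ≤ i ≤ a+1`, `1 ≤ j ≤ b+1` is in a fan triangle (resp. in a triangle of
`refA`, `refB`) of the cell `(i, j)`; `(2, a+2, j)`, `(3, a+2, j)` in the door triangles of `door2` at `(a+2, j)` (resp. `dl2` at
`(a+1, j)`), `(4, i, b+2)`, `(5, i, b+2)` in `door3` at `(i, b+2)` (resp. `dl3`); kinds 12, 13: polygon vertices `(12, a+2, j)`,
`(13, 0, j)` in `door2` (resp. `dl2`, `cl2`), `(12, i, b+2)`, `(13, i, 0)` in `door3` (resp. `dl3`, `cl3`); the Steiner labels in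
the fan triangles of their cell.
-/

set_option autoImplicit false

namespace Pool.Agent.Lib.MP_6ff0c5_lc.C

open Pool.Agent.Lib.MP_6ff0c5_lc.K

/-- the vertices of the triangles of a table -/
def tV (tab : List (Vx × Vx × Vx)) : List Vx := tab.flatMap fun t => [t.1, t.2.1, t.2.2]

theorem isVert_of_tV {tab : List (Vx × Vx × Vx)} {v : Vx} (h : v ∈ tV tab) : ∃ t ∈ tab, IsVert t v := by
  unfold tV at h
  simp only [List.mem_flatMap, List.mem_cons, List.not_mem_nil, or_false] at h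
  exact h

/-- a vertex of a table is a vertex of a translate of the table -/
theorem used_tblk {tab : List (Vx × Vx × Vx)} {v : Vx} (h : v ∈ tV tab) (i j : ℤ) :
    ∃ t ∈ tblk tab i j, IsVert t (sh v i j) := by
  obtain ⟨t, ht, hv⟩ := isVert_of_tV h
  refine ⟨mapT (fun v => sh v i j) t, List.mem_map_of_mem ht, ?_⟩
  unfold IsVert mapT
  rcases hv with rfl | rfl | rfl
  · exact Or.inl rfl
  · exact Or.inr (Or.inl rfl)
  · exact Or.inr (Or.inr rfl)

theorem used_fam1 {tab : List (Vx × Vx × Vx)} {v : Vx} (h : v ∈ tV tab) (x y : ℕ → ℤ) {k s : ℕ} (hs : s < k) :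
    ∃ t ∈ fam1 tab x y k, IsVert t (sh v (x s) (y s)) := by
  obtain ⟨t, ht, hv⟩ := used_tblk h (x s) (y s)
  exact ⟨t, List.mem_flatMap.2 ⟨s, List.mem_range.2 hs, ht⟩, hv⟩

theorem used_fam2 {tab : List (Vx × Vx × Vx)} {v : Vx} (h : v ∈ tV tab) {m n : ℕ} {i j : ℤ} (h1 : 1 ≤ i) (h2 : i ≤ m)
    (h3 : 1 ≤ j) (h4 : j ≤ n) : ∃ t ∈ fam2 tab m n, IsVert t (sh v i j) := by
  have e1 : ((i - 1).toNat : ℤ) + 1 = i := by omega
  have e2 : ((j - 1).toNat : ℤ) + 1 = j := by omega
  obtain ⟨t, ht, hv⟩ := used_fam1 h (fun _ => (((i - 1).toNat : ℕ) : ℤ) + 1) (fun j : ℕ => (j : ℤ) + 1) (k := n)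
    (s := (j - 1).toNat) (by omega)
  refine ⟨t, List.mem_flatMap.2 ⟨(i - 1).toNat, List.mem_range.2 (by omega), ht⟩, ?_⟩
  simp only [e1, e2] at hv
  exact hv

theorem used_col {tab : List (Vx × Vx × Vx)} {v : Vx} (h : v ∈ tV tab) (c : ℤ) {n : ℕ} {j : ℤ} (h3 : 1 ≤ j) (h4 : j ≤ n) :
    ∃ t ∈ fam1 tab (fun _ => c) (fun j : ℕ => (j : ℤ) + 1) n, IsVert t (sh v c j) := by
  have e2 : ((j - 1).toNat : ℤ) + 1 = j := by omega
  obtain ⟨t, ht, hv⟩ := used_fam1 h (fun _ => c) (fun j : ℕ => (j : ℤ) + 1) (k := n) (s := (j - 1).toNat) (by omega)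
  simp only [e2] at hv
  exact ⟨t, ht, hv⟩

theorem used_row {tab : List (Vx × Vx × Vx)} {v : Vx} (h : v ∈ tV tab) (c : ℤ) {n : ℕ} {i : ℤ} (h3 : 1 ≤ i) (h4 : i ≤ n) :
    ∃ t ∈ fam1 tab (fun i : ℕ => (i : ℤ) + 1) (fun _ => c) n, IsVert t (sh v i c) := by
  have e2 : ((i - 1).toNat : ℤ) + 1 = i := by omega
  obtain ⟨t, ht, hv⟩ := used_fam1 h (fun i : ℕ => (i : ℤ) + 1) (fun _ => c) (k := n) (s := (i - 1).toNat) (by omega)
  simp only [e2] at hv
  exact ⟨t, ht, hv⟩

theorem ex_mono {l l' : List (Vx × Vx × Vx)} (h : l ⊆ l') {x : Vx} (hx : ∃ t ∈ l, IsVert t x) : ∃ t ∈ l', IsVert t x := by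
  obtain ⟨t, ht, hv⟩ := hx
  exact ⟨t, h ht, hv⟩

/-- the cases of a polygon vertex -/
theorem pres_cases {a b : ℕ} {k : ℕ} {i j : ℤ} (h : Pres (a + 1) (b + 1) (k, i, j)) :
    (k = 12 ∧ i = a + 2 ∧ 1 ≤ j ∧ j ≤ b + 1) ∨ (k = 12 ∧ j = b + 2 ∧ 1 ≤ i ∧ i ≤ a + 1) ∨
    (k = 13 ∧ i = 0 ∧ 1 ≤ j ∧ j ≤ b + 1) ∨ (k = 13 ∧ j = 0 ∧ 1 ≤ i ∧ i ≤ a + 1) ∨
    ((k = 2 ∨ k = 3) ∧ 1 ≤ i ∧ i ≤ a + 2 ∧ 1 ≤ j ∧ j ≤ b + 1) ∨
    ((k = 4 ∨ k = 5) ∧ 1 ≤ i ∧ i ≤ a + 1 ∧ 1 ≤ j ∧ j ≤ b + 2) ∨
    ((k = 0 ∨ k = 1 ∨ k = 6 ∨ k = 7 ∨ k = 8 ∨ k = 9 ∨ k = 10 ∨ k = 11) ∧ 1 ≤ i ∧ i ≤ a + 1 ∧ 1 ≤ j ∧ j ≤ b + 1) := by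
  unfold Pres at h
  simp only [Nat.cast_add, Nat.cast_one] at h
  split_ifs at h with h1 h2 h3 h4
  · rcases h with ⟨e, u, v⟩ | ⟨e, u, v⟩
    · exact Or.inl ⟨h1, by omega, u, v⟩
    · exact Or.inr (Or.inl ⟨h1, by omega, u, v⟩)
  · rcases h with ⟨e, u, v⟩ | ⟨e, u, v⟩
    · exact Or.inr (Or.inr (Or.inl ⟨h2, by omega, u, v⟩))
    · exact Or.inr (Or.inr (Or.inr (Or.inl ⟨h2, by omega, u, v⟩)))
  · obtain ⟨u1, u2, u3, u4⟩ := h
    exact Or.inr (Or.inr (Or.inr (Or.inr (Or.inl ⟨h3, u1, by omega, u3, u4⟩))))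
  · obtain ⟨u1, u2, u3, u4⟩ := h
    exact Or.inr (Or.inr (Or.inr (Or.inr (Or.inr (Or.inl ⟨h4, u1, u2, u3, by omega⟩)))))
  · obtain ⟨u0, u1, u2, u3, u4⟩ := h
    refine Or.inr (Or.inr (Or.inr (Or.inr (Or.inr (Or.inr ⟨?_, u1, u2, u3, u4⟩)))))
    clear u1 u2 u3 u4
    interval_cases k <;> simp_all

theorem used_TS {a b : ℕ} {x : Vx} (hx : Pres (a + 1) (b + 1) x ∨ x ∈ stL a b) : ∃ t ∈ TS a b, IsVert t x := by
  obtain ⟨k, i, j⟩ := x
  have s1 : fam2 cellS (a + 1) (b + 1) ⊆ TS a b := List.subset_append_left _ _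
  have s2 : fam2 door2 (a + 2) (b + 1) ⊆ TS a b :=
    List.Subset.trans (List.subset_append_left _ _) (List.subset_append_right _ _)
  have s3 : fam2 door3 (a + 1) (b + 2) ⊆ TS a b :=
    List.Subset.trans (List.subset_append_right _ _) (List.subset_append_right _ _)
  have c1 : ∀ v ∈ tV cellS, ∀ i j : ℤ, 1 ≤ i → i ≤ a + 1 → 1 ≤ j → j ≤ b + 1 → ∃ t ∈ TS a b, IsVert t (sh v i j) :=
    fun v hv i j h1 h2 h3 h4 => ex_mono s1 (used_fam2 hv h1 (by push_cast; exact h2) h3 (by push_cast; exact h4))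
  have c2 : ∀ v ∈ tV door2, ∀ i j : ℤ, 1 ≤ i → i ≤ a + 2 → 1 ≤ j → j ≤ b + 1 → ∃ t ∈ TS a b, IsVert t (sh v i j) :=
    fun v hv i j h1 h2 h3 h4 => ex_mono s2 (used_fam2 hv h1 (by push_cast; exact h2) h3 (by push_cast; exact h4))
  have c3 : ∀ v ∈ tV door3, ∀ i j : ℤ, 1 ≤ i → i ≤ a + 1 → 1 ≤ j → j ≤ b + 2 → ∃ t ∈ TS a b, IsVert t (sh v i j) :=
    fun v hv i j h1 h2 h3 h4 => ex_mono s3 (used_fam2 hv h1 (by push_cast; exact h2) h3 (by push_cast; exact h4))
  have e0 : ∀ k : ℕ, sh (k, 0, 0) i j = (k, i, j) := fun k => by unfold sh; simp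
  rcases hx with hx | hx
  · rcases pres_cases hx with ⟨rfl, rfl, h3, h4⟩ | ⟨rfl, rfl, h3, h4⟩ | ⟨rfl, rfl, h3, h4⟩ | ⟨rfl, rfl, h3, h4⟩ |
      ⟨hk, h1, h2, h3, h4⟩ | ⟨hk, h1, h2, h3, h4⟩ | ⟨hk, h1, h2, h3, h4⟩
    · rw [← e0 12]; exact c2 _ (by decide) _ _ (by omega) le_rfl h3 h4
    · rw [← e0 12]; exact c3 _ (by decide) _ _ h3 h4 (by omega) le_rfl
    · have := c2 (13, -1, 0) (by decide) 1 j le_rfl (by omega) h3 h4
      simpa [sh] using this
    · have := c3 (13, 0, -1) (by decide) i 1 h3 h4 le_rfl (by omega)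
      simpa [sh] using this
    · rw [← e0 k]
      refine c2 _ ?_ _ _ h1 h2 h3 h4
      rcases hk with rfl | rfl <;> decide
    · rw [← e0 k]
      refine c3 _ ?_ _ _ h1 h2 h3 h4
      rcases hk with rfl | rfl <;> decide
    · rw [← e0 k]
      refine c1 _ ?_ _ _ h1 h2 h3 h4
      rcases hk with rfl | rfl | rfl | rfl | rfl | rfl | rfl | rfl <;> decide
  · obtain ⟨hk, h1, h2, h3, h4⟩ := (mem_st a b _).1 hx
    rw [← e0 k]
    refine c1 _ ?_ _ _ h1 h2 h3 h4
    simp only at hk
    rcases hk with rfl | rfl <;> decide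

theorem used_TR {a b : ℕ} {x : Vx} (hx : Pres (a + 1) (b + 1) x) : ∃ t ∈ TR a b, IsVert t x := by
  obtain ⟨k, i, j⟩ := x
  have c1 : ∀ v ∈ tV (refA ++ refB), ∀ i j : ℤ, 1 ≤ i → i ≤ a + 1 → 1 ≤ j → j ≤ b + 1 →
      ∃ t ∈ TR a b, IsVert t (sh v i j) :=
    fun v hv i j h1 h2 h3 h4 => ex_mono (List.subset_append_left _ _)
      (used_fam2 hv h1 (by push_cast; exact h2) h3 (by push_cast; exact h4))
  have c2 : ∀ v ∈ tV cl2, ∀ j : ℤ, 1 ≤ j → j ≤ b + 1 → ∃ t ∈ TR a b, IsVert t (sh v 1 j) :=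
    fun v hv j h3 h4 => ex_mono (List.Subset.trans (List.subset_append_left _ _) (List.subset_append_right _ _))
      (used_col hv 1 h3 (by push_cast; exact h4))
  have c3 : ∀ v ∈ tV cl3, ∀ i : ℤ, 1 ≤ i → i ≤ a + 1 → ∃ t ∈ TR a b, IsVert t (sh v i 1) :=
    fun v hv j h3 h4 => ex_mono (List.Subset.trans (List.subset_append_left _ _)
      (List.Subset.trans (List.subset_append_right _ _) (List.subset_append_right _ _)))
      (used_row hv 1 h3 (by push_cast; exact h4))
  have c4 : ∀ v ∈ tV dl2, ∀ j : ℤ, 1 ≤ j → j ≤ b + 1 → ∃ t ∈ TR a b, IsVert t (sh v (a + 1) j) :=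
    fun v hv j h3 h4 => ex_mono (List.Subset.trans (List.subset_append_left _ _)
      (List.Subset.trans (List.subset_append_right _ _)
      (List.Subset.trans (List.subset_append_right _ _) (List.subset_append_right _ _))))
      (used_col hv (a + 1) h3 (by push_cast; exact h4))
  have c5 : ∀ v ∈ tV dl3, ∀ i : ℤ, 1 ≤ i → i ≤ a + 1 → ∃ t ∈ TR a b, IsVert t (sh v i (b + 1)) :=
    fun v hv j h3 h4 => ex_mono (List.Subset.trans (List.subset_append_right _ _)
      (List.Subset.trans (List.subset_append_right _ _)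
      (List.Subset.trans (List.subset_append_right _ _) (List.subset_append_right _ _))))
      (used_row hv (b + 1) h3 (by push_cast; exact h4))
  have e0 : ∀ k : ℕ, sh (k, 0, 0) i j = (k, i, j) := fun k => by unfold sh; simp
  have e1 : ∀ (k : ℕ) (j : ℤ), sh (k, 1, 0) (a + 1) j = (k, (a : ℤ) + 2, j) := fun k j => by
    unfold sh; ext <;> simp only [zero_add]; ring
  have e2 : ∀ (k : ℕ) (i : ℤ), sh (k, 0, 1) i (b + 1) = (k, i, (b : ℤ) + 2) := fun k i => by
    unfold sh; ext <;> simp only [zero_add]; ring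
  rcases pres_cases hx with ⟨rfl, rfl, h3, h4⟩ | ⟨rfl, rfl, h3, h4⟩ | ⟨rfl, rfl, h3, h4⟩ | ⟨rfl, rfl, h3, h4⟩ |
      ⟨hk, h1, h2, h3, h4⟩ | ⟨hk, h1, h2, h3, h4⟩ | ⟨hk, h1, h2, h3, h4⟩
  · rw [← e1]; exact c4 _ (by decide) _ h3 h4
  · rw [← e2]; exact c5 _ (by decide) _ h3 h4
  · have := c2 (13, -1, 0) (by decide) j h3 h4
    simpa [sh] using this
  · have := c3 (13, 0, -1) (by decide) i h3 h4
    simpa [sh] using this
  · by_cases hi : i ≤ a + 1
    · rw [← e0 k]
      refine c1 _ ?_ _ _ h1 hi h3 h4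
      rcases hk with rfl | rfl <;> decide
    · obtain rfl : i = a + 2 := by omega
      rw [← e1]
      refine c4 _ ?_ _ h3 h4
      rcases hk with rfl | rfl <;> decide
  · by_cases hj : j ≤ b + 1
    · rw [← e0 k]
      refine c1 _ ?_ _ _ h1 h2 h3 hj
      rcases hk with rfl | rfl <;> decide
    · obtain rfl : j = b + 2 := by omega
      rw [← e2]
      refine c5 _ ?_ _ h1 h2
      rcases hk with rfl | rfl <;> decide
  · rw [← e0 k]
    refine c1 _ ?_ _ _ h1 h2 h3 h4
    rcases hk with rfl | rfl | rfl | rfl | rfl | rfl | rfl | rfl <;> decide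

end Pool.Agent.Lib.MP_6ff0c5_lc.C
end

section

/-!
The vertices of the polygons: every present vertex is in the lists.
-/

set_option autoImplicit false

namespace Pool.Agent.Lib.MP_6ff0c5_lc.C

open Pool.Agent.Lib.MP_6ff0c5_lc.K

theorem mem_all_of_pres {a b : ℕ} {x : Vx} (h : Pres (a + 1) (b + 1) x) : x ∈ allL a b := LP.mem_of_pres h

end Pool.Agent.Lib.MP_6ff0c5_lc.C
end

section

/-!
The vertices of the polygons: every label of the lists is present.
-/

set_option autoImplicit false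

namespace Pool.Agent.Lib.MP_6ff0c5_lc.C

open Pool.Agent.Lib.MP_6ff0c5_lc.K

theorem pres_of_mem_all {a b : ℕ} {x : Vx} (h : x ∈ allL a b) : Pres (a + 1) (b + 1) x := LP.pres_of_mem h

end Pool.Agent.Lib.MP_6ff0c5_lc.C
end

section

/-!
The triangulations of the outside: their chain is the big triangle minus the outer polygon. Plan: `sum_XPk` and three times
`sum_farT`: head and last element of the hull parts (`hullP1` from `(4,1,1)` to `(3,a+2,b+1)`, `hullP2` from there to
`(13,0,b+1)`, `hullP3` from there to `(4,1,1)`; `hullQ1` from `(13,1,0)` to `(12,a+2,b+1)`, `hullQ2` to `(13,0,b+1)`, `hullQ3` to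
`(13,1,0)`), then the three switch triangles and antisymmetry of `f`.
-/

set_option autoImplicit false

namespace Pool.Agent.Lib.MP_6ff0c5_lc.C

open Pool.Agent.Lib.MP_6ff0c5_lc.K

theorem sum_farT_ends {f : Vx → Vx → ℤ} (hf : ∀ a b, f b a = -f a b) (D x y : Vx) (l : List Vx)
    (h1 : ∃ r, l = x :: r) (h2 : ∃ r, l = r ++ [y]) :
    ((farT D l).map (bsum f)).sum = -ps f l + f x D - f y D := by
  obtain ⟨r, rfl⟩ := h1
  obtain ⟨r', h2⟩ := h2
  rw [sum_farT hf]
  have : (x :: r).getLast (List.cons_ne_nil x r) = y := by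
    simp only [h2, List.getLast_append_singleton]
  rw [this]

theorem head_flatMap (g : ℕ → List Vx) (x : ℕ → Vx) (hg : ∀ t, ∃ r, g t = x t :: r) (k : ℕ) (rest : List Vx)
    (z : Vx) (h0 : x 0 = z) (hr : k = 0 → ∃ r, rest = z :: r) :
    ∃ r, (List.range k).flatMap g ++ rest = z :: r := by
  cases k with
  | zero =>
    obtain ⟨r, hr⟩ := hr rfl
    exact ⟨r, by rw [hr]; rfl⟩
  | succ k =>
    obtain ⟨r, h⟩ := hg 0
    rw [List.range_succ_eq_map, List.flatMap_cons, h, h0]
    exact ⟨_, rfl⟩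

theorem hullP1_head (a b : ℕ) : ∃ r, hullP1 a b = (4, 1, 1) :: r := by
  unfold hullP1
  refine head_flatMap _ (fun t : ℕ => (4, (t : ℤ) + 1, 1)) (fun t => ⟨[], by simp [blk, sh]⟩) a _ _ (by simp) ?_
  intro h
  subst h
  exact ⟨_, by simp [blk, sh]; rfl⟩

theorem hullP1_last (a b : ℕ) : ∃ r, hullP1 a b = r ++ [(3, (a : ℤ) + 2, (b : ℤ) + 1)] := by
  unfold hullP1
  simp only [← List.append_assoc]
  exact ⟨_, rfl⟩

theorem hullP2_head (a b : ℕ) : ∃ r, hullP2 a b = (3, (a : ℤ) + 2, (b : ℤ) + 1) :: r := by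
  unfold hullP2
  exact ⟨_, by simp [blk, sh]; rfl⟩

theorem hullP2_last (a b : ℕ) : ∃ r, hullP2 a b = r ++ [(13, 0, (b : ℤ) + 1)] := by
  unfold hullP2
  simp only [← List.append_assoc]
  exact ⟨_, rfl⟩

theorem hullP3_head (b : ℕ) : ∃ r, hullP3 b = (13, 0, (b : ℤ) + 1) :: r := by
  unfold hullP3
  refine head_flatMap _ (fun t : ℕ => (13, 0, (b : ℤ) + 1 - t)) (fun t => ⟨[], by simp [blk, sh]⟩) b _ _ (by simp) ?_
  intro h
  subst h
  exact ⟨_, by simp [blk, sh]; rfl⟩

theorem hullP3_last (b : ℕ) : ∃ r, hullP3 b = r ++ [(4, 1, 1)] := by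
  unfold hullP3
  simp only [← List.append_assoc]
  exact ⟨_, rfl⟩

theorem hullQ1_head (a b : ℕ) : ∃ r, hullQ1 a b = (13, 1, 0) :: r := by
  unfold hullQ1
  refine head_flatMap _ (fun t : ℕ => (13, (t : ℤ) + 1, 0)) (fun t => ⟨[], by simp [blk, sh]⟩) a _ _ (by simp) ?_
  intro h
  subst h
  exact ⟨_, by simp [blk, sh]; rfl⟩

theorem hullQ1_last (a b : ℕ) : ∃ r, hullQ1 a b = r ++ [(12, (a : ℤ) + 2, (b : ℤ) + 1)] := by
  unfold hullQ1
  simp only [← List.append_assoc]
  exact ⟨_, rfl⟩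

theorem hullQ2_head (a b : ℕ) : ∃ r, hullQ2 a b = (12, (a : ℤ) + 2, (b : ℤ) + 1) :: r := by
  unfold hullQ2
  exact ⟨_, by simp [blk, sh]; rfl⟩

theorem hullQ2_last (a b : ℕ) : ∃ r, hullQ2 a b = r ++ [(13, 0, (b : ℤ) + 1)] := by
  unfold hullQ2
  simp only [← List.append_assoc]
  exact ⟨_, rfl⟩

theorem hullQ3_head (b : ℕ) : ∃ r, hullQ3 b = (13, 0, (b : ℤ) + 1) :: r := by
  unfold hullQ3
  refine head_flatMap _ (fun t : ℕ => (13, 0, (b : ℤ) + 1 - t)) (fun t => ⟨[], by simp [blk, sh]⟩) b _ _ (by simp) ?_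
  intro h
  subst h
  exact ⟨_, by simp [blk, sh]; rfl⟩

theorem hullQ3_last (b : ℕ) : ∃ r, hullQ3 b = r ++ [(13, 1, 0)] := by
  unfold hullQ3
  simp only [← List.append_assoc]
  exact ⟨_, rfl⟩

theorem sum_XP {f : Vx → Vx → ℤ} (hf : ∀ a b, f b a = -f a b) (a b : ℕ) :
    ((XPk a b ++ XPf a b).map (bsum f)).sum = bsum f bigT - cs f (outerL a b) := by
  rw [List.map_append, List.sum_append, sum_XPk hf]
  unfold XPf
  rw [List.map_append, List.sum_append, List.map_append, List.sum_append, List.map_append, List.sum_append,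
    sum_farT_ends hf _ _ _ _ (hullP1_head a b) (hullP1_last a b),
    sum_farT_ends hf _ _ _ _ (hullP2_head a b) (hullP2_last a b),
    sum_farT_ends hf _ _ _ _ (hullP3_head b) (hullP3_last b)]
  simp only [List.map_cons, List.map_nil, List.sum_cons, List.sum_nil, bsum, bigT]
  have e1 := hf (3, (a : ℤ) + 2, (b : ℤ) + 1) (15, 0, 0)
  have e2 := hf (13, 0, (b : ℤ) + 1) (16, 0, 0)
  have e3 := hf (4, 1, 1) (14, 0, 0)
  linarith

theorem sum_XQ {f : Vx → Vx → ℤ} (hf : ∀ a b, f b a = -f a b) (a b : ℕ) :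
    ((XQk a b ++ XQf a b).map (bsum f)).sum = bsum f bigT - cs f (outerL a b) := by
  rw [List.map_append, List.sum_append, sum_XQk hf]
  unfold XQf
  rw [List.map_append, List.sum_append, List.map_append, List.sum_append, List.map_append, List.sum_append,
    sum_farT_ends hf _ _ _ _ (hullQ1_head a b) (hullQ1_last a b),
    sum_farT_ends hf _ _ _ _ (hullQ2_head a b) (hullQ2_last a b),
    sum_farT_ends hf _ _ _ _ (hullQ3_head b) (hullQ3_last b)]
  simp only [List.map_cons, List.map_nil, List.sum_cons, List.sum_nil, bsum, bigT]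
  have e1 := hf (12, (a : ℤ) + 2, (b : ℤ) + 1) (15, 0, 0)
  have e2 := hf (13, 0, (b : ℤ) + 1) (16, 0, 0)
  have e3 := hf (13, 1, 0) (14, 0, 0)
  linarith

end Pool.Agent.Lib.MP_6ff0c5_lc.C
end

section

/-!
The labels of the layout are pairwise distinct.

Plan. General lemma (proved below): a flatMap of translates of one table with distinct kinds is duplicate free if the base
points are distinct. For two pieces (translates of the tables `T1`, `T2`): an entry `v ∈ T1` at a point `p` and `w ∈ T2` at `q`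
coincide only if `v.1 = w.1` and `v + p = w + q`; so for each pair of equal kinds one linear contradiction (`omega` without
disjunctions). Suggested: a lemma `disj {T1 T2} {x1 y1 x2 y2} (D : List (ℤ × ℤ)) (hD : ∀ v ∈ T1, ∀ w ∈ T2, v.1 = w.1 →
(w.2.1 - v.2.1, w.2.2 - v.2.2) ∈ D)` (by `decide`) reducing to `∀ d ∈ D`. WARNING: no `omega` on hypotheses with many
disjunctions.
-/

set_option autoImplicit false

namespace Pool.Agent.Lib.MP_6ff0c5_lc.C

open Pool.Agent.Lib.MP_6ff0c5_lc.K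

theorem nodup_blk {tab : List Vx} (h : (tab.map Prod.fst).Nodup) (i j : ℤ) : (blk tab i j).Nodup := by
  have h1 : ((blk tab i j).map Prod.fst).Nodup := by
    unfold blk
    rw [List.map_map]
    exact h
  exact List.Nodup.of_map _ h1

theorem nodup_flatMap_blk {α : Type*} {l : List α} {tab : List Vx} (h : (tab.map Prod.fst).Nodup) (x y : α → ℤ)
    (hl : l.Pairwise fun s t => x s ≠ x t ∨ y s ≠ y t) : (l.flatMap fun t => blk tab (x t) (y t)).Nodup := by
  rw [List.nodup_flatMap]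
  refine ⟨fun t _ => nodup_blk h _ _, hl.imp ?_⟩
  intro s t hst
  simp only [Function.onFun]
  intro v hv hw
  unfold blk at hv hw
  obtain ⟨u, hu, rfl⟩ := List.mem_map.1 hv
  obtain ⟨w, hw, hw2⟩ := List.mem_map.1 hw
  have h0 : (sh w (x t) (y t)).1 = (sh u (x s) (y s)).1 := congrArg Prod.fst hw2
  have h1 : w.1 = u.1 := h0
  have h2 : w = u := List.inj_on_of_nodup_map h hw hu h1
  subst h2
  unfold sh at hw2
  have h3 := congrArg (fun z : Vx => z.2.1) hw2
  have h4 := congrArg (fun z : Vx => z.2.2) hw2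
  simp only at h3 h4
  omega

theorem pairwise_range {R : ℕ → ℕ → Prop} (h : ∀ s t, s < t → R s t) (k : ℕ) : (List.range k).Pairwise R :=
  List.pairwise_lt_range.imp fun {_ _} hst => h _ _ hst

theorem nodup_holeIdx (a b : ℕ) : (holeIdx a b).Pairwise fun s t => s.1 ≠ t.1 ∨ s.2 ≠ t.2 := by
  unfold holeIdx
  rw [List.pairwise_flatMap]
  refine ⟨fun i _ => ?_, ?_⟩
  · rw [List.pairwise_map]
    exact pairwise_range (by intro s t hst; right; simp only; omega) _
  · refine pairwise_range (fun s t hst => ?_) _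
    intro x hx y hy
    obtain ⟨_, _, rfl⟩ := List.mem_map.1 hx
    obtain ⟨_, _, rfl⟩ := List.mem_map.1 hy
    left; simp only; omega

theorem nodup_holes (a b : ℕ) : (holesL a b).flatten.Nodup := by
  unfold holesL
  rw [← List.flatMap_def]
  exact nodup_flatMap_blk (by decide) (fun h : ℤ × ℤ => h.1) (fun h => h.2) (nodup_holeIdx a b)

theorem nodup_outer (a b : ℕ) : (outerL a b).Nodup := (List.nodup_append.1 (LP.nodup_all a b)).1

theorem disj_outer_holes {a b : ℕ} {x : Vx} (h1 : x ∈ outerL a b) (h2 : x ∈ (holesL a b).flatten) : False :=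
  (List.nodup_append.1 (LP.nodup_all a b)).2.2 x h1 x h2 rfl

end Pool.Agent.Lib.MP_6ff0c5_lc.C
end

section

/-!
The vertices of the outside triangles are labels of the layout. Plan: see C/MemT.lean (for the far triangles: members of
`pE l` are pairs of members of `l`, and all labels of the hull parts are present).
-/

set_option autoImplicit false

namespace Pool.Agent.Lib.MP_6ff0c5_lc.C

open Pool.Agent.Lib.MP_6ff0c5_lc.K

/-- the vertices of a table of triangles -/
def mxV (tab : List (Vx × Vx × Vx)) : List Vx := tab.flatMap fun t => [t.1, t.2.1, t.2.2]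

theorem mx_tblk {tab : List (Vx × Vx × Vx)} {i j : ℤ} {t : Vx × Vx × Vx} (ht : t ∈ tblk tab i j) {x : Vx}
    (hx : IsVert t x) : ∃ v ∈ mxV tab, x = sh v i j := by
  unfold tblk at ht
  obtain ⟨s, hs, rfl⟩ := List.mem_map.1 ht
  rcases hx with rfl | rfl | rfl
  · exact ⟨s.1, List.mem_flatMap.2 ⟨s, hs, by simp⟩, rfl⟩
  · exact ⟨s.2.1, List.mem_flatMap.2 ⟨s, hs, by simp⟩, rfl⟩
  · exact ⟨s.2.2, List.mem_flatMap.2 ⟨s, hs, by simp⟩, rfl⟩

theorem mx_fam1 {tab : List (Vx × Vx × Vx)} {x y : ℕ → ℤ} {k : ℕ} {t : Vx × Vx × Vx} (ht : t ∈ fam1 tab x y k)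
    {v : Vx} (hv : IsVert t v) : ∃ s < k, ∃ u ∈ mxV tab, v = sh u (x s) (y s) := by
  unfold fam1 at ht
  obtain ⟨s, hs, h⟩ := List.mem_flatMap.1 ht
  exact ⟨s, List.mem_range.1 hs, mx_tblk h hv⟩

theorem mx_farT {D : Vx} {l : List Vx} {t : Vx × Vx × Vx} (ht : t ∈ farT D l) {x : Vx} (hx : IsVert t x) :
    x ∈ l ∨ x = D := by
  unfold farT at ht
  obtain ⟨e, he, rfl⟩ := List.mem_map.1 ht
  unfold pE at he
  have h := List.of_mem_zip (a := e.1) (b := e.2) he
  rcases hx with rfl | rfl | rfl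
  · exact Or.inl (List.mem_of_mem_tail h.2)
  · exact Or.inl h.1
  · exact Or.inr rfl

theorem mx_blk1 {v : Vx} {i j : ℤ} {x : Vx} (h : x ∈ blk [v] i j) : x = sh v i j := by
  unfold blk at h
  simpa using h

theorem mx_fblk {v : Vx} {x y : ℕ → ℤ} {k : ℕ} {w : Vx}
    (h : w ∈ (List.range k).flatMap fun t : ℕ => blk [v] (x t) (y t)) : ∃ s < k, w = sh v (x s) (y s) := by
  obtain ⟨s, hs, h2⟩ := List.mem_flatMap.1 h
  exact ⟨s, List.mem_range.1 hs, mx_blk1 h2⟩

theorem mx_pkBotP : ∀ v ∈ mxV pkBotP, v ∈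
    ([(1, 0, 0), (2, 1, 0), (4, 0, 0), (4, 1, 0), (5, 1, 0), (6, 0, 0), (7, 0, 0), (11, 0, 0), (13, 1, -1)] : List Vx) := by decide +kernel

theorem mx_crBrP : ∀ v ∈ mxV (crBrP1 ++ crBrP2), v ∈
    ([(1, -1, 0), (2, 0, 0), (3, 0, 0), (4, -1, 0), (6, -1, 0), (7, -1, 0), (11, -1, 0), (12, 0, 0)] : List Vx) := by decide +kernel

theorem mx_pkRightP : ∀ v ∈ mxV pkRightP, v ∈
    ([(1, -1, 1), (2, 0, 1), (3, 0, 0), (3, 0, 1), (4, -1, 1), (6, -1, 1), (7, -1, 1), (11, -1, 1), (12, 0, 1)] : List Vx) := by decide +kernel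

theorem mx_crTrP : ∀ v ∈ mxV crTrP, v ∈
    ([(3, 0, -1), (4, -1, 0), (12, -1, 0)] : List Vx) := by decide +kernel

theorem mx_pkTopP : ∀ v ∈ mxV pkTopP, v ∈
    ([(0, 0, -1), (3, 0, -1), (4, -1, 0), (5, 0, 0), (8, 0, -1), (9, 0, -1), (10, 0, -1), (12, -1, 0),
    (12, 0, 0)] : List Vx) := by decide +kernel

theorem mx_crTlP : ∀ v ∈ mxV crTlP, v ∈
    ([(0, 0, -1), (3, 0, -1), (5, 0, 0), (8, 0, -1), (9, 0, -1), (10, 0, -1), (12, 0, 0), (13, -1, -1)] : List Vx) := by decide +kernel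

theorem mx_pkLeftP : ∀ v ∈ mxV pkLeftP, v ∈
    ([(0, 0, -1), (2, 0, 0), (3, 0, -1), (5, 0, 0), (8, 0, -1), (9, 0, -1), (10, 0, -1), (13, -1, -1),
    (13, -1, 0)] : List Vx) := by decide +kernel

theorem mx_crBlP : ∀ v ∈ mxV (crBlP1 ++ crBlP2), v ∈
    ([(2, 0, 0), (4, 0, 0), (5, 0, 0), (13, -1, 0), (13, 0, -1)] : List Vx) := by decide +kernel

theorem mx_pkBotQ : ∀ v ∈ mxV pkBotQ, v ∈
    ([(1, 0, 0), (2, 1, 0), (4, 0, 0), (5, 1, 0), (6, 0, 0), (7, 0, 0), (11, 0, 0), (13, 0, -1), (13, 1, -1)] : List Vx) := by decide +kernel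

theorem mx_crBrQ : ∀ v ∈ mxV crBrQ, v ∈
    ([(1, -1, 0), (2, 0, 0), (4, -1, 0), (6, -1, 0), (7, -1, 0), (11, -1, 0), (12, 0, 0), (13, -1, -1)] : List Vx) := by decide +kernel

theorem mx_pkRightQ : ∀ v ∈ mxV pkRightQ, v ∈
    ([(1, -1, 1), (2, 0, 1), (3, 0, 0), (4, -1, 1), (6, -1, 1), (7, -1, 1), (11, -1, 1), (12, 0, 0), (12, 0, 1)] : List Vx) := by decide +kernel

theorem mx_crTrQ : ∀ v ∈ mxV crTrQ, v ∈
    ([(3, 0, -1), (4, -1, 0), (12, -1, 0), (12, 0, -1)] : List Vx) := by decide +kernel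

theorem mx_pkTopQ : ∀ v ∈ mxV pkTopQ, v ∈
    ([(0, 0, -1), (3, 0, -1), (4, -1, 0), (5, 0, 0), (8, 0, -1), (9, 0, -1), (10, 0, -1), (12, -1, 0),
    (12, 0, 0)] : List Vx) := by decide +kernel

theorem mx_crTlQ : ∀ v ∈ mxV crTlQ, v ∈
    ([(0, 0, -1), (3, 0, -1), (5, 0, 0), (8, 0, -1), (9, 0, -1), (10, 0, -1), (12, 0, 0), (13, -1, -1)] : List Vx) := by decide +kernel

theorem mx_pkLeftQ : ∀ v ∈ mxV pkLeftQ, v ∈
    ([(0, 0, -1), (2, 0, 0), (3, 0, -1), (5, 0, 0), (8, 0, -1), (9, 0, -1), (10, 0, -1), (13, -1, -1),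
    (13, -1, 0)] : List Vx) := by decide +kernel

theorem mx_crBlQ : ∀ v ∈ mxV crBlQ, v ∈
    ([(2, 0, 0), (5, 0, 0), (13, -1, 0), (13, 0, -1)] : List Vx) := by decide +kernel

theorem mem_XPk {a b : ℕ} {t : Vx × Vx × Vx} (ht : t ∈ XPk a b) {x : Vx} (hx : IsVert t x) : x ∈ allL a b := by
  unfold XPk at ht
  refine mem_all_of_pres ?_
  rcases List.mem_append.1 ht with h | ht
  · obtain ⟨s, hs, u, hu, rfl⟩ := mx_fam1 h hx
    have h5 := mx_pkBotP u hu
    simp only [List.mem_cons, List.not_mem_nil, or_false] at h5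
    rcases h5 with rfl | rfl | rfl | rfl | rfl | rfl | rfl | rfl | rfl
    all_goals
      simp [sh, Pres]
      omega
  rcases List.mem_append.1 ht with h | ht
  · obtain ⟨u, hu, rfl⟩ := mx_tblk h hx
    have h5 := mx_crBrP u hu
    simp only [List.mem_cons, List.not_mem_nil, or_false] at h5
    rcases h5 with rfl | rfl | rfl | rfl | rfl | rfl | rfl | rfl
    all_goals
      simp [sh, Pres]
      omega
  rcases List.mem_append.1 ht with h | ht
  · obtain ⟨s, hs, u, hu, rfl⟩ := mx_fam1 h hx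
    have h5 := mx_pkRightP u hu
    simp only [List.mem_cons, List.not_mem_nil, or_false] at h5
    rcases h5 with rfl | rfl | rfl | rfl | rfl | rfl | rfl | rfl | rfl
    all_goals
      simp [sh, Pres]
      omega
  rcases List.mem_append.1 ht with h | ht
  · obtain ⟨u, hu, rfl⟩ := mx_tblk h hx
    have h5 := mx_crTrP u hu
    simp only [List.mem_cons, List.not_mem_nil, or_false] at h5
    rcases h5 with rfl | rfl | rfl
    all_goals
      simp [sh, Pres]
      omega
  rcases List.mem_append.1 ht with h | ht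
  · obtain ⟨s, hs, u, hu, rfl⟩ := mx_fam1 h hx
    have h5 := mx_pkTopP u hu
    simp only [List.mem_cons, List.not_mem_nil, or_false] at h5
    rcases h5 with rfl | rfl | rfl | rfl | rfl | rfl | rfl | rfl | rfl
    all_goals
      simp [sh, Pres]
      omega
  rcases List.mem_append.1 ht with h | ht
  · obtain ⟨u, hu, rfl⟩ := mx_tblk h hx
    have h5 := mx_crTlP u hu
    simp only [List.mem_cons, List.not_mem_nil, or_false] at h5
    rcases h5 with rfl | rfl | rfl | rfl | rfl | rfl | rfl | rfl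
    all_goals
      simp [sh, Pres]
      omega
  rcases List.mem_append.1 ht with h | ht
  · obtain ⟨s, hs, u, hu, rfl⟩ := mx_fam1 h hx
    have h5 := mx_pkLeftP u hu
    simp only [List.mem_cons, List.not_mem_nil, or_false] at h5
    rcases h5 with rfl | rfl | rfl | rfl | rfl | rfl | rfl | rfl | rfl
    all_goals
      simp [sh, Pres]
      omega
  · obtain ⟨u, hu, rfl⟩ := mx_tblk ht hx
    have h5 := mx_crBlP u hu
    simp only [List.mem_cons, List.not_mem_nil, or_false] at h5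
    rcases h5 with rfl | rfl | rfl | rfl | rfl
    all_goals
      simp [sh, Pres]
      try omega

theorem mem_XQk {a b : ℕ} {t : Vx × Vx × Vx} (ht : t ∈ XQk a b) {x : Vx} (hx : IsVert t x) : x ∈ allL a b := by
  unfold XQk at ht
  refine mem_all_of_pres ?_
  rcases List.mem_append.1 ht with h | ht
  · obtain ⟨s, hs, u, hu, rfl⟩ := mx_fam1 h hx
    have h5 := mx_pkBotQ u hu
    simp only [List.mem_cons, List.not_mem_nil, or_false] at h5
    rcases h5 with rfl | rfl | rfl | rfl | rfl | rfl | rfl | rfl | rfl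
    all_goals
      simp [sh, Pres]
      omega
  rcases List.mem_append.1 ht with h | ht
  · obtain ⟨u, hu, rfl⟩ := mx_tblk h hx
    have h5 := mx_crBrQ u hu
    simp only [List.mem_cons, List.not_mem_nil, or_false] at h5
    rcases h5 with rfl | rfl | rfl | rfl | rfl | rfl | rfl | rfl
    all_goals
      simp [sh, Pres]
      omega
  rcases List.mem_append.1 ht with h | ht
  · obtain ⟨s, hs, u, hu, rfl⟩ := mx_fam1 h hx
    have h5 := mx_pkRightQ u hu
    simp only [List.mem_cons, List.not_mem_nil, or_false] at h5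
    rcases h5 with rfl | rfl | rfl | rfl | rfl | rfl | rfl | rfl | rfl
    all_goals
      simp [sh, Pres]
      omega
  rcases List.mem_append.1 ht with h | ht
  · obtain ⟨u, hu, rfl⟩ := mx_tblk h hx
    have h5 := mx_crTrQ u hu
    simp only [List.mem_cons, List.not_mem_nil, or_false] at h5
    rcases h5 with rfl | rfl | rfl | rfl
    all_goals
      simp [sh, Pres]
      omega
  rcases List.mem_append.1 ht with h | ht
  · obtain ⟨s, hs, u, hu, rfl⟩ := mx_fam1 h hx
    have h5 := mx_pkTopQ u hu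
    simp only [List.mem_cons, List.not_mem_nil, or_false] at h5
    rcases h5 with rfl | rfl | rfl | rfl | rfl | rfl | rfl | rfl | rfl
    all_goals
      simp [sh, Pres]
      omega
  rcases List.mem_append.1 ht with h | ht
  · obtain ⟨u, hu, rfl⟩ := mx_tblk h hx
    have h5 := mx_crTlQ u hu
    simp only [List.mem_cons, List.not_mem_nil, or_false] at h5
    rcases h5 with rfl | rfl | rfl | rfl | rfl | rfl | rfl | rfl
    all_goals
      simp [sh, Pres]
      omega
  rcases List.mem_append.1 ht with h | ht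
  · obtain ⟨s, hs, u, hu, rfl⟩ := mx_fam1 h hx
    have h5 := mx_pkLeftQ u hu
    simp only [List.mem_cons, List.not_mem_nil, or_false] at h5
    rcases h5 with rfl | rfl | rfl | rfl | rfl | rfl | rfl | rfl | rfl
    all_goals
      simp [sh, Pres]
      omega
  · obtain ⟨u, hu, rfl⟩ := mx_tblk ht hx
    have h5 := mx_crBlQ u hu
    simp only [List.mem_cons, List.not_mem_nil, or_false] at h5
    rcases h5 with rfl | rfl | rfl | rfl
    all_goals
      simp [sh, Pres]
      try omega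

theorem mx_hullP1 {a b : ℕ} {x : Vx} (h : x ∈ hullP1 a b) : x ∈ allL a b := by
  unfold hullP1 at h
  refine mem_all_of_pres ?_
  rcases List.mem_append.1 h with h | h
  · obtain ⟨s, hs, rfl⟩ := mx_fblk (x := fun t : ℕ => (t : ℤ) + 1) (y := fun _ => 1) h
    simp [sh, Pres]
    omega
  rcases List.mem_append.1 h with h | h
  · obtain rfl := mx_blk1 h
    simp [sh, Pres]
    try omega
  rcases List.mem_append.1 h with h | h
  · obtain rfl := mx_blk1 h
    simp [sh, Pres]
    try omega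
  rcases List.mem_append.1 h with h | h
  · obtain ⟨s, hs, rfl⟩ := mx_fblk (x := fun _ => (a : ℤ) + 2) (y := fun t : ℕ => (t : ℤ) + 1) h
    simp [sh, Pres]
    omega
  · obtain rfl := List.mem_singleton.1 h
    simp [Pres]
    try omega

theorem mx_hullP2 {a b : ℕ} {x : Vx} (h : x ∈ hullP2 a b) : x ∈ allL a b := by
  unfold hullP2 at h
  refine mem_all_of_pres ?_
  rcases List.mem_append.1 h with h | h
  · obtain rfl := mx_blk1 h
    simp [sh, Pres]
    try omega
  rcases List.mem_append.1 h with h | h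
  · obtain ⟨s, hs, rfl⟩ := mx_fblk (x := fun t : ℕ => (a : ℤ) + 1 - t) (y := fun _ => (b : ℤ) + 2) h
    simp [sh, Pres]
    omega
  rcases List.mem_append.1 h with h | h
  · obtain rfl := mx_blk1 h
    simp [sh, Pres]
    try omega
  · obtain rfl := List.mem_singleton.1 h
    simp [Pres]
    try omega

theorem mx_hullP3 {a b : ℕ} {x : Vx} (h : x ∈ hullP3 b) : x ∈ allL a b := by
  unfold hullP3 at h
  refine mem_all_of_pres ?_
  rcases List.mem_append.1 h with h | h
  · obtain ⟨s, hs, rfl⟩ := mx_fblk (x := fun _ => 0) (y := fun t : ℕ => (b : ℤ) + 1 - t) h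
    simp [sh, Pres]
    omega
  rcases List.mem_append.1 h with h | h
  · obtain rfl := mx_blk1 h
    simp [sh, Pres]
    try omega
  rcases List.mem_append.1 h with h | h
  · obtain rfl := mx_blk1 h
    simp [sh, Pres]
    try omega
  · obtain rfl := List.mem_singleton.1 h
    simp [Pres]
    try omega

theorem mx_hullQ1 {a b : ℕ} {x : Vx} (h : x ∈ hullQ1 a b) : x ∈ allL a b := by
  unfold hullQ1 at h
  refine mem_all_of_pres ?_
  rcases List.mem_append.1 h with h | h
  · obtain ⟨s, hs, rfl⟩ := mx_fblk (x := fun t : ℕ => (t : ℤ) + 1) (y := fun _ => 0) h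
    simp [sh, Pres]
    omega
  rcases List.mem_append.1 h with h | h
  · obtain rfl := mx_blk1 h
    simp [sh, Pres]
    try omega
  rcases List.mem_append.1 h with h | h
  · obtain ⟨s, hs, rfl⟩ := mx_fblk (x := fun _ => (a : ℤ) + 2) (y := fun t : ℕ => (t : ℤ) + 1) h
    simp [sh, Pres]
    omega
  · obtain rfl := List.mem_singleton.1 h
    simp [Pres]
    try omega

theorem mx_hullQ2 {a b : ℕ} {x : Vx} (h : x ∈ hullQ2 a b) : x ∈ allL a b := by
  unfold hullQ2 at h
  refine mem_all_of_pres ?_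
  rcases List.mem_append.1 h with h | h
  · obtain rfl := mx_blk1 h
    simp [sh, Pres]
    try omega
  rcases List.mem_append.1 h with h | h
  · obtain ⟨s, hs, rfl⟩ := mx_fblk (x := fun t : ℕ => (a : ℤ) + 1 - t) (y := fun _ => (b : ℤ) + 2) h
    simp [sh, Pres]
    omega
  rcases List.mem_append.1 h with h | h
  · obtain rfl := mx_blk1 h
    simp [sh, Pres]
    try omega
  · obtain rfl := List.mem_singleton.1 h
    simp [Pres]
    try omega

theorem mx_hullQ3 {a b : ℕ} {x : Vx} (h : x ∈ hullQ3 b) : x ∈ allL a b := by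
  unfold hullQ3 at h
  refine mem_all_of_pres ?_
  rcases List.mem_append.1 h with h | h
  · obtain ⟨s, hs, rfl⟩ := mx_fblk (x := fun _ => 0) (y := fun t : ℕ => (b : ℤ) + 1 - t) h
    simp [sh, Pres]
    omega
  rcases List.mem_append.1 h with h | h
  · obtain rfl := mx_blk1 h
    simp [sh, Pres]
    try omega
  · obtain rfl := List.mem_singleton.1 h
    simp [Pres]
    try omega

theorem mx_farL14 : ((14, 0, 0) : Vx) ∈ farL := by unfold farL; simp
theorem mx_farL15 : ((15, 0, 0) : Vx) ∈ farL := by unfold farL; simp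
theorem mx_farL16 : ((16, 0, 0) : Vx) ∈ farL := by unfold farL; simp

theorem mem_XPf {a b : ℕ} {t : Vx × Vx × Vx} (ht : t ∈ XPf a b) {x : Vx} (hx : IsVert t x) :
    x ∈ allL a b ∨ x ∈ farL := by
  unfold XPf at ht
  rcases List.mem_append.1 ht with h | h
  · rcases mx_farT h hx with h | rfl
    · exact Or.inl (mx_hullP1 h)
    · exact Or.inr mx_farL14
  rcases List.mem_append.1 h with h | h
  · rcases mx_farT h hx with h | rfl
    · exact Or.inl (mx_hullP2 h)
    · exact Or.inr mx_farL15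
  rcases List.mem_append.1 h with h | h
  · rcases mx_farT h hx with h | rfl
    · exact Or.inl (mx_hullP3 h)
    · exact Or.inr mx_farL16
  simp only [List.mem_cons, List.not_mem_nil, or_false] at h
  rcases h with rfl | rfl | rfl
  · rcases hx with rfl | rfl | rfl
    · left
      refine mem_all_of_pres ?_
      simp [Pres]
      try omega
    · exact Or.inr mx_farL14
    · exact Or.inr mx_farL15
  · rcases hx with rfl | rfl | rfl
    · left
      refine mem_all_of_pres ?_
      simp [Pres]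
      try omega
    · exact Or.inr mx_farL15
    · exact Or.inr mx_farL16
  · rcases hx with rfl | rfl | rfl
    · left
      refine mem_all_of_pres ?_
      simp [Pres]
      try omega
    · exact Or.inr mx_farL16
    · exact Or.inr mx_farL14

theorem mem_XQf {a b : ℕ} {t : Vx × Vx × Vx} (ht : t ∈ XQf a b) {x : Vx} (hx : IsVert t x) :
    x ∈ allL a b ∨ x ∈ farL := by
  unfold XQf at ht
  rcases List.mem_append.1 ht with h | h
  · rcases mx_farT h hx with h | rfl
    · exact Or.inl (mx_hullQ1 h)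
    · exact Or.inr mx_farL14
  rcases List.mem_append.1 h with h | h
  · rcases mx_farT h hx with h | rfl
    · exact Or.inl (mx_hullQ2 h)
    · exact Or.inr mx_farL15
  rcases List.mem_append.1 h with h | h
  · rcases mx_farT h hx with h | rfl
    · exact Or.inl (mx_hullQ3 h)
    · exact Or.inr mx_farL16
  simp only [List.mem_cons, List.not_mem_nil, or_false] at h
  rcases h with rfl | rfl | rfl
  · rcases hx with rfl | rfl | rfl
    · left
      refine mem_all_of_pres ?_
      simp [Pres]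
      try omega
    · exact Or.inr mx_farL14
    · exact Or.inr mx_farL15
  · rcases hx with rfl | rfl | rfl
    · left
      refine mem_all_of_pres ?_
      simp [Pres]
      try omega
    · exact Or.inr mx_farL15
    · exact Or.inr mx_farL16
  · rcases hx with rfl | rfl | rfl
    · left
      refine mem_all_of_pres ?_
      simp [Pres]
      try omega
    · exact Or.inr mx_farL16
    · exact Or.inr mx_farL14

end Pool.Agent.Lib.MP_6ff0c5_lc.C
end

section

/-!
The vertices of the triangles are labels of the layout.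

Plan. `mem_all_of_pres` and `mem_st`: for every table and every entry the translated label is present (or a Steiner label) for the
given range of the base points; entries one by one (`unfold Pres sh`, `simp`, `omega` with linear (in)equalities only).
-/

set_option autoImplicit false

namespace Pool.Agent.Lib.MP_6ff0c5_lc.C

open Pool.Agent.Lib.MP_6ff0c5_lc.K

/-- the vertices of a table of triangles -/
def mtV (tab : List (Vx × Vx × Vx)) : List Vx := tab.flatMap fun t => [t.1, t.2.1, t.2.2]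

theorem mt_tblk {tab : List (Vx × Vx × Vx)} {i j : ℤ} {t : Vx × Vx × Vx} (ht : t ∈ tblk tab i j) {x : Vx}
    (hx : IsVert t x) : ∃ v ∈ mtV tab, x = sh v i j := by
  unfold tblk at ht
  obtain ⟨s, hs, rfl⟩ := List.mem_map.1 ht
  rcases hx with rfl | rfl | rfl
  · exact ⟨s.1, List.mem_flatMap.2 ⟨s, hs, by simp⟩, rfl⟩
  · exact ⟨s.2.1, List.mem_flatMap.2 ⟨s, hs, by simp⟩, rfl⟩
  · exact ⟨s.2.2, List.mem_flatMap.2 ⟨s, hs, by simp⟩, rfl⟩

theorem mt_fam1 {tab : List (Vx × Vx × Vx)} {x y : ℕ → ℤ} {k : ℕ} {t : Vx × Vx × Vx} (ht : t ∈ fam1 tab x y k)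
    {v : Vx} (hv : IsVert t v) : ∃ s < k, ∃ u ∈ mtV tab, v = sh u (x s) (y s) := by
  unfold fam1 at ht
  obtain ⟨s, hs, h⟩ := List.mem_flatMap.1 ht
  exact ⟨s, List.mem_range.1 hs, mt_tblk h hv⟩

theorem mt_fam2 {tab : List (Vx × Vx × Vx)} {m n : ℕ} {t : Vx × Vx × Vx} (ht : t ∈ fam2 tab m n)
    {v : Vx} (hv : IsVert t v) : ∃ i j : ℤ, 1 ≤ i ∧ i ≤ m ∧ 1 ≤ j ∧ j ≤ n ∧ ∃ u ∈ mtV tab, v = sh u i j := by
  unfold fam2 at ht
  obtain ⟨i, hi, h⟩ := List.mem_flatMap.1 ht
  obtain ⟨s, hs, u, hu, h2⟩ := mt_fam1 h hv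
  have hi' := List.mem_range.1 hi
  exact ⟨(i : ℤ) + 1, (s : ℤ) + 1, by omega, by omega, by omega, by omega, u, hu, h2⟩

theorem mt_pres {a b : ℕ} {k : ℕ} {p q i j : ℤ} (h : Pres (a + 1) (b + 1) (k, p + i, q + j)) :
    sh (k, p, q) i j ∈ allL a b := mem_all_of_pres h

theorem mt_cellS : ∀ v ∈ mtV cellS, v ∈ ([(0, 0, 0), (1, 0, 0), (2, 0, 0), (3, 0, 0), (4, 0, 0), (5, 0, 0), (6, 0, 0),
    (7, 0, 0), (8, 0, 0), (9, 0, 0), (10, 0, 0), (11, 0, 0), (12, 0, 0), (13, 0, 0), (2, 1, 0), (3, 1, 0), (4, 0, 1),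
    (5, 0, 1)] : List Vx) := by decide +kernel

theorem mt_door2 : ∀ v ∈ mtV door2, v ∈ ([(12, 0, 0), (3, 0, 0), (13, -1, 0), (2, 0, 0)] : List Vx) := by
  decide +kernel

theorem mt_door3 : ∀ v ∈ mtV door3, v ∈ ([(12, 0, 0), (5, 0, 0), (13, 0, -1), (4, 0, 0)] : List Vx) := by
  decide +kernel

theorem mt_ref : ∀ v ∈ mtV (refA ++ refB), v ∈ ([(0, 0, 0), (1, 0, 0), (2, 0, 0), (3, 0, 0), (4, 0, 0), (5, 0, 0),
    (6, 0, 0), (7, 0, 0), (8, 0, 0), (9, 0, 0), (10, 0, 0), (11, 0, 0), (2, 1, 0), (3, 1, 0), (4, 0, 1),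
    (5, 0, 1)] : List Vx) := by decide +kernel

theorem mt_cl2 : ∀ v ∈ mtV cl2, v ∈ ([(3, 0, 0), (13, -1, 0), (2, 0, 0)] : List Vx) := by decide +kernel
theorem mt_cl3 : ∀ v ∈ mtV cl3, v ∈ ([(5, 0, 0), (13, 0, -1), (4, 0, 0)] : List Vx) := by decide +kernel
theorem mt_dl2 : ∀ v ∈ mtV dl2, v ∈ ([(2, 1, 0), (12, 1, 0), (3, 1, 0)] : List Vx) := by decide +kernel
theorem mt_dl3 : ∀ v ∈ mtV dl3, v ∈ ([(4, 0, 1), (12, 0, 1), (5, 0, 1)] : List Vx) := by decide +kernel

theorem mt_fillP : ∀ v ∈ mtV fillP, v ∈ ([(0, 0, 0), (3, 0, 0), (8, 0, 0), (9, 0, 0), (10, 0, 0), (2, 0, 1), (5, 0, 1),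
    (1, -1, 1), (4, -1, 1), (6, -1, 1), (7, -1, 1), (11, -1, 1)] : List Vx) := by decide +kernel
theorem mt_fillQ : ∀ v ∈ mtV fillQ, v ∈ ([(0, 0, 0), (3, 0, 0), (8, 0, 0), (9, 0, 0), (10, 0, 0), (2, 0, 1), (5, 0, 1),
    (1, -1, 1), (4, -1, 1), (6, -1, 1), (7, -1, 1), (11, -1, 1)] : List Vx) := by decide +kernel

theorem mem_TS {a b : ℕ} {t : Vx × Vx × Vx} (ht : t ∈ TS a b) {x : Vx} (hx : IsVert t x) : x ∈ allL a b ++ stL a b := by
  unfold TS at ht
  rcases List.mem_append.1 ht with h | h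
  · obtain ⟨i, j, h1, h2, h3, h4, u, hu, rfl⟩ := mt_fam2 h hx
    have h5 := mt_cellS u hu
    simp only [List.mem_cons, List.not_mem_nil, or_false] at h5
    rcases h5 with rfl | rfl | rfl | rfl | rfl | rfl | rfl | rfl | rfl | rfl | rfl | rfl | rfl | rfl | rfl | rfl |
      rfl | rfl
    all_goals first
      | (refine List.mem_append_left _ (mem_all_of_pres ?_)
         simp [sh, Pres]
         omega)
      | (refine List.mem_append_right _ ((mem_st a b _).2 ?_)
         simp [sh]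
         omega)
  rcases List.mem_append.1 h with h | h
  · obtain ⟨i, j, h1, h2, h3, h4, u, hu, rfl⟩ := mt_fam2 h hx
    have h5 := mt_door2 u hu
    simp only [List.mem_cons, List.not_mem_nil, or_false] at h5
    rcases h5 with rfl | rfl | rfl | rfl
    · by_cases h6 : i ≤ a + 1
      · refine List.mem_append_right _ ((mem_st a b _).2 ?_)
        simp [sh]
        omega
      · refine List.mem_append_left _ (mem_all_of_pres ?_)
        simp [sh, Pres]
        omega
    · refine List.mem_append_left _ (mem_all_of_pres ?_)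
      simp [sh, Pres]
      omega
    · by_cases h6 : 2 ≤ i
      · refine List.mem_append_right _ ((mem_st a b _).2 ?_)
        simp [sh]
        omega
      · refine List.mem_append_left _ (mem_all_of_pres ?_)
        simp [sh, Pres]
        omega
    · refine List.mem_append_left _ (mem_all_of_pres ?_)
      simp [sh, Pres]
      omega
  · obtain ⟨i, j, h1, h2, h3, h4, u, hu, rfl⟩ := mt_fam2 h hx
    have h5 := mt_door3 u hu
    simp only [List.mem_cons, List.not_mem_nil, or_false] at h5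
    rcases h5 with rfl | rfl | rfl | rfl
    · by_cases h6 : j ≤ b + 1
      · refine List.mem_append_right _ ((mem_st a b _).2 ?_)
        simp [sh]
        omega
      · refine List.mem_append_left _ (mem_all_of_pres ?_)
        simp [sh, Pres]
        omega
    · refine List.mem_append_left _ (mem_all_of_pres ?_)
      simp [sh, Pres]
      omega
    · by_cases h6 : 2 ≤ j
      · refine List.mem_append_right _ ((mem_st a b _).2 ?_)
        simp [sh]
        omega
      · refine List.mem_append_left _ (mem_all_of_pres ?_)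
        simp [sh, Pres]
        omega
    · refine List.mem_append_left _ (mem_all_of_pres ?_)
      simp [sh, Pres]
      omega

theorem mem_TR {a b : ℕ} {t : Vx × Vx × Vx} (ht : t ∈ TR a b) {x : Vx} (hx : IsVert t x) : x ∈ allL a b := by
  unfold TR at ht
  refine mem_all_of_pres ?_
  rcases List.mem_append.1 ht with h | h
  · obtain ⟨i, j, h1, h2, h3, h4, u, hu, rfl⟩ := mt_fam2 h hx
    have h5 := mt_ref u hu
    simp only [List.mem_cons, List.not_mem_nil, or_false] at h5
    rcases h5 with rfl | rfl | rfl | rfl | rfl | rfl | rfl | rfl | rfl | rfl | rfl | rfl | rfl | rfl | rfl | rfl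
    all_goals
      simp [sh, Pres]
      omega
  rcases List.mem_append.1 h with h | h
  · obtain ⟨s, hs, u, hu, rfl⟩ := mt_fam1 h hx
    have h5 := mt_cl2 u hu
    simp only [List.mem_cons, List.not_mem_nil, or_false] at h5
    rcases h5 with rfl | rfl | rfl
    all_goals
      simp [sh, Pres]
      omega
  rcases List.mem_append.1 h with h | h
  · obtain ⟨s, hs, u, hu, rfl⟩ := mt_fam1 h hx
    have h5 := mt_cl3 u hu
    simp only [List.mem_cons, List.not_mem_nil, or_false] at h5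
    rcases h5 with rfl | rfl | rfl
    all_goals
      simp [sh, Pres]
      omega
  rcases List.mem_append.1 h with h | h
  · obtain ⟨s, hs, u, hu, rfl⟩ := mt_fam1 h hx
    have h5 := mt_dl2 u hu
    simp only [List.mem_cons, List.not_mem_nil, or_false] at h5
    rcases h5 with rfl | rfl | rfl
    all_goals
      simp [sh, Pres]
      omega
  · obtain ⟨s, hs, u, hu, rfl⟩ := mt_fam1 h hx
    have h5 := mt_dl3 u hu
    simp only [List.mem_cons, List.not_mem_nil, or_false] at h5
    rcases h5 with rfl | rfl | rfl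
    all_goals
      simp [sh, Pres]
      omega

theorem mt_hole {a b : ℕ} {h : ℤ × ℤ} (hh : h ∈ holeIdx a b) : 2 ≤ h.1 ∧ h.1 ≤ a + 1 ∧ 1 ≤ h.2 ∧ h.2 ≤ b := by
  unfold holeIdx at hh
  obtain ⟨i, hi, h2⟩ := List.mem_flatMap.1 hh
  obtain ⟨j, hj, rfl⟩ := List.mem_map.1 h2
  have hi' := List.mem_range.1 hi
  have hj' := List.mem_range.1 hj
  exact ⟨by simp only; omega, by simp only; omega, by simp only; omega, by simp only; omega⟩

theorem mt_fill {a b : ℕ} {i j : ℤ} (h1 : 2 ≤ i) (h2 : i ≤ a + 1) (h3 : 1 ≤ j) (h4 : j ≤ b) {u : Vx}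
    (h5 : u ∈ ([(0, 0, 0), (3, 0, 0), (8, 0, 0), (9, 0, 0), (10, 0, 0), (2, 0, 1), (5, 0, 1),
    (1, -1, 1), (4, -1, 1), (6, -1, 1), (7, -1, 1), (11, -1, 1)] : List Vx)) : sh u i j ∈ allL a b := by
  refine mem_all_of_pres ?_
  simp only [List.mem_cons, List.not_mem_nil, or_false] at h5
  rcases h5 with rfl | rfl | rfl | rfl | rfl | rfl | rfl | rfl | rfl | rfl | rfl | rfl
  all_goals
    simp [sh, Pres]
    omega

theorem mem_fillP {a b : ℕ} {h : ℤ × ℤ} (hh : h ∈ holeIdx a b) {t : Vx × Vx × Vx} (ht : t ∈ tblk fillP h.1 h.2) {x : Vx}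
    (hx : IsVert t x) : x ∈ allL a b := by
  obtain ⟨h1, h2, h3, h4⟩ := mt_hole hh
  obtain ⟨u, hu, rfl⟩ := mt_tblk ht hx
  exact mt_fill h1 h2 h3 h4 (mt_fillP u hu)

theorem mem_fillQ {a b : ℕ} {h : ℤ × ℤ} (hh : h ∈ holeIdx a b) {t : Vx × Vx × Vx} (ht : t ∈ tblk fillQ h.1 h.2) {x : Vx}
    (hx : IsVert t x) : x ∈ allL a b := by
  obtain ⟨h1, h2, h3, h4⟩ := mt_hole hh
  obtain ⟨u, hu, rfl⟩ := mt_tblk ht hx
  exact mt_fill h1 h2 h3 h4 (mt_fillQ u hu)

end Pool.Agent.Lib.MP_6ff0c5_lc.C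
end

section

/-!
The data of the two drawings: the nominal triangulation of the first drawing, the reference triangulation of the second
drawing, and the nominal triangulation of the second drawing.
-/

set_option autoImplicit false

namespace Pool.Agent.Lib.MP_6ff0c5_lc.C

open Pool.Agent.Lib.MP_6ff0c5_lc.K

/-- the cycle of a hole -/
def hcyc (h : ℤ × ℤ) : List Vx := blk holeTab h.1 h.2

theorem holesL_eq (a b : ℕ) : holesL a b = (holeIdx a b).map hcyc := rfl

/-! ### Labels -/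

theorem mem_all_iff {a b : ℕ} {x : Vx} : x ∈ allL a b ↔ Pres (a + 1) (b + 1) x := ⟨pres_of_mem_all, mem_all_of_pres⟩

theorem Pres.lt {n1 n2 : ℕ} {x : Vx} (h : Pres n1 n2 x) : x.1 < 14 := by
  unfold Pres at h
  split_ifs at h with h1 h2 h3 h4 <;> omega

theorem all_not_st {a b : ℕ} {x : Vx} (h : x ∈ allL a b) : x ∉ stL a b := by
  intro h2
  have h1 := pres_of_mem_all h
  obtain ⟨h3, h4, h5, h6, h7⟩ := (mem_st a b x).1 h2
  unfold Pres at h1
  rcases h3 with h3 | h3
  · rw [if_pos h3] at h1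
    push_cast at h1
    rcases h1 with ⟨h8, -⟩ | ⟨h8, -⟩ <;> omega
  · rw [if_neg (by omega), if_pos h3] at h1
    rcases h1 with ⟨h8, -⟩ | ⟨h8, -⟩ <;> omega

theorem all_lt {a b : ℕ} {x : Vx} (h : x ∈ allL a b) : x.1 < 14 := (pres_of_mem_all h).lt

theorem st_lt {a b : ℕ} {x : Vx} (h : x ∈ stL a b) : x.1 < 14 := by
  obtain ⟨h3, -⟩ := (mem_st a b x).1 h
  omega

theorem far_ge {x : Vx} (h : x ∈ farL) : 14 ≤ x.1 := by
  unfold farL at h
  simp only [List.mem_cons, List.not_mem_nil, or_false] at h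
  rcases h with rfl | rfl | rfl <;> simp

theorem nodup_st (a b : ℕ) : (stL a b).Nodup := by
  unfold stL
  rw [List.nodup_flatMap]
  refine ⟨fun i _ => ?_, pairwise_range (fun s t hst => ?_) _⟩
  · rw [List.nodup_flatMap]
    refine ⟨fun j _ => by simp, pairwise_range (fun s t hst => ?_) _⟩
    simp only [Function.onFun]
    intro v hv hw
    simp only [List.mem_cons, List.not_mem_nil, or_false] at hv hw
    rcases hv with rfl | rfl <;> simp only [Prod.mk.injEq] at hw <;> omega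
  · simp only [Function.onFun]
    intro v hv hw
    simp only [List.mem_flatMap, List.mem_range, List.mem_cons, List.not_mem_nil, or_false] at hv hw
    obtain ⟨p, hp, hv⟩ := hv
    obtain ⟨q, hq, hw⟩ := hw
    rcases hv with rfl | rfl <;> simp only [Prod.mk.injEq] at hw <;> omega

theorem nodup_allL (a b : ℕ) : (allL a b).Nodup := by
  unfold allL
  refine List.nodup_append.2 ⟨nodup_outer a b, nodup_holes a b, ?_⟩
  intro x hx y hy hxy
  subst hxy
  exact disj_outer_holes hx hy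

theorem nodup_full (a b : ℕ) : (allL a b ++ stL a b ++ farL).Nodup := by
  refine List.nodup_append.2 ⟨List.nodup_append.2 ⟨nodup_allL a b, nodup_st a b, ?_⟩, by decide, ?_⟩
  · intro x hx y hy hxy
    subst hxy
    exact all_not_st hx hy
  · intro x hx y hy hxy
    subst hxy
    have h1 := far_ge hy
    rcases List.mem_append.1 hx with hx | hx
    · exact absurd (all_lt hx) (by omega)
    · exact absurd (st_lt hx) (by omega)

theorem nodup_full' (a b : ℕ) : (allL a b ++ [] ++ farL).Nodup := by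
  have h := nodup_full a b
  rw [List.append_nil]
  rw [List.append_assoc] at h
  refine List.nodup_append.2 ⟨nodup_allL a b, by decide, ?_⟩
  intro x hx y hy hxy
  exact (List.nodup_append.1 h).2.2 x hx y (List.mem_append_right _ hy) hxy

theorem memΔ (x : Vx) (h : IsVert bigT x) : x ∈ farL := by
  rcases h with rfl | rfl | rfl <;> simp [bigT, farL]

theorem three_le (a b : ℕ) : ∀ c ∈ outerL a b :: (holeIdx a b).map hcyc, 4 ≤ c.length := by
  intro c hc
  rcases List.mem_cons.1 hc with rfl | hc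
  · rw [length_outer]; omega
  · obtain ⟨h, -, rfl⟩ := List.mem_map.1 hc
    unfold hcyc blk holeTab
    simp

theorem otri_congr {r r' : Vx → Pt} {t : Vx × Vx × Vx} (h : ∀ x, IsVert t x → r x = r' x) : otri r t = otri r' t := by
  unfold otri
  rw [h _ (Or.inl rfl), h _ (Or.inr (Or.inl rfl)), h _ (Or.inr (Or.inr rfl))]

/-! ### Positions -/

theorem rP_of_lt {a b : ℕ} {x : Vx} (h : x.1 < 14) : rP a b x = posP x := by
  unfold rP
  rw [if_neg (by omega)]

theorem rF_of_lt {M : ℤ} {N : N.Net} {a b : ℕ} {x : Vx} (h : x.1 < 14) : rF M N a b x = posQ M N x := by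
  unfold rF
  rw [if_neg (by omega)]

theorem rQ_of_all {M : ℤ} {N : N.Net} {A B : ℤ → ℤ → Pt} {a b : ℕ} {x : Vx} (h : x ∈ allL a b) :
    rQ M N A B a b x = posQ M N x := by
  have h1 := all_lt h
  unfold rQ
  rw [if_neg (by omega), if_neg (all_not_st h)]

theorem rQ_of_far {M : ℤ} {N : N.Net} {A B : ℤ → ℤ → Pt} {a b : ℕ} {x : Vx} (h : x ∈ allL a b ∨ x ∈ farL) :
    rQ M N A B a b x = rF M N a b x := by
  rcases h with h | h
  · rw [rQ_of_all h, rF_of_lt (all_lt h)]
  · have h1 := far_ge h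
    unfold rQ rF
    rw [if_pos h1, if_pos h1]

/-! ### The data -/

theorem ldataP (a b : ℕ) : LData (outerL a b) (holeIdx a b) hcyc nomP (stL a b) farL (rP a b) (TS a b)
    (fun h => tblk fillP h.1 h.2) (XPk a b ++ XPf a b) bigT where
  nodup := nodup_full a b
  pos_eq := fun x hx => rP_of_lt (all_lt hx)
  memT := fun t ht x hx => mem_TS ht hx
  memF := fun h hh t ht x hx => List.mem_append_left _ (List.mem_append_left _ (mem_fillP hh ht hx))
  memX := by
    intro t ht x hx
    rcases List.mem_append.1 ht with ht | ht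
    · exact List.mem_append_left _ (List.mem_append_left _ (mem_XPk ht hx))
    · rcases mem_XPf ht hx with h | h
      · exact List.mem_append_left _ (List.mem_append_left _ h)
      · exact List.mem_append_right _ h
  memΔ := memΔ
  posT := by
    intro t ht
    rw [otri_congr (r' := posP)]
    · exact pos_TSP ht
    · intro x hx
      apply rP_of_lt
      rcases List.mem_append.1 (mem_TS ht hx) with h | h
      · exact all_lt h
      · exact st_lt h
  posF := by
    intro h hh t ht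
    rw [otri_congr (r' := posP) fun x hx => rP_of_lt (all_lt (mem_fillP hh ht hx))]
    exact pos_fillP ht
  posX := by
    intro t ht
    rcases List.mem_append.1 ht with ht | ht
    · rw [otri_congr (r' := posP) fun x hx => rP_of_lt (all_lt (mem_XPk ht hx))]
      exact pos_XPk ht
    · exact pos_XPf ht
  posΔ := pos_bigP a b
  used := by
    intro x hx
    refine used_TS ?_
    rcases List.mem_append.1 hx with h | h
    · exact Or.inl (pres_of_mem_all h)
    · exact Or.inr h
  bT := fun f hf => by rw [sum_TS hf, wallSum_eq hf]; rfl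
  bF := fun f hf h _ => sum_fillP hf _ _
  bX := fun f hf => sum_XP hf a b
  three := fun c hc => le_trans (by norm_num) (three_le a b c hc)

theorem ldataR {M : ℤ} {a b : ℕ} (hM : 1000000000 ≤ M) (N : N.Net) :
    LData (outerL a b) (holeIdx a b) hcyc (iposQ M N) [] farL (rF M N a b) (TR a b)
    (fun h => tblk fillQ h.1 h.2) (XQk a b ++ XQf a b) bigT where
  nodup := nodup_full' a b
  pos_eq := fun x hx => rF_of_lt (all_lt hx)
  memT := fun t ht x hx => List.mem_append_left _ (mem_TR ht hx)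
  memF := fun h hh t ht x hx => List.mem_append_left _ (List.mem_append_left _ (mem_fillQ hh ht hx))
  memX := by
    intro t ht x hx
    rcases List.mem_append.1 ht with ht | ht
    · exact List.mem_append_left _ (List.mem_append_left _ (mem_XQk ht hx))
    · rcases mem_XQf ht hx with h | h
      · exact List.mem_append_left _ (List.mem_append_left _ h)
      · exact List.mem_append_right _ h
  memΔ := memΔ
  posT := by
    intro t ht
    rw [otri_congr (r' := posQ M N) fun x hx => rF_of_lt (all_lt (mem_TR ht hx))]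
    exact pos_TRQ (by omega) N ht
  posF := by
    intro h hh t ht
    rw [otri_congr (r' := posQ M N) fun x hx => rF_of_lt (all_lt (mem_fillQ hh ht hx))]
    exact pos_fillQ (by omega) N ht
  posX := by
    intro t ht
    rcases List.mem_append.1 ht with ht | ht
    · rw [otri_congr (r' := posQ M N) fun x hx => rF_of_lt (all_lt (mem_XQk ht hx))]
      exact pos_XQk (by omega) N ht
    · exact pos_XQf_of_pos (by omega) N ht
  posΔ := pos_bigQ_of_pos (by omega) N
  used := by
    intro x hx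
    rw [List.append_nil] at hx
    exact used_TR (pres_of_mem_all hx)
  bT := fun f hf => by rw [sum_TR hf, wallSum_eq hf]; rfl
  bF := fun f hf h _ => sum_fillQ hf _ _
  bX := fun f hf => sum_XQ hf a b
  three := fun c hc => le_trans (by norm_num) (three_le a b c hc)

theorem ldataS {M : ℤ} {a b : ℕ} (hM : 1000000000 ≤ M) (N : N.Net) {A B : ℤ → ℤ → Pt}
    (h : TPos (a + 1) (b + 1) (posQ M N) A B) :
    LData (outerL a b) (holeIdx a b) hcyc (iposQ M N) (stL a b) farL (rQ M N A B a b) (TS a b)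
    (fun h => tblk fillQ h.1 h.2) (XQk a b ++ XQf a b) bigT where
  nodup := nodup_full a b
  pos_eq := fun x hx => rQ_of_all hx
  memT := fun t ht x hx => mem_TS ht hx
  memF := fun h hh t ht x hx => List.mem_append_left _ (List.mem_append_left _ (mem_fillQ hh ht hx))
  memX := by
    intro t ht x hx
    rcases List.mem_append.1 ht with ht | ht
    · exact List.mem_append_left _ (List.mem_append_left _ (mem_XQk ht hx))
    · rcases mem_XQf ht hx with h | h
      · exact List.mem_append_left _ (List.mem_append_left _ h)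
      · exact List.mem_append_right _ h
  memΔ := memΔ
  posT := fun t ht => pos_TSQ h ht
  posF := by
    intro h hh t ht
    rw [otri_congr (r' := posQ M N) fun x hx => rQ_of_all (mem_fillQ hh ht hx)]
    exact pos_fillQ (by omega) N ht
  posX := by
    intro t ht
    rcases List.mem_append.1 ht with ht | ht
    · rw [otri_congr (r' := posQ M N) fun x hx => rQ_of_all (mem_XQk ht hx)]
      exact pos_XQk (by omega) N ht
    · rw [otri_congr (r' := rF M N a b) fun x hx => rQ_of_far (mem_XQf ht hx)]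
      exact pos_XQf_of_pos (by omega) N ht
  posΔ := by
    rw [otri_congr (r' := rF M N a b) fun x hx => rQ_of_far (Or.inr (memΔ x hx))]
    exact pos_bigQ_of_pos (by omega) N
  used := by
    intro x hx
    refine used_TS ?_
    rcases List.mem_append.1 hx with h | h
    · exact Or.inl (pres_of_mem_all h)
    · exact Or.inr h
  bT := fun f hf => by rw [sum_TS hf, wallSum_eq hf]; rfl
  bF := fun f hf h _ => sum_fillQ hf _ _
  bX := fun f hf => sum_XQ hf a b
  three := fun c hc => le_trans (by norm_num) (three_le a b c hc)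

end Pool.Agent.Lib.MP_6ff0c5_lc.C
end
end
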