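import Pool.Agent.Lib.MP_6ff0c5_lc.C.LayPres

/-!
MP_6ff0c5_lc, part C: the walls of the polygons.
-/

set_option autoImplicit false

namespace Pool.Agent.Lib.MP_6ff0c5_lc.C.LP

open K

/-- the directed edge is a wall of the patch -/
def Rw (n1 n2 : ℕ) (u v : Vx) : Prop := ∃ w i j, WP n1 n2 w i j ∧ u = wu w i j ∧ v = wv w i j

/-- a list of walls as a list of edges -/
def wE (W : List (ℕ × ℤ × ℤ)) : List (Vx × Vx) := W.map fun t => (wu t.1 t.2.1 t.2.2, wv t.1 t.2.1 t.2.2)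

section

variable {a b : ℕ}

open Classical in
/-- the indicator of the edges that are not walls -/
noncomputable def notW (n1 n2 : ℕ) (u v : Vx) : ℤ := if Rw n1 n2 u v then 0 else 1

theorem notW_nonneg (n1 n2 : ℕ) (u v : Vx) : 0 ≤ notW n1 n2 u v := by
  unfold notW; split_ifs <;> norm_num

theorem notW_eq_zero {n1 n2 : ℕ} {u v : Vx} : notW n1 n2 u v = 0 ↔ Rw n1 n2 u v := by
  unfold notW; split_ifs with h <;> simp [h]

theorem lsum_zero {f : Vx → Vx → ℤ} {E : List (Vx × Vx)} (h : ∀ e ∈ E, f e.1 e.2 = 0) : lsum f E = 0 := by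
  unfold lsum
  apply List.sum_eq_zero
  intro x hx
  obtain ⟨e, he, rfl⟩ := List.mem_map.1 hx
  exact h e he

theorem of_lsum_zero {f : Vx → Vx → ℤ} (hf : ∀ u v, 0 ≤ f u v) {E : List (Vx × Vx)} (h : lsum f E = 0) :
    ∀ e ∈ E, f e.1 e.2 = 0 := by
  induction E with
  | nil => simp
  | cons e E ih =>
    rw [lsum_cons] at h
    have h1 : 0 ≤ lsum f E := by
      unfold lsum
      apply List.sum_nonneg
      intro x hx
      obtain ⟨e, he, rfl⟩ := List.mem_map.1 hx
      exact hf _ _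
    have h2 := hf e.1 e.2
    intro e' he'
    rcases List.mem_cons.1 he' with rfl | he'
    · omega
    · exact ih (by omega) e' he'

theorem S_wE {n1 n2 : ℕ} {E : List (Vx × Vx)} {W : List (ℕ × ℤ × ℤ)} (hE : E = wE W) {i j : ℤ}
    (h : ∀ t ∈ W, WP n1 n2 t.1 (t.2.1 + i) (t.2.2 + j)) : S (notW n1 n2) E i j = 0 := by
  subst hE
  unfold S
  apply lsum_zero
  intro e he
  obtain ⟨e', he', rfl⟩ := List.mem_map.1 he
  obtain ⟨t, ht, rfl⟩ := List.mem_map.1 he'
  rw [notW_eq_zero]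
  exact ⟨t.1, _, _, h t ht, wu_sh _ _ _ _ _, wv_sh _ _ _ _ _⟩

theorem S_wE' {n1 n2 : ℕ} {E : List (Vx × Vx)} {W : List (ℕ × ℤ × ℤ)} (hE : E = (wE W).map Prod.swap) {i j : ℤ}
    (h : ∀ t ∈ W, WP n1 n2 t.1 (t.2.1 + i) (t.2.2 + j)) : S (fun u v => notW n1 n2 v u) E i j = 0 := by
  subst hE
  unfold S
  apply lsum_zero
  intro e he
  obtain ⟨e', he', rfl⟩ := List.mem_map.1 he
  obtain ⟨e'', he'', rfl⟩ := List.mem_map.1 he'
  obtain ⟨t, ht, rfl⟩ := List.mem_map.1 he''
  rw [notW_eq_zero]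
  exact ⟨t.1, _, _, h t ht, wu_sh _ _ _ _ _, wv_sh _ _ _ _ _⟩

theorem e_bot : pE (botTab ++ [(2, 1, 0)]) =
    wE [(1, 0, 0), (14, 0, 0), (15, 0, 0), (2, 0, 0), (3, 0, 0), (4, 0, 0), (5, 0, 0), (6, 0, 0)] := by decide +kernel
theorem e_br : pE (brTab ++ [(4, -1, 1)]) = wE [(16, -1, 0), (17, -1, 0), (7, -1, 0)] := by decide +kernel
theorem e_right : pE (rightTab ++ [(4, 0, 1)]) =
    wE [(2, 0, 0), (3, 0, 0), (4, 0, 0), (5, 0, 0), (6, 0, 0), (16, 0, 0), (17, 0, 0), (7, 0, 0)] := by decide +kernel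
theorem e_tr : pE (trTab ++ [(12, 0, 0)]) = wE [(18, 0, -1)] := by decide +kernel
theorem e_top : pE (topTab ++ [(12, -1, 0)]) =
    wE [(19, 0, -1), (8, 0, -1), (9, 0, -1), (10, 0, -1), (11, 0, -1), (0, 0, -1), (7, -1, -1), (18, -1, -1)] := by
  decide +kernel
theorem e_tl : pE (tlTab ++ [(2, 0, -1)]) =
    wE [(19, 0, -1), (8, 0, -1), (9, 0, -1), (10, 0, -1), (11, 0, -1), (0, 0, -1), (12, 0, -1), (13, 0, -1)] := by
  decide +kernel
theorem e_left : pE (leftTab ++ [(2, 0, -1)]) =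
    wE [(1, 0, 0), (8, 0, -1), (9, 0, -1), (10, 0, -1), (11, 0, -1), (0, 0, -1), (12, 0, -1), (13, 0, -1)] := by
  decide +kernel
theorem e_hole : cE holeTab = (wE [(0, 0, 0), (11, 0, 0), (10, 0, 0), (9, 0, 0), (8, 0, 0), (1, 0, 1), (6, -1, 1),
    (5, -1, 1), (4, -1, 1), (3, -1, 1), (2, -1, 1), (7, -1, 0)]).map Prod.swap := by
  decide +kernel

theorem wp_mk {n1 n2 w : ℕ} {i j : ℤ} (hw : w < 20) (h1 : 1 ≤ i) (h2 : i ≤ n1) (h3 : 1 ≤ j) (h4 : j ≤ n2)
    (h5 : w < 12 ∨ ((w = 12 ∨ w = 13) ∧ i = 1) ∨ ((w = 14 ∨ w = 15) ∧ j = 1) ∨ ((w = 16 ∨ w = 17) ∧ i = n1) ∨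
      ((w = 18 ∨ w = 19) ∧ j = n2)) : WP n1 n2 w i j := by
  refine ⟨hw, h1, h2, h3, h4, ?_, ?_, ?_, ?_⟩ <;> intro h <;> omega

/-- the edges of the outer polygon are walls -/
theorem outer_wall (a b : ℕ) : ∀ e ∈ (outerL a b).zip ((outerL a b).rotate 1), Rw (a + 1) (b + 1) e.1 e.2 := by
  have h0 : cs (notW (a + 1) (b + 1)) (outerL a b) = 0 := by
    rw [cs_outer]
    have s1 : ∀ t ∈ Finset.range (a + 1), S (notW (a + 1) (b + 1)) (pE (botTab ++ [(2, 1, 0)])) (t + 1) 1 = 0 := by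
      intro t ht
      rw [Finset.mem_range] at ht
      refine S_wE e_bot ?_
      intro x hx
      simp only [List.mem_cons, List.not_mem_nil, or_false] at hx
      rcases hx with rfl | rfl | rfl | rfl | rfl | rfl | rfl | rfl <;>
        refine wp_mk (by norm_num) ?_ ?_ ?_ ?_ ?_ <;> simp <;> omega
    have s2 : S (notW (a + 1) (b + 1)) (pE (brTab ++ [(4, -1, 1)])) (a + 2) 1 = 0 := by
      refine S_wE e_br ?_
      intro x hx
      simp only [List.mem_cons, List.not_mem_nil, or_false] at hx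
      rcases hx with rfl | rfl | rfl <;> refine wp_mk (by norm_num) ?_ ?_ ?_ ?_ ?_ <;> simp <;> omega
    have s3 : ∀ t ∈ Finset.range b, S (notW (a + 1) (b + 1)) (pE (rightTab ++ [(4, 0, 1)])) (a + 1) (t + 2) = 0 := by
      intro t ht
      rw [Finset.mem_range] at ht
      refine S_wE e_right ?_
      intro x hx
      simp only [List.mem_cons, List.not_mem_nil, or_false] at hx
      rcases hx with rfl | rfl | rfl | rfl | rfl | rfl | rfl | rfl <;>
        refine wp_mk (by norm_num) ?_ ?_ ?_ ?_ ?_ <;> simp <;> omega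
    have s4 : S (notW (a + 1) (b + 1)) (pE (trTab ++ [(12, 0, 0)])) (a + 1) (b + 2) = 0 := by
      refine S_wE e_tr ?_
      intro x hx
      simp only [List.mem_cons, List.not_mem_nil, or_false] at hx
      subst hx
      refine wp_mk (by norm_num) ?_ ?_ ?_ ?_ ?_ <;> simp <;> omega
    have s5 : ∀ t ∈ Finset.range a, S (notW (a + 1) (b + 1)) (pE (topTab ++ [(12, -1, 0)])) (a + 1 - t) (b + 2) = 0 := by
      intro t ht
      rw [Finset.mem_range] at ht
      refine S_wE e_top ?_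
      intro x hx
      simp only [List.mem_cons, List.not_mem_nil, or_false] at hx
      rcases hx with rfl | rfl | rfl | rfl | rfl | rfl | rfl | rfl <;>
        refine wp_mk (by norm_num) ?_ ?_ ?_ ?_ ?_ <;> simp <;> omega
    have s6 : S (notW (a + 1) (b + 1)) (pE (tlTab ++ [(2, 0, -1)])) 1 (b + 2) = 0 := by
      refine S_wE e_tl ?_
      intro x hx
      simp only [List.mem_cons, List.not_mem_nil, or_false] at hx
      rcases hx with rfl | rfl | rfl | rfl | rfl | rfl | rfl | rfl <;>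
        refine wp_mk (by norm_num) ?_ ?_ ?_ ?_ ?_ <;> simp <;> omega
    have s7 : ∀ t ∈ Finset.range b, S (notW (a + 1) (b + 1)) (pE (leftTab ++ [(2, 0, -1)])) 1 (b + 1 - t) = 0 := by
      intro t ht
      rw [Finset.mem_range] at ht
      refine S_wE e_left ?_
      intro x hx
      simp only [List.mem_cons, List.not_mem_nil, or_false] at hx
      rcases hx with rfl | rfl | rfl | rfl | rfl | rfl | rfl | rfl <;>
        refine wp_mk (by norm_num) ?_ ?_ ?_ ?_ ?_ <;> simp <;> omega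
    rw [Finset.sum_eq_zero s1, s2, Finset.sum_eq_zero s3, s4, Finset.sum_eq_zero s5, s6, Finset.sum_eq_zero s7]
    rfl
  rw [← lsum_cyc] at h0
  intro e he
  exact notW_eq_zero.1 (of_lsum_zero (notW_nonneg _ _) h0 e he)

/-- the reversed edges of the holes are walls -/
theorem hole_wall (a b : ℕ) : ∀ c ∈ holesL a b, ∀ e ∈ c.zip (c.rotate 1), Rw (a + 1) (b + 1) e.2 e.1 := by
  intro c hc
  unfold holesL holeIdx at hc
  simp only [List.mem_map, List.mem_flatMap, List.mem_range] at hc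
  obtain ⟨⟨i, j⟩, ⟨s, hs, t, ht, he⟩, rfl⟩ := hc
  simp only [Prod.mk.injEq] at he
  obtain ⟨rfl, rfl⟩ := he
  have h0 : cs (fun u v => notW (a + 1) (b + 1) v u) (blk holeTab ((s : ℤ) + 2) ((t : ℤ) + 1)) = 0 := by
    rw [cs_blk]
    refine S_wE' e_hole ?_
    intro x hx
    simp only [List.mem_cons, List.not_mem_nil, or_false] at hx
    rcases hx with rfl | rfl | rfl | rfl | rfl | rfl | rfl | rfl | rfl | rfl | rfl | rfl <;>
      refine wp_mk (by norm_num) ?_ ?_ ?_ ?_ ?_ <;> simp <;> omega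
  rw [← lsum_cyc] at h0
  intro e he
  exact notW_eq_zero.1 (of_lsum_zero (fun u v => notW_nonneg _ _ v u) h0 e he)

theorem exists_next {c : List Vx} {u : Vx} (hu : u ∈ c) : ∃ v, (u, v) ∈ c.zip (c.rotate 1) := by
  obtain ⟨n, hn, rfl⟩ := List.getElem_of_mem hu
  have h1 : n < (c.zip (c.rotate 1)).length := by rw [List.length_zip, List.length_rotate, min_self]; exact hn
  refine ⟨(c.rotate 1)[n]'(by rw [List.length_rotate]; exact hn), ?_⟩
  rw [← List.getElem_zip (h := h1)]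
  exact List.getElem_mem h1

theorem exists_prev {c : List Vx} {u : Vx} (hu : u ∈ c) : ∃ v, (v, u) ∈ c.zip (c.rotate 1) := by
  have hu' : u ∈ c.rotate 1 := List.mem_rotate.2 hu
  obtain ⟨n, hn, he⟩ := List.getElem_of_mem hu'
  have hn' : n < c.length := by rwa [List.length_rotate] at hn
  have h1 : n < (c.zip (c.rotate 1)).length := by rw [List.length_zip, List.length_rotate, min_self]; exact hn'
  refine ⟨(c)[n], ?_⟩
  rw [← he, ← List.getElem_zip (h := h1)]
  exact List.getElem_mem h1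

/-- **The walls of the polygons.** -/
theorem wall_iff {pos : Vx → ℤ × ℤ} {u v : ℕ} : IsWall (symPoly (outerL a b) (holesL a b) pos) u v ↔
    ∃ w i j, WP (a + 1) (b + 1) w i j ∧ u = num (outerL a b ++ (holesL a b).flatten) (wu w i j) ∧
      v = num (outerL a b ++ (holesL a b).flatten) (wv w i j) := by
  rw [isWall_symPoly]
  constructor
  · rintro ⟨x, y, rfl, rfl, h | ⟨c, hc, h⟩⟩
    · obtain ⟨w, i, j, hw, hx, hy⟩ := outer_wall a b _ h
      simp only at hx hy
      exact ⟨w, i, j, hw, by rw [← hx], by rw [← hy]⟩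
    · obtain ⟨w, i, j, hw, hx, hy⟩ := hole_wall a b c hc _ h
      simp only at hx hy
      exact ⟨w, i, j, hw, by rw [← hx], by rw [← hy]⟩
  · rintro ⟨w, i, j, hw, rfl, rfl⟩
    have hm : wu w i j ∈ outerL a b ++ (holesL a b).flatten := mem_of_pres (pres_wu hw)
    have key : ∀ y, Rw (a + 1) (b + 1) (wu w i j) y → y = wv w i j := by
      rintro y ⟨w', i', j', hw', h1, h2⟩
      have h3 := outw_wu hw
      rw [h1, outw_wu hw'] at h3
      simp only [Prod.mk.injEq] at h3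
      rw [h2, h3.1, h3.2.1, h3.2.2]
    rcases List.mem_append.1 hm with h | h
    · obtain ⟨y, hy⟩ := exists_next h
      refine ⟨_, _, rfl, rfl, Or.inl ?_⟩
      rw [← key y (outer_wall a b _ hy)]
      exact hy
    · obtain ⟨c, hc, hm'⟩ := List.mem_flatten.1 h
      obtain ⟨y, hy⟩ := exists_prev hm'
      refine ⟨_, _, rfl, rfl, Or.inr ⟨c, hc, ?_⟩⟩
      rw [← key y (hole_wall a b c hc _ hy)]
      exact hy

end

end Pool.Agent.Lib.MP_6ff0c5_lc.C.LP
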