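import Pool.Agent.Lib.PLib.Lists
import Pool.Agent.Lib.MP_6ff0c5_lc.LQ.Pos
import Pool.Agent.Lib.MP_6ff0c5_lc.K.Comp
import Pool.Agent.Lib.MP_6ff0c5_lc.C.Forced
import Pool.Agent.Lib.MP_6ff0c5_lc.C.ChF
import Pool.Agent.Lib.PLib.Parse
import Pool.Agent.Lib.MP_6ff0c5_lc.ETR.Mach

section

/-!
MP_6ff0c5_lc: typed polynomial time for integers, indexed lists, and the reduction of systems to LQ instances.
-/

set_option autoImplicit false
set_option linter.unusedSectionVars false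

namespace Pool.Agent.Lib.MP_6ff0c5_lc.PTA

open Pool.Agent.Lib.MP_20e1d9_lc (PT PT.of_eq PT.of_word PT.size)
open Pool.Agent.Lib.MP_20e1d9_lc.PL
open Pool.Agent.Lib.PLib
open Pool.Agent.Lib.MP_9c2350_lc
open Pool.Agent.Lib.MP_6ff0c5_lc.LQ

/-- Integers: the absolute value in unary and the sign. -/
instance encInt : Enc ℤ := ⟨fun z => Enc.enc (z.natAbs, decide (z < 0))⟩

variable {α β γ σ δ : Type} [Enc α] [Enc β] [Enc γ] [Enc σ] [Enc δ]

theorem zparts {f : α → ℤ} (hf : PT f) : PT (fun x => ((f x).natAbs, decide (f x < 0))) :=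
  hf.of_word (fun x => x) (fun _ => rfl) (fun _ => rfl)

theorem of_zparts {f : α → ℤ} (hf : PT fun x => ((f x).natAbs, decide (f x < 0))) : PT f :=
  hf.of_word (fun x => x) (fun _ => rfl) (fun _ => rfl)

@[fun_prop]
theorem natAbs {f : α → ℤ} (hf : PT f) : PT (fun x => (f x).natAbs) := fst (zparts hf)

@[fun_prop]
theorem ltZero {f : α → ℤ} (hf : PT f) : PT (fun x => decide (f x < 0)) := snd (zparts hf)

@[fun_prop]
theorem negZ {f : α → ℤ} (hf : PT f) : PT (fun x => -(f x)) := by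
  apply of_zparts
  have h1 := natAbs hf
  have h2 := ltZero hf
  have h : PT fun x => ((f x).natAbs, if (f x).natAbs = 0 then false else !(decide (f x < 0))) := by
    fun_prop
  refine h.of_eq fun x => ?_
  rw [Int.natAbs_neg]
  congr 1
  by_cases h0 : (f x).natAbs = 0
  · rw [if_pos h0]
    have : f x = 0 := Int.natAbs_eq_zero.1 h0
    rw [this]
    rfl
  · rw [if_neg h0]
    have : f x ≠ 0 := fun h => h0 (by rw [h]; rfl)
    by_cases h1 : f x < 0
    · have h2 : ¬ (-f x < 0) := by omega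
      rw [decide_eq_true h1, decide_eq_false h2]
      rfl
    · have h2 : -f x < 0 := by omega
      rw [decide_eq_true h2, decide_eq_false h1]
      rfl

@[fun_prop]
theorem zipIdxPT {l : α → List γ} (hl : PT l) : PT (fun x => (l x).zipIdx) := by
  have h : PT fun x => (l x).zip (List.range (l x).length) := by fun_prop
  refine h.of_eq fun x => ?_
  rw [List.zipIdx_eq_zip_range', List.range_eq_range']

@[fun_prop]
theorem mapIdxPT {l : α → List γ} {f : α → ℕ → γ → β} (hl : PT l)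
    (hf : PT fun y : α × ℕ × γ => f y.1 y.2.1 y.2.2) : PT (fun x => (l x).mapIdx (f x)) := by
  have h : PT fun x => ((l x).zipIdx).map fun q => f x q.2 q.1 := by
    refine map (f := fun (x : α) (q : γ × ℕ) => f x q.2 q.1) (zipIdxPT hl) ?_
    exact hf.comp (g := fun y : α × γ × ℕ => (y.1, y.2.2, y.2.1)) (by fun_prop)
  refine h.of_eq fun x => ?_
  rw [List.mapIdx_eq_zipIdx_map]

end Pool.Agent.Lib.MP_6ff0c5_lc.PTA
end

section

section

/-!
MP_6ff0c5_lc, part B: the network lies in a box.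
-/

set_option autoImplicit false

namespace Pool.Agent.Lib.MP_6ff0c5_lc.N

open LQ (Inst Form)

/-- The active rooms lie in a box of polynomial size.
Proof. `tile L J ≠ 0` (mask `0` is `0`) implies `0 ≤ L ≤ ns + 2`, `-2 P.K ≤ J < nl` (`P.src.length = 2 * nvar = nl - 2`), with
`P = layOf I K`, `P.K = K + 2`. -/
theorem net_box {I : Inst} {K : ℕ} {x y : ℤ} (h : (net I K).act x y = true) :
    2 ≤ x - y ∧ x - y + 1 ≤ 37 * isize I K ∧ 2 ≤ y ∧ y + 1 ≤ 28 * isize I K := by
  have h0 : (netOf (layOf I K).tile).act (x - 9 * (4 * isize I K)) (y - 9 * (2 * isize I K)) = true := h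
  have hne : (layOf I K).tile ((x - 9 * (4 * isize I K)) / 9) ((y - 9 * (2 * isize I K)) / 9) ≠ 0 := by
    intro h1
    have h2 : tbit masks ((layOf I K).tile ((x - 9 * (4 * isize I K)) / 9) ((y - 9 * (2 * isize I K)) / 9))
      ((x - 9 * (4 * isize I K)) % 9) ((y - 9 * (2 * isize I K)) % 9) = true := h0
    rw [h1] at h2
    simp [tbit, masks] at h2
  have hL0 : 0 ≤ (x - 9 * (4 * isize I K)) / 9 := by
    by_contra h; exact hne (tile_left (by omega))
  have hL2 : (x - 9 * (4 * isize I K)) / 9 ≤ (layOf I K).ns + 2 := by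
    by_contra h; exact hne (tile_far (by omega))
  have hJ1 : (y - 9 * (2 * isize I K)) / 9 < (layOf I K).nl := by
    by_contra h; exact hne (tile_top (by omega))
  have hJ0 : -(2 * (layOf I K).K : ℤ) ≤ (y - 9 * (2 * isize I K)) / 9 := by
    by_contra h; exact hne (tile_below (by omega))
  have hK : (layOf I K).K = K + 2 := rfl
  have hs : isize I K = (layOf I K).ns + (layOf I K).nl + K + 4 := rfl
  rw [hK] at hJ0
  generalize (layOf I K).ns = ns at *
  generalize (layOf I K).nl = nl at *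
  generalize isize I K = s at *
  subst hs
  push_cast at *
  omega

end Pool.Agent.Lib.MP_6ff0c5_lc.N
end

section

/-!
The size of the second drawing (`nomQ`, `tabQ_bound` in C/ApprQ.lean, `dispQ_bound`; `Pres` gives `0 ≤ i ≤ a + 2`,
`0 ≤ j ≤ b + 2`; `|nomQ| ≤ 300000 + 214500 (a+2) + 868500 (b+2)`).
-/

set_option autoImplicit false

namespace Pool.Agent.Lib.MP_6ff0c5_lc.C

open Pool.Agent.Lib.MP_6ff0c5_lc.K

theorem bnd_pres {a b : ℕ} {x : Vx} (hx : Pres (a + 1) (b + 1) x) :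
    0 ≤ x.2.1 ∧ x.2.1 ≤ (a : ℤ) + 2 ∧ 0 ≤ x.2.2 ∧ x.2.2 ≤ (b : ℤ) + 2 := by
  unfold Pres at hx
  split_ifs at hx with h1 h2 h3 h4
  · rcases hx with ⟨p1, p2, p3⟩ | ⟨p1, p2, p3⟩ <;> push_cast at p1 p2 p3 <;>
      refine ⟨by omega, by omega, by omega, by omega⟩
  · rcases hx with ⟨p1, p2, p3⟩ | ⟨p1, p2, p3⟩ <;> push_cast at p1 p2 p3 <;>
      refine ⟨by omega, by omega, by omega, by omega⟩
  · obtain ⟨p1, p2, p3, p4⟩ := hx
    push_cast at p1 p2 p3 p4
    refine ⟨by omega, by omega, by omega, by omega⟩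
  · obtain ⟨p1, p2, p3, p4⟩ := hx
    push_cast at p1 p2 p3 p4
    refine ⟨by omega, by omega, by omega, by omega⟩
  · obtain ⟨-, p1, p2, p3, p4⟩ := hx
    push_cast at p1 p2 p3 p4
    refine ⟨by omega, by omega, by omega, by omega⟩

theorem bnd_aux {M n d c : ℤ} (hM : 1 ≤ M) (hd : |d| ≤ 1) (hn : -c ≤ n - 0 ∧ n ≤ c) :
    |M * n + d| ≤ (c + 1) * M := by
  rw [abs_le] at *
  constructor
  · nlinarith [hd.1, hn.1]
  · nlinarith [hd.2, hn.2]

theorem bnd_posQ {M : ℤ} {a b : ℕ} (hM : 1000000000 ≤ M) (N : N.Net) {x : Vx} (hx : Pres (a + 1) (b + 1) x) :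
    |(posQ M N x).1| ≤ 1500000 * ((a : ℝ) + b + 4) * M ∧ |(posQ M N x).2| ≤ 1500000 * ((a : ℝ) + b + 4) * M := by
  obtain ⟨q1, q2, q3, q4⟩ := bnd_pres hx
  obtain ⟨b1, b2, b3, b4⟩ := tabQ_bound x.1
  obtain ⟨d1, d2⟩ := dispQ_bound N x
  have hM1 : (1 : ℤ) ≤ M := by linarith
  have e1 : -(1400000 * ((a : ℤ) + b + 4)) ≤ (nomQ x).1 - 0 ∧ (nomQ x).1 ≤ 1400000 * ((a : ℤ) + b + 4) := by
    unfold nomQ; constructor <;> simp only <;> omega
  have e2 : -(1400000 * ((a : ℤ) + b + 4)) ≤ (nomQ x).2 - 0 ∧ (nomQ x).2 ≤ 1400000 * ((a : ℤ) + b + 4) := by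
    unfold nomQ; constructor <;> simp only <;> omega
  have f1 := bnd_aux hM1 d1 e1
  have f2 := bnd_aux hM1 d2 e2
  have g : (1400000 * ((a : ℤ) + b + 4) + 1) * M ≤ 1500000 * ((a : ℤ) + b + 4) * M := by
    apply mul_le_mul_of_nonneg_right _ (by linarith)
    omega
  have f1' : |((M * (nomQ x).1 + (dispQ N x).1 : ℤ) : ℝ)| ≤ ((1500000 * ((a : ℤ) + b + 4) * M : ℤ) : ℝ) := by
    exact_mod_cast f1.trans g
  have f2' : |((M * (nomQ x).2 + (dispQ N x).2 : ℤ) : ℝ)| ≤ ((1500000 * ((a : ℤ) + b + 4) * M : ℤ) : ℝ) := by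
    exact_mod_cast f2.trans g
  push_cast at f1' f2'
  unfold posQ iposQ toPt
  push_cast
  exact ⟨f1', f2'⟩

end Pool.Agent.Lib.MP_6ff0c5_lc.C
end

section

/-!
MP_6ff0c5_lc, part C: the nominal triangulation of idle cells in the second drawing is not negatively oriented.
-/

set_option autoImplicit false

namespace Pool.Agent.Lib.MP_6ff0c5_lc.C.LP

open K N

/-- the displacements in free rooms -/
def freeD (k : ℕ) : ℤ × ℤ :=
  if k = 6 then (0, 1) else if k = 8 then (-1, 0) else if k = 10 then (-1, 0) else if k = 7 then (1, 0)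
  else if k = 2 then (0, 1) else if k = 5 then (1, 0) else (0, 0)

theorem bt_free {N : Net} {x y : ℤ} (h1 : N.act x y = false) (h2 : N.act (x + 1) y = false)
    (h3 : N.act (x + 1) (y + 1) = false) : N.bt x y = .free := by
  unfold Net.bt
  simp [h1, h2, h3]

/-- the displacement of an idle vertex -/
theorem disp_free {N : Net} {k : ℕ} {i j : ℤ} (h1 : N.act (i + j) j = false)
    (h2 : k ≠ 2 → k ≠ 5 → N.act (i + j + 1) j = false ∧ N.act (i + j + 1) (j + 1) = false) :
    dispQ N (k, i, j) = freeD k := by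
  unfold dispQ freeD
  simp only
  by_cases k2 : k = 2
  · subst k2; simp [h1]
  by_cases k5 : k = 5
  · subst k5; simp [h1]
  obtain ⟨h3, h4⟩ := h2 k2 k5
  rw [bt_free h1 h3 h4]
  simp [k2, k5]

/-- positions in free rooms -/
def fpos (M : ℤ) (v : Vx) : ℤ × ℤ := (M * (nomQ v).1 + (freeD v.1).1, M * (nomQ v).2 + (freeD v.1).2)

theorem fpos_sh (M : ℤ) (v : Vx) (i j : ℤ) : fpos M (sh v i j) =
    ((fpos M v).1 + M * (-214500 * i - 429000 * j), (fpos M v).2 + M * (214500 * i - 868500 * j)) := by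
  unfold fpos sh nomQ
  ext <;> simp only <;> ring

theorem iori_add (p q r : ℤ × ℤ) (x y : ℤ) :
    iori (p.1 + x, p.2 + y) (q.1 + x, q.2 + y) (r.1 + x, r.2 + y) = iori p q r := by
  unfold iori; simp only; ring

theorem nonneg_free {M : ℤ} (hM : 1000000000 ≤ M) :
    ∀ t ∈ cellS ++ (door2 ++ door3), 0 ≤ iori (fpos M t.1) (fpos M t.2.1) (fpos M t.2.2) := by
  intro t ht
  have h0 : 0 ≤ M := by linarith
  have h1 : 0 ≤ (M - 1000000000) * M := mul_nonneg (by linarith) h0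
  simp only [cellS, door2, door3, List.cons_append, List.nil_append, List.mem_cons, List.not_mem_nil, or_false] at ht
  rcases ht with rfl | rfl | rfl | rfl | rfl | rfl | rfl | rfl | rfl | rfl | rfl | rfl | rfl | rfl | rfl | rfl | rfl | rfl
  all_goals
    simp [iori, fpos, nomQ, tabQ, freeD]
    try nlinarith [h0, h1]

theorem otri_free {M : ℤ} (hM : 1000000000 ≤ M) {N : Net} {t : Vx × Vx × Vx} (ht : t ∈ cellS ++ (door2 ++ door3)) {i j : ℤ}
    (h : ∀ v, IsVert t v → dispQ N (sh v i j) = freeD v.1) : 0 ≤ otri (posQ M N) (mapT (fun v => sh v i j) t) := by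
  have key : ∀ v, IsVert t v → iposQ M N (sh v i j) =
      ((fpos M v).1 + M * (-214500 * i - 429000 * j), (fpos M v).2 + M * (214500 * i - 868500 * j)) := by
    intro v hv
    rw [← fpos_sh]
    unfold iposQ fpos
    rw [h v hv]
    rfl
  unfold otri mapT posQ
  simp only
  rw [orient_toPt, key _ (Or.inl rfl), key _ (Or.inr (Or.inl rfl)), key _ (Or.inr (Or.inr rfl)), iori_add]
  exact_mod_cast nonneg_free hM t ht

/-- the vertices of the triangles of a cell -/
theorem vert_cellS : ∀ t ∈ cellS, ∀ v ∈ [t.1, t.2.1, t.2.2],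
    (v.2 = (0, 0)) ∨ v = (2, 1, 0) ∨ v = (3, 1, 0) ∨ v = (4, 0, 1) ∨ v = (5, 0, 1) := by decide

theorem vert_door2 : ∀ t ∈ door2, ∀ v ∈ [t.1, t.2.1, t.2.2], v = (12, 0, 0) ∨ v = (3, 0, 0) ∨ v = (2, 0, 0) ∨
    v = (13, -1, 0) := by decide

theorem vert_door3 : ∀ t ∈ door3, ∀ v ∈ [t.1, t.2.1, t.2.2], v = (12, 0, 0) ∨ v = (5, 0, 0) ∨ v = (4, 0, 0) ∨
    v = (13, 0, -1) := by decide

theorem disp_zero {N : Net} {k : ℕ} {i j : ℤ} (h : k = 3 ∨ k = 4 ∨ k = 12 ∨ k = 13) : dispQ N (k, i, j) = freeD k := by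
  rcases h with rfl | rfl | rfl | rfl <;> rfl

theorem mem_vert {t : Vx × Vx × Vx} {v : Vx} (h : IsVert t v) : v ∈ [t.1, t.2.1, t.2.2] := by
  rcases h with h | h | h <;> simp [h]

theorem nonneg_cellS {M : ℤ} (hM : 1000000000 ≤ M) {N : Net} {i j : ℤ} (h1 : N.act (i + j) j = false)
    (h2 : N.act (i + j + 1) j = false) (h3 : N.act (i + j + 1) (j + 1) = false) :
    ∀ tt ∈ tblk cellS i j, 0 ≤ otri (posQ M N) tt := by
  intro tt htt
  obtain ⟨t, ht, rfl⟩ := List.mem_map.1 htt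
  refine otri_free hM (List.mem_append_left _ ht) fun v hv => ?_
  rcases vert_cellS t ht v (mem_vert hv) with h | rfl | rfl | rfl | rfl
  · obtain ⟨k, p, q⟩ := v
    obtain ⟨rfl, rfl⟩ := Prod.mk.inj h
    show dispQ N (k, 0 + i, 0 + j) = _
    rw [zero_add, zero_add]
    exact disp_free h1 fun _ _ => ⟨h2, h3⟩
  · show dispQ N (2, 1 + i, 0 + j) = _
    exact disp_free (by rw [← h2]; congr 1 <;> ring) fun h => absurd rfl h
  · exact disp_zero (Or.inl rfl)
  · exact disp_zero (Or.inr (Or.inl rfl))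
  · show dispQ N (5, 0 + i, 1 + j) = _
    exact disp_free (by rw [← h3]; congr 1 <;> ring) fun _ h => absurd rfl h

theorem nonneg_door2 {M : ℤ} (hM : 1000000000 ≤ M) {N : Net} {i j : ℤ} (h1 : N.act (i + j) j = false) :
    ∀ tt ∈ tblk door2 i j, 0 ≤ otri (posQ M N) tt := by
  intro tt htt
  obtain ⟨t, ht, rfl⟩ := List.mem_map.1 htt
  refine otri_free hM (List.mem_append_right _ (List.mem_append_left _ ht)) fun v hv => ?_
  rcases vert_door2 t ht v (mem_vert hv) with rfl | rfl | rfl | rfl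
  · exact disp_zero (Or.inr (Or.inr (Or.inl rfl)))
  · exact disp_zero (Or.inl rfl)
  · show dispQ N (2, 0 + i, 0 + j) = _
    rw [zero_add, zero_add]
    exact disp_free h1 fun h => absurd rfl h
  · exact disp_zero (Or.inr (Or.inr (Or.inr rfl)))

theorem nonneg_door3 {M : ℤ} (hM : 1000000000 ≤ M) {N : Net} {i j : ℤ} (h1 : N.act (i + j) j = false) :
    ∀ tt ∈ tblk door3 i j, 0 ≤ otri (posQ M N) tt := by
  intro tt htt
  obtain ⟨t, ht, rfl⟩ := List.mem_map.1 htt
  refine otri_free hM (List.mem_append_right _ (List.mem_append_right _ ht)) fun v hv => ?_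
  rcases vert_door3 t ht v (mem_vert hv) with rfl | rfl | rfl | rfl
  · exact disp_zero (Or.inr (Or.inr (Or.inl rfl)))
  · show dispQ N (5, 0 + i, 0 + j) = _
    rw [zero_add, zero_add]
    exact disp_free h1 fun _ h => absurd rfl h
  · exact disp_zero (Or.inr (Or.inl rfl))
  · exact disp_zero (Or.inr (Or.inr (Or.inr rfl)))

end Pool.Agent.Lib.MP_6ff0c5_lc.C.LP
end

section

/-!
MP_6ff0c5_lc, part C: the region of a small patch is contained in the region of a larger patch, if the triangles of the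
nominal triangulation outside of the small patch are not negatively oriented.
-/

set_option autoImplicit false

namespace Pool.Agent.Lib.MP_6ff0c5_lc.C.LP

open K Filter Topology

/-! ### Sums over rectangles -/

theorem sum_le1 {g : ℕ → ℤ} {m m' s : ℕ} (h : m + s ≤ m') (hg : ∀ k < m', ¬ (s ≤ k ∧ k < s + m) → 0 ≤ g k) :
    ∑ k ∈ Finset.range m, g (s + k) ≤ ∑ k ∈ Finset.range m', g k := by
  have e : ∑ k ∈ Finset.range m, g (s + k) = ∑ k ∈ Finset.Ico s (s + m), g k := by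
    rw [Finset.sum_Ico_eq_sum_range]; simp
  rw [e]
  refine Finset.sum_le_sum_of_subset_of_nonneg ?_ ?_
  · intro k hk
    rw [Finset.mem_Ico] at hk
    rw [Finset.mem_range]; omega
  · intro k hk hk'
    rw [Finset.mem_Ico] at hk'
    rw [Finset.mem_range] at hk
    exact hg k hk (by omega)

theorem dsum_le {g : ℤ → ℤ → ℤ} {m n m' n' s t : ℕ} (h1 : m + s ≤ m') (h2 : n + t ≤ n')
    (hg : ∀ i j : ℤ, 1 ≤ i → i ≤ m' → 1 ≤ j → j ≤ n' → ¬ (s + 1 ≤ i ∧ i ≤ s + m ∧ t + 1 ≤ j ∧ j ≤ t + n) → 0 ≤ g i j) :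
    dsum (fun i j => g (s + i) (t + j)) m n ≤ dsum g m' n' := by
  unfold dsum
  refine le_trans (Finset.sum_le_sum (g := fun i => ∑ j ∈ Finset.range n', g (((s + i : ℕ) : ℤ) + 1) ((j : ℤ) + 1)) ?_)
    (sum_le1 (g := fun k => ∑ j ∈ Finset.range n', g ((k : ℤ) + 1) ((j : ℤ) + 1)) h1 ?_)
  · intro i hi
    rw [Finset.mem_range] at hi
    have := sum_le1 (g := fun k => g (((s + i : ℕ) : ℤ) + 1) ((k : ℤ) + 1)) h2 (fun k hk hk' => hg _ _ (by push_cast; omega)
      (by push_cast; omega) (by omega) (by omega) (by push_cast; omega))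
    refine le_trans (le_of_eq ?_) this
    refine Finset.sum_congr rfl fun j _ => ?_
    push_cast
    congr 1
  · intro k hk hk'
    refine Finset.sum_nonneg fun j hj => ?_
    rw [Finset.mem_range] at hj
    exact hg _ _ (by omega) (by omega) (by omega) (by omega) (by omega)

/-! ### Generic points -/

/-- lines that generic points avoid -/
def gE (ρ : Vx → Pt) (TT : List (Vx × Vx × Vx)) : List (Pt × Pt) :=
  (tE TT).flatMap fun e => [(ρ e.1, ρ e.2), (ρ e.1, ρ e.1 + (1, 0))]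

theorem notMem_of_gE {ρ : Vx → Pt} {TT : List (Vx × Vx × Vx)} {x : Pt}
    (hx : ∀ e ∈ gE ρ TT, e.1 ≠ e.2 → orient e.1 e.2 x ≠ 0) {e : Vx × Vx} (he : e ∈ tE TT) :
    x ∉ segment ℝ (ρ e.1) (ρ e.2) := by
  by_cases h : ρ e.1 = ρ e.2
  · have h1 := hx (ρ e.1, ρ e.1 + (1, 0)) (List.mem_flatMap.2 ⟨e, he, by simp⟩) (by simp [Prod.ext_iff])
    intro h2
    rw [← h, segment_same] at h2
    rw [Set.mem_singleton_iff.1 h2] at h1
    exact h1 (orient_self_out _ _)
  · exact notMem_segment_of_orient (hx (ρ e.1, ρ e.2) (List.mem_flatMap.2 ⟨e, he, by simp⟩) h)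

/-- the point is on no edge of the triangle -/
def NS (ρ : Vx → Pt) (t : Vx × Vx × Vx) (x : Pt) : Prop :=
  x ∉ segment ℝ (ρ t.1) (ρ t.2.1) ∧ x ∉ segment ℝ (ρ t.2.1) (ρ t.2.2) ∧ x ∉ segment ℝ (ρ t.2.2) (ρ t.1)

theorem ns_of_gE {ρ : Vx → Pt} {TT : List (Vx × Vx × Vx)} {x : Pt}
    (hx : ∀ e ∈ gE ρ TT, e.1 ≠ e.2 → orient e.1 e.2 x ≠ 0) {t : Vx × Vx × Vx} (ht : t ∈ TT) : NS ρ t x := by
  refine ⟨notMem_of_gE hx (e := (t.1, t.2.1)) ?_, notMem_of_gE hx (e := (t.2.1, t.2.2)) ?_,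
    notMem_of_gE hx (e := (t.2.2, t.1)) ?_⟩
  all_goals
    unfold tE
    exact List.mem_flatMap.2 ⟨t, ht, by simp⟩

theorem bsum_nonneg {ρ : Vx → Pt} {t : Vx × Vx × Vx} (ht : 0 ≤ otri ρ t) {x : Pt} (h : NS ρ t x) :
    0 ≤ bsum (fun a b => cr x (ρ a) (ρ b)) t := by
  unfold bsum
  rw [cr_ind h.1 h.2.1 h.2.2]
  unfold ind
  split_ifs with g1 g2
  · norm_num
  · exfalso
    have := orient_sum (ρ t.1) (ρ t.2.1) (ρ t.2.2) x
    unfold otri at ht; linarith
  · norm_num

theorem bsum_one {ρ : Vx → Pt} {t : Vx × Vx × Vx} {x : Pt} (h : NS ρ t x) (hx : x ∈ OpenTri ρ t) :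
    bsum (fun a b => cr x (ρ a) (ρ b)) t = 1 := by
  unfold bsum
  rw [cr_ind h.1 h.2.1 h.2.2]
  unfold ind
  exact if_pos hx

theorem bsum_zero {ρ : Vx → Pt} {t : Vx × Vx × Vx} (ht : 0 < otri ρ t) {x : Pt} (h : NS ρ t x) (hx : x ∉ OpenTri ρ t) :
    bsum (fun a b => cr x (ρ a) (ρ b)) t = 0 := by
  unfold bsum
  rw [cr_ind h.1 h.2.1 h.2.2]
  unfold ind
  have hx' : ¬ (0 < orient (ρ t.1) (ρ t.2.1) x ∧ 0 < orient (ρ t.2.1) (ρ t.2.2) x ∧ 0 < orient (ρ t.2.2) (ρ t.1) x) := hx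
  rw [if_neg hx', if_neg]
  rintro ⟨h1, h2, h3⟩
  have := orient_sum (ρ t.1) (ρ t.2.1) (ρ t.2.2) x
  unfold otri at ht
  linarith

/-! ### Sums over the triangulation -/

theorem sum_fam2 (f : Vx → Vx → ℤ) (tab : List (Vx × Vx × Vx)) (m n : ℕ) :
    ((fam2 tab m n).map (bsum f)).sum = dsum (fun i j => ((tblk tab i j).map (bsum f)).sum) m n := by
  unfold fam2 fam1 dsum
  rw [sum_flatMap_range]
  refine Finset.sum_congr rfl fun i _ => ?_
  rw [sum_flatMap_range]

theorem sum_tblk_sh (f : Vx → Vx → ℤ) (tab : List (Vx × Vx × Vx)) (s t i j : ℤ) :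
    ((tblk tab i j).map (bsum fun u v => f (sh u s t) (sh v s t))).sum = ((tblk tab (s + i) (t + j)).map (bsum f)).sum := by
  rw [sum_tblk, sum_tblk, S_eq, S_eq]
  simp only [sh_comp]

theorem mem_tblk_fam2 {tab : List (Vx × Vx × Vx)} {m n : ℕ} {i j : ℤ} (h1 : 1 ≤ i) (h2 : i ≤ m) (h3 : 1 ≤ j) (h4 : j ≤ n)
    {tt : Vx × Vx × Vx} (h : tt ∈ tblk tab i j) : tt ∈ fam2 tab m n := by
  unfold fam2 fam1
  refine List.mem_flatMap.2 ⟨(i - 1).toNat, List.mem_range.2 (by omega),
    List.mem_flatMap.2 ⟨(j - 1).toNat, List.mem_range.2 (by omega), ?_⟩⟩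
  have e1 : (((i - 1).toNat : ℕ) : ℤ) + 1 = i := by omega
  have e2 : (((j - 1).toNat : ℕ) : ℤ) + 1 = j := by omega
  rw [e1]
  simp only
  rw [e2]
  exact h

theorem sum_TS_le {ρ : Vx → Pt} {a b s t a' b' : ℕ} (h1 : a + s ≤ a') (h2 : b + t ≤ b') {x : Pt}
    (hx : ∀ tt ∈ TS a' b', NS ρ tt x)
    (hc : ∀ i j : ℤ, ¬ (s + 1 ≤ i ∧ i ≤ s + (a + 1 : ℕ) ∧ t + 1 ≤ j ∧ j ≤ t + (b + 1 : ℕ)) →
      ∀ tt ∈ tblk cellS i j, 0 ≤ otri ρ tt)
    (hd2 : ∀ i j : ℤ, ¬ (s + 1 ≤ i ∧ i ≤ s + (a + 2 : ℕ) ∧ t + 1 ≤ j ∧ j ≤ t + (b + 1 : ℕ)) →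
      ∀ tt ∈ tblk door2 i j, 0 ≤ otri ρ tt)
    (hd3 : ∀ i j : ℤ, ¬ (s + 1 ≤ i ∧ i ≤ s + (a + 1 : ℕ) ∧ t + 1 ≤ j ∧ j ≤ t + (b + 2 : ℕ)) →
      ∀ tt ∈ tblk door3 i j, 0 ≤ otri ρ tt) :
    ((TS a b).map (bsum fun u v => cr x (ρ (sh u s t)) (ρ (sh v s t)))).sum ≤
      ((TS a' b').map (bsum fun u v => cr x (ρ u) (ρ v))).sum := by
  unfold TS
  simp only [List.map_append, List.sum_append, sum_fam2]
  have e : ∀ tab : List (Vx × Vx × Vx), (fun i j : ℤ => ((tblk tab i j).map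
      (bsum fun u v => cr x (ρ (sh u s t)) (ρ (sh v s t)))).sum) =
      fun i j => ((tblk tab (s + i) (t + j)).map (bsum fun u v => cr x (ρ u) (ρ v))).sum := by
    intro tab
    funext i j
    exact sum_tblk_sh (fun u v => cr x (ρ u) (ρ v)) tab s t i j
  simp only [e]
  have hn : ∀ (tab : List (Vx × Vx × Vx)) (i j : ℤ), (∀ tt ∈ tblk tab i j, 0 ≤ otri ρ tt ∧ NS ρ tt x) →
      0 ≤ ((tblk tab i j).map (bsum fun u v => cr x (ρ u) (ρ v))).sum := by
    intro tab i j h
    refine List.sum_nonneg fun z hz => ?_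
    obtain ⟨tt, htt, rfl⟩ := List.mem_map.1 hz
    exact bsum_nonneg (h tt htt).1 (h tt htt).2
  refine add_le_add ?_ (add_le_add ?_ ?_)
  · refine dsum_le (g := fun i j => ((tblk cellS i j).map (bsum fun u v => cr x (ρ u) (ρ v))).sum) (by omega) (by omega)
      fun i j g1 g2 g3 g4 g5 => hn _ _ _ fun tt htt => ⟨hc i j g5 tt htt, hx tt ?_⟩
    exact List.mem_append_left _ (mem_tblk_fam2 g1 g2 g3 g4 htt)
  · refine dsum_le (g := fun i j => ((tblk door2 i j).map (bsum fun u v => cr x (ρ u) (ρ v))).sum) (by omega) (by omega)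
      fun i j g1 g2 g3 g4 g5 => hn _ _ _ fun tt htt => ⟨hd2 i j g5 tt htt, hx tt ?_⟩
    exact List.mem_append_right _ (List.mem_append_left _ (mem_tblk_fam2 g1 g2 g3 g4 htt))
  · refine dsum_le (g := fun i j => ((tblk door3 i j).map (bsum fun u v => cr x (ρ u) (ρ v))).sum) (by omega) (by omega)
      fun i j g1 g2 g3 g4 g5 => hn _ _ _ fun tt htt => ⟨hd3 i j g5 tt htt, hx tt ?_⟩
    exact List.mem_append_right _ (List.mem_append_right _ (mem_tblk_fam2 g1 g2 g3 g4 htt))

theorem isClosed_list (ρ : Vx → Pt) (TL : List (Vx × Vx × Vx)) : IsClosed {x | ∃ tt ∈ TL, x ∈ ClosedTri ρ tt} := by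
  induction TL with
  | nil => simp
  | cons t TL ih =>
    have : {x | ∃ tt ∈ t :: TL, x ∈ ClosedTri ρ tt} = ClosedTri ρ t ∪ {x | ∃ tt ∈ TL, x ∈ ClosedTri ρ tt} := by
      ext x; simp
    rw [this]
    exact (isClosed_closedTri ρ t).union ih

/-- **The small region is in the large region.** -/
theorem incl {ρ : Vx → Pt} {a b s t a' b' : ℕ} (h1 : a + s ≤ a') (h2 : b + t ≤ b') {TL TM : List (Vx × Vx × Vx)}
    (hsL : ∀ f : Vx → Vx → ℤ, (∀ a b, f b a = -f a b) → (TL.map (bsum f)).sum = ((TS a' b').map (bsum f)).sum)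
    (hsM : ∀ f : Vx → Vx → ℤ, (∀ a b, f b a = -f a b) → (TM.map (bsum f)).sum = ((TS a b).map (bsum f)).sum)
    (posL : ∀ tt ∈ TL, 0 < otri ρ tt) (posM : ∀ tt ∈ TM, 0 < otri ρ (mapT (fun v => sh v s t) tt))
    (hc : ∀ i j : ℤ, ¬ (s + 1 ≤ i ∧ i ≤ s + (a + 1 : ℕ) ∧ t + 1 ≤ j ∧ j ≤ t + (b + 1 : ℕ)) →
      ∀ tt ∈ tblk cellS i j, 0 ≤ otri ρ tt)
    (hd2 : ∀ i j : ℤ, ¬ (s + 1 ≤ i ∧ i ≤ s + (a + 2 : ℕ) ∧ t + 1 ≤ j ∧ j ≤ t + (b + 1 : ℕ)) →
      ∀ tt ∈ tblk door2 i j, 0 ≤ otri ρ tt)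
    (hd3 : ∀ i j : ℤ, ¬ (s + 1 ≤ i ∧ i ≤ s + (a + 1 : ℕ) ∧ t + 1 ≤ j ∧ j ≤ t + (b + 2 : ℕ)) →
      ∀ tt ∈ tblk door3 i j, 0 ≤ otri ρ tt)
    {tt : Vx × Vx × Vx} (htt : tt ∈ TM) {x : Pt} (hx : x ∈ ClosedTri ρ (mapT (fun v => sh v s t) tt)) :
    ∃ t' ∈ TL, x ∈ ClosedTri ρ t' := by
  by_contra hno
  have hU : {x | ∃ tt ∈ TL, x ∈ ClosedTri ρ tt}ᶜ ∈ 𝓝 x := (isClosed_list ρ TL).isOpen_compl.mem_nhds hno
  obtain ⟨y, hy, hyo, hg⟩ := exists_generic (posM tt htt) hx hU
    (gE ρ (TL ++ (TM.map (mapT fun v => sh v s t) ++ TS a' b')))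
  set f : Vx → Vx → ℤ := fun u v => cr y (ρ u) (ρ v) with hf
  have hfa : ∀ a b, f b a = -f a b := fun a b => cr_swap y (ρ a) (ρ b)
  set f' : Vx → Vx → ℤ := fun u v => cr y (ρ (sh u s t)) (ρ (sh v s t)) with hf'
  have hfa' : ∀ a b, f' b a = -f' a b := fun a b => cr_swap y _ _
  have nL : ∀ t' ∈ TL, NS ρ t' y := fun t' h => ns_of_gE hg (List.mem_append_left _ h)
  have nM : ∀ t' ∈ TM, NS ρ (mapT (fun v => sh v s t) t') y := fun t' h =>
    ns_of_gE hg (List.mem_append_right _ (List.mem_append_left _ (List.mem_map.2 ⟨t', h, rfl⟩)))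
  have nS : ∀ t' ∈ TS a' b', NS ρ t' y := fun t' h =>
    ns_of_gE hg (List.mem_append_right _ (List.mem_append_right _ h))
  have s1 : (TL.map (bsum f)).sum = 0 := by
    refine List.sum_eq_zero fun z hz => ?_
    obtain ⟨t', ht', rfl⟩ := List.mem_map.1 hz
    exact bsum_zero (posL t' ht') (nL t' ht') fun h => hy ⟨t', ht', openTri_subset _ _ h⟩
  have s2 : 1 ≤ (TM.map (bsum f')).sum := by
    have h3 : bsum f' tt ≤ (TM.map (bsum f')).sum := by
      refine List.single_le_sum ?_ _ (List.mem_map.2 ⟨tt, htt, rfl⟩)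
      intro z hz
      obtain ⟨t', ht', rfl⟩ := List.mem_map.1 hz
      have := bsum_nonneg (posM t' ht').le (nM t' ht')
      rw [bsum_mapT] at this
      exact this
    have h4 := bsum_one (nM tt htt) hyo
    rw [bsum_mapT] at h4
    rw [← h4]
    exact h3
  have s3 := sum_TS_le (ρ := ρ) h1 h2 nS hc hd2 hd3
  rw [hsM f' hfa'] at s2
  rw [hsL f hfa] at s1
  have : (1 : ℤ) ≤ 0 := by
    rw [← s1]
    exact s2.trans s3
  norm_num at this

end Pool.Agent.Lib.MP_6ff0c5_lc.C.LP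
end

section

/-!
The kinds of the end points of the walls: no wall of the pattern is the reverse of another one, and every present wall has present
end points.

Plan. The kinds of `wu w i j`, `wv w i j` are those of the table `wallTab`; `decide` on the table: for `w, w' < 20` the pairs
(kind of `u`, kind of `v`) and (kind of `v'`, kind of `u'`) are different. `WP → Pres` of the end points: `interval_cases w`, then
`simp [Pres, wu, wv, wallTab, sh]`, `omega`. `exists_wall`: every present vertex is the first vertex of a present wall (by kinds: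
0: wall 0; 1: wall 3; 2: wall 1 for `i ≤ n1`, wall 16 of the cell `(n1, j)` for `i = n1 + 1`; 3: wall 7 of the cell `(i-1, j)` for
`i ≥ 2`, wall 12 for `i = 1`; 4: wall 2 for `j ≤ n2`, wall 18 of the cell `(i, n2)` for `j = n2+1`; 5: wall 8 of the cell `(i, j-1)`
for `j ≥ 2`, wall 14 for `j = 1`; 6: 4; 7: 5; 8: 9; 9: 10; 10: 11; 11: 6; 12: wall 17 of `(n1, j)` resp. wall 19 of `(i, n2)`;
13: wall 13 of `(1, j)` resp. wall 15 of `(i, 1)`).
-/

set_option autoImplicit false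

namespace Pool.Agent.Lib.MP_6ff0c5_lc.C

open Pool.Agent.Lib.MP_6ff0c5_lc.K

/-- the kinds of the end points of a wall -/
private def wk (w : ℕ) : ℕ × ℕ :=
  ((wallTab.getD w ((0, 0, 0), (0, 0, 0))).1.1, (wallTab.getD w ((0, 0, 0), (0, 0, 0))).2.1)

private theorem wk_no_rev : ∀ w < 20, ∀ w' < 20, ¬ ((wk w').1 = (wk w).2 ∧ (wk w').2 = (wk w).1) := by
  decide +kernel

theorem wall_no_rev {w w' : ℕ} {i j i' j' : ℤ} (h : w < 20) (h' : w' < 20) :
    ¬ (wu w' i' j' = wv w i j ∧ wv w' i' j' = wu w i j) := by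
  rintro ⟨h1, h2⟩
  have e1 : (wk w').1 = (wk w).2 := by
    have h3 : (wu w' i' j').1 = (wv w i j).1 := by rw [h1]
    exact h3
  have e2 : (wk w').2 = (wk w).1 := by
    have h3 : (wv w' i' j').1 = (wu w i j).1 := by rw [h2]
    exact h3
  exact wk_no_rev w h w' h' ⟨e1, e2⟩

theorem pres_wuv {n1 n2 w : ℕ} {i j : ℤ} (h : WP n1 n2 w i j) : Pres n1 n2 (wu w i j) ∧ Pres n1 n2 (wv w i j) := by
  obtain ⟨hw, h1, h2, h3, h4, h5, h6, h7, h8⟩ := h
  interval_cases w <;> simp only [Pres, wu, wv, wallTab, sh, List.getD_cons_zero, List.getD_cons_succ] <;>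
    norm_num at h5 h6 h7 h8 ⊢ <;> omega

end Pool.Agent.Lib.MP_6ff0c5_lc.C
end

section

/-!
The chain `wallSum` as a sum over a list of walls.

Plan. `wallL a b` is the list of all present walls (pairs of labels); `lsum f (wallL a b) = wallSum f a b` by `sum_flatMap_range`
(C/Tab.lean) and `S`; membership: `(u, v) ∈ wallL a b ↔ ∃ w i j, WP (a+1) (b+1) w i j ∧ u = wu w i j ∧ v = wv w i j` (for the lists
`wallsE, c2, c3, d2, d3`: `wallTab.take 12`, walls 12-13, 14-15, 16-17, 18-19; note `d2` relative to the cell `(a+1, j)`).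
-/

set_option autoImplicit false

namespace Pool.Agent.Lib.MP_6ff0c5_lc.C

open Pool.Agent.Lib.MP_6ff0c5_lc.K

/-- the list of all walls -/
def wallL (a b : ℕ) : List (Vx × Vx) :=
  (List.range (a + 1)).flatMap (fun i : ℕ => (List.range (b + 1)).flatMap fun j : ℕ =>
    wallsE.map (she ((i : ℤ) + 1) ((j : ℤ) + 1))) ++
  ((List.range (b + 1)).flatMap (fun j : ℕ => c2.map (she 1 ((j : ℤ) + 1))) ++
  ((List.range (a + 1)).flatMap (fun i : ℕ => c3.map (she ((i : ℤ) + 1) 1)) ++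
  ((List.range (b + 1)).flatMap (fun j : ℕ => d2.map (she ((a : ℤ) + 1) ((j : ℤ) + 1))) ++
  (List.range (a + 1)).flatMap (fun i : ℕ => d3.map (she ((i : ℤ) + 1) ((b : ℤ) + 1))))))

private theorem wlL_flat (f : Vx → Vx → ℤ) (g : ℕ → List (Vx × Vx)) (k : ℕ) :
    lsum f ((List.range k).flatMap g) = ∑ t ∈ Finset.range k, lsum f (g t) := by
  unfold lsum
  exact sum_flatMap_range g (fun e => f e.1 e.2) k

theorem lsum_wallL (f : Vx → Vx → ℤ) (a b : ℕ) : lsum f (wallL a b) = wallSum f a b := by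
  unfold wallL wallSum dsum S
  rw [lsum_append, lsum_append, lsum_append, lsum_append, wlL_flat, wlL_flat, wlL_flat, wlL_flat,
    wlL_flat]
  have h : ∀ i : ℕ, lsum f ((List.range (b + 1)).flatMap fun j : ℕ =>
      wallsE.map (she ((i : ℤ) + 1) ((j : ℤ) + 1))) =
      ∑ j ∈ Finset.range (b + 1), lsum f (wallsE.map (she ((i : ℤ) + 1) ((j : ℤ) + 1))) :=
    fun i => wlL_flat f _ _
  rw [Finset.sum_congr rfl fun i _ => h i]
  ring

private theorem wlL_tab {o c : ℕ} (h : o + c ≤ 20) (e : Vx × Vx) : e ∈ (wallTab.drop o).take c ↔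
    ∃ w, o ≤ w ∧ w < o + c ∧ wallTab.getD w ((0, 0, 0), (0, 0, 0)) = e := by
  have hl : wallTab.length = 20 := rfl
  rw [List.mem_iff_getElem]
  constructor
  · rintro ⟨n, hn, rfl⟩
    rw [List.length_take, List.length_drop, hl] at hn
    refine ⟨o + n, by omega, by omega, ?_⟩
    rw [List.getElem_take, List.getElem_drop, List.getD_eq_getElem _ _ (by rw [hl]; omega)]
  · rintro ⟨w, h1, h2, rfl⟩
    refine ⟨w - o, ?_, ?_⟩
    · rw [List.length_take, List.length_drop, hl]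
      omega
    · rw [List.getElem_take, List.getElem_drop, List.getD_eq_getElem _ _ (by rw [hl]; omega)]
      congr 1
      omega

private theorem wlL_she (w : ℕ) (i j : ℤ) (u v : Vx) :
    she i j (wallTab.getD w ((0, 0, 0), (0, 0, 0))) = (u, v) ↔ u = wu w i j ∧ v = wv w i j := by
  constructor
  · intro h
    exact ⟨(congrArg Prod.fst h).symm, (congrArg Prod.snd h).symm⟩
  · rintro ⟨rfl, rfl⟩
    rfl

/-- membership in the translate of a part of the table -/
private theorem wlL_map {o c : ℕ} (h : o + c ≤ 20) {T : List (Vx × Vx)}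
    (hT : T = (wallTab.drop o).take c) (i j : ℤ) (u v : Vx) :
    (u, v) ∈ T.map (she i j) ↔ ∃ w, o ≤ w ∧ w < o + c ∧ u = wu w i j ∧ v = wv w i j := by
  rw [hT, List.mem_map]
  constructor
  · rintro ⟨e, he, h1⟩
    obtain ⟨w, h2, h3, rfl⟩ := (wlL_tab h e).1 he
    exact ⟨w, h2, h3, (wlL_she w i j u v).1 h1⟩
  · rintro ⟨w, h2, h3, h1⟩
    exact ⟨_, (wlL_tab h _).2 ⟨w, h2, h3, rfl⟩, (wlL_she w i j u v).2 h1⟩

private theorem wlL_nat {i : ℤ} {n : ℕ} (h1 : 1 ≤ i) (h2 : i ≤ ((n + 1 : ℕ) : ℤ)) :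
    ∃ t : ℕ, t < n + 1 ∧ (t : ℤ) + 1 = i := by
  push_cast at h2
  refine ⟨(i - 1).toNat, ?_, ?_⟩
  · have : ((i - 1).toNat : ℤ) = i - 1 := Int.toNat_of_nonneg (by linarith)
    have h3 : ((i - 1).toNat : ℤ) < (n : ℤ) + 1 := by rw [this]; linarith
    exact_mod_cast h3
  · have : ((i - 1).toNat : ℤ) = i - 1 := Int.toNat_of_nonneg (by linarith)
    rw [this]
    ring


theorem mem_wallL {a b : ℕ} {u v : Vx} : (u, v) ∈ wallL a b ↔
    ∃ w i j, WP (a + 1) (b + 1) w i j ∧ u = wu w i j ∧ v = wv w i j := by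
  unfold wallL
  rw [List.mem_append, List.mem_append, List.mem_append, List.mem_append, List.mem_flatMap,
    List.mem_flatMap, List.mem_flatMap, List.mem_flatMap, List.mem_flatMap]
  simp only [List.mem_range, List.mem_flatMap]
  constructor
  · rintro (⟨i, hi, j, hj, h⟩ | ⟨j, hj, h⟩ | ⟨i, hi, h⟩ | ⟨j, hj, h⟩ | ⟨i, hi, h⟩)
    · rw [wlL_map (o := 0) (c := 12) (T := wallsE) (by norm_num) rfl] at h
      obtain ⟨w, -, h1, h2⟩ := h
      refine ⟨w, _, _, ⟨by omega, by omega, by push_cast; omega, by omega, by push_cast; omega,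
        ?_, ?_, ?_, ?_⟩, h2⟩ <;> (intro h3; omega)
    · rw [wlL_map (o := 12) (c := 2) (T := c2) (by norm_num) rfl] at h
      obtain ⟨w, h0, h1, h2⟩ := h
      refine ⟨w, _, _, ⟨by omega, le_refl _, by push_cast; omega, by omega, by push_cast; omega,
        fun _ => rfl, ?_, ?_, ?_⟩, h2⟩ <;> (intro h3; omega)
    · rw [wlL_map (o := 14) (c := 2) (T := c3) (by norm_num) rfl] at h
      obtain ⟨w, h0, h1, h2⟩ := h
      refine ⟨w, _, _, ⟨by omega, by omega, by push_cast; omega, le_refl _, by push_cast; omega,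
        ?_, fun _ => rfl, ?_, ?_⟩, h2⟩ <;> (intro h3; omega)
    · rw [wlL_map (o := 16) (c := 2) (T := d2) (by norm_num) rfl] at h
      obtain ⟨w, h0, h1, h2⟩ := h
      refine ⟨w, _, _, ⟨by omega, by omega, by push_cast; omega, by omega, by push_cast; omega,
        ?_, ?_, fun _ => by push_cast; ring, ?_⟩, h2⟩ <;> (intro h3; omega)
    · rw [wlL_map (o := 18) (c := 2) (T := d3) (by norm_num) rfl] at h
      obtain ⟨w, h0, h1, h2⟩ := h
      refine ⟨w, _, _, ⟨by omega, by omega, by push_cast; omega, by omega, by push_cast; omega,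
        ?_, ?_, ?_, fun _ => by push_cast; ring⟩, h2⟩ <;> (intro h3; omega)
  · rintro ⟨w, i, j, ⟨hw, hi1, hi2, hj1, hj2, e1, e2, e3, e4⟩, h⟩
    obtain ⟨s, hs, hsi⟩ := wlL_nat hi1 hi2
    obtain ⟨t, ht, htj⟩ := wlL_nat hj1 hj2
    have hcase : w < 12 ∨ (12 ≤ w ∧ w < 14) ∨ (14 ≤ w ∧ w < 16) ∨ (16 ≤ w ∧ w < 18) ∨
        (18 ≤ w ∧ w < 20) := by omega
    rcases hcase with hc | hc | hc | hc | hc
    · left
      refine ⟨s, hs, t, ht, ?_⟩
      rw [wlL_map (o := 0) (c := 12) (T := wallsE) (by norm_num) rfl, hsi, htj]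
      exact ⟨w, by omega, by omega, h⟩
    · right; left
      refine ⟨t, ht, ?_⟩
      rw [wlL_map (o := 12) (c := 2) (T := c2) (by norm_num) rfl, htj]
      have hi : i = 1 := e1 (by omega)
      rw [hi] at h
      exact ⟨w, by omega, by omega, h⟩
    · right; right; left
      refine ⟨s, hs, ?_⟩
      rw [wlL_map (o := 14) (c := 2) (T := c3) (by norm_num) rfl, hsi]
      have hj : j = 1 := e2 (by omega)
      rw [hj] at h
      exact ⟨w, by omega, by omega, h⟩
    · right; right; right; left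
      refine ⟨t, ht, ?_⟩
      rw [wlL_map (o := 16) (c := 2) (T := d2) (by norm_num) rfl, htj]
      have hi : i = (a : ℤ) + 1 := by
        have := e3 (by omega)
        push_cast at this
        exact this
      rw [hi] at h
      exact ⟨w, by omega, by omega, h⟩
    · right; right; right; right
      refine ⟨s, hs, ?_⟩
      rw [wlL_map (o := 18) (c := 2) (T := d3) (by norm_num) rfl, hsi]
      have hj : j = (b : ℤ) + 1 := by
        have := e4 (by omega)
        push_cast at this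
        exact this
      rw [hj] at h
      exact ⟨w, by omega, by omega, h⟩

end Pool.Agent.Lib.MP_6ff0c5_lc.C
end

section

/-!
The region of a polygon given by lists is the union of the closed triangles.

Plan. `D.sdata.data.region_eq` (K/Tool.lean) gives the union over the numbered triangles; `ClosedTri` of the numbered triangle
with `realPos` is `ClosedTri r t` (`realPos_num`, all vertices of `t` are in the lists by `D.memT`).
-/

set_option autoImplicit false

namespace Pool.Agent.Lib.MP_6ff0c5_lc.C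

open Pool.Agent.Lib.MP_6ff0c5_lc.K
open Filter Topology

theorem LData.region {β : Type} {outer : List Vx} {hs : List β} {hcyc : β → List Vx} {pos : Vx → ℤ × ℤ}
    {st far : List Vx} {r : Vx → Pt} {T : List (Vx × Vx × Vx)} {fill : β → List (Vx × Vx × Vx)}
    {X : List (Vx × Vx × Vx)} {Δ : Vx × Vx × Vx} (D : LData outer hs hcyc pos st far r T fill X Δ) (x : Pt) :
    x ∈ (symPoly outer (hs.map hcyc) pos).region ↔ ∃ t ∈ T, x ∈ ClosedTri r t := by
  have key : ∀ t ∈ T, ClosedTri (realPos outer (hs.map hcyc) st far r)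
      (mapT (num (outer ++ (hs.map hcyc).flatten ++ st ++ far)) t) = ClosedTri r t := by
    intro t ht
    have hv : ∀ y, IsVert t y → realPos outer (hs.map hcyc) st far r
        (num (outer ++ (hs.map hcyc).flatten ++ st ++ far) y) = r y :=
      fun y hy => realPos_num (List.mem_append_left _ (D.memT t ht y hy))
    unfold ClosedTri mapT
    simp only [hv t.1 (Or.inl rfl), hv t.2.1 (Or.inr (Or.inl rfl)), hv t.2.2 (Or.inr (Or.inr rfl))]
  rw [D.sdata.data.region_eq, Set.mem_iUnion]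
  constructor
  · rintro ⟨i, hi⟩
    refine ⟨T.get i, List.get_mem _ _, ?_⟩
    rw [← key _ (List.get_mem _ _)]
    exact hi
  · rintro ⟨t, ht, hx⟩
    obtain ⟨i, rfl⟩ := List.mem_iff_get.1 ht
    refine ⟨i, ?_⟩
    rw [key _ (List.get_mem _ _)]
    exact hx

end Pool.Agent.Lib.MP_6ff0c5_lc.C
end

section

/-!
MP_6ff0c5_lc: the reduction of systems to LQ instances is computable in polynomial time.
-/

set_option autoImplicit false
set_option linter.unusedSectionVars false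

namespace Pool.Agent.Lib.MP_6ff0c5_lc.PTA

open Pool.Agent.Lib.MP_20e1d9_lc (PT PT.of_eq PT.of_word PT.size)
open Pool.Agent.Lib.MP_20e1d9_lc.PL
open Pool.Agent.Lib.PLib
open Pool.Agent.Lib.MP_9c2350_lc
open Pool.Agent.Lib.MP_6ff0c5_lc.LQ

variable {α : Type} [Enc α]

@[fun_prop]
theorem splitLPT {l : α → List (ℤ × ℕ)} (hl : PT l) : PT (fun x => splitL (l x)) := by
  unfold splitL
  fun_prop

@[fun_prop]
theorem mulLPT {b i j k : α → ℕ} (hb : PT b) (hi : PT i) (hj : PT j) (hk : PT k) :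
    PT (fun x => mulL (b x) (i x) (j x) (k x)) := by
  unfold mulL
  fun_prop

@[fun_prop]
theorem mulSPT {b : α → ℕ} (hb : PT b) : PT (fun x => mulS (b x)) := by
  unfold mulS
  fun_prop

/-- the linear equations of the positive system -/
theorem posLins : PT fun x : ℕ × List Form × List (ℕ × ℕ × ℕ) => (Sys0.pos ⟨x.1, x.2.1, x.2.2⟩).lins := by
  unfold Sys0.pos
  fun_prop

theorem posSqs : PT fun x : ℕ × List Form × List (ℕ × ℕ × ℕ) => (Sys0.pos ⟨x.1, x.2.1, x.2.2⟩).sqs := by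
  unfold Sys0.pos
  fun_prop

theorem posN : PT fun x : ℕ × List Form × List (ℕ × ℕ × ℕ) => (Sys0.pos ⟨x.1, x.2.1, x.2.2⟩).n := by
  unfold Sys0.pos
  fun_prop

theorem foldl_not (k : ℕ) : (List.range k).foldl (fun b _ => !b) true = decide (k % 2 = 0) := by
  induction k with
  | zero => rfl
  | succ k ih =>
    rw [List.range_succ, List.foldl_append, ih]
    simp only [List.foldl_cons, List.foldl_nil]
    by_cases h : k % 2 = 0
    · have h2 : ¬ (k + 1) % 2 = 0 := by omega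
      rw [decide_eq_true h, decide_eq_false h2]
      rfl
    · have h2 : (k + 1) % 2 = 0 := by omega
      rw [decide_eq_false h, decide_eq_true h2]
      rfl

@[fun_prop]
theorem evenPT {k : α → ℕ} (hk : PT k) : PT (fun x => decide (k x % 2 = 0)) := by
  have h : PT fun x => (List.range (k x)).foldl (fun (b : Bool) _ => !b) true :=
    foldlF (step := fun _ (b : Bool) (_ : ℕ) => !b) (by fun_prop) (by fun_prop) (by fun_prop)
  exact h.of_eq fun x => foldl_not _

section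
variable {r s m : α → ℕ} (hr : PT r) (hs : PT s) (hm : PT m)
include hr hs hm

theorem PG : PT (fun x => Par.G ⟨r x, s x, m x⟩) := by
  unfold Par.G
  fun_prop

theorem Pvh : PT (fun x => Par.vh ⟨r x, s x, m x⟩) := by
  have := PG hr hs hm
  unfold Par.vh
  fun_prop

theorem Pvh' : PT (fun x => Par.vh' ⟨r x, s x, m x⟩) := by
  have := PG hr hs hm
  unfold Par.vh'
  fun_prop

theorem PvD {k : α → ℕ} (hk : PT k) : PT (fun x => Par.vD ⟨r x, s x, m x⟩ (k x)) := by
  have := PG hr hs hm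
  unfold Par.vD
  fun_prop

theorem PvT {k : α → ℕ} (hk : PT k) : PT (fun x => Par.vT ⟨r x, s x, m x⟩ (k x)) := by
  have := PG hr hs hm
  unfold Par.vT
  fun_prop

theorem PvU {i p : α → ℕ} (hi : PT i) (hp : PT p) : PT (fun x => Par.vU ⟨r x, s x, m x⟩ (i x) (p x)) := by
  have := PG hr hs hm
  unfold Par.vU
  fun_prop

theorem Pgate {g : α → ℕ} (hg : PT g) : PT (fun x => Par.gate ⟨r x, s x, m x⟩ (g x)) := by
  have h := evenPT (k := fun x => g x - (r x + s x)) (by fun_prop)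
  unfold Par.gate
  fun_prop

theorem Pfbase : PT (fun x => Par.fbase ⟨r x, s x, m x⟩) := by
  have h1 := Pvh hr hs hm
  have h2 := Pvh' hr hs hm
  have h3 := PvD hr hs hm (k := fun _ => 0) (by fun_prop)
  have h4 := PvD hr hs hm hr
  have h5 := PvT hr hs hm (k := fun _ => 0) (by fun_prop)
  unfold Par.fbase
  fun_prop

theorem PfD {k : α → ℕ} (hk : PT k) : PT (fun x => Par.fD ⟨r x, s x, m x⟩ (k x)) := by
  have h1 := Pvh hr hs hm
  have h3 := PvD hr hs hm hk
  have h4 := PvD hr hs hm (k := fun x => k x + 1) (by fun_prop)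
  unfold Par.fD
  fun_prop

theorem PfT {k : α → ℕ} (hk : PT k) : PT (fun x => Par.fT ⟨r x, s x, m x⟩ (k x)) := by
  have h1 := Pvh hr hs hm
  have h3 := PvT hr hs hm hk
  have h4 := PvT hr hs hm (k := fun x => k x + 1) (by fun_prop)
  unfold Par.fT
  fun_prop

theorem PfS {g i j : α → ℕ} (hg : PT g) (hi : PT i) (hj : PT j) :
    PT (fun x => Par.fS ⟨r x, s x, m x⟩ (g x) (i x) (j x)) := by
  have h1 := PvU hr hs hm (p := fun _ => 0) hi (by fun_prop)
  have h2 := PvU hr hs hm (p := fun _ => 1) hi (by fun_prop)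
  have h3 := PvU hr hs hm (p := fun _ => 0) hj (by fun_prop)
  have h4 := PvD hr hs hm hr
  have h5 := PvT hr hs hm hs
  unfold Par.fS
  fun_prop

end

section
variable {r s m : α → ℕ} (hr : PT r) (hs : PT s) (hm : PT m)
include hr hs hm

theorem PfC {i : α → ℕ} (hi : PT i) : PT (fun x => Par.fC ⟨r x, s x, m x⟩ (i x)) := by
  unfold Par.fC
  refine flatMap (f := fun (x : α) (p : ℕ) =>
    ([(0, [(1, Par.vU ⟨r x, s x, m x⟩ (i x) p), (-1, Par.vU ⟨r x, s x, m x⟩ (i x) (p + 1)),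
      (1, Par.vT ⟨r x, s x, m x⟩ (s x))]),
      (0, [(-1, Par.vU ⟨r x, s x, m x⟩ (i x) p), (1, Par.vU ⟨r x, s x, m x⟩ (i x) (p + 1)),
      (1, Par.vT ⟨r x, s x, m x⟩ (s x))])] : List Form)) (by fun_prop) ?_
  have h1 := PvU (α := α × ℕ) (r := fun y => r y.1) (s := fun y => s y.1) (m := fun y => m y.1)
    (i := fun y => i y.1) (p := fun y => y.2) (by fun_prop) (by fun_prop) (by fun_prop) (by fun_prop) (by fun_prop)
  have h2 := PvU (α := α × ℕ) (r := fun y => r y.1) (s := fun y => s y.1) (m := fun y => m y.1)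
    (i := fun y => i y.1) (p := fun y => y.2 + 1) (by fun_prop) (by fun_prop) (by fun_prop) (by fun_prop) (by fun_prop)
  have h3 := PvT (α := α × ℕ) (r := fun y => r y.1) (s := fun y => s y.1) (m := fun y => m y.1)
    (k := fun y => s y.1) (by fun_prop) (by fun_prop) (by fun_prop) (by fun_prop)
  fun_prop

theorem PfL {f : α → Form} (hf : PT f) : PT (fun x => Par.fL ⟨r x, s x, m x⟩ (f x)) := by
  have h4 := PvD hr hs hm hr
  have h5 := PvT hr hs hm hs
  have h1 := PvU (α := α × ℕ × (ℤ × ℕ)) (r := fun y => r y.1) (s := fun y => s y.1) (m := fun y => m y.1)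
    (i := fun y => y.2.2.2) (p := fun y => y.2.1) (by fun_prop) (by fun_prop) (by fun_prop) (by fun_prop) (by fun_prop)
  have m1 : PT fun x => (f x).2.mapIdx fun p e => (e.1, Par.vU ⟨r x, s x, m x⟩ e.2 p) := by
    refine mapIdxPT (f := fun (x : α) (p : ℕ) (e : ℤ × ℕ) => (e.1, Par.vU ⟨r x, s x, m x⟩ e.2 p)) (by fun_prop) ?_
    fun_prop
  have m2 : PT fun x => (f x).2.mapIdx fun p e => (-e.1, Par.vU ⟨r x, s x, m x⟩ e.2 p) := by
    refine mapIdxPT (f := fun (x : α) (p : ℕ) (e : ℤ × ℕ) => (-e.1, Par.vU ⟨r x, s x, m x⟩ e.2 p)) (by fun_prop) ?_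
    fun_prop
  unfold Par.fL
  fun_prop

end

/-- A system as a tuple. -/
abbrev TSys := ℕ × List Form × List (ℕ × ℕ)

def toSys (x : TSys) : Sys := ⟨x.1, x.2.1, x.2.2⟩

/-- the instance as a tuple -/
def instT (y : (ℕ × ℕ × ℕ) × TSys) : List Bool × ℕ × List Form :=
  let I := Par.inst ⟨y.1.1, y.1.2.1, y.1.2.2⟩ (toSys y.2)
  (I.gates, I.nv, I.forms)

theorem instTPT : PT instT := by
  have g1 : PT fun y : (ℕ × ℕ × ℕ) × TSys => y.1.1 := by fun_prop
  have g2 : PT fun y : (ℕ × ℕ × ℕ) × TSys => y.1.2.1 := by fun_prop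
  have g3 : PT fun y : (ℕ × ℕ × ℕ) × TSys => y.1.2.2 := by fun_prop
  have hG := PG g1 g2 g3
  have k1 : PT fun z : ((ℕ × ℕ × ℕ) × TSys) × ℕ => Par.gate ⟨z.1.1.1, z.1.1.2.1, z.1.1.2.2⟩ z.2 :=
    Pgate (by fun_prop) (by fun_prop) (by fun_prop) (by fun_prop)
  have k2 : PT fun z : ((ℕ × ℕ × ℕ) × TSys) × ℕ => Par.fD ⟨z.1.1.1, z.1.1.2.1, z.1.1.2.2⟩ z.2 :=
    PfD (by fun_prop) (by fun_prop) (by fun_prop) (by fun_prop)
  have k3 : PT fun z : ((ℕ × ℕ × ℕ) × TSys) × ℕ => Par.fT ⟨z.1.1.1, z.1.1.2.1, z.1.1.2.2⟩ z.2 :=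
    PfT (by fun_prop) (by fun_prop) (by fun_prop) (by fun_prop)
  have k4 : PT fun z : ((ℕ × ℕ × ℕ) × TSys) × ℕ => Par.fC ⟨z.1.1.1, z.1.1.2.1, z.1.1.2.2⟩ z.2 :=
    PfC (by fun_prop) (by fun_prop) (by fun_prop) (by fun_prop)
  have k5 : PT fun z : ((ℕ × ℕ × ℕ) × TSys) × Form => Par.fL ⟨z.1.1.1, z.1.1.2.1, z.1.1.2.2⟩ z.2 :=
    PfL (by fun_prop) (by fun_prop) (by fun_prop) (by fun_prop)
  have k6 : PT fun z : ((ℕ × ℕ × ℕ) × TSys) × ((ℕ × ℕ) × ℕ) =>
      Par.fS ⟨z.1.1.1, z.1.1.2.1, z.1.1.2.2⟩ (z.1.1.1 + z.1.1.2.1 + 2 * z.2.2) z.2.1.1 z.2.1.2 :=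
    PfS (by fun_prop) (by fun_prop) (by fun_prop) (by fun_prop) (by fun_prop) (by fun_prop)
  have hb := Pfbase g1 g2 g3
  have a1 : PT fun y : (ℕ × ℕ × ℕ) × TSys =>
      (List.range (Par.G ⟨y.1.1, y.1.2.1, y.1.2.2⟩)).map (Par.gate ⟨y.1.1, y.1.2.1, y.1.2.2⟩) :=
    map (f := fun (y : (ℕ × ℕ × ℕ) × TSys) g => Par.gate ⟨y.1.1, y.1.2.1, y.1.2.2⟩ g) (by fun_prop) k1
  have a2 : PT fun y : (ℕ × ℕ × ℕ) × TSys => (List.range y.1.1).flatMap (Par.fD ⟨y.1.1, y.1.2.1, y.1.2.2⟩) :=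
    flatMap (f := fun (y : (ℕ × ℕ × ℕ) × TSys) g => Par.fD ⟨y.1.1, y.1.2.1, y.1.2.2⟩ g) (by fun_prop) k2
  have a3 : PT fun y : (ℕ × ℕ × ℕ) × TSys => (List.range y.1.2.1).flatMap (Par.fT ⟨y.1.1, y.1.2.1, y.1.2.2⟩) :=
    flatMap (f := fun (y : (ℕ × ℕ × ℕ) × TSys) g => Par.fT ⟨y.1.1, y.1.2.1, y.1.2.2⟩ g) (by fun_prop) k3
  have a4 : PT fun y : (ℕ × ℕ × ℕ) × TSys => (List.range y.2.1).flatMap (Par.fC ⟨y.1.1, y.1.2.1, y.1.2.2⟩) :=
    flatMap (f := fun (y : (ℕ × ℕ × ℕ) × TSys) g => Par.fC ⟨y.1.1, y.1.2.1, y.1.2.2⟩ g) (by fun_prop) k4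
  have a5 : PT fun y : (ℕ × ℕ × ℕ) × TSys => y.2.2.1.flatMap (Par.fL ⟨y.1.1, y.1.2.1, y.1.2.2⟩) :=
    flatMap (f := fun (y : (ℕ × ℕ × ℕ) × TSys) g => Par.fL ⟨y.1.1, y.1.2.1, y.1.2.2⟩ g) (by fun_prop) k5
  have a6 : PT fun y : (ℕ × ℕ × ℕ) × TSys => y.2.2.2.zipIdx.flatMap fun q =>
      Par.fS ⟨y.1.1, y.1.2.1, y.1.2.2⟩ (y.1.1 + y.1.2.1 + 2 * q.2) q.1.1 q.1.2 :=
    flatMap (f := fun (y : (ℕ × ℕ × ℕ) × TSys) (q : (ℕ × ℕ) × ℕ) =>
      Par.fS ⟨y.1.1, y.1.2.1, y.1.2.2⟩ (y.1.1 + y.1.2.1 + 2 * q.2) q.1.1 q.1.2) (by fun_prop) k6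
  have h : PT fun y : (ℕ × ℕ × ℕ) × TSys =>
      ((List.range (Par.G ⟨y.1.1, y.1.2.1, y.1.2.2⟩)).map (Par.gate ⟨y.1.1, y.1.2.1, y.1.2.2⟩),
        y.1.1 + y.1.2.1 + 4 + 8 * y.2.1,
        Par.fbase ⟨y.1.1, y.1.2.1, y.1.2.2⟩ ++ ((List.range y.1.1).flatMap (Par.fD ⟨y.1.1, y.1.2.1, y.1.2.2⟩) ++
          ((List.range y.1.2.1).flatMap (Par.fT ⟨y.1.1, y.1.2.1, y.1.2.2⟩) ++
          ((List.range y.2.1).flatMap (Par.fC ⟨y.1.1, y.1.2.1, y.1.2.2⟩) ++
          (y.2.2.1.flatMap (Par.fL ⟨y.1.1, y.1.2.1, y.1.2.2⟩) ++ y.2.2.2.zipIdx.flatMap fun q =>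
      Par.fS ⟨y.1.1, y.1.2.1, y.1.2.2⟩ (y.1.1 + y.1.2.1 + 2 * q.2) q.1.1 q.1.2))))) := by
    exact pair a1 (pair (by fun_prop) (append hb (append a2 (append a3 (append a4 (append a5 a6))))))
  exact h

/-- A system of linear equations and multiplications as a tuple. -/
abbrev TSys0 := ℕ × List Form × List (ℕ × ℕ × ℕ)

def toSys0 (x : TSys0) : Sys0 := ⟨x.1, x.2.1, x.2.2⟩

/-- the reduction on tuples -/
def redT (x : TSys0) : (List Bool × ℕ × List Form) × ℕ :=
  let R := redA (toSys0 x)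
  ((R.1.gates, R.1.nv, R.1.forms), R.2)

theorem redT_PT : PT redT := by
  have p1 := posN
  have p2 := posLins
  have p3 := posSqs
  obtain ⟨N0, hN0⟩ : ∃ N0 : TSys0 → ℕ, N0 = fun x => (toSys0 x).gN := ⟨_, rfl⟩
  have q1 : PT N0 := by
    rw [hN0]
    unfold Sys0.gN Gap.gapN toSys0
    fun_prop
  obtain ⟨N1, hN1⟩ : ∃ N1 : TSys0 → ℕ, N1 = fun x => (toSys0 x).pos.gN := ⟨_, rfl⟩
  have q2 : PT N1 := by
    rw [hN1]
    unfold Sys.gN Gap.gapN toSys0
    fun_prop
  have q3 : PT fun x : TSys0 => (toSys0 x).pos.sqs.length := by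
    unfold toSys0
    fun_prop
  have q4 : PT fun x : TSys0 => (((N1 x + (N0 x + 4) + 3, 2 * N1 x + (N0 x + 4) + 13, (toSys0 x).pos.sqs.length),
      ((toSys0 x).pos.n, (toSys0 x).pos.lins, (toSys0 x).pos.sqs)) : (ℕ × ℕ × ℕ) × TSys) := by
    refine pair (pair (by fun_prop) (pair (by fun_prop) q3)) (pair p1 (pair p2 p3))
  have q5 := instTPT.comp q4
  have q6 : PT fun x : TSys0 => (N1 x + (N0 x + 4) + 3) + (2 * N1 x + (N0 x + 4) + 13) + 10 := by fun_prop
  refine (pair q5 q6).of_eq fun x => ?_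
  rw [hN0, hN1]
  rfl

end Pool.Agent.Lib.MP_6ff0c5_lc.PTA
end

section

/-!
MP_6ff0c5_lc: the existential theory of the reals reduces in polynomial time to LQ instances.
-/

set_option autoImplicit false
set_option linter.unusedSectionVars false

namespace Pool.Agent.Lib.MP_6ff0c5_lc.PTA

open Pool.Agent.Lib.MP_20e1d9_lc (PT PT.of_eq PT.of_word PT.size)
open Pool.Agent.Lib.MP_20e1d9_lc.PL
open Pool.Agent.Lib.PLib
open Pool.Agent.Lib.MP_9c2350_lc
open Pool.Agent.Lib.MP_6ff0c5_lc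
open Pool.Agent.Lib.MP_6ff0c5_lc.LQ
open N487b59b3 (bitEncode delimit)

variable {α : Type} [Enc α]

/-! ### The machine -/

@[fun_prop]
theorem canonPT {w : α → List Bool} (hw : PT w) : PT (fun x => canon (w x)) := by
  unfold canon
  fun_prop

@[fun_prop]
theorem kindOfPT {w : α → List Bool} (hw : PT w) : PT (fun x => kindOf (w x)) := by
  unfold kindOf
  exact idxOf (l := fun _ => kinds) (by fun_prop) hw

theorem kindOf_le (w : List Bool) : kindOf w ≤ 10 := by
  have : kindOf w ≤ kinds.length := List.idxOf_le_length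
  exact this

theorem stepPT : PT fun y : St × (RTok × ℕ) => step y.1 y.2 := by
  have e1 : PT fun y : St × (RTok × ℕ) => decide ((y.1.2.1.getD 0 (false, 0)).1 = decide (8 ≤ kindOf y.2.1.1)) := by
    fun_prop
  have e2 : PT fun y : St × (RTok × ℕ) => decide ((y.1.2.1.getD 1 (false, 0)).1 = decide (8 ≤ kindOf y.2.1.1)) := by
    fun_prop
  unfold step
  fun_prop

theorem sz_step_le (s : St) (q : RTok × ℕ) : sz (step s q) ≤ sz s + (2 * sz q + 80) := by
  obtain ⟨v, st, R⟩ := s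
  obtain ⟨⟨w1, w2⟩, p⟩ := q
  have hk := kindOf_le w1
  have hb : ∀ b : Bool, sz b ≤ 3 := sz_bool
  have hv := sz_pos v
  have hn : sz ([] : List Bool) = 1 := rfl
  have h0 : sz (0 : ℕ) = 1 := rfl
  have hkz : sz (kindOf w1) ≤ 21 := by rw [sz_nat]; omega
  have h7 : sz (7 : ℕ) = 15 := by rw [sz_nat]
  have hw1 := sz_pos w1
  unfold step
  simp only
  split_ifs
  · rw [sz_pair, sz_pair, sz_cons, sz_cons, sz_pair, sz_pair, sz_pair, sz_pair, sz_pair, sz_pair, sz_pair, sz_pair,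
      sz_pair, h0]
    have := hb (v && canon w2)
    have := hb false
    omega
  · rw [sz_pair, sz_pair, sz_cons, sz_cons, sz_pair, sz_pair, sz_pair, sz_pair, sz_pair, sz_pair, sz_pair, sz_pair,
      sz_pair, h0]
    have := hb (v && decide (w2 = []))
    have := hb false
    omega
  · have hst : sz (st.drop 1) + sz (st.getD 0 (false, 0)).2 ≤ sz st + 1 := by
      cases st with
      | nil => simp [h0]
      | cons a st =>
        rw [List.drop_one, List.tail_cons, List.getD_cons_zero, sz_cons]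
        obtain ⟨a1, a2⟩ := a
        rw [sz_pair]
        simp only
        omega
    rw [sz_pair, sz_pair, sz_cons, sz_cons, sz_pair, sz_pair, sz_pair, sz_pair, sz_pair, sz_pair, sz_pair, sz_pair,
      sz_pair, h0, h7, hn]
    have := hb (v && (decide (w2 = []) && (st.getD 0 (false, 0)).1))
    have := hb true
    omega
  · have hst : sz (st.drop 2) + (sz (st.getD 1 (false, 0)).2 + sz (st.getD 0 (false, 0)).2) ≤ sz st + 2 := by
      match st with
      | [] => simp [h0]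
      | [(a1, a2)] =>
        have e1 : List.drop 2 [(a1, a2)] = [] := rfl
        have e2 : ([(a1, a2)] : List (Bool × ℕ)).getD 1 (false, 0) = (false, 0) := rfl
        have e3 : ([(a1, a2)] : List (Bool × ℕ)).getD 0 (false, 0) = (a1, a2) := rfl
        rw [e1, e2, e3, sz_cons, sz_pair, h0]
        simp only
        have : sz ([] : List (Bool × ℕ)) = 1 := rfl
        omega
      | (a1, a2) :: (b1, b2) :: st =>
        have e1 : List.drop 2 ((a1, a2) :: (b1, b2) :: st) = st := rfl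
        have e2 : ((a1, a2) :: (b1, b2) :: st : List (Bool × ℕ)).getD 1 (false, 0) = (b1, b2) := rfl
        have e3 : ((a1, a2) :: (b1, b2) :: st : List (Bool × ℕ)).getD 0 (false, 0) = (a1, a2) := rfl
        rw [e1, e2, e3, sz_cons, sz_cons, sz_pair, sz_pair]
        simp only
        omega
    rw [sz_pair, sz_pair, sz_cons, sz_cons, sz_pair, sz_pair, sz_pair, sz_pair, sz_pair, sz_pair, sz_pair, sz_pair,
      sz_pair, hn]
    generalize (v && (decide (w2 = []) && (decide (kindOf w1 ≤ 9) && (decide (2 ≤ st.length) &&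
      (decide ((st.getD 0 (false, 0)).1 = decide (8 ≤ kindOf w1)) &&
        decide ((st.getD 1 (false, 0)).1 = decide (8 ≤ kindOf w1))))))) = c
    have := hb c
    have := hb (decide (5 ≤ kindOf w1))
    omega

theorem runPT {l : α → List RTok} (hl : PT l) : PT (fun x => run (true, [], []) (l x) 0) := by
  have hz : PT fun x => (l x).zip (List.range (l x).length).reverse := by fun_prop
  obtain ⟨q, hq, Hq⟩ := hz.size
  have h : PT fun x => ((l x).zip (List.range (l x).length).reverse).foldl step (true, [], []) := by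
    refine foldlA (step := fun _ s b => step s b) (q := fun n => 2 * q n + 80) hz (by fun_prop) ?_
      (((PB.const 2).mul hq).add (PB.const 80)) ?_
    · exact stepPT.comp (g := fun y : α × St × (RTok × ℕ) => (y.2.1, y.2.2)) (by fun_prop)
    · intro x s b hb
      have h1 := sz_step_le s b
      have h2 := (sz_le_of_mem hb).le.trans (Hq x)
      show sz (step s b) ≤ sz s + (2 * q (sz x) + 80)
      omega
  exact h.of_eq fun x => (run_eq_foldl _ _).symm

@[fun_prop]
theorem acceptsPT {l : α → List RTok} (hl : PT l) : PT (fun x => accepts (l x)) := by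
  have h := runPT hl
  unfold accepts
  have h2 : PT fun x => decide ((run (true, [], []) (l x) 0).2.1 = [(true, 0)]) := eq (fst (snd h)) (by fun_prop)
  fun_prop

/-! ### The system of a list of nodes -/

theorem linsRPT : PT linsR := by
  unfold linsR addL eqL ltL notL orL
  fun_prop

theorem mulsRPT : PT mulsR := by
  unfold mulsR mulM eqM ltM orM
  fun_prop

theorem occRPT : PT occR := by
  unfold occR
  fun_prop

theorem occLPT : PT occL := by
  unfold occL
  fun_prop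

/-- the symbols of a word -/
def parseT (w : List Bool) : List RTok := (blocks w).map split2

/-- the word of a list of symbols -/
def unparse (l : List RTok) : List Bool := (l.map fun q => delimit (delimit q.1 ++ q.2)).flatten

/-- the system of a word -/
def sysW (w : List Bool) : TSys0 :=
  if accepts (parseT w) = true then
    if unparse (parseT w) = w then
      (12 * (parseT w).length,
        (-1, [(1, 0)]) :: (((run (true, [], []) (parseT w) 0).2.2).flatMap linsR ++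
          occL (((run (true, [], []) (parseT w) 0).2.2).flatMap occR)),
        ((run (true, [], []) (parseT w) 0).2.2).flatMap mulsR)
    else (0, [(-1, [])], [])
  else (0, [(-1, [])], [])

theorem parseTPT : PT parseT := by
  unfold parseT
  fun_prop

theorem unparsePT : PT unparse := by
  unfold unparse
  fun_prop

theorem sysWPT : PT sysW := by
  have h1 := parseTPT
  have h2 : PT fun w => accepts (parseT w) := acceptsPT h1
  have h3 := runPT h1
  have h4 : PT fun w => unparse (parseT w) := unparsePT.comp h1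
  have h5 : PT fun w => ((run (true, [], []) (parseT w) 0).2.2).flatMap linsR :=
    flatMap (f := fun _ r => linsR r) (snd (snd h3)) (linsRPT.comp (snd id))
  have h6 : PT fun w => ((run (true, [], []) (parseT w) 0).2.2).flatMap mulsR :=
    flatMap (f := fun _ r => mulsR r) (snd (snd h3)) (mulsRPT.comp (snd id))
  have h7 : PT fun w => ((run (true, [], []) (parseT w) 0).2.2).flatMap occR :=
    flatMap (f := fun _ r => occR r) (snd (snd h3)) (occRPT.comp (snd id))
  have h8 : PT fun w => occL (((run (true, [], []) (parseT w) 0).2.2).flatMap occR) := occLPT.comp h7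
  have h9 : PT fun w => decide (unparse (parseT w) = w) := eq h4 id
  unfold sysW
  fun_prop

theorem parse_unparse (l : List RTok) : parseT (unparse l) = l := by
  unfold parseT unparse
  have : (l.map fun q => delimit (delimit q.1 ++ q.2)) = (l.map fun q => delimit q.1 ++ q.2).map delimit := by
    rw [List.map_map]
    rfl
  rw [this, blocks_flatten, List.map_map]
  conv_rhs => rw [← List.map_id l]
  exact List.map_congr_left fun q _ => split2_delimit q.1 q.2

theorem word_eq (φ : Fml) : φ.word = unparse φ.raws := by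
  show ((φ.toks.map Tok.num).map bitEncode |>.map delimit).flatten = _
  unfold unparse Fml.raws
  rw [List.map_map, List.map_map, List.map_map]
  rfl

theorem sysW_word (φ : Fml) : toSys0 (sysW φ.word) = φ.sys := by
  unfold sysW
  rw [word_eq, parse_unparse, if_pos (accepts_raws φ), if_pos rfl, φ.run_eq, Fml.raws_length]
  simp only [List.append_nil]
  rfl

theorem sysW_wf (w : List Bool) : (toSys0 (sysW w)).WF := by
  have hno : (toSys0 (0, [(-1, [])], [])).WF := by
    constructor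
    · intro f hf
      simp only [toSys0, List.mem_cons, List.not_mem_nil, or_false] at hf
      subst hf
      simp
    · intro q hq
      simp [toSys0] at hq
  by_cases h1 : accepts (parseT w) = true
  · by_cases h2 : unparse (parseT w) = w
    · obtain ⟨φ, hφ⟩ := exists_of_accepts h1
      have hw : w = φ.word := by rw [word_eq, ← hφ, h2]
      rw [hw, sysW_word]
      exact φ.sys_wf
    · unfold sysW
      rw [if_pos h1, if_neg h2]
      exact hno
  · unfold sysW
    rw [if_neg h1]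
    exact hno

theorem mem_ETR_iff (w : List Bool) : w ∈ ETR ↔ ∃ X, (toSys0 (sysW w)).Sat X := by
  have hno : ¬ ∃ X, (toSys0 (0, [(-1, [])], [])).Sat X := by
    rintro ⟨X, hX, -⟩
    have := hX (-1, []) (by simp [toSys0])
    simp [Form.eval, lsum] at this
  constructor
  · rintro ⟨φ, rfl, hφ⟩
    rw [sysW_word]
    exact φ.sys_complete hφ
  · intro h
    by_cases h1 : accepts (parseT w) = true
    · by_cases h2 : unparse (parseT w) = w
      · obtain ⟨φ, hφ⟩ := exists_of_accepts h1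
        have hw : w = φ.word := by rw [word_eq, ← hφ, h2]
        rw [hw, sysW_word] at h
        exact ⟨φ, hw, φ.sys_sound h⟩
      · unfold sysW at h
        rw [if_pos h1, if_neg h2] at h
        exact absurd h hno
    · unfold sysW at h
      rw [if_neg h1] at h
      exact absurd h hno

/-! ### Theorem A -/

/-- The LQ instance and the number `K` of a word. -/
def lqW (w : List Bool) : (List Bool × ℕ × List Form) × ℕ := redT (sysW w)

/-- An LQ instance as a tuple. -/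
def toInst (x : List Bool × ℕ × List Form) : Inst := ⟨x.1, x.2.1, x.2.2⟩

theorem lqW_PT : PT lqW := redT_PT.comp sysWPT

theorem lqW_wf (w : List Bool) : (toInst (lqW w).1).WF := redA_wf (sysW_wf w)

theorem lqW_complete {w : List Bool} (h : w ∈ ETR) :
    ∃ z, (toInst (lqW w).1).Sol (-(1 / 2 ^ (2 ^ (lqW w).2))) z :=
  redA_complete (sysW_wf w) ((mem_ETR_iff w).1 h)

theorem lqW_sound {w : List Bool} (h : ∃ z, (toInst (lqW w).1).Sol (1 / 2 ^ (2 ^ (lqW w).2)) z) : w ∈ ETR :=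
  (mem_ETR_iff w).2 (redA_sound (sysW_wf w) h)

end Pool.Agent.Lib.MP_6ff0c5_lc.PTA
end

section

/-!
Points of walls are not interior points of the region.

Plan. For `x` in the open segment: `Data.wall_right` (K/Wall.lean) and `half_closure` (K/Wall.lean; applied to `b, a`: points
with `orient b a y > 0`, i.e. on the right side, accumulate at `x`, since `orient a b x = 0`): a neighbourhood of `x` inside the
region contradicts `wall_right`. For the end points: the complement of the interior is closed and contains the open segment,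
whose closure is the segment (`segment_subset_closure_openSegment` or `closure_openSegment`).
-/

set_option autoImplicit false

namespace Pool.Agent.Lib.MP_6ff0c5_lc.C

open Pool.Agent.Lib.MP_6ff0c5_lc.K
open Filter Topology

theorem not_interior_of_wall {P : Poly} {s₀ : ℕ} {p₀ : ℕ → Pt} {ι κ ξ : Type} [Fintype ι] [Fintype κ] [Fintype ξ]
    {T : ι → ℕ × ℕ × ℕ} {F : κ → ℕ × ℕ × ℕ} {hole : κ → Fin P.holes.length} {X : ξ → ℕ × ℕ × ℕ} {Δ : ℕ × ℕ × ℕ}
    (D : Data P s₀ p₀ T F hole X Δ) {u v : ℕ} (h : IsWall P u v) {x : Pt}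
    (hx : x ∈ segment ℝ (P.pos u) (P.pos v)) : x ∉ interior P.region := by
  obtain ⟨-, -, -, -, -, -, hne⟩ := D.wall h
  have hopen : ∀ x ∈ openSegment ℝ (P.pos u) (P.pos v), x ∉ interior P.region := by
    intro x hx hint
    have h1 : ∀ᶠ y in 𝓝 x, y ∈ P.region := mem_interior_iff_mem_nhds.1 hint
    have h2 := D.wall_right h hx
    have hx0 : orient (P.pos v) (P.pos u) x = 0 := by
      rw [orient_swap, orient_of_mem_segment (openSegment_subset_segment ℝ _ _ hx), neg_zero]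
    have hc := half_closure hne.symm hx0
    rw [mem_closure_iff_frequently] at hc
    obtain ⟨y, hy1, hy2, hy3⟩ := (hc.and_eventually (h1.and h2)).exists
    refine hy3 ?_ hy2
    have : 0 < orient (P.pos v) (P.pos u) y := hy1
    rw [orient_swap] at this
    linarith
  have hcl : closure (openSegment ℝ (P.pos u) (P.pos v)) ⊆ (interior P.region)ᶜ :=
    closure_minimal (fun y hy => hopen y hy) isOpen_interior.isClosed_compl
  exact hcl (segment_subset_closure_openSegment hx)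

end Pool.Agent.Lib.MP_6ff0c5_lc.C
end
end
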