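import Pool.Agent.Lib.MP_6ff0c5_lc.C.Fam

/-!
Translation of the second drawing: the network `shN N s` is the network `N` translated by `s` cells in both directions.

Plan. `(shN N s).act (x + 2 s) (y + s) = N.act x y`, so `(shN N s).bt (x + 2 s) (y + s) = N.bt x y` (unfold `Net.bt`), and the
label `sh v s s` has the network coordinates `(v.2.1 + s) + (v.2.2 + s) = x + 2 s`, `y + s`. `nomQ (sh v s s) = nomQ v + s * (e₁ + e₂)`.
-/

set_option autoImplicit false

namespace Pool.Agent.Lib.MP_6ff0c5_lc.C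

open Pool.Agent.Lib.MP_6ff0c5_lc.K
open Filter Topology

open Pool.Agent.Lib.MP_6ff0c5_lc.N (Net)

/-- the translated network -/
def shN (N : Net) (s : ℤ) : Net := ⟨fun x y => N.act (x - 2 * s) (y - s), fun x y => N.cup (x - 2 * s) (y - s)⟩

/-- the translation vector -/
noncomputable def tvQ (M : ℤ) (s : ℤ) : Pt := ((M : ℝ) * (-643500 * s), (M : ℝ) * (-654000 * s))

theorem act_shN (N : Net) (s x y : ℤ) : (shN N s).act x y = N.act (x - 2 * s) (y - s) := rfl

theorem cup_shN (N : Net) (s x y : ℤ) : (shN N s).cup x y = N.cup (x - 2 * s) (y - s) := rfl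

theorem bt_shN (N : Net) (s x y : ℤ) : (shN N s).bt x y = N.bt (x - 2 * s) (y - s) := by
  unfold Net.bt
  rw [act_shN, act_shN, act_shN, cup_shN, show x + 1 - 2 * s = x - 2 * s + 1 by ring,
    show y + 1 - s = y - s + 1 by ring]

theorem dispQ_shN (N : Net) (s : ℤ) (v : Vx) : dispQ (shN N s) (sh v s s) = dispQ N v := by
  have e1 : (sh v s s).1 = v.1 := rfl
  have e2 : (sh v s s).2.1 + (sh v s s).2.2 - 2 * s = v.2.1 + v.2.2 := by
    unfold sh; simp only; ring
  have e3 : (sh v s s).2.2 - s = v.2.2 := by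
    unfold sh; simp only; ring
  unfold dispQ
  rw [bt_shN, act_shN, e1, e2, e3]

theorem nomQ_shN (s : ℤ) (v : Vx) : nomQ (sh v s s) = ((nomQ v).1 - 643500 * s, (nomQ v).2 - 654000 * s) := by
  unfold nomQ sh
  ext <;> simp only <;> ring

theorem posQ_shN (M : ℤ) (N : Net) (s : ℤ) (v : Vx) : posQ M (shN N s) (sh v s s) = posQ M N v + tvQ M s := by
  unfold posQ iposQ
  rw [dispQ_shN, nomQ_shN]
  unfold toPt tvQ
  ext
  · simp only [Prod.fst_add]
    push_cast
    ring
  · simp only [Prod.snd_add]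
    push_cast
    ring

end Pool.Agent.Lib.MP_6ff0c5_lc.C
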