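import Pool.Agent.Lib.MP_6ff0c5_lc.C.Fam

/-!
Translates of the families are contained in the families of a larger patch (the cell `(i, j)` of the small patch is the cell
`(i + s, j + s)` of the large one, `a + 2 s`, `b + 2 s`).

Plan. Members of `fam2 tab m n` are `mapT (sh · (i+1) (j+1)) t`, `t ∈ tab`, `i < m`, `j < n`; `sh_comp` (C/Tab.lean).
-/

set_option autoImplicit false

namespace Pool.Agent.Lib.MP_6ff0c5_lc.C

open Pool.Agent.Lib.MP_6ff0c5_lc.K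
open Filter Topology

theorem mem_fam2 {tab : List (Vx × Vx × Vx)} {m n : ℕ} {t : Vx × Vx × Vx} : t ∈ fam2 tab m n ↔
    ∃ t0 ∈ tab, ∃ i j : ℤ, 1 ≤ i ∧ i ≤ m ∧ 1 ≤ j ∧ j ≤ n ∧ t = mapT (fun v => sh v i j) t0 := by
  unfold fam2 fam1 tblk
  simp only [List.mem_flatMap, List.mem_range, List.mem_map]
  constructor
  · rintro ⟨i, hi, j, hj, t0, ht0, rfl⟩
    exact ⟨t0, ht0, (i : ℤ) + 1, (j : ℤ) + 1, by omega, by omega, by omega, by omega, rfl⟩
  · rintro ⟨t0, ht0, i, j, hi1, him, hj1, hjn, rfl⟩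
    obtain ⟨i', rfl⟩ := Int.eq_ofNat_of_zero_le (show 0 ≤ i by omega)
    obtain ⟨j', rfl⟩ := Int.eq_ofNat_of_zero_le (show 0 ≤ j by omega)
    refine ⟨i' - 1, by omega, j' - 1, by omega, t0, ht0, ?_⟩
    have e1 : (((i' - 1 : ℕ) : ℤ) + 1) = (i' : ℤ) := by omega
    have e2 : (((j' - 1 : ℕ) : ℤ) + 1) = (j' : ℤ) := by omega
    rw [e1, e2]

theorem shift_fam2 {tab : List (Vx × Vx × Vx)} {m n m' n' s : ℕ} (hm : m + s ≤ m') (hn : n + s ≤ n') {t : Vx × Vx × Vx}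
    (h : t ∈ fam2 tab m n) : mapT (fun v => sh v s s) t ∈ fam2 tab m' n' := by
  rw [mem_fam2] at h ⊢
  obtain ⟨t0, ht0, i, j, hi1, him, hj1, hjn, rfl⟩ := h
  refine ⟨t0, ht0, (s : ℤ) + i, (s : ℤ) + j, by omega, by omega, by omega, by omega, ?_⟩
  unfold mapT
  simp only [sh_comp]

theorem shift_TS {a b s : ℕ} {t : Vx × Vx × Vx} (h : t ∈ TS a b) :
    mapT (fun v => sh v s s) t ∈ TS (a + 2 * s) (b + 2 * s) := by
  unfold TS at h ⊢
  simp only [List.mem_append] at h ⊢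
  rcases h with h | h | h
  · exact Or.inl (shift_fam2 (by omega) (by omega) h)
  · exact Or.inr (Or.inl (shift_fam2 (by omega) (by omega) h))
  · exact Or.inr (Or.inr (shift_fam2 (by omega) (by omega) h))

end Pool.Agent.Lib.MP_6ff0c5_lc.C
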