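import Mathlib
import Pool.Agent.Lib.MP_6ff0c5_lc.C.Forced2

section

/-!
MP_6ff0c5_lc, part C: counting marked edges (pure combinatorics of oriented label triples).

`T` is a finite set of oriented triples closed under rotation (oriented triangles), labels `< n` are boundary vertices, the
walls `W u v` form cyclic sequences on the boundary vertices, every wall `(u, v)` has a triangle `(u, v, z)` with `n ≤ z`.
`rin v`, `rout v` are the apexes of the wall that ends in `v` and of the wall that starts in `v`; `v` is a door vertex if they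
are different; the directed edges `(rin v, v)` and `(v, rout v)` of a door vertex are marked. If there are at most
`n + (number of door vertices)` triangles, then every triangle without a wall has exactly two marked edges.
-/

set_option autoImplicit false

namespace Pool.Agent.Lib.MP_6ff0c5_lc.C

/-- The combinatorial hypotheses. -/
structure Tri (n : ℕ) (W : ℕ → ℕ → Prop) (T : Finset (ℕ × ℕ × ℕ)) (rin rout : ℕ → ℕ) : Prop where
  rot : ∀ a b c, (a, b, c) ∈ T → (b, c, a) ∈ T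
  uniq : ∀ a b c c', (a, b, c) ∈ T → (a, b, c') ∈ T → c = c'
  ltW : ∀ a b, W a b → a < n ∧ b < n
  inW : ∀ v < n, ∃ u, W u v ∧ ∀ u', W u' v → u' = u
  outW : ∀ v < n, ∃ u, W v u ∧ ∀ u', W v u' → u' = u
  apex_in : ∀ u v, W u v → (u, v, rin v) ∈ T
  apex_out : ∀ u v, W u v → (u, v, rout u) ∈ T
  big : ∀ u v, W u v → n ≤ rin v ∧ n ≤ rout u
  noWall : ∀ a b d, W a b → (b, a, d) ∉ T
  twin : ∀ a b c, (a, b, c) ∈ T → ¬ W a b → ∃ d, (b, a, d) ∈ T

/-- The marked directed edges. -/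
def Mark (n : ℕ) (rin rout : ℕ → ℕ) (a b : ℕ) : Prop :=
  (b < n ∧ rin b ≠ rout b ∧ a = rin b) ∨ (a < n ∧ rin a ≠ rout a ∧ b = rout a)

section

variable {n : ℕ} {W : ℕ → ℕ → Prop} {T : Finset (ℕ × ℕ × ℕ)} {rin rout : ℕ → ℕ}

private theorem mk_rot2 (h : Tri n W T rin rout) {a b c : ℕ} (ht : (a, b, c) ∈ T) :
    (c, a, b) ∈ T := h.rot _ _ _ (h.rot _ _ _ ht)

/-- step 1 -/
private theorem mk_noWall (h : Tri n W T rin rout) {a b c : ℕ} (ht : (a, b, c) ∈ T)
    (hm : Mark n rin rout a b) : ¬ W a b ∧ ¬ W b c ∧ ¬ W c a := by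
  rcases hm with ⟨hb, hne, rfl⟩ | ⟨ha, hne, rfl⟩
  · obtain ⟨u, hu, -⟩ := h.inW b hb
    have h1 := (h.big u b hu).1
    refine ⟨fun h2 => ?_, fun h2 => ?_, fun h2 => ?_⟩
    · have := (h.ltW _ _ h2).1
      omega
    · exact hne (h.uniq _ _ _ _ (h.rot _ _ _ ht) (h.apex_out _ _ h2))
    · have := (h.ltW _ _ h2).2
      omega
  · obtain ⟨u, hu, -⟩ := h.outW a ha
    have h1 := (h.big a u hu).2
    refine ⟨fun h2 => ?_, fun h2 => ?_, fun h2 => ?_⟩
    · have := (h.ltW _ _ h2).2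
      omega
    · have := (h.ltW _ _ h2).1
      omega
    · exact hne (h.uniq _ _ _ _ (h.apex_in _ _ h2) (mk_rot2 h ht))

private theorem mk_side (h : Tri n W T rin rout) {a b : ℕ} (hm : Mark n rin rout a b) :
    (a < n ∧ n ≤ b) ∨ (n ≤ a ∧ b < n) := by
  rcases hm with ⟨hb, hne, rfl⟩ | ⟨ha, hne, rfl⟩
  · obtain ⟨u, hu, -⟩ := h.inW b hb
    exact Or.inr ⟨(h.big u b hu).1, hb⟩
  · obtain ⟨u, hu, -⟩ := h.outW a ha
    exact Or.inl ⟨ha, (h.big a u hu).2⟩

private theorem mk_apex (h : Tri n W T rin rout) {a b c : ℕ} (ht : (a, b, c) ∈ T) (hw : W a b) :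
    n ≤ c := by
  rw [h.uniq _ _ _ _ ht (h.apex_out _ _ hw)]
  exact (h.big _ _ hw).2

open Classical in
private theorem mk_M1 (h : Tri n W T rin rout) :
    2 * ((Finset.range n).filter fun v => rin v ≠ rout v).card ≤
      (T.filter fun t => Mark n rin rout t.1 t.2.1).card := by
  have hA : ((Finset.range n).filter fun v => rin v ≠ rout v) ⊆
      (T.filter fun t => Mark n rin rout t.1 t.2.1 ∧ n ≤ t.1).image fun t => t.2.1 := by
    intro v hv
    rw [Finset.mem_filter, Finset.mem_range] at hv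
    obtain ⟨u, hu, -⟩ := h.inW v hv.1
    have h1 := h.rot _ _ _ (h.apex_in u v hu)
    have hnW : ¬ W v (rin v) := fun h2 => by
      have := (h.ltW _ _ h2).2
      have := (h.big u v hu).1
      omega
    obtain ⟨c, hc⟩ := h.twin _ _ _ h1 hnW
    rw [Finset.mem_image]
    refine ⟨(rin v, v, c), ?_, rfl⟩
    rw [Finset.mem_filter]
    exact ⟨hc, Or.inl ⟨hv.1, hv.2, rfl⟩, (h.big u v hu).1⟩
  have hB : ((Finset.range n).filter fun v => rin v ≠ rout v) ⊆
      (T.filter fun t => Mark n rin rout t.1 t.2.1 ∧ t.1 < n).image fun t => t.1 := by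
    intro v hv
    rw [Finset.mem_filter, Finset.mem_range] at hv
    obtain ⟨w, hw, -⟩ := h.outW v hv.1
    have h1 := mk_rot2 h (h.apex_out v w hw)
    have hnW : ¬ W (rout v) v := fun h2 => by
      have := (h.ltW _ _ h2).1
      have := (h.big v w hw).2
      omega
    obtain ⟨c, hc⟩ := h.twin _ _ _ h1 hnW
    rw [Finset.mem_image]
    refine ⟨(v, rout v, c), ?_, rfl⟩
    rw [Finset.mem_filter]
    exact ⟨hc, Or.inr ⟨hv.1, hv.2, rfl⟩, hv.1⟩
  have h1 := (Finset.card_le_card hA).trans Finset.card_image_le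
  have h2 := (Finset.card_le_card hB).trans Finset.card_image_le
  have hdisj : Disjoint (T.filter fun t => Mark n rin rout t.1 t.2.1 ∧ n ≤ t.1)
      (T.filter fun t => Mark n rin rout t.1 t.2.1 ∧ t.1 < n) := by
    rw [Finset.disjoint_left]
    intro t ht1 ht2
    rw [Finset.mem_filter] at ht1 ht2
    have := ht1.2.2
    have := ht2.2.2
    omega
  have hsub : (T.filter fun t => Mark n rin rout t.1 t.2.1 ∧ n ≤ t.1) ∪
      (T.filter fun t => Mark n rin rout t.1 t.2.1 ∧ t.1 < n) ⊆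
      T.filter fun t => Mark n rin rout t.1 t.2.1 := by
    intro t ht
    rw [Finset.mem_union, Finset.mem_filter, Finset.mem_filter] at ht
    rw [Finset.mem_filter]
    rcases ht with ht | ht
    · exact ⟨ht.1, ht.2.1⟩
    · exact ⟨ht.1, ht.2.1⟩
  have h3 := Finset.card_le_card hsub
  rw [Finset.card_union_of_disjoint hdisj] at h3
  omega

open Classical in
private theorem mk_M2 (h : Tri n W T rin rout) :
    (T.filter fun t => Mark n rin rout t.1 t.2.1).card ≤
      (T.filter fun t => Mark n rin rout t.2.1 t.2.2).card := by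
  refine Finset.card_le_card_of_injOn (fun t => (t.2.2, t.1, t.2.1)) ?_ ?_
  · rintro ⟨a, b, c⟩ ht
    rw [Finset.mem_coe, Finset.mem_filter] at ht ⊢
    exact ⟨mk_rot2 h ht.1, ht.2⟩
  · rintro ⟨a, b, c⟩ - ⟨a', b', c'⟩ - he
    simp only [Prod.mk.injEq] at he ⊢
    tauto

open Classical in
private theorem mk_M3 (h : Tri n W T rin rout) :
    (T.filter fun t => Mark n rin rout t.1 t.2.1).card ≤
      (T.filter fun t => Mark n rin rout t.2.2 t.1).card := by
  refine Finset.card_le_card_of_injOn (fun t => (t.2.1, t.2.2, t.1)) ?_ ?_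
  · rintro ⟨a, b, c⟩ ht
    rw [Finset.mem_coe, Finset.mem_filter] at ht ⊢
    exact ⟨h.rot _ _ _ ht.1, ht.2⟩
  · rintro ⟨a, b, c⟩ - ⟨a', b', c'⟩ - he
    simp only [Prod.mk.injEq] at he ⊢
    tauto

open Classical in
private theorem mk_walls (h : Tri n W T rin rout) :
    3 * n + (T.filter fun t => ¬ W t.1 t.2.1 ∧ ¬ W t.2.1 t.2.2 ∧ ¬ W t.2.2 t.1).card ≤ T.card := by
  have c1 : n ≤ (T.filter fun t => W t.1 t.2.1).card := by
    have hs : Finset.range n ⊆ (T.filter fun t => W t.1 t.2.1).image fun t => t.1 := by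
      intro v hv
      rw [Finset.mem_range] at hv
      obtain ⟨w, hw, -⟩ := h.outW v hv
      rw [Finset.mem_image]
      exact ⟨(v, w, rout v), Finset.mem_filter.2 ⟨h.apex_out _ _ hw, hw⟩, rfl⟩
    have := (Finset.card_le_card hs).trans Finset.card_image_le
    rwa [Finset.card_range] at this
  have c2 : n ≤ (T.filter fun t => W t.2.1 t.2.2).card := by
    have hs : Finset.range n ⊆ (T.filter fun t => W t.2.1 t.2.2).image fun t => t.2.1 := by
      intro v hv
      rw [Finset.mem_range] at hv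
      obtain ⟨w, hw, -⟩ := h.outW v hv
      rw [Finset.mem_image]
      exact ⟨(rout v, v, w), Finset.mem_filter.2 ⟨mk_rot2 h (h.apex_out _ _ hw), hw⟩, rfl⟩
    have := (Finset.card_le_card hs).trans Finset.card_image_le
    rwa [Finset.card_range] at this
  have c3 : n ≤ (T.filter fun t => W t.2.2 t.1).card := by
    have hs : Finset.range n ⊆ (T.filter fun t => W t.2.2 t.1).image fun t => t.2.2 := by
      intro v hv
      rw [Finset.mem_range] at hv
      obtain ⟨w, hw, -⟩ := h.outW v hv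
      rw [Finset.mem_image]
      exact ⟨(w, rout v, v), Finset.mem_filter.2 ⟨h.rot _ _ _ (h.apex_out _ _ hw), hw⟩, rfl⟩
    have := (Finset.card_le_card hs).trans Finset.card_image_le
    rwa [Finset.card_range] at this
  have d12 : Disjoint (T.filter fun t => W t.1 t.2.1) (T.filter fun t => W t.2.1 t.2.2) := by
    rw [Finset.disjoint_left]
    rintro ⟨a, b, c⟩ h1 h2
    rw [Finset.mem_filter] at h1 h2
    have k1 := mk_apex h h1.1 h1.2
    have k2 := (h.ltW _ _ h2.2).2
    simp only at k2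
    omega
  have d3 : Disjoint ((T.filter fun t => W t.1 t.2.1) ∪ (T.filter fun t => W t.2.1 t.2.2))
      (T.filter fun t => W t.2.2 t.1) := by
    rw [Finset.disjoint_left]
    rintro ⟨a, b, c⟩ h1 h2
    rw [Finset.mem_union, Finset.mem_filter, Finset.mem_filter] at h1
    rw [Finset.mem_filter] at h2
    have k2 := h.ltW _ _ h2.2
    simp only at k2
    rcases h1 with h1 | h1
    · have k1 := mk_apex h h1.1 h1.2
      omega
    · have k1 := mk_apex h (h.rot _ _ _ h1.1) h1.2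
      omega
  have d4 : Disjoint (((T.filter fun t => W t.1 t.2.1) ∪ (T.filter fun t => W t.2.1 t.2.2)) ∪
      (T.filter fun t => W t.2.2 t.1))
      (T.filter fun t => ¬ W t.1 t.2.1 ∧ ¬ W t.2.1 t.2.2 ∧ ¬ W t.2.2 t.1) := by
    rw [Finset.disjoint_left]
    rintro t h1 h2
    rw [Finset.mem_union, Finset.mem_union, Finset.mem_filter, Finset.mem_filter,
      Finset.mem_filter] at h1
    rw [Finset.mem_filter] at h2
    tauto
  have hsub : (((T.filter fun t => W t.1 t.2.1) ∪ (T.filter fun t => W t.2.1 t.2.2)) ∪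
      (T.filter fun t => W t.2.2 t.1)) ∪
      (T.filter fun t => ¬ W t.1 t.2.1 ∧ ¬ W t.2.1 t.2.2 ∧ ¬ W t.2.2 t.1) ⊆ T := by
    refine Finset.union_subset (Finset.union_subset (Finset.union_subset ?_ ?_) ?_) ?_
    all_goals exact Finset.filter_subset _ _
  have h1 := Finset.card_le_card hsub
  rw [Finset.card_union_of_disjoint d4, Finset.card_union_of_disjoint d3,
    Finset.card_union_of_disjoint d12] at h1
  omega

end

open Classical in
/-- **Marked edges.** Proof: for `t = (a,b,c) ∈ T` let `m t` be the number of marked edges among `(a,b), (b,c), (c,a)`.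

1. A triple with a marked edge `(a,b)` contains no wall: if `b < n`, `a = rin b ≠ rout b`: `W a b` and `W c a` are impossible
(`a = rin b ≥ n` by `big`, `ltW`), and `W b c` would give `(b,c,rout b) ∈ T` (`apex_out`) and `(b,c,a) ∈ T` (`rot`), so
`a = rout b` by `uniq`, contradiction; if `a < n`, `b = rout a ≠ rin a`: similarly `W c a` gives `(c,a,rin a) ∈ T` and
`(c,a,b) ∈ T`, so `b = rin a`.
2. `m t ≤ 2`: a marked edge joins a label `< n` and a label `≥ n` (`big`), three such edges in a triangle are impossible.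
3. Every marked edge lies in a triple: for a door vertex `v` with `W u v` and `W v w`: `(u,v,rin v) ∈ T`, so `(v,rin v,u) ∈ T`,
`(v, rin v)` is not a wall, so by `twin` there is `(rin v, v, c) ∈ T`; and `(v,w,rout v) ∈ T`, so `(rout v, v, w) ∈ T`, by
`twin` `(v, rout v, c') ∈ T`. So the number of `t ∈ T` whose first edge is marked is (at least) `2 D`, `D` the number of door
vertices (the triples are different: first label `≥ n` resp. `< n`).
4. The triples with first edge a wall are exactly `(v, w, rout v)`, one for every `v < n` (`outW`); the sets of triples with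
first, second, third edge a wall are pairwise disjoint (two walls in a triple would make the apex of one of them `< n`) and have
`n` elements each (rotation). Let `U` be the triples without a wall: `|U| = |T| - 3 n ≤ 3 D`.
5. `∑_{t ∈ U} m t = 3 * |{t ∈ T | first edge marked}| ≥ 6 D ≥ 2 |U|`, and `m t ≤ 2`, so `m t = 2` for all `t ∈ U`. -/
theorem marked {n : ℕ} {W : ℕ → ℕ → Prop} {T : Finset (ℕ × ℕ × ℕ)} {rin rout : ℕ → ℕ} (h : Tri n W T rin rout)
    (hcard : T.card ≤ 3 * n + 3 * ((Finset.range n).filter fun v => rin v ≠ rout v).card) {a b c : ℕ}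
    (ht : (a, b, c) ∈ T) (h1 : ¬ W a b) (h2 : ¬ W b c) (h3 : ¬ W c a) :
    (Mark n rin rout a b ∧ Mark n rin rout b c) ∨ (Mark n rin rout b c ∧ Mark n rin rout c a) ∨
      (Mark n rin rout c a ∧ Mark n rin rout a b) := by
  classical
  by_contra hcon
  obtain ⟨U, hU⟩ : ∃ U, U = T.filter fun t => ¬ W t.1 t.2.1 ∧ ¬ W t.2.1 t.2.2 ∧ ¬ W t.2.2 t.1 :=
    ⟨_, rfl⟩
  have hU0 : (a, b, c) ∈ U := by
    rw [hU, Finset.mem_filter]
    exact ⟨ht, h1, h2, h3⟩
  have hW := mk_walls h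
  rw [← hU] at hW
  have k1 := mk_M1 h
  have k2 := mk_M2 h
  have k3 := mk_M3 h
  have s1 : (T.filter fun t => Mark n rin rout t.1 t.2.1).card ≤
      (U.filter fun t => Mark n rin rout t.1 t.2.1).card := by
    refine Finset.card_le_card ?_
    rintro ⟨x, y, z⟩ hx
    rw [Finset.mem_filter] at hx
    rw [hU, Finset.mem_filter, Finset.mem_filter]
    exact ⟨⟨hx.1, mk_noWall h hx.1 hx.2⟩, hx.2⟩
  have s2 : (T.filter fun t => Mark n rin rout t.2.1 t.2.2).card ≤
      (U.filter fun t => Mark n rin rout t.2.1 t.2.2).card := by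
    refine Finset.card_le_card ?_
    rintro ⟨x, y, z⟩ hx
    rw [Finset.mem_filter] at hx
    rw [hU, Finset.mem_filter, Finset.mem_filter]
    have := mk_noWall h (h.rot _ _ _ hx.1) hx.2
    exact ⟨⟨hx.1, this.2.2, this.1, this.2.1⟩, hx.2⟩
  have s3 : (T.filter fun t => Mark n rin rout t.2.2 t.1).card ≤
      (U.filter fun t => Mark n rin rout t.2.2 t.1).card := by
    refine Finset.card_le_card ?_
    rintro ⟨x, y, z⟩ hx
    rw [Finset.mem_filter] at hx
    rw [hU, Finset.mem_filter, Finset.mem_filter]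
    have := mk_noWall h (mk_rot2 h hx.1) hx.2
    exact ⟨⟨hx.1, this.2.1, this.2.2, this.1⟩, hx.2⟩
  let m : ℕ × ℕ × ℕ → ℕ := fun t => (if Mark n rin rout t.1 t.2.1 then 1 else 0) +
    (if Mark n rin rout t.2.1 t.2.2 then 1 else 0) + (if Mark n rin rout t.2.2 t.1 then 1 else 0)
  have hsum : ∑ t ∈ U, m t = (U.filter fun t => Mark n rin rout t.1 t.2.1).card +
      (U.filter fun t => Mark n rin rout t.2.1 t.2.2).card +
      (U.filter fun t => Mark n rin rout t.2.2 t.1).card := by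
    rw [Finset.card_filter, Finset.card_filter, Finset.card_filter, ← Finset.sum_add_distrib,
      ← Finset.sum_add_distrib]
  have hm2 : ∀ t ∈ U, m t ≤ 2 := by
    rintro ⟨x, y, z⟩ -
    show (if Mark n rin rout x y then 1 else 0) + (if Mark n rin rout y z then 1 else 0) +
      (if Mark n rin rout z x then 1 else 0) ≤ 2
    by_cases e1 : Mark n rin rout x y
    · by_cases e2 : Mark n rin rout y z
      · have e3 : ¬ Mark n rin rout z x := by
          intro e3
          have f1 := mk_side h e1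
          have f2 := mk_side h e2
          have f3 := mk_side h e3
          omega
        rw [if_pos e1, if_pos e2, if_neg e3]
      · rw [if_pos e1, if_neg e2]
        split_ifs <;> omega
    · rw [if_neg e1]
      split_ifs <;> omega
  have hm1 : m (a, b, c) ≤ 1 := by
    show (if Mark n rin rout a b then 1 else 0) + (if Mark n rin rout b c then 1 else 0) +
      (if Mark n rin rout c a then 1 else 0) ≤ 1
    have n12 : ¬ (Mark n rin rout a b ∧ Mark n rin rout b c) := fun hh => hcon (Or.inl hh)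
    have n23 : ¬ (Mark n rin rout b c ∧ Mark n rin rout c a) :=
      fun hh => hcon (Or.inr (Or.inl hh))
    have n31 : ¬ (Mark n rin rout c a ∧ Mark n rin rout a b) :=
      fun hh => hcon (Or.inr (Or.inr hh))
    by_cases e1 : Mark n rin rout a b
    · rw [if_pos e1, if_neg fun e2 => n12 ⟨e1, e2⟩, if_neg fun e3 => n31 ⟨e3, e1⟩]
    · by_cases e2 : Mark n rin rout b c
      · rw [if_neg e1, if_pos e2, if_neg fun e3 => n23 ⟨e2, e3⟩]
      · rw [if_neg e1, if_neg e2]
        split_ifs <;> omega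
  have hle : ∑ t ∈ U, m t ≤ 1 + (U.card - 1) * 2 := by
    rw [← Finset.add_sum_erase U m hU0]
    refine add_le_add hm1 ?_
    have h4 := Finset.sum_le_card_nsmul (U.erase (a, b, c)) m 2
      fun t ht => hm2 t (Finset.mem_of_mem_erase ht)
    rw [Finset.card_erase_of_mem hU0, smul_eq_mul] at h4
    exact h4
  have hpos : 0 < U.card := Finset.card_pos.2 ⟨_, hU0⟩
  omega

end Pool.Agent.Lib.MP_6ff0c5_lc.C
end

section

/-!
MP_6ff0c5_lc, part C: the triangles at the doors (combinatorial part).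
-/

set_option autoImplicit false

namespace Pool.Agent.Lib.MP_6ff0c5_lc.C

open K

open Classical in
/-- the vertex with a given number -/
noncomputable def nu (n1 n2 : ℕ) (num : Vx → ℕ) (v : ℕ) : Vx :=
  if h : ∃ x, Pres n1 n2 x ∧ num x = v then h.choose else default

/-- the centre of the room of a wall -/
def stw (st : ℕ → ℤ → ℤ → ℕ) (t : ℕ × ℤ × ℤ) : ℕ := st (wroom t.1) t.2.1 t.2.2

/-- the centre of the room of the incoming wall -/
noncomputable def rin (n1 n2 : ℕ) (num : Vx → ℕ) (st : ℕ → ℤ → ℤ → ℕ) (v : ℕ) : ℕ :=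
  stw st (inw n1 n2 (nu n1 n2 num v))

/-- the centre of the room of the outgoing wall -/
noncomputable def rout (n1 n2 : ℕ) (num : Vx → ℕ) (st : ℕ → ℤ → ℤ → ℕ) (v : ℕ) : ℕ :=
  stw st (outw n1 n2 (nu n1 n2 num v))

section

variable {n1 n2 : ℕ} {P Q : Poly} {num : Vx → ℕ} {M : ℝ} {pos : Vx → Pt} {k N3 s : ℕ} {p q : ℕ → Pt}
  {T : Finset (ℕ × ℕ × ℕ)} {st : ℕ → ℤ → ℤ → ℕ}

theorem nu_num (H : Patch n1 n2 P Q num M pos) {x : Vx} (hx : Pres n1 n2 x) : nu n1 n2 num (num x) = x := by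
  have h : ∃ y, Pres n1 n2 y ∧ num y = num x := ⟨x, hx, rfl⟩
  unfold nu
  rw [dif_pos h]
  exact H.inj _ _ h.choose_spec.1 hx h.choose_spec.2

theorem nu_spec (H : Patch n1 n2 P Q num M pos) {v : ℕ} (hv : v < P.n) :
    Pres n1 n2 (nu n1 n2 num v) ∧ num (nu n1 n2 num v) = v := by
  have h : ∃ y, Pres n1 n2 y ∧ num y = v := H.surj v hv
  unfold nu
  rw [dif_pos h]
  exact h.choose_spec

theorem rm_inw (H : Patch n1 n2 P Q num M pos) {x : Vx} (hx : Pres n1 n2 x) :
    Rm n1 n2 (wroom (inw n1 n2 x).1) (inw n1 n2 x).2.1 (inw n1 n2 x).2.2 := rm_of_wp (wp_inw H.h1 H.h2 hx).1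

theorem rm_outw (H : Patch n1 n2 P Q num M pos) {x : Vx} (hx : Pres n1 n2 x) :
    Rm n1 n2 (wroom (outw n1 n2 x).1) (outw n1 n2 x).2.1 (outw n1 n2 x).2.2 := rm_of_wp (wp_outw H.h1 H.h2 hx).1

theorem stw_inj (F : Forced n1 n2 P num s T st) {t t' : ℕ × ℤ × ℤ} (h : Rm n1 n2 (wroom t.1) t.2.1 t.2.2)
    (h' : Rm n1 n2 (wroom t'.1) t'.2.1 t'.2.2) (he : stw st t = stw st t') : wr t = wr t' := by
  obtain ⟨h1, h2, h3⟩ := F.inj _ _ _ _ _ _ h h' he
  unfold wr
  rw [h1, h2, h3]

theorem stw_congr {t t' : ℕ × ℤ × ℤ} (h : wr t = wr t') : stw st t = stw st t' := by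
  unfold wr at h
  unfold stw
  simp only [Prod.mk.injEq] at h
  rw [h.1, h.2.1, h.2.2]

theorem hall (H : Patch n1 n2 P Q num M pos) (F : Forced n1 n2 P num s T st) :
    ∀ u v, IsWall P u v → ∃ w, (u, v, w) ∈ T := by
  intro u v h
  obtain ⟨w, i, j, hw, rfl, rfl⟩ := (H.wall u v).1 h
  exact ⟨_, F.tri w i j hw⟩

theorem tri (H : Patch n1 n2 P Q num M pos) (C : Comp P Q k N3 s p q T) (F : Forced n1 n2 P num s T st) :
    Tri P.n (IsWall P) T (rin n1 n2 num st) (rout n1 n2 num st) where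
  rot := fun a b c h => C.rot _ h
  uniq := C.uniq
  ltW := by
    intro a b h
    obtain ⟨w, i, j, hw, rfl, rfl⟩ := (H.wall a b).1 h
    exact ⟨H.lt _ (pres_wu hw), H.lt _ (pres_wv hw)⟩
  inW := by
    intro v hv
    obtain ⟨hx, he⟩ := nu_spec H hv
    obtain ⟨hw, hwv⟩ := wp_inw H.h1 H.h2 hx
    refine ⟨_, (H.wall _ _).2 ⟨_, _, _, hw, rfl, ?_⟩, ?_⟩
    · rw [hwv, he]
    · intro u' hu'
      obtain ⟨w, i, j, hw', rfl, hv'⟩ := (H.wall _ _).1 hu'
      have h1 : nu n1 n2 num v = wv w i j := by rw [hv', nu_num H (pres_wv hw')]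
      rw [h1, inw_wv hw']
  outW := by
    intro v hv
    obtain ⟨hx, he⟩ := nu_spec H hv
    obtain ⟨hw, hwv⟩ := wp_outw H.h1 H.h2 hx
    refine ⟨_, (H.wall _ _).2 ⟨_, _, _, hw, ?_, rfl⟩, ?_⟩
    · rw [hwv, he]
    · intro u' hu'
      obtain ⟨w, i, j, hw', hv', rfl⟩ := (H.wall _ _).1 hu'
      have h1 : nu n1 n2 num v = wu w i j := by rw [hv', nu_num H (pres_wu hw')]
      rw [h1, outw_wu hw']
  apex_in := by
    intro u v h
    obtain ⟨w, i, j, hw, rfl, rfl⟩ := (H.wall u v).1 h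
    unfold rin
    rw [nu_num H (pres_wv hw), inw_wv hw]
    exact F.tri w i j hw
  apex_out := by
    intro u v h
    obtain ⟨w, i, j, hw, rfl, rfl⟩ := (H.wall u v).1 h
    unfold rout
    rw [nu_num H (pres_wu hw), outw_wu hw]
    exact F.tri w i j hw
  big := by
    intro u v h
    obtain ⟨w, i, j, hw, rfl, rfl⟩ := (H.wall u v).1 h
    unfold rin rout
    rw [nu_num H (pres_wu hw), outw_wu hw, nu_num H (pres_wv hw), inw_wv hw]
    exact ⟨(F.ge _ _ _ (rm_of_wp hw)).1, (F.ge _ _ _ (rm_of_wp hw)).1⟩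
  noWall := C.noWall
  twin := C.twin (hall H F)

theorem door_rin (H : Patch n1 n2 P Q num M pos) (F : Forced n1 n2 P num s T st) {x : Vx} (hx : Pres n1 n2 x) :
    rin n1 n2 num st (num x) ≠ rout n1 n2 num st (num x) ↔ door n1 n2 x := by
  unfold rin rout door
  rw [nu_num H hx]
  constructor
  · intro h hc
    exact h (stw_congr hc)
  · intro h hc
    exact h (stw_inj F (rm_inw H hx) (rm_outw H hx) hc)

/-- the door vertices -/
noncomputable def doorSet (n1 n2 : ℕ) : Finset Vx :=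
  (({0, 1} : Finset ℕ) ×ˢ (Finset.Icc (1 : ℤ) n1 ×ˢ Finset.Icc (1 : ℤ) n2)) ∪
    ((({2, 3} : Finset ℕ) ×ˢ (Finset.Icc (2 : ℤ) n1 ×ˢ Finset.Icc (1 : ℤ) n2)) ∪
    (({4, 5} : Finset ℕ) ×ˢ (Finset.Icc (1 : ℤ) n1 ×ˢ Finset.Icc (2 : ℤ) n2)))

theorem card_doorSet (h1 : 1 ≤ n1) (h2 : 1 ≤ n2) : (doorSet n1 n2).card = 2 * nd n1 n2 := by
  unfold doorSet
  rw [Finset.card_union_of_disjoint, Finset.card_union_of_disjoint]
  · simp only [Finset.card_product, Int.card_Icc]
    have a1 : ({0, 1} : Finset ℕ).card = 2 := rfl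
    have a2 : ({2, 3} : Finset ℕ).card = 2 := rfl
    have a3 : ({4, 5} : Finset ℕ).card = 2 := rfl
    have b1 : ((n1 : ℤ) + 1 - 1).toNat = n1 := by omega
    have b2 : ((n2 : ℤ) + 1 - 1).toNat = n2 := by omega
    have b3 : ((n1 : ℤ) + 1 - 2).toNat = n1 - 1 := by omega
    have b4 : ((n2 : ℤ) + 1 - 2).toNat = n2 - 1 := by omega
    rw [a1, a2, a3, b1, b2, b3, b4]
    unfold nd
    ring
  · rw [Finset.disjoint_left]
    rintro ⟨k, i, j⟩ g1 g2
    simp only [Finset.mem_product, Finset.mem_insert, Finset.mem_singleton] at g1 g2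
    omega
  · rw [Finset.disjoint_left]
    rintro ⟨k, i, j⟩ g1 g2
    simp only [Finset.mem_union, Finset.mem_product, Finset.mem_insert, Finset.mem_singleton] at g1 g2
    omega

theorem mem_doorSet {x : Vx} (h1 : 1 ≤ n1) (h2 : 1 ≤ n2) (h : x ∈ doorSet n1 n2) : Pres n1 n2 x ∧ door n1 n2 x := by
  have hp : Pres n1 n2 x := by
    obtain ⟨k, i, j⟩ := x
    simp only [doorSet, Finset.mem_union, Finset.mem_product, Finset.mem_insert, Finset.mem_singleton,
      Finset.mem_Icc] at h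
    rcases h with ⟨h | h, h3⟩ | ⟨h | h, h3⟩ | ⟨h | h, h3⟩ <;> subst h <;> simp [Pres] <;> omega
  refine ⟨hp, (door_iff h1 h2 hp).2 ?_⟩
  obtain ⟨k, i, j⟩ := x
  simp only [doorSet, Finset.mem_union, Finset.mem_product, Finset.mem_insert, Finset.mem_singleton,
    Finset.mem_Icc] at h
  simp only
  omega

theorem card_le (H : Patch n1 n2 P Q num M pos)
    (C : Comp P Q (2 * n1 * n2) (3 * (P.n + 2 * nd n1 n2)) s p q T) (F : Forced n1 n2 P num s T st) :
    T.card ≤ 3 * P.n + 3 * ((Finset.range P.n).filter fun v => rin n1 n2 num st v ≠ rout n1 n2 num st v).card := by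
  have hc := C.count (hall H F)
  have hs := F.s_eq
  have h1 : 2 * nd n1 n2 ≤ ((Finset.range P.n).filter fun v => rin n1 n2 num st v ≠ rout n1 n2 num st v).card := by
    rw [← card_doorSet H.h1 H.h2]
    refine Finset.card_le_card_of_injOn num ?_ ?_
    · intro x hx
      obtain ⟨hp, hd⟩ := mem_doorSet H.h1 H.h2 hx
      simp only [Finset.coe_filter, Finset.mem_range, Set.mem_ofPred_eq]
      exact ⟨H.lt x hp, (door_rin H F hp).2 hd⟩
    · intro x hx y hy hxy
      exact H.inj x y (mem_doorSet H.h1 H.h2 hx).1 (mem_doorSet H.h1 H.h2 hy).1 hxy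
  omega

/-- a triangle with a door vertex after the centre of the room of its incoming wall -/
theorem door_cases (H : Patch n1 n2 P Q num M pos)
    (C : Comp P Q (2 * n1 * n2) (3 * (P.n + 2 * nd n1 n2)) s p q T) (F : Forced n1 n2 P num s T st) {x : Vx}
    (hx : Pres n1 n2 x) (hd : door n1 n2 x) :
    (stw st (inw n1 n2 x), num x, stw st (outw n1 n2 x)) ∈ T ∨
      ∃ y, Pres n1 n2 y ∧ door n1 n2 y ∧ wr (outw n1 n2 y) = wr (inw n1 n2 x) ∧
        (stw st (inw n1 n2 x), num x, num y) ∈ T := by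
  have hT := tri H C F
  obtain ⟨hw, hwv⟩ := wp_inw H.h1 H.h2 hx
  have hxn := H.lt x hx
  have hge := (F.ge _ _ _ (rm_inw H hx)).1
  have h1 := F.tri _ _ _ hw
  rw [hwv] at h1
  change (num (wu (inw n1 n2 x).1 (inw n1 n2 x).2.1 (inw n1 n2 x).2.2), num x, stw st (inw n1 n2 x)) ∈ T at h1
  change P.n ≤ stw st (inw n1 n2 x) at hge
  have hno : ∀ a, ¬ IsWall P a (stw st (inw n1 n2 x)) := fun a h => by have := (hT.ltW _ _ h).2; omega
  have hno' : ∀ a, ¬ IsWall P (stw st (inw n1 n2 x)) a := fun a h => by have := (hT.ltW _ _ h).1; omega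
  obtain ⟨c, hc⟩ := hT.twin _ _ _ (hT.rot _ _ _ h1) (hno _)
  have erin : rin n1 n2 num st (num x) = stw st (inw n1 n2 x) := by unfold rin; rw [nu_num H hx]
  have erout : rout n1 n2 num st (num x) = stw st (outw n1 n2 x) := by unfold rout; rw [nu_num H hx]
  have hdr := (door_rin H F hx).2 hd
  have hno2 : ¬ IsWall P (num x) c := by
    intro hW
    have h2 := hT.apex_out _ _ hW
    have h3 := hT.rot _ _ _ hc
    have h4 := hT.uniq _ _ _ _ h2 h3
    rw [← erin] at h4
    exact hdr h4.symm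
  have hm := marked hT (card_le H C F) hc (hno' _) hno2 (hno _)
  -- the mark `(num x, c)`
  have m2 : Mark P.n (rin n1 n2 num st) (rout n1 n2 num st) (num x) c → c = stw st (outw n1 n2 x) := by
    rintro (⟨g1, g2, g3⟩ | ⟨g1, g2, g3⟩)
    · exfalso
      obtain ⟨u, hu, -⟩ := hT.inW c g1
      have := (hT.big _ _ hu).1
      omega
    · rw [g3, erout]
  rcases hm with ⟨-, hm⟩ | ⟨hm, -⟩ | ⟨hm, -⟩
  · left; rw [← m2 hm]; exact hc
  · left; rw [← m2 hm]; exact hc
  · right
    rcases hm with ⟨g1, g2, g3⟩ | ⟨g1, g2, g3⟩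
    · omega
    · obtain ⟨hy, he⟩ := nu_spec H g1
      refine ⟨nu n1 n2 num c, hy, ?_, ?_, ?_⟩
      · rw [← door_rin H F hy, he]; exact g2
      · refine stw_inj F (rm_outw H hy) (rm_inw H hx) ?_
        rw [g3]
        rfl
      · rw [he]; exact hc

/-- a triangle with two centres -/
theorem two_centres (H : Patch n1 n2 P Q num M pos)
    (C : Comp P Q (2 * n1 * n2) (3 * (P.n + 2 * nd n1 n2)) s p q T) (F : Forced n1 n2 P num s T st) {a b d : ℕ}
    (ha : P.n ≤ a) (hb : P.n ≤ b) (h : (a, b, d) ∈ T) :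
    ∃ y, Pres n1 n2 y ∧ door n1 n2 y ∧ d = num y ∧ b = stw st (inw n1 n2 y) ∧ a = stw st (outw n1 n2 y) := by
  have hT := tri H C F
  have n1' : ¬ IsWall P a b := fun h => by have := (hT.ltW _ _ h).1; omega
  have n2' : ¬ IsWall P b d := fun h => by have := (hT.ltW _ _ h).1; omega
  have n3' : ¬ IsWall P d a := fun h => by have := (hT.ltW _ _ h).2; omega
  have hm := marked hT (card_le H C F) h n1' n2' n3'
  have m1 : ¬ Mark P.n (rin n1 n2 num st) (rout n1 n2 num st) a b := by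
    rintro (⟨g1, -⟩ | ⟨g1, -⟩) <;> omega
  have hm' : Mark P.n (rin n1 n2 num st) (rout n1 n2 num st) b d ∧
      Mark P.n (rin n1 n2 num st) (rout n1 n2 num st) d a := by
    rcases hm with ⟨g, -⟩ | g | ⟨-, g⟩
    · exact absurd g m1
    · exact g
    · exact absurd g m1
  obtain ⟨hm1, hm2⟩ := hm'
  rcases hm1 with ⟨g1, g2, g3⟩ | ⟨g1, -⟩
  · rcases hm2 with ⟨g4, -⟩ | ⟨-, -, g6⟩
    · omega
    · obtain ⟨hy, he⟩ := nu_spec H g1
      refine ⟨nu n1 n2 num d, hy, ?_, he.symm, g3, g6⟩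
      rw [← door_rin H F hy, he]; exact g2
  · omega

/-- the twin of the edge between two centres -/
theorem twin_centres (H : Patch n1 n2 P Q num M pos)
    (C : Comp P Q (2 * n1 * n2) (3 * (P.n + 2 * nd n1 n2)) s p q T) (F : Forced n1 n2 P num s T st) {a b d : ℕ}
    (ha : P.n ≤ a) (hb : P.n ≤ b) (h : (b, a, d) ∈ T) :
    ∃ y, Pres n1 n2 y ∧ door n1 n2 y ∧ b = stw st (inw n1 n2 y) ∧ a = stw st (outw n1 n2 y) ∧ (a, b, num y) ∈ T := by
  have hT := tri H C F
  obtain ⟨c, hc⟩ := hT.twin _ _ _ h (fun h => by have := (hT.ltW _ _ h).1; omega)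
  obtain ⟨y, h1, h2, rfl, h4, h5⟩ := two_centres H C F ha hb hc
  exact ⟨y, h1, h2, h4, h5, hc⟩

end

end Pool.Agent.Lib.MP_6ff0c5_lc.C
end

section

/-!
MP_6ff0c5_lc, part C: the triangles at the doors (geometric part).
-/

set_option autoImplicit false

namespace Pool.Agent.Lib.MP_6ff0c5_lc.C

open K

section

variable {n1 n2 : ℕ} {P Q : Poly} {num : Vx → ℕ} {M : ℝ} {pos : Vx → Pt} {k N3 s : ℕ} {p q : ℕ → Pt}
  {T : Finset (ℕ × ℕ × ℕ)} {st : ℕ → ℤ → ℤ → ℕ}

/-- exclusion in the first drawing -/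
theorem exclP {L : List (ℕ × ℤ × ℤ)} {a b : Vx} {t : Tree}
    (hok : claimOk nomP 20 L [oriForm (nomP a) (nomP b)] t = true) {z : ℕ} {I J : ℤ}
    (hL : ∀ w ∈ L, w.2.1 = 0 ∧ w.2.2 = 0 ∧ Cv pos p q z w.1 I J)
    (h : 0 ≤ orient (posP (sh a I J)) (posP (sh b I J)) (p z)) : False := by
  refine claim_sound (apprP 20 (by norm_num) (p z - offP I J)) hok ?_ ?_
  · intro w hw
    obtain ⟨g1, g2, g3⟩ := hL w hw
    have := g3.trP I J
    rw [sub_self, sub_self] at this
    rw [g1, g2]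
    exact this
  · intro f hf
    rw [List.mem_singleton] at hf
    subst hf
    rw [oriForm_ev]
    change _ ≤ orient (posP a) (posP b) _
    rw [posP_sh a I J, posP_sh b I J]
    unfold offP
    rw [orient_sub]
    push_cast
    linarith

/-- exclusion in the second drawing -/
theorem exclQ (H : Patch n1 n2 P Q num M pos) (C : Comp P Q k N3 s p q T) {L : List (ℕ × ℤ × ℤ)} {a b : Vx} {t : Tree}
    (hok : claimOk nomQ 1000000 L [oriForm (nomQ a) (nomQ b)] t = true) (ha : inW a = true) (hb : inW b = true) {z : ℕ}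
    (hz : Vt T z) {I J : ℤ} (h1 : 1 ≤ I) (h2 : I ≤ n1) (h3 : 1 ≤ J) (h4 : J ≤ n2)
    (hL : ∀ w ∈ L, w.2.1 = 0 ∧ w.2.2 = 0 ∧ Cv pos p q z w.1 I J)
    (h : 0 ≤ orient (pos (sh a I J)) (pos (sh b I J)) (q z)) : False := by
  have A := (H.qpos.sh I J).appr (bnd_shift H C hz h1 h2 h3 h4)
  refine claim_sound A hok ?_ ?_
  · intro w hw
    obtain ⟨g1, g2, g3⟩ := hL w hw
    have := g3.trQ (M := M) I J
    rw [sub_self, sub_self] at this
    rw [g1, g2]
    exact this
  · intro f hf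
    rw [List.mem_singleton] at hf
    subst hf
    refine A.ln a b ha hb ?_
    unfold shQ offQ
    rw [orient_sub]
    exact h

/-- the walls 3, …, 11 -/
def wallsB : List (ℕ × ℤ × ℤ) :=
  [(3, 0, 0), (4, 0, 0), (5, 0, 0), (6, 0, 0), (7, 0, 0), (8, 0, 0), (9, 0, 0), (10, 0, 0), (11, 0, 0)]

/-- the centre of a B room is near its nominal position -/
theorem pinQ (H : Patch n1 n2 P Q num M pos) (C : Comp P Q k N3 s p q T) {z : ℕ}
    (hz : Vt T z) {I J : ℤ} (h1 : 1 ≤ I) (h2 : I ≤ n1) (h3 : 1 ≤ J) (h4 : J ≤ n2)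
    (hc : ∀ w, 3 ≤ w → w < 12 → Cv pos p q z w I J) :
    |(q z - offQ M I J).1| ≤ 300 * M ∧ |(q z - offQ M I J).2 - 214500 * M| ≤ 300 * M := by
  have A := (H.qpos.sh I J).appr (bnd_shift H C hz h1 h2 h3 h4)
  have hM : 0 < M := by have := H.qpos.big; linarith
  have hcov : ∀ w ∈ wallsB, Cov (shQ M pos I J) (wu w.1 w.2.1 w.2.2) (wv w.1 w.2.1 w.2.2) (q z - offQ M I J) := by
    intro w hw
    have hw' : 3 ≤ w.1 ∧ w.1 < 12 ∧ w.2.1 = 0 ∧ w.2.2 = 0 := by
      unfold wallsB at hw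
      simp only [List.mem_cons, List.not_mem_nil, or_false] at hw
      rcases hw with rfl | rfl | rfl | rfl | rfl | rfl | rfl | rfl | rfl <;> decide
    have := (hc w.1 hw'.1 hw'.2.1).trQ (M := M) I J
    rw [sub_self, sub_self] at this
    rw [hw'.2.2.1, hw'.2.2.2]
    exact this
  have key : ∀ (f : Form) (t : Tree), claimOk nomQ 1000000 wallsB [f] t = true →
      f.ev ((q z - offQ M I J).1 / M, (q z - offQ M I J).2 / M) < 0 := by
    intro f t hok
    by_contra hcon
    push Not at hcon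
    refine claim_sound A hok hcov ?_
    intro g hg
    rw [List.mem_singleton] at hg
    subst hg
    push_cast
    linarith
  have k1 := key ⟨1000000, 0, -300000000⟩ (.l 0 8 9) (by decide +kernel)
  have k2 := key ⟨-1000000, 0, -300000000⟩ (.l 0 6 9) (by decide +kernel)
  have k3 := key ⟨0, 1000000, -214500000000 - 300000000⟩ (.l 2 8 9) (by decide +kernel)
  have k4 := key ⟨0, -1000000, 214500000000 - 300000000⟩ (.l 0 8 9) (by decide +kernel)
  unfold Form.ev at k1 k2 k3 k4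
  simp only at k1 k2 k3 k4
  push_cast at k1 k2 k3 k4
  set x := (q z - offQ M I J).1
  set y := (q z - offQ M I J).2
  have e1 : x / M * M = x := div_mul_cancel₀ x hM.ne'
  have e2 : y / M * M = y := div_mul_cancel₀ y hM.ne'
  have k1' := mul_lt_mul_of_pos_right k1 hM
  have k2' := mul_lt_mul_of_pos_right k2 hM
  have k3' := mul_lt_mul_of_pos_right k3 hM
  have k4' := mul_lt_mul_of_pos_right k4 hM
  constructor
  · rw [abs_le]; constructor <;> nlinarith
  · rw [abs_le]; constructor <;> nlinarith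

theorem mulb {x y A B α β : ℝ} (hx : |x - A| ≤ α) (hy : |y - B| ≤ β) : |x * y - A * B| ≤ |A| * β + |B| * α + α * β := by
  have e : x * y - A * B = A * (y - B) + B * (x - A) + (x - A) * (y - B) := by ring
  have hα := (abs_nonneg _).trans hx
  rw [e]
  refine (abs_add_le _ _).trans (add_le_add ((abs_add_le _ _).trans (add_le_add ?_ ?_)) ?_)
  · rw [abs_mul]; exact mul_le_mul_of_nonneg_left hy (abs_nonneg _)
  · rw [abs_mul]; exact mul_le_mul_of_nonneg_left hx (abs_nonneg _)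
  · rw [abs_mul]; exact mul_le_mul hx hy (abs_nonneg _) hα

/-- three half-planes without a common point -/
theorem core7 {b2 b3 l2 r3 r1 l1 σ : Pt} (hb2 : |b2.1 - 214500| ≤ 300 ∧ |b2.2| ≤ 300)
    (hb3 : |b3.1 - 429000| ≤ 300 ∧ |b3.2 - 1083000| ≤ 300) (hl2 : |l2.1 - 143000| ≤ 1 ∧ |l2.2| ≤ 1)
    (hr3 : |r3.1 - 57200| ≤ 1 ∧ |r3.2 - 144400| ≤ 1) (hr1 : |r1.1 - 20592| ≤ 1 ∧ |r1.2 - 210168| ≤ 1)
    (hl1 : |l1.1| ≤ 1 ∧ |l1.2 - -42900| ≤ 1) (h1 : 0 ≤ orient b2 l2 σ) (h2 : 0 ≤ orient r3 b3 σ)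
    (h3 : 0 ≤ orient r1 l1 σ) : False := by
  have sb : ∀ {x y A B α β : ℝ}, |x - A| ≤ α → |y - B| ≤ β → |(x - y) - (A - B)| ≤ α + β := by
    intro x y A B α β hx hy
    have e : (x - y) - (A - B) = (x - A) - (y - B) := by ring
    rw [e]
    exact (abs_sub _ _).trans (add_le_add hx hy)
  have z0 : ∀ {x c : ℝ}, |x| ≤ c → |x - 0| ≤ c := fun h => by rwa [sub_zero]
  -- the vectors
  have d1x := sb hl2.1 hb2.1
  have d1y := sb (z0 hl2.2) (z0 hb2.2)
  have d2x := sb hb3.1 hr3.1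
  have d2y := sb hb3.2 hr3.2
  have d3x := sb (z0 hl1.1) hr1.1
  have d3y := sb hl1.2 hr1.2
  have e1x := sb hl2.1 hr3.1
  have e1y := sb (z0 hl2.2) hr3.2
  have e3x := sb hr1.1 hr3.1
  have e3y := sb hr1.2 hr3.2
  -- the cross products
  have X := sb (mulb d2x d3y) (mulb d2y d3x)
  have Y := sb (mulb d1x d2y) (mulb d1y d2x)
  have W := sb (mulb d3x d1y) (mulb d3y d1x)
  have U := sb (mulb d1x e1y) (mulb d1y e1x)
  have V := sb (mulb d3x e3y) (mulb d3y e3x)
  norm_num at X Y W U V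
  set xX := (b3.1 - r3.1) * (l1.2 - r1.2) - (b3.2 - r3.2) * (l1.1 - r1.1) with hX
  set xY := (l2.1 - b2.1) * (b3.2 - r3.2) - (l2.2 - b2.2) * (b3.1 - r3.1) with hY
  set xW := (l1.1 - r1.1) * (l2.2 - b2.2) - (l1.2 - r1.2) * (l2.1 - b2.1) with hW
  set xU := (l2.1 - b2.1) * (l2.2 - r3.2) - (l2.2 - b2.2) * (l2.1 - r3.1) with hU
  set xV := (l1.1 - r1.1) * (r1.2 - r3.2) - (l1.2 - r1.2) * (r1.1 - r3.1) with hV
  have hid : xX * orient b2 l2 σ + xW * orient r3 b3 σ + xY * orient r1 l1 σ = -(xX * xU) - xY * xV := by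
    rw [hX, hY, hW, hU, hV]; unfold orient; ring
  have hXneg : xX ≤ 0 := by have := (abs_le.1 X).2; linarith
  have hYneg : xY ≤ 0 := by have := (abs_le.1 Y).2; linarith
  have hWneg : xW ≤ 0 := by have := (abs_le.1 W).2; linarith
  have hLHS : xX * orient b2 l2 σ + xW * orient r3 b3 σ + xY * orient r1 l1 σ ≤ 0 := by
    have := mul_nonneg (neg_nonneg.2 hXneg) h1
    have := mul_nonneg (neg_nonneg.2 hWneg) h2
    have := mul_nonneg (neg_nonneg.2 hYneg) h3
    linarith
  have X' : |xX - -74763031200| ≤ 85000000 := by rw [sub_neg_eq_add]; linarith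
  have Y' : |xY - -67109900000| ≤ 417000000 := by rw [sub_neg_eq_add]; linarith
  have U' : |xU - 10324600000| ≤ 70000000 := by linarith
  have V' : |xV - -10618608000| ≤ 1000000 := by rw [sub_neg_eq_add]; linarith
  have hXU := mulb X' U'
  have hYV := mulb Y' V'
  norm_num at hXU hYV
  have g1 := (abs_le.1 hXU).2
  have g2 := (abs_le.1 hYV).2
  linarith

end

end Pool.Agent.Lib.MP_6ff0c5_lc.C
end

section

/-!
MP_6ff0c5_lc, part C: compatible triangulations of the two polygons give centres with positively oriented triangles.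
-/

set_option autoImplicit false

namespace Pool.Agent.Lib.MP_6ff0c5_lc.C

open K

section

variable {n1 n2 : ℕ} {P Q : Poly} {num : Vx → ℕ} {M : ℝ} {pos : Vx → Pt} {k N3 s : ℕ} {p q : ℕ → Pt}
  {T : Finset (ℕ × ℕ × ℕ)} {st : ℕ → ℤ → ℤ → ℕ}

theorem divb {x c r : ℝ} (hM : 0 < M) (h : |x - c * M| ≤ r * M) : |x / M - c| ≤ r := by
  have e : x / M - c = (x - c * M) / M := by field_simp
  rw [e, abs_div, abs_of_pos hM, div_le_iff₀ hM]
  exact h

theorem excl7 (H : Patch n1 n2 P Q num M pos) {z : ℕ} {I J : ℤ} {b2 b3 : Pt}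
    (hb2 : |(b2 - offQ M (I - 1) J).1| ≤ 300 * M ∧ |(b2 - offQ M (I - 1) J).2 - 214500 * M| ≤ 300 * M)
    (hb3 : |(b3 - offQ M I (J - 1)).1| ≤ 300 * M ∧ |(b3 - offQ M I (J - 1)).2 - 214500 * M| ≤ 300 * M)
    (h1 : 0 ≤ orient b2 (pos (2, I, J)) (q z)) (h2 : 0 ≤ orient (pos (5, I, J)) b3 (q z))
    (h3 : 0 ≤ orient (pos (1, I, J)) (pos (0, I, J)) (q z)) : False := by
  have hbig := H.qpos.big
  have hM : 0 < M := by linarith
  have ho : ∀ a b c : Pt, 0 ≤ orient a b c →
      0 ≤ orient (((a - offQ M I J).1 / M, (a - offQ M I J).2 / M) : Pt)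
        (((b - offQ M I J).1 / M, (b - offQ M I J).2 / M) : Pt) (((c - offQ M I J).1 / M, (c - offQ M I J).2 / M) : Pt) := by
    intro a b c h
    have e : orient (((a - offQ M I J).1 / M, (a - offQ M I J).2 / M) : Pt)
        (((b - offQ M I J).1 / M, (b - offQ M I J).2 / M) : Pt)
        (((c - offQ M I J).1 / M, (c - offQ M I J).2 / M) : Pt) = orient a b c / M ^ 2 := by
      rw [← orient_sub a b c (offQ M I J)]
      unfold orient
      field_simp
    rw [e]
    positivity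
  have hv : ∀ k : ℕ, k < 14 → |((pos (k, I, J) - offQ M I J).1 / M) - ((tabQ.getD k (0, 0)).1 : ℝ)| ≤ 1 ∧
      |((pos (k, I, J) - offQ M I J).2 / M) - ((tabQ.getD k (0, 0)).2 : ℝ)| ≤ 1 := by
    intro k hk
    obtain ⟨n1, n2⟩ := H.qpos.near (k, I, J) hk
    constructor
    · refine divb hM ?_
      have e : (pos (k, I, J) - offQ M I J).1 - ((tabQ.getD k (0, 0)).1 : ℝ) * M =
          (pos (k, I, J)).1 - M * ((nomQ (k, I, J)).1 : ℝ) := by
        unfold offQ nomQ; simp only [Prod.fst_sub]; push_cast; ring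
      rw [e]; linarith
    · refine divb hM ?_
      have e : (pos (k, I, J) - offQ M I J).2 - ((tabQ.getD k (0, 0)).2 : ℝ) * M =
          (pos (k, I, J)).2 - M * ((nomQ (k, I, J)).2 : ℝ) := by
        unfold offQ nomQ; simp only [Prod.snd_sub]; push_cast; ring
      rw [e]; linarith
  refine core7 (b2 := ((b2 - offQ M I J).1 / M, (b2 - offQ M I J).2 / M))
    (b3 := ((b3 - offQ M I J).1 / M, (b3 - offQ M I J).2 / M))
    (l2 := ((pos (2, I, J) - offQ M I J).1 / M, (pos (2, I, J) - offQ M I J).2 / M))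
    (r3 := ((pos (5, I, J) - offQ M I J).1 / M, (pos (5, I, J) - offQ M I J).2 / M))
    (r1 := ((pos (1, I, J) - offQ M I J).1 / M, (pos (1, I, J) - offQ M I J).2 / M))
    (l1 := ((pos (0, I, J) - offQ M I J).1 / M, (pos (0, I, J) - offQ M I J).2 / M))
    ?_ ?_ ?_ ?_ ?_ ?_ (ho _ _ _ h1) (ho _ _ _ h2) (ho _ _ _ h3)
  · constructor
    · refine divb hM ?_
      have e : (b2 - offQ M I J).1 - 214500 * M = (b2 - offQ M (I - 1) J).1 := by
        unfold offQ; simp only [Prod.fst_sub]; push_cast; ring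
      rw [e]; exact hb2.1
    · have e : |(b2 - offQ M I J).2 / M - 0| ≤ 300 := by
        refine divb hM ?_
        have e : (b2 - offQ M I J).2 - 0 * M = (b2 - offQ M (I - 1) J).2 - 214500 * M := by
          unfold offQ; simp only [Prod.snd_sub]; push_cast; ring
        rw [e]; exact hb2.2
      rwa [sub_zero] at e
  · constructor
    · refine divb hM ?_
      have e : (b3 - offQ M I J).1 - 429000 * M = (b3 - offQ M I (J - 1)).1 := by
        unfold offQ; simp only [Prod.fst_sub]; push_cast; ring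
      rw [e]; exact hb3.1
    · refine divb hM ?_
      have e : (b3 - offQ M I J).2 - 1083000 * M = (b3 - offQ M I (J - 1)).2 - 214500 * M := by
        unfold offQ; simp only [Prod.snd_sub]; push_cast; ring
      rw [e]; exact hb3.2
  · have h := hv 2 (by norm_num); norm_num [tabQ] at h ⊢; exact h
  · have h := hv 5 (by norm_num); norm_num [tabQ] at h ⊢; exact h
  · have h := hv 1 (by norm_num); norm_num [tabQ] at h ⊢; exact h
  · have h := hv 0 (by norm_num); norm_num [tabQ] at h ⊢; exact h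

theorem outA (h1 : 1 ≤ n1) (h2 : 1 ≤ n2) {y : Vx} {i j : ℤ} (hy : Pres n1 n2 y) (hd : door n1 n2 y)
    (h : wr (outw n1 n2 y) = (12, i, j)) : y = (0, i, j) ∨ y = (2, i, j) ∨ y = (4, i, j) := by
  rw [door_iff h1 h2 hy] at hd
  obtain ⟨k, a, b⟩ := y
  simp only at hd
  have hk : k < 6 := by omega
  interval_cases k <;> simp [outw, wr] at h hd ⊢ <;> (try split_ifs at h) <;> (try simp [wroom] at h) <;> omega

theorem outB (h1 : 1 ≤ n1) (h2 : 1 ≤ n2) {y : Vx} {i j : ℤ} (hy : Pres n1 n2 y) (hd : door n1 n2 y)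
    (h : wr (outw n1 n2 y) = (13, i, j)) : y = (1, i, j) ∨ y = (3, i + 1, j) ∨ y = (5, i, j + 1) := by
  rw [door_iff h1 h2 hy] at hd
  obtain ⟨k, a, b⟩ := y
  simp only at hd
  have hk : k < 6 := by omega
  interval_cases k <;> simp [outw, wr] at h hd ⊢ <;> (try split_ifs at h) <;> (try simp [wroom] at h) <;> omega

theorem inoutL (h1 : 1 ≤ n1) (h2 : 1 ≤ n2) {y : Vx} {i j i' j' : ℤ} (hy : Pres n1 n2 y) (hd : door n1 n2 y)
    (h : wr (inw n1 n2 y) = (13, i', j')) (h' : wr (outw n1 n2 y) = (12, i, j)) :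
    (i' = i ∧ j' = j ∧ y = (0, i, j)) ∨ (i' = i - 1 ∧ j' = j ∧ y = (2, i, j)) ∨ (i' = i ∧ j' = j - 1 ∧ y = (4, i, j)) := by
  rw [door_iff h1 h2 hy] at hd
  obtain ⟨k, a, b⟩ := y
  simp only at hd
  have hk : k < 6 := by omega
  interval_cases k <;> simp [inw, outw, wr] at h h' hd ⊢ <;> (try split_ifs at h h') <;>
    (try simp [wroom] at h h') <;> omega

theorem inoutR (h1 : 1 ≤ n1) (h2 : 1 ≤ n2) {y : Vx} {i j i' j' : ℤ} (hy : Pres n1 n2 y) (hd : door n1 n2 y)
    (h : wr (inw n1 n2 y) = (12, i, j)) (h' : wr (outw n1 n2 y) = (13, i', j')) :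
    (i' = i ∧ j' = j ∧ y = (1, i, j)) ∨ (i' = i - 1 ∧ j' = j ∧ y = (3, i, j)) ∨ (i' = i ∧ j' = j - 1 ∧ y = (5, i, j)) := by
  rw [door_iff h1 h2 hy] at hd
  obtain ⟨k, a, b⟩ := y
  simp only at hd
  have hk : k < 6 := by omega
  interval_cases k <;> simp [inw, outw, wr] at h h' hd ⊢ <;> (try split_ifs at h h') <;>
    (try simp [wroom] at h h') <;> omega

end

end Pool.Agent.Lib.MP_6ff0c5_lc.C
end

section

/-!
MP_6ff0c5_lc, part C: **soundness of the geometric part**.
-/

set_option autoImplicit false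

namespace Pool.Agent.Lib.MP_6ff0c5_lc.C

open K

section

variable {n1 n2 : ℕ} {P Q : Poly} {num : Vx → ℕ} {M : ℝ} {pos : Vx → Pt} {k N3 s : ℕ} {p q : ℕ → Pt}
  {T : Finset (ℕ × ℕ × ℕ)} {st : ℕ → ℤ → ℤ → ℕ}

theorem cell_pres {n1 n2 : ℕ} {i j : ℤ} (h1 : 1 ≤ i) (h2 : i ≤ n1) (h3 : 1 ≤ j) (h4 : j ≤ n2) {kk : ℕ} (hk : kk < 6) :
    Pres n1 n2 (kk, i, j) := by
  interval_cases kk <;> simp [Pres] <;> omega

/-- the centre of a room covers its walls -/
theorem cov_st (H : Patch n1 n2 P Q num M pos) (C : Comp P Q k N3 s p q T) (F : Forced n1 n2 P num s T st) {w r : ℕ}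
    {i j : ℤ} (hw : WP n1 n2 w i j) (hr : wroom w = r) : Cv pos p q (st r i j) w i j := by
  rw [← hr]; exact cv_tri H C hw (F.tri w i j hw)

theorem vt_st (F : Forced n1 n2 P num s T st) {r : ℕ} {i j : ℤ} (h : Rm n1 n2 r i j) : Vt T (st r i j) := by
  obtain ⟨hr, h1, h2, h3, h4⟩ := h
  rcases hr with rfl | rfl
  · exact ⟨_, F.tri 0 i j (wp_cell (by norm_num) h1 h2 h3 h4), Or.inr (Or.inr rfl)⟩
  · exact ⟨_, F.tri 3 i j (wp_cell (by norm_num) h1 h2 h3 h4), Or.inr (Or.inr rfl)⟩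

/-- door 2 from the side of the A room -/
theorem sdoor2 (H : Patch n1 n2 P Q num M pos)
    (C : Comp P Q (2 * n1 * n2) (3 * (P.n + 2 * nd n1 n2)) s p q T) (F : Forced n1 n2 P num s T st) {i j : ℤ}
    (h1 : 2 ≤ i) (h2 : i ≤ n1) (h3 : 1 ≤ j) (h4 : j ≤ n2) : (st 12 i j, num (3, i, j), st 13 (i - 1) j) ∈ T := by
  have hp : ∀ kk < 6, Pres n1 n2 (kk, i, j) := fun kk hk => cell_pres (by omega) h2 h3 h4 hk
  have hd : door n1 n2 (3, i, j) := (door_iff H.h1 H.h2 (hp 3 (by norm_num))).2 (Or.inr (Or.inl ⟨Or.inr rfl, h1, h2, h3, h4⟩))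
  have ei : inw n1 n2 (3, i, j) = (0, i, j) := by simp [inw]; omega
  have eo : outw n1 n2 (3, i, j) = (7, i - 1, j) := by simp [outw]; omega
  have hc := door_cases H C F (hp 3 (by norm_num)) hd
  rw [ei, eo] at hc
  rcases hc with hc | ⟨y, hy, hdy, hwr, hc⟩
  · exact hc
  · exfalso
    change (st 12 i j, num (3, i, j), num y) ∈ T at hc
    have hcv : ∀ w ∈ ([(0, 0, 0), (1, 0, 0), (2, 0, 0)] : List (ℕ × ℤ × ℤ)), w.2.1 = 0 ∧ w.2.2 = 0 ∧
        Cv pos p q (st 12 i j) w.1 i j := by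
      intro w hw
      simp only [List.mem_cons, List.not_mem_nil, or_false] at hw
      rcases hw with rfl | rfl | rfl
      · exact ⟨rfl, rfl, cov_st H C F (wp_cell (by norm_num) (by omega) h2 h3 h4) rfl⟩
      · exact ⟨rfl, rfl, cov_st H C F (wp_cell (by norm_num) (by omega) h2 h3 h4) rfl⟩
      · exact ⟨rfl, rfl, cov_st H C F (wp_cell (by norm_num) (by omega) h2 h3 h4) rfl⟩
    have ho := (C.pos _ hc).1
    unfold otri at ho
    simp only [(pp H C (hp 3 (by norm_num))).1, (pp H C hy).1] at ho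
    rw [← orient_rot] at ho
    rcases outA H.h1 H.h2 hy hdy hwr with rfl | rfl | rfl
    · exact C.noWall (num (0, i, j)) (num (3, i, j)) _
        ((H.wall _ _).2 ⟨0, i, j, wp_cell (by norm_num) (by omega) h2 h3 h4, by simp [wu, wallTab, sh],
          by simp [wv, wallTab, sh]⟩) (C.rot _ hc)
    · refine exclP (a := (3, 0, 0)) (b := (2, 0, 0)) (t := .l 0 2 3) (by decide +kernel) hcv ?_
      simp only [sh, zero_add]; exact ho.le
    · refine exclP (a := (3, 0, 0)) (b := (4, 0, 0)) (t := .l 0 2 3) (by decide +kernel) hcv ?_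
      simp only [sh, zero_add]; exact ho.le

/-- door 2, the other triangle -/
theorem sdoor2' (H : Patch n1 n2 P Q num M pos)
    (C : Comp P Q (2 * n1 * n2) (3 * (P.n + 2 * nd n1 n2)) s p q T) (F : Forced n1 n2 P num s T st) {i j : ℤ}
    (h1 : 2 ≤ i) (h2 : i ≤ n1) (h3 : 1 ≤ j) (h4 : j ≤ n2) : (st 12 i j, st 13 (i - 1) j, num (2, i, j)) ∈ T := by
  have hA : Rm n1 n2 12 i j := ⟨Or.inl rfl, by omega, h2, h3, h4⟩
  have hB : Rm n1 n2 13 (i - 1) j := ⟨Or.inr rfl, by omega, by omega, h3, h4⟩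
  obtain ⟨y, hy, hdy, g1, g2, hT⟩ := twin_centres H C F (F.ge _ _ _ hA).1 (F.ge _ _ _ hB).1
    (C.rot _ (C.rot _ (sdoor2 H C F h1 h2 h3 h4)))
  have w1 : wr (inw n1 n2 y) = (13, i - 1, j) := by
    obtain ⟨e1, e2, e3⟩ := F.inj _ _ _ _ _ _ hB (rm_inw H hy) g1
    unfold wr; rw [← e1, ← e2, ← e3]
  have w2 : wr (outw n1 n2 y) = (12, i, j) := by
    obtain ⟨e1, e2, e3⟩ := F.inj _ _ _ _ _ _ hA (rm_outw H hy) g2
    unfold wr; rw [← e1, ← e2, ← e3]
  rcases inoutL H.h1 H.h2 hy hdy w1 w2 with ⟨e1, -, -⟩ | ⟨-, -, rfl⟩ | ⟨e1, -, -⟩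
  · omega
  · exact hT
  · omega

/-- door 3 from the side of the B room -/
theorem sdoor3 (H : Patch n1 n2 P Q num M pos)
    (C : Comp P Q (2 * n1 * n2) (3 * (P.n + 2 * nd n1 n2)) s p q T) (F : Forced n1 n2 P num s T st) {i j : ℤ}
    (h1 : 1 ≤ i) (h2 : i ≤ n1) (h3 : 2 ≤ j) (h4 : j ≤ n2) : (st 13 i (j - 1), num (4, i, j), st 12 i j) ∈ T := by
  have hp : ∀ kk < 6, Pres n1 n2 (kk, i, j) := fun kk hk => cell_pres h1 h2 (by omega) h4 hk
  have hd : door n1 n2 (4, i, j) := (door_iff H.h1 H.h2 (hp 4 (by norm_num))).2 (Or.inr (Or.inr ⟨Or.inl rfl, h1, h2, h3, h4⟩))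
  have ei : inw n1 n2 (4, i, j) = (7, i, j - 1) := by simp [inw]; omega
  have eo : outw n1 n2 (4, i, j) = (2, i, j) := by simp [outw]; omega
  have hc := door_cases H C F (hp 4 (by norm_num)) hd
  rw [ei, eo] at hc
  rcases hc with hc | ⟨y, hy, hdy, hwr, hc⟩
  · exact hc
  · exfalso
    change (st 13 i (j - 1), num (4, i, j), num y) ∈ T at hc
    have hcv : ∀ w ∈ wallsB, w.2.1 = 0 ∧ w.2.2 = 0 ∧ Cv pos p q (st 13 i (j - 1)) w.1 i (j - 1) := by
      intro w hw
      have hw' : w.1 < 12 ∧ w.2.1 = 0 ∧ w.2.2 = 0 ∧ wroom w.1 = 13 := by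
        unfold wallsB at hw
        simp only [List.mem_cons, List.not_mem_nil, or_false] at hw
        rcases hw with rfl | rfl | rfl | rfl | rfl | rfl | rfl | rfl | rfl <;> decide
      exact ⟨hw'.2.1, hw'.2.2.1, cov_st H C F (wp_cell hw'.1 h1 h2 (by omega) (by omega)) hw'.2.2.2⟩
    have ho := (C.pos _ hc).1
    unfold otri at ho
    simp only [(pp H C (hp 4 (by norm_num))).1, (pp H C hy).1] at ho
    rw [← orient_rot] at ho
    rcases outB H.h1 H.h2 hy hdy hwr with rfl | rfl | rfl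
    · refine exclP (a := (4, 0, 1)) (b := (1, 0, 0)) (t := .l 0 1 9) (by decide +kernel) hcv ?_
      simp only [sh, zero_add]
      rw [add_sub_cancel]; exact ho.le
    · refine C.noWall (num (3, i + 1, j - 1)) (num (4, i, j)) _
        ((H.wall _ _).2 ⟨7, i, j - 1, wp_cell (by norm_num) h1 h2 (by omega) (by omega), ?_, ?_⟩) (C.rot _ hc)
      · congr 1; simp [wu, wallTab, sh]; ring
      · congr 1; simp [wv, wallTab, sh]
    · refine exclP (a := (4, 0, 1)) (b := (5, 0, 1)) (t := .l 2 6 9) (by decide +kernel) hcv ?_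
      simp only [sh, zero_add]
      rw [add_sub_cancel]
      rw [sub_add_cancel] at ho
      exact ho.le

/-- door 3, the other triangle -/
theorem sdoor3' (H : Patch n1 n2 P Q num M pos)
    (C : Comp P Q (2 * n1 * n2) (3 * (P.n + 2 * nd n1 n2)) s p q T) (F : Forced n1 n2 P num s T st) {i j : ℤ}
    (h1 : 1 ≤ i) (h2 : i ≤ n1) (h3 : 2 ≤ j) (h4 : j ≤ n2) : (st 13 i (j - 1), st 12 i j, num (5, i, j)) ∈ T := by
  have hA : Rm n1 n2 12 i j := ⟨Or.inl rfl, h1, h2, by omega, h4⟩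
  have hB : Rm n1 n2 13 i (j - 1) := ⟨Or.inr rfl, h1, h2, by omega, by omega⟩
  obtain ⟨y, hy, hdy, g1, g2, hT⟩ := twin_centres H C F (F.ge _ _ _ hB).1 (F.ge _ _ _ hA).1
    (C.rot _ (C.rot _ (sdoor3 H C F h1 h2 h3 h4)))
  have w1 : wr (inw n1 n2 y) = (12, i, j) := by
    obtain ⟨e1, e2, e3⟩ := F.inj _ _ _ _ _ _ hA (rm_inw H hy) g1
    unfold wr; rw [← e1, ← e2, ← e3]
  have w2 : wr (outw n1 n2 y) = (13, i, j - 1) := by
    obtain ⟨e1, e2, e3⟩ := F.inj _ _ _ _ _ _ hB (rm_outw H hy) g2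
    unfold wr; rw [← e1, ← e2, ← e3]
  rcases inoutR H.h1 H.h2 hy hdy w1 w2 with ⟨-, e1, -⟩ | ⟨-, e1, -⟩ | ⟨-, -, rfl⟩
  · omega
  · omega
  · exact hT

/-- door 1 from the side of the A room -/
theorem door1 (H : Patch n1 n2 P Q num M pos)
    (C : Comp P Q (2 * n1 * n2) (3 * (P.n + 2 * nd n1 n2)) s p q T) (F : Forced n1 n2 P num s T st) {i j : ℤ}
    (h1 : 1 ≤ i) (h2 : i ≤ n1) (h3 : 1 ≤ j) (h4 : j ≤ n2) : (st 12 i j, num (1, i, j), st 13 i j) ∈ T := by
  have hp : ∀ kk < 6, Pres n1 n2 (kk, i, j) := fun kk hk => cell_pres h1 h2 h3 h4 hk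
  have hd : door n1 n2 (1, i, j) := (door_iff H.h1 H.h2 (hp 1 (by norm_num))).2 (Or.inl ⟨Or.inr rfl, h1, h2, h3, h4⟩)
  have ei : inw n1 n2 (1, i, j) = (2, i, j) := by simp [inw]
  have eo : outw n1 n2 (1, i, j) = (3, i, j) := by simp [outw]
  have hA : Rm n1 n2 12 i j := ⟨Or.inl rfl, h1, h2, h3, h4⟩
  have hM : 0 < M := by have := H.qpos.big; linarith
  have hc := door_cases H C F (hp 1 (by norm_num)) hd
  rw [ei, eo] at hc
  rcases hc with hc | ⟨y, hy, hdy, hwr, hc⟩
  · exact hc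
  · exfalso
    change (st 12 i j, num (1, i, j), num y) ∈ T at hc
    have hcv : ∀ w ∈ ([(0, 0, 0), (1, 0, 0), (2, 0, 0)] : List (ℕ × ℤ × ℤ)), w.2.1 = 0 ∧ w.2.2 = 0 ∧
        Cv pos p q (st 12 i j) w.1 i j := by
      intro w hw
      simp only [List.mem_cons, List.not_mem_nil, or_false] at hw
      rcases hw with rfl | rfl | rfl
      · exact ⟨rfl, rfl, cov_st H C F (wp_cell (by norm_num) h1 h2 h3 h4) rfl⟩
      · exact ⟨rfl, rfl, cov_st H C F (wp_cell (by norm_num) h1 h2 h3 h4) rfl⟩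
      · exact ⟨rfl, rfl, cov_st H C F (wp_cell (by norm_num) h1 h2 h3 h4) rfl⟩
    have ho := (C.pos _ hc).2
    unfold otri at ho
    simp only [(pp H C (hp 1 (by norm_num))).2, (pp H C hy).2] at ho
    rw [← orient_rot] at ho
    -- a point near the nominal position
    have hnear : ∀ a b : ℤ, |(pos (13, a, b) - offQ M a b).1| ≤ 300 * M ∧
        |(pos (13, a, b) - offQ M a b).2 - 214500 * M| ≤ 300 * M := by
      intro a b
      obtain ⟨g1, g2⟩ := H.qpos.near (13, a, b) (by norm_num)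
      have hbig := H.qpos.big
      have e1 : (pos (13, a, b)).1 - M * ((nomQ (13, a, b)).1 : ℝ) = (pos (13, a, b) - offQ M a b).1 := by
        unfold offQ nomQ; simp only [tabQ, Prod.fst_sub, List.getD_cons_succ, List.getD_cons_zero]; push_cast; ring
      have e2 : (pos (13, a, b)).2 - M * ((nomQ (13, a, b)).2 : ℝ) =
          (pos (13, a, b) - offQ M a b).2 - 214500 * M := by
        unfold offQ nomQ; simp only [tabQ, Prod.snd_sub, List.getD_cons_succ, List.getD_cons_zero]; push_cast; ring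
      rw [e1] at g1
      rw [e2] at g2
      constructor <;> linarith
    rcases outA H.h1 H.h2 hy hdy hwr with rfl | rfl | rfl
    · -- the point `b2`
      have hb2 : ∃ b2 : Pt, (|(b2 - offQ M (i - 1) j).1| ≤ 300 * M ∧ |(b2 - offQ M (i - 1) j).2 - 214500 * M| ≤ 300 * M) ∧
          0 ≤ orient b2 (pos (2, i, j)) (q (st 12 i j)) := by
        by_cases hi : i = 1
        · have hw : WP n1 n2 13 i j := ⟨by norm_num, h1, h2, h3, h4, fun _ => hi, by norm_num, by norm_num, by norm_num⟩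
          have ht := F.tri 13 i j hw
          have e1 : wu 13 i j = (13, i - 1, j) := by simp [wu, wallTab, sh]; ring
          have e2 : wv 13 i j = (2, i, j) := by simp [wv, wallTab, sh]
          have e3 : wroom 13 = 12 := rfl
          have hp13 : Pres n1 n2 (13, i - 1, j) := by rw [← e1]; exact pres_wu hw
          rw [e1, e2, e3] at ht
          have h5 := (C.pos _ ht).2
          unfold otri at h5
          simp only [(pp H C hp13).2, (pp H C (hp 2 (by norm_num))).2] at h5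
          exact ⟨pos (13, i - 1, j), hnear _ _, h5.le⟩
        · have hB : Rm n1 n2 13 (i - 1) j := ⟨Or.inr rfl, by omega, by omega, h3, h4⟩
          have ht := C.rot _ (sdoor2' H C F (by omega : 2 ≤ i) h2 h3 h4)
          have h5 := (C.pos _ ht).2
          unfold otri rot at h5
          simp only [(pp H C (hp 2 (by norm_num))).2] at h5
          refine ⟨q (st 13 (i - 1) j), pinQ H C (vt_st F hB) (by omega) (by omega) h3 h4 ?_, h5.le⟩
          intro w hw1 hw2
          refine cov_st H C F (wp_cell hw2 (by omega) (by omega) h3 h4) ?_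
          unfold wroom; rw [if_neg (by omega), if_pos hw2]
      have hb3 : ∃ b3 : Pt, (|(b3 - offQ M i (j - 1)).1| ≤ 300 * M ∧ |(b3 - offQ M i (j - 1)).2 - 214500 * M| ≤ 300 * M) ∧
          0 ≤ orient (pos (5, i, j)) b3 (q (st 12 i j)) := by
        by_cases hj : j = 1
        · have hw : WP n1 n2 14 i j := ⟨by norm_num, h1, h2, h3, h4, by norm_num, fun _ => hj, by norm_num, by norm_num⟩
          have ht := F.tri 14 i j hw
          have e1 : wu 14 i j = (5, i, j) := by simp [wu, wallTab, sh]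
          have e2 : wv 14 i j = (13, i, j - 1) := by simp [wv, wallTab, sh]; ring
          have e3 : wroom 14 = 12 := rfl
          have hp13 : Pres n1 n2 (13, i, j - 1) := by rw [← e2]; exact pres_wv hw
          rw [e1, e2, e3] at ht
          have h5 := (C.pos _ ht).2
          unfold otri at h5
          simp only [(pp H C hp13).2, (pp H C (hp 5 (by norm_num))).2] at h5
          exact ⟨pos (13, i, j - 1), hnear _ _, h5.le⟩
        · have hB : Rm n1 n2 13 i (j - 1) := ⟨Or.inr rfl, h1, h2, by omega, by omega⟩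
          have ht := C.rot _ (C.rot _ (sdoor3' H C F h1 h2 (by omega : 2 ≤ j) h4))
          have h5 := (C.pos _ ht).2
          unfold otri rot at h5
          simp only [(pp H C (hp 5 (by norm_num))).2] at h5
          refine ⟨q (st 13 i (j - 1)), pinQ H C (vt_st F hB) h1 h2 (by omega) (by omega) ?_, h5.le⟩
          intro w hw1 hw2
          refine cov_st H C F (wp_cell hw2 h1 h2 (by omega) (by omega)) ?_
          unfold wroom; rw [if_neg (by omega), if_pos hw2]
      obtain ⟨b2, hb2, ho2⟩ := hb2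
      obtain ⟨b3, hb3, ho3⟩ := hb3
      exact excl7 H hb2 hb3 ho2 ho3 ho.le
    · refine exclQ H C (a := (1, 0, 0)) (b := (2, 0, 0)) (t := .l 0 1 3) (by decide +kernel) (by decide) (by decide)
        (vt_st F hA) h1 h2 h3 h4 hcv ?_
      simp only [sh, zero_add]; exact ho.le
    · exact C.noWall (num (4, i, j)) (num (1, i, j)) _
        ((H.wall _ _).2 ⟨2, i, j, wp_cell (by norm_num) h1 h2 h3 h4, by simp [wu, wallTab, sh],
          by simp [wv, wallTab, sh]⟩) (C.rot _ hc)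

/-- door 1, the other triangle -/
theorem door1' (H : Patch n1 n2 P Q num M pos)
    (C : Comp P Q (2 * n1 * n2) (3 * (P.n + 2 * nd n1 n2)) s p q T) (F : Forced n1 n2 P num s T st) {i j : ℤ}
    (h1 : 1 ≤ i) (h2 : i ≤ n1) (h3 : 1 ≤ j) (h4 : j ≤ n2) : (st 12 i j, st 13 i j, num (0, i, j)) ∈ T := by
  have hA : Rm n1 n2 12 i j := ⟨Or.inl rfl, h1, h2, h3, h4⟩
  have hB : Rm n1 n2 13 i j := ⟨Or.inr rfl, h1, h2, h3, h4⟩
  obtain ⟨y, hy, hdy, g1, g2, hT⟩ := twin_centres H C F (F.ge _ _ _ hA).1 (F.ge _ _ _ hB).1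
    (C.rot _ (C.rot _ (door1 H C F h1 h2 h3 h4)))
  have w1 : wr (inw n1 n2 y) = (13, i, j) := by
    obtain ⟨e1, e2, e3⟩ := F.inj _ _ _ _ _ _ hB (rm_inw H hy) g1
    unfold wr; rw [← e1, ← e2, ← e3]
  have w2 : wr (outw n1 n2 y) = (12, i, j) := by
    obtain ⟨e1, e2, e3⟩ := F.inj _ _ _ _ _ _ hA (rm_outw H hy) g2
    unfold wr; rw [← e1, ← e2, ← e3]
  rcases inoutL H.h1 H.h2 hy hdy w1 w2 with ⟨-, -, rfl⟩ | ⟨e1, -, -⟩ | ⟨-, e1, -⟩
  · exact hT
  · omega
  · omega

/-- **Soundness of the geometric part**: compatible triangulations with `2 n1 n2` Steiner labels give centres such that all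
triangles of the nominal triangulation are positively oriented. -/
theorem tpos_of_comp (H : Patch n1 n2 P Q num M pos)
    (C : Comp P Q (2 * n1 * n2) (3 * (P.n + 2 * nd n1 n2)) s p q T) : ∃ A B, TPos n1 n2 pos A B := by
  obtain ⟨st, F⟩ := forced H C
  have hw : ∀ w i j, WP n1 n2 w i j → 0 < orient (pos (wu w i j)) (pos (wv w i j)) (q (st (wroom w) i j)) := by
    intro w i j hw
    have h := (C.pos _ (F.tri w i j hw)).2
    unfold otri at h
    simp only [(pp H C (pres_wu hw)).2, (pp H C (pres_wv hw)).2] at h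
    exact h
  refine ⟨fun i j => q (st 12 i j), fun i j => q (st 13 i j), ?_⟩
  constructor
  · intro w i j h hr
    have := hw w i j h
    rwa [hr] at this
  · intro w i j h hr
    have := hw w i j h
    rwa [hr] at this
  · intro i j h1 h2 h3 h4
    have h := (C.pos _ (door1 H C F h1 h2 h3 h4)).2
    unfold otri at h
    simp only [(pp H C (cell_pres h1 h2 h3 h4 (kk := 1) (by norm_num))).2] at h
    exact h
  · intro i j h1 h2 h3 h4
    have h := (C.pos _ (door1' H C F h1 h2 h3 h4)).2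
    unfold otri at h
    simp only [(pp H C (cell_pres h1 h2 h3 h4 (kk := 0) (by norm_num))).2] at h
    exact h
  · intro i j h1 h2 h3 h4
    have h := (C.pos _ (sdoor2 H C F h1 h2 h3 h4)).2
    unfold otri at h
    simp only [(pp H C (cell_pres (by omega) h2 h3 h4 (kk := 3) (by norm_num))).2] at h
    exact h
  · intro i j h1 h2 h3 h4
    have h := (C.pos _ (sdoor2' H C F h1 h2 h3 h4)).2
    unfold otri at h
    simp only [(pp H C (cell_pres (by omega) h2 h3 h4 (kk := 2) (by norm_num))).2] at h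
    exact h
  · intro i j h1 h2 h3 h4
    have h := (C.pos _ (C.rot _ (sdoor3' H C F h1 h2 h3 h4))).2
    unfold otri rot at h
    simp only [(pp H C (cell_pres h1 h2 (by omega) h4 (kk := 5) (by norm_num))).2] at h
    exact h
  · intro i j h1 h2 h3 h4
    have h := (C.pos _ (C.rot _ (C.rot _ (sdoor3 H C F h1 h2 h3 h4)))).2
    unfold otri rot at h
    simp only [(pp H C (cell_pres h1 h2 (by omega) h4 (kk := 4) (by norm_num))).2] at h
    exact h

end

end Pool.Agent.Lib.MP_6ff0c5_lc.C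
end
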