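import Pool.Agent.Lib.MP_6ff0c5_lc.K.Comp
import Pool.Agent.Lib.MP_6ff0c5_lc.C.Base

/-!
Symbolic polygons with holes: the vertices are labels of a type `L`, which are numbered along the boundary cycles.
-/

set_option autoImplicit false

namespace Pool.Agent.Lib.MP_6ff0c5_lc.C

open Pool.Agent.Lib.MP_6ff0c5_lc.K

variable {L : Type}

/-- the sum of a function along a path -/
def ps (f : L → L → ℤ) : List L → ℤ
  | [] => 0
  | [_] => 0
  | a :: b :: l => f a b + ps f (b :: l)

/-- the sum of a function along a closed polygon -/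
def cs (f : L → L → ℤ) : List L → ℤ
  | [] => 0
  | a :: l => ps f (a :: (l ++ [a]))

theorem ps_cons_cons (f : L → L → ℤ) (a b : L) (l : List L) : ps f (a :: b :: l) = f a b + ps f (b :: l) := rfl

theorem ps_append (f : L → L → ℤ) (l : List L) (a : L) (l' : List L) :
    ps f (l ++ a :: l') = ps f (l ++ [a]) + ps f (a :: l') := by
  induction l with
  | nil => simp [ps]
  | cons b l ih =>
    cases l with
    | nil => simp [ps]
    | cons c l =>
      simp only [List.cons_append] at ih ⊢
      rw [ps_cons_cons, ps_cons_cons, ih]; ring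

theorem lsum_zip (f : L → L → ℤ) (a : L) (l : List L) :
    lsum f ((a :: l).zip (l ++ [a])) = ps f (a :: (l ++ [a])) := by
  have key : ∀ (l : List L) (b : L), lsum f ((b :: l).zip (l ++ [a])) = ps f (b :: (l ++ [a])) := by
    intro l
    induction l with
    | nil => intro b; simp [ps, lsum]
    | cons c l ih =>
      intro b
      have h1 : (b :: c :: l).zip (c :: l ++ [a]) = (b, c) :: (c :: l).zip (l ++ [a]) := rfl
      rw [h1]
      have h2 : lsum f ((b, c) :: (c :: l).zip (l ++ [a])) = f b c + lsum f ((c :: l).zip (l ++ [a])) := by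
        unfold lsum; simp
      rw [h2, ih c]
      rfl
  exact key l a

theorem lsum_cyc (f : L → L → ℤ) (l : List L) : lsum f (l.zip (l.rotate 1)) = cs f l := by
  cases l with
  | nil => rfl
  | cons a l =>
    rw [List.rotate_cons_succ, List.rotate_zero, lsum_zip]
    rfl

theorem lsum_cycEdges_map (f : ℕ → ℕ → ℤ) (num : L → ℕ) (c : List L) :
    lsum f (cycEdges (c.map num)) = cs (fun a b => f (num a) (num b)) c := by
  rw [← lsum_cyc]
  unfold cycEdges lsum
  rw [← List.map_rotate, List.zip_map, List.map_map]
  rfl

/-- a triangle with other labels -/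
def mapT {L' : Type} (g : L → L') (t : L × L × L) : L' × L' × L' := (g t.1, g t.2.1, g t.2.2)

theorem bsum_mapT {L' : Type} (f : L' → L' → ℤ) (g : L → L') (t : L × L × L) :
    bsum f (mapT g t) = bsum (fun a b => f (g a) (g b)) t := rfl

theorem isVert_mapT {L' : Type} {g : L → L'} {t : L × L × L} {v : L'} :
    IsVert (mapT g t) v ↔ ∃ x, IsVert t x ∧ v = g x := by
  unfold IsVert mapT
  constructor
  · rintro (h | h | h)
    · exact ⟨_, Or.inl rfl, h⟩
    · exact ⟨_, Or.inr (Or.inl rfl), h⟩
    · exact ⟨_, Or.inr (Or.inr rfl), h⟩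
  · rintro ⟨x, rfl | rfl | rfl, rfl⟩ <;> simp

theorem otri_mapT {g : L → ℕ} {p : ℕ → Pt} {r : L → Pt} {t : L × L × L} (h : ∀ x, IsVert t x → p (g x) = r x) :
    otri p (mapT g t) = otri r t := by
  unfold otri mapT
  rw [h _ (Or.inl rfl), h _ (Or.inr (Or.inl rfl)), h _ (Or.inr (Or.inr rfl))]

variable [DecidableEq L]

/-- the number of a label: its place in the list of all labels -/
def num (all : List L) (x : L) : ℕ := all.idxOf x

theorem num_append {l l' : List L} {x : L} (h : x ∈ l) : num (l ++ l') x = num l x := by
  unfold num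
  exact List.idxOf_append_of_mem h

theorem num_lt {l : List L} {x : L} (h : x ∈ l) : num l x < l.length := List.idxOf_lt_length_of_mem h

theorem num_inj {l : List L} {x y : L} (hx : x ∈ l) (h : num l x = num l y) : x = y :=
  (List.idxOf_inj hx).1 h

theorem map_num {l : List L} (h : l.Nodup) : l.map (num l) = List.range l.length := by
  apply List.ext_getElem
  · simp
  · intro i h1 h2
    rw [List.getElem_map, List.getElem_range]
    exact h.idxOf_getElem i (by simpa using h1)

/-- the polygon with holes with the given cycles of labels and the given positions -/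
def symPoly (outer : List L) (holes : List (List L)) (pos : L → ℤ × ℤ) : Poly :=
  ⟨outer.map (num (outer ++ holes.flatten)), holes.map fun c => c.map (num (outer ++ holes.flatten)),
    ((outer ++ holes.flatten).map pos).map fun z => ((z.1 : ℚ), (z.2 : ℚ))⟩

section

variable (outer : List L) (holes : List (List L)) (pos : L → ℤ × ℤ)

theorem n_symPoly : (symPoly outer holes pos).n = (outer ++ holes.flatten).length := by
  unfold symPoly Poly.n
  simp only [List.length_map]

theorem pos_symPoly {x : L} (h : x ∈ outer ++ holes.flatten) :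
    (symPoly outer holes pos).pos (num (outer ++ holes.flatten) x) = toPt (pos x) := by
  have h1 := num_lt h
  unfold symPoly Poly.pos toPt
  simp only [List.map_map]
  rw [List.getD_eq_getElem _ _ (by rw [List.length_map]; exact h1), List.getElem_map]
  have h2 : (outer ++ holes.flatten)[num (outer ++ holes.flatten) x] = x := List.getElem_idxOf h1
  rw [h2]
  simp

theorem cycles_symPoly : (symPoly outer holes pos).cycles =
    (outer :: holes).map fun c => c.map (num (outer ++ holes.flatten)) := rfl

theorem flatten_symPoly (h : (outer ++ holes.flatten).Nodup) :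
    (symPoly outer holes pos).cycles.flatten = List.range (outer ++ holes.flatten).length := by
  rw [cycles_symPoly, ← List.map_flatten, List.flatten_cons, map_num h]

theorem isWall_symPoly {a b : ℕ} : IsWall (symPoly outer holes pos) a b ↔
    ∃ u v, a = num (outer ++ holes.flatten) u ∧ b = num (outer ++ holes.flatten) v ∧
      ((u, v) ∈ outer.zip (outer.rotate 1) ∨ ∃ c ∈ holes, (v, u) ∈ c.zip (c.rotate 1)) := by
  have key : ∀ (c : List L) (a b : ℕ), (a, b) ∈ cycEdges (c.map (num (outer ++ holes.flatten))) ↔
      ∃ u v, a = num (outer ++ holes.flatten) u ∧ b = num (outer ++ holes.flatten) v ∧ (u, v) ∈ c.zip (c.rotate 1) := by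
    intro c a b
    unfold cycEdges
    rw [← List.map_rotate, List.zip_map, List.mem_map]
    constructor
    · rintro ⟨⟨u, v⟩, h1, h2⟩
      obtain ⟨h3, h4⟩ := Prod.mk.inj h2
      exact ⟨u, v, h3.symm, h4.symm, h1⟩
    · rintro ⟨u, v, rfl, rfl, h⟩
      exact ⟨(u, v), h, rfl⟩
  have e1 : (symPoly outer holes pos).outer = outer.map (num (outer ++ holes.flatten)) := rfl
  unfold IsWall
  rw [e1, key]
  constructor
  · rintro (⟨u, v, h1, h2, h3⟩ | ⟨h, hh⟩)
    · exact ⟨u, v, h1, h2, Or.inl h3⟩
    · have hc : (symPoly outer holes pos).holes.get h ∈ holes.map fun c => c.map (num (outer ++ holes.flatten)) :=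
        List.get_mem _ h
      obtain ⟨c, hc', hc2⟩ := List.mem_map.1 hc
      have hh' : (b, a) ∈ cycEdges (c.map (num (outer ++ holes.flatten))) := by rw [hc2]; exact hh
      obtain ⟨v, u, h1, h2, h3⟩ := (key _ _ _).1 hh'
      exact ⟨u, v, h2, h1, Or.inr ⟨c, hc', h3⟩⟩
  · rintro ⟨u, v, h1, h2, h3 | ⟨c, hc, h3⟩⟩
    · exact Or.inl ⟨u, v, h1, h2, h3⟩
    · right
      have hc' : c.map (num (outer ++ holes.flatten)) ∈ (symPoly outer holes pos).holes := List.mem_map.2 ⟨c, hc, rfl⟩
      obtain ⟨h, hh⟩ := List.mem_iff_get.1 hc'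
      exact ⟨h, by rw [hh]; exact (key _ _ _).2 ⟨v, u, h2, h1, h3⟩⟩

end

/-- The symbolic form of `Data`: `st` are the Steiner labels and `far` the three far labels, `r` the real positions. -/
structure SData (outer : List L) (holes : List (List L)) (pos : L → ℤ × ℤ) (st far : List L) (r : L → Pt)
    {ι κ ξ : Type} [Fintype ι] [Fintype κ] [Fintype ξ] (T : ι → L × L × L) (F : κ → L × L × L)
    (hole : κ → Fin holes.length) (X : ξ → L × L × L) (Δ : L × L × L) : Prop where
  nodup : (outer ++ holes.flatten ++ st ++ far).Nodup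
  pos_eq : ∀ x ∈ outer ++ holes.flatten, r x = toPt (pos x)
  memT : ∀ i x, IsVert (T i) x → x ∈ outer ++ holes.flatten ++ st
  memF : ∀ i x, IsVert (F i) x → x ∈ outer ++ holes.flatten ++ st ++ far
  memX : ∀ i x, IsVert (X i) x → x ∈ outer ++ holes.flatten ++ st ++ far
  memΔ : ∀ x, IsVert Δ x → x ∈ far
  posT : ∀ i, 0 < otri r (T i)
  posF : ∀ i, 0 < otri r (F i)
  posX : ∀ i, 0 < otri r (X i)
  posΔ : 0 < otri r Δ
  used : ∀ x ∈ outer ++ holes.flatten ++ st, ∃ i, IsVert (T i) x
  bT : ∀ f : L → L → ℤ, (∀ a b, f b a = -f a b) → ∑ i, bsum f (T i) = cs f outer - (holes.map fun c => cs f c).sum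
  bF : ∀ f : L → L → ℤ, (∀ a b, f b a = -f a b) → ∀ h : Fin holes.length,
    ∑ k ∈ Finset.univ.filter (fun k => hole k = h), bsum f (F k) = cs f (holes.get h)
  bX : ∀ f : L → L → ℤ, (∀ a b, f b a = -f a b) → ∑ x, bsum f (X x) = bsum f Δ - cs f outer
  three : ∀ c ∈ outer :: holes, 3 ≤ c.length

section

variable {outer : List L} {holes : List (List L)} {pos : L → ℤ × ℤ} {st far : List L} {r : L → Pt}
    {ι κ ξ : Type} [Fintype ι] [Fintype κ] [Fintype ξ] {T : ι → L × L × L} {F : κ → L × L × L}
    {hole : κ → Fin holes.length} {X : ξ → L × L × L} {Δ : L × L × L}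

theorem length_holes : (symPoly outer holes pos).holes.length = holes.length := by
  show (holes.map _).length = _
  rw [List.length_map]

/-- the positions of the numbers -/
def realPos (outer : List L) (holes : List (List L)) (st far : List L) (r : L → Pt) (v : ℕ) : Pt :=
  if h : v < (outer ++ holes.flatten ++ st ++ far).length then r (outer ++ holes.flatten ++ st ++ far)[v] else (0, 0)

theorem realPos_num {x : L} (h : x ∈ outer ++ holes.flatten ++ st ++ far) :
    realPos outer holes st far r (num (outer ++ holes.flatten ++ st ++ far) x) = r x := by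
  unfold realPos
  rw [dif_pos (num_lt h)]
  congr 1
  exact List.getElem_idxOf (num_lt h)

omit [DecidableEq L] in
theorem get_holes (num : L → ℕ) (h : Fin holes.length) (h' : Fin (holes.map fun c => c.map num).length)
    (e : (h : ℕ) = h') : (holes.map fun c => c.map num).get h' = (holes.get h).map num := by
  obtain ⟨i, hi⟩ := h
  obtain ⟨i', hi'⟩ := h'
  simp only at e
  subst e
  simp

theorem SData.data (D : SData outer holes pos st far r T F hole X Δ) :
    Data (symPoly outer holes pos) st.length (realPos outer holes st far r)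
      (fun i => mapT (num (outer ++ holes.flatten ++ st ++ far)) (T i))
      (fun i => mapT (num (outer ++ holes.flatten ++ st ++ far)) (F i)) (fun i => Fin.cast length_holes.symm (hole i))
      (fun i => mapT (num (outer ++ holes.flatten ++ st ++ far)) (X i))
      (mapT (num (outer ++ holes.flatten ++ st ++ far)) Δ) := by
  have hn := n_symPoly outer holes pos
  have hnum : ∀ x ∈ outer ++ holes.flatten,
      num (outer ++ holes.flatten ++ st ++ far) x = num (outer ++ holes.flatten) x := by
    intro x hx
    rw [List.append_assoc, num_append hx]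
  have hnd : (outer ++ holes.flatten).Nodup := (List.nodup_append.1 ((List.nodup_append.1 D.nodup).1)).1
  have hr : ∀ t : L × L × L, (∀ x, IsVert t x → x ∈ outer ++ holes.flatten ++ st ++ far) →
      otri (realPos outer holes st far r) (mapT (num (outer ++ holes.flatten ++ st ++ far)) t) = otri r t := by
    intro t ht
    exact otri_mapT fun x hx => realPos_num (ht x hx)
  have hcyc : ∀ (f : ℕ → ℕ → ℤ) (c : List L), (∀ x ∈ c, x ∈ outer ++ holes.flatten) →
      lsum f (cycEdges (c.map (num (outer ++ holes.flatten)))) =
        cs (fun a b => f (num (outer ++ holes.flatten ++ st ++ far) a) (num (outer ++ holes.flatten ++ st ++ far) b)) c := by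
    intro f c hc
    rw [← lsum_cycEdges_map]
    congr 2
    exact List.map_congr_left fun x hx => (hnum x (hc x hx)).symm
  have hmo : ∀ x ∈ outer, x ∈ outer ++ holes.flatten := fun x hx => List.mem_append_left _ hx
  have hmh : ∀ c ∈ holes, ∀ x ∈ c, x ∈ outer ++ holes.flatten := fun c hc x hx =>
    List.mem_append_right _ (List.mem_flatten.2 ⟨c, hc, hx⟩)
  constructor
  · intro v hv
    rw [hn] at hv
    have hx : (outer ++ holes.flatten)[v] ∈ outer ++ holes.flatten := List.getElem_mem hv
    have hnv : num (outer ++ holes.flatten) (outer ++ holes.flatten)[v] = v := hnd.idxOf_getElem v hv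
    have h1 := pos_symPoly outer holes pos hx
    rw [hnv] at h1
    rw [h1, ← D.pos_eq _ hx]
    have h2 := realPos_num (st := st) (far := far) (r := r) (x := (outer ++ holes.flatten)[v])
      (List.mem_append_left _ (List.mem_append_left _ hx))
    rw [hnum _ hx, hnv] at h2
    exact h2
  · intro i; rw [hr _ fun x hx => List.mem_append_left _ (D.memT i x hx)]; exact D.posT i
  · intro i; rw [hr _ (D.memF i)]; exact D.posF i
  · intro i; rw [hr _ (D.memX i)]; exact D.posX i
  · rw [hr _ fun x hx => List.mem_append_right _ (D.memΔ x hx)]; exact D.posΔ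
  · intro i v hv
    obtain ⟨x, hx, rfl⟩ := isVert_mapT.1 hv
    rw [hn, ← List.length_append, num_append (D.memT i x hx)]
    exact num_lt (D.memT i x hx)
  · intro v hv
    rw [hn, ← List.length_append] at hv
    have hx : (outer ++ holes.flatten ++ st)[v] ∈ outer ++ holes.flatten ++ st := List.getElem_mem hv
    have hnd' : (outer ++ holes.flatten ++ st).Nodup := (List.nodup_append.1 D.nodup).1
    have hnv : num (outer ++ holes.flatten ++ st) (outer ++ holes.flatten ++ st)[v] = v := hnd'.idxOf_getElem v hv
    obtain ⟨i, hi⟩ := D.used _ hx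
    refine ⟨i, isVert_mapT.2 ⟨_, hi, ?_⟩⟩
    rw [num_append hx, hnv]
  · intro v hv
    obtain ⟨x, hx, rfl⟩ := isVert_mapT.1 hv
    have hxf := D.memΔ x hx
    have hxn : x ∉ outer ++ holes.flatten ++ st := fun h => (List.nodup_append.1 D.nodup).2.2 x h x hxf rfl
    rw [hn, ← List.length_append]
    unfold num
    rw [List.idxOf_append_of_notMem hxn]
    omega
  · intro f hf
    have h1 := D.bT (fun a b => f (num (outer ++ holes.flatten ++ st ++ far) a) (num (outer ++ holes.flatten ++ st ++ far) b))
      fun a b => hf _ _
    have h2 : lsum f (cycEdges (symPoly outer holes pos).outer) = _ := hcyc f outer hmo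
    rw [h2]
    have h3 : ((symPoly outer holes pos).holes.map fun c => lsum f (cycEdges c)) =
        holes.map fun c => cs (fun a b => f (num (outer ++ holes.flatten ++ st ++ far) a)
          (num (outer ++ holes.flatten ++ st ++ far) b)) c := by
      show (holes.map _).map _ = _
      rw [List.map_map]
      exact List.map_congr_left fun c hc => hcyc f c (hmh c hc)
    rw [h3]
    exact h1
  · intro f hf h
    have h1 := D.bF (fun a b => f (num (outer ++ holes.flatten ++ st ++ far) a) (num (outer ++ holes.flatten ++ st ++ far) b))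
      (fun a b => hf _ _) (Fin.cast length_holes h)
    have h2 : (symPoly outer holes pos).holes.get h =
        (holes.get (Fin.cast length_holes h)).map (num (outer ++ holes.flatten)) := get_holes _ _ _ rfl
    rw [h2, hcyc f _ (hmh _ (List.get_mem _ _)), ← h1]
    refine Finset.sum_congr ?_ fun k _ => rfl
    ext k
    simp only [Finset.mem_filter, Finset.mem_univ, true_and]
    constructor
    · rintro rfl; rfl
    · intro h3; rw [h3]; rfl
  · intro f hf
    have h1 := D.bX (fun a b => f (num (outer ++ holes.flatten ++ st ++ far) a) (num (outer ++ holes.flatten ++ st ++ far) b))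
      fun a b => hf _ _
    have h2 : lsum f (cycEdges (symPoly outer holes pos).outer) = _ := hcyc f outer hmo
    rw [h2]
    exact h1
  · rw [flatten_symPoly outer holes pos hnd, hn]
  · intro c hc
    rw [cycles_symPoly] at hc
    obtain ⟨c', hc', rfl⟩ := List.mem_map.1 hc
    rw [List.length_map]
    exact D.three c' hc'

end

end Pool.Agent.Lib.MP_6ff0c5_lc.C
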