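import Pool.Agent.Lib.MP_6ff0c5_lc.C.Sym

/-!
Tables of directed edges of the periodic pattern, their translates, and the cancellation of opposite edges.
-/

set_option autoImplicit false

namespace Pool.Agent.Lib.MP_6ff0c5_lc.C

open Pool.Agent.Lib.MP_6ff0c5_lc.K

/-- translation of a directed edge -/
def she (c d : ℤ) (e : Vx × Vx) : Vx × Vx := (sh e.1 c d, sh e.2 c d)

/-- the sum of `f` over a table of edges translated by `(i, j)` -/
def S (f : Vx → Vx → ℤ) (E : List (Vx × Vx)) (i j : ℤ) : ℤ := lsum f (E.map (she i j))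

/-- insertion of an edge with cancellation -/
def ins (e : Vx × Vx) (l : List (Vx × Vx)) : List (Vx × Vx) := if (e.2, e.1) ∈ l then l.erase (e.2, e.1) else e :: l

/-- cancellation of opposite edges -/
def norm (E : List (Vx × Vx)) : List (Vx × Vx) := E.foldr ins []

/-- two tables of edges are the same chain -/
def Same (E E' : List (Vx × Vx)) : Prop := norm (E ++ E'.map Prod.swap) = []

instance (E E' : List (Vx × Vx)) : Decidable (Same E E') := inferInstanceAs (Decidable (_ = _))

theorem lsum_append (f : Vx → Vx → ℤ) (E E' : List (Vx × Vx)) : lsum f (E ++ E') = lsum f E + lsum f E' := by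
  unfold lsum; simp

theorem lsum_cons (f : Vx → Vx → ℤ) (e : Vx × Vx) (E : List (Vx × Vx)) : lsum f (e :: E) = f e.1 e.2 + lsum f E := by
  unfold lsum; simp

theorem lsum_erase (f : Vx → Vx → ℤ) {e : Vx × Vx} {E : List (Vx × Vx)} (h : e ∈ E) :
    lsum f (E.erase e) = lsum f E - f e.1 e.2 := by
  have h1 := (List.perm_cons_erase h).map fun e => f e.1 e.2
  have h2 := h1.sum_eq
  unfold lsum
  rw [h2]
  simp

theorem lsum_ins {f : Vx → Vx → ℤ} (hf : ∀ a b, f b a = -f a b) (e : Vx × Vx) (E : List (Vx × Vx)) :
    lsum f (ins e E) = f e.1 e.2 + lsum f E := by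
  unfold ins
  split_ifs with h
  · rw [lsum_erase f h]
    have := hf e.1 e.2
    simp only
    linarith
  · exact lsum_cons f e E

theorem lsum_norm {f : Vx → Vx → ℤ} (hf : ∀ a b, f b a = -f a b) (E : List (Vx × Vx)) :
    lsum f (norm E) = lsum f E := by
  induction E with
  | nil => rfl
  | cons e E ih =>
    show lsum f (ins e (norm E)) = _
    rw [lsum_ins hf, ih, lsum_cons]

theorem lsum_swap {f : Vx → Vx → ℤ} (hf : ∀ a b, f b a = -f a b) (E : List (Vx × Vx)) :
    lsum f (E.map Prod.swap) = -lsum f E := by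
  induction E with
  | nil => rfl
  | cons e E ih =>
    rw [List.map_cons, lsum_cons, lsum_cons, ih]
    have := hf e.1 e.2
    simp only [Prod.fst_swap, Prod.snd_swap]
    linarith

theorem S_eq (f : Vx → Vx → ℤ) (E : List (Vx × Vx)) (i j : ℤ) :
    S f E i j = lsum (fun u v => f (sh u i j) (sh v i j)) E := by
  unfold S lsum
  rw [List.map_map]
  rfl

theorem Same.S {f : Vx → Vx → ℤ} (hf : ∀ a b, f b a = -f a b) {E E' : List (Vx × Vx)} (h : Same E E') (i j : ℤ) :
    S f E i j = S f E' i j := by
  rw [S_eq, S_eq]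
  set g : Vx → Vx → ℤ := fun u v => f (sh u i j) (sh v i j)
  have hg : ∀ a b, g b a = -g a b := fun a b => hf _ _
  have h1 := lsum_norm hg (E ++ E'.map Prod.swap)
  rw [show norm (E ++ E'.map Prod.swap) = [] from h, lsum_append, lsum_swap hg] at h1
  have h2 : lsum g [] = 0 := rfl
  linarith

theorem S_append (f : Vx → Vx → ℤ) (E E' : List (Vx × Vx)) (i j : ℤ) : S f (E ++ E') i j = S f E i j + S f E' i j := by
  rw [S_eq, S_eq, S_eq, lsum_append]

theorem S_swap {f : Vx → Vx → ℤ} (hf : ∀ a b, f b a = -f a b) (E : List (Vx × Vx)) (i j : ℤ) :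
    S f (E.map Prod.swap) i j = -S f E i j := by
  rw [S_eq, S_eq]
  exact lsum_swap (fun a b => hf _ _) E

theorem sh_comp (v : Vx) (a b c d : ℤ) : sh (sh v a b) c d = sh v (c + a) (d + b) := by
  unfold sh; ext <;> simp only <;> ring

theorem S_shift (f : Vx → Vx → ℤ) (E : List (Vx × Vx)) (c d i j : ℤ) :
    S f (E.map (she c d)) i j = S f E (i + c) (j + d) := by
  unfold S
  rw [List.map_map]
  congr 2
  funext e
  show she i j (she c d e) = _
  unfold she
  rw [sh_comp, sh_comp]

/-- the edges of a list of triangles -/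
def tE {L : Type} (T : List (L × L × L)) : List (L × L) := T.flatMap fun t => [(t.1, t.2.1), (t.2.1, t.2.2), (t.2.2, t.1)]

/-- the edges of a path -/
def pE {L : Type} (l : List L) : List (L × L) := l.zip l.tail

/-- the edges of a cycle -/
def cE {L : Type} (l : List L) : List (L × L) := l.zip (l.rotate 1)

theorem lsum_tE {L : Type} (f : L → L → ℤ) (T : List (L × L × L)) : lsum f (tE T) = (T.map (bsum f)).sum := by
  unfold tE lsum
  induction T with
  | nil => rfl
  | cons t T ih =>
    rw [List.flatMap_cons, List.map_append, List.sum_append, ih]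
    simp only [List.map_cons, List.map_nil, List.sum_cons, List.sum_nil]
    unfold bsum
    ring

theorem lsum_pE {L : Type} (f : L → L → ℤ) (l : List L) : lsum f (pE l) = ps f l := by
  induction l with
  | nil => rfl
  | cons a l ih =>
    cases l with
    | nil => rfl
    | cons b l =>
      rw [ps_cons_cons, ← ih]
      unfold pE lsum
      simp

theorem lsum_cE {L : Type} (f : L → L → ℤ) (l : List L) : lsum f (cE l) = cs f l := lsum_cyc f l

/-- the translate of a list of labels -/
def blk (tab : List Vx) (i j : ℤ) : List Vx := tab.map fun v => sh v i j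

/-- the translate of a list of triangles -/
def tblk (tab : List (Vx × Vx × Vx)) (i j : ℤ) : List (Vx × Vx × Vx) := tab.map (mapT fun v => sh v i j)

theorem sum_tblk (f : Vx → Vx → ℤ) (tab : List (Vx × Vx × Vx)) (i j : ℤ) :
    ((tblk tab i j).map (bsum f)).sum = S f (tE tab) i j := by
  rw [S_eq, lsum_tE, tblk, List.map_map]
  rfl

theorem ps_blk (f : Vx → Vx → ℤ) (tab : List Vx) (i j : ℤ) : ps f (blk tab i j) = S f (pE tab) i j := by
  rw [S_eq, lsum_pE]
  unfold blk
  induction tab with
  | nil => rfl
  | cons a l ih =>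
    cases l with
    | nil => rfl
    | cons b l =>
      simp only [List.map_cons] at ih ⊢
      rw [ps_cons_cons, ps_cons_cons, ih]

theorem cs_blk (f : Vx → Vx → ℤ) (tab : List Vx) (i j : ℤ) : cs f (blk tab i j) = S f (cE tab) i j := by
  rw [S_eq, lsum_cE]
  cases tab with
  | nil => rfl
  | cons a l =>
    show ps f (sh a i j :: (l.map _ ++ [sh a i j])) = ps _ (a :: (l ++ [a]))
    have h := ps_blk f (a :: (l ++ [a])) i j
    rw [S_eq, lsum_pE] at h
    rw [← h]
    unfold blk
    simp

theorem sum_flatMap_range {α : Type*} (g : ℕ → List α) (φ : α → ℤ) (k : ℕ) :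
    (((List.range k).flatMap g).map φ).sum = ∑ t ∈ Finset.range k, ((g t).map φ).sum := by
  induction k with
  | zero => simp
  | succ k ih =>
    rw [List.range_succ, List.flatMap_append, List.map_append, List.sum_append, ih, Finset.sum_range_succ]
    simp

theorem ps_flatMap {L : Type} (f : L → L → ℤ) (g g' : ℕ → List L) (h : ℕ → L) (hg : ∀ t, g t = h t :: g' t) (k : ℕ)
    (rest : List L) : ps f ((List.range k).flatMap g ++ h k :: rest) =
      ∑ t ∈ Finset.range k, ps f (g t ++ [h (t + 1)]) + ps f (h k :: rest) := by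
  induction k generalizing rest with
  | zero => simp
  | succ k ih =>
    have e1 : (List.range (k + 1)).flatMap g = (List.range k).flatMap g ++ g k := by
      rw [List.range_succ, List.flatMap_append]; simp
    have e2 : (List.range (k + 1)).flatMap g ++ h (k + 1) :: rest =
        (List.range k).flatMap g ++ h k :: (g' k ++ h (k + 1) :: rest) := by
      rw [e1, List.append_assoc, hg k]; rfl
    have e3 : h k :: (g' k ++ h (k + 1) :: rest) = g k ++ h (k + 1) :: rest := by rw [hg k]; rfl
    rw [e2, ih, e3, ps_append, Finset.sum_range_succ]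
    ring

end Pool.Agent.Lib.MP_6ff0c5_lc.C
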